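import Mathlib

set_option autoImplicit false

/-!
# The Wang-Swendsen-Kotecky dynamics on proper colourings of a graph
-/

namespace Pool.Agent.Lib.WSK

variable {V W : Type*} {q : ℕ}

/-- `WSKStep G σ τ`: the WSK dynamics moves from the proper colouring `σ` to the proper colouring
`τ` with positive probability in one step. That is, there are distinct colours `α`, `β` and a set
`K` of connected components of the subgraph of `G` induced by `{x | σ x ∈ {α, β}}` such that `τ`
is obtained from `σ` by exchanging `α` and `β` on the components belonging to `K`. -/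
def WSKStep (G : SimpleGraph V) (σ τ : G.Coloring (Fin q)) : Prop :=
  ∃ α β : Fin q, α ≠ β ∧
    ∃ K : Set (G.induce {x | σ x = α ∨ σ x = β}).ConnectedComponent,
      (∀ x : {x | σ x = α ∨ σ x = β},
        (G.induce {x | σ x = α ∨ σ x = β}).connectedComponentMk x ∈ K →
          τ x = Equiv.swap α β (σ x)) ∧
      (∀ x : {x | σ x = α ∨ σ x = β},
        (G.induce {x | σ x = α ∨ σ x = β}).connectedComponentMk x ∉ K → τ x = σ x) ∧
      ∀ x, ¬ (σ x = α ∨ σ x = β) → τ x = σ x

/-- The WSK dynamics for `q` colours on `G` is ergodic: the Markov chain is irreducible on the set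
of all proper `q`-colourings of `G`. -/
def WSKErgodic (G : SimpleGraph V) (q : ℕ) : Prop :=
  ∀ σ τ : G.Coloring (Fin q), Relation.ReflTransGen (WSKStep G) σ τ

/-- properness of a map -/
def Proper (G : SimpleGraph V) (σ : V → Fin q) : Prop := ∀ x y, G.Adj x y → σ x ≠ σ y

/-- swapping on a closed set, for maps -/
def Sw (G : SimpleGraph V) (σ τ : V → Fin q) : Prop :=
  ∃ α β : Fin q, α ≠ β ∧ ∃ S : Set V,
    (∀ x ∈ S, ∀ y, G.Adj x y → (σ x = α ∨ σ x = β) → (σ y = α ∨ σ y = β) → y ∈ S) ∧
    (∀ x ∈ S, τ x = Equiv.swap α β (σ x)) ∧ (∀ x ∉ S, τ x = σ x)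

theorem closed_of_reachable {G : SimpleGraph V} {σ : V → Fin q} {α β : Fin q} {S : Set V}
    (hS : ∀ x ∈ S, ∀ y, G.Adj x y → (σ x = α ∨ σ x = β) → (σ y = α ∨ σ y = β) → y ∈ S)
    {x y : {x | σ x = α ∨ σ x = β}}
    (h : (G.induce {x | σ x = α ∨ σ x = β}).Reachable x y) (hx : (x : V) ∈ S) : (y : V) ∈ S := by
  obtain ⟨w⟩ := h
  induction w with
  | nil => exact hx
  | cons hadj _ ih =>
    apply ih
    rename_i u v _ _
    exact hS _ hx _ (by simpa using hadj) u.2 v.2

theorem wskStep_iff {G : SimpleGraph V} (σ τ : G.Coloring (Fin q)) :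
    WSKStep G σ τ ↔ Sw G (fun x => σ x) (fun x => τ x) := by
  constructor
  · rintro ⟨α, β, hne, K, h1, h2, h3⟩
    refine ⟨α, β, hne, {x | ∃ h : σ x = α ∨ σ x = β,
      (G.induce {x | σ x = α ∨ σ x = β}).connectedComponentMk ⟨x, h⟩ ∈ K}, ?_, ?_, ?_⟩
    · rintro x ⟨hx, hxK⟩ y hadj _ hy
      refine ⟨hy, ?_⟩
      have : (G.induce {x | σ x = α ∨ σ x = β}).Adj ⟨x, hx⟩ ⟨y, hy⟩ := by simpa using hadj
      have he := SimpleGraph.ConnectedComponent.sound this.reachable
      rwa [← he]
    · rintro x ⟨hx, hxK⟩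
      exact h1 ⟨x, hx⟩ hxK
    · intro x hx
      by_cases hc : σ x = α ∨ σ x = β
      · refine h2 ⟨x, hc⟩ (fun hK => hx ⟨hc, hK⟩)
      · exact h3 x hc
  · rintro ⟨α, β, hne, S, hS, h1, h2⟩
    refine ⟨α, β, hne, {C | ∃ x : {x | σ x = α ∨ σ x = β}, (x : V) ∈ S ∧
      (G.induce {x | σ x = α ∨ σ x = β}).connectedComponentMk x = C}, ?_, ?_, ?_⟩
    · rintro x ⟨y, hyS, hyx⟩
      exact h1 _ (closed_of_reachable hS (SimpleGraph.ConnectedComponent.exact hyx) hyS)
    · intro x hx
      exact h2 _ (fun hxS => hx ⟨x, hxS, rfl⟩)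
    · intro x hx
      by_cases hxS : x ∈ S
      · push Not at hx
        exact (h1 x hxS).trans (Equiv.swap_apply_of_ne_of_ne hx.1 hx.2)
      · exact h2 x hxS

theorem Sw.proper {G : SimpleGraph V} {σ τ : V → Fin q} (h : Sw G σ τ) (hσ : Proper G σ) :
    Proper G τ := by
  obtain ⟨α, β, hne, S, hS, h1, h2⟩ := h
  intro x y hadj
  have hxy := hσ x y hadj
  by_cases hx : x ∈ S <;> by_cases hy : y ∈ S
  · rw [h1 x hx, h1 y hy]
    exact fun h => hxy ((Equiv.swap α β).injective h)
  · rw [h1 x hx, h2 y hy]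
    intro h
    by_cases hcx : σ x = α ∨ σ x = β
    · by_cases hcy : σ y = α ∨ σ y = β
      · exact hy (hS x hx y hadj hcx hcy)
      · apply hcy
        rcases hcx with hc | hc
        · rw [hc, Equiv.swap_apply_left] at h; exact Or.inr h.symm
        · rw [hc, Equiv.swap_apply_right] at h; exact Or.inl h.symm
    · push Not at hcx
      rw [Equiv.swap_apply_of_ne_of_ne hcx.1 hcx.2] at h
      exact hxy h
  · rw [h2 x hx, h1 y hy]
    intro h
    by_cases hcy : σ y = α ∨ σ y = β
    · by_cases hcx : σ x = α ∨ σ x = β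
      · exact hx (hS y hy x hadj.symm hcy hcx)
      · apply hcx
        rcases hcy with hc | hc
        · rw [hc, Equiv.swap_apply_left] at h; exact Or.inr h
        · rw [hc, Equiv.swap_apply_right] at h; exact Or.inl h
    · push Not at hcy
      rw [Equiv.swap_apply_of_ne_of_ne hcy.1 hcy.2] at h
      exact hxy h
  · rw [h2 x hx, h2 y hy]; exact hxy

theorem swap_mem_pair {α β c : Fin q} : (Equiv.swap α β c = α ∨ Equiv.swap α β c = β) ↔
    (c = α ∨ c = β) := by
  constructor
  · rintro (h | h)
    · right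
      exact (Equiv.swap α β).injective (h.trans (Equiv.swap_apply_right α β).symm)
    · left
      exact (Equiv.swap α β).injective (h.trans (Equiv.swap_apply_left α β).symm)
  · rintro (h | h)
    · rw [h, Equiv.swap_apply_left]; exact Or.inr rfl
    · rw [h, Equiv.swap_apply_right]; exact Or.inl rfl

theorem Sw.symm {G : SimpleGraph V} {σ τ : V → Fin q} (h : Sw G σ τ) : Sw G τ σ := by
  obtain ⟨α, β, hne, S, hS, h1, h2⟩ := h
  have hc : ∀ x, (τ x = α ∨ τ x = β) ↔ (σ x = α ∨ σ x = β) := by
    intro x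
    by_cases hx : x ∈ S
    · rw [h1 x hx, swap_mem_pair]
    · rw [h2 x hx]
  refine ⟨α, β, hne, S, ?_, ?_, ?_⟩
  · intro x hx y hadj hcx hcy
    exact hS x hx y hadj ((hc x).mp hcx) ((hc y).mp hcy)
  · intro x hx
    rw [h1 x hx, Equiv.swap_apply_self]
  · intro x hx
    rw [h2 x hx]

/-- equivalence of maps under closed-set swaps -/
def Eqv (G : SimpleGraph V) (σ τ : V → Fin q) : Prop := Relation.ReflTransGen (Sw G) σ τ

theorem Eqv.refl {G : SimpleGraph V} (σ : V → Fin q) : Eqv G σ σ := Relation.ReflTransGen.refl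

theorem Eqv.symm {G : SimpleGraph V} {σ τ : V → Fin q} (h : Eqv G σ τ) : Eqv G τ σ := by
  unfold Eqv at h ⊢
  induction h with
  | refl => exact Relation.ReflTransGen.refl
  | tail _ hs ih => exact Relation.ReflTransGen.head hs.symm ih

theorem Eqv.trans {G : SimpleGraph V} {σ τ ρ : V → Fin q} (h : Eqv G σ τ) (h' : Eqv G τ ρ) :
    Eqv G σ ρ := Relation.ReflTransGen.trans h h'

theorem Eqv.proper {G : SimpleGraph V} {σ τ : V → Fin q} (h : Eqv G σ τ) (hσ : Proper G σ) :
    Proper G τ := by
  unfold Eqv at h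
  induction h with
  | refl => exact hσ
  | tail _ hs ih => exact hs.proper ih

theorem ergodic_iff {G : SimpleGraph V} : WSKErgodic G q ↔
    ∀ σ τ : V → Fin q, Proper G σ → Proper G τ → Eqv G σ τ := by
  constructor
  · intro h σ τ hσ hτ
    have h' := h (SimpleGraph.Coloring.mk σ (fun {x y} hadj => hσ x y hadj))
      (SimpleGraph.Coloring.mk τ (fun {x y} hadj => hτ x y hadj))
    have key : ∀ a b : G.Coloring (Fin q), Relation.ReflTransGen (WSKStep G) a b →
        Eqv G (fun x => a x) (fun x => b x) := by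
      intro a b hab
      induction hab with
      | refl => exact Eqv.refl _
      | tail _ hs ih => exact Relation.ReflTransGen.tail ih ((wskStep_iff _ _).mp hs)
    exact key _ _ h'
  · intro h σ τ
    have hσ : Proper G (fun x => σ x) := fun x y hadj => σ.valid hadj
    have hτ : Proper G (fun x => τ x) := fun x y hadj => τ.valid hadj
    have h' := h _ _ hσ hτ
    have key : ∀ f g : V → Fin q, Relation.ReflTransGen (Sw G) f g → ∀ a : G.Coloring (Fin q),
        (fun x => a x) = f → ∀ b : G.Coloring (Fin q), (fun x => b x) = g →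
        Relation.ReflTransGen (WSKStep G) a b := by
      intro f g hfg
      induction hfg with
      | refl =>
        intro a ha b hb
        have : a = b := by
          apply RelHom.ext
          intro x
          exact congrFun (ha.trans hb.symm) x
        rw [this]
      | @tail g g' hfg hs ih =>
        intro a ha b hb
        have hg : Proper G g := by
          have hf : Proper G f := by
            rw [← ha]; exact fun x y hadj => a.valid hadj
          exact Eqv.proper hfg hf
        have hstep := ih a ha (SimpleGraph.Coloring.mk g (fun {x y} hadj => hg x y hadj)) rfl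
        refine Relation.ReflTransGen.tail hstep ?_
        rw [wskStep_iff]
        rw [hb]
        exact hs
    exact key _ _ h' σ rfl τ rfl

/-- closed-set swaps are preserved by pulling back along a graph isomorphism and renaming
colours. -/
theorem Sw.transport {G : SimpleGraph V} {H : SimpleGraph W} (φ : G ≃g H) (π : Equiv.Perm (Fin q))
    {σ τ : W → Fin q} (h : Sw H σ τ) : Sw G (fun x => π (σ (φ x))) (fun x => π (τ (φ x))) := by
  obtain ⟨α, β, hne, S, hS, h1, h2⟩ := h
  refine ⟨π α, π β, fun h => hne (π.injective h), φ ⁻¹' S, ?_, ?_, ?_⟩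
  · intro x hx y hadj hcx hcy
    refine hS (φ x) hx (φ y) (φ.map_adj_iff.mpr hadj) ?_ ?_
    · exact hcx.imp (fun h => π.injective h) (fun h => π.injective h)
    · exact hcy.imp (fun h => π.injective h) (fun h => π.injective h)
  · intro x hx
    show π (τ (φ x)) = Equiv.swap (π α) (π β) (π (σ (φ x)))
    rw [h1 _ hx]
    by_cases ha : σ (φ x) = α
    · rw [ha, Equiv.swap_apply_left, Equiv.swap_apply_left]
    · by_cases hb : σ (φ x) = β
      · rw [hb, Equiv.swap_apply_right, Equiv.swap_apply_right]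
      · rw [Equiv.swap_apply_of_ne_of_ne ha hb, Equiv.swap_apply_of_ne_of_ne
          (fun h => ha (π.injective h)) (fun h => hb (π.injective h))]
  · intro x hx
    show π (τ (φ x)) = π (σ (φ x))
    rw [h2 _ hx]

theorem Eqv.transport {G : SimpleGraph V} {H : SimpleGraph W} (φ : G ≃g H)
    (π : Equiv.Perm (Fin q)) {σ τ : W → Fin q} (h : Eqv H σ τ) :
    Eqv G (fun x => π (σ (φ x))) (fun x => π (τ (φ x))) := by
  unfold Eqv at h
  induction h with
  | refl => exact Eqv.refl _
  | tail _ hs ih => exact Relation.ReflTransGen.tail ih (hs.transport φ π)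

/-- a global exchange of two colours is a closed-set swap -/
theorem Sw.global {G : SimpleGraph V} (σ : V → Fin q) {α β : Fin q} (hne : α ≠ β) :
    Sw G σ (fun x => Equiv.swap α β (σ x)) :=
  ⟨α, β, hne, Set.univ, fun _ _ _ _ _ _ => trivial, fun _ _ => rfl, fun _ h => absurd trivial h⟩

theorem Eqv.perm {G : SimpleGraph V} (σ : V → Fin q) (π : Equiv.Perm (Fin q)) :
    Eqv G σ (fun x => π (σ x)) := by
  induction π using Equiv.Perm.swap_induction_on generalizing σ with
  | one => exact Eqv.refl _
  | swap_mul f x y hxy ih =>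
    refine (ih σ).trans ?_
    exact Relation.ReflTransGen.single (Sw.global (G := G) (fun z => f (σ z)) hxy)

theorem ergodic_of_iso {G : SimpleGraph V} {H : SimpleGraph W} (φ : G ≃g H)
    (h : WSKErgodic H q) : WSKErgodic G q := by
  rw [ergodic_iff] at h ⊢
  intro σ τ hσ hτ
  have hp : ∀ ρ : V → Fin q, Proper G ρ → Proper H (fun x => ρ (φ.symm x)) := by
    intro ρ hρ x y hadj
    exact hρ _ _ (φ.symm.map_adj_iff.mpr hadj)
  have := (h _ _ (hp σ hσ) (hp τ hτ)).transport φ (Equiv.refl _)
  simpa using this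

end Pool.Agent.Lib.WSK
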