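import Mathlib
import Pool.Agent.Lib.WSK.Basic

set_option autoImplicit false

/-!
# The periodic triangular lattice and the periodic kagome lattice
-/

namespace Pool.Agent.Lib.WSK

/-- The periodic triangular lattice `T_n`: the vertices are the elements of `ℤ_n × ℤ_n`, and `x` is
adjacent to `x ± e₁`, `x ± e₂` and `x ± (e₁ - e₂)`. -/
def triangularTorus (n : ℕ) : SimpleGraph (ZMod n × ZMod n) :=
  SimpleGraph.fromRel fun x y => y = x + (1, 0) ∨ y = x + (0, 1) ∨ y = x + (1, -1)

/-- The periodic honeycomb graph: the vertices are `(x, A) = (x, false)` and `(x, B) = (x, true)`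
for `x ∈ ℤ_n × ℤ_n`, and `(x, A)` is adjacent to `(x, B)`, `(x - e₁, B)` and `(x - e₂, B)`. -/
def honeycombTorus (n : ℕ) : SimpleGraph ((ZMod n × ZMod n) × Bool) :=
  SimpleGraph.fromRel fun u v => u.2 = false ∧ v.2 = true ∧
    (v.1 = u.1 ∨ v.1 = u.1 - (1, 0) ∨ v.1 = u.1 - (0, 1))

/-- The periodic kagome lattice `K_n`: the line graph of the periodic honeycomb graph. -/
def kagomeTorus (n : ℕ) : SimpleGraph (honeycombTorus n).edgeSet :=
  (honeycombTorus n).lineGraph

instance (n : ℕ) : DecidableRel (triangularTorus n).Adj := fun x y => by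
  unfold triangularTorus
  simp only [SimpleGraph.fromRel_adj]
  infer_instance

/-- row-major enumeration of the vertices of `T_n` -/
def tvtx (n : ℕ) (k : ℕ) : ZMod n × ZMod n := (((k % n : ℕ) : ZMod n), ((k / n : ℕ) : ZMod n))

end Pool.Agent.Lib.WSK
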