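import Mathlib
import Pool.Agent.Lib.WSK.Basic
import Pool.Agent.Lib.WSK.Graphs

set_option autoImplicit false
set_option maxRecDepth 100000
set_option synthInstance.maxHeartbeats 400000
set_option synthInstance.maxSize 1024

/-!
# The degree of a four-colouring of `T_n` modulo four is a Kempe invariant
-/

namespace Pool.Agent.Lib.WSK

/-- Vandermonde product of four colours -/
def vd (a b c d : Fin 4) : ℤ :=
  ((b.val : ℤ) - a.val) * ((c.val : ℤ) - a.val) * ((d.val : ℤ) - a.val) *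
  ((c.val : ℤ) - b.val) * ((d.val : ℤ) - b.val) * ((d.val : ℤ) - c.val)

/-- the sign of `(a, b, c, d)` as a permutation (zero if two entries agree), modulo four -/
def g (d a b c : Fin 4) : ZMod 4 :=
  if 0 < vd a b c d then 1 else if vd a b c d < 0 then -1 else 0

theorem g_coboundary : ∀ a b : Fin 4, a ≠ b → ∀ c, c ≠ a → c ≠ b → ∀ d d' : Fin 4, d ≠ d' →
    g d a b c = g d' a b c + (g d a b d' + g d b c d' + g d c a d') := by
  decide +kernel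

theorem g_anti : ∀ d a b d' : Fin 4, g d a b d' + g d b a d' = 0 := by
  decide +kernel

/-- contribution of a vertex of colour `α` lying in the swapped set -/
def J (α β γ : Fin 4) (mu : Bool) (cu cv cw : Fin 4) : ZMod 4 :=
  if mu = true ∧ cu = α ∧ ((cv = β ∧ cw = γ) ∨ (cv = γ ∧ cw = β)) then 1 else 0

/-- new colour -/
def nc (α β : Fin 4) (mu : Bool) (c : Fin 4) : Fin 4 := if mu then Equiv.swap α β c else c

theorem g_local : ∀ α β : Fin 4, α ≠ β → ∀ γ, γ ≠ α → γ ≠ β → ∀ δ, δ ≠ α → δ ≠ β → δ ≠ γ →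
    ∀ cu cv : Fin 4, cu ≠ cv → ∀ cw, cw ≠ cu → cw ≠ cv → ∀ mu mv mw : Bool,
    (mu = mv ∨ ¬ ((cu = α ∨ cu = β) ∧ (cv = α ∨ cv = β))) →
    (mu = mw ∨ ¬ ((cu = α ∨ cu = β) ∧ (cw = α ∨ cw = β))) →
    (mv = mw ∨ ¬ ((cv = α ∨ cv = β) ∧ (cw = α ∨ cw = β))) →
    g δ (nc α β mu cu) (nc α β mv cv) (nc α β mw cw) = g δ cu cv cw +
      2 * (J α β γ mu cu cv cw + J α β γ mv cv cw cu + J α β γ mw cw cu cv) := by
  decide +kernel

theorem link_even : ∀ α β : Fin 4, α ≠ β → ∀ γ, γ ≠ α → γ ≠ β → ∀ mu : Bool, ∀ c : Fin 4,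
    ∀ n0, n0 ≠ c → ∀ n1, n1 ≠ c → n1 ≠ n0 → ∀ n2, n2 ≠ c → n2 ≠ n1 → ∀ n3, n3 ≠ c → n3 ≠ n2 →
    ∀ n4, n4 ≠ c → n4 ≠ n3 → ∀ n5, n5 ≠ c → n5 ≠ n4 → n5 ≠ n0 →
    2 * (J α β γ mu c n0 n1 + J α β γ mu c n1 n2 + J α β γ mu c n2 n3 + J α β γ mu c n3 n4 +
      J α β γ mu c n4 n5 + J α β γ mu c n5 n0) = 0 := by
  decide +kernel

end Pool.Agent.Lib.WSK
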