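import Mathlib
import Pool.Agent.Lib.WSK.Degree

set_option autoImplicit false

/-!
# The degree of a four-colouring of `T_n` modulo four is a Kempe invariant, II
-/

namespace Pool.Agent.Lib.WSK

variable {n : ℕ} [NeZero n]

/-- the degree modulo four, with respect to the colour `δ` -/
def F (n : ℕ) [NeZero n] (δ : Fin 4) (σ : ZMod n × ZMod n → Fin 4) : ZMod 4 :=
  ∑ x : ZMod n × ZMod n, (g δ (σ x) (σ (x + (1, 0))) (σ (x + (0, 1))) +
    g δ (σ (x + (1, 0))) (σ (x + (1, 1))) (σ (x + (0, 1))))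

/-- translation of a sum -/
theorem sum_translate (v : ZMod n × ZMod n) (f : ZMod n × ZMod n → ZMod 4) :
    ∑ x, f (x + v) = ∑ x, f x :=
  Equiv.sum_comp (Equiv.addRight v) f

omit [NeZero n] in
theorem one_ne_zero_of (hn : 2 ≤ n) : (1 : ZMod n) ≠ 0 := by
  have : Fact (1 < n) := ⟨hn⟩
  exact one_ne_zero

theorem adj_e1 (hn : 2 ≤ n) (x : ZMod n × ZMod n) : (triangularTorus n).Adj x (x + (1, 0)) := by
  rw [triangularTorus, SimpleGraph.fromRel_adj]
  refine ⟨?_, Or.inl (Or.inl rfl)⟩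
  intro h
  have := congrArg Prod.fst h
  simp [one_ne_zero_of hn] at this

theorem adj_e2 (hn : 2 ≤ n) (x : ZMod n × ZMod n) : (triangularTorus n).Adj x (x + (0, 1)) := by
  rw [triangularTorus, SimpleGraph.fromRel_adj]
  refine ⟨?_, Or.inl (Or.inr (Or.inl rfl))⟩
  intro h
  have := congrArg Prod.snd h
  simp [one_ne_zero_of hn] at this

theorem adj_e3 (hn : 2 ≤ n) (x : ZMod n × ZMod n) : (triangularTorus n).Adj x (x + (1, -1)) := by
  rw [triangularTorus, SimpleGraph.fromRel_adj]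
  refine ⟨?_, Or.inl (Or.inr (Or.inr rfl))⟩
  intro h
  have := congrArg Prod.fst h
  simp [one_ne_zero_of hn] at this

omit [NeZero n] in
theorem adj_iff_of (P : ZMod n × ZMod n → ZMod n × ZMod n → Prop)
    (hP : ∀ x y, P x y → P y x)
    (h1 : ∀ x, P x (x + (1, 0))) (h2 : ∀ x, P x (x + (0, 1))) (h3 : ∀ x, P (x + (0, 1)) (x + (1, 0))) :
    ∀ x y, (triangularTorus n).Adj x y → P x y := by
  have h3' : ∀ x, P x (x + (1, -1)) := by
    intro x
    have := h3 (x + (0, -1))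
    have e1 : x + (0, -1) + (0, 1) = x := by ext <;> simp
    have e2 : x + (0, -1) + (1, 0) = x + (1, -1) := by ext <;> simp
    rwa [e1, e2] at this
  intro x y h
  rw [triangularTorus, SimpleGraph.fromRel_adj] at h
  rcases h.2 with (h | h | h) | (h | h | h)
  · rw [h]; exact h1 x
  · rw [h]; exact h2 x
  · rw [h]; exact h3' x
  · rw [h]; exact hP _ _ (h1 y)
  · rw [h]; exact hP _ _ (h2 y)
  · rw [h]; exact hP _ _ (h3' y)

theorem F_eq (hn : 2 ≤ n) {σ : ZMod n × ZMod n → Fin 4} (hσ : Proper (triangularTorus n) σ)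
    (δ δ' : Fin 4) : F n δ σ = F n δ' σ := by
  by_cases hδ : δ = δ'
  · rw [hδ]
  have a1 : ∀ x, σ x ≠ σ (x + (1, 0)) := fun x => hσ _ _ (adj_e1 hn x)
  have a2 : ∀ x, σ x ≠ σ (x + (0, 1)) := fun x => hσ _ _ (adj_e2 hn x)
  have a3 : ∀ x, σ (x + (0, 1)) ≠ σ (x + (1, 0)) := by
    intro x
    have := adj_e3 hn (x + (0, 1))
    have e2 : x + (0, 1) + (1, -1) = x + (1, 0) := by ext <;> simp
    rw [e2] at this
    exact hσ _ _ this
  have a4 : ∀ x, σ (x + (1, 0)) ≠ σ (x + (1, 1)) := by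
    intro x
    have := a2 (x + (1, 0))
    have e2 : x + (1, 0) + (0, 1) = x + (1, 1) := by ext <;> simp
    rwa [e2] at this
  have a5 : ∀ x, σ (x + (0, 1)) ≠ σ (x + (1, 1)) := by
    intro x
    have := a1 (x + (0, 1))
    have e2 : x + (0, 1) + (1, 0) = x + (1, 1) := by ext <;> simp
    rwa [e2] at this
  have key : ∀ x, (g δ (σ x) (σ (x + (1, 0))) (σ (x + (0, 1))) +
      g δ (σ (x + (1, 0))) (σ (x + (1, 1))) (σ (x + (0, 1)))) =
      (g δ' (σ x) (σ (x + (1, 0))) (σ (x + (0, 1))) +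
      g δ' (σ (x + (1, 0))) (σ (x + (1, 1))) (σ (x + (0, 1)))) +
      ((g δ (σ x) (σ (x + (1, 0))) δ' - g δ (σ (x + (0, 1))) (σ (x + (0, 1) + (1, 0))) δ') +
       (g δ (σ (x + (1, 0))) (σ (x + (1, 0) + (0, 1))) δ' - g δ (σ x) (σ (x + (0, 1))) δ')) := by
    intro x
    have e1 : x + (0, 1) + (1, 0) = x + (1, 1) := by ext <;> simp
    have e2 : x + (1, 0) + (0, 1) = x + (1, 1) := by ext <;> simp
    rw [e1, e2]
    rw [g_coboundary _ _ (a1 x) _ (a2 x).symm (a3 x) δ δ' hδ,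
      g_coboundary _ _ (a4 x) _ (a3 x) (a5 x) δ δ' hδ]
    have u1 := g_anti δ (σ (x + (1, 0))) (σ (x + (0, 1))) δ'
    have u2 := g_anti δ (σ (x + (0, 1))) (σ (x + (1, 1))) δ'
    have u3 := g_anti δ (σ x) (σ (x + (0, 1))) δ'
    linear_combination u1 + u2 + u3
  unfold F
  rw [Finset.sum_congr rfl (fun x _ => key x)]
  simp only [Finset.sum_add_distrib, Finset.sum_sub_distrib]
  rw [sum_translate (0, 1) (fun x => g δ (σ x) (σ (x + (1, 0))) δ'),
    sum_translate (1, 0) (fun x => g δ (σ x) (σ (x + (0, 1))) δ')]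
  ring

theorem F_swap (hn : 2 ≤ n) {σ τ : ZMod n × ZMod n → Fin 4} (hσ : Proper (triangularTorus n) σ)
    {α β : Fin 4} (hαβ : α ≠ β) {S : Set (ZMod n × ZMod n)}
    (hS : ∀ x ∈ S, ∀ y, (triangularTorus n).Adj x y → (σ x = α ∨ σ x = β) →
      (σ y = α ∨ σ y = β) → y ∈ S)
    (h1 : ∀ x ∈ S, τ x = Equiv.swap α β (σ x)) (h2 : ∀ x ∉ S, τ x = σ x)
    {γ δ : Fin 4} (hγα : γ ≠ α) (hγβ : γ ≠ β) (hδα : δ ≠ α) (hδβ : δ ≠ β) (hδγ : δ ≠ γ) :
    F n δ τ = F n δ σ := by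
  classical
  set mu : ZMod n × ZMod n → Bool := fun x => decide (x ∈ S) with hmu
  have hτ : ∀ x, τ x = nc α β (mu x) (σ x) := by
    intro x
    by_cases hx : x ∈ S
    · rw [h1 x hx]; simp [nc, hmu, hx]
    · rw [h2 x hx]; simp [nc, hmu, hx]
  have hadj : ∀ x y, (triangularTorus n).Adj x y →
      (mu x = mu y ∨ ¬ ((σ x = α ∨ σ x = β) ∧ (σ y = α ∨ σ y = β))) := by
    intro x y hxy
    by_cases hc : (σ x = α ∨ σ x = β) ∧ (σ y = α ∨ σ y = β)
    · left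
      have : x ∈ S ↔ y ∈ S :=
        ⟨fun h => hS x h y hxy hc.1 hc.2, fun h => hS y h x hxy.symm hc.2 hc.1⟩
      simp only [hmu]
      exact decide_eq_decide.mpr this
    · exact Or.inr hc
  have b1 : ∀ x, (triangularTorus n).Adj x (x + (1, 0)) := adj_e1 hn
  have b2 : ∀ x, (triangularTorus n).Adj x (x + (0, 1)) := adj_e2 hn
  have b3 : ∀ x, (triangularTorus n).Adj (x + (0, 1)) (x + (1, 0)) := by
    intro x
    have := adj_e3 hn (x + (0, 1))
    have e2 : x + (0, 1) + (1, -1) = x + (1, 0) := by ext <;> simp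
    rwa [e2] at this
  have b4 : ∀ x, (triangularTorus n).Adj (x + (1, 0)) (x + (1, 1)) := by
    intro x
    have := b2 (x + (1, 0))
    have e2 : x + (1, 0) + (0, 1) = x + (1, 1) := by ext <;> simp
    rwa [e2] at this
  have b5 : ∀ x, (triangularTorus n).Adj (x + (0, 1)) (x + (1, 1)) := by
    intro x
    have := b1 (x + (0, 1))
    have e2 : x + (0, 1) + (1, 0) = x + (1, 1) := by ext <;> simp
    rwa [e2] at this
  -- local contributions
  let L : (ZMod n × ZMod n) → (ZMod n × ZMod n) → (ZMod n × ZMod n) → ZMod 4 :=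
    fun x y z => J α β γ (mu x) (σ x) (σ y) (σ z)
  have key : ∀ x, (g δ (τ x) (τ (x + (1, 0))) (τ (x + (0, 1))) +
      g δ (τ (x + (1, 0))) (τ (x + (1, 1))) (τ (x + (0, 1)))) =
      (g δ (σ x) (σ (x + (1, 0))) (σ (x + (0, 1))) +
      g δ (σ (x + (1, 0))) (σ (x + (1, 1))) (σ (x + (0, 1)))) +
      2 * (L x (x + (1, 0)) (x + (0, 1)) + L (x + (1, 0)) (x + (0, 1)) x +
        L (x + (0, 1)) x (x + (1, 0)) + (L (x + (1, 0)) (x + (1, 1)) (x + (0, 1)) +
        L (x + (1, 1)) (x + (0, 1)) (x + (1, 0)) + L (x + (0, 1)) (x + (1, 0)) (x + (1, 1)))) := by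
    intro x
    rw [hτ x, hτ (x + (1, 0)), hτ (x + (0, 1)), hτ (x + (1, 1))]
    rw [g_local α β hαβ γ hγα hγβ δ hδα hδβ hδγ (σ x) (σ (x + (1, 0))) (hσ _ _ (b1 x))
      (σ (x + (0, 1))) (hσ _ _ (b2 x)).symm (hσ _ _ (b3 x)) (mu x) (mu (x + (1, 0)))
      (mu (x + (0, 1))) (hadj _ _ (b1 x)) (hadj _ _ (b2 x)) (hadj _ _ (b3 x).symm)]
    rw [g_local α β hαβ γ hγα hγβ δ hδα hδβ hδγ (σ (x + (1, 0))) (σ (x + (1, 1)))
      (hσ _ _ (b4 x)) (σ (x + (0, 1))) (hσ _ _ (b3 x)) (hσ _ _ (b5 x)) (mu (x + (1, 0)))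
      (mu (x + (1, 1))) (mu (x + (0, 1))) (hadj _ _ (b4 x)) (hadj _ _ (b3 x).symm)
      (hadj _ _ (b5 x).symm)]
    show _ = _ + 2 * (J α β γ _ _ _ _ + J α β γ _ _ _ _ + J α β γ _ _ _ _ +
      (J α β γ _ _ _ _ + J α β γ _ _ _ _ + J α β γ _ _ _ _))
    ring
  have key2 : ∑ x, 2 * (L x (x + (1, 0)) (x + (0, 1)) + L (x + (1, 0)) (x + (0, 1)) x +
        L (x + (0, 1)) x (x + (1, 0)) + (L (x + (1, 0)) (x + (1, 1)) (x + (0, 1)) +
        L (x + (1, 1)) (x + (0, 1)) (x + (1, 0)) + L (x + (0, 1)) (x + (1, 0)) (x + (1, 1)))) =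
      ∑ x, 2 * (L x (x + (1, 0)) (x + (0, 1)) + L x (x + (0, 1)) (x + (-1, 1)) +
        L x (x + (-1, 1)) (x + (-1, 0)) + L x (x + (-1, 0)) (x + (0, -1)) +
        L x (x + (0, -1)) (x + (1, -1)) + L x (x + (1, -1)) (x + (1, 0))) := by
    rw [← Finset.mul_sum, ← Finset.mul_sum]
    congr 1
    simp only [Finset.sum_add_distrib]
    rw [← sum_translate (1, 0) (fun x => L x (x + (0, 1)) (x + (-1, 1))),
      ← sum_translate (1, 0) (fun x => L x (x + (-1, 1)) (x + (-1, 0))),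
      ← sum_translate (1, 1) (fun x => L x (x + (-1, 0)) (x + (0, -1))),
      ← sum_translate (0, 1) (fun x => L x (x + (0, -1)) (x + (1, -1))),
      ← sum_translate (0, 1) (fun x => L x (x + (1, -1)) (x + (1, 0)))]
    have c1 : ∀ x : ZMod n × ZMod n, x + (1, 0) + (0, 1) = x + (1, 1) := by
      intro x; ext <;> simp
    have c2 : ∀ x : ZMod n × ZMod n, x + (1, 0) + (-1, 1) = x + (0, 1) := by
      intro x; ext <;> simp
    have c3 : ∀ x : ZMod n × ZMod n, x + (1, 0) + (-1, 0) = x := by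
      intro x; ext <;> simp
    have c4 : ∀ x : ZMod n × ZMod n, x + (1, 1) + (-1, 0) = x + (0, 1) := by
      intro x; ext <;> simp
    have c5 : ∀ x : ZMod n × ZMod n, x + (1, 1) + (0, -1) = x + (1, 0) := by
      intro x; ext <;> simp
    have c6 : ∀ x : ZMod n × ZMod n, x + (0, 1) + (0, -1) = x := by
      intro x; ext <;> simp
    have c7 : ∀ x : ZMod n × ZMod n, x + (0, 1) + (1, -1) = x + (1, 0) := by
      intro x; ext <;> simp
    have c8 : ∀ x : ZMod n × ZMod n, x + (0, 1) + (1, 0) = x + (1, 1) := by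
      intro x; ext <;> simp
    simp only [c1, c2, c3, c4, c5, c6, c7, c8]
    ring
  have key3 : ∀ x, 2 * (L x (x + (1, 0)) (x + (0, 1)) + L x (x + (0, 1)) (x + (-1, 1)) +
        L x (x + (-1, 1)) (x + (-1, 0)) + L x (x + (-1, 0)) (x + (0, -1)) +
        L x (x + (0, -1)) (x + (1, -1)) + L x (x + (1, -1)) (x + (1, 0))) = 0 := by
    intro x
    have d1 : ∀ y, σ y ≠ σ (y + (1, 0)) := fun y => hσ _ _ (b1 y)
    have d2 : ∀ y, σ y ≠ σ (y + (0, 1)) := fun y => hσ _ _ (b2 y)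
    have d3 : ∀ y, σ y ≠ σ (y + (1, -1)) := fun y => hσ _ _ (adj_e3 hn y)
    have f1 := d1 x
    have f2 := d2 x
    have f3 := d3 (x + (-1, 1))
    have f4 := d1 (x + (-1, 0))
    have f5 := d2 (x + (0, -1))
    have f6 := d3 x
    have e1 : x + (-1, 1) + (1, -1) = x := by ext <;> simp
    have e2 : x + (-1, 0) + (1, 0) = x := by ext <;> simp
    have e3 : x + (0, -1) + (0, 1) = x := by ext <;> simp
    rw [e1] at f3
    rw [e2] at f4
    rw [e3] at f5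
    have k1 := d3 (x + (0, 1))
    have e4 : x + (0, 1) + (1, -1) = x + (1, 0) := by ext <;> simp
    rw [e4] at k1
    have k2 := d1 (x + (-1, 1))
    have e5 : x + (-1, 1) + (1, 0) = x + (0, 1) := by ext <;> simp
    rw [e5] at k2
    have k3 := d2 (x + (-1, 0))
    have e6 : x + (-1, 0) + (0, 1) = x + (-1, 1) := by ext <;> simp
    rw [e6] at k3
    have k4 := d3 (x + (-1, 0))
    have e7 : x + (-1, 0) + (1, -1) = x + (0, -1) := by ext <;> simp
    rw [e7] at k4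
    have k5 := d1 (x + (0, -1))
    have e8 : x + (0, -1) + (1, 0) = x + (1, -1) := by ext <;> simp
    rw [e8] at k5
    have k6 := d2 (x + (1, -1))
    have e9 : x + (1, -1) + (0, 1) = x + (1, 0) := by ext <;> simp
    rw [e9] at k6
    exact link_even α β hαβ γ hγα hγβ (mu x) (σ x) _ f1.symm _ f2.symm k1 _ f3 k2 _ f4 k3.symm.symm
      _ f5 k4.symm _ f6.symm k5.symm k6
  unfold F
  rw [Finset.sum_congr rfl (fun x _ => key x), Finset.sum_add_distrib, key2,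
    Finset.sum_congr rfl (fun x _ => key3 x)]
  simp

theorem exists_other : ∀ α β : Fin 4, α ≠ β → ∃ γ δ : Fin 4, γ ≠ α ∧ γ ≠ β ∧ δ ≠ α ∧ δ ≠ β ∧
    δ ≠ γ := by
  decide

theorem F_sw (hn : 2 ≤ n) {σ τ : ZMod n × ZMod n → Fin 4} (hσ : Proper (triangularTorus n) σ)
    (h : Sw (triangularTorus n) σ τ) : F n 3 τ = F n 3 σ := by
  have hτ := h.proper hσ
  obtain ⟨α, β, hne, S, hS, h1, h2⟩ := h
  obtain ⟨γ, δ, hγα, hγβ, hδα, hδβ, hδγ⟩ := exists_other α β hne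
  rw [F_eq hn hτ 3 δ, F_eq hn hσ 3 δ]
  exact F_swap hn hσ hne hS h1 h2 hγα hγβ hδα hδβ hδγ

theorem F_eqv (hn : 2 ≤ n) {σ τ : ZMod n × ZMod n → Fin 4} (hσ : Proper (triangularTorus n) σ)
    (h : Eqv (triangularTorus n) σ τ) : F n 3 τ = F n 3 σ := by
  have : Proper (triangularTorus n) τ ∧ F n 3 τ = F n 3 σ := by
    unfold Eqv at h
    induction h with
    | refl => exact ⟨hσ, rfl⟩
    | tail _ hs ih => exact ⟨hs.proper ih.1, (F_sw hn ih.1 hs).trans ih.2⟩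
  exact this.2

end Pool.Agent.Lib.WSK
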