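import Mathlib
import Pool.Agent.Lib.WSK.Degree2

set_option autoImplicit false
set_option maxRecDepth 100000

/-!
# Colourings of `T_n` obtained from base tables by inserting rows and columns
-/

namespace Pool.Agent.Lib.WSK

/-- the index in the base table -/
def gm (n0 i : ℕ) : ℕ := if i < n0 then i else n0 - 3 + (i - n0) % 3

/-- cyclic successor in the base table -/
def sc (n0 i : ℕ) : ℕ := if i + 1 < n0 then i + 1 else 0

/-- entry of a table with rows coded in base four -/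
def tab (rows : List ℕ) (i j : ℕ) : Fin 4 := Fin.ofNat 4 (rows.getD i 0 >>> (2 * j))

/-- periodicity of a table -/
def Per (n0 : ℕ) (b : ℕ → ℕ → Fin 4) : Prop :=
  ∀ j < n0, b 0 j = b (n0 - 3) j ∧ b j 0 = b j (n0 - 3)

/-- properness of a table -/
def PropT (n0 : ℕ) (b : ℕ → ℕ → Fin 4) : Prop :=
  ∀ i < n0, ∀ j < n0, b i j ≠ b (sc n0 i) j ∧ b i j ≠ b i (sc n0 j) ∧
    b i (sc n0 j) ≠ b (sc n0 i) j

/-- contribution of a cell -/
def TT (n0 : ℕ) (b : ℕ → ℕ → Fin 4) (i j : ℕ) : ZMod 4 :=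
  g 3 (b i j) (b (sc n0 i) j) (b i (sc n0 j)) +
    g 3 (b (sc n0 i) j) (b (sc n0 i) (sc n0 j)) (b i (sc n0 j))

/-- the total contribution -/
def S00 (n0 : ℕ) (b : ℕ → ℕ → Fin 4) : ZMod 4 :=
  ∑ i ∈ Finset.range n0, ∑ j ∈ Finset.range n0, TT n0 b i j

/-- contribution of the last three columns -/
def T1 (n0 : ℕ) (b : ℕ → ℕ → Fin 4) : ZMod 4 :=
  ∑ i ∈ Finset.range n0, (TT n0 b i (n0 - 3) + TT n0 b i (n0 - 2) + TT n0 b i (n0 - 1))

/-- contribution of the last three rows -/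
def T2 (n0 : ℕ) (b : ℕ → ℕ → Fin 4) : ZMod 4 :=
  ∑ j ∈ Finset.range n0, (TT n0 b (n0 - 3) j + TT n0 b (n0 - 2) j + TT n0 b (n0 - 1) j)

/-- contribution of the last three rows and columns -/
def T3 (n0 : ℕ) (b : ℕ → ℕ → Fin 4) : ZMod 4 :=
  (TT n0 b (n0 - 3) (n0 - 3) + TT n0 b (n0 - 3) (n0 - 2) + TT n0 b (n0 - 3) (n0 - 1)) +
  (TT n0 b (n0 - 2) (n0 - 3) + TT n0 b (n0 - 2) (n0 - 2) + TT n0 b (n0 - 2) (n0 - 1)) +
  (TT n0 b (n0 - 1) (n0 - 3) + TT n0 b (n0 - 1) (n0 - 2) + TT n0 b (n0 - 1) (n0 - 1))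

theorem gm_lt {n0 : ℕ} (h : 3 ≤ n0) (i : ℕ) : gm n0 i < n0 := by
  unfold gm
  split_ifs with hi
  · exact hi
  · have := Nat.mod_lt (i - n0) (by norm_num : 0 < 3)
    omega

theorem sc_lt {n0 : ℕ} (h : 3 ≤ n0) (i : ℕ) : sc n0 i < n0 := by
  unfold sc
  split_ifs with hi
  · exact hi
  · omega

theorem gm_succ {n0 m : ℕ} (h : 3 ≤ n0) {i : ℕ} (hi : i < n0 + 3 * m) :
    gm n0 ((i + 1) % (n0 + 3 * m)) = sc n0 (gm n0 i) ∨
    (m ≠ 0 ∧ gm n0 ((i + 1) % (n0 + 3 * m)) = n0 - 3 ∧ sc n0 (gm n0 i) = 0) := by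
  by_cases h1 : i + 1 < n0 + 3 * m
  · rw [Nat.mod_eq_of_lt h1]
    unfold gm sc
    by_cases h2 : i + 1 < n0
    · left
      rw [if_pos h2, if_pos (by omega : i < n0), if_pos h2]
    · rw [if_neg h2]
      by_cases h3 : i < n0
      · right
        rw [if_pos h3, if_neg (by omega)]
        refine ⟨by omega, by omega, rfl⟩
      · rw [if_neg h3]
        have := Nat.mod_lt (i - n0) (by norm_num : 0 < 3)
        by_cases h4 : (i - n0) % 3 = 2
        · right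
          rw [if_neg (by omega)]
          refine ⟨by omega, by omega, rfl⟩
        · left
          rw [if_pos (by omega)]
          omega
  · have h2 : i + 1 = n0 + 3 * m := by omega
    left
    rw [h2, Nat.mod_self]
    unfold gm sc
    rw [if_pos (by omega)]
    by_cases h3 : i < n0
    · rw [if_pos h3, if_neg (by omega)]
    · rw [if_neg h3, if_neg (by omega)]

variable {n n0 m : ℕ} {b : ℕ → ℕ → Fin 4}

theorem b_row (h : 3 ≤ n0) (hp : m = 0 ∨ Per n0 b) {i : ℕ} (hi : i < n0 + 3 * m)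
    {j : ℕ} (hj : j < n0) :
    b (gm n0 ((i + 1) % (n0 + 3 * m))) j = b (sc n0 (gm n0 i)) j := by
  rcases gm_succ h hi with h1 | ⟨h1, h2, h3⟩
  · rw [h1]
  · rcases hp with hp | hp
    · exact absurd hp h1
    · rw [h2, h3]; exact (hp j hj).1.symm

theorem b_col (h : 3 ≤ n0) (hp : m = 0 ∨ Per n0 b) {i : ℕ} (hi : i < n0 + 3 * m)
    {j : ℕ} (hj : j < n0) :
    b j (gm n0 ((i + 1) % (n0 + 3 * m))) = b j (sc n0 (gm n0 i)) := by
  rcases gm_succ h hi with h1 | ⟨h1, h2, h3⟩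
  · rw [h1]
  · rcases hp with hp | hp
    · exact absurd hp h1
    · rw [h2, h3]; exact (hp j hj).2.symm

/-- the colouring of `T_n` obtained from a table -/
def col (n n0 : ℕ) (b : ℕ → ℕ → Fin 4) (x : ZMod n × ZMod n) : Fin 4 :=
  b (gm n0 x.1.val) (gm n0 x.2.val)

theorem val_succ [NeZero n] (x : ZMod n) : (x + 1).val = (x.val + 1) % n := by
  rw [ZMod.val_add, ZMod.val_one_eq_one_mod, Nat.add_mod_mod]

theorem col_e1 [NeZero n] (hn : n = n0 + 3 * m) (h : 3 ≤ n0) (hp : m = 0 ∨ Per n0 b)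
    (x : ZMod n × ZMod n) :
    col n n0 b (x + (1, 0)) = b (sc n0 (gm n0 x.1.val)) (gm n0 x.2.val) := by
  have hx := ZMod.val_lt x.1
  subst hn
  simp only [col, Prod.fst_add, Prod.snd_add, add_zero]
  rw [val_succ, b_row h hp hx (gm_lt h _)]

theorem col_e2 [NeZero n] (hn : n = n0 + 3 * m) (h : 3 ≤ n0) (hp : m = 0 ∨ Per n0 b)
    (x : ZMod n × ZMod n) :
    col n n0 b (x + (0, 1)) = b (gm n0 x.1.val) (sc n0 (gm n0 x.2.val)) := by
  have hx := ZMod.val_lt x.2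
  subst hn
  simp only [col, Prod.fst_add, Prod.snd_add, add_zero]
  rw [val_succ, b_col h hp hx (gm_lt h _)]

theorem col_e12 [NeZero n] (hn : n = n0 + 3 * m) (h : 3 ≤ n0) (hp : m = 0 ∨ Per n0 b)
    (x : ZMod n × ZMod n) :
    col n n0 b (x + (1, 1)) = b (sc n0 (gm n0 x.1.val)) (sc n0 (gm n0 x.2.val)) := by
  have hx1 := ZMod.val_lt x.1
  have hx2 := ZMod.val_lt x.2
  subst hn
  simp only [col, Prod.fst_add, Prod.snd_add]
  rw [val_succ, val_succ, b_row h hp hx1 (gm_lt h _), b_col h hp hx2 (sc_lt h _)]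

theorem col_proper [NeZero n] (hn : n = n0 + 3 * m) (h : 3 ≤ n0) (hp : m = 0 ∨ Per n0 b)
    (hb : PropT n0 b) : Proper (triangularTorus n) (col n n0 b) := by
  refine adj_iff_of (fun x y => col n n0 b x ≠ col n n0 b y) (fun x y h => h.symm) ?_ ?_ ?_
  · intro x
    rw [col_e1 hn h hp]
    exact (hb _ (gm_lt h _) _ (gm_lt h _)).1
  · intro x
    rw [col_e2 hn h hp]
    exact (hb _ (gm_lt h _) _ (gm_lt h _)).2.1
  · intro x
    rw [col_e2 hn h hp, col_e1 hn h hp]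
    exact (hb _ (gm_lt h _) _ (gm_lt h _)).2.2

theorem sum_zmod [NeZero n] (f : ℕ → ZMod 4) : ∑ x : ZMod n, f x.val = ∑ i ∈ Finset.range n, f i := by
  obtain ⟨k, rfl⟩ : ∃ k, n = k + 1 := ⟨n - 1, by have := NeZero.pos n; omega⟩
  exact Fin.sum_univ_eq_sum_range f (k + 1)

theorem sum_gm_range (h : 3 ≤ n0) (f : ℕ → ZMod 4) (m : ℕ) :
    ∑ i ∈ Finset.range (n0 + 3 * m), f (gm n0 i) = ∑ i ∈ Finset.range n0, f i +
      m * (f (n0 - 3) + f (n0 - 2) + f (n0 - 1)) := by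
  induction m with
  | zero =>
    rw [mul_zero, add_zero, Nat.cast_zero, zero_mul, add_zero]
    refine Finset.sum_congr rfl (fun i hi => ?_)
    rw [Finset.mem_range] at hi
    unfold gm
    rw [if_pos hi]
  | succ m ih =>
    have e : n0 + 3 * (m + 1) = n0 + 3 * m + 1 + 1 + 1 := by ring
    rw [e, Finset.sum_range_succ, Finset.sum_range_succ, Finset.sum_range_succ, ih]
    have g1 : gm n0 (n0 + 3 * m) = n0 - 3 := by
      unfold gm; rw [if_neg (by omega)]; omega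
    have g2 : gm n0 (n0 + 3 * m + 1) = n0 - 2 := by
      unfold gm; rw [if_neg (by omega)]; omega
    have g3 : gm n0 (n0 + 3 * m + 1 + 1) = n0 - 1 := by
      unfold gm; rw [if_neg (by omega)]; omega
    rw [g1, g2, g3]
    push_cast
    ring

theorem sum_gm [NeZero n] (hn : n = n0 + 3 * m) (h : 3 ≤ n0) (f : ℕ → ZMod 4) :
    ∑ x : ZMod n, f (gm n0 x.val) = ∑ i ∈ Finset.range n0, f i +
      m * (f (n0 - 3) + f (n0 - 2) + f (n0 - 1)) := by
  rw [sum_zmod (fun k => f (gm n0 k)), ← sum_gm_range h f m, hn]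

theorem F_col [NeZero n] (hn : n = n0 + 3 * m) (h : 3 ≤ n0) (hp : m = 0 ∨ Per n0 b) :
    F n 3 (col n n0 b) = S00 n0 b + m * (T1 n0 b + T2 n0 b) + m * m * T3 n0 b := by
  unfold F
  have e : ∀ x : ZMod n × ZMod n, (g 3 (col n n0 b x) (col n n0 b (x + (1, 0)))
      (col n n0 b (x + (0, 1))) + g 3 (col n n0 b (x + (1, 0))) (col n n0 b (x + (1, 1)))
      (col n n0 b (x + (0, 1)))) = TT n0 b (gm n0 x.1.val) (gm n0 x.2.val) := by
    intro x
    rw [col_e1 hn h hp, col_e2 hn h hp, col_e12 hn h hp]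
    rfl
  rw [Finset.sum_congr rfl (fun x _ => e x), Fintype.sum_prod_type]
  have e2 : ∀ x : ZMod n, ∑ y : ZMod n, TT n0 b (gm n0 x.val) (gm n0 y.val) =
      (fun i => ∑ j ∈ Finset.range n0, TT n0 b i j +
        m * (TT n0 b i (n0 - 3) + TT n0 b i (n0 - 2) + TT n0 b i (n0 - 1))) (gm n0 x.val) :=
    fun x => sum_gm hn h (fun k => TT n0 b (gm n0 x.val) k)
  rw [Finset.sum_congr rfl (fun x _ => e2 x)]
  rw [sum_gm hn h (fun i => ∑ j ∈ Finset.range n0, TT n0 b i j +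
        m * (TT n0 b i (n0 - 3) + TT n0 b i (n0 - 2) + TT n0 b i (n0 - 1)))]
  unfold S00 T1 T2 T3
  simp only [Finset.sum_add_distrib, Finset.mul_sum, mul_add]
  ring

/-- some proper four-colouring of `T_n` has invariant `v` -/
def Realizes (n : ℕ) [NeZero n] (v : ZMod 4) : Prop :=
  ∃ σ : ZMod n × ZMod n → Fin 4, Proper (triangularTorus n) σ ∧ F n 3 σ = v

theorem realizes_of_per [NeZero n] (m n0 : ℕ) (hn : n = n0 + 3 * m) (h : 3 ≤ n0)
    (b : ℕ → ℕ → Fin 4) (hp : Per n0 b) (hb : PropT n0 b) {v : ZMod 4}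
    (h0 : S00 n0 b = v) (h1 : T1 n0 b = 0) (h2 : T2 n0 b = 0) (h3 : T3 n0 b = 0) :
    Realizes n v :=
  ⟨col n n0 b, col_proper hn h (Or.inr hp) hb, by
    rw [F_col hn h (Or.inr hp), h0, h1, h2, h3]; simp⟩

theorem realizes_of_tab (n : ℕ) [NeZero n] (h : 3 ≤ n)
    (b : ℕ → ℕ → Fin 4) (hb : PropT n b) {v : ZMod 4} (h0 : S00 n b = v) :
    Realizes n v :=
  ⟨col n n b, col_proper (m := 0) (by omega) h (Or.inl rfl) hb, by
    rw [F_col (m := 0) (by omega) h (Or.inl rfl), h0]; simp⟩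

theorem nonergodic_of_realizes [NeZero n] (hn : 2 ≤ n) {v w : ZMod 4} (hvw : v ≠ w)
    (hv : Realizes n v) (hw : Realizes n w) : ¬ WSKErgodic (triangularTorus n) 4 := by
  intro h
  rw [ergodic_iff] at h
  obtain ⟨σ, hσ, hσv⟩ := hv
  obtain ⟨τ, hτ, hτw⟩ := hw
  have := F_eqv hn hσ (h σ τ hσ hτ)
  rw [hσv, hτw] at this
  exact hvw this.symm

end Pool.Agent.Lib.WSK
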