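import Mathlib
import Pool.Agent.Lib.WSK.Basic
import Pool.Agent.Lib.WSK.Graphs

set_option autoImplicit false
set_option maxRecDepth 100000

/-!
# A coordinate model of the periodic kagome lattice
-/

namespace Pool.Agent.Lib.WSK

/-- the three shifts -/
def dl (n : ℕ) : Fin 3 → ZMod n × ZMod n
  | 0 => (0, 0)
  | 1 => (1, 0)
  | 2 => (0, 1)

/-- coordinate model of the kagome lattice: `(x, d)` stands for the honeycomb edge from `(x, A)` to
`(x - dl d, B)` -/
def kag (n : ℕ) : SimpleGraph ((ZMod n × ZMod n) × Fin 3) where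
  Adj u v := u ≠ v ∧ (u.1 = v.1 ∨ u.1 - dl n u.2 = v.1 - dl n v.2)
  symm := ⟨fun _ _ h => ⟨h.1.symm, h.2.imp Eq.symm Eq.symm⟩⟩
  loopless := ⟨fun _ h => h.1 rfl⟩

instance (n : ℕ) : DecidableRel (kag n).Adj := fun u v => by
  unfold kag
  infer_instance

theorem honey_adj {n : ℕ} (x y : ZMod n × ZMod n) :
    (honeycombTorus n).Adj (x, false) (y, true) ↔ ∃ d, y = x - dl n d := by
  rw [honeycombTorus, SimpleGraph.fromRel_adj]
  simp only [ne_eq, Prod.mk.injEq, Bool.false_eq_true, and_false, not_false_eq_true, true_and,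
    reduceCtorEq, false_and, or_false]
  constructor
  · rintro (h | h | h)
    · exact ⟨0, by rw [h]; simp [dl, Prod.mk_zero_zero]⟩
    · exact ⟨1, by rw [h]; simp [dl]⟩
    · exact ⟨2, by rw [h]; simp [dl]⟩
  · rintro ⟨d, rfl⟩
    fin_cases d
    · left; simp [dl, Prod.mk_zero_zero]
    · right; left; simp [dl]
    · right; right; simp [dl]

theorem honey_same {n : ℕ} (x y : ZMod n × ZMod n) (b : Bool) :
    ¬ (honeycombTorus n).Adj (x, b) (y, b) := by
  rw [honeycombTorus, SimpleGraph.fromRel_adj]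
  cases b <;> simp

theorem dl_inj {n : ℕ} (hn : 2 ≤ n) {d d' : Fin 3} (h : dl n d = dl n d') : d = d' := by
  have : Fact (1 < n) := ⟨hn⟩
  have h1 : (1 : ZMod n) ≠ 0 := one_ne_zero
  fin_cases d <;> fin_cases d' <;> first | rfl | (exfalso; simp [dl] at h)

/-- the honeycomb edge `(x, d)` -/
def toEdge (n : ℕ) (u : (ZMod n × ZMod n) × Fin 3) : (honeycombTorus n).edgeSet :=
  ⟨s((u.1, false), (u.1 - dl n u.2, true)), by
    rw [SimpleGraph.mem_edgeSet, honey_adj]
    exact ⟨u.2, rfl⟩⟩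

theorem toEdge_inj {n : ℕ} (hn : 2 ≤ n) : Function.Injective (toEdge n) := by
  intro u v h
  have h1 := congrArg Subtype.val h
  simp only [toEdge, Sym2.eq_iff, Prod.mk.injEq, Bool.false_eq_true, and_false, false_and,
    or_false, and_true] at h1
  obtain ⟨h1, h2⟩ := h1
  rw [h1] at h2
  have h3 := dl_inj hn (sub_right_injective h2)
  exact Prod.ext h1 h3

theorem toEdge_surj {n : ℕ} : Function.Surjective (toEdge n) := by
  rintro ⟨e, he⟩
  induction e using Sym2.ind with
  | _ u v =>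
    rw [SimpleGraph.mem_edgeSet] at he
    obtain ⟨x, b⟩ := u
    obtain ⟨y, c⟩ := v
    cases b <;> cases c
    · exact absurd he (honey_same x y false)
    · obtain ⟨d, hd⟩ := (honey_adj x y).mp he
      refine ⟨(x, d), ?_⟩
      apply Subtype.ext
      simp [toEdge, hd]
    · obtain ⟨d, hd⟩ := (honey_adj y x).mp he.symm
      refine ⟨(y, d), ?_⟩
      apply Subtype.ext
      simp only [toEdge, hd]
      exact Sym2.eq_swap
    · exact absurd he (honey_same x y true)

theorem mem_toEdge {n : ℕ} (u : (ZMod n × ZMod n) × Fin 3) (w : (ZMod n × ZMod n) × Bool) :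
    w ∈ (toEdge n u : Sym2 ((ZMod n × ZMod n) × Bool)) ↔
      w = (u.1, false) ∨ w = (u.1 - dl n u.2, true) := by
  simp only [toEdge, Sym2.mem_iff]

theorem toEdge_adj {n : ℕ} (hn : 2 ≤ n) (u v : (ZMod n × ZMod n) × Fin 3) :
    (kagomeTorus n).Adj (toEdge n u) (toEdge n v) ↔ (kag n).Adj u v := by
  rw [kagomeTorus, SimpleGraph.lineGraph_adj_iff_exists]
  show _ ↔ (u ≠ v ∧ _)
  rw [(toEdge_inj hn).ne_iff]
  refine and_congr_right (fun _ => ?_)
  constructor
  · rintro ⟨w, hw1, hw2⟩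
    rw [mem_toEdge] at hw1 hw2
    rcases hw1 with rfl | rfl
    · rcases hw2 with h | h
      · left; exact (Prod.mk.inj h).1
      · exact absurd (Prod.mk.inj h).2 (by decide)
    · rcases hw2 with h | h
      · exact absurd (Prod.mk.inj h).2 (by decide)
      · right; exact (Prod.mk.inj h).1
  · rintro (h | h)
    · refine ⟨(u.1, false), ?_, ?_⟩
      · rw [mem_toEdge]; exact Or.inl rfl
      · rw [mem_toEdge]; left; rw [h]
    · refine ⟨(u.1 - dl n u.2, true), ?_, ?_⟩
      · rw [mem_toEdge]; exact Or.inr rfl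
      · rw [mem_toEdge]; right; rw [h]

/-- the model is isomorphic to the kagome lattice -/
noncomputable def kagIso (n : ℕ) (hn : 2 ≤ n) : kag n ≃g kagomeTorus n where
  toEquiv := Equiv.ofBijective (toEdge n) ⟨toEdge_inj hn, toEdge_surj⟩
  map_rel_iff' := fun {u v} => toEdge_adj hn u v

theorem kagome_ergodic_iff {n q : ℕ} (hn : 2 ≤ n) :
    WSKErgodic (kagomeTorus n) q ↔ WSKErgodic (kag n) q :=
  ⟨fun h => ergodic_of_iso (kagIso n hn) h, fun h => ergodic_of_iso (kagIso n hn).symm h⟩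

end Pool.Agent.Lib.WSK
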