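import Mathlib
import Pool.Agent.Lib.WSK.Kagome

set_option autoImplicit false
set_option maxRecDepth 100000
set_option synthInstance.maxHeartbeats 400000
set_option synthInstance.maxSize 1024

/-!
# The parity of the number of positively oriented honeycomb vertices is a Kempe invariant
-/

namespace Pool.Agent.Lib.WSK

/-- one if `(a, b, c)` is an even permutation of the three colours, zero otherwise -/
def pos (a b c : Fin 3) : ZMod 2 := if b = a + 1 ∧ c = a + 2 then 1 else 0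

/-- new colour -/
def nc3 (α β : Fin 3) (mu : Bool) (c : Fin 3) : Fin 3 := if mu then Equiv.swap α β c else c

/-- weight of a site of colour `α` in the swapped set -/
def wt (α : Fin 3) (mu : Bool) (c : Fin 3) : ZMod 2 := if mu = true ∧ c = α then 1 else 0

theorem pos_local : ∀ α β : Fin 3, α ≠ β → ∀ a b : Fin 3, a ≠ b → ∀ c, a ≠ c → b ≠ c →
    ∀ mu mv mw : Bool,
    (mu = mv ∨ ¬ ((a = α ∨ a = β) ∧ (b = α ∨ b = β))) →
    (mu = mw ∨ ¬ ((a = α ∨ a = β) ∧ (c = α ∨ c = β))) →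
    (mv = mw ∨ ¬ ((b = α ∨ b = β) ∧ (c = α ∨ c = β))) →
    pos (nc3 α β mu a) (nc3 α β mv b) (nc3 α β mw c) =
      pos a b c + (wt α mu a + wt α mv b + wt α mw c) := by
  decide +kernel

variable {n : ℕ} [NeZero n]

/-- the parity of the number of positively oriented honeycomb vertices -/
def P (n : ℕ) [NeZero n] (σ : (ZMod n × ZMod n) × Fin 3 → Fin 3) : ZMod 2 :=
  ∑ x : ZMod n × ZMod n, (pos (σ (x, 0)) (σ (x, 1)) (σ (x, 2)) +
    pos (σ (x, 0)) (σ (x + (1, 0), 1)) (σ (x + (0, 1), 2)))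

omit [NeZero n] in
theorem kadjA (x : ZMod n × ZMod n) {d d' : Fin 3} (h : d ≠ d') : (kag n).Adj (x, d) (x, d') :=
  ⟨fun he => h (congrArg Prod.snd he), Or.inl rfl⟩

omit [NeZero n] in
theorem kadjB (x : ZMod n × ZMod n) {d d' : Fin 3} (h : d ≠ d') :
    (kag n).Adj (x + dl n d, d) (x + dl n d', d') :=
  ⟨fun he => h (congrArg Prod.snd he), Or.inr (by simp)⟩

omit [NeZero n] in
theorem kadjB1 (x : ZMod n × ZMod n) : (kag n).Adj (x, 0) (x + (1, 0), 1) := by
  have := kadjB x (d := 0) (d' := 1) (by decide)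
  simpa [dl, Prod.mk_zero_zero] using this

omit [NeZero n] in
theorem kadjB2 (x : ZMod n × ZMod n) : (kag n).Adj (x, 0) (x + (0, 1), 2) := by
  have := kadjB x (d := 0) (d' := 2) (by decide)
  simpa [dl, Prod.mk_zero_zero] using this

omit [NeZero n] in
theorem kadjB3 (x : ZMod n × ZMod n) : (kag n).Adj (x + (1, 0), 1) (x + (0, 1), 2) :=
  kadjB x (d := 1) (d' := 2) (by decide)

theorem P_sw {σ τ : (ZMod n × ZMod n) × Fin 3 → Fin 3} (hσ : Proper (kag n) σ)
    (h : Sw (kag n) σ τ) : P n τ = P n σ := by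
  classical
  obtain ⟨α, β, hne, S, hS, h1, h2⟩ := h
  set mu : (ZMod n × ZMod n) × Fin 3 → Bool := fun x => decide (x ∈ S) with hmu
  have hτ : ∀ x, τ x = nc3 α β (mu x) (σ x) := by
    intro x
    by_cases hx : x ∈ S
    · rw [h1 x hx]; simp [nc3, hmu, hx]
    · rw [h2 x hx]; simp [nc3, hmu, hx]
  have hadj : ∀ x y, (kag n).Adj x y →
      (mu x = mu y ∨ ¬ ((σ x = α ∨ σ x = β) ∧ (σ y = α ∨ σ y = β))) := by
    intro x y hxy
    by_cases hc : (σ x = α ∨ σ x = β) ∧ (σ y = α ∨ σ y = β)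
    · left
      have : x ∈ S ↔ y ∈ S :=
        ⟨fun h => hS x h y hxy hc.1 hc.2, fun h => hS y h x hxy.symm hc.2 hc.1⟩
      simp only [hmu]
      exact decide_eq_decide.mpr this
    · exact Or.inr hc
  let w : (ZMod n × ZMod n) → Fin 3 → ZMod 2 := fun x d => wt α (mu (x, d)) (σ (x, d))
  have key : ∀ x, (pos (τ (x, 0)) (τ (x, 1)) (τ (x, 2)) +
      pos (τ (x, 0)) (τ (x + (1, 0), 1)) (τ (x + (0, 1), 2))) =
      (pos (σ (x, 0)) (σ (x, 1)) (σ (x, 2)) +
      pos (σ (x, 0)) (σ (x + (1, 0), 1)) (σ (x + (0, 1), 2))) +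
      ((w x 0 + w x 1 + w x 2) + (w x 0 + w (x + (1, 0)) 1 + w (x + (0, 1)) 2)) := by
    intro x
    rw [hτ (x, 0), hτ (x, 1), hτ (x, 2), hτ (x + (1, 0), 1), hτ (x + (0, 1), 2)]
    have a1 := kadjA x (d := 0) (d' := 1) (by decide)
    have a2 := kadjA x (d := 0) (d' := 2) (by decide)
    have a3 := kadjA x (d := 1) (d' := 2) (by decide)
    have b1 := kadjB1 x
    have b2 := kadjB2 x
    have b3 := kadjB3 x
    rw [pos_local α β hne _ _ (hσ _ _ a1) _ (hσ _ _ a2) (hσ _ _ a3) _ _ _ (hadj _ _ a1)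
      (hadj _ _ a2) (hadj _ _ a3),
      pos_local α β hne _ _ (hσ _ _ b1) _ (hσ _ _ b2) (hσ _ _ b3) _ _ _ (hadj _ _ b1)
      (hadj _ _ b2) (hadj _ _ b3)]
    show _ = _ + ((wt α _ _ + wt α _ _ + wt α _ _) + (wt α _ _ + wt α _ _ + wt α _ _))
    ring
  have htr : ∀ (v : ZMod n × ZMod n) (f : ZMod n × ZMod n → ZMod 2),
      ∑ x, f (x + v) = ∑ x, f x := fun v f => Equiv.sum_comp (Equiv.addRight v) f
  have htwo : ∀ z : ZMod 2, z + z = 0 := by decide
  have key2 : ∑ x, ((w x 0 + w x 1 + w x 2) + (w x 0 + w (x + (1, 0)) 1 + w (x + (0, 1)) 2)) =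
      0 := by
    simp only [Finset.sum_add_distrib]
    rw [htr (1, 0) (fun x => w x 1), htr (0, 1) (fun x => w x 2)]
    exact htwo _
  unfold P
  rw [Finset.sum_congr rfl (fun x _ => key x), Finset.sum_add_distrib, key2, add_zero]

theorem P_eqv {σ τ : (ZMod n × ZMod n) × Fin 3 → Fin 3} (hσ : Proper (kag n) σ)
    (h : Eqv (kag n) σ τ) : P n τ = P n σ := by
  have : Proper (kag n) τ ∧ P n τ = P n σ := by
    unfold Eqv at h
    induction h with
    | refl => exact ⟨hσ, rfl⟩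
    | tail _ hs ih => exact ⟨hs.proper ih.1, (P_sw ih.1 hs).trans ih.2⟩
  exact this.2

/-- a criterion for properness -/
theorem kproper {σ : (ZMod n × ZMod n) × Fin 3 → Fin 3}
    (hA : ∀ x, σ (x, 0) ≠ σ (x, 1) ∧ σ (x, 0) ≠ σ (x, 2) ∧ σ (x, 1) ≠ σ (x, 2))
    (hB : ∀ x, σ (x, 0) ≠ σ (x + (1, 0), 1) ∧ σ (x, 0) ≠ σ (x + (0, 1), 2) ∧
      σ (x + (1, 0), 1) ≠ σ (x + (0, 1), 2)) : Proper (kag n) σ := by
  have hA' : ∀ x (d d' : Fin 3), d ≠ d' → σ (x, d) ≠ σ (x, d') := by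
    intro x d d' hd
    obtain ⟨h1, h2, h3⟩ := hA x
    fin_cases d <;> fin_cases d' <;>
      first
      | exact absurd rfl hd
      | exact h1
      | exact h2
      | exact h3
      | exact h1.symm
      | exact h2.symm
      | exact h3.symm
  have hB' : ∀ x (d d' : Fin 3), d ≠ d' → σ (x + dl n d, d) ≠ σ (x + dl n d', d') := by
    intro x d d' hd
    obtain ⟨h1, h2, h3⟩ := hB x
    have e0 : x + dl n 0 = x := by simp [dl, Prod.mk_zero_zero]
    have e1 : x + dl n 1 = x + (1, 0) := rfl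
    have e2 : x + dl n 2 = x + (0, 1) := rfl
    fin_cases d <;> fin_cases d' <;>
      simp only [Fin.zero_eta, Fin.mk_one, Fin.reduceFinMk, e0, e1, e2] <;>
      first
      | exact absurd rfl hd
      | exact h1
      | exact h2
      | exact h3
      | exact h1.symm
      | exact h2.symm
      | exact h3.symm
  rintro ⟨x, d⟩ ⟨y, d'⟩ ⟨hne, h⟩
  simp only at h
  rcases h with h | h
  · subst h
    exact hA' x d d' (fun hd => hne (by rw [hd]))
  · have hx : x = (x - dl n d) + dl n d := by simp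
    have hy : y = (x - dl n d) + dl n d' := by rw [h]; simp
    by_cases hd : d = d'
    · exfalso
      subst hd
      apply hne
      rw [hy, ← hx]
    · have := hB' (x - dl n d) d d' hd
      rwa [← hx, ← hy] at this

end Pool.Agent.Lib.WSK
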