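import Mathlib
import Pool.Agent.Lib.WSK.KagomeInv
import Pool.Agent.Lib.WSK.Degree2

set_option autoImplicit false

/-!
# A colouring of the kagome lattice with an odd number of positively oriented vertices
-/

namespace Pool.Agent.Lib.WSK

/-- a triple of colours -/
def tri (a b c : Fin 3) : Fin 3 → Fin 3
  | 0 => a
  | 1 => b
  | 2 => c

/-- colours of the three sites of the cell `(i, j)` -/
def kcv (n : ℕ) (i j : ZMod n) : Fin 3 → Fin 3 :=
  if i = 0 then
    (if j = 0 then tri 0 1 2 else if j = 1 then tri 2 0 1 else if j = -1 then tri 1 2 0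
      else tri 2 1 0)
  else if i = -1 then
    (if j = 0 then tri 0 2 1 else if j = 1 then tri 1 0 2 else tri 0 1 2)
  else
    (if j = 0 then tri 1 2 0 else if j = -i then tri 2 0 1 else tri 2 1 0)

/-- the colouring -/
def kc (n : ℕ) (u : (ZMod n × ZMod n) × Fin 3) : Fin 3 := kcv n u.1.1 u.1.2 u.2

/-- the colouring by directions -/
def kd (n : ℕ) (u : (ZMod n × ZMod n) × Fin 3) : Fin 3 := u.2

variable {n : ℕ}

theorem kd_proper [NeZero n] : Proper (kag n) (kd n) :=
  kproper (fun x => by simp [kd]) (fun x => by simp [kd])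

theorem kd_P [NeZero n] : P n (kd n) = 0 := by
  unfold P
  refine Finset.sum_eq_zero (fun x _ => ?_)
  simp only [kd]
  decide

theorem z1 (hn : 3 ≤ n) : (1 : ZMod n) ≠ 0 := one_ne_zero_of (by omega)

theorem z2 (hn : 3 ≤ n) : (2 : ZMod n) ≠ 0 := by
  intro h
  have h2 : ((2 : ℕ) : ZMod n) = 0 := by exact_mod_cast h
  rw [ZMod.natCast_eq_zero_iff] at h2
  have := Nat.le_of_dvd (by norm_num) h2
  omega

theorem zm1 (hn : 3 ≤ n) : (-1 : ZMod n) ≠ 0 := neg_ne_zero.mpr (z1 hn)

theorem z1m1 (hn : 3 ≤ n) : (1 : ZMod n) ≠ -1 := by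
  intro h
  apply z2 hn
  have : (1 : ZMod n) + 1 = 0 := by rw [eq_neg_iff_add_eq_zero] at h; exact h
  rw [← this]; ring

theorem kcv0 (n : ℕ) (i j : ZMod n) : kcv n i j 0 = if i = 0 then
      (if j = 0 then 0 else if j = 1 then 2 else if j = -1 then 1 else 2)
    else if i = -1 then (if j = 0 then 0 else if j = 1 then 1 else 0)
    else (if j = 0 then 1 else 2) := by
  unfold kcv
  split_ifs <;> rfl

theorem kcv1 (n : ℕ) (i j : ZMod n) : kcv n i j 1 = if i = 0 then
      (if j = 0 then 1 else if j = 1 then 0 else if j = -1 then 2 else 1)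
    else (if j = 0 then 2 else if j = -i then 0 else 1) := by
  unfold kcv
  by_cases h0 : i = 0
  · simp only [h0, if_true]
    split_ifs <;> rfl
  · by_cases hm : i = -1
    · subst hm
      simp only [if_neg h0, if_true, neg_neg]
      split_ifs <;> rfl
    · simp only [if_neg h0, if_neg hm]
      split_ifs <;> rfl

theorem kcv2 (n : ℕ) (i j : ZMod n) : kcv n i j 2 = if i = 0 then
      (if j = 0 then 2 else if j = 1 then 1 else 0)
    else if i = -1 then (if j = 0 then 1 else 2)
    else (if j = 0 then 0 else if j = -i then 1 else 0) := by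
  unfold kcv
  split_ifs <;> rfl

/-- the triple at the `B` vertex of the cell `(i, j)` -/
theorem kcB (hn : 3 ≤ n) (i j : ZMod n) :
    (kcv n i j 0, kcv n (i + 1) j 1, kcv n i (j + 1) 2) =
    if i = 0 then
      (if j = 0 then (0, 2, 1) else if j = -1 then (1, 0, 2) else (2, 1, 0))
    else if i = -1 then
      (if j = 1 then (1, 0, 2) else if j = -1 then (0, 2, 1) else (0, 1, 2))
    else
      (if j = 0 then (1, 2, 0) else if j = -i - 1 then (2, 0, 1) else ((2, 1, 0) : Fin 3 × Fin 3 × Fin 3)) := by
  have h1 := z1 hn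
  have hm := zm1 hn
  have h1m := z1m1 hn
  have e1 : ∀ z : ZMod n, z + 1 = 0 ↔ z = -1 := fun z => eq_neg_iff_add_eq_zero.symm
  have e2 : ∀ z : ZMod n, z + 1 = 1 ↔ z = 0 := fun z => by simp
  have e3 : ∀ z : ZMod n, z + 1 = -i ↔ z = -i - 1 := fun z => eq_sub_iff_add_eq.symm
  have e4 : -(i + 1) = -i - 1 := by ring
  rw [kcv0, kcv1, kcv2]
  by_cases hi0 : i = 0
  · subst hi0
    simp only [if_true, zero_add, if_neg h1, e1, e2]
    by_cases hj0 : j = 0
    · subst hj0
      simp only [if_true, if_neg hm.symm]
    · by_cases hjm : j = -1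
      · subst hjm
        simp only [if_true, if_neg hm, if_neg h1m.symm]
      · by_cases hj1 : j = 1
        · subst hj1
          simp only [if_true, if_neg h1, if_neg h1m]
        · simp only [if_neg hj0, if_neg hjm, if_neg hj1]
  · by_cases him : i = -1
    · subst him
      simp only [if_true, if_neg hm, neg_add_cancel, e1]
      by_cases hj0 : j = 0
      · subst hj0
        simp only [if_true, if_neg hm.symm, if_neg h1.symm]
      · by_cases hj1 : j = 1
        · subst hj1
          simp only [if_true, if_neg h1, if_neg h1m]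
        · by_cases hjm : j = -1
          · subst hjm
            simp only [if_true, if_neg hm, if_neg h1m.symm]
          · simp only [if_neg hj0, if_neg hjm, if_neg hj1]
    · have hi1 : ¬ i + 1 = 0 := by rw [e1]; exact him
      simp only [if_neg hi0, if_neg him, if_neg hi1, e1, e3, e4]
      by_cases hj0 : j = 0
      · subst hj0
        have h5 : ¬ (0 : ZMod n) = -i - 1 := by
          intro h
          apply him
          linear_combination h
        simp only [if_true, if_neg hm.symm, if_neg h5]
      · by_cases hji : j = -i - 1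
        · have h8 : ¬ j = -1 := by
            intro h
            apply hi0
            linear_combination hji - h
          simp only [if_neg hj0, if_pos hji, if_neg h8]
        · simp only [if_neg hj0, if_neg hji]
          split_ifs <;> rfl

theorem kcA (n : ℕ) (i j : ZMod n) :
    (kcv n i j 0, kcv n i j 1, kcv n i j 2) =
    if i = 0 then
      (if j = 0 then (0, 1, 2) else if j = 1 then (2, 0, 1) else if j = -1 then (1, 2, 0)
        else (2, 1, 0))
    else if i = -1 then
      (if j = 0 then (0, 2, 1) else if j = 1 then (1, 0, 2) else (0, 1, 2))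
    else
      (if j = 0 then (1, 2, 0) else if j = -i then (2, 0, 1) else ((2, 1, 0) : Fin 3 × Fin 3 × Fin 3)) := by
  unfold kcv
  split_ifs <;> rfl

/-- distinctness of a triple -/
def Dist (t : Fin 3 × Fin 3 × Fin 3) : Prop := t.1 ≠ t.2.1 ∧ t.1 ≠ t.2.2 ∧ t.2.1 ≠ t.2.2

/-- orientation of a triple -/
def post (t : Fin 3 × Fin 3 × Fin 3) : ZMod 2 := pos t.1 t.2.1 t.2.2

theorem kc_proper [NeZero n] (hn : 3 ≤ n) : Proper (kag n) (kc n) := by
  have d1 : Dist (0, 1, 2) := by unfold Dist; decide
  have d2 : Dist (0, 2, 1) := by unfold Dist; decide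
  have d3 : Dist (1, 0, 2) := by unfold Dist; decide
  have d4 : Dist (1, 2, 0) := by unfold Dist; decide
  have d5 : Dist (2, 0, 1) := by unfold Dist; decide
  have d6 : Dist (2, 1, 0) := by unfold Dist; decide
  refine kproper (fun x => ?_) (fun x => ?_)
  · show Dist (kcv n x.1 x.2 0, kcv n x.1 x.2 1, kcv n x.1 x.2 2)
    rw [kcA]
    split_ifs <;> assumption
  · have := kcB hn x.1 x.2
    have h2 : Dist (kcv n x.1 x.2 0, kcv n (x.1 + 1) x.2 1, kcv n x.1 (x.2 + 1) 2) := by
      rw [this]
      split_ifs <;> assumption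
    simpa [kc, Dist] using h2

/-- indicator -/
def ind (a b : ZMod n) : ZMod 2 := if a = b then 1 else 0

theorem sum_ind [NeZero n] (b : ZMod n) : ∑ a : ZMod n, ind a b = 1 := by
  unfold ind
  simp

theorem kc_cell (hn : 3 ≤ n) (i j : ZMod n) :
    pos (kc n ((i, j), 0)) (kc n ((i, j), 1)) (kc n ((i, j), 2)) +
    pos (kc n ((i, j), 0)) (kc n ((i, j) + (1, 0), 1)) (kc n ((i, j) + (0, 1), 2)) =
    if i = 0 then ind j 0 + ind j 1 + ind j (-1)
    else if i = -1 then ind j 0 + ind j (-1)
    else ind j (-i) + ind j (-i - 1) := by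
  have h1 := z1 hn
  have hm := zm1 hn
  have h1m := z1m1 hn
  have hA := kcA n i j
  have hB := kcB hn i j
  have e : pos (kc n ((i, j), 0)) (kc n ((i, j), 1)) (kc n ((i, j), 2)) +
    pos (kc n ((i, j), 0)) (kc n ((i, j) + (1, 0), 1)) (kc n ((i, j) + (0, 1), 2)) =
    post (kcv n i j 0, kcv n i j 1, kcv n i j 2) +
    post (kcv n i j 0, kcv n (i + 1) j 1, kcv n i (j + 1) 2) := by
    simp [kc, post]
  rw [e, hA, hB]
  have p1 : post (0, 1, 2) = 1 := by decide
  have p2 : post (0, 2, 1) = 0 := by decide
  have p3 : post (1, 0, 2) = 0 := by decide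
  have p4 : post (1, 2, 0) = 1 := by decide
  have p5 : post (2, 0, 1) = 1 := by decide
  have p6 : post (2, 1, 0) = 0 := by decide
  by_cases hi0 : i = 0
  · subst hi0
    simp only [if_true]
    by_cases hj0 : j = 0
    · subst hj0
      simp only [if_true, ind, if_neg hm.symm, if_neg h1.symm, p1, p2]
      decide
    · by_cases hjm : j = -1
      · subst hjm
        simp only [if_true, ind, if_neg hm, if_neg h1m.symm, p4, p3]
        decide
      · by_cases hj1 : j = 1
        · subst hj1
          simp only [if_true, ind, if_neg h1, if_neg h1m, p5, p6]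
          decide
        · simp only [ind, if_neg hj0, if_neg hjm, if_neg hj1, p6]
          decide
  · by_cases him : i = -1
    · subst him
      simp only [if_true, if_neg hm]
      by_cases hj0 : j = 0
      · subst hj0
        simp only [if_true, ind, if_neg hm.symm, if_neg h1.symm, p1, p2]
        decide
      · by_cases hjm : j = -1
        · subst hjm
          simp only [if_true, ind, if_neg hm, if_neg h1m.symm, p1, p2]
          decide
        · by_cases hj1 : j = 1
          · subst hj1
            simp only [if_true, ind, if_neg h1, if_neg h1m, p3]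
          · simp only [ind, if_neg hj0, if_neg hjm, if_neg hj1, p1]
            decide
    · simp only [if_neg hi0, if_neg him]
      have h5 : ¬ (0 : ZMod n) = -i - 1 := by
        intro h
        apply him
        linear_combination h
      have h6 : ¬ (0 : ZMod n) = -i := by
        intro h
        apply hi0
        linear_combination h
      by_cases hj0 : j = 0
      · subst hj0
        simp only [if_true, ind, if_neg h5, if_neg h6, p4]
        decide
      · by_cases hji : j = -i
        · have h7 : ¬ j = -i - 1 := by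
            intro h
            apply h1
            linear_combination h - hji
          simp only [if_neg hj0, ind, if_pos hji, if_neg h7, p5, p6]
        · by_cases hji1 : j = -i - 1
          · simp only [if_neg hj0, ind, if_pos hji1, if_neg hji, p5, p6]
          · simp only [if_neg hj0, ind, if_neg hji1, if_neg hji, p6]

theorem kc_P [NeZero n] (hn : 3 ≤ n) : P n (kc n) = 1 := by
  unfold P
  rw [Fintype.sum_prod_type]
  have hrow : ∀ i : ZMod n, ∑ j : ZMod n,
      (pos (kc n ((i, j), 0)) (kc n ((i, j), 1)) (kc n ((i, j), 2)) +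
      pos (kc n ((i, j), 0)) (kc n ((i, j) + (1, 0), 1)) (kc n ((i, j) + (0, 1), 2))) = ind i 0 := by
    intro i
    rw [Finset.sum_congr rfl (fun j _ => kc_cell hn i j)]
    by_cases hi0 : i = 0
    · have e : ind i 0 = 1 := by simp [ind, hi0]
      rw [e]
      simp only [if_pos hi0, Finset.sum_add_distrib, sum_ind]
      decide
    · have e : ind i 0 = 0 := by simp [ind, hi0]
      rw [e]
      by_cases him : i = -1
      · simp only [if_neg hi0, if_pos him, Finset.sum_add_distrib, sum_ind]
        decide
      · simp only [if_neg hi0, if_neg him, Finset.sum_add_distrib, sum_ind]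
        decide
  rw [Finset.sum_congr rfl (fun i _ => hrow i), sum_ind]

theorem kagome_nonergodic (hn : 3 ≤ n) : ¬ WSKErgodic (kagomeTorus n) 3 := by
  have : NeZero n := ⟨by omega⟩
  rw [kagome_ergodic_iff (by omega), ergodic_iff]
  intro h
  have := P_eqv (kc_proper hn) (h (kc n) (kd n) (kc_proper hn) kd_proper)
  rw [kc_P hn, kd_P] at this
  exact absurd this (by decide)

end Pool.Agent.Lib.WSK
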