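import Mathlib
import Pool.Agent.Lib.WSK.Basic

set_option autoImplicit false

/-!
# A verified search for Kempe equivalence of all proper colourings of a finite graph
-/

namespace Pool.Agent.Lib.WSK

variable {V : Type*}

/-- an enumeration of the vertices of `G` with neighbourhoods given by bit masks -/
structure Enum (G : SimpleGraph V) (N : ℕ) (nbs : List ℕ) (vtx : ℕ → V) : Prop where
  surj : ∀ x, ∃ k, k < N ∧ vtx k = x
  inj : ∀ j k, j < N → k < N → vtx j = vtx k → j = k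
  adj : ∀ j k, j < N → k < N → (G.Adj (vtx j) (vtx k) ↔ (nbs.getD j 0).testBit k = true)
  len : nbs.length = N
  bd : ∀ j, j < N → nbs.getD j 0 < 2 ^ N

theorem Enum.mk' {G : SimpleGraph V} {N : ℕ} {nbs : List ℕ} {vtx : ℕ → V}
    (surj : ∀ x, ∃ k, k < N ∧ vtx k = x)
    (inj : ∀ j < N, ∀ k < N, vtx j = vtx k → j = k)
    (adj : ∀ j < N, ∀ k < N, (G.Adj (vtx j) (vtx k) ↔ (nbs.getD j 0).testBit k = true))
    (len : nbs.length = N)
    (bd : ∀ j < N, nbs.getD j 0 < 2 ^ N) : Enum G N nbs vtx :=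
  ⟨surj, fun j k hj hk => inj j hj k hk, fun j k hj hk => adj j hj k hk, len, fun j hj => bd j hj⟩

/-- search trees -/
inductive Tree where
  | dead : Tree
  | br (v : ℕ) (t0 t1 t2 t3 : Tree) : Tree
  | kem (a b v S : ℕ) : Tree
  | fin (p : List (ℕ × ℕ × ℕ)) : Tree

/-- the mask of colour `c` -/
def sel (c m0 m1 m2 m3 : ℕ) : ℕ :=
  match c with
  | 0 => m0
  | 1 => m1
  | 2 => m2
  | _ => m3

/-- the union of the masks of the colours other than `a` and `b` -/
def oth (a b m0 m1 m2 m3 : ℕ) : ℕ :=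
  (if Nat.beq 0 a || Nat.beq 0 b then 0 else m0) |||
  (if Nat.beq 1 a || Nat.beq 1 b then 0 else m1) |||
  (if Nat.beq 2 a || Nat.beq 2 b then 0 else m2) |||
  (if Nat.beq 3 a || Nat.beq 3 b then 0 else m3)

/-- closedness test -/
def closedAux : List ℕ → ℕ → ℕ → Bool
  | [], _, _ => true
  | nb :: rest, T, S => (Nat.beq (Nat.land nb S) 0 || Nat.beq (T % 2) 1) &&
      closedAux rest (T / 2) S

/-- new mask of colour `c` after exchanging `a` and `b` on `S` -/
def upd (c a b S m0 m1 m2 m3 : ℕ) : ℕ :=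
  if Nat.beq c a then
    ((sel a m0 m1 m2 m3) ^^^ ((sel a m0 m1 m2 m3) &&& S)) ||| ((sel b m0 m1 m2 m3) &&& S)
  else if Nat.beq c b then
    ((sel b m0 m1 m2 m3) ^^^ ((sel b m0 m1 m2 m3) &&& S)) ||| ((sel a m0 m1 m2 m3) &&& S)
  else sel c m0 m1 m2 m3

/-- follow a path of closed-set swaps and compare with the base colouring -/
def runPath (q : ℕ) (nbs : List ℕ) (b0 b1 b2 b3 : ℕ) :
    List (ℕ × ℕ × ℕ) → ℕ → ℕ → ℕ → ℕ → Bool
  | [], m0, m1, m2, m3 => Nat.beq m0 b0 && Nat.beq m1 b1 && Nat.beq m2 b2 && Nat.beq m3 b3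
  | (a, b, S) :: p, m0, m1, m2, m3 =>
      Nat.blt a b && Nat.blt b q && closedAux nbs (S ||| oth a b m0 m1 m2 m3) S &&
      runPath q nbs b0 b1 b2 b3 p (upd 0 a b S m0 m1 m2 m3) (upd 1 a b S m0 m1 m2 m3)
        (upd 2 a b S m0 m1 m2 m3) (upd 3 a b S m0 m1 m2 m3)

/-- the checker -/
def check (q N v0 : ℕ) (nbs : List ℕ) (b0 b1 b2 b3 : ℕ) : Tree → ℕ → ℕ → ℕ → ℕ → Bool
  | .dead, _, _, _, _ => false
  | .br v t0 t1 t2 t3, m0, m1, m2, m3 =>
      Nat.blt v N &&
      (!(Nat.beq (Nat.land (nbs.getD v 0) m0) 0) ||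
        check q N v0 nbs b0 b1 b2 b3 t0 (m0 ||| 1 <<< v) m1 m2 m3) &&
      (!(Nat.beq (Nat.land (nbs.getD v 0) m1) 0) ||
        check q N v0 nbs b0 b1 b2 b3 t1 m0 (m1 ||| 1 <<< v) m2 m3) &&
      (!(Nat.beq (Nat.land (nbs.getD v 0) m2) 0) ||
        check q N v0 nbs b0 b1 b2 b3 t2 m0 m1 (m2 ||| 1 <<< v) m3) &&
      (Nat.ble q 3 || !(Nat.beq (Nat.land (nbs.getD v 0) m3) 0) ||
        check q N v0 nbs b0 b1 b2 b3 t3 m0 m1 m2 (m3 ||| 1 <<< v))
  | .kem a b v S, m0, m1, m2, m3 =>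
      Nat.blt a b && Nat.blt b q && Nat.ble v0 v && Nat.blt v N &&
      (sel b m0 m1 m2 m3).testBit v && S.testBit v && Nat.beq (S % 2 ^ v) 0 &&
      closedAux nbs (S ||| oth a b m0 m1 m2 m3) S
  | .fin p, m0, m1, m2, m3 => runPath q nbs b0 b1 b2 b3 p m0 m1 m2 m3

section sound

variable {G : SimpleGraph V} {q N : ℕ} {nbs : List ℕ} {vtx : ℕ → V}

/-- `σ` extends the partial assignment given by the masks -/
def Ext (N : ℕ) (vtx : ℕ → V) (σ : V → Fin q) (m0 m1 m2 m3 : ℕ) : Prop :=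
  ∀ k, k < N → ∀ c, c < 4 → (sel c m0 m1 m2 m3).testBit k = true → (σ (vtx k)).val = c

theorem closedAux_spec (nbs : List ℕ) (T S : ℕ) (h : closedAux nbs T S = true) :
    ∀ w, w < nbs.length → (nbs.getD w 0) &&& S = 0 ∨ T.testBit w = true := by
  induction nbs generalizing T with
  | nil => intro w hw; simp at hw
  | cons nb rest ih =>
    intro w hw
    simp only [closedAux, Bool.and_eq_true, Bool.or_eq_true] at h
    cases w with
    | zero =>
      rcases h.1 with h1 | h1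
      · left
        simpa using Nat.eq_of_beq_eq_true h1
      · right
        have := Nat.eq_of_beq_eq_true h1
        simp [Nat.testBit_zero, this]
    | succ w =>
      have := ih (T / 2) h.2 w (by simpa using hw)
      rw [Nat.testBit_succ]
      simpa using this

theorem oth_testBit {a b m0 m1 m2 m3 k : ℕ} (h : (oth a b m0 m1 m2 m3).testBit k = true) :
    ∃ c, c < 4 ∧ c ≠ a ∧ c ≠ b ∧ (sel c m0 m1 m2 m3).testBit k = true := by
  unfold oth at h
  rw [Nat.testBit_or, Nat.testBit_or, Nat.testBit_or] at h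
  simp only [Bool.or_eq_true] at h
  have key : ∀ c m : ℕ, (if (Nat.beq c a = true ∨ Nat.beq c b = true) then 0 else m).testBit k = true →
      c ≠ a ∧ c ≠ b ∧ m.testBit k = true := by
    intro c m hm
    by_cases hc : Nat.beq c a = true ∨ Nat.beq c b = true
    · rw [if_pos hc] at hm; simp at hm
    · rw [if_neg hc] at hm
      push Not at hc
      refine ⟨?_, ?_, hm⟩
      · rintro rfl; simp at hc
      · rintro rfl; simp at hc
  rcases h with ((h | h) | h) | h
  · obtain ⟨h1, h2, h3⟩ := key 0 m0 h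
    exact ⟨0, by norm_num, h1, h2, h3⟩
  · obtain ⟨h1, h2, h3⟩ := key 1 m1 h
    exact ⟨1, by norm_num, h1, h2, h3⟩
  · obtain ⟨h1, h2, h3⟩ := key 2 m2 h
    exact ⟨2, by norm_num, h1, h2, h3⟩
  · obtain ⟨h1, h2, h3⟩ := key 3 m3 h
    exact ⟨3, by norm_num, h1, h2, h3⟩

/-- the set of vertices given by a mask -/
def setOfMask (N : ℕ) (vtx : ℕ → V) (S : ℕ) : Set V := {x | ∃ k, k < N ∧ vtx k = x ∧ S.testBit k = true}

theorem closed_step (hE : Enum G N nbs vtx) {σ : V → Fin q} {m0 m1 m2 m3 a b S : ℕ}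
    (hExt : Ext N vtx σ m0 m1 m2 m3)
    (hc : closedAux nbs (S ||| oth a b m0 m1 m2 m3) S = true)
    {x y : V} (hx : x ∈ setOfMask N vtx S) (hadj : G.Adj x y)
    (hy : (σ y).val = a ∨ (σ y).val = b) : y ∈ setOfMask N vtx S := by
  obtain ⟨k, hk, rfl, hkS⟩ := hx
  obtain ⟨w, hw, rfl⟩ := hE.surj y
  rcases closedAux_spec nbs _ S hc w (by rw [hE.len]; exact hw) with h | h
  · exfalso
    have h1 : (nbs.getD w 0).testBit k = true := (hE.adj w k hw hk).mp hadj.symm
    have h2 : ((nbs.getD w 0) &&& S).testBit k = true := by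
      rw [Nat.testBit_and, h1, hkS]; rfl
    rw [h] at h2
    simp at h2
  · rw [Nat.testBit_or, Bool.or_eq_true] at h
    rcases h with h | h
    · exact ⟨w, hw, rfl, h⟩
    · exfalso
      obtain ⟨c, hc4, hca, hcb, hct⟩ := oth_testBit h
      have := hExt w hw c hc4 hct
      rcases hy with hy | hy
      · exact hca (this.symm.trans hy)
      · exact hcb (this.symm.trans hy)

theorem upd_testBit {c a b S m0 m1 m2 m3 k : ℕ} (hab : a ≠ b)
    (h : (upd c a b S m0 m1 m2 m3).testBit k = true) :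
    ∃ d, (d = a ∨ d = b ∨ d = c) ∧ (sel d m0 m1 m2 m3).testBit k = true ∧
    ((S.testBit k = true ∧ ((d = a ∧ c = b) ∨ (d = b ∧ c = a) ∨ (d = c ∧ d ≠ a ∧ d ≠ b))) ∨
      (S.testBit k = false ∧ d = c)) := by
  unfold upd at h
  by_cases hca : c = a
  · subst hca
    simp only [Nat.beq_refl, if_true, Nat.testBit_or, Nat.testBit_xor, Nat.testBit_and,
      Bool.or_eq_true, Bool.and_eq_true] at h
    rcases h with h | h
    · cases hS : S.testBit k
      · rw [hS] at h
        refine ⟨c, Or.inl rfl, by simpa using h, Or.inr ⟨rfl, rfl⟩⟩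
      · rw [hS] at h
        simp at h
    · exact ⟨b, Or.inr (Or.inl rfl), h.1, Or.inl ⟨h.2, Or.inr (Or.inl ⟨rfl, rfl⟩)⟩⟩
  · have hca' : Nat.beq c a = false := by
      rw [← Bool.not_eq_true]; intro h; exact hca (Nat.eq_of_beq_eq_true h)
    rw [hca'] at h
    by_cases hcb : c = b
    · subst hcb
      simp only [Nat.beq_refl, if_true, Bool.false_eq_true, if_false, Nat.testBit_or,
        Nat.testBit_xor, Nat.testBit_and, Bool.or_eq_true, Bool.and_eq_true] at h
      rcases h with h | h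
      · cases hS : S.testBit k
        · rw [hS] at h
          refine ⟨c, Or.inr (Or.inl rfl), by simpa using h, Or.inr ⟨rfl, rfl⟩⟩
        · rw [hS] at h
          simp at h
      · exact ⟨a, Or.inl rfl, h.1, Or.inl ⟨h.2, Or.inl ⟨rfl, rfl⟩⟩⟩
    · have hcb' : Nat.beq c b = false := by
        rw [← Bool.not_eq_true]; intro h; exact hcb (Nat.eq_of_beq_eq_true h)
      rw [hcb'] at h
      simp only [Bool.false_eq_true, if_false] at h
      refine ⟨c, Or.inr (Or.inr rfl), h, ?_⟩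
      cases hS : S.testBit k
      · exact Or.inr ⟨rfl, rfl⟩
      · exact Or.inl ⟨rfl, Or.inr (Or.inr ⟨rfl, hca, hcb⟩)⟩

theorem sel_upd (c a b S m0 m1 m2 m3 : ℕ) (hc : c < 4) :
    sel c (upd 0 a b S m0 m1 m2 m3) (upd 1 a b S m0 m1 m2 m3)
        (upd 2 a b S m0 m1 m2 m3) (upd 3 a b S m0 m1 m2 m3) = upd c a b S m0 m1 m2 m3 := by
  interval_cases c <;> rfl

theorem move_sound (hE : Enum G N nbs vtx) (hq : q ≤ 4) {σ : V → Fin q} {m0 m1 m2 m3 a b S : ℕ}
    (hExt : Ext N vtx σ m0 m1 m2 m3) (hab : a < b) (hbq : b < q)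
    (hc : closedAux nbs (S ||| oth a b m0 m1 m2 m3) S = true) :
    ∃ τ : V → Fin q, Sw G σ τ ∧ Ext N vtx τ (upd 0 a b S m0 m1 m2 m3)
      (upd 1 a b S m0 m1 m2 m3) (upd 2 a b S m0 m1 m2 m3) (upd 3 a b S m0 m1 m2 m3) := by
  classical
  set α : Fin q := ⟨a, hab.trans hbq⟩ with hα
  set β : Fin q := ⟨b, hbq⟩ with hβ
  refine ⟨fun x => if x ∈ setOfMask N vtx S then Equiv.swap α β (σ x) else σ x, ?_, ?_⟩
  · refine ⟨α, β, ?_, setOfMask N vtx S, ?_, ?_, ?_⟩
    · intro h; have := congrArg Fin.val h; simp [hα, hβ] at this; omega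
    · intro x hx y hadj _ hy
      refine closed_step hE hExt hc hx hadj ?_
      rcases hy with hy | hy
      · left; rw [hy]
      · right; rw [hy]
    · intro x hx; simp [hx]
    · intro x hx; simp [hx]
  · intro k hk c hc4 hct
    rw [sel_upd c a b S m0 m1 m2 m3 hc4] at hct
    obtain ⟨d, hd, hdt, hcase⟩ := upd_testBit (by omega) hct
    have hd4 : d < 4 := by
      rcases hd with rfl | rfl | rfl <;> omega
    have hval := hExt k hk d hd4 hdt
    have hmem : vtx k ∈ setOfMask N vtx S ↔ S.testBit k = true := by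
      constructor
      · rintro ⟨j, hj, hjk, hjS⟩
        rw [← hE.inj j k hj hk hjk]; exact hjS
      · intro h; exact ⟨k, hk, rfl, h⟩
    rcases hcase with ⟨hS, h⟩ | ⟨hS, h⟩
    · simp only [hmem.mpr hS, if_true]
      rcases h with ⟨h1, h2⟩ | ⟨h1, h2⟩ | ⟨h1, h2, h3⟩
      · have : σ (vtx k) = α := Fin.ext (by rw [hval, h1])
        rw [this, Equiv.swap_apply_left, h2]
      · have : σ (vtx k) = β := Fin.ext (by rw [hval, h1])
        rw [this, Equiv.swap_apply_right, h2]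
      · rw [Equiv.swap_apply_of_ne_of_ne, hval, h1]
        · intro h; apply h2; rw [← hval, h]
        · intro h; apply h3; rw [← hval, h]
    · have hnm : vtx k ∉ setOfMask N vtx S := by
        rw [hmem, hS]; simp
      simp only [hnm, if_false]
      rw [hval, h]

theorem runPath_sound (hE : Enum G N nbs vtx) (hq : q ≤ 4) {b0 b1 b2 b3 : ℕ}
    (p : List (ℕ × ℕ × ℕ)) (m0 m1 m2 m3 : ℕ) (σ : V → Fin q)
    (hExt : Ext N vtx σ m0 m1 m2 m3)
    (h : runPath q nbs b0 b1 b2 b3 p m0 m1 m2 m3 = true) :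
    ∃ τ : V → Fin q, Eqv G σ τ ∧ Ext N vtx τ b0 b1 b2 b3 := by
  induction p generalizing m0 m1 m2 m3 σ with
  | nil =>
    simp only [runPath, Bool.and_eq_true] at h
    obtain ⟨⟨⟨h0, h1⟩, h2⟩, h3⟩ := h
    have e0 := Nat.eq_of_beq_eq_true h0
    have e1 := Nat.eq_of_beq_eq_true h1
    have e2 := Nat.eq_of_beq_eq_true h2
    have e3 := Nat.eq_of_beq_eq_true h3
    subst e0 e1 e2 e3
    exact ⟨σ, Eqv.refl σ, hExt⟩
  | cons s p ih =>
    obtain ⟨a, b, S⟩ := s
    simp only [runPath, Bool.and_eq_true] at h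
    obtain ⟨⟨⟨h1, h2⟩, h3⟩, h4⟩ := h
    have hab : a < b := by simpa [Nat.blt_eq] using h1
    have hbq : b < q := by simpa [Nat.blt_eq] using h2
    obtain ⟨τ, hτ, hτE⟩ := move_sound hE hq hExt hab hbq h3
    obtain ⟨ρ, hρ, hρE⟩ := ih _ _ _ _ τ hτE h4
    exact ⟨ρ, Relation.ReflTransGen.head hτ hρ, hρE⟩

/-- the lexicographic code of a map -/
def enc (N : ℕ) (vtx : ℕ → V) (σ : V → Fin q) : Lex (Fin N → Fin q) :=
  toLex (fun k => σ (vtx k.val))

theorem kem_sound (hE : Enum G N nbs vtx) (hq : q ≤ 4) {σ : V → Fin q}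
    {m0 m1 m2 m3 a b v S : ℕ} (hExt : Ext N vtx σ m0 m1 m2 m3) (hab : a < b) (hbq : b < q)
    (hv : v < N) (hbv : (sel b m0 m1 m2 m3).testBit v = true) (hSv : S.testBit v = true)
    (hSm : S % 2 ^ v = 0) (hc : closedAux nbs (S ||| oth a b m0 m1 m2 m3) S = true) :
    ∃ τ : V → Fin q, Sw G σ τ ∧ enc N vtx τ < enc N vtx σ ∧
      ∀ k, k < v → τ (vtx k) = σ (vtx k) := by
  classical
  set α : Fin q := ⟨a, hab.trans hbq⟩ with hα
  set β : Fin q := ⟨b, hbq⟩ with hβ
  have hαβ : α ≠ β := by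
    intro h; have := congrArg Fin.val h; simp [hα, hβ] at this; omega
  set K : Set V := {y | Relation.ReflTransGen
    (fun x y => G.Adj x y ∧ (σ x = α ∨ σ x = β) ∧ (σ y = α ∨ σ y = β)) (vtx v) y} with hK
  have hKS : K ⊆ setOfMask N vtx S := by
    intro y hy
    simp only [hK, Set.mem_ofPred_eq] at hy
    induction hy with
    | refl => exact ⟨v, hv, rfl, hSv⟩
    | tail _ hstep ih =>
      refine closed_step hE hExt hc ih hstep.1 ?_
      rcases hstep.2.2 with h | h
      · left; rw [h]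
      · right; rw [h]
  have hsmall : ∀ k, k < v → vtx k ∉ K := by
    intro k hk hkK
    obtain ⟨j, hj, hjk, hjS⟩ := hKS hkK
    have hjk' := hE.inj j k hj (hk.trans hv) hjk
    subst hjk'
    have h1 : (S % 2 ^ v).testBit j = true := by
      rw [Nat.testBit_mod_two_pow, hjS]; simp [hk]
    rw [hSm] at h1
    simp at h1
  have hvK : vtx v ∈ K := by
    simp only [hK, Set.mem_ofPred_eq]
    exact Relation.ReflTransGen.refl
  have hvb : σ (vtx v) = β := Fin.ext (by
    rw [hExt v hv b (by omega) hbv])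
  refine ⟨fun x => if x ∈ K then Equiv.swap α β (σ x) else σ x, ?_, ?_, ?_⟩
  · refine ⟨α, β, hαβ, K, ?_, ?_, ?_⟩
    · intro x hx y hadj hcx hcy
      exact Relation.ReflTransGen.tail hx ⟨hadj, hcx, hcy⟩
    · intro x hx; simp [hx]
    · intro x hx; simp [hx]
  · refine ⟨⟨v, hv⟩, ?_, ?_⟩
    · intro j hj
      have hj' : j.val < v := hj
      show (if vtx j.val ∈ K then Equiv.swap α β (σ (vtx j.val)) else σ (vtx j.val)) =
        σ (vtx j.val)
      rw [if_neg (hsmall _ hj')]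
    · show (if vtx v ∈ K then Equiv.swap α β (σ (vtx v)) else σ (vtx v)) < σ (vtx v)
      rw [if_pos hvK, hvb, Equiv.swap_apply_right]
      exact hab
  · intro k hk
    show (if vtx k ∈ K then Equiv.swap α β (σ (vtx k)) else σ (vtx k)) = σ (vtx k)
    rw [if_neg (hsmall _ hk)]

theorem ext_br {σ : V → Fin q} {m0 m1 m2 m3 v : ℕ}
    (hExt : Ext N vtx σ m0 m1 m2 m3) :
    ((σ (vtx v)).val = 0 → Ext N vtx σ (m0 ||| 1 <<< v) m1 m2 m3) ∧
    ((σ (vtx v)).val = 1 → Ext N vtx σ m0 (m1 ||| 1 <<< v) m2 m3) ∧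
    ((σ (vtx v)).val = 2 → Ext N vtx σ m0 m1 (m2 ||| 1 <<< v) m3) ∧
    ((σ (vtx v)).val = 3 → Ext N vtx σ m0 m1 m2 (m3 ||| 1 <<< v)) := by
  have key : ∀ m k : ℕ, (m ||| 1 <<< v).testBit k = true → m.testBit k = true ∨ k = v := by
    intro m k h
    rw [Nat.testBit_or, Bool.or_eq_true] at h
    rcases h with h | h
    · exact Or.inl h
    · right
      rw [Nat.testBit_shiftLeft] at h
      simp only [Bool.and_eq_true, decide_eq_true_eq] at h
      have h2 : k - v = 0 := by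
        by_contra hne
        have := h.2
        rw [Nat.testBit_one_eq_true_iff_self_eq_zero] at this
        exact hne this
      omega
  refine ⟨?_, ?_, ?_, ?_⟩
  · intro hv k hk c hc hct
    interval_cases c
    · rcases key _ _ hct with h | h
      · exact hExt k hk 0 (by norm_num) h
      · rw [h, hv]
    · exact hExt k hk 1 (by norm_num) hct
    · exact hExt k hk 2 (by norm_num) hct
    · exact hExt k hk 3 (by norm_num) hct
  · intro hv k hk c hc hct
    interval_cases c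
    · exact hExt k hk 0 (by norm_num) hct
    · rcases key _ _ hct with h | h
      · exact hExt k hk 1 (by norm_num) h
      · rw [h, hv]
    · exact hExt k hk 2 (by norm_num) hct
    · exact hExt k hk 3 (by norm_num) hct
  · intro hv k hk c hc hct
    interval_cases c
    · exact hExt k hk 0 (by norm_num) hct
    · exact hExt k hk 1 (by norm_num) hct
    · rcases key _ _ hct with h | h
      · exact hExt k hk 2 (by norm_num) h
      · rw [h, hv]
    · exact hExt k hk 3 (by norm_num) hct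
  · intro hv k hk c hc hct
    interval_cases c
    · exact hExt k hk 0 (by norm_num) hct
    · exact hExt k hk 1 (by norm_num) hct
    · exact hExt k hk 2 (by norm_num) hct
    · rcases key _ _ hct with h | h
      · exact hExt k hk 3 (by norm_num) h
      · rw [h, hv]

theorem no_conf (hE : Enum G N nbs vtx) {σ : V → Fin q} (hσ : Proper G σ)
    {m0 m1 m2 m3 v c : ℕ} (hExt : Ext N vtx σ m0 m1 m2 m3) (hv : v < N) (hc : c < 4)
    (hvc : (σ (vtx v)).val = c) : Nat.land (nbs.getD v 0) (sel c m0 m1 m2 m3) = 0 := by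
  apply Nat.eq_of_testBit_eq
  intro k
  rw [Nat.zero_testBit]
  by_contra hne
  have h1 : ((nbs.getD v 0) &&& (sel c m0 m1 m2 m3)).testBit k = true := by
    simpa using hne
  rw [Nat.testBit_and, Bool.and_eq_true] at h1
  have hk : k < N := by
    by_contra hk
    have h2 := Nat.testBit_lt_two_pow (lt_of_lt_of_le (hE.bd v hv)
      (Nat.pow_le_pow_right (by norm_num) (not_lt.mp hk)))
    rw [h2] at h1
    simp at h1
  have h3 := hExt k hk c hc h1.2
  have h4 := (hE.adj v k hv hk).mpr h1.1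
  exact hσ _ _ h4 (Fin.ext (hvc.trans h3.symm))

theorem check_sound (hE : Enum G N nbs vtx) (hq : q ≤ 4) {v0 b0 b1 b2 b3 : ℕ} (t : Tree)
    (m0 m1 m2 m3 : ℕ) (h : check q N v0 nbs b0 b1 b2 b3 t m0 m1 m2 m3 = true)
    (σ : V → Fin q) (hσ : Proper G σ) (hExt : Ext N vtx σ m0 m1 m2 m3)
    (IH : ∀ τ : V → Fin q, Proper G τ → enc N vtx τ < enc N vtx σ →
      (∀ k, k < v0 → τ (vtx k) = σ (vtx k)) →
      ∃ ρ : V → Fin q, Eqv G τ ρ ∧ Ext N vtx ρ b0 b1 b2 b3) :
    ∃ ρ : V → Fin q, Eqv G σ ρ ∧ Ext N vtx ρ b0 b1 b2 b3 := by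
  induction t generalizing m0 m1 m2 m3 with
  | dead => simp [check] at h
  | br v t0 t1 t2 t3 ih0 ih1 ih2 ih3 =>
    simp only [check, Bool.and_eq_true, Bool.or_eq_true, Bool.not_eq_true'] at h
    obtain ⟨⟨⟨⟨hv, h0⟩, h1⟩, h2⟩, h3⟩ := h
    have hv : v < N := by simpa [Nat.blt_eq] using hv
    obtain ⟨e0, e1, e2, e3⟩ := ext_br (v := v) hExt
    have hlt : (σ (vtx v)).val < q := (σ (vtx v)).isLt
    have hcases : (σ (vtx v)).val = 0 ∨ (σ (vtx v)).val = 1 ∨ (σ (vtx v)).val = 2 ∨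
      (σ (vtx v)).val = 3 := by omega
    rcases hcases with hc | hc | hc | hc
    · have hn := no_conf hE hσ hExt hv (by norm_num) hc
      rcases h0 with h0 | h0
      · exfalso
        have : Nat.beq (Nat.land (nbs.getD v 0) m0) 0 = true := by
          rw [show Nat.land (nbs.getD v 0) m0 = 0 from hn]; rfl
        rw [this] at h0; simp at h0
      · exact ih0 _ _ _ _ h0 (e0 hc)
    · have hn := no_conf hE hσ hExt hv (by norm_num) hc
      rcases h1 with h1 | h1
      · exfalso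
        have : Nat.beq (Nat.land (nbs.getD v 0) m1) 0 = true := by
          rw [show Nat.land (nbs.getD v 0) m1 = 0 from hn]; rfl
        rw [this] at h1; simp at h1
      · exact ih1 _ _ _ _ h1 (e1 hc)
    · have hn := no_conf hE hσ hExt hv (by norm_num) hc
      rcases h2 with h2 | h2
      · exfalso
        have : Nat.beq (Nat.land (nbs.getD v 0) m2) 0 = true := by
          rw [show Nat.land (nbs.getD v 0) m2 = 0 from hn]; rfl
        rw [this] at h2; simp at h2
      · exact ih2 _ _ _ _ h2 (e2 hc)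
    · have hn := no_conf hE hσ hExt hv (by norm_num) hc
      rcases h3 with (h3 | h3) | h3
      · exfalso
        have := Nat.le_of_ble_eq_true h3
        omega
      · exfalso
        have : Nat.beq (Nat.land (nbs.getD v 0) m3) 0 = true := by
          rw [show Nat.land (nbs.getD v 0) m3 = 0 from hn]; rfl
        rw [this] at h3; simp at h3
      · exact ih3 _ _ _ _ h3 (e3 hc)
  | kem a b v S =>
    simp only [check, Bool.and_eq_true] at h
    obtain ⟨⟨⟨⟨⟨⟨⟨h1, h2⟩, h3⟩, h4⟩, h5⟩, h6⟩, h7⟩, h8⟩ := h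
    have hab : a < b := by simpa [Nat.blt_eq] using h1
    have hbq : b < q := by simpa [Nat.blt_eq] using h2
    have hv0 : v0 ≤ v := Nat.le_of_ble_eq_true h3
    have hv : v < N := by simpa [Nat.blt_eq] using h4
    obtain ⟨τ, hτ, hlt, hag⟩ := kem_sound hE hq hExt hab hbq hv h5 h6
      (Nat.eq_of_beq_eq_true h7) h8
    obtain ⟨ρ, hρ, hρE⟩ := IH τ (hτ.proper hσ) hlt (fun k hk => hag k (lt_of_lt_of_le hk hv0))
    exact ⟨ρ, Relation.ReflTransGen.head hτ hρ, hρE⟩
  | fin p =>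
    simp only [check] at h
    exact runPath_sound hE hq p m0 m1 m2 m3 σ hExt h

/-- If the checker accepts, every proper colouring extending the initial partial assignment
(on the first `v0` vertices) is equivalent to a colouring extending the base assignment. -/
theorem search (hE : Enum G N nbs vtx) (hq : q ≤ 4) {v0 b0 b1 b2 b3 : ℕ} (t : Tree)
    (m0 m1 m2 m3 : ℕ) (hinit : (m0 ||| m1 ||| m2 ||| m3) < 2 ^ v0)
    (h : check q N v0 nbs b0 b1 b2 b3 t m0 m1 m2 m3 = true)
    (σ : V → Fin q) (hσ : Proper G σ) (hExt : Ext N vtx σ m0 m1 m2 m3) :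
    ∃ ρ : V → Fin q, Eqv G σ ρ ∧ Ext N vtx ρ b0 b1 b2 b3 := by
  have hwf : WellFounded (fun a b : Lex (Fin N → Fin q) => a < b) := wellFounded_lt
  have main : ∀ x : Lex (Fin N → Fin q), ∀ σ : V → Fin q, enc N vtx σ = x → Proper G σ →
      Ext N vtx σ m0 m1 m2 m3 → ∃ ρ : V → Fin q, Eqv G σ ρ ∧ Ext N vtx ρ b0 b1 b2 b3 := by
    intro x
    induction x using hwf.induction with
    | _ x ih =>
      intro σ hx hσ hExt
      refine check_sound hE hq t m0 m1 m2 m3 h σ hσ hExt ?_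
      intro τ hτ hlt hag
      refine ih (enc N vtx τ) (hx ▸ hlt) τ rfl hτ ?_
      intro k hk c hc hct
      by_cases hkv : k < v0
      · rw [hag k hkv]; exact hExt k hk c hc hct
      · exfalso
        have hle : sel c m0 m1 m2 m3 ≤ m0 ||| m1 ||| m2 ||| m3 := by
          have h0 : m0 ≤ m0 ||| m1 ||| m2 ||| m3 :=
            (Nat.left_le_or).trans ((Nat.left_le_or).trans Nat.left_le_or)
          have h1 : m1 ≤ m0 ||| m1 ||| m2 ||| m3 :=
            (Nat.right_le_or).trans ((Nat.left_le_or).trans Nat.left_le_or)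
          have h2 : m2 ≤ m0 ||| m1 ||| m2 ||| m3 :=
            (Nat.right_le_or).trans Nat.left_le_or
          have h3 : m3 ≤ m0 ||| m1 ||| m2 ||| m3 := Nat.right_le_or
          interval_cases c
          · exact h0
          · exact h1
          · exact h2
          · exact h3
        have hlt2 : sel c m0 m1 m2 m3 < 2 ^ k :=
          lt_of_le_of_lt hle (lt_of_lt_of_le hinit
            (Nat.pow_le_pow_right (by norm_num) (not_lt.mp hkv)))
        rw [Nat.testBit_lt_two_pow hlt2] at hct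
        simp at hct
  exact main _ σ rfl hσ hExt

/-- two maps extending the same full assignment are equal -/
theorem ext_unique (hE : Enum G N nbs vtx) {σ τ : V → Fin q} {b0 b1 b2 b3 : ℕ}
    (hfull : b0 ||| b1 ||| b2 ||| b3 = 2 ^ N - 1)
    (hσ : Ext N vtx σ b0 b1 b2 b3) (hτ : Ext N vtx τ b0 b1 b2 b3) : σ = τ := by
  funext x
  obtain ⟨k, hk, rfl⟩ := hE.surj x
  have h1 : (b0 ||| b1 ||| b2 ||| b3).testBit k = true := by
    rw [hfull, Nat.testBit_two_pow_sub_one]; simp [hk]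
  rw [Nat.testBit_or, Nat.testBit_or, Nat.testBit_or] at h1
  simp only [Bool.or_eq_true] at h1
  apply Fin.ext
  rcases h1 with ((h | h) | h) | h
  · rw [hσ k hk 0 (by norm_num) h, hτ k hk 0 (by norm_num) h]
  · rw [hσ k hk 1 (by norm_num) h, hτ k hk 1 (by norm_num) h]
  · rw [hσ k hk 2 (by norm_num) h, hτ k hk 2 (by norm_num) h]
  · rw [hσ k hk 3 (by norm_num) h, hτ k hk 3 (by norm_num) h]

/-- If the checker accepts the empty assignment, the dynamics is ergodic. -/
theorem ergodic_of_check (hE : Enum G N nbs vtx) (hq : q ≤ 4) {b0 b1 b2 b3 : ℕ} (t : Tree)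
    (h : check q N 0 nbs b0 b1 b2 b3 t 0 0 0 0 = true)
    (hfull : b0 ||| b1 ||| b2 ||| b3 = 2 ^ N - 1) : WSKErgodic G q := by
  rw [ergodic_iff]
  intro σ τ hσ hτ
  have hinit : ∀ ρ : V → Fin q, Ext N vtx ρ 0 0 0 0 := by
    intro ρ k _ c hc hct
    exfalso
    interval_cases c <;> simp [sel] at hct
  obtain ⟨ρ, hρ, hρE⟩ := search hE hq t 0 0 0 0 (by simp) h σ hσ (hinit σ)
  obtain ⟨ρ', hρ', hρE'⟩ := search hE hq t 0 0 0 0 (by simp) h τ hτ (hinit τ)
  have := ext_unique hE hfull hρE hρE'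
  subst this
  exact hρ.trans hρ'.symm

end sound

end Pool.Agent.Lib.WSK
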