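import Mathlib
import Pool.Agent.Lib.WSK.Search
import Pool.Agent.Lib.WSK.Kagome

set_option autoImplicit false
set_option maxRecDepth 100000

/-!
# The kagome lattice with `n = 2`
-/

namespace Pool.Agent.Lib.WSK

/-- enumeration of the sites -/
def kvtx (k : ℕ) : (ZMod 2 × ZMod 2) × Fin 3 :=
  (((((k / 3) % 2 : ℕ) : ZMod 2), ((k / 6 : ℕ) : ZMod 2)), Fin.ofNat 3 k)

def k2_root : Tree :=
  (.br 0 (.br 1 .dead (.br 2 .dead .dead (.br 3 (.br 11 .dead .dead (.br 4 .dead (.br 5 .dead .dead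
  (.br 8 .dead .dead (.br 6 (.br 7 .dead (.br 9 (.br 10 .dead (.fin []) .dead .dead) .dead .dead
  .dead) .dead .dead) (.kem 0 1 6 1728) .dead .dead) .dead) .dead) (.br 5 .dead (.br 8 .dead
  (.br 6 (.br 7 .dead .dead (.br 9 (.kem 1 2 4 432) .dead .dead .dead) .dead) .dead .dead .dead)
  .dead .dead) .dead .dead) .dead) .dead) .dead (.br 4 .dead (.br 5 (.br 8 .dead .dead (.br 7 .dead
  (.br 6 (.br 9 .dead .dead (.br 10 .dead (.kem 0 2 3 2600) .dead .dead) .dead) .dead .dead .dead)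
  .dead .dead) .dead) .dead .dead .dead) .dead .dead) .dead) .dead) (.kem 1 2 1 4094) .dead)
  (.kem 0 1 0 4095) (.kem 0 2 0 4095) .dead)

def nbsk2 : List ℕ := [278, 2061, 1091, 2098, 297, 664, 1412, 864, 209, 3232, 2628, 1546]

theorem enumk2 : Enum (kag 2) 12 nbsk2 kvtx :=
  Enum.mk' (by decide +kernel) (by decide +kernel) (by decide +kernel) (by decide +kernel)
    (by decide +kernel)

theorem checkk2 : check 3 12 0 nbsk2 585 1170 2340 0 k2_root 0 0 0 0 = true := by
  decide +kernel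

theorem kagome_ergodic2 : WSKErgodic (kagomeTorus 2) 3 := by
  rw [kagome_ergodic_iff le_rfl]
  exact ergodic_of_check enumk2 (by norm_num) _ checkk2 (by decide +kernel)

end Pool.Agent.Lib.WSK
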