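import Mathlib
import Pool.Agent.Lib.WSK.Graphs

set_option autoImplicit false
set_option maxRecDepth 100000

/-!
# Windings of four-colourings of the `7 × 7` periodic triangular lattice
-/

namespace Pool.Agent.Lib.WSK

/-- the step between two colours (as elements of the four-group) -/
def st (a b : Fin 4) : ℕ := a.val ^^^ b.val

/-- indicator of `s = k` -/
def ind (k s : ℕ) : ℕ := if s = k then 1 else 0

theorem st_tri : ∀ a b c : Fin 4, a ≠ b → a ≠ c → b ≠ c → ∀ k : ℕ, 1 ≤ k → k ≤ 3 →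
    ind k (st a b) + ind k (st a c) + ind k (st b c) = 1 := by
  intro a b c hab hac hbc k hk1 hk3
  interval_cases k <;> revert a b c <;> decide

/-- the table of potentials -/
def phiTab : List ℕ := [0, 0, 0, 0, 0, 0, 0, 0, 0, 0, 0, 1, 0, 2, 3, 0, 0, 0, 0, 2, 0, 3, 4, 0, 0,
  4, 5, 0, 6, 0, 0, 0, 0, 0, 0, 3, 0, 4, 5, 0, 0, 5, 6, 0, 7, 0, 0, 0, 0, 6, 7, 0, 8, 0, 0, 0, 9,
  0, 0, 0, 0, 0, 0, 0]

/-- code of a word of length six -/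
def cod (a b c d e f : ℕ) : ℕ :=
  (if Nat.beq a 3 then 1 else 0) + (if Nat.beq b 3 then 2 else 0) +
  (if Nat.beq c 3 then 4 else 0) + (if Nat.beq d 3 then 8 else 0) +
  (if Nat.beq e 3 then 16 else 0) + (if Nat.beq f 3 then 32 else 0)

/-- potential of a row with steps `s₀, …, s₆` -/
def phi (s0 s1 s2 s3 s4 s5 s6 : ℕ) : ℕ :=
  if Nat.beq s0 1 then phiTab.getD (cod s1 s2 s3 s4 s5 s6) 0
  else if Nat.beq s1 1 then phiTab.getD (cod s2 s3 s4 s5 s6 s0) 0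
  else if Nat.beq s2 1 then phiTab.getD (cod s3 s4 s5 s6 s0 s1) 0
  else if Nat.beq s3 1 then phiTab.getD (cod s4 s5 s6 s0 s1 s2) 0
  else if Nat.beq s4 1 then phiTab.getD (cod s5 s6 s0 s1 s2 s3) 0
  else if Nat.beq s5 1 then phiTab.getD (cod s6 s0 s1 s2 s3 s4) 0
  else phiTab.getD (cod s0 s1 s2 s3 s4 s5) 0

/-- number of entries equal to `k` -/
def cnt7 (k s0 s1 s2 s3 s4 s5 s6 : ℕ) : ℕ :=
  (if Nat.beq s0 k then 1 else 0) + (if Nat.beq s1 k then 1 else 0) +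
  (if Nat.beq s2 k then 1 else 0) + (if Nat.beq s3 k then 1 else 0) +
  (if Nat.beq s4 k then 1 else 0) + (if Nat.beq s5 k then 1 else 0) +
  (if Nat.beq s6 k then 1 else 0)

/-- the row has exactly one step `1` and three steps `2` (hence three steps `3`) -/
def goodRow (s0 s1 s2 s3 s4 s5 s6 : ℕ) : Bool :=
  Nat.beq (cnt7 1 s0 s1 s2 s3 s4 s5 s6) 1 && Nat.beq (cnt7 2 s0 s1 s2 s3 s4 s5 s6) 3 &&
    Nat.beq (cnt7 3 s0 s1 s2 s3 s4 s5 s6) 3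

/-- the two steps different from `s` -/
def alt (s : ℕ) (b : Bool) : ℕ :=
  match s, b with
  | 1, false => 2
  | 1, true => 3
  | 2, false => 1
  | 2, true => 3
  | _, false => 1
  | _, true => 2

/-- the inequality for the potential, for one transition -/
def testStep (s0 s1 s2 s3 s4 s5 s6 p0 p1 p2 p3 p4 p5 p6 : ℕ) : Bool :=
  let q0 := Nat.xor s0 p0
  let q1 := Nat.xor s1 p1
  let q2 := Nat.xor s2 p2
  let q3 := Nat.xor s3 p3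
  let q4 := Nat.xor s4 p4
  let q5 := Nat.xor s5 p5
  let q6 := Nat.xor s6 p6
  let t0 := Nat.xor q0 p1
  let t1 := Nat.xor q1 p2
  let t2 := Nat.xor q2 p3
  let t3 := Nat.xor q3 p4
  let t4 := Nat.xor q4 p5
  let t5 := Nat.xor q5 p6
  let t6 := Nat.xor q6 p0
  !(goodRow t0 t1 t2 t3 t4 t5 t6) ||
    Nat.ble (9 + phi s0 s1 s2 s3 s4 s5 s6)
      (4 * (cnt7 2 p0 p1 p2 p3 p4 p5 p6 + cnt7 3 q0 q1 q2 q3 q4 q5 q6) +
        phi t0 t1 t2 t3 t4 t5 t6)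

/-- all transitions out of a given row satisfy the inequality -/
def testAll (s0 s1 s2 s3 s4 s5 s6 : ℕ) : Bool :=
  [false, true].all fun b0 => [false, true].all fun b1 => [false, true].all fun b2 =>
  [false, true].all fun b3 => [false, true].all fun b4 => [false, true].all fun b5 =>
  [false, true].all fun b6 =>
    testStep s0 s1 s2 s3 s4 s5 s6 (alt s0 b0) (alt s1 b1) (alt s2 b2) (alt s3 b3) (alt s4 b4)
      (alt s5 b5) (alt s6 b6)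

/-- all good rows -/
def testRows : Bool :=
  [1, 2, 3].all fun s0 => [1, 2, 3].all fun s1 => [1, 2, 3].all fun s2 =>
  [1, 2, 3].all fun s3 => [1, 2, 3].all fun s4 => [1, 2, 3].all fun s5 =>
  [1, 2, 3].all fun s6 =>
    !(goodRow s0 s1 s2 s3 s4 s5 s6) || testAll s0 s1 s2 s3 s4 s5 s6

theorem testRows_true : testRows = true := by
  decide +kernel

theorem alt_surj : ∀ s p : ℕ, 1 ≤ s → s ≤ 3 → 1 ≤ p → p ≤ 3 → p ≠ s → ∃ b : Bool, alt s b = p := by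
  intro s p h1 h2 h3 h4 h5
  interval_cases s <;> interval_cases p <;> first | exact absurd rfl h5 | exact ⟨false, rfl⟩ | exact ⟨true, rfl⟩

theorem all_three {f : ℕ → Bool} (h : [1, 2, 3].all f = true) {s : ℕ} (h1 : 1 ≤ s) (h3 : s ≤ 3) :
    f s = true := by
  simp only [List.all_cons, List.all_nil, Bool.and_true, Bool.and_eq_true] at h
  interval_cases s
  · exact h.1
  · exact h.2.1
  · exact h.2.2

theorem all_bool {f : Bool → Bool} (h : [false, true].all f = true) (b : Bool) :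
    f b = true := by
  simp only [List.all_cons, List.all_nil, Bool.and_true, Bool.and_eq_true] at h
  cases b
  · exact h.1
  · exact h.2

theorem step_ineq {s0 s1 s2 s3 s4 s5 s6 p0 p1 p2 p3 p4 p5 p6 : ℕ}
    (hs0 : 1 ≤ s0 ∧ s0 ≤ 3) (hs1 : 1 ≤ s1 ∧ s1 ≤ 3) (hs2 : 1 ≤ s2 ∧ s2 ≤ 3)
    (hs3 : 1 ≤ s3 ∧ s3 ≤ 3) (hs4 : 1 ≤ s4 ∧ s4 ≤ 3) (hs5 : 1 ≤ s5 ∧ s5 ≤ 3)
    (hs6 : 1 ≤ s6 ∧ s6 ≤ 3)
    (hp0 : 1 ≤ p0 ∧ p0 ≤ 3 ∧ p0 ≠ s0) (hp1 : 1 ≤ p1 ∧ p1 ≤ 3 ∧ p1 ≠ s1)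
    (hp2 : 1 ≤ p2 ∧ p2 ≤ 3 ∧ p2 ≠ s2) (hp3 : 1 ≤ p3 ∧ p3 ≤ 3 ∧ p3 ≠ s3)
    (hp4 : 1 ≤ p4 ∧ p4 ≤ 3 ∧ p4 ≠ s4) (hp5 : 1 ≤ p5 ∧ p5 ≤ 3 ∧ p5 ≠ s5)
    (hp6 : 1 ≤ p6 ∧ p6 ≤ 3 ∧ p6 ≠ s6)
    (hg : goodRow s0 s1 s2 s3 s4 s5 s6 = true) :
    testStep s0 s1 s2 s3 s4 s5 s6 p0 p1 p2 p3 p4 p5 p6 = true := by
  have h := testRows_true
  unfold testRows at h
  have h := all_three h hs0.1 hs0.2
  have h := all_three h hs1.1 hs1.2
  have h := all_three h hs2.1 hs2.2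
  have h := all_three h hs3.1 hs3.2
  have h := all_three h hs4.1 hs4.2
  have h := all_three h hs5.1 hs5.2
  have h := all_three h hs6.1 hs6.2
  simp only [hg, Bool.not_true, Bool.false_or] at h
  unfold testAll at h
  obtain ⟨b0, e0⟩ := alt_surj s0 p0 hs0.1 hs0.2 hp0.1 hp0.2.1 hp0.2.2
  obtain ⟨b1, e1⟩ := alt_surj s1 p1 hs1.1 hs1.2 hp1.1 hp1.2.1 hp1.2.2
  obtain ⟨b2, e2⟩ := alt_surj s2 p2 hs2.1 hs2.2 hp2.1 hp2.2.1 hp2.2.2
  obtain ⟨b3, e3⟩ := alt_surj s3 p3 hs3.1 hs3.2 hp3.1 hp3.2.1 hp3.2.2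
  obtain ⟨b4, e4⟩ := alt_surj s4 p4 hs4.1 hs4.2 hp4.1 hp4.2.1 hp4.2.2
  obtain ⟨b5, e5⟩ := alt_surj s5 p5 hs5.1 hs5.2 hp5.1 hp5.2.1 hp5.2.2
  obtain ⟨b6, e6⟩ := alt_surj s6 p6 hs6.1 hs6.2 hp6.1 hp6.2.1 hp6.2.2
  have h := all_bool h b0
  have h := all_bool h b1
  have h := all_bool h b2
  have h := all_bool h b3
  have h := all_bool h b4
  have h := all_bool h b5
  have h := all_bool h b6
  rw [e0, e1, e2, e3, e4, e5, e6] at h
  exact h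

theorem st_bounds : ∀ a b : Fin 4, a ≠ b → 1 ≤ st a b ∧ st a b ≤ 3 := by decide

theorem st_xor : ∀ a b c : Fin 4, Nat.xor (st a b) (st a c) = st b c := by decide

theorem st_comm : ∀ a b : Fin 4, st a b = st b a := by decide

theorem st_ne : ∀ a b c : Fin 4, a ≠ b → a ≠ c → b ≠ c → st a c ≠ st a b := by decide

/-- number of `k`-steps along a cyclic sequence of pairs -/
def cnt (k : ℕ) (f : ZMod 7 → ℕ) : ℕ := ∑ x : ZMod 7, ind k (f x)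

theorem cnt_eq (k : ℕ) (f : ZMod 7 → ℕ) :
    cnt k f = cnt7 k (f 0) (f 1) (f 2) (f 3) (f 4) (f 5) (f 6) := by
  unfold cnt cnt7
  have : ∀ s : ℕ, ind k s = (if Nat.beq s k = true then 1 else 0) := by
    intro s
    unfold ind
    by_cases h : s = k
    · subst h; simp
    · have : Nat.beq s k = false := by
        rw [← Bool.not_eq_true]; intro h'; exact h (Nat.eq_of_beq_eq_true h')
      simp [h, this]
  simp only [this]
  exact Fin.sum_univ_seven (fun x : Fin 7 => if Nat.beq (f x) k = true then 1 else 0)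

/-- potential of a row -/
def phiRow (a : ZMod 7 → Fin 4) : ℕ :=
  phi (st (a 0) (a 1)) (st (a 1) (a 2)) (st (a 2) (a 3)) (st (a 3) (a 4)) (st (a 4) (a 5))
    (st (a 5) (a 6)) (st (a 6) (a 0))

theorem row_ineq (a b : ZMod 7 → Fin 4) (h1 : ∀ x, a x ≠ a (x + 1)) (h2 : ∀ x, a x ≠ b x)
    (h3 : ∀ x, a (x + 1) ≠ b x)
    (ha1 : cnt 1 (fun x => st (a x) (a (x + 1))) = 1)
    (ha2 : cnt 2 (fun x => st (a x) (a (x + 1))) = 3)
    (ha3 : cnt 3 (fun x => st (a x) (a (x + 1))) = 3)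
    (hb1 : cnt 1 (fun x => st (b x) (b (x + 1))) = 1)
    (hb2 : cnt 2 (fun x => st (b x) (b (x + 1))) = 3)
    (hb3 : cnt 3 (fun x => st (b x) (b (x + 1))) = 3) :
    9 + phiRow a ≤ 4 * (cnt 2 (fun x => st (a x) (b x)) +
      cnt 3 (fun x => st (a (x + 1)) (b x))) + phiRow b := by
  rw [cnt_eq] at ha1 ha2 ha3 hb1 hb2 hb3
  rw [cnt_eq, cnt_eq]
  have hg : goodRow (st (a 0) (a 1)) (st (a 1) (a 2)) (st (a 2) (a 3)) (st (a 3) (a 4))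
      (st (a 4) (a 5)) (st (a 5) (a 6)) (st (a 6) (a 0)) = true := by
    unfold goodRow
    have e1 : cnt7 1 (st (a 0) (a 1)) (st (a 1) (a 2)) (st (a 2) (a 3)) (st (a 3) (a 4))
      (st (a 4) (a 5)) (st (a 5) (a 6)) (st (a 6) (a 0)) = 1 := ha1
    have e2 : cnt7 2 (st (a 0) (a 1)) (st (a 1) (a 2)) (st (a 2) (a 3)) (st (a 3) (a 4))
      (st (a 4) (a 5)) (st (a 5) (a 6)) (st (a 6) (a 0)) = 3 := ha2
    have e3 : cnt7 3 (st (a 0) (a 1)) (st (a 1) (a 2)) (st (a 2) (a 3)) (st (a 3) (a 4))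
      (st (a 4) (a 5)) (st (a 5) (a 6)) (st (a 6) (a 0)) = 3 := ha3
    rw [e1, e2, e3]; rfl
  have hg' : goodRow (st (b 0) (b 1)) (st (b 1) (b 2)) (st (b 2) (b 3)) (st (b 3) (b 4))
      (st (b 4) (b 5)) (st (b 5) (b 6)) (st (b 6) (b 0)) = true := by
    unfold goodRow
    have e1 : cnt7 1 (st (b 0) (b 1)) (st (b 1) (b 2)) (st (b 2) (b 3)) (st (b 3) (b 4))
      (st (b 4) (b 5)) (st (b 5) (b 6)) (st (b 6) (b 0)) = 1 := hb1
    have e2 : cnt7 2 (st (b 0) (b 1)) (st (b 1) (b 2)) (st (b 2) (b 3)) (st (b 3) (b 4))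
      (st (b 4) (b 5)) (st (b 5) (b 6)) (st (b 6) (b 0)) = 3 := hb2
    have e3 : cnt7 3 (st (b 0) (b 1)) (st (b 1) (b 2)) (st (b 2) (b 3)) (st (b 3) (b 4))
      (st (b 4) (b 5)) (st (b 5) (b 6)) (st (b 6) (b 0)) = 3 := hb3
    rw [e1, e2, e3]; rfl
  have a01 : a 0 ≠ a 1 := h1 0
  have a12 : a 1 ≠ a 2 := h1 1
  have a23 : a 2 ≠ a 3 := h1 2
  have a34 : a 3 ≠ a 4 := h1 3
  have a45 : a 4 ≠ a 5 := h1 4
  have a56 : a 5 ≠ a 6 := h1 5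
  have a60 : a 6 ≠ a 0 := h1 6
  have c0 : a 1 ≠ b 0 := h3 0
  have c1 : a 2 ≠ b 1 := h3 1
  have c2 : a 3 ≠ b 2 := h3 2
  have c3 : a 4 ≠ b 3 := h3 3
  have c4 : a 5 ≠ b 4 := h3 4
  have c5 : a 6 ≠ b 5 := h3 5
  have c6 : a 0 ≠ b 6 := h3 6
  have key := step_ineq (st_bounds _ _ a01) (st_bounds _ _ a12) (st_bounds _ _ a23)
    (st_bounds _ _ a34) (st_bounds _ _ a45) (st_bounds _ _ a56) (st_bounds _ _ a60)
    (p0 := st (a 0) (b 0)) (p1 := st (a 1) (b 1)) (p2 := st (a 2) (b 2)) (p3 := st (a 3) (b 3))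
    (p4 := st (a 4) (b 4)) (p5 := st (a 5) (b 5)) (p6 := st (a 6) (b 6))
    ⟨(st_bounds _ _ (h2 0)).1, (st_bounds _ _ (h2 0)).2, st_ne _ _ _ a01 (h2 0) c0⟩
    ⟨(st_bounds _ _ (h2 1)).1, (st_bounds _ _ (h2 1)).2, st_ne _ _ _ a12 (h2 1) c1⟩
    ⟨(st_bounds _ _ (h2 2)).1, (st_bounds _ _ (h2 2)).2, st_ne _ _ _ a23 (h2 2) c2⟩
    ⟨(st_bounds _ _ (h2 3)).1, (st_bounds _ _ (h2 3)).2, st_ne _ _ _ a34 (h2 3) c3⟩
    ⟨(st_bounds _ _ (h2 4)).1, (st_bounds _ _ (h2 4)).2, st_ne _ _ _ a45 (h2 4) c4⟩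
    ⟨(st_bounds _ _ (h2 5)).1, (st_bounds _ _ (h2 5)).2, st_ne _ _ _ a56 (h2 5) c5⟩
    ⟨(st_bounds _ _ (h2 6)).1, (st_bounds _ _ (h2 6)).2, st_ne _ _ _ a60 (h2 6) c6⟩ hg
  unfold testStep at key
  simp only [st_xor] at key
  have x0 : ∀ u v w : Fin 4, Nat.xor (st u w) (st u v) = st w v := by
    intro u v w; rw [st_xor]
  have y0 : Nat.xor (st (a 1) (b 0)) (st (a 1) (b 1)) = st (b 0) (b 1) := st_xor _ _ _
  have y1 : Nat.xor (st (a 2) (b 1)) (st (a 2) (b 2)) = st (b 1) (b 2) := st_xor _ _ _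
  have y2 : Nat.xor (st (a 3) (b 2)) (st (a 3) (b 3)) = st (b 2) (b 3) := st_xor _ _ _
  have y3 : Nat.xor (st (a 4) (b 3)) (st (a 4) (b 4)) = st (b 3) (b 4) := st_xor _ _ _
  have y4 : Nat.xor (st (a 5) (b 4)) (st (a 5) (b 5)) = st (b 4) (b 5) := st_xor _ _ _
  have y5 : Nat.xor (st (a 6) (b 5)) (st (a 6) (b 6)) = st (b 5) (b 6) := st_xor _ _ _
  have y6 : Nat.xor (st (a 0) (b 6)) (st (a 0) (b 0)) = st (b 6) (b 0) := st_xor _ _ _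
  rw [hg'] at key
  simp only [Bool.not_true, Bool.false_or] at key
  exact Nat.le_of_ble_eq_true key

end Pool.Agent.Lib.WSK
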