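import Mathlib
import Pool.Agent.Lib.WSK.Seven1

set_option autoImplicit false

/-!
# Some line of a four-colouring of `T_7` has five steps of the same kind
-/

namespace Pool.Agent.Lib.WSK

/-- properness on `T_7` in coordinates -/
def PT (σ : ZMod 7 × ZMod 7 → Fin 4) : Prop :=
  (∀ x y, σ (x, y) ≠ σ (x + 1, y)) ∧ (∀ x y, σ (x, y) ≠ σ (x, y + 1)) ∧
    (∀ x y, σ (x + 1, y) ≠ σ (x, y + 1))

/-- rotation by sixty degrees -/
def r6 (p : ZMod 7 × ZMod 7) : ZMod 7 × ZMod 7 := (-p.2, p.1 + p.2)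

theorem PT.rot {σ : ZMod 7 × ZMod 7 → Fin 4} (h : PT σ) : PT (fun p => σ (r6 p)) := by
  obtain ⟨h1, h2, h3⟩ := h
  refine ⟨?_, ?_, ?_⟩
  · intro x y
    have := h2 (-y) (x + y)
    have e : x + 1 + y = x + y + 1 := by ring
    simpa only [r6, e] using this
  · intro x y
    have := h3 (-(y + 1)) (x + y)
    have e : -(y + 1) + 1 = -y := by ring
    have e2 : x + (y + 1) = x + y + 1 := by ring
    simp only [r6, e2]
    rw [e] at this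
    exact this
  · intro x y
    have := h1 (-(y + 1)) (x + y + 1)
    have e : -(y + 1) + 1 = -y := by ring
    have e2 : x + (y + 1) = x + y + 1 := by ring
    have e3 : x + 1 + y = x + y + 1 := by ring
    simp only [r6, e2, e3]
    rw [e] at this
    exact this.symm

/-- number of `k`-steps in row `y` -/
def Rc (σ : ZMod 7 × ZMod 7 → Fin 4) (k : ℕ) (y : ZMod 7) : ℕ :=
  cnt k (fun x => st (σ (x, y)) (σ (x + 1, y)))

/-- number of `k`-steps upwards from row `y` -/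
def Pc (σ : ZMod 7 × ZMod 7 → Fin 4) (k : ℕ) (y : ZMod 7) : ℕ :=
  cnt k (fun x => st (σ (x, y)) (σ (x, y + 1)))

/-- number of diagonal `k`-steps from row `y` -/
def Qc (σ : ZMod 7 × ZMod 7 → Fin 4) (k : ℕ) (y : ZMod 7) : ℕ :=
  cnt k (fun x => st (σ (x + 1, y)) (σ (x, y + 1)))

theorem up_sum {σ : ZMod 7 × ZMod 7 → Fin 4} (h : PT σ) {k : ℕ} (hk1 : 1 ≤ k) (hk3 : k ≤ 3)
    (y : ZMod 7) : Rc σ k y + Pc σ k y + Qc σ k y = 7 := by
  unfold Rc Pc Qc cnt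
  rw [← Finset.sum_add_distrib, ← Finset.sum_add_distrib]
  rw [Finset.sum_congr rfl (fun x _ => st_tri _ _ _ (h.1 x y) (h.2.1 x y) (h.2.2 x y) k hk1 hk3)]
  simp [ZMod.card]

theorem down_sum {σ : ZMod 7 × ZMod 7 → Fin 4} (h : PT σ) {k : ℕ} (hk1 : 1 ≤ k) (hk3 : k ≤ 3)
    (y : ZMod 7) : Rc σ k (y + 1) + Pc σ k y + Qc σ k y = 7 := by
  have hP : Pc σ k y = ∑ x : ZMod 7, ind k (st (σ (x + 1, y + 1)) (σ (x + 1, y))) := by
    unfold Pc cnt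
    rw [← Equiv.sum_comp (Equiv.addRight (1 : ZMod 7))
      (fun x => ind k (st (σ (x, y)) (σ (x, y + 1))))]
    refine Finset.sum_congr rfl fun x _ => ?_
    simp only [Equiv.coe_addRight]
    rw [st_comm]
  have hQ : Qc σ k y = ∑ x : ZMod 7, ind k (st (σ (x, y + 1)) (σ (x + 1, y))) := by
    unfold Qc cnt
    refine Finset.sum_congr rfl fun x _ => ?_
    rw [st_comm]
  rw [hP, hQ]
  unfold Rc cnt
  rw [add_assoc, add_comm (∑ x : ZMod 7, ind k (st (σ (x + 1, y + 1)) (σ (x + 1, y)))),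
    ← add_assoc, ← Finset.sum_add_distrib, ← Finset.sum_add_distrib]
  rw [Finset.sum_congr rfl (fun x _ => st_tri (σ (x, y + 1)) (σ (x + 1, y + 1)) (σ (x + 1, y))
    (h.1 x (y + 1)) (h.2.2 x y).symm (h.2.1 (x + 1) y).symm k hk1 hk3)]
  simp [ZMod.card]

theorem Rc_succ {σ : ZMod 7 × ZMod 7 → Fin 4} (h : PT σ) {k : ℕ} (hk1 : 1 ≤ k) (hk3 : k ≤ 3)
    (y : ZMod 7) : Rc σ k (y + 1) = Rc σ k y := by
  have h1 := up_sum h hk1 hk3 y
  have h2 := down_sum h hk1 hk3 y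
  omega

theorem Rc_const {σ : ZMod 7 × ZMod 7 → Fin 4} (h : PT σ) {k : ℕ} (hk1 : 1 ≤ k) (hk3 : k ≤ 3)
    (y : ZMod 7) : Rc σ k y = Rc σ k 0 := by
  have key : ∀ n : ℕ, Rc σ k (n : ZMod 7) = Rc σ k 0 := by
    intro n
    induction n with
    | zero => simp
    | succ n ih => rw [Nat.cast_succ, Rc_succ h hk1 hk3, ih]
  have := key y.val
  rwa [ZMod.natCast_zmod_val] at this

/-- counts in columns -/
def Cc (σ : ZMod 7 × ZMod 7 → Fin 4) (k : ℕ) : ℕ := Rc (fun p => σ (r6 p)) k 0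

/-- counts in diagonals -/
def Dc (σ : ZMod 7 × ZMod 7 → Fin 4) (k : ℕ) : ℕ := Rc (fun p => σ (r6 (r6 p))) k 0

theorem sum_Pc {σ : ZMod 7 × ZMod 7 → Fin 4} (h : PT σ) {k : ℕ} (hk1 : 1 ≤ k) (hk3 : k ≤ 3) :
    ∑ y, Pc σ k y = 7 * Cc σ k := by
  unfold Pc cnt
  rw [Finset.sum_comm]
  have : ∀ x : ZMod 7, ∑ y : ZMod 7, ind k (st (σ (x, y)) (σ (x, y + 1))) =
      Cc σ k := by
    intro x
    have h1 := Rc_const h.rot hk1 hk3 (-x)
    rw [Cc, ← h1]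
    unfold Rc cnt
    rw [← Equiv.sum_comp (Equiv.addRight (-x : ZMod 7))
      (fun y => ind k (st (σ (x, y)) (σ (x, y + 1))))]
    refine Finset.sum_congr rfl fun y _ => ?_
    simp only [Equiv.coe_addRight, r6, neg_neg]
    have e : y + 1 + -x = y + -x + 1 := by ring
    rw [e]
  rw [Finset.sum_congr rfl (fun x _ => this x)]
  simp [ZMod.card]

theorem sum_Qc {σ : ZMod 7 × ZMod 7 → Fin 4} (h : PT σ) {k : ℕ} (hk1 : 1 ≤ k) (hk3 : k ≤ 3) :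
    ∑ y, Qc σ k y = 7 * Dc σ k := by
  unfold Qc cnt
  have h2 : ∀ y : ZMod 7, ∑ x : ZMod 7, ind k (st (σ (x + 1, y)) (σ (x, y + 1))) =
      ∑ s : ZMod 7, ind k (st (σ (s - y, y)) (σ (s - y - 1, y + 1))) := by
    intro y
    rw [← Equiv.sum_comp (Equiv.addRight (1 + y : ZMod 7))
      (fun s => ind k (st (σ (s - y, y)) (σ (s - y - 1, y + 1))))]
    refine Finset.sum_congr rfl fun x _ => ?_
    simp only [Equiv.coe_addRight]
    have e1 : x + (1 + y) - y = x + 1 := by ring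
    rw [e1, add_sub_cancel_right]
  rw [Finset.sum_congr rfl (fun y _ => h2 y), Finset.sum_comm]
  have : ∀ s : ZMod 7, ∑ y : ZMod 7, ind k (st (σ (s - y, y)) (σ (s - y - 1, y + 1))) =
      Dc σ k := by
    intro s
    have h1 := Rc_const h.rot.rot hk1 hk3 (-s)
    rw [Dc, ← h1]
    unfold Rc cnt
    refine Finset.sum_congr rfl fun y _ => ?_
    simp only [r6]
    have e1 : -(y + -s) = s - y := by ring
    have e2 : -(-s) + (y + -s) = y := by ring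
    have e3 : -(y + 1 + -s) = s - y - 1 := by ring
    have e4 : -(-s) + (y + 1 + -s) = y + 1 := by ring
    rw [e1, e2, e3, e4]
  rw [Finset.sum_congr rfl (fun x _ => this x)]
  simp [ZMod.card]

theorem sum_all {σ : ZMod 7 × ZMod 7 → Fin 4} (h : PT σ) {k : ℕ} (hk1 : 1 ≤ k) (hk3 : k ≤ 3) :
    Rc σ k 0 + Cc σ k + Dc σ k = 7 := by
  have h1 : ∑ y : ZMod 7, (Rc σ k y + Pc σ k y + Qc σ k y) = 49 := by
    rw [Finset.sum_congr rfl (fun y _ => up_sum h hk1 hk3 y)]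
    simp [ZMod.card]
  rw [Finset.sum_add_distrib, Finset.sum_add_distrib, sum_Pc h hk1 hk3, sum_Qc h hk1 hk3,
    Finset.sum_congr rfl (fun y _ => Rc_const h hk1 hk3 y)] at h1
  simp [ZMod.card] at h1
  omega

theorem row_total {σ : ZMod 7 × ZMod 7 → Fin 4} (h : PT σ) :
    Rc σ 1 0 + Rc σ 2 0 + Rc σ 3 0 = 7 := by
  unfold Rc cnt
  rw [← Finset.sum_add_distrib, ← Finset.sum_add_distrib]
  have : ∀ x : ZMod 7, ind 1 (st (σ (x, 0)) (σ (x + 1, 0))) +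
      ind 2 (st (σ (x, 0)) (σ (x + 1, 0))) + ind 3 (st (σ (x, 0)) (σ (x + 1, 0))) = 1 := by
    intro x
    have hb := st_bounds _ _ (h.1 x 0)
    obtain ⟨h1, h3⟩ := hb
    generalize st (σ (x, 0)) (σ (x + 1, 0)) = s at *
    interval_cases s <;> simp [ind]
  rw [Finset.sum_congr rfl (fun x _ => this x)]
  simp [ZMod.card]

theorem even_of_bit (f : Fin 4 → ZMod 2) (i j : ℕ) (hij : i ≠ j)
    (hf : ∀ a b : Fin 4, a ≠ b → (f a + f b = if st a b = i ∨ st a b = j then 1 else 0))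
    {σ : ZMod 7 × ZMod 7 → Fin 4} (h : PT σ) : Even (Rc σ i 0 + Rc σ j 0) := by
  have h1 : ((Rc σ i 0 + Rc σ j 0 : ℕ) : ZMod 2) =
      ∑ x : ZMod 7, (f (σ (x, 0)) + f (σ (x + 1, 0))) := by
    unfold Rc cnt ind
    push_cast
    rw [← Finset.sum_add_distrib]
    refine Finset.sum_congr rfl fun x _ => ?_
    rw [hf _ _ (h.1 x 0)]
    by_cases hi : st (σ (x, 0)) (σ (x + 1, 0)) = i
    · have hj : st (σ (x, 0)) (σ (x + 1, 0)) ≠ j := fun h => hij (hi.symm.trans h)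
      simp [hi, hij]
    · simp [hi]
  have h2 : ∑ x : ZMod 7, f (σ (x + 1, 0)) = ∑ x : ZMod 7, f (σ (x, 0)) :=
    Equiv.sum_comp (Equiv.addRight (1 : ZMod 7)) (fun x => f (σ (x, 0)))
  rw [Finset.sum_add_distrib, h2, CharTwo.add_self_eq_zero] at h1
  exact (ZMod.natCast_eq_zero_iff_even).mp h1

theorem parity {σ : ZMod 7 × ZMod 7 → Fin 4} (h : PT σ) :
    Even (Rc σ 1 0 + Rc σ 3 0) ∧ Even (Rc σ 2 0 + Rc σ 3 0) := by
  constructor
  · exact even_of_bit (fun c => ((c.val % 2 : ℕ) : ZMod 2)) 1 3 (by norm_num) (by decide) h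
  · exact even_of_bit (fun c => ((c.val / 2 : ℕ) : ZMod 2)) 2 3 (by norm_num) (by decide) h

/-- the main contradiction -/
theorem no_flat {σ : ZMod 7 × ZMod 7 → Fin 4} (h : PT σ) (h1 : Rc σ 1 0 = 1)
    (h2 : Rc σ 2 0 = 3) (h3 : Rc σ 3 0 = 3) (hC : Cc σ 2 = 1) (hD : Dc σ 3 = 1) : False := by
  have key : ∀ y : ZMod 7, 9 + phiRow (fun x => σ (x, y)) ≤
      4 * (Pc σ 2 y + Qc σ 3 y) + phiRow (fun x => σ (x, y + 1)) := by
    intro y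
    exact row_ineq (fun x => σ (x, y)) (fun x => σ (x, y + 1)) (fun x => h.1 x y)
      (fun x => h.2.1 x y) (fun x => h.2.2 x y)
      ((Rc_const h (by norm_num) (by norm_num) y).trans h1)
      ((Rc_const h (by norm_num) (by norm_num) y).trans h2)
      ((Rc_const h (by norm_num) (by norm_num) y).trans h3)
      ((Rc_const h (by norm_num) (by norm_num) (y + 1)).trans h1)
      ((Rc_const h (by norm_num) (by norm_num) (y + 1)).trans h2)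
      ((Rc_const h (by norm_num) (by norm_num) (y + 1)).trans h3)
  have hsum : ∑ y : ZMod 7, (9 + phiRow (fun x => σ (x, y))) ≤
      ∑ y : ZMod 7, (4 * (Pc σ 2 y + Qc σ 3 y) + phiRow (fun x => σ (x, y + 1))) :=
    Finset.sum_le_sum fun y _ => key y
  have hshift : ∑ y : ZMod 7, phiRow (fun x => σ (x, y + 1)) =
      ∑ y : ZMod 7, phiRow (fun x => σ (x, y)) :=
    Equiv.sum_comp (Equiv.addRight (1 : ZMod 7)) (fun y => phiRow (fun x => σ (x, y)))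
  rw [Finset.sum_add_distrib, Finset.sum_add_distrib, ← Finset.mul_sum, Finset.sum_add_distrib,
    sum_Pc h (by norm_num) (by norm_num), sum_Qc h (by norm_num) (by norm_num), hshift,
    hC, hD] at hsum
  simp [ZMod.card] at hsum

theorem no_flat' {σ : ZMod 7 × ZMod 7 → Fin 4} (h : PT σ) (f : Fin 4 → Fin 4)
    (hf : ∀ a b, a ≠ b → f a ≠ f b) (i j k : ℕ)
    (hst : ∀ a b, a ≠ b → ((st (f a) (f b) = 1 ↔ st a b = i) ∧ (st (f a) (f b) = 2 ↔ st a b = j) ∧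
      (st (f a) (f b) = 3 ↔ st a b = k)))
    (h1 : Rc σ i 0 = 1) (h2 : Rc σ j 0 = 3) (h3 : Rc σ k 0 = 3) (hC : Cc σ j = 1)
    (hD : Dc σ k = 1) : False := by
  have hPT : ∀ {ρ : ZMod 7 × ZMod 7 → Fin 4}, PT ρ → PT (fun p => f (ρ p)) := by
    intro ρ hρ
    exact ⟨fun x y => hf _ _ (hρ.1 x y), fun x y => hf _ _ (hρ.2.1 x y),
      fun x y => hf _ _ (hρ.2.2 x y)⟩
  have e1 : ∀ {ρ : ZMod 7 × ZMod 7 → Fin 4}, PT ρ → Rc (fun p => f (ρ p)) 1 0 = Rc ρ i 0 := by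
    intro ρ hρ
    unfold Rc cnt
    refine Finset.sum_congr rfl fun x _ => ?_
    simp only [ind, (hst _ _ (hρ.1 x 0)).1]
  have e2 : ∀ {ρ : ZMod 7 × ZMod 7 → Fin 4}, PT ρ → Rc (fun p => f (ρ p)) 2 0 = Rc ρ j 0 := by
    intro ρ hρ
    unfold Rc cnt
    refine Finset.sum_congr rfl fun x _ => ?_
    simp only [ind, (hst _ _ (hρ.1 x 0)).2.1]
  have e3 : ∀ {ρ : ZMod 7 × ZMod 7 → Fin 4}, PT ρ → Rc (fun p => f (ρ p)) 3 0 = Rc ρ k 0 := by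
    intro ρ hρ
    unfold Rc cnt
    refine Finset.sum_congr rfl fun x _ => ?_
    simp only [ind, (hst _ _ (hρ.1 x 0)).2.2]
  refine no_flat (hPT h) ((e1 h).trans h1) ((e2 h).trans h2) ((e3 h).trans h3) ?_ ?_
  · exact (e2 h.rot).trans hC
  · exact (e3 h.rot.rot).trans hD

theorem arith3 (a b c : ℕ) (h : a + b + c = 7) (p : (a + c) % 2 = 0) (p' : (b + c) % 2 = 0)
    (n1 : a ≠ 5) (n2 : b ≠ 5) (n3 : c ≠ 5) :
    (a = 1 ∧ b = 3 ∧ c = 3) ∨ (a = 3 ∧ b = 1 ∧ c = 3) ∨ (a = 3 ∧ b = 3 ∧ c = 1) := by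
  omega

/-- Some line through the origin has five steps of the same kind. -/
theorem exists_five {σ : ZMod 7 × ZMod 7 → Fin 4} (h : PT σ) :
    ∃ k, 1 ≤ k ∧ k ≤ 3 ∧ (Rc σ k 0 = 5 ∨ Cc σ k = 5 ∨ Dc σ k = 5) := by
  by_contra hcon
  push Not at hcon
  have n1 := hcon 1 (by norm_num) (by norm_num)
  have n2 := hcon 2 (by norm_num) (by norm_num)
  have n3 := hcon 3 (by norm_num) (by norm_num)
  have s1 := sum_all h (k := 1) (by norm_num) (by norm_num)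
  have s2 := sum_all h (k := 2) (by norm_num) (by norm_num)
  have s3 := sum_all h (k := 3) (by norm_num) (by norm_num)
  have t1 := row_total h
  have t2 : Cc σ 1 + Cc σ 2 + Cc σ 3 = 7 := row_total h.rot
  have t3 : Dc σ 1 + Dc σ 2 + Dc σ 3 = 7 := row_total h.rot.rot
  obtain ⟨p1, p2⟩ := parity h
  obtain ⟨p3, p4⟩ : Even (Cc σ 1 + Cc σ 3) ∧ Even (Cc σ 2 + Cc σ 3) := parity h.rot
  obtain ⟨p5, p6⟩ : Even (Dc σ 1 + Dc σ 3) ∧ Even (Dc σ 2 + Dc σ 3) := parity h.rot.rot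
  obtain ⟨n11, n12, n13⟩ := n1
  obtain ⟨n21, n22, n23⟩ := n2
  obtain ⟨n31, n32, n33⟩ := n3
  rw [Nat.even_iff] at p1 p2 p3 p4 p5 p6
  have hR : (Rc σ 1 0 = 1 ∧ Rc σ 2 0 = 3 ∧ Rc σ 3 0 = 3) ∨
    (Rc σ 1 0 = 3 ∧ Rc σ 2 0 = 1 ∧ Rc σ 3 0 = 3) ∨ (Rc σ 1 0 = 3 ∧ Rc σ 2 0 = 3 ∧ Rc σ 3 0 = 1) :=
    arith3 _ _ _ t1 p1 p2 n11 n21 n31
  have hC : (Cc σ 1 = 1 ∧ Cc σ 2 = 3 ∧ Cc σ 3 = 3) ∨
    (Cc σ 1 = 3 ∧ Cc σ 2 = 1 ∧ Cc σ 3 = 3) ∨ (Cc σ 1 = 3 ∧ Cc σ 2 = 3 ∧ Cc σ 3 = 1) :=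
    arith3 _ _ _ t2 p3 p4 n12 n22 n32
  have hD : (Dc σ 1 = 1 ∧ Dc σ 2 = 3 ∧ Dc σ 3 = 3) ∨
    (Dc σ 1 = 3 ∧ Dc σ 2 = 1 ∧ Dc σ 3 = 3) ∨ (Dc σ 1 = 3 ∧ Dc σ 2 = 3 ∧ Dc σ 3 = 1) :=
    arith3 _ _ _ t3 p5 p6 n13 n23 n33
  rcases hR with ⟨r1, r2, r3⟩ | ⟨r1, r2, r3⟩ | ⟨r1, r2, r3⟩ <;>
    rcases hC with ⟨c1, c2, c3⟩ | ⟨c1, c2, c3⟩ | ⟨c1, c2, c3⟩ <;>
    rcases hD with ⟨d1, d2, d3⟩ | ⟨d1, d2, d3⟩ | ⟨d1, d2, d3⟩ <;>
    first
    | (rw [r1, c1, d1] at s1; exact absurd s1 (of_decide_eq_false rfl))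
    | (rw [r2, c2, d2] at s2; exact absurd s2 (of_decide_eq_false rfl))
    | (rw [r3, c3, d3] at s3; exact absurd s3 (of_decide_eq_false rfl))
    | exact no_flat' h ![0, 1, 2, 3] (by decide) 1 2 3 (by decide) r1 r2 r3 c2 d3
    | exact no_flat' h ![0, 1, 3, 2] (by decide) 1 3 2 (by decide) r1 r3 r2 c3 d2
    | exact no_flat' h ![0, 2, 1, 3] (by decide) 2 1 3 (by decide) r2 r1 r3 c1 d3
    | exact no_flat' h ![0, 3, 1, 2] (by decide) 2 3 1 (by decide) r2 r3 r1 c3 d1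
    | exact no_flat' h ![0, 2, 3, 1] (by decide) 3 1 2 (by decide) r3 r1 r2 c1 d2
    | exact no_flat' h ![0, 3, 2, 1] (by decide) 3 2 1 (by decide) r3 r2 r1 c2 d1

end Pool.Agent.Lib.WSK
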