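import Mathlib
import Pool.Agent.Lib.WSK.Search
import Pool.Agent.Lib.WSK.Graphs

set_option autoImplicit false
set_option maxRecDepth 100000

namespace Pool.Agent.Lib.WSK

/-- neighbourhood masks of `T_7` -/
def nbs7 : List ℕ := [13194139541698, 26388279067013, 52776558134026, 105553116268052, 211106232536104, 422212465072208, 285873023234081, 1073411, 49798, 99596, 199192, 398384, 796768, 1577153, 137396608, 6374144, 12748288, 25496576, 50993152, 101986304, 201875584, 17586765824, 815890432, 1631780864, 3263561728, 6527123456, 13054246912, 25840074752, 2251106025472, 104433975296, 208867950592, 417735901184, 835471802368, 1670943604736, 3307529568256, 288141571260416, 13367548837888, 26735097675776, 53470195351552, 106940390703104, 213880781406208, 423363784736768, 290374148948033, 22196390985731, 44392781971462, 88785563942924, 177571127885848, 355142255771696, 147368917860448]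

theorem enum7 : Enum (triangularTorus 7) 49 nbs7 (tvtx 7) :=
  Enum.mk' (by decide +kernel) (by decide +kernel) (by decide +kernel) (by decide +kernel)
    (by decide +kernel)

end Pool.Agent.Lib.WSK
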