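import Mathlib
import Pool.Agent.Lib.WSK.Search
import Pool.Agent.Lib.WSK.Graphs
import Pool.Agent.Lib.WSK.SevenBase
set_option autoImplicit false
set_option maxRecDepth 100000

namespace Pool.Agent.Lib.WSK

def t7A_0 : Tree :=
  (.br 19 .dead .dead (.br 20 (.br 21 (.br 22 .dead .dead .dead (.br 23 (.br 24 .dead .dead .dead (.br 25 (.br 26 .dead (.br 27 .dead .dead (.br 28 .dead (.br 29 .dead .dead (.br 30 .dead (.br 31 .dead .dead (.br 32 .dead .dead .dead (.br 33 (.br 34 .dead .dead .dead (.br 35 (.br 36 .dead .dead .dead (.br 37 (.br 38 .dead (.br 39 .dead .dead (.br 40 .dead (.br 41 .dead .dead (.br 42 .dead (.br 43 .dead .dead (.br 44 .dead .dead .dead (.br 45 (.br 46 .dead .dead .dead (.br 47 (.br 48 .dead .dead .dead (.fin [(0,3,1048576),(0,3,7936),(0,2,8935713538241),(1,2,4398046519359),(1,3,281474976710656),(1,3,69810262016),(0,1,562949953421311),(1,2,562949953421311)])) .dead .dead .dead)) .dead .dead .dead)) .dead) .dead .dead) .dead) .dead .dead) .dead) .dead .dead) .dead .dead .dead))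 .dead .dead (.br 36 (.br 37 .dead .dead .dead (.br 42 .dead (.br 43 .dead .dead (.br 44 (.br 38 .dead (.br 39 .dead .dead (.br 40 .dead (.br 45 .dead .dead .dead (.br 46 (.br 47 .dead .dead .dead (.br 48 (.br 41 .dead .dead (.kem 0 3 35 545598285545472) .dead) .dead .dead .dead)) .dead .dead .dead)) .dead .dead) .dead) .dead .dead) .dead .dead .dead) .dead) .dead .dead)) .dead .dead .dead))) .dead .dead .dead)) .dead) .dead .dead) .dead) (.br 29 .dead (.br 30 .dead .dead (.br 31 .dead (.br 32 .dead .dead (.br 33 (.br 34 .dead (.br 35 (.br 36 .dead .dead .dead (.br 37 (.br 38 .dead .dead .dead (.br 44 .dead .dead .dead .dead)) .dead .dead .dead)) .dead .dead (.br 36 (.br 37 .dead .dead .dead (.br 38 (.br 44 .dead .dead .dead .dead) .dead .dead .dead)) .dead .dead .dead)) .dead (.br 35 (.br 36 .dead .dead .dead (.br 37 (.br 38 .dead .dead .dead (.br 44 .dead .dead .dead .dead)) .dead .dead .dead)) .dead .dead (.br 36 (.br 37 .dead .dead .dead (.br 38 (.br 44 .dead .dead .dead .dead) .dead .dead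 .dead)) .dead .dead .dead))) .dead .dead (.br 34 .dead (.br 35 (.br 36 .dead .dead .dead (.br 37 (.br 38 .dead .dead .dead (.br 44 .dead .dead .dead .dead)) .dead .dead .dead)) .dead .dead (.br 36 (.br 37 .dead .dead .dead (.br 38 (.br 44 .dead .dead .dead .dead) .dead .dead .dead)) .dead .dead .dead)) .dead .dead)) (.br 33 (.br 34 .dead (.br 35 (.br 36 .dead .dead .dead (.br 37 (.br 38 .dead .dead (.br 39 .dead (.br 41 .dead .dead .dead (.br 48 .dead .dead .dead .dead)) .dead .dead) .dead) .dead .dead .dead)) .dead .dead (.br 36 (.br 37 .dead .dead .dead (.br 41 (.br 48 .dead .dead .dead .dead) .dead .dead .dead)) .dead .dead .dead)) .dead (.br 35 (.br 36 .dead .dead .dead (.br 37 (.br 38 .dead .dead (.br 39 .dead (.br 40 .dead .dead (.br 41 .dead (.br 42 .dead (.br 43 .dead .dead (.br 44 .dead .dead .dead (.br 45 (.br 46 .dead .dead .dead (.br 47 (.br 48 .dead .dead .dead (.kem 1 2 28 4127195136000)) .dead .dead .dead)) .dead .dead .dead)) .dead) .dead .dead) .dead .dead) .dead) .dead .dead)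 .dead) .dead .dead .dead)) .dead .dead (.br 36 (.br 37 .dead .dead .dead (.br 42 .dead (.br 43 .dead .dead (.br 44 (.br 38 .dead .dead (.br 39 .dead (.br 40 .dead .dead (.br 45 .dead .dead .dead (.br 46 (.br 47 .dead .dead .dead (.br 48 (.kem 1 2 28 4127195136000) .dead .dead .dead)) .dead .dead .dead)) .dead) .dead .dead) .dead) .dead .dead .dead) .dead) .dead .dead)) .dead .dead .dead))) .dead .dead .dead)) .dead .dead) .dead) .dead .dead) .dead) (.br 28 .dead (.br 29 .dead .dead (.br 30 .dead (.br 31 .dead .dead (.br 32 .dead .dead .dead (.br 34 .dead .dead (.br 33 (.br 35 (.br 36 .dead .dead .dead (.br 37 (.br 38 .dead (.br 39 .dead .dead (.br 41 .dead .dead .dead (.br 48 .dead .dead .dead .dead)) .dead) .dead .dead) .dead .dead .dead)) .dead .dead (.br 36 (.br 37 .dead .dead .dead (.br 41 (.br 48 .dead .dead .dead .dead) .dead .dead .dead)) .dead .dead .dead)) .dead .dead .dead) .dead)) .dead) .dead .dead) .dead) (.br 29 .dead (.br 30 .dead .dead (.br 31 .dead (.br 34 .dead (.br 32 .dead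 .dead (.br 33 (.kem 2 3 27 134217728) .dead .dead .dead) (.br 33 (.kem 2 3 27 134217728) .dead (.br 35 (.br 36 .dead .dead .dead (.br 37 (.br 38 .dead .dead (.br 41 .dead .dead .dead (.br 48 .dead .dead .dead .dead)) .dead) .dead .dead .dead)) .dead .dead (.br 36 (.br 37 .dead .dead .dead (.br 41 (.br 48 .dead .dead .dead .dead) .dead .dead .dead)) .dead .dead .dead)) .dead)) .dead .dead) .dead .dead) .dead) .dead .dead) .dead)) .dead (.br 27 .dead .dead (.br 28 .dead (.br 29 .dead .dead (.br 30 .dead (.br 31 .dead .dead (.br 32 .dead (.br 33 (.br 34 .dead .dead .dead (.br 35 (.br 36 .dead .dead .dead (.br 37 (.br 38 .dead .dead .dead (.br 44 .dead .dead .dead .dead)) .dead .dead .dead)) .dead .dead (.br 36 (.br 37 .dead .dead .dead (.br 38 (.br 44 .dead .dead .dead .dead) .dead .dead .dead)) .dead .dead .dead))) .dead .dead .dead) .dead .dead) .dead) .dead .dead) .dead) (.br 29 .dead (.br 30 .dead .dead (.br 31 .dead (.br 32 .dead .dead (.br 33 (.kem 1 3 26 67108864) (.br 34 .dead .dead .dead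 (.br 35 (.br 36 .dead .dead .dead (.br 37 (.br 38 .dead .dead .dead (.br 44 .dead .dead .dead .dead)) .dead .dead .dead)) .dead .dead (.br 36 (.br 37 .dead .dead .dead (.br 38 (.br 44 .dead .dead .dead .dead) .dead .dead .dead)) .dead .dead .dead))) .dead .dead) .dead) .dead .dead) .dead) .dead .dead) .dead) .dead)) .dead .dead .dead)) .dead .dead .dead)) .dead .dead (.br 22 (.br 23 .dead .dead .dead (.br 24 (.br 25 .dead .dead .dead (.br 26 .dead (.br 27 .dead .dead (.br 28 .dead (.br 29 .dead .dead (.br 30 .dead (.br 31 .dead .dead (.br 32 (.br 33 .dead .dead .dead (.br 34 (.br 35 (.br 36 .dead .dead .dead (.br 37 (.br 42 .dead (.br 43 .dead .dead (.kem 0 3 21 549751583932416) .dead) .dead .dead) .dead .dead .dead)) .dead .dead (.br 36 (.br 37 .dead .dead .dead (.br 38 .dead (.br 39 .dead .dead (.br 40 .dead (.br 41 .dead .dead (.kem 0 3 21 30129782784) .dead) .dead .dead) .dead) .dead .dead)) .dead .dead .dead)) .dead .dead .dead)) .dead .dead .dead) .dead) .dead .dead) .dead) (.br 29 .dead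 (.br 30 .dead .dead (.br 31 .dead (.br 32 (.br 33 .dead .dead .dead (.br 34 (.br 35 (.br 36 .dead .dead .dead (.br 37 (.br 42 .dead (.br 43 .dead .dead (.kem 0 3 21 549751583932416) .dead) .dead .dead) .dead .dead .dead)) .dead .dead (.br 36 (.br 37 .dead .dead .dead (.br 38 .dead .dead (.br 39 .dead (.br 40 .dead .dead (.br 41 .dead (.kem 0 3 21 30129782784) .dead .dead) .dead) .dead .dead) .dead)) .dead .dead .dead)) (.br 35 (.br 36 .dead .dead .dead (.br 37 (.br 41 .dead .dead .dead (.br 48 .dead .dead .dead .dead)) .dead .dead .dead)) .dead .dead (.br 36 (.br 37 .dead .dead .dead (.br 38 .dead .dead (.br 39 .dead (.br 41 (.br 48 .dead .dead .dead .dead) .dead .dead .dead) .dead .dead) .dead)) .dead .dead .dead)) .dead .dead)) .dead (.br 33 (.br 34 .dead (.kem 0 3 21 65011712) .dead .dead) .dead .dead (.br 34 (.br 35 (.br 36 .dead .dead .dead (.br 37 (.br 38 .dead .dead .dead (.br 44 .dead .dead .dead .dead)) .dead .dead .dead)) .dead .dead (.br 36 (.br 37 .dead .dead .dead (.br 38 (.br 44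 .dead .dead .dead .dead) .dead .dead .dead)) .dead .dead .dead)) (.kem 0 3 21 65011712) .dead .dead)) .dead) .dead .dead) .dead) .dead .dead) .dead) .dead) .dead .dead)) .dead .dead .dead)) .dead .dead .dead)) .dead .dead (.br 21 (.br 22 .dead .dead .dead (.br 23 (.br 24 .dead .dead .dead (.br 25 (.br 26 .dead (.br 27 .dead .dead (.kem 0 3 20 1048576) .dead) .dead .dead) .dead .dead .dead)) .dead .dead .dead)) .dead .dead (.br 22 (.br 23 .dead .dead .dead (.br 24 (.br 25 .dead .dead .dead (.br 26 (.br 27 .dead .dead (.br 28 .dead (.br 29 .dead .dead (.br 30 .dead (.br 31 .dead .dead (.br 32 .dead (.br 33 .dead .dead .dead (.br 34 (.br 35 (.br 36 .dead .dead .dead (.br 37 (.br 38 .dead .dead .dead (.br 44 .dead .dead .dead .dead)) .dead .dead .dead)) .dead .dead (.br 36 (.br 37 .dead .dead .dead (.br 38 (.br 44 .dead .dead .dead .dead) .dead .dead .dead)) .dead .dead .dead)) .dead .dead .dead)) .dead .dead) .dead) .dead .dead) .dead) (.br 29 .dead (.br 30 .dead .dead (.br 31 .dead (.br 32 .dead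 .dead (.br 33 .dead (.br 34 (.br 35 (.br 36 .dead .dead .dead (.br 37 (.br 38 .dead .dead .dead (.br 44 .dead .dead .dead .dead)) .dead .dead .dead)) .dead .dead (.br 36 (.br 37 .dead .dead .dead (.br 38 (.br 44 .dead .dead .dead .dead) .dead .dead .dead)) .dead .dead .dead)) .dead .dead .dead) .dead (.br 34 (.br 35 (.br 36 .dead .dead .dead (.br 37 (.br 38 .dead .dead .dead (.br 44 .dead .dead .dead .dead)) .dead .dead .dead)) .dead .dead (.br 36 (.br 37 .dead .dead .dead (.br 38 (.br 44 .dead .dead .dead .dead) .dead .dead .dead)) .dead .dead .dead)) (.br 35 (.br 36 .dead .dead .dead (.br 37 (.br 38 .dead .dead .dead (.br 44 .dead .dead .dead .dead)) .dead .dead .dead)) .dead .dead (.br 36 (.br 37 .dead .dead .dead (.br 38 (.br 44 .dead .dead .dead .dead) .dead .dead .dead)) .dead .dead .dead)) .dead .dead)) .dead) .dead .dead) .dead) .dead .dead) .dead) .dead) (.br 27 (.br 28 .dead (.br 29 .dead .dead (.br 30 .dead (.br 31 .dead .dead (.br 32 (.br 34 .dead .dead (.br 33 .dead .dead .dead (.br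 35 (.br 36 .dead .dead .dead (.br 37 (.br 41 .dead .dead .dead (.br 48 .dead .dead .dead .dead)) .dead .dead .dead)) .dead .dead (.br 36 (.br 37 .dead .dead .dead (.br 38 .dead (.br 39 .dead .dead (.br 41 (.br 48 .dead .dead .dead .dead) .dead .dead .dead) .dead) .dead .dead)) .dead .dead .dead))) .dead) .dead .dead .dead) .dead) .dead .dead) .dead) (.br 29 .dead (.br 30 .dead .dead (.br 31 .dead (.br 34 .dead (.br 32 (.br 33 .dead .dead (.br 35 (.br 36 .dead .dead .dead (.br 37 (.br 41 .dead .dead .dead (.br 48 .dead .dead .dead .dead)) .dead .dead .dead)) .dead .dead (.br 36 (.br 37 .dead .dead .dead (.br 38 .dead .dead (.br 41 (.br 48 .dead .dead .dead .dead) .dead .dead .dead) .dead)) .dead .dead .dead)) (.br 35 (.br 36 .dead .dead .dead (.br 37 (.br 41 .dead .dead .dead (.br 48 .dead .dead .dead .dead)) .dead .dead .dead)) .dead .dead (.br 36 (.br 37 .dead .dead .dead (.br 38 .dead .dead (.br 39 .dead (.br 41 (.br 48 .dead .dead .dead .dead) .dead .dead .dead) .dead .dead) .dead)) .dead .dead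 .dead))) .dead (.br 33 .dead .dead .dead (.br 35 (.br 36 .dead .dead .dead (.br 37 (.br 38 .dead .dead .dead (.br 44 .dead .dead .dead .dead)) .dead .dead .dead)) .dead .dead (.br 36 (.br 37 .dead .dead .dead (.br 38 (.br 44 .dead .dead .dead .dead) .dead .dead .dead)) .dead .dead .dead))) .dead) .dead .dead) .dead .dead) .dead) .dead .dead) .dead) .dead (.kem 0 3 20 1048576) .dead) .dead .dead)) .dead .dead .dead)) .dead .dead .dead))) (.br 20 (.br 21 (.br 22 .dead .dead .dead (.br 23 (.br 24 .dead .dead .dead (.br 25 (.br 26 .dead (.kem 2 3 19 524288) (.br 27 .dead .dead .dead (.br 28 .dead (.br 29 .dead .dead (.br 30 .dead (.br 31 .dead .dead (.br 34 .dead .dead (.br 32 .dead (.br 33 (.br 35 (.br 36 .dead .dead .dead (.br 37 (.br 38 .dead .dead .dead (.br 44 .dead .dead .dead .dead)) .dead .dead .dead)) .dead .dead (.br 36 (.br 37 .dead .dead .dead (.br 38 (.br 44 .dead .dead .dead .dead) .dead .dead .dead)) .dead .dead .dead)) .dead .dead .dead) .dead (.br 33 (.kem 1 2 26 67108864) (.br 35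 (.br 36 .dead .dead .dead (.br 37 (.br 38 .dead (.br 41 .dead .dead .dead (.br 48 .dead .dead .dead .dead)) .dead .dead) .dead .dead .dead)) .dead .dead (.br 36 (.br 37 .dead .dead .dead (.br 41 (.br 48 .dead .dead .dead .dead) .dead .dead .dead)) .dead .dead .dead)) .dead .dead)) .dead) .dead) .dead .dead) .dead) (.br 29 .dead (.br 30 .dead .dead (.br 31 .dead (.br 32 .dead .dead .dead (.br 34 .dead (.br 33 (.kem 1 2 26 67108864) .dead .dead .dead) .dead .dead)) .dead .dead) .dead) .dead .dead) .dead)) .dead) .dead (.br 26 .dead (.br 27 .dead .dead (.br 28 .dead (.br 29 .dead .dead (.br 30 .dead (.br 31 (.br 32 .dead .dead .dead (.br 33 (.br 34 .dead .dead .dead (.br 35 (.br 36 .dead .dead .dead (.br 37 .dead .dead (.br 43 .dead .dead .dead .dead) .dead)) .dead .dead (.br 36 (.br 42 .dead (.br 48 (.br 41 .dead .dead (.br 40 .dead (.br 39 .dead .dead (.br 38 .dead (.br 47 .dead .dead .dead (.br 46 (.br 45 .dead .dead .dead (.br 44 (.br 37 .dead .dead (.br 43 .dead .dead .dead (.fin [(2,3,128),(1,2,4398046519422),(0,3,554256941195137),(1,3,281544786972737),(0,3,64),(0,1,562949953421311),(1,2,562949953421311)]))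 (.kem 0 2 25 2181038080)) .dead .dead .dead)) .dead .dead .dead)) .dead .dead) .dead) .dead .dead) .dead) .dead .dead .dead) .dead .dead) .dead .dead .dead))) .dead .dead .dead)) .dead .dead .dead) .dead .dead) .dead) (.br 29 .dead (.br 30 .dead .dead (.br 31 (.br 32 .dead .dead .dead (.br 33 (.br 34 .dead (.br 35 (.br 36 .dead .dead .dead (.br 37 .dead (.br 38 .dead .dead (.br 39 .dead (.br 41 .dead .dead .dead (.br 48 .dead .dead .dead .dead)) .dead .dead) .dead) .dead .dead)) .dead .dead (.br 36 (.br 41 (.br 48 .dead .dead .dead .dead) .dead .dead .dead) .dead .dead .dead)) .dead (.br 35 (.br 36 .dead .dead .dead (.br 37 .dead (.br 38 .dead .dead (.br 39 .dead (.br 40 .dead .dead (.br 41 .dead (.br 42 .dead (.br 43 .dead .dead (.br 48 .dead .dead .dead (.br 47 (.br 46 .dead .dead .dead (.br 45 (.br 44 .dead .dead .dead (.fin [(0,3,1580800),(0,2,8796093022401),(2,3,281474976710656),(1,2,290135509835839),(1,3,69810262016),(0,1,562949953421311),(1,2,562949953421311)])) .dead .dead .dead)) .dead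 .dead .dead)) .dead) .dead .dead) .dead .dead) .dead) .dead .dead) .dead) .dead .dead)) .dead .dead (.br 36 (.br 42 .dead (.br 48 (.br 41 .dead (.br 40 .dead .dead (.br 39 .dead (.br 38 .dead .dead (.br 47 .dead .dead .dead (.br 46 (.br 45 .dead .dead .dead (.br 44 (.br 37 .dead (.br 43 .dead .dead (.kem 0 3 35 545460846592000) (.kem 1 2 28 4262486605824)) .dead (.kem 1 2 28 4125047652352)) .dead .dead .dead)) .dead .dead .dead)) .dead) .dead .dead) .dead) .dead .dead) .dead .dead .dead) .dead .dead) .dead .dead .dead))) .dead .dead .dead)) (.br 32 (.br 33 .dead .dead .dead (.br 34 .dead (.br 35 (.br 36 .dead .dead .dead (.br 37 (.br 41 .dead .dead .dead (.br 48 .dead .dead .dead .dead)) .dead .dead .dead)) .dead .dead (.br 36 (.br 37 .dead .dead .dead (.br 38 .dead .dead (.br 39 .dead (.br 41 (.br 48 .dead .dead .dead .dead) .dead .dead .dead) .dead .dead) .dead)) .dead .dead .dead)) .dead .dead)) .dead .dead (.kem 0 2 25 33554432)) .dead .dead) .dead) .dead .dead) .dead) (.br 28 .dead (.br 29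 .dead .dead (.br 30 .dead (.br 31 (.br 32 .dead .dead .dead (.br 34 .dead .dead (.br 33 (.br 35 (.br 36 .dead .dead .dead (.br 37 .dead .dead (.br 43 .dead .dead .dead .dead) .dead)) .dead .dead (.br 36 (.br 41 (.br 48 .dead .dead .dead .dead) .dead .dead .dead) .dead .dead .dead)) .dead .dead .dead) .dead)) .dead .dead .dead) .dead .dead) .dead) (.br 29 .dead (.br 30 .dead .dead (.br 34 .dead (.br 31 (.br 32 .dead .dead .dead (.br 33 (.kem 2 3 27 134217728) .dead (.br 35 (.br 36 .dead .dead .dead (.br 37 .dead (.br 38 .dead .dead (.br 41 .dead .dead .dead (.br 48 .dead .dead .dead .dead)) .dead) .dead .dead)) .dead .dead (.br 36 (.br 41 (.br 48 .dead .dead .dead .dead) .dead .dead .dead) .dead .dead .dead)) .dead)) (.br 32 (.br 33 .dead .dead (.br 35 (.br 36 .dead .dead .dead (.br 37 (.br 41 .dead .dead .dead (.br 48 .dead .dead .dead .dead)) .dead .dead .dead)) .dead .dead (.br 36 (.br 37 .dead .dead .dead (.br 38 .dead .dead (.br 41 (.br 48 .dead .dead .dead .dead) .dead .dead .dead) .dead))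 .dead .dead .dead)) .dead) .dead .dead (.kem 0 2 25 33554432)) .dead .dead) .dead .dead) .dead) .dead .dead) .dead)) .dead .dead) .dead)) .dead .dead .dead)) .dead .dead (.br 22 (.br 23 .dead .dead .dead (.br 24 (.br 25 .dead .dead (.br 26 .dead (.br 27 .dead .dead (.br 28 .dead (.br 29 .dead .dead (.br 30 .dead (.br 31 .dead .dead .dead (.br 32 (.br 33 .dead .dead .dead (.br 34 (.br 35 (.br 36 .dead .dead .dead (.br 42 .dead (.br 43 .dead .dead (.kem 0 3 21 549753697861632) .dead) .dead .dead)) .dead .dead (.br 36 (.br 37 .dead .dead (.br 38 .dead (.br 39 .dead .dead (.br 40 .dead (.br 41 .dead .dead (.kem 0 3 21 32243712000) .dead) .dead .dead) .dead) .dead .dead) .dead) .dead .dead .dead)) .dead .dead .dead)) .dead .dead .dead)) .dead .dead) .dead) (.br 29 .dead (.br 30 .dead .dead (.br 31 .dead (.br 32 (.kem 2 3 19 34078720) .dead .dead (.br 33 (.br 34 .dead (.kem 0 3 21 31457280) .dead .dead) .dead .dead .dead)) .dead (.br 32 (.br 33 .dead .dead .dead (.br 34 (.br 35 (.br 36 .dead .dead .dead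 (.br 42 .dead (.br 43 .dead .dead (.kem 0 3 21 549753697861632) .dead) .dead .dead)) .dead .dead (.br 36 (.br 37 .dead (.br 38 .dead .dead (.br 39 .dead (.br 40 .dead .dead (.br 41 .dead (.kem 0 3 21 32243712000) .dead .dead) .dead) .dead .dead) .dead) .dead .dead) .dead .dead .dead)) (.br 35 (.br 36 .dead .dead .dead (.br 41 .dead .dead .dead (.br 48 .dead .dead .dead .dead))) .dead .dead (.br 36 (.br 37 .dead (.br 38 .dead .dead (.br 39 .dead (.br 41 (.br 48 .dead .dead .dead .dead) .dead .dead .dead) .dead .dead) .dead) .dead .dead) .dead .dead .dead)) .dead .dead)) .dead .dead .dead)) .dead) .dead .dead) .dead) .dead) .dead .dead) .dead) .dead .dead .dead)) .dead .dead .dead)) .dead .dead .dead))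

def t7A_1 : Tree :=
  (.br 21 (.br 22 .dead .dead .dead (.br 23 (.br 24 .dead .dead .dead (.br 25 (.br 26 .dead (.br 27 .dead .dead (.br 28 .dead (.br 29 .dead .dead (.br 30 .dead (.br 31 .dead .dead (.br 32 .dead .dead .dead (.br 33 (.br 34 .dead .dead .dead (.br 35 (.br 36 .dead .dead .dead (.br 37 (.br 38 .dead (.br 39 .dead .dead (.br 40 .dead (.br 41 .dead .dead (.br 42 .dead (.br 43 .dead .dead (.br 44 .dead .dead .dead (.br 45 (.br 46 .dead .dead .dead (.br 47 (.br 48 .dead .dead .dead (.fin [(0,3,1),(0,2,8935713280064),(1,2,4262486605824),(1,2,234881024),(2,3,89357134928404),(0,2,1838976),(0,3,562949953421311),(2,3,562949953421311)])) .dead .dead .dead)) .dead .dead .dead)) .dead) .dead .dead) .dead) .dead .dead) .dead) .dead .dead) .dead .dead .dead)) .dead .dead (.br 36 (.br 37 .dead .dead .dead (.br 42 .dead (.br 43 .dead .dead (.br 44 (.br 38 .dead (.br 39 .dead .dead (.br 40 .dead (.br 45 .dead .dead .dead (.br 46 (.br 47 .dead .dead .dead (.br 48 (.br 41 .dead .dead (.kem 0 3 35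 545598285545472) .dead) .dead .dead .dead)) .dead .dead .dead)) .dead .dead) .dead) .dead .dead) .dead .dead .dead) .dead) .dead .dead)) .dead .dead .dead))) .dead .dead .dead)) .dead) .dead .dead) .dead) (.br 29 .dead (.br 30 .dead .dead (.br 31 .dead (.br 32 .dead .dead (.br 33 (.br 34 .dead (.br 35 (.br 36 .dead .dead .dead (.br 37 (.br 38 .dead .dead .dead (.br 44 .dead .dead .dead .dead)) .dead .dead .dead)) .dead .dead (.br 36 (.br 37 .dead .dead .dead (.br 38 (.br 44 .dead .dead .dead .dead) .dead .dead .dead)) .dead .dead .dead)) .dead (.br 35 (.br 36 .dead .dead .dead (.br 37 (.br 38 .dead .dead .dead (.br 44 .dead .dead .dead .dead)) .dead .dead .dead)) .dead .dead (.br 36 (.br 37 .dead .dead .dead (.br 38 (.br 44 .dead .dead .dead .dead) .dead .dead .dead)) .dead .dead .dead))) .dead .dead (.br 34 .dead (.br 35 (.br 36 .dead .dead .dead (.br 37 (.br 38 .dead .dead .dead (.br 44 .dead .dead .dead .dead)) .dead .dead .dead)) .dead .dead (.br 36 (.br 37 .dead .dead .dead (.br 38 (.br 44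 .dead .dead .dead .dead) .dead .dead .dead)) .dead .dead .dead)) .dead .dead)) (.br 33 (.br 34 .dead (.br 35 (.br 36 .dead .dead .dead (.br 37 (.br 38 .dead .dead (.br 39 .dead (.br 41 .dead .dead .dead (.br 48 .dead .dead .dead .dead)) .dead .dead) .dead) .dead .dead .dead)) .dead .dead (.br 36 (.br 37 .dead .dead .dead (.br 41 (.br 48 .dead .dead .dead .dead) .dead .dead .dead)) .dead .dead .dead)) .dead (.br 35 (.br 36 .dead .dead .dead (.br 37 (.br 38 .dead .dead (.br 39 .dead (.br 40 .dead .dead (.br 41 .dead (.br 42 .dead (.br 43 .dead .dead (.br 44 .dead .dead .dead (.br 45 (.br 46 .dead .dead .dead (.br 47 (.br 48 .dead .dead .dead (.kem 1 2 28 4127195136000)) .dead .dead .dead)) .dead .dead .dead)) .dead) .dead .dead) .dead .dead) .dead) .dead .dead) .dead) .dead .dead .dead)) .dead .dead (.br 36 (.br 37 .dead .dead .dead (.br 42 .dead (.br 43 .dead .dead (.br 44 (.br 38 .dead .dead (.br 39 .dead (.br 40 .dead .dead (.br 45 .dead .dead .dead (.br 46 (.br 47 .dead .dead .dead (.br 48 (.kem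 1 2 28 4127195136000) .dead .dead .dead)) .dead .dead .dead)) .dead) .dead .dead) .dead) .dead .dead .dead) .dead) .dead .dead)) .dead .dead .dead))) .dead .dead .dead)) .dead .dead) .dead) .dead .dead) .dead) .dead) (.br 27 .dead (.br 28 .dead (.br 29 .dead .dead (.br 30 .dead (.br 31 .dead .dead (.br 32 .dead (.br 33 (.br 34 .dead .dead (.br 35 (.br 36 .dead .dead .dead (.br 37 (.br 38 .dead .dead .dead (.br 44 .dead .dead .dead .dead)) .dead .dead .dead)) .dead .dead (.br 36 (.br 37 .dead .dead .dead (.br 38 (.br 44 .dead .dead .dead .dead) .dead .dead .dead)) .dead .dead .dead)) (.br 35 (.br 36 .dead .dead .dead (.br 37 (.br 38 .dead .dead .dead (.br 44 .dead .dead .dead .dead)) .dead .dead .dead)) .dead .dead (.br 36 (.br 37 .dead .dead .dead (.br 38 (.br 44 .dead .dead .dead .dead) .dead .dead .dead)) .dead .dead .dead))) .dead .dead (.br 34 .dead .dead (.br 35 (.br 36 .dead .dead .dead (.br 37 (.br 38 .dead .dead .dead (.br 44 .dead .dead .dead .dead)) .dead .dead .dead)) .dead .dead (.br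 36 (.br 37 .dead .dead .dead (.br 38 (.br 44 .dead .dead .dead .dead) .dead .dead .dead)) .dead .dead .dead)) .dead)) .dead (.br 33 (.br 34 .dead .dead (.br 35 (.br 36 .dead .dead .dead (.br 37 (.br 38 .dead (.br 39 .dead .dead (.br 41 .dead .dead .dead (.br 48 .dead .dead .dead .dead)) .dead) .dead .dead) .dead .dead .dead)) .dead .dead (.br 36 (.br 37 .dead .dead .dead (.br 41 (.br 48 .dead .dead .dead .dead) .dead .dead .dead)) .dead .dead .dead)) (.kem 1 2 26 201326592)) .dead .dead .dead)) .dead) .dead .dead) .dead) (.br 29 .dead (.br 30 .dead .dead (.br 31 .dead (.br 32 .dead .dead .dead (.br 33 (.br 34 .dead .dead .dead (.kem 1 2 26 201326592)) .dead .dead .dead)) .dead .dead) .dead) .dead .dead) .dead) .dead .dead) .dead) (.br 26 .dead .dead (.br 27 .dead (.br 28 .dead (.br 29 .dead .dead (.br 30 .dead (.br 31 (.br 32 .dead .dead .dead (.br 33 (.br 34 .dead .dead (.br 35 (.br 36 .dead .dead .dead (.br 37 .dead .dead (.br 43 .dead .dead .dead .dead) .dead)) .dead .dead (.br 36 (.br 41 (.br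 48 .dead .dead .dead .dead) .dead .dead .dead) .dead .dead .dead)) (.br 35 (.br 36 .dead .dead .dead (.br 37 .dead .dead (.br 43 .dead .dead .dead .dead) .dead)) .dead .dead (.br 36 (.br 42 .dead (.br 48 (.br 41 .dead .dead (.br 40 .dead (.br 39 .dead .dead (.br 38 .dead (.br 47 .dead .dead .dead (.br 46 (.br 45 .dead .dead .dead (.br 44 (.br 37 .dead .dead (.br 43 .dead .dead .dead (.fin [(1,2,4262486605824),(0,3,554256939614209),(2,3,281474976727233),(0,3,1580992),(2,3,69810262016),(0,2,562949953421311)])) (.kem 2 3 37 8933531975680)) .dead .dead .dead)) .dead .dead .dead)) .dead .dead) .dead) .dead .dead) .dead) .dead .dead .dead) .dead .dead) .dead .dead .dead))) .dead .dead .dead)) .dead (.br 32 (.br 33 .dead .dead .dead (.br 34 .dead .dead (.br 35 (.br 36 .dead .dead .dead (.br 37 (.br 41 .dead .dead .dead (.br 48 .dead .dead .dead .dead)) .dead .dead .dead)) .dead .dead (.br 36 (.br 37 .dead .dead .dead (.br 38 .dead (.br 39 .dead .dead (.br 41 (.br 48 .dead .dead .dead .dead) .dead .dead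 .dead) .dead) .dead .dead)) .dead .dead .dead)) .dead)) .dead .dead (.kem 0 1 25 33554432)) .dead) .dead .dead) .dead) (.br 29 .dead (.br 30 .dead .dead (.br 31 (.br 32 .dead .dead .dead (.br 33 (.br 34 .dead .dead .dead (.br 35 (.br 36 .dead .dead .dead (.br 37 .dead (.br 38 .dead .dead (.br 39 .dead (.br 40 .dead .dead (.br 41 .dead (.br 42 .dead (.br 43 .dead .dead (.br 48 .dead .dead .dead (.br 47 (.br 46 .dead .dead .dead (.br 45 (.br 44 .dead .dead .dead (.kem 0 1 25 139619991552)) .dead .dead .dead)) .dead .dead .dead)) .dead) .dead .dead) .dead .dead) .dead) .dead .dead) .dead) .dead .dead)) .dead .dead (.br 36 (.br 42 .dead (.br 48 (.br 41 .dead (.br 40 .dead .dead (.br 39 .dead (.br 38 .dead .dead (.br 47 .dead .dead .dead (.br 46 (.br 45 .dead .dead .dead (.br 44 (.br 37 .dead (.br 43 .dead .dead (.kem 0 3 35 545460846592000) (.kem 1 2 28 4262486605824)) .dead (.kem 0 1 25 2181038080)) .dead .dead .dead)) .dead .dead .dead)) .dead) .dead .dead) .dead) .dead .dead) .dead .dead .dead)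 .dead .dead) .dead .dead .dead))) .dead .dead .dead)) .dead .dead .dead) .dead) .dead .dead) .dead) .dead .dead) .dead) .dead .dead)) .dead .dead .dead)) .dead (.br 27 .dead (.br 26 .dead .dead (.br 22 (.br 23 .dead .dead .dead (.br 24 (.br 25 .dead (.br 28 .dead (.br 29 .dead .dead (.br 30 .dead (.br 31 .dead .dead (.br 32 (.br 33 .dead .dead .dead (.br 34 (.br 35 (.br 36 .dead .dead .dead (.br 37 (.br 42 .dead (.br 43 .dead .dead (.br 44 .dead .dead .dead (.br 38 .dead (.br 39 .dead .dead (.br 40 .dead (.br 45 (.br 46 .dead .dead .dead (.br 47 (.br 48 .dead .dead .dead (.br 41 .dead .dead (.fin [(0,3,545598285545472),(2,3,178714202409492),(1,3,4262486605824),(0,3,71485708370960),(0,3,17871427092740)]) .dead)) .dead .dead .dead)) .dead .dead .dead) .dead .dead) .dead) .dead .dead)) .dead) .dead .dead) .dead .dead .dead)) .dead .dead (.br 36 (.br 37 .dead .dead .dead (.br 38 .dead (.br 39 .dead .dead (.br 40 .dead (.br 41 .dead .dead (.br 42 .dead (.br 43 .dead .dead (.kem 0 3 35 545598285545472)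 .dead) .dead .dead) .dead) .dead .dead) .dead) .dead .dead)) .dead .dead .dead)) .dead .dead .dead)) .dead .dead (.br 33 (.br 34 .dead .dead .dead (.br 35 (.br 36 .dead .dead .dead (.br 37 (.br 38 .dead (.br 39 .dead .dead (.br 40 .dead (.br 41 .dead .dead (.kem 0 3 32 30064771072) .dead) .dead .dead) .dead) .dead .dead) .dead .dead .dead)) .dead .dead (.br 36 (.br 37 .dead .dead .dead (.br 42 .dead (.br 43 .dead .dead (.kem 0 3 32 549751518920704) .dead) .dead .dead)) .dead .dead .dead))) .dead .dead .dead)) (.br 32 (.br 33 .dead .dead .dead (.br 34 (.br 35 (.br 36 .dead .dead .dead (.br 42 .dead (.br 43 .dead .dead (.br 37 (.br 44 .dead .dead .dead (.br 45 (.br 46 .dead .dead .dead (.br 47 (.br 48 .dead .dead .dead (.br 41 .dead .dead (.br 40 .dead (.br 39 .dead .dead (.br 38 .dead (.kem 2 3 31 2147483648) .dead .dead) .dead) .dead .dead) .dead)) .dead .dead .dead)) .dead .dead .dead)) .dead .dead .dead) .dead) .dead .dead)) .dead .dead (.br 36 (.br 37 .dead .dead (.br 38 .dead (.br 39 .dead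 .dead (.br 40 .dead (.br 41 .dead .dead (.br 42 .dead (.br 43 .dead .dead .dead (.br 44 (.kem 2 3 31 8935679459328) .dead .dead .dead)) .dead .dead) .dead) .dead .dead) .dead) .dead .dead) .dead) .dead .dead .dead)) .dead .dead .dead)) .dead .dead .dead)) .dead .dead) .dead) .dead (.br 34 (.br 33 .dead .dead .dead (.br 32 (.br 29 .dead (.br 30 .dead .dead (.br 31 .dead .dead .dead (.br 35 (.br 36 .dead .dead .dead (.br 42 .dead (.br 43 .dead .dead (.br 48 .dead .dead .dead (.br 47 (.br 46 .dead .dead .dead (.br 45 (.br 44 .dead .dead .dead (.br 37 (.br 38 .dead (.br 39 .dead .dead (.br 40 .dead (.br 41 .dead .dead (.fin [(1,2,4123168604160),(2,3,71476913637392),(0,1,137438953472),(0,3,423439044466448),(2,3,26693229682116),(0,2,266240),(0,3,432220077054161),(0,3,562949953421311),(2,3,562949953421311)]) .dead) .dead .dead) .dead) (.kem 1 2 38 4123168604160) .dead) (.br 38 .dead .dead (.kem 0 1 37 137438953472) .dead) .dead .dead)) .dead .dead .dead)) .dead .dead .dead)) .dead) .dead .dead)) .dead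 (.br 41 .dead (.br 40 .dead .dead (.br 39 .dead (.br 38 .dead .dead (.br 36 (.br 37 .dead (.br 42 .dead (.br 43 .dead .dead (.br 44 (.br 45 .dead .dead .dead (.br 46 (.br 47 .dead .dead .dead (.br 48 (.fin [(2,3,141845657815056),(2,3,35462479675908),(0,3,71485708370960),(0,3,17871427092740)]) .dead .dead .dead)) .dead .dead .dead)) .dead .dead (.kem 0 3 44 545357767376896)) (.br 44 (.kem 2 3 43 8796093022208) .dead .dead .dead)) .dead (.br 43 .dead .dead (.br 48 (.kem 1 3 42 4398046511104) .dead .dead .dead) .dead)) .dead .dead) .dead .dead (.br 42 .dead (.br 43 .dead .dead (.br 37 (.br 44 .dead .dead .dead (.br 45 (.br 46 .dead .dead .dead (.br 47 (.br 48 .dead .dead .dead (.kem 0 2 35 34359738368)) .dead .dead .dead)) .dead .dead .dead)) (.kem 0 3 36 68719476736) .dead .dead) .dead) .dead .dead)) .dead) .dead .dead) .dead) .dead .dead) .dead)) .dead) (.br 30 .dead (.br 31 .dead .dead (.br 35 (.br 36 .dead .dead .dead (.br 37 (.br 42 .dead (.br 43 .dead .dead (.br 44 .dead .dead .dead (.br 38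 .dead (.br 39 .dead .dead (.br 40 .dead (.br 41 .dead .dead (.kem 1 3 28 268435456) .dead) .dead .dead) .dead) .dead .dead)) .dead) .dead .dead) .dead .dead .dead)) (.br 41 .dead .dead (.br 40 .dead (.br 39 .dead .dead (.br 42 .dead .dead .dead (.br 36 (.br 37 .dead .dead .dead (.br 38 .dead (.br 43 .dead .dead (.br 44 (.br 45 .dead .dead .dead (.br 46 (.br 47 .dead .dead .dead (.br 48 (.kem 1 3 28 4432674684928) .dead .dead .dead)) .dead .dead .dead)) .dead .dead .dead) .dead) .dead .dead)) .dead .dead .dead)) .dead) .dead .dead) .dead) .dead .dead) (.br 35 (.br 36 .dead .dead .dead (.br 42 .dead (.br 43 .dead .dead (.br 37 (.kem 1 2 29 1610612736) .dead .dead .dead) .dead) .dead .dead)) (.br 41 .dead .dead (.br 40 .dead (.br 39 .dead .dead (.br 38 .dead (.br 42 .dead .dead .dead (.br 36 (.br 37 .dead .dead (.br 43 .dead .dead .dead .dead) .dead) .dead .dead .dead)) .dead .dead) .dead) .dead .dead) .dead) .dead .dead)) .dead .dead) .dead) .dead .dead .dead)) .dead .dead .dead)) .dead .dead) .dead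 .dead .dead)) .dead .dead (.br 23 (.br 24 .dead .dead .dead (.br 25 (.br 28 (.br 34 .dead .dead .dead (.br 33 (.br 29 .dead (.br 30 .dead .dead (.br 31 .dead (.br 32 .dead .dead .dead (.br 35 .dead .dead (.br 41 .dead (.br 40 .dead .dead (.br 39 .dead (.br 36 (.br 37 .dead .dead .dead (.br 43 .dead .dead (.br 44 (.br 38 .dead .dead (.br 45 .dead .dead .dead (.br 46 (.br 47 .dead .dead .dead (.br 48 (.br 42 .dead (.fin [(0,3,30397718272),(1,3,139619991552),(2,3,177308137751956),(0,3,89357134928404),(2,3,1838976)]) .dead (.kem 1 3 42 4398046511104)) .dead .dead .dead)) .dead .dead .dead)) .dead) .dead .dead .dead) .dead)) .dead .dead (.br 37 (.br 38 .dead .dead (.br 42 .dead (.br 43 .dead .dead (.kem 0 3 36 545563925807104) .dead) .dead .dead) .dead) .dead .dead .dead)) .dead .dead) .dead) .dead .dead) (.br 36 (.br 37 .dead .dead .dead (.br 42 .dead (.br 43 .dead .dead (.br 44 (.br 38 .dead .dead (.br 39 .dead (.br 40 .dead .dead (.br 41 .dead (.kem 0 2 21 270532608) .dead .dead) .dead) .dead .dead)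 .dead) .dead .dead .dead) .dead) .dead .dead)) .dead .dead .dead))) .dead .dead) .dead) (.br 30 .dead (.br 31 .dead .dead (.br 32 .dead (.br 35 .dead (.br 41 .dead .dead (.br 40 .dead (.br 42 .dead .dead .dead (.br 36 (.br 37 .dead .dead .dead (.br 38 (.br 44 .dead .dead .dead .dead) .dead .dead .dead)) .dead .dead .dead)) .dead .dead) .dead) .dead (.br 36 (.br 37 .dead .dead .dead (.br 38 (.br 44 .dead .dead .dead .dead) .dead .dead .dead)) .dead .dead .dead)) .dead (.br 35 .dead (.br 41 .dead .dead (.br 40 .dead (.br 39 .dead .dead (.br 42 .dead .dead .dead (.br 36 (.br 37 .dead .dead .dead (.br 43 .dead .dead (.br 44 (.br 38 .dead (.br 45 .dead .dead .dead (.br 46 (.br 47 .dead .dead .dead (.br 48 (.kem 1 2 29 4161286438912) .dead .dead .dead)) .dead .dead .dead)) .dead .dead) .dead .dead .dead) .dead)) .dead .dead .dead)) .dead) .dead .dead) .dead) .dead (.br 36 (.br 37 .dead .dead .dead (.br 42 .dead (.br 43 .dead .dead (.br 44 (.br 38 .dead (.br 39 .dead .dead (.br 40 .dead (.br 41 .dead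 .dead (.br 45 .dead .dead .dead (.br 46 (.br 47 .dead .dead .dead (.br 48 (.kem 1 2 29 4126926700544) .dead .dead .dead)) .dead .dead .dead)) .dead) .dead .dead) .dead) .dead .dead) .dead .dead .dead) .dead) .dead .dead)) .dead .dead .dead))) .dead) .dead .dead) .dead) .dead .dead .dead)) (.br 29 .dead .dead (.br 30 .dead (.br 31 .dead .dead (.br 32 .dead (.br 33 (.br 34 .dead .dead .dead (.kem 0 2 21 2097152)) .dead .dead (.br 34 (.br 35 (.br 36 .dead .dead .dead (.br 37 (.br 38 .dead .dead .dead (.br 44 .dead .dead .dead .dead)) .dead .dead .dead)) .dead .dead (.br 36 (.br 37 .dead .dead .dead (.br 38 (.br 44 .dead .dead .dead .dead) .dead .dead .dead)) .dead .dead .dead)) .dead .dead .dead)) .dead (.br 33 (.br 34 .dead .dead .dead (.kem 0 2 21 2097152)) .dead .dead .dead)) .dead) .dead .dead) .dead) .dead .dead) (.br 28 (.br 34 .dead .dead .dead (.br 33 (.br 32 .dead .dead .dead (.br 29 .dead (.br 30 .dead .dead (.br 31 (.br 35 .dead .dead (.br 41 .dead (.br 40 .dead .dead (.br 39 .dead (.br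 38 .dead .dead (.br 36 (.br 37 .dead (.kem 0 3 22 32510050304) .dead (.kem 0 1 25 2181038080)) .dead .dead (.br 37 .dead (.kem 0 3 22 32510050304) .dead .dead)) .dead) .dead .dead) .dead) .dead .dead) (.br 36 (.br 42 .dead (.br 48 (.br 47 .dead .dead .dead (.br 46 (.br 45 .dead .dead .dead (.br 44 (.br 37 .dead (.br 38 .dead .dead (.br 39 .dead (.br 40 .dead .dead (.br 41 .dead (.kem 0 2 21 270532608) .dead .dead) .dead) .dead .dead) .dead) .dead (.br 43 .dead .dead (.kem 0 3 22 549753964199936) .dead)) .dead .dead .dead)) .dead .dead .dead)) .dead .dead .dead) .dead .dead) .dead .dead .dead)) .dead .dead .dead) .dead) (.br 30 .dead (.br 31 (.br 35 .dead (.br 41 .dead .dead (.br 40 .dead (.br 39 .dead .dead (.br 38 .dead (.br 42 .dead .dead .dead (.br 36 (.br 43 .dead .dead (.br 37 .dead .dead .dead (.br 44 (.br 45 .dead .dead .dead (.br 46 (.br 47 .dead .dead .dead (.br 48 (.kem 1 2 29 4159138955264) .dead .dead .dead)) .dead .dead .dead)) .dead .dead .dead)) .dead) .dead .dead .dead)) .dead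 .dead) .dead) .dead .dead) .dead) .dead (.br 36 (.br 42 .dead (.br 48 (.br 47 .dead .dead .dead (.br 46 (.br 45 .dead .dead .dead (.br 44 (.br 37 .dead .dead (.br 38 .dead (.br 39 .dead .dead (.br 40 .dead (.br 41 .dead .dead (.br 43 .dead .dead .dead (.kem 1 2 29 4262218170368)) .dead) .dead .dead) .dead) .dead .dead) (.kem 1 2 29 1610612736)) .dead .dead .dead)) .dead .dead .dead)) .dead .dead .dead) .dead .dead) .dead .dead .dead)) .dead (.kem 0 1 25 33554432) .dead) .dead .dead) .dead)) .dead .dead .dead)) (.br 29 .dead .dead (.br 30 .dead (.br 31 (.br 32 .dead .dead .dead (.br 33 (.br 34 .dead .dead .dead (.kem 0 2 21 2097152)) .dead .dead .dead)) .dead (.kem 0 3 22 29360128) .dead) .dead .dead) .dead) .dead .dead) .dead .dead)) .dead .dead .dead)) .dead) .dead .dead) .dead)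

def t7A_2 : Tree :=
  (.br 13 .dead (.br 14 .dead (.br 15 .dead .dead (.br 16 .dead (.br 17 .dead .dead (.br 18 .dead t7A_0 .dead .dead) .dead) .dead .dead) .dead) .dead (.br 20 (.br 15 .dead (.br 16 .dead .dead (.br 17 .dead (.br 18 .dead .dead (.br 19 .dead .dead .dead t7A_1) .dead) .dead .dead) .dead) (.br 16 .dead (.br 17 .dead .dead (.br 18 .dead (.br 19 .dead .dead (.br 21 (.br 22 .dead .dead .dead (.br 23 (.br 24 .dead .dead .dead (.br 25 (.br 26 .dead (.br 27 .dead .dead (.kem 1 3 14 16384) .dead) .dead (.br 27 .dead (.br 28 .dead (.br 29 .dead .dead (.br 30 .dead (.br 31 .dead .dead (.br 32 .dead (.br 33 (.br 34 .dead .dead (.br 35 (.br 36 .dead .dead .dead (.br 37 (.br 38 .dead .dead .dead (.br 44 .dead .dead .dead .dead)) .dead .dead .dead)) .dead .dead (.br 36 (.br 37 .dead .dead .dead (.br 38 (.br 44 .dead .dead .dead .dead) .dead .dead .dead)) .dead .dead .dead)) (.br 35 (.br 36 .dead .dead .dead (.br 37 (.br 38 .dead .dead .dead (.br 44 .dead .dead .dead .dead)) .dead .dead .dead))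 .dead .dead (.br 36 (.br 37 .dead .dead .dead (.br 38 (.br 44 .dead .dead .dead .dead) .dead .dead .dead)) .dead .dead .dead))) .dead (.br 34 .dead .dead .dead (.br 35 (.br 36 .dead .dead .dead (.br 37 (.br 38 .dead .dead .dead (.br 44 .dead .dead .dead .dead)) .dead .dead .dead)) .dead .dead (.br 36 (.br 37 .dead .dead .dead (.br 38 (.br 44 .dead .dead .dead .dead) .dead .dead .dead)) .dead .dead .dead))) .dead) .dead .dead) .dead) .dead .dead) .dead) (.br 29 .dead (.br 30 .dead .dead (.br 31 .dead (.br 32 .dead .dead (.br 33 (.br 34 .dead .dead .dead (.br 35 (.br 36 .dead .dead .dead (.br 37 (.br 38 .dead .dead .dead (.br 44 .dead .dead .dead .dead)) .dead .dead .dead)) .dead .dead (.br 36 (.br 37 .dead .dead .dead (.br 38 (.br 44 .dead .dead .dead .dead) .dead .dead .dead)) .dead .dead .dead))) .dead .dead .dead) .dead) .dead .dead) .dead) .dead .dead) .dead) (.kem 1 3 14 16384) .dead)) .dead .dead .dead)) .dead .dead .dead)) (.br 27 .dead .dead (.br 22 (.br 23 .dead .dead .dead (.br 24 (.br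 25 .dead .dead .dead (.br 26 .dead (.br 28 .dead .dead (.br 29 .dead (.br 30 .dead .dead (.br 31 .dead (.br 32 (.br 33 .dead .dead .dead (.br 34 (.kem 1 3 14 2113536) .dead .dead .dead)) .dead (.br 33 (.br 34 .dead .dead .dead (.br 35 (.br 36 .dead .dead .dead (.br 37 (.br 38 .dead .dead .dead (.br 44 .dead .dead .dead .dead)) .dead .dead .dead)) .dead .dead (.br 36 (.br 37 .dead .dead .dead (.br 38 (.br 44 .dead .dead .dead .dead) .dead .dead .dead)) .dead .dead .dead))) .dead .dead (.br 34 (.kem 1 3 14 2113536) .dead .dead .dead)) .dead) .dead .dead) .dead) .dead .dead) (.br 34 (.br 33 .dead .dead .dead (.br 29 .dead (.br 30 .dead .dead (.br 31 .dead (.br 32 (.br 35 (.br 36 .dead .dead .dead (.br 37 (.br 42 .dead (.br 43 .dead .dead (.br 44 .dead .dead .dead (.br 38 .dead .dead (.br 39 .dead (.br 40 .dead .dead (.br 41 .dead (.kem 2 3 28 268435456) .dead .dead) .dead) .dead .dead) .dead)) .dead) .dead .dead) .dead .dead .dead)) .dead (.br 41 .dead (.br 40 .dead .dead (.br 39 .dead (.br 36 (.br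 37 .dead .dead .dead (.br 38 .dead .dead (.br 43 .dead .dead (.br 44 (.br 45 .dead .dead .dead (.br 46 (.br 47 .dead .dead .dead (.br 48 (.br 42 .dead (.kem 2 3 28 34628173824) .dead (.kem 1 3 42 4398046511104)) .dead .dead .dead)) .dead .dead .dead)) .dead .dead .dead) .dead) .dead)) .dead .dead (.br 37 (.br 42 .dead (.br 43 .dead .dead (.br 44 .dead .dead .dead (.br 38 .dead .dead (.kem 0 3 36 545563925807104) .dead)) .dead) .dead .dead) .dead .dead .dead)) .dead .dead) .dead) .dead .dead) .dead) .dead (.br 35 (.br 36 .dead .dead .dead (.br 37 (.br 38 .dead .dead .dead (.br 44 .dead .dead .dead .dead)) .dead .dead .dead)) .dead (.br 41 .dead (.br 40 .dead .dead (.br 36 (.br 37 .dead .dead .dead (.br 38 (.br 44 .dead .dead .dead .dead) .dead .dead .dead)) .dead .dead (.br 37 (.br 38 .dead .dead .dead (.br 44 .dead .dead .dead .dead)) .dead .dead .dead)) .dead) .dead .dead) .dead) .dead) .dead .dead) .dead) (.br 30 .dead (.br 31 .dead .dead (.br 32 (.br 35 (.br 36 .dead .dead .dead (.br 37 (.br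 42 .dead (.br 43 .dead .dead (.br 44 .dead .dead .dead (.br 38 .dead (.br 39 .dead .dead (.br 40 .dead (.br 41 .dead .dead (.kem 1 3 14 270548992) .dead) .dead .dead) .dead) .dead .dead)) .dead) .dead .dead) .dead .dead .dead)) (.br 41 .dead .dead (.br 40 .dead (.br 39 .dead .dead (.br 42 .dead .dead .dead (.br 36 (.br 37 .dead .dead .dead (.br 38 .dead (.br 43 .dead .dead (.br 44 (.br 45 .dead .dead .dead (.br 46 (.br 47 .dead .dead .dead (.br 48 (.kem 1 3 14 4432676798464) .dead .dead .dead)) .dead .dead .dead)) .dead .dead .dead) .dead) .dead .dead)) .dead .dead .dead)) .dead) .dead .dead) .dead) .dead .dead) .dead .dead .dead) .dead) .dead .dead) .dead)) .dead .dead .dead)) .dead .dead)) .dead .dead .dead)) .dead .dead (.br 23 (.br 24 .dead .dead .dead (.br 25 (.br 26 .dead (.br 28 (.br 34 .dead .dead .dead (.br 33 (.br 29 .dead (.br 30 .dead .dead (.br 31 .dead (.br 32 .dead .dead (.br 35 .dead .dead (.br 41 .dead (.br 40 .dead .dead (.br 36 (.br 37 .dead .dead .dead (.br 38 (.br 44 .dead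 .dead .dead .dead) .dead .dead .dead)) .dead .dead (.br 37 (.br 38 .dead .dead .dead (.br 44 .dead .dead .dead .dead)) .dead .dead .dead)) .dead) .dead .dead) (.br 36 (.br 37 .dead .dead .dead (.br 38 (.br 44 .dead .dead .dead .dead) .dead .dead .dead)) .dead .dead .dead)) (.br 35 .dead .dead (.br 41 .dead (.br 40 .dead .dead (.br 39 .dead (.br 36 (.br 37 .dead .dead .dead (.br 43 .dead .dead (.br 44 (.br 38 .dead .dead (.kem 0 3 22 30396121088) .dead) .dead .dead .dead) .dead)) .dead .dead (.br 37 (.br 38 .dead .dead (.kem 0 3 22 30396121088) .dead) .dead .dead .dead)) .dead .dead) .dead) .dead .dead) (.br 36 (.br 37 .dead .dead .dead (.br 42 .dead (.br 43 .dead .dead (.kem 0 3 22 549751850270720) .dead) .dead .dead)) .dead .dead .dead))) .dead .dead) .dead) (.br 30 .dead (.br 31 .dead .dead (.br 32 .dead .dead .dead (.br 35 .dead (.br 41 .dead .dead (.br 40 .dead (.br 39 .dead .dead (.br 42 .dead .dead .dead (.br 36 (.br 37 .dead .dead .dead (.br 43 .dead .dead (.br 44 (.br 38 .dead (.kem 0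 3 22 30396121088) .dead .dead) .dead .dead .dead) .dead)) .dead .dead .dead)) .dead) .dead .dead) .dead) .dead (.br 36 (.br 37 .dead .dead .dead (.br 42 .dead (.br 43 .dead .dead (.kem 0 3 22 549751850270720) .dead) .dead .dead)) .dead .dead .dead))) .dead) .dead .dead) .dead) .dead .dead .dead)) .dead (.br 29 .dead (.br 30 .dead .dead (.br 31 .dead (.br 32 .dead .dead (.kem 0 3 22 62914560) (.br 33 (.br 34 .dead .dead .dead (.kem 0 1 21 2097152)) .dead .dead .dead)) .dead .dead) .dead) .dead .dead) .dead) .dead (.br 28 (.br 34 .dead .dead .dead (.br 29 .dead (.br 30 .dead .dead (.br 31 .dead (.br 32 .dead .dead (.br 33 (.kem 1 3 26 67108864) (.br 35 .dead .dead (.br 41 .dead (.br 36 (.br 37 .dead .dead .dead (.br 38 (.br 44 .dead .dead .dead .dead) .dead .dead .dead)) .dead .dead (.br 37 (.br 38 .dead .dead .dead (.br 44 .dead .dead .dead .dead)) .dead .dead .dead)) .dead .dead) (.br 36 (.br 37 .dead .dead .dead (.br 38 (.br 44 .dead .dead .dead .dead) .dead .dead .dead)) .dead .dead .dead))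 .dead .dead) .dead) .dead .dead) .dead) (.br 30 .dead (.br 31 .dead .dead (.br 32 .dead (.br 33 (.br 35 .dead (.br 41 .dead .dead (.br 40 .dead (.br 42 .dead .dead .dead (.br 36 (.br 37 .dead .dead .dead (.br 38 (.br 44 .dead .dead .dead .dead) .dead .dead .dead)) .dead .dead .dead)) .dead .dead) .dead) .dead (.br 36 (.br 37 .dead .dead .dead (.br 38 (.br 44 .dead .dead .dead .dead) .dead .dead .dead)) .dead .dead .dead)) .dead .dead .dead) .dead .dead) .dead) .dead .dead) .dead)) .dead (.br 29 .dead (.br 30 .dead .dead (.br 31 .dead (.br 32 .dead .dead (.br 33 (.kem 1 3 26 67108864) (.br 34 (.br 35 (.br 36 .dead .dead .dead (.br 37 (.br 38 .dead .dead .dead (.br 44 .dead .dead .dead .dead)) .dead .dead .dead)) .dead .dead (.br 36 (.br 37 .dead .dead .dead (.br 38 (.br 44 .dead .dead .dead .dead) .dead .dead .dead)) .dead .dead .dead)) .dead .dead (.kem 0 1 21 2097152)) .dead .dead) .dead) .dead .dead) .dead) .dead .dead) .dead)) .dead .dead .dead)) .dead .dead .dead)) .dead) .dead .dead) (.br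 21 (.br 22 .dead .dead .dead (.br 23 (.br 24 .dead .dead .dead (.br 25 (.kem 1 2 15 491520) .dead (.br 26 .dead (.br 27 .dead .dead (.kem 1 3 14 16384) .dead) .dead .dead) .dead)) .dead .dead .dead)) (.br 27 .dead .dead (.br 26 .dead (.br 22 (.br 23 .dead .dead .dead (.br 24 (.br 25 .dead .dead (.br 28 .dead .dead (.br 29 .dead (.br 30 .dead .dead (.br 31 .dead (.br 32 (.kem 2 3 19 34078720) .dead .dead (.br 33 (.br 34 .dead .dead .dead (.br 35 (.br 36 .dead .dead .dead (.br 37 (.br 38 .dead .dead (.br 39 .dead (.br 40 .dead .dead (.br 41 .dead (.kem 0 3 32 30064771072) .dead .dead) .dead) .dead .dead) .dead) .dead .dead .dead)) .dead .dead (.br 36 (.br 37 .dead .dead .dead (.br 42 .dead (.br 43 .dead .dead (.kem 0 3 32 549751518920704) .dead) .dead .dead)) .dead .dead .dead))) .dead .dead .dead)) .dead (.br 32 (.br 33 .dead .dead .dead (.br 34 (.kem 1 3 14 2113536) .dead .dead .dead)) .dead .dead .dead)) .dead) .dead .dead) (.br 34 (.br 33 .dead .dead .dead (.br 32 (.br 29 .dead (.br 30 .dead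 .dead (.br 31 .dead (.kem 2 3 19 34078720) .dead (.kem 1 2 15 237469696)) .dead) (.br 30 .dead (.br 31 .dead .dead .dead (.kem 1 2 15 237469696)) .dead .dead) .dead) .dead .dead .dead)) .dead .dead .dead)) .dead) .dead .dead .dead)) .dead .dead (.br 23 (.br 24 .dead .dead .dead (.br 25 (.kem 2 3 19 524288) .dead (.br 28 (.br 34 .dead .dead .dead (.br 33 (.br 32 .dead .dead .dead (.br 29 .dead (.br 30 .dead .dead (.br 31 (.kem 1 2 15 237469696) (.kem 0 2 25 33554432) .dead .dead) .dead) (.br 30 .dead (.br 31 (.kem 1 2 15 237469696) .dead .dead .dead) .dead .dead) .dead)) .dead .dead .dead)) .dead (.br 29 .dead (.br 30 .dead .dead (.br 31 (.br 32 .dead .dead .dead (.br 33 (.br 34 .dead .dead .dead (.kem 0 1 21 2097152)) .dead .dead .dead)) (.kem 0 3 22 29360128) .dead .dead) .dead) .dead .dead) .dead) .dead)) .dead .dead .dead)) .dead .dead) .dead) .dead .dead)) .dead .dead) .dead) .dead .dead) .dead) .dead .dead .dead)) .dead (.br 14 .dead (.br 15 .dead .dead (.br 16 .dead (.br 17 .dead .dead (.br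 18 .dead (.br 19 .dead .dead (.br 20 (.kem 1 3 13 8192) .dead .dead .dead) .dead) .dead .dead) .dead) .dead .dead) .dead) .dead (.br 15 .dead (.br 16 .dead .dead (.br 17 .dead (.br 18 .dead .dead (.br 19 .dead (.br 20 (.br 21 (.br 22 .dead .dead .dead (.br 23 (.br 24 .dead .dead .dead (.br 25 (.br 26 .dead .dead (.kem 1 3 13 532480) (.br 27 .dead (.br 28 .dead (.br 29 .dead .dead (.br 30 .dead (.br 31 .dead .dead (.br 32 .dead (.br 33 (.kem 2 3 26 67108864) .dead (.br 34 .dead .dead .dead (.br 35 (.br 36 .dead .dead .dead (.br 37 (.br 38 .dead .dead .dead (.br 44 .dead .dead .dead .dead)) .dead .dead .dead)) .dead .dead (.br 36 (.br 37 .dead .dead .dead (.br 38 (.br 44 .dead .dead .dead .dead) .dead .dead .dead)) .dead .dead .dead))) .dead) .dead .dead) .dead) .dead .dead) .dead) (.br 29 .dead (.br 30 .dead .dead (.br 31 .dead (.br 32 .dead .dead (.br 33 (.br 34 .dead .dead .dead (.br 35 (.br 36 .dead .dead .dead (.br 37 (.br 38 .dead .dead .dead (.br 44 .dead .dead .dead .dead)) .dead .dead .dead))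 .dead .dead (.br 36 (.br 37 .dead .dead .dead (.br 38 (.br 44 .dead .dead .dead .dead) .dead .dead .dead)) .dead .dead .dead))) .dead .dead .dead) .dead) .dead .dead) .dead) .dead .dead) .dead) (.br 28 .dead (.br 29 .dead .dead (.br 30 .dead (.br 31 .dead .dead (.br 32 .dead (.br 33 (.br 34 .dead .dead .dead (.kem 1 2 27 134217728)) .dead .dead .dead) .dead .dead) .dead) .dead .dead) .dead) (.br 29 .dead (.br 30 .dead .dead (.br 31 .dead (.br 32 .dead .dead (.br 33 (.kem 1 3 13 67641344) (.br 34 .dead .dead .dead (.br 35 (.br 36 .dead .dead .dead (.br 37 (.br 38 .dead .dead .dead (.br 44 .dead .dead .dead .dead)) .dead .dead .dead)) .dead .dead (.br 36 (.br 37 .dead .dead .dead (.br 38 (.br 44 .dead .dead .dead .dead) .dead .dead .dead)) .dead .dead .dead))) .dead .dead) .dead) .dead .dead) .dead) .dead .dead) .dead) .dead)) .dead .dead .dead)) .dead .dead .dead)) .dead (.br 27 .dead (.br 22 (.br 23 .dead .dead .dead (.br 24 (.br 25 .dead .dead .dead (.br 26 .dead .dead (.br 28 .dead (.br 29 .dead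 .dead (.br 30 .dead (.br 31 .dead .dead (.br 32 (.kem 1 3 13 34086912) (.br 33 (.br 34 .dead .dead .dead (.br 35 (.br 36 .dead .dead .dead (.br 37 (.br 38 .dead .dead .dead (.br 44 .dead .dead .dead .dead)) .dead .dead .dead)) .dead .dead (.br 36 (.br 37 .dead .dead .dead (.br 38 (.br 44 .dead .dead .dead .dead) .dead .dead .dead)) .dead .dead .dead))) .dead .dead (.br 34 (.br 35 (.br 36 .dead .dead .dead (.br 37 (.br 38 .dead .dead .dead (.br 44 .dead .dead .dead .dead)) .dead .dead .dead)) .dead .dead (.br 36 (.br 37 .dead .dead .dead (.br 38 (.br 44 .dead .dead .dead .dead) .dead .dead .dead)) .dead .dead .dead)) .dead .dead .dead)) .dead .dead) .dead) .dead .dead) .dead) .dead (.br 34 (.br 33 .dead .dead .dead (.br 29 .dead (.br 30 .dead .dead (.br 31 .dead (.br 32 (.br 35 (.br 36 .dead .dead .dead (.br 37 (.br 42 .dead (.br 43 .dead .dead (.br 44 .dead .dead .dead (.br 38 .dead .dead (.kem 1 3 13 2181570560) .dead)) .dead) .dead .dead) .dead .dead .dead)) .dead (.br 41 .dead (.br 40 .dead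 .dead (.br 39 .dead (.br 36 (.br 37 .dead .dead .dead (.br 38 .dead .dead (.br 43 .dead .dead (.br 44 (.kem 1 3 13 139620524032) .dead .dead .dead) .dead) .dead)) .dead .dead (.br 37 (.br 42 .dead (.br 43 .dead .dead (.br 44 .dead .dead .dead (.br 38 .dead .dead (.kem 1 3 13 2181570560) .dead)) .dead) .dead .dead) .dead .dead .dead)) .dead .dead) .dead) .dead .dead) .dead) .dead .dead .dead) .dead .dead) .dead) (.br 30 .dead (.br 31 .dead .dead (.br 32 (.kem 1 3 13 34086912) (.br 35 (.br 36 .dead .dead .dead (.br 37 (.br 38 .dead .dead .dead (.br 44 .dead .dead .dead .dead)) .dead .dead .dead)) (.br 41 .dead .dead (.br 40 .dead (.br 42 .dead .dead .dead (.br 36 (.br 37 .dead .dead .dead (.br 38 (.br 44 .dead .dead .dead .dead) .dead .dead .dead)) .dead .dead .dead)) .dead .dead) .dead) .dead .dead) .dead .dead) .dead) .dead .dead) .dead)) .dead .dead .dead)) .dead)) .dead .dead .dead)) .dead .dead (.br 23 (.br 24 .dead .dead .dead (.br 25 (.br 26 .dead .dead (.kem 1 3 13 532480) (.br 28 (.br 34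 .dead .dead .dead (.br 29 .dead (.br 30 .dead .dead (.br 31 .dead (.br 32 .dead .dead (.br 33 (.br 35 .dead .dead (.br 41 .dead (.br 40 .dead .dead (.br 36 (.br 37 .dead .dead .dead (.br 38 (.br 44 .dead .dead .dead .dead) .dead .dead .dead)) .dead .dead (.br 37 (.br 38 .dead .dead .dead (.br 44 .dead .dead .dead .dead)) .dead .dead .dead)) .dead) .dead .dead) (.br 36 (.br 37 .dead .dead .dead (.br 38 (.br 44 .dead .dead .dead .dead) .dead .dead .dead)) .dead .dead .dead)) .dead .dead .dead) .dead) .dead .dead) .dead) (.br 30 .dead (.br 31 .dead .dead (.br 32 .dead (.br 33 (.kem 2 3 26 67108864) .dead (.br 35 .dead (.br 41 .dead .dead (.br 42 .dead .dead .dead (.br 36 (.br 37 .dead .dead .dead (.br 38 (.br 44 .dead .dead .dead .dead) .dead .dead .dead)) .dead .dead .dead)) .dead) .dead (.br 36 (.br 37 .dead .dead .dead (.br 38 (.br 44 .dead .dead .dead .dead) .dead .dead .dead)) .dead .dead .dead)) .dead) .dead .dead) .dead) .dead .dead) .dead)) (.br 29 .dead .dead (.br 30 .dead (.br 31 .dead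 .dead (.br 32 .dead (.br 33 (.kem 2 3 26 67108864) .dead (.br 34 (.br 35 (.br 36 .dead .dead .dead (.br 37 (.br 38 .dead .dead .dead (.br 44 .dead .dead .dead .dead)) .dead .dead .dead)) .dead .dead (.br 36 (.br 37 .dead .dead .dead (.br 38 (.br 44 .dead .dead .dead .dead) .dead .dead .dead)) .dead .dead .dead)) .dead .dead (.kem 0 2 21 2097152)) .dead) .dead .dead) .dead) .dead .dead) .dead) .dead .dead)) .dead .dead .dead)) .dead .dead .dead)) .dead .dead) .dead) .dead .dead .dead) .dead .dead) .dead) .dead .dead) .dead) (.br 16 .dead (.br 17 .dead .dead (.br 18 .dead (.br 19 .dead .dead (.br 20 (.kem 1 3 13 8192) (.br 21 (.br 22 .dead .dead .dead (.br 23 (.br 24 .dead .dead .dead (.br 25 (.br 26 .dead .dead .dead (.br 27 .dead .dead (.kem 0 1 20 1048576) .dead)) .dead .dead .dead)) .dead .dead .dead)) (.br 22 (.br 23 .dead .dead .dead (.br 24 (.br 25 .dead .dead .dead (.br 26 (.br 27 .dead .dead (.br 28 .dead .dead (.br 29 .dead (.br 30 .dead .dead (.br 31 .dead (.br 32 .dead .dead (.br 33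 .dead (.br 34 (.kem 1 3 13 3170304) .dead .dead (.br 35 (.br 36 .dead .dead .dead (.br 37 (.br 38 .dead .dead .dead (.br 44 .dead .dead .dead .dead)) .dead .dead .dead)) .dead .dead (.br 36 (.br 37 .dead .dead .dead (.br 38 (.br 44 .dead .dead .dead .dead) .dead .dead .dead)) .dead .dead .dead))) .dead (.kem 0 1 20 68157440)) .dead) .dead .dead) .dead) .dead .dead) (.br 34 (.br 29 .dead (.br 30 .dead .dead (.br 31 .dead (.br 32 .dead .dead (.br 33 .dead (.br 35 (.br 36 .dead .dead .dead (.br 37 (.br 38 .dead .dead .dead (.br 44 .dead .dead .dead .dead)) .dead .dead .dead)) .dead (.br 41 .dead (.br 36 (.br 37 .dead .dead .dead (.br 38 (.br 44 .dead .dead .dead .dead) .dead .dead .dead)) .dead .dead (.br 37 (.br 38 .dead .dead .dead (.br 44 .dead .dead .dead .dead)) .dead .dead .dead)) .dead .dead) .dead) .dead (.kem 0 1 20 68157440)) .dead) .dead .dead) .dead) (.br 30 .dead (.br 31 .dead .dead (.br 32 .dead (.br 33 .dead .dead .dead (.br 35 (.br 36 .dead .dead .dead (.br 37 (.br 38 .dead .dead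 .dead (.br 44 .dead .dead .dead .dead)) .dead .dead .dead)) (.br 41 .dead .dead (.br 40 .dead (.br 42 .dead .dead .dead (.br 36 (.br 37 .dead .dead .dead (.br 38 (.br 44 .dead .dead .dead .dead) .dead .dead .dead)) .dead .dead .dead)) .dead .dead) .dead) .dead .dead)) .dead .dead) .dead) .dead .dead) .dead) .dead .dead .dead)) .dead) .dead .dead .dead)) .dead .dead .dead)) .dead .dead (.br 23 (.br 24 .dead .dead .dead (.br 25 (.br 26 .dead .dead .dead (.br 27 (.br 28 (.br 29 .dead (.br 30 .dead .dead (.br 31 .dead (.br 32 .dead .dead (.br 33 .dead (.br 34 .dead .dead (.br 35 .dead .dead (.br 36 (.br 37 .dead .dead .dead (.br 38 (.br 44 .dead .dead .dead .dead) .dead .dead .dead)) .dead .dead (.br 37 (.br 38 .dead .dead .dead (.br 44 .dead .dead .dead .dead)) .dead .dead .dead)) (.br 36 (.br 37 .dead .dead .dead (.br 38 (.br 44 .dead .dead .dead .dead) .dead .dead .dead)) .dead .dead .dead)) (.br 35 .dead .dead (.br 41 .dead (.br 36 (.br 37 .dead .dead .dead (.br 38 (.br 44 .dead .dead .dead .dead)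 .dead .dead .dead)) .dead .dead (.br 37 (.br 38 .dead .dead .dead (.br 44 .dead .dead .dead .dead)) .dead .dead .dead)) .dead .dead) (.br 36 (.br 37 .dead .dead .dead (.br 38 (.br 44 .dead .dead .dead .dead) .dead .dead .dead)) .dead .dead .dead))) .dead .dead) .dead) .dead .dead) .dead) (.br 30 .dead (.br 31 .dead .dead (.br 32 .dead (.br 33 .dead .dead (.br 34 .dead .dead .dead (.br 35 .dead (.br 41 .dead .dead (.br 42 .dead .dead .dead (.br 36 (.br 37 .dead .dead .dead (.br 38 (.br 44 .dead .dead .dead .dead) .dead .dead .dead)) .dead .dead .dead)) .dead) .dead (.br 36 (.br 37 .dead .dead .dead (.br 38 (.br 44 .dead .dead .dead .dead) .dead .dead .dead)) .dead .dead .dead))) .dead) .dead .dead) .dead) .dead .dead) .dead) .dead (.br 29 .dead (.br 30 .dead .dead (.br 31 .dead (.br 32 .dead .dead (.br 33 .dead (.br 34 .dead .dead .dead (.br 35 (.br 36 .dead .dead .dead (.br 37 (.br 38 .dead .dead .dead (.br 44 .dead .dead .dead .dead)) .dead .dead .dead)) .dead .dead (.br 36 (.br 37 .dead .dead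 .dead (.br 38 (.br 44 .dead .dead .dead .dead) .dead .dead .dead)) .dead .dead .dead))) .dead .dead) .dead) .dead .dead) .dead) .dead .dead) .dead) .dead (.kem 0 1 20 1048576) .dead)) .dead .dead .dead)) .dead .dead .dead)) .dead .dead) .dead .dead) .dead) .dead .dead) .dead) .dead .dead) .dead)))

def t7A_3 : Tree :=
  (.br 15 .dead (.br 16 .dead .dead (.br 17 .dead (.br 18 .dead .dead (.br 19 (.br 21 .dead .dead (.br 27 .dead (.br 26 .dead .dead (.br 22 (.br 23 .dead .dead .dead (.br 24 (.br 25 .dead (.kem 0 3 8 1597184) .dead (.br 28 .dead (.br 29 .dead .dead (.br 30 .dead (.br 31 .dead .dead (.br 32 (.kem 1 3 25 33554432) (.kem 0 3 8 64511744) .dead .dead) .dead) .dead .dead) .dead) .dead (.br 34 (.br 33 .dead .dead .dead (.br 29 .dead (.br 30 .dead .dead (.br 31 .dead (.br 32 (.br 35 (.br 36 .dead .dead .dead (.br 37 (.br 42 .dead (.br 43 .dead .dead (.kem 0 3 8 549751851867904) .dead) .dead .dead) .dead .dead .dead)) .dead (.br 41 .dead (.br 40 .dead .dead (.br 39 .dead (.br 36 (.br 37 .dead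 .dead .dead (.br 38 .dead .dead (.kem 0 3 8 30397718272) .dead)) .dead .dead (.br 37 (.br 42 .dead (.br 43 .dead .dead (.kem 0 3 8 545869201432320) .dead) .dead .dead) .dead .dead .dead)) .dead .dead) .dead) .dead .dead) .dead) .dead .dead .dead) .dead .dead) .dead) (.br 30 .dead (.br 31 .dead .dead (.br 32 (.kem 1 3 25 33554432) (.br 35 (.br 36 .dead .dead .dead (.br 37 (.br 38 .dead .dead .dead (.br 44 .dead .dead .dead .dead)) .dead .dead .dead)) (.br 41 .dead .dead (.br 40 .dead (.br 42 .dead .dead .dead (.br 36 (.br 37 .dead .dead .dead (.br 38 (.br 44 .dead .dead .dead .dead) .dead .dead .dead)) .dead .dead .dead)) .dead .dead) .dead) .dead .dead) .dead .dead) .dead) .dead .dead) .dead)) .dead .dead .dead))) .dead .dead .dead)) .dead .dead (.br 23 (.br 24 .dead .dead .dead (.br 25 .dead (.kem 0 3 8 1597184) .dead .dead)) .dead .dead .dead)) .dead) .dead .dead) (.br 22 (.br 23 .dead .dead .dead (.br 24 (.br 25 .dead (.br 26 .dead .dead (.br 27 .dead (.br 28 .dead (.br 29 .dead .dead (.br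 30 .dead (.br 31 .dead .dead (.br 32 (.br 33 .dead .dead .dead (.br 34 (.kem 2 3 21 2097152) .dead (.kem 0 3 8 33054464) .dead)) .dead .dead (.br 33 (.br 34 .dead .dead (.kem 0 3 8 33054464) .dead) .dead .dead .dead)) (.br 32 (.br 33 .dead .dead .dead (.br 34 (.kem 2 3 21 2097152) .dead (.br 35 (.br 36 .dead .dead .dead (.br 41 .dead .dead .dead (.br 48 .dead .dead .dead .dead))) .dead .dead (.br 36 (.br 37 .dead .dead (.br 38 .dead (.br 39 .dead .dead (.br 41 (.br 48 .dead .dead .dead .dead) .dead .dead .dead) .dead) .dead .dead) .dead) .dead .dead .dead)) .dead)) .dead .dead .dead)) .dead .dead) .dead) (.br 29 .dead (.br 30 .dead .dead (.br 31 .dead .dead .dead (.br 32 (.br 33 .dead .dead .dead (.br 34 (.br 35 (.br 36 .dead .dead .dead (.br 42 .dead (.br 43 .dead .dead (.kem 0 3 8 549753699458816) .dead) .dead .dead)) .dead .dead (.br 36 (.br 37 .dead (.br 38 .dead .dead (.br 39 .dead (.br 40 .dead .dead (.br 41 .dead (.kem 0 3 8 32245309184) .dead .dead) .dead) .dead .dead) .dead) .dead .dead)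 .dead .dead .dead)) .dead .dead .dead)) .dead .dead .dead)) .dead) .dead .dead) .dead) .dead .dead) .dead) .dead (.br 26 .dead (.br 27 .dead .dead (.br 28 .dead (.br 29 .dead .dead (.br 30 .dead (.br 31 .dead .dead (.br 32 (.br 33 .dead .dead .dead (.br 34 (.br 35 (.br 36 .dead .dead .dead (.br 37 (.br 42 .dead (.br 43 .dead .dead (.kem 0 3 8 549751585529600) .dead) .dead .dead) .dead .dead .dead)) .dead .dead (.br 36 (.br 37 .dead .dead .dead (.br 38 .dead (.br 39 .dead .dead (.br 40 .dead (.br 41 .dead .dead (.kem 0 3 8 30131379968) .dead) .dead .dead) .dead) .dead .dead)) .dead .dead .dead)) .dead .dead .dead)) .dead .dead .dead) .dead) .dead .dead) .dead) (.br 29 .dead (.br 30 .dead .dead (.br 31 .dead (.br 32 (.br 33 .dead .dead .dead (.br 34 (.br 35 (.br 36 .dead .dead .dead (.br 37 (.br 42 .dead (.br 43 .dead .dead (.kem 0 3 8 549751585529600) .dead) .dead .dead) .dead .dead .dead)) .dead .dead (.br 36 (.br 37 .dead .dead .dead (.br 38 .dead .dead (.br 39 .dead (.br 40 .dead .dead (.br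 41 .dead (.kem 0 3 8 30131379968) .dead .dead) .dead) .dead .dead) .dead)) .dead .dead .dead)) (.br 35 (.br 36 .dead .dead .dead (.br 37 (.br 41 .dead .dead .dead (.br 48 .dead .dead .dead .dead)) .dead .dead .dead)) .dead .dead (.br 36 (.br 37 .dead .dead .dead (.br 38 .dead .dead (.br 39 .dead (.br 41 (.br 48 .dead .dead .dead .dead) .dead .dead .dead) .dead .dead) .dead)) .dead .dead .dead)) .dead .dead)) .dead (.br 33 (.br 34 .dead (.kem 0 3 8 66608896) .dead .dead) .dead .dead (.br 34 (.br 35 (.br 36 .dead .dead .dead (.br 37 (.br 38 .dead .dead .dead (.br 44 .dead .dead .dead .dead)) .dead .dead .dead)) .dead .dead (.br 36 (.br 37 .dead .dead .dead (.br 38 (.br 44 .dead .dead .dead .dead) .dead .dead .dead)) .dead .dead .dead)) (.kem 0 3 8 66608896) .dead .dead)) .dead) .dead .dead) .dead) .dead .dead) .dead) .dead) (.br 27 .dead (.br 28 .dead (.br 29 .dead .dead (.br 30 .dead (.br 31 .dead .dead (.br 32 (.kem 1 3 25 33554432) (.br 33 (.br 34 .dead .dead (.kem 0 3 8 66608896) .dead) .dead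 .dead (.br 34 (.kem 2 3 21 2097152) .dead (.kem 0 3 8 66608896) .dead)) .dead .dead) .dead) .dead .dead) .dead) (.br 29 .dead (.br 30 .dead .dead (.br 31 .dead (.br 32 (.br 33 .dead .dead .dead (.br 34 (.kem 1 2 26 201326592) .dead .dead .dead)) .dead .dead .dead) .dead .dead) .dead) .dead .dead) .dead) .dead .dead) .dead)) .dead .dead .dead)) .dead .dead .dead)) .dead .dead .dead) .dead) .dead .dead) .dead) (.br 16 .dead (.br 17 .dead .dead (.br 18 .dead (.br 19 (.br 21 .dead (.br 27 .dead .dead (.br 26 .dead (.br 22 (.br 23 .dead .dead .dead (.br 24 (.br 25 .dead .dead (.kem 0 3 8 1597184) (.br 28 .dead .dead (.br 29 .dead (.br 30 .dead .dead (.br 31 .dead (.br 32 (.kem 2 3 25 33554432) .dead (.kem 0 3 8 64511744) .dead) .dead .dead) .dead) .dead .dead) (.br 34 (.br 33 .dead .dead .dead (.br 29 .dead (.br 30 .dead .dead (.br 31 .dead (.br 32 (.kem 1 2 15 203915264) .dead (.br 35 (.br 36 .dead .dead .dead (.br 37 (.br 38 .dead .dead .dead (.br 44 .dead .dead .dead .dead)) .dead .dead .dead))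 .dead (.br 41 .dead (.br 40 .dead .dead (.br 36 (.br 37 .dead .dead .dead (.br 38 (.br 44 .dead .dead .dead .dead) .dead .dead .dead)) .dead .dead (.br 37 (.br 38 .dead .dead .dead (.br 44 .dead .dead .dead .dead)) .dead .dead .dead)) .dead) .dead .dead) .dead) .dead) .dead .dead) .dead) (.br 30 .dead (.br 31 .dead .dead (.br 32 (.kem 1 2 15 203915264) .dead .dead .dead) .dead) .dead .dead) .dead)) .dead .dead .dead))) .dead .dead .dead)) .dead .dead (.br 23 (.br 24 .dead .dead .dead (.br 25 .dead .dead (.kem 0 3 8 1597184) .dead)) .dead .dead .dead)) .dead .dead) .dead) .dead (.br 22 (.br 23 .dead .dead .dead (.br 24 (.br 25 .dead .dead (.br 26 .dead (.br 27 .dead .dead (.br 28 .dead (.br 29 .dead .dead (.br 30 .dead (.br 31 .dead .dead .dead (.br 32 (.br 33 .dead .dead .dead (.br 34 (.kem 1 2 15 235372544) .dead .dead .dead)) .dead .dead .dead)) .dead .dead) .dead) (.br 29 .dead (.br 30 .dead .dead (.br 31 .dead (.br 32 (.br 33 .dead .dead .dead (.br 34 (.kem 1 3 21 2097152) (.kem 0 3 8 33054464)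 .dead .dead)) .dead .dead (.br 33 (.br 34 .dead (.kem 0 3 8 33054464) .dead .dead) .dead .dead .dead)) .dead (.br 32 (.br 33 .dead .dead .dead (.br 34 (.kem 1 2 15 235372544) (.br 35 (.br 36 .dead .dead .dead (.br 41 .dead .dead .dead (.br 48 .dead .dead .dead .dead))) .dead .dead (.br 36 (.br 37 .dead (.br 38 .dead .dead (.br 39 .dead (.br 41 (.br 48 .dead .dead .dead .dead) .dead .dead .dead) .dead .dead) .dead) .dead .dead) .dead .dead .dead)) .dead .dead)) .dead .dead .dead)) .dead) .dead .dead) .dead) .dead) .dead .dead) (.kem 1 2 15 491520)) .dead .dead .dead)) .dead .dead .dead)) .dead (.br 21 .dead (.br 27 .dead .dead (.br 22 (.br 23 .dead .dead .dead (.br 24 (.br 25 .dead .dead .dead (.br 26 (.br 28 .dead .dead (.br 29 .dead (.br 30 .dead .dead (.br 31 .dead (.br 32 .dead .dead (.br 33 .dead (.kem 0 3 8 131096320) .dead (.br 34 (.br 35 (.br 36 .dead .dead .dead (.br 37 (.br 38 .dead .dead .dead (.br 44 .dead .dead .dead .dead)) .dead .dead .dead)) .dead .dead (.br 36 (.br 37 .dead .dead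 .dead (.br 38 (.br 44 .dead .dead .dead .dead) .dead .dead .dead)) .dead .dead .dead)) .dead .dead .dead)) .dead) .dead .dead) .dead) .dead .dead) (.br 34 (.br 29 .dead (.br 30 .dead .dead (.br 31 .dead (.br 32 .dead .dead (.br 33 .dead (.br 35 (.br 36 .dead .dead .dead (.br 37 (.br 38 .dead .dead .dead (.br 44 .dead .dead .dead .dead)) .dead .dead .dead)) .dead (.br 41 .dead (.br 36 (.br 37 .dead .dead .dead (.br 38 (.br 44 .dead .dead .dead .dead) .dead .dead .dead)) .dead .dead (.br 37 (.br 38 .dead .dead .dead (.br 44 .dead .dead .dead .dead)) .dead .dead .dead)) .dead .dead) .dead) .dead (.br 35 (.br 36 .dead .dead .dead (.br 37 (.br 38 .dead .dead .dead (.br 44 .dead .dead .dead .dead)) .dead .dead .dead)) .dead (.br 41 .dead (.br 40 .dead .dead (.br 36 (.br 37 .dead .dead .dead (.br 38 (.br 44 .dead .dead .dead .dead) .dead .dead .dead)) .dead .dead (.br 37 (.br 38 .dead .dead .dead (.br 44 .dead .dead .dead .dead)) .dead .dead .dead)) .dead) .dead .dead) .dead)) .dead) .dead .dead) .dead)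 (.br 30 .dead (.br 31 .dead .dead (.br 32 .dead (.br 33 .dead .dead .dead (.br 35 (.br 36 .dead .dead .dead (.br 37 (.br 38 .dead .dead .dead (.br 44 .dead .dead .dead .dead)) .dead .dead .dead)) (.br 41 .dead .dead (.br 40 .dead (.br 42 .dead .dead .dead (.br 36 (.br 37 .dead .dead .dead (.br 38 (.br 44 .dead .dead .dead .dead) .dead .dead .dead)) .dead .dead .dead)) .dead .dead) .dead) .dead .dead)) .dead .dead) .dead) .dead .dead) .dead) .dead .dead .dead)) (.kem 0 3 8 1072896) .dead .dead)) .dead .dead .dead)) .dead .dead (.br 23 (.br 24 .dead .dead .dead (.br 25 (.br 26 .dead (.kem 0 3 8 1072896) .dead .dead) .dead .dead .dead)) .dead .dead .dead)) .dead) .dead (.br 22 (.br 23 .dead .dead .dead (.br 24 (.br 25 .dead .dead .dead (.br 26 (.br 27 .dead (.br 28 .dead (.br 29 .dead .dead (.br 30 .dead (.br 31 .dead .dead (.br 32 .dead (.br 33 .dead .dead (.br 34 (.br 35 (.br 36 .dead .dead .dead (.br 37 (.br 38 .dead .dead .dead (.br 44 .dead .dead .dead .dead)) .dead .dead .dead)) .dead .dead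 (.br 36 (.br 37 .dead .dead .dead (.br 38 (.br 44 .dead .dead .dead .dead) .dead .dead .dead)) .dead .dead .dead)) .dead .dead .dead) (.kem 0 2 19 67633152)) .dead .dead) .dead) .dead .dead) .dead) (.br 29 .dead (.br 30 .dead .dead (.br 31 .dead (.br 32 .dead .dead (.br 33 .dead .dead .dead (.br 34 (.br 35 (.br 36 .dead .dead .dead (.br 37 (.br 38 .dead .dead .dead (.br 44 .dead .dead .dead .dead)) .dead .dead .dead)) .dead .dead (.br 36 (.br 37 .dead .dead .dead (.br 38 (.br 44 .dead .dead .dead .dead) .dead .dead .dead)) .dead .dead .dead)) .dead .dead .dead)) .dead) .dead .dead) .dead) .dead .dead) .dead) (.br 28 .dead (.br 29 .dead .dead (.br 30 .dead (.br 31 .dead .dead (.br 32 .dead (.br 33 .dead .dead .dead (.br 34 (.kem 1 2 27 134217728) .dead .dead .dead)) .dead .dead) .dead) .dead .dead) .dead) (.br 29 .dead (.br 30 .dead .dead (.br 31 .dead (.br 32 .dead .dead (.br 33 .dead (.br 34 (.kem 1 3 21 2097152) .dead .dead .dead) .dead (.br 34 (.kem 1 3 21 2097152) (.br 35 (.br 36 .dead .dead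 .dead (.br 37 (.br 38 .dead .dead .dead (.br 44 .dead .dead .dead .dead)) .dead .dead .dead)) .dead .dead (.br 36 (.br 37 .dead .dead .dead (.br 38 (.br 44 .dead .dead .dead .dead) .dead .dead .dead)) .dead .dead .dead)) .dead .dead)) .dead) .dead .dead) .dead) .dead .dead) .dead) .dead) (.kem 0 2 19 524288) .dead .dead)) .dead .dead .dead)) .dead .dead .dead)) .dead) .dead .dead) .dead) .dead .dead) .dead)

def t7A_root : Tree :=
  (.br 7 .dead .dead (.br 8 (.br 9 .dead .dead .dead (.br 10 (.br 11 .dead .dead .dead (.br 12 t7A_2 .dead .dead .dead)) .dead .dead .dead)) .dead .dead (.br 9 (.br 10 .dead .dead .dead (.br 11 (.br 12 .dead .dead .dead (.br 13 .dead (.br 14 (.br 20 .dead .dead .dead t7A_3) (.br 15 .dead .dead (.br 16 .dead (.br 17 .dead .dead (.br 18 .dead (.br 19 (.br 20 .dead .dead .dead (.br 21 (.br 22 .dead .dead .dead (.br 23 (.br 24 .dead .dead .dead (.br 25 .dead .dead (.br 26 .dead (.br 27 .dead .dead (.kem 0 3 8 1580800) .dead) .dead .dead) .dead)) .dead .dead .dead)) .dead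 .dead (.br 22 (.br 23 .dead .dead .dead (.br 24 (.br 25 .dead .dead (.br 26 .dead (.br 27 (.br 28 .dead (.br 29 .dead .dead (.br 30 .dead (.br 31 .dead .dead .dead (.br 32 (.br 34 .dead .dead (.br 33 .dead .dead .dead (.br 35 (.br 36 .dead .dead .dead (.br 41 .dead .dead .dead (.br 48 .dead .dead .dead .dead))) .dead .dead (.br 36 (.br 37 .dead .dead (.br 38 .dead (.br 39 .dead .dead (.br 41 (.br 48 .dead .dead .dead .dead) .dead .dead .dead) .dead) .dead .dead) .dead) .dead .dead .dead))) .dead) .dead .dead .dead)) .dead .dead) .dead) (.br 29 .dead (.br 30 .dead .dead (.br 34 .dead (.br 31 .dead (.br 32 (.br 33 .dead .dead (.kem 0 3 8 167255808) (.br 35 (.br 36 .dead .dead .dead (.br 37 (.br 41 .dead .dead .dead (.br 48 .dead .dead .dead .dead)) .dead .dead .dead)) .dead .dead (.br 36 (.br 37 .dead .dead .dead (.br 38 .dead .dead (.br 39 .dead (.br 41 (.br 48 .dead .dead .dead .dead) .dead .dead .dead) .dead .dead) .dead)) .dead .dead .dead))) .dead .dead (.br 33 .dead .dead (.kem 0 3 8 167255808)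 .dead)) .dead (.br 32 (.br 33 .dead .dead (.br 35 (.br 36 .dead .dead .dead (.br 41 .dead .dead .dead (.br 48 .dead .dead .dead .dead))) .dead .dead (.br 36 (.br 37 .dead (.br 38 .dead .dead (.br 41 (.br 48 .dead .dead .dead .dead) .dead .dead .dead) .dead) .dead .dead) .dead .dead .dead)) (.br 35 (.br 36 .dead .dead .dead (.br 41 .dead .dead .dead (.br 48 .dead .dead .dead .dead))) .dead .dead (.br 36 (.br 37 .dead (.br 38 .dead .dead (.br 39 .dead (.br 41 (.br 48 .dead .dead .dead .dead) .dead .dead .dead) .dead .dead) .dead) .dead .dead) .dead .dead .dead))) .dead .dead .dead)) .dead .dead) .dead) .dead .dead) .dead) .dead (.kem 0 3 8 1580800) .dead) .dead .dead) (.br 26 .dead (.br 27 (.br 28 .dead (.br 29 .dead .dead (.br 30 .dead (.br 31 .dead .dead (.br 32 (.br 34 .dead .dead (.br 33 .dead .dead .dead (.br 35 (.br 36 .dead .dead .dead (.br 37 (.br 41 .dead .dead .dead (.br 48 .dead .dead .dead .dead)) .dead .dead .dead)) .dead .dead (.br 36 (.br 37 .dead .dead .dead (.br 38 .dead (.br 39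 .dead .dead (.br 41 (.br 48 .dead .dead .dead .dead) .dead .dead .dead) .dead) .dead .dead)) .dead .dead .dead))) .dead) .dead .dead .dead) .dead) .dead .dead) .dead) (.br 29 .dead (.br 30 .dead .dead (.br 31 .dead (.br 34 .dead (.br 32 (.kem 2 3 25 33554432) .dead (.br 33 .dead .dead .dead (.br 35 (.br 36 .dead .dead .dead (.br 37 (.br 38 .dead .dead .dead (.br 44 .dead .dead .dead .dead)) .dead .dead .dead)) .dead .dead (.br 36 (.br 37 .dead .dead .dead (.br 38 (.br 44 .dead .dead .dead .dead) .dead .dead .dead)) .dead .dead .dead))) .dead) .dead .dead) .dead .dead) .dead) .dead .dead) .dead) .dead (.kem 0 1 14 16384) .dead) (.br 27 (.br 28 .dead (.br 29 .dead .dead (.br 30 .dead (.br 31 .dead .dead (.br 34 .dead .dead (.br 32 (.br 33 .dead (.br 35 (.br 36 .dead .dead .dead (.br 37 (.br 41 .dead .dead .dead (.br 48 .dead .dead .dead .dead)) .dead .dead .dead)) .dead .dead (.br 36 (.br 37 .dead .dead .dead (.br 38 .dead (.br 41 (.br 48 .dead .dead .dead .dead) .dead .dead .dead) .dead .dead))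 .dead .dead .dead)) .dead (.kem 0 1 14 134234112)) (.br 33 .dead .dead .dead (.kem 0 1 14 134234112)) .dead .dead) .dead) .dead) .dead .dead) .dead) (.br 29 .dead (.br 30 .dead .dead (.br 31 .dead (.br 32 (.br 34 .dead (.br 33 .dead .dead .dead (.kem 1 2 26 67108864)) .dead .dead) .dead .dead .dead) .dead .dead) .dead) .dead .dead) .dead) .dead .dead .dead) .dead)) .dead .dead .dead)) .dead .dead .dead))) .dead (.kem 0 3 8 7936) .dead) .dead .dead) .dead) .dead .dead) .dead) .dead .dead) .dead .dead)) .dead .dead .dead)) .dead .dead .dead)) (.br 8 (.br 9 .dead .dead .dead (.br 10 (.br 11 .dead .dead .dead (.br 12 (.br 13 .dead (.br 14 .dead (.br 15 .dead .dead (.br 16 .dead (.br 17 .dead .dead (.br 18 .dead (.br 19 .dead .dead (.br 20 (.kem 2 3 7 128) .dead .dead .dead) (.br 20 (.kem 2 3 7 128) .dead (.br 21 (.br 22 .dead .dead .dead (.br 23 (.br 24 .dead .dead .dead (.br 27 .dead .dead .dead (.br 25 (.br 26 .dead (.kem 0 2 20 1048576) .dead .dead) .dead (.br 26 (.br 28 .dead (.br 29 .dead .dead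 (.br 30 .dead (.br 31 (.br 34 .dead .dead (.br 33 .dead (.br 32 .dead .dead .dead (.br 35 (.br 36 .dead .dead .dead (.br 37 .dead .dead (.br 43 .dead .dead .dead .dead) .dead)) .dead .dead (.br 36 (.br 41 (.br 48 .dead .dead .dead .dead) .dead .dead .dead) .dead .dead .dead))) .dead .dead) .dead) .dead .dead .dead) .dead .dead) .dead) (.br 29 .dead (.br 30 .dead .dead (.br 34 .dead (.br 33 .dead .dead (.br 31 (.br 32 .dead (.br 35 (.br 36 .dead .dead .dead (.br 37 .dead (.br 41 .dead .dead .dead (.br 48 .dead .dead .dead .dead)) .dead .dead)) .dead .dead (.br 36 (.br 41 (.br 48 .dead .dead .dead .dead) .dead .dead .dead) .dead .dead .dead)) .dead (.br 35 (.br 36 .dead .dead .dead (.br 37 .dead (.br 38 .dead .dead (.br 41 .dead .dead .dead (.br 48 .dead .dead .dead .dead)) .dead) .dead .dead)) .dead .dead (.br 36 (.br 41 (.br 48 .dead .dead .dead .dead) .dead .dead .dead) .dead .dead .dead))) (.br 32 .dead .dead .dead (.br 35 (.br 36 .dead .dead .dead (.br 37 (.br 38 .dead .dead (.br 41 .dead .dead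 .dead (.br 48 .dead .dead .dead .dead)) .dead) .dead .dead .dead)) .dead .dead (.br 36 (.br 37 .dead .dead .dead (.br 41 (.br 48 .dead .dead .dead .dead) .dead .dead .dead)) .dead .dead .dead))) .dead .dead) .dead) .dead .dead) .dead) .dead .dead) .dead) (.kem 0 2 20 1048576) .dead .dead) .dead))) .dead .dead .dead)) .dead .dead (.br 22 (.br 23 .dead .dead .dead (.br 24 (.br 25 .dead .dead (.br 27 (.br 26 .dead (.br 28 .dead (.br 29 .dead .dead (.br 30 .dead (.br 31 .dead .dead .dead (.br 32 (.br 34 .dead .dead (.br 33 .dead .dead .dead (.br 35 (.br 36 .dead .dead .dead (.br 41 .dead .dead .dead (.br 48 .dead .dead .dead .dead))) .dead .dead (.br 36 (.br 37 .dead .dead (.br 38 .dead (.br 39 .dead .dead (.br 41 (.br 48 .dead .dead .dead .dead) .dead .dead .dead) .dead) .dead .dead) .dead) .dead .dead .dead))) .dead) .dead .dead .dead)) .dead .dead) .dead) (.br 29 .dead (.br 30 .dead .dead (.br 34 .dead (.br 31 .dead (.br 32 (.kem 2 3 7 35127424) .dead .dead (.br 33 .dead .dead (.kem 0 3 21 165675008)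 .dead)) .dead (.br 32 (.br 33 .dead .dead (.br 35 (.br 36 .dead .dead .dead (.br 41 .dead .dead .dead (.br 48 .dead .dead .dead .dead))) .dead .dead (.br 36 (.br 37 .dead (.br 38 .dead .dead (.br 41 (.br 48 .dead .dead .dead .dead) .dead .dead .dead) .dead) .dead .dead) .dead .dead .dead)) (.kem 0 2 20 135266304)) .dead .dead .dead)) .dead .dead) .dead) .dead .dead) .dead) .dead .dead) .dead .dead .dead) .dead) .dead .dead .dead)) .dead .dead .dead)) .dead)) .dead .dead) .dead) .dead .dead) .dead) (.br 15 .dead (.br 16 .dead .dead (.br 17 .dead (.br 18 .dead .dead (.br 19 .dead .dead .dead (.br 20 (.br 21 (.br 22 .dead .dead .dead (.br 23 (.br 24 .dead .dead .dead (.br 25 (.br 26 .dead (.br 27 .dead .dead .dead (.kem 1 2 14 507904)) (.br 27 .dead (.kem 2 3 7 16512) .dead (.kem 1 2 14 507904)) .dead) (.br 26 .dead .dead (.br 27 .dead (.kem 2 3 7 16512) .dead (.br 28 .dead (.br 29 .dead .dead (.br 30 .dead (.br 34 .dead .dead (.br 31 (.br 32 .dead .dead .dead (.br 33 (.kem 1 2 14 101171200) (.br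 35 (.br 36 .dead .dead .dead (.br 37 .dead .dead (.br 43 .dead .dead .dead .dead) .dead)) .dead .dead (.br 36 (.br 41 (.br 48 .dead .dead .dead .dead) .dead .dead .dead) .dead .dead .dead)) .dead .dead)) .dead (.br 32 (.br 33 .dead (.br 35 (.br 36 .dead .dead .dead (.br 37 (.br 41 .dead .dead .dead (.br 48 .dead .dead .dead .dead)) .dead .dead .dead)) .dead .dead (.br 36 (.br 37 .dead .dead .dead (.br 38 .dead (.br 41 (.br 48 .dead .dead .dead .dead) .dead .dead .dead) .dead .dead)) .dead .dead .dead)) .dead .dead) .dead .dead (.kem 0 1 25 33554432)) .dead) .dead) .dead .dead) .dead) (.br 29 .dead (.br 30 .dead .dead (.br 31 (.br 32 .dead .dead .dead (.br 34 .dead (.br 33 (.kem 1 2 14 101171200) .dead .dead .dead) .dead .dead)) .dead .dead .dead) .dead) .dead .dead) .dead)) .dead) .dead .dead)) .dead .dead .dead)) .dead .dead (.br 22 (.br 23 .dead .dead .dead (.br 24 (.br 25 .dead (.br 26 .dead .dead (.br 27 .dead (.br 28 .dead (.br 29 .dead .dead (.br 30 .dead (.br 31 .dead .dead (.br 32 (.br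 33 .dead .dead .dead (.br 34 (.kem 2 3 7 2113664) .dead (.kem 0 3 21 31457280) .dead)) .dead .dead (.br 33 (.br 34 .dead .dead (.kem 0 3 21 31457280) .dead) .dead .dead .dead)) (.br 32 (.br 33 .dead .dead .dead (.br 34 (.kem 2 3 7 2113664) .dead (.br 35 (.br 36 .dead .dead .dead (.br 41 .dead .dead .dead (.br 48 .dead .dead .dead .dead))) .dead .dead (.br 36 (.br 37 .dead .dead (.br 38 .dead (.br 39 .dead .dead (.br 41 (.br 48 .dead .dead .dead .dead) .dead .dead .dead) .dead) .dead .dead) .dead) .dead .dead .dead)) .dead)) .dead .dead .dead)) .dead .dead) .dead) (.br 29 .dead (.br 30 .dead .dead (.br 31 .dead .dead .dead (.br 32 (.br 33 .dead .dead .dead (.br 34 (.kem 1 2 14 235388928) .dead .dead .dead)) .dead .dead .dead)) .dead) .dead .dead) .dead) .dead .dead) .dead) .dead .dead) .dead .dead .dead)) .dead .dead .dead)) .dead .dead .dead)) .dead) .dead .dead) .dead) .dead .dead) .dead) .dead .dead) .dead .dead .dead)) .dead .dead .dead)) .dead .dead .dead))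


theorem check7A : check 4 49 7 nbs7 282918438129685 7284969349162 184763061635776 87983484306688 t7A_root 1 42 84 0 = true := by
  decide +kernel

end Pool.Agent.Lib.WSK
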