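import Mathlib
import Pool.Agent.Lib.WSK.Search
import Pool.Agent.Lib.WSK.Graphs
import Pool.Agent.Lib.WSK.SevenBase
set_option autoImplicit false
set_option maxRecDepth 100000

namespace Pool.Agent.Lib.WSK

def t7B_0 : Tree :=
  (.br 22 (.br 23 .dead (.br 24 (.br 25 .dead (.br 26 .dead .dead .dead (.br 28 .dead (.br 34 (.br 33 .dead (.br 29 .dead .dead (.br 30 .dead .dead .dead (.br 31 .dead .dead (.br 32 (.br 35 (.br 36 .dead (.br 37 (.br 42 .dead .dead .dead (.br 43 .dead .dead (.br 44 .dead .dead .dead (.br 38 .dead (.br 45 (.br 46 .dead (.br 47 (.br 48 .dead (.br 39 .dead .dead (.br 40 .dead .dead .dead (.br 41 .dead .dead (.fin [(2,3,30786325577852),(0,3,8934622761025),(1,3,71476971649559),(2,3,17731806568578),(0,3,33300676608),(0,3,1838976),(0,1,562949953421311),(1,2,562949953421311)]) .dead)) (.kem 2 3 39 3848290697216)) .dead .dead) .dead .dead .dead) .dead .dead) .dead .dead .dead) .dead .dead)) .dead)) .dead .dead .dead) .dead .dead) .dead .dead (.br 41 .dead .dead (.br 40 .dead .dead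 .dead (.br 39 .dead .dead (.br 42 .dead (.br 36 (.br 37 .dead (.br 38 .dead .dead .dead (.br 44 (.br 45 .dead (.br 46 (.br 47 .dead (.br 48 (.br 43 .dead .dead (.fin [(2,3,204439552),(1,3,177443495397928),(2,3,178714202409492),(1,3,4262486605824),(0,3,71485708370960),(0,3,17871427092740)]) (.kem 2 3 43 8796093022208)) .dead .dead .dead) .dead .dead) .dead .dead .dead) .dead .dead) .dead .dead .dead)) .dead .dead) .dead .dead .dead) .dead .dead) .dead)) .dead)) .dead .dead .dead) .dead)) (.br 30 .dead .dead (.br 31 .dead .dead .dead (.br 32 (.br 35 (.br 36 .dead (.br 37 (.br 42 .dead .dead .dead (.br 43 .dead .dead (.br 44 .dead .dead .dead (.br 48 .dead (.br 47 (.br 46 .dead (.br 45 (.br 38 .dead (.kem 2 3 29 3758096384) (.br 39 .dead .dead .dead (.kem 1 2 38 274877906944)) .dead) .dead .dead .dead) .dead .dead) .dead .dead .dead) .dead .dead)) .dead)) .dead .dead .dead) .dead .dead) .dead (.br 41 .dead .dead .dead (.br 40 .dead .dead (.br 39 .dead .dead .dead (.br 36 (.br 37 .dead (.br 38 .dead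 .dead (.br 42 .dead (.br 48 (.br 47 .dead (.br 46 (.br 45 .dead (.br 43 .dead .dead (.br 44 (.kem 2 3 29 4161286438912) .dead .dead (.kem 0 3 44 17592186044416)) (.br 44 (.kem 2 3 29 4161286438912) .dead .dead .dead)) .dead .dead) .dead .dead .dead) .dead .dead) .dead .dead .dead) .dead (.br 43 .dead .dead (.br 44 (.br 45 .dead (.br 46 (.br 47 .dead (.br 48 (.kem 1 3 42 4398046511104) .dead .dead .dead) .dead .dead) .dead .dead .dead) .dead .dead) .dead .dead (.br 45 (.br 46 .dead (.br 47 (.br 48 .dead (.fin [(2,3,204439552),(1,3,17731806568450),(1,2,281509606998208),(0,2,8865903284225),(0,1,272678883688448),(0,2,562949953421311),(1,3,562949953421311),(2,3,562949953421311)]) .dead .dead) .dead .dead .dead) .dead .dead) (.kem 0 3 44 17592186044416) .dead .dead)) .dead)) .dead) .dead .dead) (.br 37 (.br 42 .dead .dead .dead (.br 43 .dead .dead (.br 44 .dead .dead .dead (.br 38 .dead (.br 45 (.br 46 .dead (.br 47 (.br 48 .dead (.kem 0 2 35 34359738368) .dead .dead) .dead .dead .dead) .dead .dead)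 .dead .dead .dead) (.kem 0 1 36 206158430208) .dead)) .dead)) .dead .dead .dead) .dead .dead)) .dead)) .dead) .dead (.br 35 (.br 36 .dead (.br 37 (.br 38 .dead (.br 42 .dead .dead .dead (.br 43 .dead .dead (.br 44 .dead .dead .dead (.br 45 (.br 39 .dead .dead .dead (.kem 0 2 32 4294967296)) .dead .dead .dead)) .dead)) .dead .dead) .dead .dead .dead) .dead .dead) .dead (.br 41 .dead .dead .dead (.br 40 .dead .dead (.br 36 (.br 37 .dead (.br 38 (.br 39 .dead .dead .dead (.br 44 .dead .dead .dead (.br 43 .dead .dead (.br 45 .dead (.kem 0 2 32 279172874240) .dead .dead) .dead))) .dead .dead .dead) .dead .dead) (.br 37 (.br 38 .dead (.br 42 .dead .dead .dead (.br 43 .dead .dead (.br 44 .dead .dead .dead (.br 45 (.br 39 .dead .dead .dead (.kem 0 2 32 4294967296)) .dead .dead .dead)) .dead)) .dead .dead) .dead .dead .dead) .dead .dead) .dead)) .dead) .dead)) .dead)) .dead .dead) .dead .dead .dead) (.br 29 .dead .dead .dead (.br 30 .dead .dead (.br 31 .dead .dead .dead (.br 32 (.br 33 .dead (.br 34 (.br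 35 (.br 36 .dead (.br 37 (.br 42 .dead .dead .dead (.br 43 .dead .dead (.br 44 .dead .dead .dead (.br 48 .dead (.br 41 .dead .dead .dead (.kem 1 2 28 268435456)) .dead .dead)) .dead)) .dead .dead .dead) .dead .dead) (.br 36 (.br 37 .dead (.br 38 .dead .dead (.br 39 .dead .dead .dead (.br 40 .dead .dead (.br 41 .dead .dead .dead (.br 42 .dead .dead .dead (.br 43 .dead .dead (.br 48 (.kem 1 2 28 34628173824) .dead .dead .dead) .dead))) .dead)) .dead) .dead .dead) .dead .dead .dead) .dead .dead) .dead .dead .dead) .dead .dead) .dead (.br 33 (.br 34 .dead (.br 35 (.br 36 .dead (.br 37 (.br 38 .dead (.br 39 .dead .dead .dead (.br 40 .dead .dead (.br 41 .dead .dead .dead (.br 42 .dead .dead .dead (.br 43 .dead .dead (.br 44 .dead .dead .dead (.br 45 (.br 46 .dead (.br 47 (.br 48 .dead (.fin [(2,3,3856816635904),(1,3,17871393005570),(0,1,545598285545472),(0,1,30064771072),(1,2,178714202409492),(1,3,4262486605824),(0,1,71485708370960),(0,1,17871427092740),(1,3,562949953421311)]) .dead .dead) .dead .dead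 .dead) .dead .dead) .dead .dead .dead)) .dead))) .dead)) .dead .dead) .dead .dead .dead) .dead .dead) (.br 36 (.br 37 .dead (.br 38 (.br 42 .dead .dead .dead (.br 43 .dead .dead (.br 44 .dead .dead .dead (.br 45 .dead (.br 39 .dead .dead .dead (.br 40 .dead .dead (.br 46 (.br 47 .dead (.br 48 (.br 41 .dead .dead .dead (.kem 0 1 35 528280977408000)) .dead .dead .dead) .dead .dead) .dead .dead .dead) .dead)) .dead .dead)) .dead)) .dead .dead .dead) .dead .dead) .dead .dead .dead) .dead .dead) .dead .dead) (.br 34 (.br 35 (.br 36 .dead (.br 37 (.br 38 .dead (.br 42 .dead .dead .dead (.br 43 .dead .dead (.br 44 .dead .dead .dead (.kem 0 1 33 532155037908992)) .dead)) .dead .dead) .dead .dead .dead) .dead .dead) (.br 36 (.br 37 .dead (.br 38 (.br 39 .dead .dead .dead (.br 40 .dead .dead (.br 41 .dead .dead .dead (.kem 0 1 33 25769803776)) .dead)) .dead .dead .dead) .dead .dead) .dead .dead .dead) .dead .dead) .dead .dead .dead) .dead .dead) .dead)) .dead)) .dead)) .dead .dead) .dead .dead .dead) .dead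 .dead) (.br 23 (.br 24 .dead (.br 25 (.br 26 .dead (.br 28 (.br 34 .dead (.br 29 .dead .dead (.br 30 .dead .dead .dead (.br 31 .dead .dead (.br 32 .dead .dead .dead (.br 33 (.br 35 .dead (.br 36 (.br 37 .dead (.br 38 (.br 42 .dead .dead .dead (.br 43 .dead .dead (.br 44 .dead .dead .dead (.br 45 .dead (.br 39 .dead .dead (.br 40 .dead .dead .dead (.br 41 .dead .dead (.kem 0 3 21 270532608) .dead)) .dead) .dead .dead)) .dead)) .dead .dead .dead) .dead .dead) .dead .dead .dead) .dead (.br 41 .dead .dead (.br 40 .dead .dead .dead (.br 42 .dead (.br 36 (.br 37 .dead (.br 38 (.br 44 .dead .dead .dead (.br 43 .dead .dead (.br 45 .dead (.br 39 .dead .dead (.br 46 (.br 47 .dead (.br 48 (.kem 1 3 35 4432406249472) .dead .dead .dead) .dead .dead) .dead .dead .dead) .dead) .dead .dead) .dead)) .dead .dead .dead) .dead .dead) .dead .dead .dead) .dead .dead)) .dead)) .dead .dead .dead)) .dead)) (.br 30 .dead .dead (.br 31 .dead .dead .dead (.br 32 .dead .dead (.br 33 (.br 35 .dead (.br 36 (.br 37 .dead (.br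 38 (.br 42 .dead .dead .dead (.br 43 .dead .dead (.br 44 .dead .dead .dead (.br 45 .dead (.br 39 .dead .dead .dead (.br 40 .dead .dead (.br 41 .dead .dead .dead (.br 46 (.br 47 .dead (.br 48 (.kem 2 3 29 3856343760896) .dead .dead .dead) .dead .dead) .dead .dead .dead)) .dead)) .dead .dead)) .dead)) .dead .dead .dead) .dead .dead) .dead .dead .dead) (.br 41 .dead .dead .dead (.br 40 .dead .dead (.br 36 (.br 37 .dead (.br 38 (.br 44 .dead .dead .dead (.br 43 .dead .dead (.br 45 .dead (.br 39 .dead .dead .dead (.br 46 (.br 47 .dead (.br 48 (.br 42 .dead (.kem 2 3 29 3890703499264) .dead (.kem 1 2 35 34359738368)) .dead .dead .dead) .dead .dead) .dead .dead .dead)) .dead .dead) .dead)) .dead .dead .dead) .dead .dead) (.br 37 (.br 38 .dead (.br 39 .dead .dead .dead (.br 42 .dead .dead .dead (.br 43 .dead .dead (.br 44 .dead .dead .dead (.kem 0 1 36 528246617669632)) .dead))) .dead .dead) .dead .dead .dead) .dead .dead) .dead)) .dead) .dead .dead (.br 35 .dead (.br 36 (.br 37 .dead (.br 38 (.br 39 .dead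 (.br 45 .dead .dead .dead .dead) .dead .dead) .dead .dead .dead) .dead .dead) .dead .dead .dead) (.br 41 .dead .dead .dead (.br 36 (.br 37 .dead (.br 38 (.br 39 .dead (.br 45 .dead .dead .dead .dead) .dead .dead) .dead .dead .dead) .dead .dead) (.br 37 (.br 38 .dead (.br 39 (.br 45 .dead .dead .dead .dead) .dead .dead .dead) .dead .dead) .dead .dead .dead) .dead .dead)) .dead)) .dead)) .dead)) .dead .dead) .dead (.br 29 .dead .dead .dead (.br 30 .dead .dead (.br 31 .dead .dead .dead (.br 32 .dead .dead (.br 33 (.br 34 .dead (.kem 0 3 21 2097152) .dead .dead) .dead .dead (.br 34 (.br 35 (.br 36 .dead (.br 37 (.br 38 .dead (.br 39 (.br 45 .dead .dead .dead .dead) .dead .dead .dead) .dead .dead) .dead .dead .dead) .dead .dead) (.br 36 (.br 37 .dead (.br 38 (.br 39 .dead (.br 45 .dead .dead .dead .dead) .dead .dead) .dead .dead .dead) .dead .dead) .dead .dead .dead) .dead .dead) (.kem 0 3 21 2097152) .dead .dead)) .dead)) .dead)) .dead) .dead (.br 28 (.br 34 .dead (.br 33 (.br 29 .dead .dead (.br 30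 .dead .dead .dead (.br 31 .dead .dead (.br 32 .dead (.br 35 .dead (.br 36 (.br 37 .dead (.br 42 .dead .dead .dead (.br 43 .dead .dead (.br 48 (.br 47 .dead (.br 46 (.br 45 .dead (.br 38 (.br 44 .dead .dead .dead (.kem 0 1 22 532159664226304)) .dead .dead (.br 39 .dead .dead (.kem 0 3 38 17867063951360) .dead)) .dead .dead) .dead .dead .dead) .dead .dead) .dead .dead .dead) .dead)) .dead .dead) .dead .dead .dead) .dead (.br 41 .dead .dead (.br 40 .dead .dead .dead (.br 39 .dead .dead (.br 42 .dead (.br 36 (.br 37 .dead (.br 48 (.br 47 .dead (.br 46 (.br 45 .dead (.br 38 (.kem 1 3 26 4362076160) .dead .dead (.kem 0 1 22 30396121088)) .dead .dead) .dead .dead .dead) .dead .dead) .dead .dead .dead) .dead .dead) .dead .dead .dead) .dead .dead) .dead)) .dead)) .dead .dead) .dead)) (.br 30 .dead .dead (.br 31 .dead .dead .dead (.br 32 .dead (.br 35 .dead (.br 36 (.br 37 .dead (.br 42 .dead .dead .dead (.br 43 .dead .dead (.br 48 (.br 47 .dead (.br 46 (.br 45 .dead (.br 38 (.kem 2 3 29 3758096384) .dead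 (.br 39 .dead .dead .dead (.br 40 .dead .dead (.br 41 .dead .dead .dead (.br 44 (.kem 2 3 29 4126926700544) .dead .dead (.kem 0 1 22 528036495622144))) .dead)) .dead) .dead .dead) .dead .dead .dead) .dead .dead) .dead .dead .dead) .dead)) .dead .dead) .dead .dead .dead) (.br 41 .dead .dead .dead (.br 40 .dead .dead (.br 39 .dead .dead .dead (.br 36 (.br 37 .dead (.br 38 (.br 44 .dead .dead .dead (.br 43 .dead .dead (.br 45 .dead (.br 46 (.br 47 .dead (.br 48 (.br 42 .dead (.kem 2 3 29 3886408531968) .dead (.kem 0 1 22 528277013790720)) .dead .dead .dead) .dead .dead) .dead .dead .dead) .dead .dead) .dead)) .dead (.kem 0 1 22 30396121088) .dead) .dead .dead) (.br 37 (.br 38 .dead .dead (.kem 0 1 22 30396121088) .dead) .dead .dead .dead) .dead .dead)) .dead)) .dead) (.kem 1 3 26 67108864) .dead)) .dead)) .dead .dead .dead) .dead .dead) .dead (.br 29 .dead .dead .dead (.br 30 .dead .dead (.br 31 .dead .dead .dead (.br 32 .dead (.br 33 (.br 34 .dead (.kem 0 3 21 2097152) .dead .dead) .dead .dead .dead)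 (.kem 0 1 22 62914560) .dead)) .dead)) .dead)) .dead .dead .dead) .dead .dead) .dead .dead .dead) .dead .dead)

def t7B_1 : Tree :=
  (.br 20 (.br 21 (.br 22 .dead (.br 23 (.br 24 .dead (.br 25 (.br 26 .dead (.br 27 .dead .dead (.br 28 .dead .dead (.br 29 .dead .dead .dead (.br 30 .dead .dead (.br 31 .dead .dead .dead (.br 32 .dead .dead (.br 33 (.br 34 .dead (.br 35 (.br 36 .dead (.br 37 (.br 38 .dead (.br 39 .dead .dead .dead (.br 40 .dead .dead (.br 41 .dead .dead .dead (.br 42 .dead .dead .dead (.br 43 .dead .dead (.br 44 .dead .dead .dead (.br 45 (.br 46 .dead (.br 47 (.br 48 .dead (.fin [(2,3,3856612196352),(2,3,30786325577852),(0,3,150784532878417),(1,3,15879),(2,3,17731806568578),(0,3,141853116402576),(1,3,71485708370960),(0,1,562949953421311),(1,2,562949953421311)]) .dead .dead) .dead .dead .dead) .dead .dead) .dead .dead .dead)) .dead))) .dead)) .dead .dead) .dead .dead .dead) .dead .dead) (.br 36 (.br 37 .dead (.br 38 (.br 42 .dead .dead .dead (.br 43 .dead .dead (.br 44 .dead .dead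 .dead (.br 45 .dead (.br 39 .dead .dead .dead (.br 40 .dead .dead (.br 46 (.br 47 .dead (.br 48 (.br 41 .dead .dead .dead (.kem 0 1 35 528280977408000)) .dead .dead .dead) .dead .dead) .dead .dead .dead) .dead)) .dead .dead)) .dead)) .dead .dead .dead) .dead .dead) .dead .dead .dead) .dead .dead) .dead (.br 35 (.br 36 .dead (.br 37 (.br 38 .dead (.br 39 .dead .dead .dead (.br 41 .dead (.br 48 .dead .dead .dead .dead) .dead .dead)) .dead .dead) .dead .dead .dead) .dead .dead) (.br 36 (.br 37 .dead (.br 38 (.br 41 (.br 48 .dead .dead .dead .dead) .dead .dead .dead) .dead .dead .dead) .dead .dead) .dead .dead .dead) .dead .dead)) .dead .dead (.br 34 .dead (.br 35 (.br 36 .dead (.br 37 (.br 38 .dead (.br 39 (.br 45 .dead .dead .dead .dead) .dead .dead .dead) .dead .dead) .dead .dead .dead) .dead .dead) (.br 36 (.br 37 .dead (.br 38 (.br 39 .dead (.br 45 .dead .dead .dead .dead) .dead .dead) .dead .dead .dead) .dead .dead) .dead .dead .dead) .dead .dead) .dead .dead)) .dead)) .dead)) (.br 29 .dead .dead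 (.br 30 .dead .dead .dead (.br 31 .dead .dead (.br 32 .dead .dead .dead (.br 33 (.br 34 .dead (.br 35 (.br 36 .dead (.br 37 (.br 38 .dead (.br 39 .dead .dead (.br 40 .dead .dead .dead (.br 41 .dead .dead (.br 42 .dead .dead .dead (.br 43 .dead .dead (.br 44 .dead .dead .dead (.br 45 (.br 46 .dead (.br 47 (.br 48 .dead (.kem 2 3 28 3856612196352) .dead .dead) .dead .dead .dead) .dead .dead) .dead .dead .dead)) .dead)) .dead)) .dead) .dead .dead) .dead .dead .dead) .dead .dead) (.br 36 (.br 37 .dead (.br 38 (.br 42 .dead .dead .dead (.br 43 .dead .dead (.br 44 .dead .dead .dead (.br 45 .dead (.br 39 .dead .dead (.br 40 .dead .dead .dead (.br 46 (.br 47 .dead (.br 48 (.kem 2 3 28 3856612196352) .dead .dead .dead) .dead .dead) .dead .dead .dead)) .dead) .dead .dead)) .dead)) .dead .dead .dead) .dead .dead) .dead .dead .dead) .dead .dead) .dead .dead) .dead .dead .dead)) .dead)) .dead)) (.br 28 .dead .dead (.br 29 .dead .dead .dead (.br 30 .dead .dead (.br 31 .dead .dead .dead (.br 32 .dead .dead (.br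 33 (.br 34 .dead (.kem 2 3 27 134217728) .dead .dead) .dead .dead .dead) .dead)) .dead)) (.br 29 .dead .dead (.br 30 .dead .dead .dead (.br 31 .dead .dead (.br 32 .dead .dead .dead (.br 33 (.br 34 .dead (.kem 2 3 27 134217728) (.br 35 (.br 36 .dead (.br 37 (.br 38 .dead (.br 39 .dead .dead (.br 41 .dead (.br 48 .dead .dead .dead .dead) .dead .dead) .dead) .dead .dead) .dead .dead .dead) .dead .dead) (.br 36 (.br 37 .dead (.br 38 (.br 41 (.br 48 .dead .dead .dead .dead) .dead .dead .dead) .dead .dead .dead) .dead .dead) .dead .dead .dead) .dead .dead) .dead) .dead (.br 34 .dead (.br 35 (.br 36 .dead (.br 37 (.br 38 .dead (.br 39 (.br 45 .dead .dead .dead .dead) .dead .dead .dead) .dead .dead) .dead .dead .dead) .dead .dead) (.br 36 (.br 37 .dead (.br 38 (.br 39 .dead (.br 45 .dead .dead .dead .dead) .dead .dead) .dead .dead .dead) .dead .dead) .dead .dead .dead) .dead .dead) .dead .dead) .dead)) .dead)) .dead))) .dead (.br 27 .dead .dead (.br 28 .dead .dead (.br 29 .dead .dead .dead (.br 30 .dead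 .dead (.br 31 .dead .dead .dead (.br 32 .dead (.br 33 (.br 34 .dead (.br 35 (.br 36 .dead (.br 37 (.br 38 .dead .dead (.br 39 .dead .dead .dead (.br 40 .dead .dead (.br 41 .dead .dead .dead (.br 42 .dead .dead .dead (.br 43 .dead .dead (.br 44 .dead .dead .dead (.br 48 .dead (.br 47 (.br 46 .dead (.br 45 (.fin [(2,3,34913520713852),(1,3,279239983104),(0,3,150784532878417),(1,3,15879),(2,3,17731806568578),(0,3,141853116402576),(1,3,71485708370960),(0,1,562949953421311),(1,2,562949953421311)]) .dead .dead .dead) .dead .dead) .dead .dead .dead) .dead .dead)) .dead))) .dead)) .dead) .dead .dead .dead) .dead .dead) (.br 36 (.br 37 .dead (.br 42 .dead .dead .dead (.br 43 .dead .dead (.br 48 (.br 41 .dead .dead .dead (.br 40 .dead .dead (.br 39 .dead .dead .dead (.br 47 .dead (.br 46 (.br 45 .dead (.br 38 (.br 44 .dead .dead .dead (.fin [(1,3,16384),(2,3,202358912),(0,1,1064707),(1,2,8934622761025),(0,2,481036337152),(0,3,17731806568578),(0,1,554188220137536),(1,2,281474976710656),(0,2,562949953421311),(1,3,562949953421311)]))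 .dead (.br 44 (.fin [(1,3,16384),(2,3,202358912),(0,1,545598286610179),(0,3,139620524162),(0,2,8796093022208),(1,2,281544786972737),(0,1,64),(0,2,562949953421311),(1,3,562949953421311)]) .dead .dead (.kem 0 1 35 528006099501056)) .dead) .dead .dead) .dead .dead .dead) .dead .dead)) .dead)) .dead .dead .dead) .dead)) .dead .dead) .dead .dead .dead) .dead .dead) .dead (.br 35 (.br 36 .dead (.br 37 (.br 38 .dead .dead (.br 39 .dead .dead .dead (.br 41 .dead (.br 48 .dead .dead .dead .dead) .dead .dead)) .dead) .dead .dead .dead) .dead .dead) (.br 36 (.br 37 .dead (.br 41 (.br 48 .dead .dead .dead .dead) .dead .dead .dead) .dead .dead) .dead .dead .dead) .dead .dead)) .dead .dead .dead) (.br 33 (.kem 1 3 26 67108864) (.br 34 .dead .dead .dead (.br 35 (.br 36 .dead (.br 37 (.br 38 .dead (.br 41 .dead (.br 48 .dead .dead .dead .dead) .dead .dead) .dead .dead) .dead .dead .dead) .dead .dead) (.br 36 (.br 37 .dead (.br 38 (.br 39 .dead .dead .dead (.br 41 (.br 48 .dead .dead .dead .dead) .dead .dead .dead))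 .dead .dead .dead) .dead .dead) .dead .dead .dead) .dead .dead)) .dead .dead) .dead)) .dead)) (.br 29 .dead .dead (.br 30 .dead .dead .dead (.br 31 .dead .dead (.br 32 .dead (.br 33 (.br 34 .dead (.br 35 (.br 36 .dead (.br 37 (.br 38 .dead .dead .dead (.br 44 .dead .dead .dead .dead)) .dead .dead .dead) .dead .dead) (.br 36 (.br 37 .dead (.br 42 .dead .dead .dead (.br 43 .dead .dead (.br 48 (.br 41 .dead .dead (.br 40 .dead .dead .dead (.br 39 .dead .dead (.br 47 .dead (.br 46 (.br 45 .dead (.br 38 (.kem 1 3 26 4362076160) .dead .dead (.kem 0 3 38 17867063951360)) .dead .dead) .dead .dead .dead) .dead .dead) .dead)) .dead) .dead .dead .dead) .dead)) .dead .dead) .dead .dead .dead) .dead .dead) .dead .dead) .dead .dead .dead) .dead .dead) .dead)) .dead)) .dead)) .dead .dead .dead) .dead .dead) .dead .dead .dead) .dead .dead) .dead .dead (.br 27 .dead .dead t7B_0 .dead)) .dead .dead (.br 21 (.br 22 .dead (.br 23 (.br 24 .dead (.br 25 (.br 26 .dead (.br 27 .dead .dead (.kem 0 3 20 1048576) .dead)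 .dead .dead) .dead .dead .dead) .dead .dead) .dead .dead .dead) .dead .dead) .dead .dead (.br 22 (.br 23 .dead (.br 24 (.br 25 .dead (.br 26 (.br 27 .dead .dead (.br 28 .dead (.br 34 (.br 29 .dead .dead (.br 30 .dead .dead .dead (.br 31 .dead .dead (.br 32 .dead .dead .dead (.br 33 .dead (.br 35 (.br 36 .dead (.br 37 (.br 38 .dead (.br 42 .dead .dead .dead (.br 43 .dead .dead (.br 44 .dead .dead .dead (.br 45 (.br 39 .dead .dead (.kem 0 3 20 4363124736) .dead) .dead .dead .dead)) .dead)) .dead .dead) .dead .dead .dead) .dead .dead) .dead .dead (.br 41 .dead .dead (.br 40 .dead .dead .dead (.br 42 .dead (.br 36 (.br 37 .dead (.br 38 (.br 39 .dead .dead (.br 44 .dead .dead .dead (.br 43 .dead .dead (.br 45 .dead (.kem 0 3 20 17871427076096) .dead .dead) .dead)) .dead) .dead .dead .dead) .dead .dead) .dead .dead .dead) .dead .dead)) .dead)) .dead .dead)) .dead)) (.br 30 .dead .dead (.br 31 .dead .dead .dead (.br 32 .dead .dead (.br 33 .dead (.kem 0 3 20 68157440) .dead (.br 35 (.br 36 .dead (.br 37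 (.br 38 .dead (.br 39 (.br 45 .dead .dead .dead .dead) .dead .dead .dead) .dead .dead) .dead .dead .dead) .dead .dead) .dead (.br 41 .dead .dead .dead (.br 36 (.br 37 .dead (.br 38 (.br 39 .dead (.br 45 .dead .dead .dead .dead) .dead .dead) .dead .dead .dead) .dead .dead) (.br 37 (.br 38 .dead (.br 39 (.br 45 .dead .dead .dead .dead) .dead .dead .dead) .dead .dead) .dead .dead .dead) .dead .dead)) .dead)) .dead)) .dead)) .dead .dead .dead) (.br 29 .dead .dead .dead (.br 30 .dead .dead (.br 31 .dead .dead .dead (.br 32 .dead .dead (.br 33 .dead (.kem 0 3 20 68157440) .dead (.br 34 (.br 35 (.br 36 .dead (.br 37 (.br 38 .dead (.br 39 (.br 45 .dead .dead .dead .dead) .dead .dead .dead) .dead .dead) .dead .dead .dead) .dead .dead) (.br 36 (.br 37 .dead (.br 38 (.br 39 .dead (.br 45 .dead .dead .dead .dead) .dead .dead) .dead .dead .dead) .dead .dead) .dead .dead .dead) .dead .dead) (.br 35 (.br 36 .dead (.br 37 (.br 38 .dead (.br 39 (.br 45 .dead .dead .dead .dead) .dead .dead .dead) .dead .dead) .dead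 .dead .dead) .dead .dead) (.br 36 (.br 37 .dead (.br 38 (.br 39 .dead (.br 45 .dead .dead .dead .dead) .dead .dead) .dead .dead .dead) .dead .dead) .dead .dead .dead) .dead .dead) .dead .dead)) .dead)) .dead)) .dead) .dead) .dead .dead .dead) .dead .dead) .dead .dead .dead) .dead .dead) (.br 23 (.br 24 .dead (.br 25 (.br 26 .dead (.br 27 (.br 28 (.br 29 .dead .dead (.br 30 .dead .dead .dead (.br 31 .dead .dead (.br 32 .dead .dead .dead (.br 33 .dead .dead (.br 34 .dead (.br 35 .dead (.br 36 (.br 37 .dead (.br 38 (.br 39 .dead (.br 45 .dead .dead .dead .dead) .dead .dead) .dead .dead .dead) .dead .dead) .dead .dead .dead) .dead (.br 41 .dead .dead (.br 42 .dead (.br 36 (.br 37 .dead (.br 38 (.br 39 .dead (.br 45 .dead .dead .dead .dead) .dead .dead) .dead .dead .dead) .dead .dead) .dead .dead .dead) .dead .dead) .dead)) .dead .dead) .dead)) .dead)) (.br 30 .dead .dead (.br 31 .dead .dead .dead (.br 32 .dead .dead (.br 33 .dead .dead .dead (.br 34 .dead (.br 35 .dead (.br 36 (.br 37 .dead (.br 38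 (.br 39 .dead (.br 45 .dead .dead .dead .dead) .dead .dead) .dead .dead .dead) .dead .dead) .dead .dead .dead) (.br 41 .dead .dead .dead (.br 36 (.br 37 .dead (.br 38 (.br 39 .dead (.br 45 .dead .dead .dead .dead) .dead .dead) .dead .dead .dead) .dead .dead) (.br 37 (.br 38 .dead (.br 39 (.br 45 .dead .dead .dead .dead) .dead .dead .dead) .dead .dead) .dead .dead .dead) .dead .dead)) .dead) (.br 35 .dead (.br 36 (.br 37 .dead (.br 38 (.br 39 .dead (.br 45 .dead .dead .dead .dead) .dead .dead) .dead .dead .dead) .dead .dead) .dead .dead .dead) (.br 36 (.br 37 .dead (.br 38 (.br 39 .dead (.br 45 .dead .dead .dead .dead) .dead .dead) .dead .dead .dead) .dead .dead) (.br 37 (.br 38 .dead (.br 39 (.br 45 .dead .dead .dead .dead) .dead .dead .dead) .dead .dead) .dead .dead .dead) .dead .dead) .dead) .dead)) .dead)) .dead)) .dead (.br 29 .dead .dead .dead (.br 30 .dead .dead (.br 31 .dead .dead .dead (.br 32 .dead .dead (.br 33 .dead .dead .dead (.br 34 .dead (.br 35 (.br 36 .dead (.br 37 (.br 38 .dead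 (.br 39 (.br 45 .dead .dead .dead .dead) .dead .dead .dead) .dead .dead) .dead .dead .dead) .dead .dead) (.br 36 (.br 37 .dead (.br 38 (.br 39 .dead (.br 45 .dead .dead .dead .dead) .dead .dead) .dead .dead .dead) .dead .dead) .dead .dead .dead) .dead .dead) .dead .dead)) .dead)) .dead)) .dead) .dead (.kem 0 3 20 1048576) .dead) .dead .dead) .dead .dead .dead) .dead .dead) .dead .dead .dead) .dead .dead)))

def t7B_2 : Tree :=
  (.br 22 (.br 23 .dead (.br 24 (.br 25 .dead .dead (.br 28 .dead (.br 34 (.br 33 .dead (.br 32 (.br 29 .dead .dead (.br 30 .dead .dead .dead (.br 31 .dead (.br 35 (.br 36 .dead (.br 42 .dead .dead .dead (.br 43 .dead .dead (.br 37 (.br 44 .dead .dead .dead (.br 38 .dead .dead (.br 39 .dead .dead .dead (.br 40 .dead .dead (.br 41 .dead .dead .dead (.br 48 .dead (.br 47 (.br 46 .dead (.br 45 (.fin [(2,3,237469696),(1,2,71476913637392),(0,3,4227328),(0,1,423576479258128),(1,2,9238478429382),(2,3,17731239837954),(0,2,266240),(0,1,432220077054161),(0,1,562949953421311),(1,3,562949953421311),(2,3,562949953421311)])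 .dead .dead .dead) .dead .dead) .dead .dead .dead) .dead .dead)) .dead)) .dead)) .dead .dead .dead) .dead)) .dead .dead) .dead .dead (.br 41 .dead .dead (.br 40 .dead .dead .dead (.br 39 .dead .dead (.br 38 .dead .dead .dead (.br 42 .dead (.br 36 (.br 37 .dead .dead (.br 43 .dead .dead .dead (.br 44 (.br 45 .dead (.br 46 (.br 47 .dead (.br 48 (.fin [(2,3,8444),(1,2,2),(1,3,13228769820864),(0,3,285942833483777),(0,2,4398046511104),(0,3,562949953421311),(1,2,562949953421311)]) .dead .dead .dead) .dead .dead) .dead .dead .dead) .dead .dead) .dead .dead .dead)) .dead) .dead .dead .dead) .dead .dead)) .dead)) .dead)) .dead .dead)) (.br 30 .dead .dead (.br 31 .dead (.br 35 (.br 36 .dead (.br 42 .dead .dead .dead (.br 43 .dead .dead (.br 48 .dead (.br 47 (.br 46 .dead (.br 45 (.br 44 .dead .dead .dead (.br 37 (.kem 2 3 29 1610612736) .dead .dead .dead)) .dead .dead .dead) .dead .dead) .dead .dead .dead) .dead .dead) .dead)) .dead .dead) .dead (.br 41 .dead .dead .dead (.br 40 .dead .dead (.br 39 .dead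 .dead .dead (.br 38 .dead .dead (.br 36 (.br 37 .dead .dead .dead (.br 43 .dead .dead (.br 44 (.br 45 .dead (.br 46 (.br 47 .dead (.br 48 (.br 42 .dead (.kem 2 3 29 13092670930944) .dead (.kem 1 3 42 4398046511104)) .dead .dead .dead) .dead .dead) .dead .dead .dead) .dead .dead) .dead .dead .dead) .dead)) (.br 42 .dead .dead .dead (.br 43 .dead .dead (.br 37 (.br 44 .dead .dead .dead (.br 45 (.br 46 .dead (.br 47 (.br 48 .dead (.kem 0 2 35 34359738368) .dead .dead) .dead .dead .dead) .dead .dead) (.kem 0 1 45 527765581332480) .dead .dead)) .dead .dead (.kem 0 1 36 68719476736)) .dead)) .dead .dead) .dead)) .dead)) .dead) .dead (.br 35 (.br 36 .dead (.br 37 (.br 42 .dead .dead .dead (.br 43 .dead .dead (.br 44 .dead .dead .dead (.br 48 .dead (.br 47 (.br 46 .dead (.br 45 (.br 38 .dead (.br 39 .dead .dead (.br 40 .dead .dead .dead (.br 41 .dead .dead (.fin [(2,3,3995566080),(1,3,268435456),(1,3,17867063951362),(0,1,545598285545472),(1,2,178714202409492),(1,3,4262486605824),(0,1,71485708370960),(0,1,17871427092740),(1,3,562949953421311)])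 .dead)) (.kem 2 3 39 3848290697216)) (.kem 1 3 31 2147483648) .dead) .dead .dead .dead) .dead .dead) .dead .dead .dead) .dead .dead)) .dead)) .dead .dead .dead) .dead .dead) .dead (.br 41 .dead .dead .dead (.br 40 .dead .dead (.br 39 .dead .dead .dead (.br 36 (.br 37 .dead (.br 38 .dead .dead (.br 42 .dead (.br 48 (.br 47 .dead (.br 46 (.br 45 .dead (.br 43 .dead .dead (.br 44 (.kem 1 3 31 139586437120) .dead .dead (.kem 0 3 44 17592186044416)) (.br 44 (.kem 2 3 43 8796093022208) .dead .dead .dead)) .dead .dead) .dead .dead .dead) .dead .dead) .dead .dead .dead) .dead (.br 43 .dead .dead (.br 44 (.kem 1 3 31 139586437120) .dead .dead (.br 45 (.br 46 .dead (.br 47 (.br 48 .dead (.fin [(1,3,17731772481538),(2,3,17490717450494),(1,3,281509606998208),(0,3,8865903284225),(0,1,272678883688448),(0,3,562949953421311),(1,2,562949953421311)]) .dead .dead) .dead .dead .dead) .dead .dead) (.kem 0 3 44 17592186044416) .dead .dead)) .dead)) .dead) .dead .dead) (.br 37 (.br 42 .dead .dead .dead (.br 43 .dead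 .dead (.br 44 .dead .dead .dead (.br 38 .dead (.br 45 (.br 46 .dead (.br 47 (.br 48 .dead (.kem 0 2 35 34359738368) .dead .dead) .dead .dead .dead) .dead .dead) .dead .dead .dead) (.kem 1 3 31 2147483648) .dead)) .dead)) .dead .dead .dead) .dead .dead)) .dead)) .dead)) .dead)) .dead .dead .dead) .dead .dead) .dead .dead .dead) (.br 29 .dead .dead .dead (.br 30 .dead .dead (.br 31 .dead (.br 32 (.br 33 .dead (.br 34 (.br 35 (.br 36 .dead (.br 42 .dead .dead .dead (.br 43 .dead .dead (.br 48 .dead (.br 41 .dead .dead .dead (.kem 1 2 28 268435456)) .dead .dead) .dead)) .dead .dead) (.br 36 (.br 37 .dead .dead .dead (.br 38 .dead .dead (.br 39 .dead .dead .dead (.br 40 .dead .dead (.br 41 .dead .dead .dead (.br 42 .dead .dead .dead (.br 43 .dead .dead (.br 44 (.br 45 .dead (.br 46 (.br 47 .dead (.br 48 (.kem 1 2 28 34628173824) .dead .dead .dead) .dead .dead) .dead .dead .dead) .dead .dead) .dead .dead .dead) .dead))) .dead)) .dead)) .dead .dead .dead) .dead .dead) .dead .dead .dead) .dead .dead) .dead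 .dead .dead) .dead (.br 32 (.br 33 .dead (.br 34 (.br 35 (.br 36 .dead (.br 37 (.br 42 .dead .dead .dead (.br 43 .dead .dead (.br 44 .dead .dead .dead (.br 48 .dead (.br 41 .dead .dead .dead (.kem 1 2 28 268435456)) .dead .dead)) .dead)) .dead .dead .dead) .dead .dead) (.br 36 (.br 37 .dead (.br 38 .dead .dead (.br 39 .dead .dead .dead (.br 40 .dead .dead (.br 41 .dead .dead .dead (.br 42 .dead .dead .dead (.br 43 .dead .dead (.br 48 (.kem 1 2 28 34628173824) .dead .dead .dead) .dead))) .dead)) .dead) .dead .dead) .dead .dead .dead) .dead .dead) .dead .dead .dead) .dead .dead) (.br 33 (.br 34 .dead (.br 35 (.br 36 .dead (.br 37 (.br 38 .dead .dead (.br 39 .dead .dead .dead (.br 40 .dead .dead (.br 41 .dead .dead .dead (.kem 0 1 32 30064771072)) .dead)) .dead) .dead .dead .dead) .dead .dead) (.br 36 (.br 37 .dead (.br 42 .dead .dead .dead (.br 43 .dead .dead (.br 48 (.br 41 .dead .dead .dead (.br 40 .dead .dead (.br 39 .dead .dead .dead (.br 47 .dead (.br 46 (.br 45 .dead (.br 38 (.br 44 .dead .dead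 .dead (.kem 0 1 32 528311042179072)) .dead (.kem 0 1 32 30064771072) .dead) .dead .dead) .dead .dead .dead) .dead .dead)) .dead)) .dead .dead .dead) .dead)) .dead .dead) .dead .dead .dead) .dead .dead) .dead .dead) .dead .dead .dead) .dead .dead)) .dead)) .dead) .dead) .dead .dead .dead) .dead .dead) (.br 23 (.br 24 .dead (.br 25 (.br 28 (.br 34 .dead (.br 33 (.br 29 .dead .dead (.br 30 .dead .dead .dead (.br 31 .dead .dead (.br 32 .dead (.br 35 .dead (.br 36 (.br 37 .dead (.br 42 .dead .dead .dead (.br 43 .dead .dead (.br 48 (.br 47 .dead (.br 46 (.br 45 .dead (.br 38 (.br 44 .dead .dead .dead (.br 39 .dead .dead (.br 40 .dead .dead .dead (.br 41 .dead .dead (.kem 0 3 21 270532608) .dead)) (.kem 2 3 39 3848290697216))) .dead .dead (.br 39 .dead .dead (.kem 0 3 38 17867063951360) .dead)) .dead .dead) .dead .dead .dead) .dead .dead) .dead .dead .dead) .dead)) .dead .dead) .dead .dead .dead) .dead (.br 41 .dead .dead (.br 40 .dead .dead .dead (.br 39 .dead .dead (.br 42 .dead (.br 36 (.br 37 .dead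 (.br 48 (.br 47 .dead (.br 46 (.br 45 .dead (.br 38 (.br 44 .dead .dead .dead (.br 43 .dead .dead (.kem 1 3 35 4432406249472) .dead)) .dead .dead (.br 44 (.br 43 .dead .dead (.kem 1 3 35 4432406249472) (.kem 2 3 43 8796093022208)) .dead .dead .dead)) .dead .dead) .dead .dead .dead) .dead .dead) .dead .dead .dead) .dead .dead) .dead .dead .dead) .dead .dead) .dead)) .dead)) .dead .dead) .dead)) (.br 30 .dead .dead (.br 31 .dead .dead .dead (.br 32 .dead (.br 35 .dead (.br 36 (.br 37 .dead (.br 42 .dead .dead .dead (.br 43 .dead .dead (.br 48 (.br 47 .dead (.br 46 (.br 45 .dead (.br 38 (.kem 2 3 29 3758096384) .dead (.br 39 .dead .dead .dead (.br 40 .dead .dead (.br 41 .dead .dead .dead (.br 44 (.kem 2 3 29 4126926700544) .dead .dead (.kem 0 2 38 274877906944))) .dead)) .dead) .dead .dead) .dead .dead .dead) .dead .dead) .dead .dead .dead) .dead)) .dead .dead) .dead .dead .dead) (.br 41 .dead .dead .dead (.br 40 .dead .dead (.br 39 .dead .dead .dead (.br 36 (.br 37 .dead (.br 38 (.br 44 .dead .dead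 .dead (.br 43 .dead .dead (.br 45 .dead (.br 46 (.br 47 .dead (.br 48 (.br 42 .dead (.kem 2 3 29 3886408531968) .dead (.kem 1 2 35 34359738368)) .dead .dead .dead) .dead .dead) .dead .dead .dead) .dead .dead) .dead)) .dead (.br 42 .dead (.br 48 (.br 47 .dead (.br 46 (.br 45 .dead (.br 43 .dead .dead (.br 44 (.kem 2 3 29 4161286438912) .dead .dead (.kem 0 2 38 274877906944)) (.br 44 (.kem 2 3 29 4161286438912) .dead .dead .dead)) .dead .dead) .dead .dead .dead) .dead .dead) .dead .dead .dead) .dead (.br 43 .dead .dead (.br 44 (.br 45 .dead (.br 46 (.br 47 .dead (.br 48 (.kem 1 2 35 34359738368) .dead .dead .dead) .dead .dead) .dead .dead .dead) .dead .dead) .dead .dead (.br 45 (.br 46 .dead (.br 47 (.br 48 .dead (.fin [(2,3,34947612025084),(0,2,2181038080),(1,2,17729624997890),(0,1,32510050304),(1,3,281509606998208),(0,3,8865903284225),(0,1,272678883688448),(0,3,562949953421311),(1,2,562949953421311)]) .dead .dead) .dead .dead .dead) .dead .dead) (.kem 0 2 38 274877906944) .dead .dead)) .dead))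 .dead) .dead .dead) (.br 37 (.br 38 .dead .dead (.br 42 .dead .dead .dead (.br 43 .dead .dead (.br 44 .dead .dead .dead (.kem 0 1 36 206158430208)) .dead)) .dead) .dead .dead .dead) .dead .dead)) .dead)) .dead) (.br 35 .dead (.br 36 (.br 37 .dead (.br 38 (.br 42 .dead .dead .dead (.br 43 .dead .dead (.br 44 .dead .dead .dead (.br 45 .dead (.br 39 .dead .dead .dead (.kem 1 2 32 4294967296)) .dead .dead)) .dead)) .dead .dead .dead) .dead .dead) .dead .dead .dead) (.br 41 .dead .dead .dead (.br 40 .dead .dead (.br 36 (.br 37 .dead (.br 38 (.br 44 .dead .dead .dead (.br 43 .dead .dead (.br 45 .dead (.br 39 .dead .dead .dead (.kem 1 2 32 4294967296)) .dead .dead) .dead)) .dead .dead .dead) .dead .dead) (.br 37 (.br 38 .dead (.br 39 .dead .dead .dead (.br 42 .dead .dead .dead (.br 43 .dead .dead (.br 44 .dead .dead .dead (.kem 0 1 36 528246617669632)) .dead))) .dead .dead) .dead .dead .dead) .dead .dead) .dead)) .dead) .dead)) .dead)) .dead .dead .dead) .dead .dead) .dead (.br 29 .dead .dead .dead (.br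 30 .dead .dead (.br 31 .dead .dead .dead (.br 32 .dead (.br 33 (.br 34 .dead (.kem 0 3 21 2097152) .dead .dead) .dead .dead .dead) (.br 33 (.br 34 .dead (.kem 0 3 21 2097152) .dead .dead) (.br 34 (.br 35 (.br 36 .dead (.br 37 (.br 38 .dead (.br 42 .dead .dead .dead (.br 43 .dead .dead (.br 44 .dead .dead .dead (.kem 0 1 33 532155037908992)) .dead)) .dead .dead) .dead .dead .dead) .dead .dead) (.br 36 (.br 37 .dead (.br 38 (.br 39 .dead .dead .dead (.br 40 .dead .dead (.br 41 .dead .dead .dead (.kem 0 1 33 25769803776)) .dead)) .dead .dead .dead) .dead .dead) .dead .dead .dead) .dead .dead) .dead .dead .dead) .dead .dead) .dead)) .dead)) .dead) .dead (.br 28 (.br 34 .dead (.br 33 (.br 32 .dead (.br 29 .dead .dead (.br 30 .dead .dead .dead (.br 31 (.br 35 .dead (.br 36 (.br 42 .dead .dead .dead (.br 43 .dead .dead (.br 37 .dead (.br 48 (.br 47 .dead (.br 46 (.br 45 .dead (.br 38 .dead .dead (.br 39 .dead .dead .dead (.br 40 .dead .dead (.br 41 .dead .dead .dead (.br 44 (.fin [(2,3,1610612736),(1,3,183125148527144),(1,2,17456357712126),(0,1,379686997005781),(0,3,177353515665940),(0,1,554256941195201),(0,3,71485708370960),(0,3,17871427092740),(1,2,562949953421311)])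 .dead .dead (.kem 0 1 22 528038609551360))) .dead)) (.kem 0 2 25 2181038080)) .dead .dead) .dead .dead .dead) .dead .dead) .dead .dead .dead) .dead .dead) .dead)) .dead .dead .dead) .dead (.br 41 .dead .dead (.br 40 .dead .dead .dead (.br 39 .dead .dead (.br 38 .dead .dead .dead (.br 42 .dead (.br 36 (.br 44 (.br 45 .dead (.br 46 (.br 47 .dead (.br 48 (.br 37 .dead (.kem 0 2 25 2181038080) (.kem 0 1 22 32510050304) .dead) .dead .dead .dead) .dead .dead) .dead .dead .dead) .dead .dead) .dead .dead .dead) .dead .dead .dead) .dead .dead)) .dead)) .dead)) .dead .dead .dead)) (.br 30 .dead .dead (.br 31 (.br 35 .dead (.br 36 (.br 42 .dead .dead .dead (.br 43 .dead .dead (.br 48 (.br 47 .dead (.br 46 (.br 45 .dead (.br 37 .dead (.kem 2 3 29 1610612736) .dead (.br 38 .dead .dead (.br 39 .dead .dead .dead (.br 40 .dead .dead (.br 41 .dead .dead .dead (.br 44 (.kem 1 3 37 137438953472) .dead .dead .dead)) .dead)) .dead)) .dead .dead) .dead .dead .dead) .dead .dead) .dead .dead .dead) .dead)) .dead .dead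 .dead) (.br 41 .dead .dead .dead (.br 40 .dead .dead (.br 39 .dead .dead .dead (.br 38 .dead .dead (.br 36 (.br 37 .dead (.br 42 .dead (.br 48 (.br 47 .dead (.br 46 (.br 45 .dead (.br 43 .dead .dead (.br 44 (.kem 2 3 29 4159138955264) .dead .dead (.kem 0 3 44 17592186044416)) (.br 44 (.kem 2 3 29 4159138955264) .dead .dead .dead)) .dead .dead) .dead .dead .dead) .dead .dead) .dead .dead .dead) .dead (.br 43 .dead .dead (.br 44 (.br 45 .dead (.br 46 (.br 47 .dead (.br 48 (.kem 1 2 35 34359738368) .dead .dead .dead) .dead .dead) .dead .dead .dead) .dead .dead) .dead .dead (.kem 0 1 22 238668480512)) .dead)) .dead (.kem 0 1 22 32510050304)) (.br 37 .dead .dead .dead (.kem 0 1 22 32510050304)) .dead .dead) .dead)) .dead)) .dead) .dead .dead (.kem 0 2 25 33554432)) .dead)) .dead .dead) .dead .dead .dead) .dead .dead) .dead (.br 29 .dead .dead .dead (.br 30 .dead .dead (.br 31 (.br 32 .dead (.br 33 (.br 34 .dead (.kem 0 3 21 2097152) .dead .dead) .dead .dead .dead) .dead .dead) .dead .dead (.kem 0 1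 22 29360128)) .dead)) .dead) .dead) .dead .dead) .dead .dead .dead) .dead .dead)

def t7B_3 : Tree :=
  (.br 15 .dead .dead (.br 16 .dead .dead .dead (.br 17 .dead .dead (.br 18 .dead .dead .dead (.br 19 .dead (.br 21 (.br 22 .dead (.br 23 (.br 24 .dead (.br 25 (.br 26 .dead .dead (.br 27 .dead .dead .dead (.br 28 .dead .dead (.br 29 .dead .dead .dead (.br 30 .dead .dead (.br 31 .dead .dead .dead (.br 32 .dead (.br 33 (.br 34 .dead (.br 35 (.br 36 .dead (.br 37 (.br 38 .dead .dead (.br 39 .dead .dead .dead (.br 40 .dead .dead (.br 41 .dead .dead .dead (.br 42 .dead .dead .dead (.br 43 .dead .dead (.br 44 .dead .dead .dead (.br 48 .dead (.br 47 (.br 46 .dead (.br 45 (.fin [(1,3,17592186044418),(2,3,491520),(1,2,98223038204436),(0,3,183112318498091),(1,3,8796093022209),(2,3,1580992),(1,2,69810262016),(0,1,562949953421311),(2,3,562949953421311)]) .dead .dead .dead) .dead .dead) .dead .dead .dead) .dead .dead)) .dead))) .dead)) .dead) .dead .dead .dead) .dead .dead) (.br 36 (.br 37 .dead (.br 42 .dead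 .dead .dead (.br 43 .dead .dead (.br 48 (.br 41 .dead .dead .dead (.br 40 .dead .dead (.br 39 .dead .dead .dead (.br 47 .dead (.br 46 (.br 45 .dead (.br 38 (.br 44 .dead .dead .dead (.fin [(2,3,491520),(0,2,274877906944),(0,3,359068538680617),(0,1,183125246929448),(0,2,177353515665940),(2,3,554256941195201),(0,2,71485708370960),(0,2,17871427092740),(0,2,562949953421311),(2,3,562949953421311)])) .dead (.br 44 (.fin [(2,3,491520),(0,3,2181038080),(1,3,183125246929448),(2,3,177353515665940),(0,2,554256941195201),(2,3,71485708370960),(2,3,17871427092740),(0,2,562949953421311)]) .dead .dead (.kem 0 1 35 528006099501056)) .dead) .dead .dead) .dead .dead .dead) .dead .dead)) .dead)) .dead .dead .dead) .dead)) .dead .dead) .dead .dead .dead) .dead .dead) .dead .dead) .dead .dead .dead) .dead .dead)) .dead)) (.br 29 .dead .dead (.br 30 .dead .dead .dead (.br 31 .dead .dead (.br 32 .dead (.br 33 (.br 34 .dead (.br 35 (.br 36 .dead (.br 37 (.br 38 .dead .dead .dead (.br 44 .dead .dead .dead .dead)) .dead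 .dead .dead) .dead .dead) (.br 36 (.br 37 .dead (.br 42 .dead .dead .dead (.br 43 .dead .dead (.br 48 (.br 41 .dead .dead (.br 40 .dead .dead .dead (.br 39 .dead .dead (.br 47 .dead (.br 46 (.br 45 .dead (.br 38 (.kem 2 3 28 3852317229056) .dead .dead (.kem 0 3 38 17867063951360)) .dead .dead) .dead .dead .dead) .dead .dead) .dead)) .dead) .dead .dead .dead) .dead)) .dead .dead) .dead .dead .dead) .dead .dead) (.br 35 (.br 36 .dead (.br 37 (.br 38 .dead .dead .dead (.br 44 .dead .dead .dead .dead)) .dead .dead .dead) .dead .dead) (.br 36 (.br 37 .dead (.br 41 (.br 48 .dead .dead .dead .dead) .dead .dead .dead) .dead .dead) .dead .dead .dead) .dead .dead) .dead) .dead .dead .dead) .dead (.br 33 (.br 34 .dead (.br 35 (.br 36 .dead (.br 37 (.br 38 .dead (.br 39 .dead .dead (.br 40 .dead .dead .dead (.br 41 .dead .dead (.br 42 .dead .dead .dead (.br 43 .dead .dead (.br 44 .dead .dead .dead (.br 45 (.br 46 .dead (.br 47 (.br 48 .dead (.fin [(1,2,67633152),(0,3,256),(0,1,7680),(0,2,8935714586817),(1,2,7),(2,3,21584123756802),(1,2,71485708370960),(0,1,562949953421311),(1,3,562949953421311),(2,3,562949953421311)])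 .dead .dead) .dead .dead .dead) .dead .dead) .dead .dead .dead)) .dead)) .dead)) .dead) .dead .dead) .dead .dead .dead) .dead .dead) (.br 36 (.br 37 .dead (.br 38 (.br 42 .dead .dead .dead (.br 43 .dead .dead (.br 44 .dead .dead .dead (.br 45 .dead (.br 39 .dead .dead (.kem 1 3 32 4294967296) .dead) .dead .dead)) .dead)) .dead .dead .dead) .dead .dead) .dead .dead .dead) .dead .dead) (.br 35 (.br 36 .dead (.br 37 (.br 38 .dead (.br 39 .dead .dead (.br 41 .dead (.br 48 .dead .dead .dead .dead) .dead .dead) .dead) .dead .dead) .dead .dead .dead) .dead .dead) (.br 36 (.br 37 .dead (.br 38 (.br 41 (.br 48 .dead .dead .dead .dead) .dead .dead .dead) .dead .dead .dead) .dead .dead) .dead .dead .dead) .dead .dead) .dead) (.br 34 .dead .dead (.br 35 (.br 36 .dead (.br 37 (.br 38 .dead (.br 41 .dead (.br 48 .dead .dead .dead .dead) .dead .dead) .dead .dead) .dead .dead .dead) .dead .dead) (.br 36 (.br 37 .dead (.br 38 (.br 39 .dead .dead (.br 41 (.br 48 .dead .dead .dead .dead) .dead .dead .dead) .dead)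 .dead .dead .dead) .dead .dead) .dead .dead .dead) .dead .dead) .dead) .dead .dead)) .dead)) .dead))) (.br 27 .dead .dead (.br 28 .dead .dead (.br 29 .dead .dead .dead (.br 30 .dead .dead (.br 31 .dead .dead .dead (.br 32 .dead (.br 33 (.br 34 .dead (.kem 2 3 26 201326592) .dead (.br 35 (.br 36 .dead (.br 37 (.br 38 .dead .dead (.br 39 .dead .dead .dead (.br 41 .dead (.br 48 .dead .dead .dead .dead) .dead .dead)) .dead) .dead .dead .dead) .dead .dead) (.br 36 (.br 37 .dead (.br 41 (.br 48 .dead .dead .dead .dead) .dead .dead .dead) .dead .dead) .dead .dead .dead) .dead .dead)) .dead .dead .dead) (.br 33 (.br 34 .dead (.br 35 (.br 36 .dead (.br 37 (.br 38 .dead (.br 39 .dead .dead .dead (.br 40 .dead .dead (.br 41 .dead .dead .dead (.br 42 .dead .dead .dead (.br 43 .dead .dead (.br 44 .dead .dead .dead (.br 45 (.kem 1 2 32 279172874240) .dead .dead .dead)) .dead))) .dead)) .dead .dead) .dead .dead .dead) .dead .dead) (.br 36 (.br 37 .dead (.br 38 (.br 42 .dead .dead .dead (.br 43 .dead .dead (.br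 44 .dead .dead .dead (.br 45 .dead (.br 39 .dead .dead .dead (.kem 1 2 32 4294967296)) .dead .dead)) .dead)) .dead .dead .dead) .dead .dead) .dead .dead .dead) .dead .dead) .dead (.br 35 (.br 36 .dead (.br 37 (.br 38 .dead (.br 39 .dead .dead .dead (.br 41 .dead (.br 48 .dead .dead .dead .dead) .dead .dead)) .dead .dead) .dead .dead .dead) .dead .dead) (.br 36 (.br 37 .dead (.br 38 (.br 41 (.br 48 .dead .dead .dead .dead) .dead .dead .dead) .dead .dead .dead) .dead .dead) .dead .dead .dead) .dead .dead)) (.br 34 .dead .dead .dead (.br 35 (.br 36 .dead (.br 37 (.br 38 .dead (.br 41 .dead (.br 48 .dead .dead .dead .dead) .dead .dead) .dead .dead) .dead .dead .dead) .dead .dead) (.br 36 (.br 37 .dead (.br 38 (.br 39 .dead .dead .dead (.br 41 (.br 48 .dead .dead .dead .dead) .dead .dead .dead)) .dead .dead .dead) .dead .dead) .dead .dead .dead) .dead .dead)) .dead .dead) .dead)) .dead)) (.br 29 .dead .dead (.br 30 .dead .dead .dead (.br 31 .dead .dead (.br 32 .dead (.br 33 (.br 34 .dead (.kem 2 3 26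 201326592) .dead .dead) .dead .dead .dead) .dead .dead) .dead)) .dead)) .dead)) .dead (.br 26 .dead .dead .dead (.br 27 .dead .dead (.br 28 .dead .dead (.br 29 .dead .dead .dead (.br 30 .dead .dead (.br 31 (.br 32 .dead (.br 33 (.br 34 .dead (.br 35 (.br 36 .dead (.br 37 .dead .dead .dead (.br 38 .dead .dead (.br 39 .dead .dead .dead (.br 40 .dead .dead (.br 41 .dead .dead .dead (.br 42 .dead .dead .dead (.br 43 .dead .dead (.br 44 (.br 45 .dead (.br 46 (.br 47 .dead (.br 48 .dead .dead .dead .dead) .dead .dead) .dead .dead .dead) .dead .dead) .dead .dead .dead) .dead))) .dead)) .dead)) .dead .dead) (.br 36 (.br 42 .dead .dead .dead (.br 43 .dead .dead (.br 48 (.br 41 .dead .dead .dead (.br 40 .dead .dead (.br 39 .dead .dead .dead (.br 38 .dead .dead (.br 47 .dead (.br 46 (.br 45 .dead (.br 37 .dead (.br 44 (.fin [(1,3,183125146413608),(2,3,177353616165396),(1,3,235388928),(0,2,554256941195201),(2,3,71485708370960),(2,3,17871427092740),(0,2,562949953421311)]) .dead .dead (.kem 0 3 44 17592186044416))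 .dead (.br 44 (.kem 1 3 37 137438953472) .dead .dead .dead)) .dead .dead) .dead .dead .dead) .dead .dead) .dead)) .dead)) .dead .dead .dead) .dead)) .dead .dead .dead) .dead .dead) .dead (.br 35 (.br 36 .dead (.br 37 .dead .dead .dead (.br 38 .dead .dead (.br 39 .dead .dead .dead (.br 41 .dead (.br 48 .dead .dead .dead .dead) .dead .dead)) .dead)) .dead .dead) (.br 36 (.br 41 (.br 48 .dead .dead .dead .dead) .dead .dead .dead) .dead .dead .dead) .dead .dead)) .dead .dead .dead) .dead .dead) .dead .dead (.br 32 (.br 33 .dead (.br 34 .dead .dead .dead (.br 35 (.br 36 .dead (.br 37 (.br 41 .dead (.br 48 .dead .dead .dead .dead) .dead .dead) .dead .dead .dead) .dead .dead) (.br 36 (.br 37 .dead (.br 38 .dead .dead (.br 39 .dead .dead .dead (.br 41 (.br 48 .dead .dead .dead .dead) .dead .dead .dead)) .dead) .dead .dead) .dead .dead .dead) .dead .dead)) .dead .dead) (.kem 0 2 25 33554432) .dead .dead)) .dead)) (.br 29 .dead .dead (.br 30 .dead .dead .dead (.br 31 (.br 32 .dead (.br 33 (.br 34 .dead (.br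 35 (.br 36 .dead (.br 37 .dead .dead (.br 38 .dead .dead .dead (.br 39 .dead .dead (.br 40 .dead .dead .dead (.br 41 .dead .dead (.br 42 .dead .dead .dead (.br 43 .dead .dead .dead .dead)) .dead)) .dead)) .dead) .dead .dead) (.br 36 (.br 42 .dead .dead .dead (.br 43 .dead .dead (.br 37 .dead (.br 48 (.br 41 .dead .dead (.br 40 .dead .dead .dead (.br 39 .dead .dead (.br 38 .dead .dead .dead (.kem 0 2 25 2181038080)) .dead)) .dead) .dead .dead .dead) .dead .dead) .dead)) .dead .dead .dead) .dead .dead) .dead .dead) .dead .dead .dead) .dead .dead) .dead .dead .dead)) .dead)) .dead)) .dead) .dead .dead) .dead .dead .dead) .dead .dead) .dead .dead (.br 27 .dead .dead (.br 26 .dead .dead .dead t7B_2) .dead)) (.kem 1 3 13 8192) .dead)) .dead)) (.br 16 .dead .dead (.br 17 .dead .dead .dead (.br 18 .dead .dead (.br 19 .dead (.br 21 (.br 22 .dead (.br 23 (.br 24 .dead (.br 25 (.kem 2 3 15 491520) .dead .dead (.br 26 .dead .dead (.br 27 .dead .dead .dead (.br 28 .dead .dead (.br 29 .dead .dead .dead (.br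 30 .dead .dead (.br 31 (.br 32 .dead (.br 33 (.br 34 .dead (.kem 2 3 15 235372544) .dead .dead) .dead .dead .dead) .dead .dead) .dead .dead .dead) .dead)) (.br 29 .dead .dead (.br 30 .dead .dead .dead (.br 31 (.br 32 .dead (.br 33 (.br 34 .dead (.kem 2 3 15 235372544) (.br 35 (.br 36 .dead (.br 37 .dead .dead (.br 38 .dead .dead .dead (.br 39 .dead .dead (.br 41 .dead (.br 48 .dead .dead .dead .dead) .dead .dead) .dead)) .dead) .dead .dead) (.br 36 (.br 41 (.br 48 .dead .dead .dead .dead) .dead .dead .dead) .dead .dead .dead) .dead .dead) .dead) .dead .dead .dead) .dead .dead) .dead (.br 32 (.br 33 .dead (.br 34 .dead .dead (.br 35 (.br 36 .dead (.br 37 (.br 41 .dead (.br 48 .dead .dead .dead .dead) .dead .dead) .dead .dead .dead) .dead .dead) (.br 36 (.br 37 .dead (.br 38 .dead .dead .dead (.br 39 .dead .dead (.br 41 (.br 48 .dead .dead .dead .dead) .dead .dead .dead) .dead)) .dead .dead) .dead .dead .dead) .dead .dead) .dead) .dead .dead) (.kem 0 3 25 33554432) .dead .dead) .dead)) .dead))) .dead))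 .dead .dead) .dead .dead .dead) .dead .dead) .dead (.br 27 .dead .dead .dead (.br 26 .dead .dead (.br 22 (.br 23 .dead (.br 24 (.br 25 .dead .dead .dead (.br 28 .dead (.br 34 (.br 33 .dead (.br 32 (.br 29 .dead .dead (.br 30 .dead .dead .dead (.br 31 .dead (.kem 2 3 15 237469696) (.kem 1 3 13 34086912) .dead)) (.br 30 .dead .dead (.br 31 .dead (.kem 2 3 15 237469696) .dead .dead) .dead)) .dead .dead .dead) .dead .dead) .dead .dead .dead) .dead (.br 29 .dead .dead (.br 30 .dead .dead .dead (.br 31 .dead (.br 32 (.br 33 .dead (.br 34 (.br 35 (.br 36 .dead (.br 42 .dead .dead .dead (.br 43 .dead .dead (.br 37 (.br 44 .dead .dead .dead (.br 38 .dead .dead (.br 39 .dead .dead .dead (.br 40 .dead .dead (.br 41 .dead (.kem 2 3 15 2116517888) .dead .dead) .dead)) .dead)) .dead .dead .dead) .dead)) .dead .dead) (.br 36 (.br 37 .dead .dead (.br 38 .dead .dead .dead (.br 39 .dead .dead (.br 40 .dead .dead .dead (.br 41 .dead .dead (.br 42 .dead .dead .dead (.br 43 .dead .dead .dead .dead)) .dead)) .dead))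 .dead) .dead .dead .dead) .dead .dead) .dead .dead .dead) .dead .dead) .dead .dead .dead) (.br 32 (.kem 1 3 13 34086912) (.br 33 (.br 34 .dead (.br 35 (.br 36 .dead (.br 37 (.br 38 .dead .dead .dead (.br 44 .dead .dead .dead .dead)) .dead .dead .dead) .dead .dead) (.br 36 (.br 37 .dead (.br 42 .dead .dead .dead (.br 43 .dead .dead (.br 48 (.br 41 .dead .dead (.br 40 .dead .dead .dead (.br 39 .dead .dead (.br 47 .dead (.br 46 (.br 45 .dead (.br 38 (.kem 1 3 13 4329054208) .dead .dead (.kem 0 1 32 30064771072)) .dead .dead) .dead .dead .dead) .dead .dead) .dead)) .dead) .dead .dead .dead) .dead)) .dead .dead) .dead .dead .dead) .dead .dead) .dead .dead) .dead .dead .dead) .dead .dead) .dead)) .dead))) .dead .dead .dead) .dead .dead) (.br 23 (.br 24 .dead (.br 25 (.kem 1 3 13 532480) .dead .dead (.br 28 (.br 34 .dead (.br 33 (.br 32 .dead (.br 29 .dead .dead (.br 30 .dead .dead .dead (.br 31 (.kem 2 3 15 237469696) .dead (.kem 0 3 25 33554432) .dead)) (.br 30 .dead .dead (.br 31 (.kem 2 3 15 237469696)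 .dead .dead .dead) .dead)) .dead .dead) .dead .dead .dead) .dead .dead) .dead .dead (.br 29 .dead .dead (.br 30 .dead .dead .dead (.br 31 (.br 32 .dead (.br 33 (.br 34 .dead (.kem 0 2 21 2097152) .dead .dead) .dead .dead .dead) .dead .dead) .dead (.kem 0 1 22 29360128) .dead)) .dead))) .dead .dead) .dead .dead .dead) .dead .dead) .dead)) .dead) .dead .dead) .dead)) .dead))

def t7B_4 : Tree :=
  (.br 13 .dead (.br 14 .dead (.br 15 .dead .dead (.br 16 .dead .dead .dead (.br 17 .dead .dead (.br 18 .dead .dead .dead (.br 19 .dead .dead t7B_1 .dead)) .dead)) (.br 16 .dead .dead (.br 17 .dead .dead .dead (.br 18 .dead .dead (.br 19 .dead .dead .dead (.br 20 (.br 21 (.br 22 .dead (.br 23 (.br 24 .dead (.br 25 (.br 26 .dead (.kem 2 3 15 1015808) (.br 27 .dead .dead .dead (.br 28 .dead .dead (.br 29 .dead .dead .dead (.br 30 .dead .dead (.br 31 .dead .dead .dead (.br 32 .dead (.br 33 (.br 34 .dead (.kem 2 3 15 202342400) .dead .dead) .dead .dead .dead) .dead .dead)) .dead)) (.br 29 .dead .dead (.br 30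 .dead .dead .dead (.br 31 .dead .dead (.br 32 .dead (.br 33 (.br 34 .dead (.kem 2 3 15 202342400) (.br 35 (.br 36 .dead (.br 37 (.br 38 .dead .dead .dead (.br 44 .dead .dead .dead .dead)) .dead .dead .dead) .dead .dead) (.br 36 (.br 37 .dead (.br 41 (.br 48 .dead .dead .dead .dead) .dead .dead .dead) .dead .dead) .dead .dead .dead) .dead .dead) .dead) .dead .dead .dead) .dead (.br 33 (.kem 1 2 26 67108864) (.br 34 .dead .dead (.br 35 (.br 36 .dead (.br 37 (.br 38 .dead (.br 41 .dead (.br 48 .dead .dead .dead .dead) .dead .dead) .dead .dead) .dead .dead .dead) .dead .dead) (.br 36 (.br 37 .dead (.br 38 (.br 39 .dead .dead (.br 41 (.br 48 .dead .dead .dead .dead) .dead .dead .dead) .dead) .dead .dead .dead) .dead .dead) .dead .dead .dead) .dead .dead) .dead) .dead .dead)) .dead)) .dead))) .dead) .dead .dead .dead) .dead .dead) .dead .dead .dead) .dead .dead) .dead (.br 27 .dead .dead .dead (.br 22 (.br 23 .dead (.br 24 (.br 25 .dead (.br 26 .dead .dead (.br 28 .dead (.br 34 (.br 33 .dead (.br 29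 .dead .dead (.br 30 .dead .dead .dead (.br 31 .dead .dead (.br 32 (.kem 2 3 15 204439552) .dead .dead (.br 35 (.br 36 .dead (.br 37 (.br 38 .dead (.br 42 .dead .dead .dead (.br 43 .dead .dead (.br 44 .dead .dead .dead (.br 45 (.br 39 .dead .dead (.kem 0 3 32 4294967296) .dead) .dead .dead .dead)) .dead)) .dead .dead) .dead .dead .dead) .dead .dead) .dead .dead (.br 41 .dead .dead (.br 40 .dead .dead .dead (.br 42 .dead (.br 36 (.br 37 .dead (.br 38 (.br 39 .dead .dead (.br 44 .dead .dead .dead (.br 43 .dead .dead (.br 45 .dead (.kem 0 3 32 17871358918656) .dead .dead) .dead)) .dead) .dead .dead .dead) .dead .dead) .dead .dead .dead) .dead .dead)) .dead))) .dead)) (.br 30 .dead .dead (.br 31 .dead .dead .dead (.br 32 (.kem 2 3 15 204439552) .dead .dead .dead)) .dead)) .dead .dead) .dead .dead .dead) .dead (.br 29 .dead .dead (.br 30 .dead .dead .dead (.br 31 .dead .dead (.br 32 (.br 33 .dead (.br 34 (.br 35 (.br 36 .dead (.br 37 (.br 42 .dead .dead .dead (.br 43 .dead .dead (.br 44 .dead .dead .dead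 (.br 38 .dead (.br 45 (.br 46 .dead (.br 47 (.br 48 .dead (.kem 2 3 15 3852521668608) .dead .dead) .dead .dead .dead) .dead .dead) .dead .dead .dead) .dead .dead)) .dead)) .dead .dead .dead) .dead .dead) (.br 36 (.br 37 .dead (.br 38 .dead .dead .dead (.br 39 .dead .dead (.br 40 .dead .dead .dead (.br 41 .dead .dead (.br 42 .dead .dead .dead (.br 43 .dead .dead (.br 44 (.br 45 .dead (.br 46 (.br 47 .dead (.br 48 (.kem 2 3 15 4127399575552) .dead .dead .dead) .dead .dead) .dead .dead .dead) .dead .dead) .dead .dead .dead) .dead)) .dead)) .dead)) .dead .dead) .dead .dead .dead) .dead .dead) .dead .dead .dead) .dead .dead) .dead .dead (.br 33 (.br 34 .dead (.br 35 (.br 36 .dead (.br 37 (.br 38 .dead (.br 39 .dead .dead (.br 40 .dead .dead .dead (.br 41 .dead .dead (.br 42 .dead .dead .dead (.br 43 .dead .dead (.br 44 .dead .dead .dead (.br 45 (.br 46 .dead (.br 47 (.br 48 .dead (.kem 2 3 15 3856816635904) .dead .dead) .dead .dead .dead) .dead .dead) .dead .dead .dead)) .dead)) .dead)) .dead) .dead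 .dead) .dead .dead .dead) .dead .dead) (.br 36 (.br 37 .dead (.br 38 (.br 42 .dead .dead .dead (.br 43 .dead .dead (.br 44 .dead .dead .dead (.br 45 .dead (.br 39 .dead .dead (.br 40 .dead .dead .dead (.br 46 (.br 47 .dead (.br 48 (.kem 2 3 15 3856816635904) .dead .dead .dead) .dead .dead) .dead .dead .dead)) .dead) .dead .dead)) .dead)) .dead .dead .dead) .dead .dead) .dead .dead .dead) .dead .dead) .dead .dead) (.br 34 (.br 35 (.br 36 .dead (.br 37 (.br 38 .dead (.br 42 .dead .dead .dead (.br 43 .dead .dead (.br 44 .dead .dead .dead (.kem 0 1 33 532155037908992)) .dead)) .dead .dead) .dead .dead .dead) .dead .dead) (.br 36 (.br 37 .dead (.br 38 (.br 39 .dead .dead (.br 40 .dead .dead .dead (.br 41 .dead .dead (.kem 0 1 33 25769803776) .dead)) .dead) .dead .dead .dead) .dead .dead) .dead .dead .dead) .dead .dead) .dead .dead .dead) .dead .dead)) .dead)) .dead)) .dead) .dead .dead) .dead .dead .dead) .dead .dead) (.br 23 (.br 24 .dead (.br 25 (.br 26 .dead (.br 28 (.br 34 .dead (.br 29 .dead .dead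 (.br 30 .dead .dead .dead (.br 31 .dead .dead (.br 32 .dead .dead .dead (.br 33 (.kem 2 3 15 137330688) .dead (.br 35 .dead (.br 36 (.br 37 .dead (.br 38 (.br 39 .dead (.br 45 .dead .dead .dead .dead) .dead .dead) .dead .dead .dead) .dead .dead) .dead .dead .dead) .dead (.br 41 .dead .dead (.br 42 .dead (.br 36 (.br 37 .dead (.br 38 (.br 39 .dead (.br 45 .dead .dead .dead .dead) .dead .dead) .dead .dead .dead) .dead .dead) .dead .dead .dead) .dead .dead) .dead)) .dead)) .dead)) (.br 30 .dead .dead (.br 31 .dead .dead .dead (.br 32 .dead .dead (.br 33 (.kem 2 3 15 137330688) .dead .dead .dead) .dead)) .dead)) .dead .dead) .dead .dead (.br 29 .dead .dead (.br 30 .dead .dead .dead (.br 31 .dead .dead (.br 32 .dead .dead .dead (.br 33 (.br 34 .dead (.kem 0 2 21 2097152) .dead .dead) .dead (.br 34 (.br 35 (.br 36 .dead (.br 37 (.br 38 .dead (.br 39 (.br 45 .dead .dead .dead .dead) .dead .dead .dead) .dead .dead) .dead .dead .dead) .dead .dead) (.br 36 (.br 37 .dead (.br 38 (.br 39 .dead (.br 45 .dead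 .dead .dead .dead) .dead .dead) .dead .dead .dead) .dead .dead) .dead .dead .dead) .dead .dead) (.kem 0 2 21 2097152) .dead .dead) .dead)) .dead)) .dead)) (.br 28 (.br 34 .dead (.br 33 (.br 29 .dead .dead (.br 30 .dead .dead .dead (.br 31 .dead .dead (.br 32 .dead (.kem 2 3 15 204439552) .dead (.kem 1 2 26 67108864)) .dead)) (.br 30 .dead .dead (.br 31 .dead .dead .dead (.br 32 .dead (.kem 2 3 15 204439552) .dead .dead)) .dead)) .dead .dead .dead) .dead .dead) .dead .dead (.br 29 .dead .dead (.br 30 .dead .dead .dead (.br 31 .dead .dead (.br 32 .dead (.br 33 (.br 34 .dead (.kem 0 2 21 2097152) .dead .dead) .dead .dead .dead) .dead (.kem 0 1 22 62914560)) .dead)) .dead)) .dead) .dead .dead .dead) .dead .dead) .dead .dead .dead) .dead .dead)) .dead) .dead .dead .dead)) .dead)) .dead)) .dead (.br 15 .dead .dead (.br 16 .dead .dead .dead (.br 17 .dead .dead (.br 18 .dead .dead .dead (.br 19 .dead .dead (.br 20 (.br 21 (.br 22 .dead (.br 23 (.br 24 .dead (.br 25 (.br 26 .dead (.br 27 .dead .dead (.kem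 1 3 14 16384) .dead) .dead (.br 27 .dead (.br 28 .dead .dead (.br 29 .dead .dead .dead (.br 30 .dead .dead (.br 31 .dead .dead .dead (.br 34 .dead .dead .dead (.br 32 .dead (.br 33 (.br 35 (.br 36 .dead (.br 37 (.br 38 .dead .dead (.br 39 .dead .dead .dead (.br 41 .dead (.br 48 .dead .dead .dead .dead) .dead .dead)) .dead) .dead .dead .dead) .dead .dead) (.br 36 (.br 37 .dead (.br 41 (.br 48 .dead .dead .dead .dead) .dead .dead .dead) .dead .dead) .dead .dead .dead) .dead .dead) .dead (.br 35 (.br 36 .dead (.br 37 (.br 38 .dead .dead (.br 41 .dead (.br 48 .dead .dead .dead .dead) .dead .dead) .dead) .dead .dead .dead) .dead .dead) (.br 36 (.br 37 .dead (.br 41 (.br 48 .dead .dead .dead .dead) .dead .dead .dead) .dead .dead) .dead .dead .dead) .dead .dead) .dead) (.br 33 (.br 35 (.br 36 .dead (.br 37 (.br 38 .dead (.br 39 .dead .dead .dead (.br 41 .dead (.br 48 .dead .dead .dead .dead) .dead .dead)) .dead .dead) .dead .dead .dead) .dead .dead) (.br 36 (.br 37 .dead (.br 38 (.br 41 (.br 48 .dead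 .dead .dead .dead) .dead .dead .dead) .dead .dead .dead) .dead .dead) .dead .dead .dead) .dead .dead) .dead .dead .dead) .dead))) .dead)) (.br 29 .dead .dead (.br 30 .dead .dead .dead (.br 31 .dead .dead (.br 32 .dead (.br 34 .dead .dead (.br 33 (.br 35 (.br 36 .dead (.br 37 (.br 38 .dead .dead .dead (.br 44 .dead .dead .dead .dead)) .dead .dead .dead) .dead .dead) (.br 36 (.br 37 .dead (.br 41 (.br 48 .dead .dead .dead .dead) .dead .dead .dead) .dead .dead) .dead .dead .dead) .dead .dead) .dead .dead .dead) .dead) .dead .dead) .dead)) .dead)) (.kem 1 3 14 16384) .dead)) .dead .dead .dead) .dead .dead) .dead .dead .dead) .dead .dead) (.br 22 (.br 23 .dead (.br 24 (.br 25 .dead (.br 26 .dead .dead .dead (.br 27 .dead .dead (.br 28 .dead .dead (.br 29 .dead .dead .dead (.br 30 .dead .dead (.br 31 .dead .dead .dead (.br 32 (.br 33 .dead (.br 34 (.kem 1 3 14 2113536) .dead .dead (.br 35 (.br 36 .dead (.br 37 (.br 41 .dead (.br 48 .dead .dead .dead .dead) .dead .dead) .dead .dead .dead) .dead .dead)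 (.br 36 (.br 37 .dead (.br 38 .dead .dead (.br 39 .dead .dead .dead (.br 41 (.br 48 .dead .dead .dead .dead) .dead .dead .dead)) .dead) .dead .dead) .dead .dead .dead) .dead .dead)) .dead .dead) .dead (.br 33 (.br 34 .dead .dead .dead (.kem 0 1 21 65011712)) (.br 34 (.kem 1 3 14 2113536) .dead .dead (.kem 0 1 21 65011712)) .dead .dead) .dead)) .dead)) (.br 29 .dead .dead (.br 30 .dead .dead .dead (.br 31 .dead .dead (.br 32 (.br 33 .dead (.br 34 (.br 35 (.br 36 .dead (.br 37 (.br 42 .dead .dead .dead (.br 43 .dead .dead (.br 44 .dead .dead .dead (.kem 0 1 21 532159397888000)) .dead)) .dead .dead .dead) .dead .dead) (.br 36 (.br 37 .dead (.br 38 .dead .dead .dead (.br 39 .dead .dead (.br 40 .dead .dead .dead (.br 41 .dead .dead (.kem 0 1 21 30129782784) .dead)) .dead)) .dead .dead) .dead .dead .dead) .dead .dead) .dead .dead .dead) .dead .dead) .dead .dead .dead) .dead)) .dead)) .dead)) .dead .dead) .dead .dead .dead) .dead .dead) .dead .dead .dead) .dead .dead) .dead .dead .dead) .dead)) .dead))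 .dead)) .dead (.br 14 .dead (.br 20 t7B_3 .dead .dead .dead) .dead (.br 15 .dead .dead (.br 16 .dead .dead .dead (.br 17 .dead .dead (.br 18 .dead .dead .dead (.br 19 .dead (.br 20 (.br 21 (.br 22 .dead (.br 23 (.br 24 .dead (.br 25 (.br 26 .dead .dead (.br 27 .dead (.br 28 .dead .dead (.br 29 .dead .dead .dead (.br 30 .dead .dead (.br 31 .dead .dead .dead (.br 32 .dead (.br 34 .dead .dead .dead (.br 33 (.br 35 (.br 36 .dead (.br 37 (.br 38 .dead .dead (.br 39 .dead .dead .dead (.br 41 .dead (.br 48 .dead .dead .dead .dead) .dead .dead)) .dead) .dead .dead .dead) .dead .dead) (.br 36 (.br 37 .dead (.br 41 (.br 48 .dead .dead .dead .dead) .dead .dead .dead) .dead .dead) .dead .dead .dead) .dead .dead) .dead .dead .dead)) .dead .dead)) .dead)) (.br 29 .dead .dead (.br 30 .dead .dead .dead (.br 31 .dead .dead (.br 34 .dead .dead (.br 32 .dead (.br 33 (.kem 1 3 14 134234112) .dead .dead (.br 35 (.br 36 .dead (.br 37 (.br 38 .dead .dead .dead (.br 44 .dead .dead .dead .dead)) .dead .dead .dead) .dead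 .dead) (.br 36 (.br 37 .dead (.br 41 (.br 48 .dead .dead .dead .dead) .dead .dead .dead) .dead .dead) .dead .dead .dead) .dead .dead)) .dead (.br 33 (.kem 1 3 14 134234112) .dead .dead .dead)) .dead) .dead)) .dead)) .dead .dead) (.br 27 .dead (.br 28 .dead .dead (.br 29 .dead .dead .dead (.br 30 .dead .dead (.br 31 .dead .dead .dead (.br 34 .dead .dead .dead (.br 32 .dead (.br 33 (.kem 2 3 26 67108864) .dead (.br 35 (.br 36 .dead (.br 37 (.br 38 .dead .dead (.br 41 .dead (.br 48 .dead .dead .dead .dead) .dead .dead) .dead) .dead .dead .dead) .dead .dead) (.br 36 (.br 37 .dead (.br 41 (.br 48 .dead .dead .dead .dead) .dead .dead .dead) .dead .dead) .dead .dead .dead) .dead .dead) .dead) (.br 33 (.br 35 (.br 36 .dead (.br 37 (.br 38 .dead (.br 39 .dead .dead .dead (.br 41 .dead (.br 48 .dead .dead .dead .dead) .dead .dead)) .dead .dead) .dead .dead .dead) .dead .dead) (.br 36 (.br 37 .dead (.br 38 (.br 41 (.br 48 .dead .dead .dead .dead) .dead .dead .dead) .dead .dead .dead) .dead .dead) .dead .dead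 .dead) .dead .dead) .dead .dead .dead) .dead))) .dead)) (.br 29 .dead .dead (.br 30 .dead .dead .dead (.br 31 .dead .dead (.br 32 .dead (.br 34 .dead .dead (.br 33 (.kem 2 3 26 67108864) .dead .dead .dead) .dead) .dead .dead) .dead)) .dead)) (.kem 1 3 14 16384) .dead)) .dead (.br 26 .dead .dead .dead (.br 27 .dead (.br 28 .dead .dead (.br 29 .dead .dead .dead (.br 30 .dead .dead (.br 34 .dead .dead .dead (.br 31 (.br 32 .dead (.br 33 (.br 35 (.br 36 .dead (.br 37 .dead .dead .dead (.br 38 .dead .dead (.br 39 .dead .dead .dead (.br 41 .dead (.br 48 .dead .dead .dead .dead) .dead .dead)) .dead)) .dead .dead) (.br 36 (.br 41 (.br 48 .dead .dead .dead .dead) .dead .dead .dead) .dead .dead .dead) .dead .dead) .dead (.br 35 (.br 36 .dead (.br 37 .dead .dead .dead (.br 38 .dead .dead (.br 41 .dead (.br 48 .dead .dead .dead .dead) .dead .dead) .dead)) .dead .dead) (.br 36 (.br 41 (.br 48 .dead .dead .dead .dead) .dead .dead .dead) .dead .dead .dead) .dead .dead) .dead) .dead .dead) .dead .dead (.br 32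 (.br 33 .dead .dead (.br 35 (.br 36 .dead (.br 37 (.br 41 .dead (.br 48 .dead .dead .dead .dead) .dead .dead) .dead .dead .dead) .dead .dead) (.br 36 (.br 37 .dead (.br 38 .dead .dead (.br 41 (.br 48 .dead .dead .dead .dead) .dead .dead .dead) .dead) .dead .dead) .dead .dead .dead) .dead .dead) .dead) (.kem 0 2 25 33554432) .dead .dead))) .dead)) (.br 29 .dead .dead (.br 30 .dead .dead .dead (.br 31 (.br 32 .dead (.br 34 .dead .dead (.br 33 (.br 35 (.br 36 .dead (.br 37 .dead .dead (.br 38 .dead .dead .dead (.br 39 .dead .dead (.br 41 .dead (.br 48 .dead .dead .dead .dead) .dead .dead) .dead)) .dead) .dead .dead) (.br 36 (.br 41 (.br 48 .dead .dead .dead .dead) .dead .dead .dead) .dead .dead .dead) .dead .dead) .dead .dead .dead) .dead) .dead .dead) .dead .dead .dead)) .dead)) (.kem 1 3 14 16384) .dead)) .dead) .dead .dead) .dead .dead .dead) .dead .dead) (.br 22 (.br 23 .dead (.br 24 (.br 25 .dead .dead (.br 26 .dead .dead .dead (.br 27 .dead .dead (.br 28 .dead .dead (.br 29 .dead .dead .dead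 (.br 30 .dead .dead (.br 31 .dead (.br 32 (.br 33 .dead (.br 34 (.kem 1 3 14 2113536) .dead .dead (.br 35 (.br 36 .dead (.br 41 .dead (.br 48 .dead .dead .dead .dead) .dead .dead) .dead .dead) (.br 36 (.br 37 .dead .dead .dead (.br 38 .dead .dead (.br 39 .dead .dead .dead (.br 41 (.br 48 .dead .dead .dead .dead) .dead .dead .dead)) .dead)) .dead .dead .dead) .dead .dead)) .dead .dead) .dead .dead .dead) .dead (.br 32 (.br 33 .dead (.br 34 (.kem 1 3 14 2113536) .dead .dead (.kem 0 1 21 31457280)) .dead .dead) (.br 33 (.br 34 .dead .dead .dead (.kem 0 1 21 31457280)) .dead .dead .dead) .dead .dead)) .dead)) (.br 29 .dead .dead (.br 30 .dead .dead .dead (.br 31 .dead (.br 32 (.br 33 .dead (.br 34 (.br 35 (.br 36 .dead (.br 42 .dead .dead .dead (.br 43 .dead .dead (.br 37 (.br 44 .dead .dead .dead (.kem 0 1 21 532161511817216)) .dead .dead .dead) .dead)) .dead .dead) (.br 36 (.br 37 .dead .dead (.br 38 .dead .dead .dead (.br 39 .dead .dead (.br 40 .dead .dead .dead (.br 41 .dead .dead (.kem 0 1 21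 32243712000) .dead)) .dead)) .dead) .dead .dead .dead) .dead .dead) .dead .dead .dead) .dead .dead) .dead .dead .dead) .dead .dead)) .dead)) .dead)) .dead) .dead .dead .dead) .dead .dead) .dead .dead .dead) .dead .dead) .dead .dead .dead) (.br 20 (.kem 1 3 13 8192) (.br 21 (.br 22 .dead (.br 23 (.br 24 .dead (.br 25 (.br 26 .dead .dead .dead (.br 27 .dead .dead (.kem 0 1 20 1048576) .dead)) .dead .dead .dead) .dead .dead) .dead .dead .dead) .dead .dead) (.br 22 (.br 23 .dead (.br 24 (.br 25 .dead (.br 26 (.br 27 .dead .dead (.br 28 .dead .dead (.br 29 .dead .dead .dead (.br 30 .dead .dead (.br 31 .dead .dead .dead (.br 32 .dead .dead (.br 33 .dead (.br 34 (.kem 1 3 13 3170304) .dead .dead (.br 35 (.br 36 .dead (.br 37 (.br 38 .dead (.br 41 .dead (.br 48 .dead .dead .dead .dead) .dead .dead) .dead .dead) .dead .dead .dead) .dead .dead) (.br 36 (.br 37 .dead (.br 38 (.br 39 .dead .dead .dead (.br 41 (.br 48 .dead .dead .dead .dead) .dead .dead .dead)) .dead .dead .dead) .dead .dead) .dead .dead .dead)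 .dead .dead)) .dead (.br 34 (.kem 1 3 13 3170304) .dead .dead .dead)) .dead)) .dead)) (.br 29 .dead .dead (.br 30 .dead .dead .dead (.br 31 .dead .dead (.br 32 .dead .dead .dead (.br 33 .dead (.br 34 (.br 35 (.br 36 .dead (.br 37 (.br 38 .dead (.br 42 .dead .dead .dead (.br 43 .dead .dead (.br 44 .dead .dead .dead (.kem 0 1 20 532155171078144)) .dead)) .dead .dead) .dead .dead .dead) .dead .dead) (.br 36 (.br 37 .dead (.br 38 (.br 39 .dead .dead (.br 40 .dead .dead .dead (.br 41 .dead .dead (.kem 0 1 20 25902972928) .dead)) .dead) .dead .dead .dead) .dead .dead) .dead .dead .dead) .dead .dead) .dead .dead .dead) .dead .dead)) .dead)) .dead)) .dead) .dead .dead (.br 27 (.br 28 .dead .dead (.br 29 .dead .dead .dead (.br 30 .dead .dead (.br 31 .dead .dead .dead (.br 34 .dead .dead .dead (.br 32 (.br 33 .dead (.br 35 (.br 36 .dead (.br 37 (.br 41 .dead (.br 48 .dead .dead .dead .dead) .dead .dead) .dead .dead .dead) .dead .dead) (.br 36 (.br 37 .dead (.br 38 .dead .dead (.br 39 .dead .dead .dead (.br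 41 (.br 48 .dead .dead .dead .dead) .dead .dead .dead)) .dead) .dead .dead) .dead .dead .dead) .dead .dead) (.br 35 (.br 36 .dead (.br 37 (.br 41 .dead (.br 48 .dead .dead .dead .dead) .dead .dead) .dead .dead .dead) .dead .dead) (.br 36 (.br 37 .dead (.br 38 .dead .dead (.br 41 (.br 48 .dead .dead .dead .dead) .dead .dead .dead) .dead) .dead .dead) .dead .dead .dead) .dead .dead) .dead) .dead (.br 33 .dead (.br 35 (.br 36 .dead (.br 37 (.br 38 .dead (.br 41 .dead (.br 48 .dead .dead .dead .dead) .dead .dead) .dead .dead) .dead .dead .dead) .dead .dead) (.br 36 (.br 37 .dead (.br 38 (.br 39 .dead .dead .dead (.br 41 (.br 48 .dead .dead .dead .dead) .dead .dead .dead)) .dead .dead .dead) .dead .dead) .dead .dead .dead) .dead .dead) .dead .dead) .dead))) .dead)) (.br 29 .dead .dead (.br 30 .dead .dead .dead (.br 31 .dead .dead (.br 32 (.br 34 .dead .dead (.br 33 .dead (.br 35 (.br 36 .dead (.br 37 (.br 41 .dead (.br 48 .dead .dead .dead .dead) .dead .dead) .dead .dead .dead) .dead .dead) (.br 36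 (.br 37 .dead (.br 38 .dead .dead .dead (.br 39 .dead .dead (.br 41 (.br 48 .dead .dead .dead .dead) .dead .dead .dead) .dead)) .dead .dead) .dead .dead .dead) .dead .dead) .dead .dead) .dead) .dead .dead .dead) .dead)) .dead)) .dead (.kem 0 1 20 1048576) .dead)) .dead .dead) .dead .dead .dead) .dead .dead) .dead .dead .dead) .dead .dead) .dead .dead) .dead)) .dead)) .dead)))

def t7B_5 : Tree :=
  (.br 22 (.br 23 .dead (.br 24 (.br 25 .dead (.br 28 .dead (.br 34 (.br 33 .dead (.br 29 .dead .dead (.br 30 .dead .dead .dead (.br 31 .dead .dead (.br 32 (.br 35 (.br 36 .dead (.br 37 (.br 42 .dead .dead .dead (.br 43 .dead .dead (.br 44 .dead .dead .dead (.br 38 .dead (.br 45 (.br 46 .dead (.br 47 (.br 48 .dead (.br 39 .dead .dead (.br 40 .dead .dead .dead (.br 41 .dead .dead (.fin [(1,3,357419805979688),(0,3,545598285545472),(0,3,1597184),(2,3,178714202409492),(1,3,4262486605824),(0,3,71485708370960),(0,3,17871427092740)]) .dead)) (.kem 2 3 39 3848290697216)) .dead .dead) .dead .dead .dead) .dead .dead)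 .dead .dead .dead) .dead .dead)) .dead)) .dead .dead .dead) .dead .dead) .dead .dead (.br 41 .dead .dead (.br 40 .dead .dead .dead (.br 39 .dead .dead (.br 42 .dead (.br 36 (.br 37 .dead (.br 38 .dead .dead .dead (.br 44 (.br 45 .dead (.br 46 (.br 47 .dead (.br 48 (.br 43 .dead .dead (.fin [(2,3,4161286438912),(1,3,178680178553896),(2,3,177308137751956),(0,3,89357134928404),(2,3,1838976)]) (.kem 2 3 43 8796093022208)) .dead .dead .dead) .dead .dead) .dead .dead .dead) .dead .dead) .dead .dead .dead)) .dead .dead) .dead .dead .dead) .dead .dead) .dead)) .dead)) .dead .dead (.br 35 (.br 36 .dead (.br 37 (.br 38 .dead (.br 42 .dead .dead .dead (.br 43 .dead .dead (.br 44 .dead .dead .dead (.br 45 (.br 39 .dead .dead (.kem 0 3 32 4294967296) .dead) .dead .dead .dead)) .dead)) .dead .dead) .dead .dead .dead) .dead .dead) .dead .dead (.br 41 .dead .dead (.br 40 .dead .dead .dead (.br 42 .dead (.br 36 (.br 37 .dead (.br 38 (.br 39 .dead .dead (.br 44 .dead .dead .dead (.br 43 .dead .dead (.br 45 .dead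 (.kem 0 3 32 17871358918656) .dead .dead) .dead)) .dead) .dead .dead .dead) .dead .dead) .dead .dead .dead) .dead .dead)) .dead))) .dead)) (.br 30 .dead .dead (.br 31 .dead .dead .dead (.br 32 (.br 35 (.br 36 .dead (.br 37 (.br 42 .dead .dead .dead (.br 43 .dead .dead (.br 44 .dead .dead .dead (.br 48 .dead (.br 47 (.br 46 .dead (.br 45 (.br 38 .dead (.kem 2 3 29 3758096384) (.br 39 .dead .dead .dead (.kem 1 2 38 274877906944)) .dead) .dead .dead .dead) .dead .dead) .dead .dead .dead) .dead .dead)) .dead)) .dead .dead .dead) .dead .dead) .dead (.br 41 .dead .dead .dead (.br 40 .dead .dead (.br 39 .dead .dead .dead (.br 36 (.br 37 .dead (.br 38 .dead .dead (.br 42 .dead (.br 48 (.br 47 .dead (.br 46 (.br 45 .dead (.br 43 .dead .dead (.br 44 (.kem 2 3 29 4161286438912) .dead .dead (.kem 0 3 44 17592186044416)) (.br 44 (.kem 2 3 29 4161286438912) .dead .dead .dead)) .dead .dead) .dead .dead .dead) .dead .dead) .dead .dead .dead) .dead (.br 43 .dead .dead (.br 44 (.br 45 .dead (.br 46 (.br 47 .dead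 (.br 48 (.kem 1 3 42 4398046511104) .dead .dead .dead) .dead .dead) .dead .dead .dead) .dead .dead) .dead .dead (.br 45 (.br 46 .dead (.br 47 (.br 48 .dead (.fin [(1,3,17731806068994),(0,1,545357767376896),(1,2,177308137751956),(0,1,89357134928404),(1,2,1838976),(1,3,562949953421311)]) .dead .dead) .dead .dead .dead) .dead .dead) (.kem 0 3 44 17592186044416) .dead .dead)) .dead)) .dead) .dead .dead) (.br 37 (.br 42 .dead .dead .dead (.br 43 .dead .dead (.br 44 .dead .dead .dead (.br 38 .dead (.br 45 (.br 46 .dead (.br 47 (.br 48 .dead (.kem 0 2 35 34359738368) .dead .dead) .dead .dead .dead) .dead .dead) .dead .dead .dead) (.kem 0 1 36 206158430208) .dead)) .dead)) .dead .dead .dead) .dead .dead)) .dead)) .dead) .dead .dead .dead)) .dead)) .dead .dead) .dead .dead .dead) .dead (.br 29 .dead .dead (.br 30 .dead .dead .dead (.br 31 .dead .dead (.br 32 (.br 33 .dead (.br 34 (.br 35 (.br 36 .dead (.br 37 (.br 42 .dead .dead .dead (.br 43 .dead .dead (.br 44 .dead .dead .dead (.br 38 .dead (.br 45 (.br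 46 .dead (.br 47 (.br 48 .dead (.br 41 .dead .dead (.kem 1 3 28 268435456) .dead) .dead .dead) .dead .dead .dead) .dead .dead) .dead .dead .dead) .dead .dead)) .dead)) .dead .dead .dead) .dead .dead) (.br 36 (.br 37 .dead (.br 38 .dead .dead .dead (.br 39 .dead .dead (.br 40 .dead .dead .dead (.br 41 .dead .dead (.br 42 .dead .dead .dead (.br 43 .dead .dead (.br 44 (.br 45 .dead (.br 46 (.br 47 .dead (.br 48 (.kem 1 3 28 4432674684928) .dead .dead .dead) .dead .dead) .dead .dead .dead) .dead .dead) .dead .dead .dead) .dead)) .dead)) .dead)) .dead .dead) .dead .dead .dead) .dead .dead) .dead .dead .dead) .dead .dead) .dead .dead (.br 33 (.br 34 .dead (.br 35 (.br 36 .dead (.br 37 (.br 38 .dead (.br 39 .dead .dead (.br 40 .dead .dead .dead (.br 41 .dead .dead (.br 42 .dead .dead .dead (.br 43 .dead .dead (.br 44 .dead .dead .dead (.br 45 (.br 46 .dead (.br 47 (.br 48 .dead (.fin [(1,3,17871392506114),(0,1,29360128),(0,2,8935681573057),(2,3,4262486605824),(1,2,281474976710656),(1,2,69810262016),(0,2,562949953421311),(1,3,562949953421311)])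 .dead .dead) .dead .dead .dead) .dead .dead) .dead .dead .dead)) .dead)) .dead)) .dead) .dead .dead) .dead .dead .dead) .dead .dead) (.br 36 (.br 37 .dead (.br 38 (.br 42 .dead .dead .dead (.br 43 .dead .dead (.br 44 .dead .dead .dead (.br 45 .dead (.br 39 .dead .dead (.br 40 .dead .dead .dead (.br 46 (.br 47 .dead (.br 48 (.br 41 .dead .dead (.kem 0 1 35 528280977408000) .dead) .dead .dead .dead) .dead .dead) .dead .dead .dead)) .dead) .dead .dead)) .dead)) .dead .dead .dead) .dead .dead) .dead .dead .dead) .dead .dead) .dead .dead) (.br 34 (.br 35 (.br 36 .dead (.br 37 (.br 38 .dead (.br 42 .dead .dead .dead (.br 43 .dead .dead (.br 44 .dead .dead .dead (.kem 0 1 33 532155037908992)) .dead)) .dead .dead) .dead .dead .dead) .dead .dead) (.br 36 (.br 37 .dead (.br 38 (.br 39 .dead .dead (.br 40 .dead .dead .dead (.br 41 .dead .dead (.kem 0 1 33 25769803776) .dead)) .dead) .dead .dead .dead) .dead .dead) .dead .dead .dead) .dead .dead) .dead .dead .dead) .dead .dead)) .dead)) .dead)) .dead (.br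 28 .dead (.br 34 (.br 33 .dead (.br 32 (.br 29 .dead .dead (.br 30 .dead .dead .dead (.br 31 .dead (.br 35 (.br 36 .dead (.br 42 .dead .dead .dead (.br 43 .dead .dead (.br 37 (.br 44 .dead .dead .dead (.br 38 .dead .dead (.br 39 .dead .dead .dead (.br 40 .dead .dead (.br 41 .dead .dead .dead (.br 48 .dead (.br 47 (.br 46 .dead (.br 45 (.fin [(0,3,200855404571433),(2,3,186251343645397),(1,2,239201157120),(2,3,8899442786497),(1,3,17043456),(0,1,17731239837954),(1,3,281474976710656),(0,3,562949953421311),(1,3,562949953421311)]) .dead .dead .dead) .dead .dead) .dead .dead .dead) .dead .dead)) .dead)) .dead)) .dead .dead .dead) .dead)) .dead .dead) .dead .dead (.br 41 .dead .dead (.br 40 .dead .dead .dead (.br 39 .dead .dead (.br 38 .dead .dead .dead (.br 42 .dead (.br 36 (.br 37 .dead .dead (.br 43 .dead .dead .dead (.br 44 (.br 45 .dead (.br 46 (.br 47 .dead (.br 48 (.fin [(1,3,13228767740162),(1,2,2097152),(2,3,4262486605824),(0,2,281474976727233),(0,1,1580992),(0,2,69810262016),(0,2,562949953421311),(1,3,562949953421311),(2,3,562949953421311)])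 .dead .dead .dead) .dead .dead) .dead .dead .dead) .dead .dead) .dead .dead .dead)) .dead) .dead .dead .dead) .dead .dead)) .dead)) .dead)) (.kem 1 3 25 33554432) .dead)) (.br 30 .dead .dead (.br 31 .dead (.br 35 (.br 36 .dead (.br 42 .dead .dead .dead (.br 43 .dead .dead (.br 48 .dead (.br 47 (.br 46 .dead (.br 45 (.br 44 .dead .dead .dead (.br 37 (.kem 2 3 29 1610612736) .dead .dead .dead)) .dead .dead .dead) .dead .dead) .dead .dead .dead) .dead .dead) .dead)) .dead .dead) .dead (.br 41 .dead .dead .dead (.br 40 .dead .dead (.br 39 .dead .dead .dead (.br 38 .dead .dead (.br 36 (.br 37 .dead .dead .dead (.br 43 .dead .dead (.br 44 (.kem 1 3 25 139619991552) .dead .dead .dead) .dead)) (.br 42 .dead .dead .dead (.br 43 .dead .dead (.br 37 (.kem 1 3 25 2181038080) .dead .dead (.kem 0 1 36 68719476736)) .dead)) .dead .dead) .dead)) .dead)) .dead) .dead .dead) .dead)) .dead .dead .dead) .dead .dead) .dead .dead .dead) .dead (.br 29 .dead .dead (.br 30 .dead .dead .dead (.br 31 .dead (.br 32 (.br 33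 .dead (.br 34 (.br 35 (.br 36 .dead (.br 42 .dead .dead .dead (.br 43 .dead .dead (.br 37 (.br 44 .dead .dead .dead (.br 38 .dead .dead (.br 39 .dead .dead .dead (.br 40 .dead .dead (.br 41 .dead (.br 48 .dead .dead .dead .dead) .dead .dead) .dead)) .dead)) .dead .dead .dead) .dead)) .dead .dead) (.br 36 (.br 37 .dead .dead (.br 38 .dead .dead .dead (.br 39 .dead .dead (.br 40 .dead .dead .dead (.br 41 .dead .dead (.br 42 .dead .dead .dead (.br 43 .dead .dead .dead .dead)) .dead)) .dead)) .dead) .dead .dead .dead) .dead .dead) .dead .dead .dead) .dead .dead) .dead .dead .dead) (.br 32 (.kem 1 3 25 33554432) (.br 33 (.br 34 .dead (.br 35 (.br 36 .dead (.br 37 (.br 38 .dead .dead .dead (.br 44 .dead .dead .dead .dead)) .dead .dead .dead) .dead .dead) (.br 36 (.br 37 .dead (.br 42 .dead .dead .dead (.br 43 .dead .dead (.br 48 (.br 41 .dead .dead (.br 40 .dead .dead .dead (.br 39 .dead .dead (.br 47 .dead (.br 46 (.br 45 .dead (.br 38 (.kem 1 3 25 4328521728) .dead .dead (.kem 0 1 32 30064771072))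 .dead .dead) .dead .dead .dead) .dead .dead) .dead)) .dead) .dead .dead .dead) .dead)) .dead .dead) .dead .dead .dead) .dead .dead) .dead .dead) .dead .dead .dead) .dead .dead) .dead)) .dead))) .dead .dead .dead) .dead .dead) .dead .dead (.br 23 (.br 24 .dead (.br 25 .dead .dead .dead (.br 28 (.br 34 .dead (.br 33 (.br 32 .dead (.br 29 .dead (.br 30 .dead .dead (.br 31 (.br 35 .dead .dead (.br 41 .dead .dead .dead (.br 40 .dead .dead (.br 39 .dead .dead .dead (.br 38 .dead .dead (.br 36 (.br 37 .dead (.br 42 .dead (.br 48 (.br 47 .dead (.br 46 (.br 45 .dead (.br 43 .dead .dead (.br 44 (.fin [(1,3,142953826758688),(1,3,35738473333768),(2,3,35463613120900),(0,3,17895346675204),(2,3,141853116402576),(0,3,71485708370960)]) .dead .dead (.kem 0 3 44 17592186044416)) (.br 44 (.kem 2 3 43 8796093022208) .dead .dead .dead)) .dead .dead) .dead .dead .dead) .dead .dead) .dead .dead .dead) .dead (.br 43 .dead .dead (.br 44 (.br 45 .dead (.br 46 (.br 47 .dead (.br 48 (.kem 1 3 42 4398046511104) .dead .dead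 .dead) .dead .dead) .dead .dead .dead) .dead .dead) .dead .dead (.br 45 (.br 46 .dead (.br 47 (.br 48 .dead (.fin [(1,3,17730166096130),(0,1,68719476736),(0,2,8830723309761),(1,2,281474976710656),(1,2,69810262016),(0,2,562949953421311),(1,3,562949953421311)]) .dead .dead) .dead .dead .dead) .dead .dead) (.kem 0 3 44 17592186044416) .dead .dead)) .dead)) .dead (.br 43 .dead .dead (.br 44 (.kem 1 3 37 137438953472) .dead .dead .dead) .dead)) .dead .dead (.br 37 .dead (.br 42 .dead (.br 43 .dead .dead (.kem 0 3 36 68719476736) .dead) .dead .dead) .dead .dead)) .dead)) .dead)) (.br 36 (.br 41 .dead .dead (.br 40 .dead .dead .dead (.br 39 .dead .dead (.br 38 .dead .dead .dead (.br 37 .dead (.br 42 .dead (.br 44 (.br 45 .dead (.br 46 (.br 47 .dead (.br 48 (.kem 2 3 35 4157528342528) .dead .dead .dead) .dead .dead) .dead .dead .dead) .dead .dead) .dead .dead .dead) .dead .dead) .dead .dead)) .dead)) .dead) .dead .dead .dead)) .dead .dead .dead) (.br 31 (.br 35 .dead .dead (.br 36 (.br 41 .dead .dead .dead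 (.br 40 .dead .dead (.br 39 .dead .dead .dead (.br 38 .dead .dead (.br 37 .dead (.kem 2 3 30 1073741824) .dead .dead) .dead)) .dead)) .dead .dead .dead) (.br 41 .dead .dead (.br 40 .dead .dead .dead (.br 39 .dead .dead (.br 38 .dead .dead .dead (.br 42 .dead (.br 44 (.br 45 .dead (.br 46 (.br 47 .dead (.br 48 (.kem 2 3 30 13160853536768) .dead .dead .dead) .dead .dead) .dead .dead .dead) .dead .dead) .dead .dead .dead) .dead .dead)) .dead)) .dead)) .dead (.br 35 .dead .dead (.br 36 (.br 37 .dead (.br 41 .dead .dead .dead (.br 40 .dead .dead (.br 39 .dead .dead .dead (.br 38 (.br 44 .dead .dead .dead (.br 43 .dead .dead (.br 45 .dead (.kem 0 2 31 277025390592) .dead .dead) .dead)) .dead .dead .dead)) .dead)) .dead .dead) .dead .dead .dead) (.br 41 .dead .dead (.br 40 .dead .dead .dead (.br 39 .dead .dead (.br 42 .dead (.br 48 (.br 47 .dead (.br 46 (.br 45 .dead (.br 36 (.br 37 .dead (.br 38 (.kem 2 3 35 3882650435584) .dead .dead (.kem 0 2 31 2147483648)) .dead .dead) .dead (.br 43 .dead .dead .dead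 (.br 44 (.br 37 .dead (.kem 0 2 36 68719476736) .dead .dead) .dead .dead .dead)) .dead) .dead .dead) .dead .dead .dead) .dead .dead) .dead .dead .dead) .dead .dead) .dead)) .dead)) .dead)) (.br 30 .dead .dead .dead (.br 31 (.br 35 .dead (.br 36 (.br 42 .dead .dead .dead (.br 43 .dead .dead (.br 37 .dead (.br 48 (.br 47 .dead (.br 46 (.br 45 .dead (.br 38 .dead .dead (.br 39 .dead .dead .dead (.br 40 .dead .dead (.br 41 .dead .dead .dead (.kem 1 2 29 34896609280)) .dead)) (.br 39 .dead .dead (.br 40 .dead .dead .dead (.br 41 .dead .dead (.br 44 (.kem 2 3 38 4123168604160) .dead .dead .dead) .dead)) .dead)) .dead .dead) .dead .dead .dead) .dead .dead) .dead .dead .dead) .dead .dead) .dead)) .dead .dead .dead) .dead (.br 41 .dead .dead (.br 40 .dead .dead .dead (.br 39 .dead .dead (.br 38 .dead .dead .dead (.br 42 .dead (.br 36 (.kem 1 2 29 536870912) .dead .dead .dead) .dead .dead)) .dead)) .dead)) .dead (.br 35 .dead (.br 36 (.br 37 .dead (.br 42 .dead .dead .dead (.br 43 .dead .dead (.br 48 (.br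 47 .dead (.br 46 (.br 45 .dead (.br 38 (.br 44 .dead .dead .dead (.br 39 .dead .dead (.br 40 .dead .dead .dead (.br 41 .dead .dead (.fin [(2,3,3848290697216),(0,2,290340605084357),(1,2,35184372088832),(0,1,9238478429382),(0,3,17731239837954),(0,2,266240),(1,2,432220077054161),(0,1,562949953421311),(1,3,562949953421311)]) .dead)) (.kem 0 2 31 277025390592))) .dead .dead (.kem 0 2 31 2147483648)) .dead .dead) .dead .dead .dead) .dead .dead) .dead .dead .dead) .dead)) .dead .dead) .dead .dead .dead) .dead (.br 41 .dead .dead (.br 40 .dead .dead .dead (.br 39 .dead .dead (.br 42 .dead (.br 36 (.kem 1 2 29 536870912) .dead .dead .dead) .dead .dead) .dead)) .dead)) .dead)) .dead) .dead .dead) .dead .dead .dead) .dead .dead) (.br 29 .dead .dead (.br 30 .dead .dead .dead (.br 34 (.br 33 .dead (.br 32 (.br 31 .dead .dead (.br 35 (.br 36 .dead (.br 37 (.br 42 .dead .dead .dead (.br 43 .dead .dead (.br 44 .dead .dead .dead (.kem 0 1 28 532159601311744)) .dead)) .dead .dead .dead) .dead .dead) .dead .dead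 (.br 41 .dead .dead (.br 40 .dead .dead .dead (.br 39 .dead .dead (.br 42 .dead (.br 36 (.br 37 .dead (.br 38 .dead .dead .dead (.kem 0 1 28 30333206528)) .dead .dead) .dead .dead .dead) .dead .dead) .dead)) .dead)) .dead) .dead .dead .dead) .dead .dead) .dead .dead .dead)) .dead) .dead .dead)) .dead .dead) (.br 24 (.br 25 .dead (.br 28 (.br 29 .dead .dead (.br 30 .dead .dead .dead (.br 31 .dead .dead (.br 34 .dead (.br 33 (.br 32 .dead .dead .dead (.br 35 .dead (.br 36 (.br 37 .dead (.br 38 (.br 42 .dead .dead .dead (.br 43 .dead .dead (.br 44 .dead .dead .dead (.br 45 .dead (.br 39 .dead .dead (.br 40 .dead .dead .dead (.br 41 .dead .dead (.kem 0 3 22 272629760) .dead)) .dead) .dead .dead)) .dead)) .dead .dead .dead) .dead .dead) .dead .dead .dead) .dead (.br 41 .dead .dead (.br 40 .dead .dead .dead (.br 42 .dead (.br 36 (.br 37 .dead (.br 38 (.br 44 .dead .dead .dead (.br 43 .dead .dead (.br 45 .dead (.br 39 .dead .dead (.br 46 (.br 47 .dead (.br 48 (.kem 1 3 35 4432406249472) .dead .dead .dead)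 .dead .dead) .dead .dead .dead) .dead) .dead .dead) .dead)) .dead .dead .dead) .dead .dead) .dead .dead .dead) .dead .dead)) .dead))) .dead .dead .dead) .dead .dead) .dead)) .dead) (.br 34 (.br 33 .dead (.br 29 (.br 30 .dead .dead (.br 31 .dead .dead .dead (.br 32 (.br 35 .dead .dead (.br 41 .dead .dead .dead (.br 40 .dead .dead (.br 39 .dead .dead .dead (.br 36 .dead (.kem 0 3 22 541065216) .dead (.br 42 .dead (.br 43 .dead .dead (.br 48 (.br 47 .dead (.br 46 (.br 45 .dead (.br 38 .dead .dead (.br 37 (.kem 1 3 36 4466765987840) (.kem 0 3 22 69260541952) .dead .dead) .dead) .dead .dead) .dead .dead .dead) .dead .dead) .dead .dead .dead) .dead) .dead .dead))) .dead)) (.br 36 .dead (.br 42 .dead .dead .dead .dead) .dead .dead)) .dead .dead .dead)) (.br 31 .dead .dead (.br 32 (.br 35 .dead .dead (.br 36 .dead (.br 37 (.br 41 .dead .dead .dead (.br 40 .dead .dead (.br 39 .dead .dead .dead (.br 38 .dead (.kem 2 3 30 3221225472) .dead .dead)) .dead)) .dead .dead .dead) .dead .dead) (.br 41 .dead .dead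 (.br 40 .dead .dead .dead (.br 39 .dead .dead (.br 42 .dead (.br 36 .dead .dead (.br 43 .dead .dead .dead (.br 44 (.br 37 .dead (.br 38 .dead .dead .dead (.br 45 .dead (.br 46 (.br 47 .dead (.br 48 (.kem 2 3 30 13025562066944) .dead .dead .dead) .dead .dead) .dead .dead .dead) .dead .dead)) .dead .dead) .dead .dead .dead)) .dead) .dead .dead) .dead)) .dead)) .dead .dead (.br 35 .dead .dead (.br 36 .dead (.br 37 (.br 38 .dead (.br 41 .dead .dead .dead (.br 40 .dead .dead (.br 39 (.br 45 .dead .dead .dead .dead) .dead .dead .dead) .dead)) .dead .dead) .dead .dead .dead) .dead .dead) (.br 41 .dead .dead (.br 40 .dead .dead .dead (.br 42 .dead (.br 36 .dead .dead (.br 43 .dead .dead .dead (.br 44 (.br 37 .dead (.br 38 .dead .dead .dead .dead) .dead .dead) .dead .dead .dead)) .dead) .dead .dead)) .dead))) .dead)) .dead (.kem 0 3 22 4194304) .dead) .dead .dead) .dead .dead .dead) .dead .dead) .dead (.br 28 (.br 29 .dead .dead (.br 30 .dead .dead .dead (.br 34 .dead (.br 33 (.br 32 .dead (.br 31 .dead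 .dead (.kem 0 1 23 25165824) .dead) .dead .dead) .dead .dead .dead) .dead .dead)) .dead) (.br 34 (.br 33 .dead (.br 32 (.br 29 (.br 30 .dead .dead (.br 31 .dead (.br 35 .dead .dead (.br 41 .dead .dead .dead (.br 40 .dead .dead (.br 39 .dead .dead .dead (.br 38 .dead .dead (.br 36 .dead (.kem 0 3 22 541065216) .dead (.br 37 (.kem 1 3 25 2181038080) .dead .dead .dead)) .dead)) .dead)) (.br 36 .dead (.br 42 .dead .dead .dead .dead) .dead .dead)) .dead .dead) (.br 31 .dead (.br 35 .dead .dead (.br 36 .dead (.br 41 .dead .dead .dead (.br 40 .dead .dead (.br 39 .dead .dead .dead (.br 38 .dead .dead (.br 37 (.kem 2 3 30 1073741824) .dead .dead .dead) .dead)) .dead)) .dead .dead) (.br 41 .dead .dead (.br 40 .dead .dead .dead (.br 39 .dead .dead (.br 38 .dead .dead .dead (.br 42 .dead (.br 36 .dead .dead (.br 37 (.br 44 .dead .dead .dead .dead) .dead .dead .dead) .dead) .dead .dead)) .dead)) .dead)) (.kem 1 3 25 33554432) .dead)) .dead (.kem 0 3 22 4194304) .dead) .dead .dead .dead) .dead .dead) .dead .dead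 .dead) .dead .dead)) .dead .dead .dead) .dead .dead))

def t7B_6 : Tree :=
  (.br 19 (.br 21 .dead .dead (.br 22 (.br 23 .dead (.br 24 (.br 27 .dead .dead .dead (.br 26 .dead .dead (.br 25 .dead (.kem 2 3 16 458752) .dead .dead) .dead)) .dead .dead .dead) .dead .dead) .dead .dead .dead) (.br 27 .dead .dead (.br 26 .dead .dead .dead (.br 22 (.br 23 .dead (.br 24 (.br 25 .dead (.kem 2 3 16 458752) (.br 28 .dead (.br 34 (.br 33 .dead (.br 32 (.br 29 .dead .dead (.br 30 .dead .dead .dead (.br 31 .dead (.kem 2 3 16 237436928) .dead .dead)) (.br 30 .dead .dead (.br 31 .dead (.kem 2 3 16 237436928) .dead (.kem 1 2 25 33554432)) .dead)) .dead .dead .dead) .dead .dead) .dead .dead .dead) (.br 29 .dead .dead .dead (.br 30 .dead .dead (.br 31 .dead (.br 32 (.br 33 .dead (.br 34 (.br 35 (.br 36 .dead (.br 42 .dead .dead .dead (.br 43 .dead .dead (.br 48 .dead (.br 41 .dead .dead .dead (.kem 1 2 28 268435456)) .dead .dead) .dead)) .dead .dead) (.br 36 (.br 37 .dead .dead .dead (.br 38 .dead .dead (.br 39 .dead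 .dead .dead (.br 40 .dead .dead (.br 41 .dead .dead .dead (.br 42 .dead .dead .dead (.br 43 .dead .dead (.br 44 (.br 45 .dead (.br 46 (.br 47 .dead (.br 48 (.kem 1 2 28 34628173824) .dead .dead .dead) .dead .dead) .dead .dead .dead) .dead .dead) .dead .dead .dead) .dead))) .dead)) .dead)) .dead .dead .dead) .dead .dead) .dead .dead .dead) .dead .dead) .dead .dead .dead) .dead (.br 32 (.kem 1 2 25 33554432) (.br 33 (.br 34 .dead (.br 35 (.br 36 .dead (.br 37 (.br 38 .dead .dead (.br 39 .dead .dead .dead (.br 40 .dead .dead (.br 41 .dead .dead .dead (.kem 0 1 32 30064771072)) .dead)) .dead) .dead .dead .dead) .dead .dead) (.br 36 (.br 37 .dead (.br 42 .dead .dead .dead (.br 43 .dead .dead (.br 48 (.br 41 .dead .dead .dead (.br 40 .dead .dead (.br 39 .dead .dead .dead (.br 47 .dead (.br 46 (.br 45 .dead (.br 38 (.kem 2 3 16 3852554665984) .dead (.kem 0 1 32 30064771072) .dead) .dead .dead) .dead .dead .dead) .dead .dead)) .dead)) .dead .dead .dead) .dead)) .dead .dead) .dead .dead .dead) .dead .dead)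 .dead .dead) .dead .dead .dead) .dead .dead)) .dead)) .dead) .dead) .dead .dead .dead) .dead .dead) .dead (.br 23 (.br 24 .dead (.br 25 .dead .dead (.br 28 (.br 34 .dead (.br 33 (.br 32 .dead (.br 29 .dead (.br 30 .dead .dead (.br 31 (.kem 2 3 16 241631232) .dead .dead (.br 35 .dead .dead (.br 41 .dead .dead .dead (.br 40 .dead .dead (.br 39 .dead .dead .dead (.br 36 (.br 37 .dead (.br 38 (.kem 2 3 16 3462856704) .dead (.kem 0 3 31 2147483648) .dead) .dead .dead) .dead .dead (.br 42 .dead (.br 43 .dead .dead (.br 48 (.br 47 .dead (.br 46 (.br 45 .dead (.br 37 (.br 38 .dead .dead (.kem 0 3 31 17800491958272) .dead) (.kem 0 3 36 68719476736) .dead .dead) .dead .dead) .dead .dead .dead) .dead .dead) .dead .dead .dead) .dead) .dead .dead))) .dead)) (.br 36 (.br 37 .dead (.br 41 .dead .dead (.br 40 .dead .dead .dead (.br 39 .dead .dead (.br 38 (.kem 2 3 16 3462856704) .dead .dead .dead) .dead)) .dead) .dead .dead) .dead .dead .dead))) (.br 31 (.kem 2 3 16 241631232) .dead .dead .dead)) .dead (.br 30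 .dead .dead (.br 31 (.br 35 .dead (.br 36 (.br 42 .dead .dead .dead (.br 43 .dead .dead (.br 48 (.br 47 .dead (.br 46 (.br 45 .dead (.br 37 .dead (.kem 2 3 16 1852243968) .dead (.br 38 .dead .dead (.br 39 .dead .dead .dead (.br 40 .dead .dead (.br 41 .dead .dead .dead (.br 44 (.kem 1 3 37 137438953472) .dead .dead .dead)) .dead)) .dead)) .dead .dead) .dead .dead .dead) .dead .dead) .dead .dead .dead) .dead)) .dead .dead .dead) (.br 41 .dead .dead .dead (.br 40 .dead .dead (.br 39 .dead .dead .dead (.br 38 .dead .dead (.br 36 (.kem 1 3 29 536870912) (.br 37 .dead .dead .dead (.br 42 .dead .dead .dead (.br 43 .dead .dead (.kem 0 1 36 68719476736) .dead))) .dead .dead) .dead)) .dead)) .dead) .dead .dead (.br 35 .dead (.br 36 (.br 37 .dead (.br 42 .dead .dead .dead (.br 43 .dead .dead (.br 48 (.br 47 .dead (.br 46 (.br 45 .dead (.br 38 (.kem 2 3 16 3999727616) .dead (.kem 0 3 31 2147483648) .dead) .dead .dead) .dead .dead .dead) .dead .dead) .dead .dead .dead) .dead)) .dead .dead) .dead .dead .dead)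 (.br 41 .dead .dead .dead (.br 40 .dead .dead (.br 39 .dead .dead .dead (.br 36 (.kem 1 3 29 536870912) (.br 37 (.br 38 .dead .dead (.br 42 .dead .dead .dead (.br 43 .dead .dead (.br 44 .dead .dead .dead (.kem 0 1 36 206158430208)) .dead)) .dead) .dead .dead .dead) .dead .dead)) .dead)) .dead)) .dead)) .dead .dead) .dead .dead .dead) .dead .dead) (.br 29 .dead .dead .dead (.br 30 .dead .dead (.br 34 (.br 33 .dead (.br 32 (.br 31 .dead .dead .dead (.br 35 (.br 36 .dead (.br 37 (.br 42 .dead .dead .dead (.br 43 .dead .dead (.br 44 .dead .dead .dead (.kem 0 1 28 532159601311744)) .dead)) .dead .dead .dead) .dead .dead) .dead (.br 41 .dead .dead .dead (.br 40 .dead .dead (.br 39 .dead .dead .dead (.br 36 (.br 37 .dead (.br 38 .dead .dead (.kem 0 1 28 30333206528) .dead) .dead .dead) (.br 37 (.br 42 .dead .dead .dead (.br 43 .dead .dead (.br 44 .dead .dead .dead (.kem 0 1 28 528276950876160)) .dead)) .dead .dead .dead) .dead .dead)) .dead)) .dead)) .dead .dead .dead) .dead .dead) .dead .dead .dead)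 .dead)) .dead .dead) .dead) .dead .dead) (.br 24 (.br 25 .dead (.br 28 (.br 29 .dead .dead .dead (.br 30 .dead .dead (.br 31 .dead .dead .dead (.br 34 .dead (.br 33 (.br 32 .dead .dead (.br 35 .dead (.br 36 (.br 37 .dead (.br 38 (.br 42 .dead .dead .dead (.br 43 .dead .dead (.br 44 .dead .dead .dead (.br 45 .dead (.br 39 .dead .dead .dead (.br 40 .dead .dead (.br 41 .dead .dead .dead (.kem 0 2 22 272629760)) .dead)) .dead .dead)) .dead)) .dead .dead .dead) .dead .dead) .dead .dead .dead) (.br 41 .dead .dead .dead (.br 40 .dead .dead (.br 36 (.br 37 .dead (.br 38 (.br 44 .dead .dead .dead (.br 43 .dead .dead (.br 45 .dead (.br 39 .dead .dead .dead (.br 46 (.br 47 .dead (.br 48 (.br 42 .dead (.kem 2 3 16 3890911576064) .dead (.kem 1 2 35 34359738368)) .dead .dead .dead) .dead .dead) .dead .dead .dead)) .dead .dead) .dead)) .dead .dead .dead) .dead .dead) (.br 37 (.br 38 .dead (.br 39 .dead .dead .dead (.br 42 .dead .dead .dead (.br 43 .dead .dead (.br 44 .dead .dead .dead (.kem 0 1 36 528246617669632))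 .dead))) .dead .dead) .dead .dead .dead) .dead .dead) .dead)) .dead) .dead) .dead .dead .dead) .dead .dead)) .dead)) (.br 34 (.br 33 .dead (.br 29 (.br 30 .dead .dead (.br 31 .dead .dead .dead (.br 32 (.kem 2 3 16 208076800) .dead (.br 35 .dead .dead (.br 41 .dead .dead .dead (.br 40 .dead .dead (.br 36 .dead (.br 37 (.br 38 .dead (.br 42 .dead .dead .dead (.br 43 .dead .dead (.br 44 .dead .dead .dead (.br 45 (.br 39 .dead .dead .dead (.kem 0 2 32 4294967296)) .dead .dead .dead)) .dead)) .dead .dead) .dead .dead .dead) .dead (.br 42 .dead (.br 43 .dead .dead (.br 48 (.br 47 .dead (.br 46 (.br 39 .dead .dead .dead (.br 45 .dead (.br 38 (.br 37 .dead (.br 44 .dead .dead .dead (.kem 0 2 32 279172874240)) .dead .dead) .dead .dead .dead) .dead .dead)) .dead .dead .dead) .dead .dead) .dead .dead .dead) .dead) .dead .dead)) .dead)) (.br 36 .dead (.br 42 .dead .dead .dead .dead) .dead .dead)) .dead)) (.br 31 .dead .dead (.br 32 (.kem 2 3 16 208076800) .dead .dead .dead) .dead)) .dead .dead (.kem 0 2 22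 4194304)) .dead .dead) .dead .dead .dead) .dead .dead) (.br 28 (.br 29 .dead .dead .dead (.br 30 .dead .dead (.br 34 .dead (.br 33 (.br 32 .dead (.br 31 .dead .dead .dead (.kem 0 1 23 25165824)) .dead .dead) .dead .dead .dead) .dead .dead) .dead)) (.br 34 (.br 33 .dead (.br 32 (.br 29 (.br 30 .dead .dead (.br 31 .dead (.kem 2 3 16 241631232) .dead (.kem 1 2 25 33554432)) (.br 31 .dead (.kem 2 3 16 241631232) .dead .dead)) .dead .dead (.kem 0 2 22 4194304)) .dead .dead .dead) .dead .dead) .dead .dead .dead) .dead .dead) .dead) .dead .dead .dead) .dead .dead) .dead)) .dead)) .dead (.br 21 .dead .dead (.br 22 (.br 23 .dead (.br 24 (.br 25 .dead (.br 27 .dead .dead .dead (.br 26 (.br 28 .dead (.br 34 (.br 29 .dead .dead (.br 30 .dead .dead .dead (.br 31 .dead .dead (.br 32 .dead .dead .dead (.br 33 .dead (.kem 0 2 19 67633152) (.br 35 (.br 36 .dead (.br 37 (.br 38 .dead (.br 39 (.br 45 .dead .dead .dead .dead) .dead .dead .dead) .dead .dead) .dead .dead .dead) .dead .dead) .dead .dead (.br 41 .dead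 .dead (.br 42 .dead (.br 36 (.br 37 .dead (.br 38 (.br 39 .dead (.br 45 .dead .dead .dead .dead) .dead .dead) .dead .dead .dead) .dead .dead) .dead .dead .dead) .dead .dead) .dead)) .dead)) .dead)) (.br 30 .dead .dead (.br 31 .dead .dead .dead (.br 32 .dead .dead (.br 33 .dead (.br 35 (.br 36 .dead (.br 37 (.br 38 .dead (.br 42 .dead .dead .dead (.br 43 .dead .dead (.br 44 .dead .dead .dead (.br 45 (.br 39 .dead .dead .dead (.kem 0 2 19 4362600448)) .dead .dead .dead)) .dead)) .dead .dead) .dead .dead .dead) .dead .dead) .dead (.br 41 .dead .dead .dead (.br 40 .dead .dead (.br 36 (.br 37 .dead (.br 38 (.br 39 .dead .dead .dead (.br 44 .dead .dead .dead (.br 43 .dead .dead (.br 45 .dead (.kem 0 2 19 279240507392) .dead .dead) .dead))) .dead .dead .dead) .dead .dead) (.br 37 (.br 38 .dead (.br 42 .dead .dead .dead (.br 43 .dead .dead (.br 44 .dead .dead .dead (.br 45 (.br 39 .dead .dead .dead (.kem 0 2 19 4362600448)) .dead .dead .dead)) .dead)) .dead .dead) .dead .dead .dead) .dead .dead) .dead))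 .dead) .dead .dead) .dead)) .dead)) .dead .dead .dead) .dead (.br 29 .dead .dead (.br 30 .dead .dead .dead (.br 31 .dead .dead (.br 32 .dead .dead .dead (.br 33 .dead (.kem 0 2 19 67633152) (.br 34 (.br 35 (.br 36 .dead (.br 37 (.br 38 .dead (.br 39 (.br 45 .dead .dead .dead .dead) .dead .dead .dead) .dead .dead) .dead .dead .dead) .dead .dead) (.br 36 (.br 37 .dead (.br 38 (.br 39 .dead (.br 45 .dead .dead .dead .dead) .dead .dead) .dead .dead .dead) .dead .dead) .dead .dead .dead) .dead .dead) (.br 35 (.br 36 .dead (.br 37 (.br 38 .dead (.br 39 (.br 45 .dead .dead .dead .dead) .dead .dead .dead) .dead .dead) .dead .dead .dead) .dead .dead) (.br 36 (.br 37 .dead (.br 38 (.br 39 .dead (.br 45 .dead .dead .dead .dead) .dead .dead) .dead .dead .dead) .dead .dead) .dead .dead .dead) .dead .dead) .dead .dead) .dead)) .dead)) .dead)) .dead .dead .dead)) .dead .dead) .dead .dead .dead) .dead .dead) .dead .dead .dead) (.br 27 .dead .dead (.br 22 (.br 23 .dead (.br 24 (.br 25 .dead (.br 26 (.br 28 .dead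 (.br 34 (.br 29 .dead .dead (.br 30 .dead .dead .dead (.br 31 .dead .dead (.br 32 .dead .dead .dead (.br 33 .dead (.kem 2 3 21 136314880) .dead .dead)) .dead)) (.br 30 .dead .dead (.br 31 .dead .dead .dead (.br 32 .dead .dead (.br 33 .dead (.kem 2 3 21 136314880) .dead (.br 35 (.br 36 .dead (.br 37 (.br 38 .dead (.br 39 (.br 45 .dead .dead .dead .dead) .dead .dead .dead) .dead .dead) .dead .dead .dead) .dead .dead) .dead (.br 41 .dead .dead .dead (.br 36 (.br 37 .dead (.br 38 (.br 39 .dead (.br 45 .dead .dead .dead .dead) .dead .dead) .dead .dead .dead) .dead .dead) (.br 37 (.br 38 .dead (.br 39 (.br 45 .dead .dead .dead .dead) .dead .dead .dead) .dead .dead) .dead .dead .dead) .dead .dead)) .dead)) .dead)) .dead)) .dead .dead .dead) (.br 29 .dead .dead .dead (.br 30 .dead .dead (.br 31 .dead .dead .dead (.br 32 .dead .dead (.br 33 .dead (.br 34 (.br 35 (.br 36 .dead (.br 37 (.br 38 .dead (.br 42 .dead .dead .dead (.br 43 .dead .dead (.br 44 .dead .dead .dead (.br 45 (.br 39 .dead .dead .dead (.br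 40 .dead .dead (.br 46 .dead (.br 47 (.br 48 .dead (.kem 2 3 21 3856748511232) .dead .dead) .dead .dead .dead) .dead .dead) .dead)) .dead .dead .dead)) .dead)) .dead .dead) .dead .dead .dead) .dead .dead) (.br 36 (.br 37 .dead (.br 38 (.br 39 .dead .dead .dead (.br 40 .dead .dead (.br 41 .dead .dead .dead (.br 42 .dead .dead .dead (.br 43 .dead .dead (.br 44 .dead .dead .dead (.kem 0 1 35 528280977408000)) .dead))) .dead)) .dead .dead .dead) .dead .dead) .dead .dead .dead) .dead .dead) .dead .dead .dead) .dead (.br 34 (.br 35 (.br 36 .dead (.br 37 (.br 38 .dead (.br 39 (.br 45 .dead .dead .dead .dead) .dead .dead .dead) .dead .dead) .dead .dead .dead) .dead .dead) (.br 36 (.br 37 .dead (.br 38 (.br 39 .dead (.br 45 .dead .dead .dead .dead) .dead .dead) .dead .dead .dead) .dead .dead) .dead .dead .dead) .dead .dead) (.br 35 (.br 36 .dead (.br 37 (.br 38 .dead (.br 39 (.br 45 .dead .dead .dead .dead) .dead .dead .dead) .dead .dead) .dead .dead .dead) .dead .dead) (.br 36 (.br 37 .dead (.br 38 (.br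 39 .dead (.br 45 .dead .dead .dead .dead) .dead .dead) .dead .dead .dead) .dead .dead) .dead .dead .dead) .dead .dead) .dead .dead)) .dead)) .dead)) .dead) .dead .dead (.kem 0 2 19 524288)) .dead .dead) .dead .dead .dead) .dead .dead) .dead (.br 23 (.br 24 .dead (.br 25 (.br 26 .dead .dead .dead (.br 28 (.br 34 .dead (.br 33 (.br 29 .dead (.br 30 .dead .dead (.br 31 .dead .dead .dead (.br 32 .dead (.kem 0 2 19 34078720) (.br 35 .dead .dead (.br 41 .dead .dead .dead (.br 40 .dead .dead (.br 36 (.br 37 .dead (.br 38 (.br 44 .dead .dead .dead (.br 43 .dead .dead (.br 45 .dead (.br 39 .dead .dead .dead (.kem 1 2 32 4294967296)) .dead .dead) .dead)) .dead .dead .dead) .dead .dead) .dead .dead (.br 42 .dead (.br 43 .dead .dead (.br 48 (.br 47 .dead (.br 46 (.br 45 .dead (.br 38 (.br 37 .dead (.kem 0 3 36 68719476736) .dead .dead) .dead .dead .dead) .dead .dead) .dead .dead .dead) .dead .dead) .dead .dead .dead) .dead) .dead .dead)) .dead)) (.br 36 (.br 37 .dead (.br 38 (.br 41 .dead .dead (.br 40 .dead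 .dead .dead (.br 39 .dead (.br 45 .dead .dead .dead .dead) .dead .dead)) .dead) .dead .dead .dead) .dead .dead) .dead .dead .dead)) .dead)) (.br 31 .dead .dead (.br 32 .dead (.br 35 .dead .dead (.br 36 (.br 37 .dead (.br 41 .dead .dead .dead (.br 40 .dead .dead (.br 39 .dead .dead .dead (.br 38 (.kem 2 3 30 3221225472) .dead .dead .dead)) .dead)) .dead .dead) .dead .dead .dead) (.br 41 .dead .dead (.br 40 .dead .dead .dead (.br 39 .dead .dead (.br 42 .dead (.br 48 (.br 47 .dead (.br 46 (.br 45 .dead (.br 36 (.br 37 .dead (.br 38 (.kem 2 3 30 3221225472) .dead .dead (.kem 0 2 19 2181562368)) .dead .dead) .dead (.br 43 .dead .dead .dead (.br 44 (.kem 2 3 30 13163001020416) .dead .dead .dead)) .dead) .dead .dead) .dead .dead .dead) .dead .dead) .dead .dead .dead) .dead .dead) .dead)) .dead)) .dead .dead) .dead)) .dead (.br 30 .dead .dead (.br 31 .dead .dead .dead (.br 32 .dead (.kem 0 2 19 34078720) (.br 35 .dead (.br 36 (.br 37 .dead (.br 38 (.br 42 .dead .dead .dead (.br 43 .dead .dead (.br 44 .dead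 .dead .dead (.br 45 .dead (.br 39 .dead .dead .dead (.kem 1 2 32 4294967296)) .dead .dead)) .dead)) .dead .dead .dead) .dead .dead) .dead .dead .dead) (.br 41 .dead .dead .dead (.br 40 .dead .dead (.br 36 (.kem 1 3 29 536870912) (.br 37 (.br 38 .dead (.br 39 .dead .dead .dead (.br 42 .dead .dead .dead (.br 43 .dead .dead (.br 44 .dead .dead .dead (.kem 0 1 36 528246617669632)) .dead))) .dead .dead) .dead .dead .dead) .dead .dead) .dead)) .dead) .dead)) .dead)) .dead .dead .dead) .dead .dead) (.br 29 .dead .dead .dead (.br 30 .dead .dead (.br 31 .dead .dead .dead (.br 34 (.br 33 .dead (.br 32 .dead .dead (.br 35 (.br 36 .dead (.br 37 (.br 38 .dead (.br 42 .dead .dead .dead (.br 43 .dead .dead (.br 44 .dead .dead .dead (.kem 0 1 28 532155306344448)) .dead)) .dead .dead) .dead .dead .dead) .dead .dead) .dead (.br 41 .dead .dead .dead (.br 40 .dead .dead (.br 36 (.br 37 .dead (.br 38 (.br 39 .dead .dead .dead (.kem 0 1 28 26038239232)) .dead .dead .dead) .dead .dead) (.br 37 (.br 38 .dead (.br 42 .dead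 .dead .dead (.br 43 .dead .dead (.br 44 .dead .dead .dead (.kem 0 1 28 528822411722752)) .dead)) .dead .dead) .dead .dead .dead) .dead .dead) .dead)) .dead) .dead) .dead .dead) .dead .dead .dead)) .dead)) .dead .dead)) .dead .dead .dead) .dead .dead) (.br 24 (.br 25 .dead (.br 26 (.br 28 (.br 29 .dead .dead .dead (.br 30 .dead .dead (.br 31 .dead .dead .dead (.br 32 .dead .dead (.br 34 .dead (.br 33 .dead .dead .dead (.br 35 .dead (.br 36 (.br 37 .dead (.br 38 (.br 39 .dead (.br 45 .dead .dead .dead .dead) .dead .dead) .dead .dead .dead) .dead .dead) .dead .dead .dead) (.br 41 .dead .dead .dead (.br 36 (.br 37 .dead (.br 38 (.br 39 .dead (.br 45 .dead .dead .dead .dead) .dead .dead) .dead .dead .dead) .dead .dead) (.br 37 (.br 38 .dead (.br 39 (.br 45 .dead .dead .dead .dead) .dead .dead .dead) .dead .dead) .dead .dead .dead) .dead .dead)) .dead)) .dead .dead) .dead)) .dead)) (.br 34 (.br 29 (.br 30 .dead .dead (.br 31 .dead .dead .dead (.br 32 .dead .dead (.br 33 .dead (.br 35 .dead .dead (.br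 41 .dead .dead .dead (.br 40 .dead .dead (.br 36 .dead (.br 37 (.br 38 .dead (.br 42 .dead .dead .dead (.br 43 .dead .dead (.br 44 .dead .dead .dead (.br 45 (.br 39 .dead .dead .dead (.br 46 .dead (.br 47 (.br 48 .dead (.fin [(0,2,150828200118481),(1,2,507738374144),(1,3,70918500058120),(0,3,139672337393648),(2,3,44360875410117),(1,3,118734848),(1,3,4096),(0,1,288089361621024),(0,3,281474976710656),(0,3,562949953421311)]) .dead .dead) .dead .dead .dead) .dead .dead)) .dead .dead .dead)) .dead)) .dead .dead) .dead .dead .dead) .dead (.br 42 .dead (.br 43 .dead .dead (.br 48 (.br 47 .dead (.br 46 (.br 39 .dead .dead .dead (.br 45 .dead (.br 38 (.br 37 .dead (.br 44 .dead .dead .dead (.fin [(0,3,8193),(2,3,30347165172221),(0,3,279239983104),(0,2,354616273423144),(0,1,178680178553896),(0,3,177308137751956),(0,2,89357134928404),(0,3,1838976),(0,2,562949953421311),(2,3,562949953421311)])) .dead .dead) .dead .dead .dead) .dead .dead)) .dead .dead .dead) .dead .dead) .dead .dead .dead) .dead) .dead .dead))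 .dead)) (.br 36 .dead (.br 42 .dead .dead .dead .dead) .dead .dead)) .dead (.br 35 .dead .dead (.br 41 .dead .dead .dead (.br 36 .dead (.br 37 (.br 38 .dead (.br 39 (.br 45 .dead .dead .dead .dead) .dead .dead .dead) .dead .dead) .dead .dead .dead) .dead (.br 42 .dead (.br 43 .dead .dead (.br 48 (.br 47 .dead (.br 40 .dead .dead (.br 46 (.br 39 .dead (.br 45 .dead .dead .dead .dead) .dead .dead) .dead .dead .dead) .dead) .dead .dead) .dead .dead .dead) .dead) .dead .dead))) (.br 36 .dead (.br 42 .dead .dead .dead .dead) .dead .dead))) .dead)) (.br 31 .dead .dead (.br 32 .dead .dead .dead (.br 33 .dead (.br 35 .dead .dead (.br 36 .dead (.br 37 (.br 38 .dead (.br 41 .dead .dead .dead (.br 40 .dead .dead (.br 39 (.kem 2 3 30 7516192768) .dead .dead .dead) .dead)) .dead .dead) .dead .dead .dead) .dead .dead) (.br 41 .dead .dead (.br 40 .dead .dead .dead (.br 42 .dead (.br 36 .dead .dead (.br 43 .dead .dead .dead (.br 44 (.br 37 .dead (.kem 0 2 22 69260541952) .dead .dead) .dead .dead .dead)) .dead)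 .dead .dead)) .dead)) .dead .dead)) .dead)) .dead .dead (.kem 0 2 22 4194304)) .dead .dead .dead) .dead .dead) .dead .dead (.kem 0 2 19 524288)) .dead .dead) .dead .dead .dead) .dead .dead) .dead) .dead)) .dead)

def t7B_7 : Tree :=
  (.br 19 (.br 21 .dead (.br 22 (.br 23 .dead (.br 24 (.br 25 .dead (.br 26 .dead .dead (.br 27 .dead .dead .dead (.br 28 .dead .dead (.br 29 .dead .dead .dead (.br 30 .dead .dead (.br 31 .dead .dead .dead (.br 32 (.br 33 .dead (.br 34 (.br 35 (.br 36 .dead (.br 37 (.br 42 .dead .dead .dead (.br 43 .dead .dead (.br 44 .dead .dead .dead (.br 48 .dead (.br 41 .dead .dead .dead (.kem 1 2 15 270565376)) .dead .dead)) .dead)) .dead .dead .dead) .dead .dead) (.br 36 (.br 37 .dead (.br 38 .dead .dead (.br 39 .dead .dead .dead (.br 40 .dead .dead (.br 41 .dead .dead .dead (.br 42 .dead .dead .dead (.br 43 .dead .dead (.br 48 (.kem 1 2 15 34630303744) .dead .dead .dead) .dead))) .dead)) .dead) .dead .dead) .dead .dead .dead) .dead .dead) .dead .dead .dead) .dead .dead) .dead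 .dead .dead)) .dead)) (.br 29 .dead .dead (.br 30 .dead .dead .dead (.br 31 .dead .dead (.br 32 (.br 33 .dead (.br 34 (.kem 1 2 15 2129920) .dead (.br 35 (.br 36 .dead (.br 37 (.br 41 .dead (.br 48 .dead .dead .dead .dead) .dead .dead) .dead .dead .dead) .dead .dead) (.br 36 (.br 37 .dead (.br 38 .dead .dead .dead (.br 39 .dead .dead (.br 41 (.br 48 .dead .dead .dead .dead) .dead .dead .dead) .dead)) .dead .dead) .dead .dead .dead) .dead .dead) .dead) .dead .dead) .dead .dead (.br 33 (.br 34 .dead .dead (.br 35 (.br 36 .dead (.br 37 (.br 38 .dead (.br 39 .dead .dead (.br 41 .dead (.br 48 .dead .dead .dead .dead) .dead .dead) .dead) .dead .dead) .dead .dead .dead) .dead .dead) (.br 36 (.br 37 .dead (.br 38 (.br 41 (.br 48 .dead .dead .dead .dead) .dead .dead .dead) .dead .dead .dead) .dead .dead) .dead .dead .dead) .dead .dead) .dead) (.br 34 (.kem 1 2 15 2129920) .dead (.br 35 (.br 36 .dead (.br 37 (.br 38 .dead (.br 41 .dead (.br 48 .dead .dead .dead .dead) .dead .dead) .dead .dead) .dead .dead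 .dead) .dead .dead) (.br 36 (.br 37 .dead (.br 38 (.br 39 .dead .dead (.br 41 (.br 48 .dead .dead .dead .dead) .dead .dead .dead) .dead) .dead .dead .dead) .dead .dead) .dead .dead .dead) .dead .dead) .dead) .dead .dead)) .dead)) .dead))) (.br 27 .dead .dead (.br 28 .dead .dead (.br 29 .dead .dead .dead (.br 30 .dead .dead (.br 31 .dead .dead .dead (.br 32 (.br 33 .dead (.br 34 (.kem 2 3 26 201326592) .dead .dead (.br 35 (.br 36 .dead (.br 37 (.br 41 .dead (.br 48 .dead .dead .dead .dead) .dead .dead) .dead .dead .dead) .dead .dead) (.br 36 (.br 37 .dead (.br 38 .dead .dead (.br 39 .dead .dead .dead (.br 41 (.br 48 .dead .dead .dead .dead) .dead .dead .dead)) .dead) .dead .dead) .dead .dead .dead) .dead .dead)) .dead .dead) .dead (.br 33 (.br 34 .dead .dead .dead (.br 35 (.br 36 .dead (.br 37 (.br 38 .dead (.br 39 .dead .dead .dead (.br 41 .dead (.br 48 .dead .dead .dead .dead) .dead .dead)) .dead .dead) .dead .dead .dead) .dead .dead) (.br 36 (.br 37 .dead (.br 38 (.br 41 (.br 48 .dead .dead .dead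 .dead) .dead .dead .dead) .dead .dead .dead) .dead .dead) .dead .dead .dead) .dead .dead)) (.br 34 (.br 35 (.br 36 .dead (.br 37 (.br 38 .dead (.br 42 .dead .dead .dead (.br 43 .dead .dead (.br 44 .dead .dead .dead (.br 45 (.br 39 .dead .dead .dead (.kem 0 2 32 4294967296)) .dead .dead .dead)) .dead)) .dead .dead) .dead .dead .dead) .dead .dead) (.br 36 (.br 37 .dead (.br 38 (.br 39 .dead .dead .dead (.br 40 .dead .dead (.br 41 .dead .dead .dead (.br 42 .dead .dead .dead (.br 43 .dead .dead (.br 44 .dead .dead .dead (.kem 0 1 35 528280977408000)) .dead))) .dead)) .dead .dead .dead) .dead .dead) .dead .dead .dead) .dead .dead) .dead .dead (.br 35 (.br 36 .dead (.br 37 (.br 38 .dead (.br 41 .dead (.br 48 .dead .dead .dead .dead) .dead .dead) .dead .dead) .dead .dead .dead) .dead .dead) (.br 36 (.br 37 .dead (.br 38 (.br 39 .dead .dead .dead (.br 41 (.br 48 .dead .dead .dead .dead) .dead .dead .dead)) .dead .dead .dead) .dead .dead) .dead .dead .dead) .dead .dead)) .dead .dead) .dead)) .dead)) (.br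 29 .dead .dead (.br 30 .dead .dead .dead (.br 31 .dead .dead (.br 32 (.br 33 .dead (.br 34 (.kem 2 3 26 201326592) .dead .dead .dead) .dead .dead) .dead .dead .dead) .dead)) .dead)) .dead)) (.br 26 .dead .dead .dead (.br 27 .dead .dead (.br 28 .dead .dead (.br 29 .dead .dead .dead (.br 30 .dead .dead (.br 31 .dead (.br 32 (.br 33 .dead (.br 34 (.br 35 (.br 36 .dead (.br 42 .dead .dead .dead (.br 43 .dead .dead (.br 48 .dead (.br 41 .dead .dead .dead (.br 40 .dead .dead (.br 39 .dead .dead .dead (.br 38 .dead .dead (.br 47 (.br 46 .dead (.br 45 (.br 44 .dead .dead .dead (.br 37 (.fin [(1,3,17592186044674),(0,3,183125146413611),(1,3,32243712000),(2,3,8796093022401),(1,2,281474976710656),(0,2,290135509835839),(0,1,69810262016),(1,2,562949953421311),(2,3,562949953421311)]) .dead .dead .dead)) .dead .dead .dead) .dead .dead) .dead .dead .dead) .dead)) .dead)) .dead .dead) .dead)) .dead .dead) (.br 36 (.br 37 .dead .dead .dead (.br 38 .dead .dead (.br 39 .dead .dead .dead (.br 40 .dead .dead (.br 41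 .dead .dead .dead (.br 42 .dead .dead .dead (.br 43 .dead .dead (.br 44 (.br 45 .dead (.br 46 (.br 47 .dead (.br 48 (.fin [(1,3,258),(1,2,8796093022208),(2,3,235372544),(0,2,281474976727233),(0,1,1580992),(0,2,69810262016),(0,2,562949953421311),(1,3,562949953421311),(2,3,562949953421311)]) .dead .dead .dead) .dead .dead) .dead .dead .dead) .dead .dead) .dead .dead .dead) .dead))) .dead)) .dead)) .dead .dead .dead) .dead .dead) .dead .dead (.br 35 (.br 36 .dead (.br 41 .dead (.br 48 .dead .dead .dead .dead) .dead .dead) .dead .dead) (.br 36 (.br 37 .dead .dead .dead (.br 38 .dead .dead (.br 39 .dead .dead .dead (.br 41 (.br 48 .dead .dead .dead .dead) .dead .dead .dead)) .dead)) .dead .dead .dead) .dead .dead)) .dead .dead) .dead .dead .dead) .dead (.br 32 (.kem 1 2 25 33554432) (.br 33 (.br 34 .dead .dead .dead (.br 35 (.br 36 .dead (.br 37 (.br 38 .dead .dead (.br 39 .dead .dead .dead (.br 41 .dead (.br 48 .dead .dead .dead .dead) .dead .dead)) .dead) .dead .dead .dead) .dead .dead) (.br 36 (.br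 37 .dead (.br 41 (.br 48 .dead .dead .dead .dead) .dead .dead .dead) .dead .dead) .dead .dead .dead) .dead .dead)) .dead .dead .dead) .dead .dead)) .dead)) (.br 29 .dead .dead (.br 30 .dead .dead .dead (.br 31 .dead (.br 32 (.br 33 .dead (.br 34 (.br 35 (.br 36 .dead (.br 42 .dead .dead .dead (.br 43 .dead .dead (.br 37 (.br 44 .dead .dead .dead (.br 38 .dead .dead (.br 39 .dead .dead .dead (.br 40 .dead .dead (.br 41 .dead (.kem 2 3 28 1879048192) .dead .dead) .dead)) .dead)) .dead .dead .dead) .dead)) .dead .dead) (.br 36 (.br 37 .dead .dead (.br 38 .dead .dead .dead (.br 39 .dead .dead (.br 40 .dead .dead .dead (.br 41 .dead .dead (.br 42 .dead .dead .dead (.br 43 .dead .dead .dead .dead)) .dead)) .dead)) .dead) .dead .dead .dead) .dead .dead) .dead .dead .dead) .dead .dead) .dead .dead .dead) .dead .dead)) .dead)) .dead)) .dead) .dead .dead .dead) .dead .dead) .dead .dead .dead) .dead (.br 27 .dead .dead (.br 26 .dead .dead .dead (.br 22 (.kem 1 2 15 32768) (.br 23 (.br 24 .dead (.br 25 .dead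 .dead (.br 28 (.br 34 .dead (.br 33 (.br 32 .dead (.br 29 .dead .dead (.br 30 .dead .dead .dead (.br 31 (.br 35 .dead (.br 36 (.br 42 .dead .dead .dead (.br 43 .dead .dead (.br 37 .dead (.br 48 (.br 47 .dead (.br 46 (.br 45 .dead (.br 38 .dead .dead (.br 39 .dead .dead .dead (.br 40 .dead .dead (.br 41 .dead .dead .dead (.kem 1 2 15 34900836352)) .dead)) (.br 39 .dead .dead (.br 40 .dead .dead .dead (.br 41 .dead .dead (.br 44 (.kem 2 3 38 4123168604160) .dead .dead .dead) .dead)) .dead)) .dead .dead) .dead .dead .dead) .dead .dead) .dead .dead .dead) .dead .dead) .dead)) .dead .dead .dead) .dead (.br 41 .dead .dead (.br 40 .dead .dead .dead (.br 39 .dead .dead (.br 38 .dead .dead .dead (.br 42 .dead (.br 36 (.kem 1 2 15 541097984) .dead .dead .dead) .dead .dead)) .dead)) .dead)) .dead .dead .dead)) (.kem 1 2 15 4227072)) .dead .dead) .dead .dead .dead) .dead .dead) .dead (.br 29 .dead .dead .dead (.br 30 .dead .dead (.br 31 (.br 32 .dead (.br 33 (.br 34 .dead (.br 35 (.br 36 .dead (.br 37 .dead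 .dead .dead (.br 38 .dead .dead (.br 39 .dead .dead .dead (.br 40 .dead .dead (.br 41 .dead .dead .dead (.kem 0 1 22 32241614848)) .dead)) .dead)) .dead .dead) (.br 36 (.br 42 .dead .dead .dead (.br 43 .dead .dead (.br 48 (.br 41 .dead .dead .dead (.kem 0 2 28 268435456)) .dead .dead .dead) .dead)) .dead .dead .dead) .dead .dead) .dead .dead) .dead .dead .dead) .dead .dead) .dead .dead (.kem 0 1 22 29360128)) .dead)) .dead) .dead) .dead .dead) .dead .dead .dead) .dead .dead)) .dead)) .dead (.br 21 .dead (.br 22 (.br 23 .dead (.br 24 (.br 25 .dead (.br 26 (.br 27 .dead .dead (.br 28 .dead .dead (.br 29 .dead .dead .dead (.br 30 .dead .dead (.br 31 .dead .dead .dead (.br 32 .dead .dead (.br 33 .dead (.br 34 (.br 35 (.br 36 .dead (.br 37 (.br 38 .dead (.br 42 .dead .dead .dead (.br 43 .dead .dead (.br 44 .dead .dead .dead (.br 45 (.br 39 .dead .dead .dead (.br 40 .dead .dead (.br 46 .dead (.br 47 (.br 48 .dead (.br 41 .dead .dead .dead (.fin [(2,3,30786326602236),(0,1,25902989312),(0,3,8935714586817),(1,3,7),(2,3,21584123756802),(1,3,71485708370960),(0,1,562949953421311),(1,2,562949953421311)]))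 .dead .dead) .dead .dead .dead) .dead .dead) .dead)) .dead .dead .dead)) .dead)) .dead .dead) .dead .dead .dead) .dead .dead) (.br 36 (.br 37 .dead (.br 38 (.br 39 .dead .dead .dead (.br 40 .dead .dead (.br 41 .dead .dead .dead (.br 42 .dead .dead .dead (.br 43 .dead .dead (.br 44 .dead .dead .dead (.kem 0 1 35 528280977408000)) .dead))) .dead)) .dead .dead .dead) .dead .dead) .dead .dead .dead) .dead .dead) .dead .dead (.br 35 (.br 36 .dead (.br 37 (.br 38 .dead (.br 41 .dead (.br 48 .dead .dead .dead .dead) .dead .dead) .dead .dead) .dead .dead .dead) .dead .dead) (.br 36 (.br 37 .dead (.br 38 (.br 39 .dead .dead .dead (.br 41 (.br 48 .dead .dead .dead .dead) .dead .dead .dead)) .dead .dead .dead) .dead .dead) .dead .dead .dead) .dead .dead)) .dead (.br 34 (.br 35 (.br 36 .dead (.br 37 (.br 38 .dead (.br 39 (.br 45 .dead .dead .dead .dead) .dead .dead .dead) .dead .dead) .dead .dead .dead) .dead .dead) (.br 36 (.br 37 .dead (.br 38 (.br 39 .dead (.br 45 .dead .dead .dead .dead) .dead .dead) .dead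 .dead .dead) .dead .dead) .dead .dead .dead) .dead .dead) .dead .dead .dead)) .dead)) .dead)) (.br 29 .dead .dead (.br 30 .dead .dead .dead (.br 31 .dead .dead (.br 32 .dead .dead .dead (.br 33 .dead (.br 34 (.br 35 (.br 36 .dead (.br 37 (.br 38 .dead (.br 42 .dead .dead .dead (.br 43 .dead .dead (.br 44 .dead .dead .dead (.br 45 (.br 39 .dead .dead (.br 40 .dead .dead .dead (.br 46 .dead (.br 47 (.br 48 .dead (.kem 2 3 28 3856612196352) .dead .dead) .dead .dead .dead) .dead .dead)) .dead) .dead .dead .dead)) .dead)) .dead .dead) .dead .dead .dead) .dead .dead) (.br 36 (.br 37 .dead (.br 38 (.br 39 .dead .dead (.br 40 .dead .dead .dead (.br 41 .dead .dead (.br 42 .dead .dead .dead (.br 43 .dead .dead (.br 44 .dead .dead .dead (.kem 0 1 35 528280977408000)) .dead)) .dead)) .dead) .dead .dead .dead) .dead .dead) .dead .dead .dead) .dead .dead) .dead .dead .dead) .dead .dead)) .dead)) .dead)) (.br 28 .dead .dead (.br 29 .dead .dead .dead (.br 30 .dead .dead (.br 31 .dead .dead .dead (.br 32 .dead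 .dead (.br 33 .dead (.br 34 (.kem 2 3 27 134217728) .dead .dead .dead) .dead .dead) .dead)) .dead)) (.br 29 .dead .dead (.br 30 .dead .dead .dead (.br 31 .dead .dead (.br 32 .dead .dead .dead (.br 33 .dead (.kem 0 2 19 67633152) (.br 34 (.kem 1 2 15 2129920) .dead .dead .dead) .dead)) .dead)) .dead))) .dead .dead (.kem 0 2 19 524288)) .dead .dead) .dead .dead .dead) .dead .dead) .dead .dead .dead) .dead (.br 27 .dead .dead (.br 22 (.kem 1 2 15 32768) (.br 23 (.br 24 .dead (.br 25 (.br 26 .dead .dead .dead (.br 28 (.br 34 .dead (.br 33 (.br 29 .dead .dead (.br 30 .dead .dead .dead (.br 31 .dead .dead (.br 32 .dead (.br 35 .dead (.br 36 (.br 37 .dead (.br 42 .dead .dead .dead (.br 43 .dead .dead (.br 48 (.br 47 .dead (.br 46 (.br 45 .dead (.br 38 (.br 44 .dead .dead .dead (.kem 0 1 22 532159664226304)) .dead .dead (.kem 0 2 19 2181562368)) .dead .dead) .dead .dead .dead) .dead .dead) .dead .dead .dead) .dead)) .dead .dead) .dead .dead .dead) .dead (.br 41 .dead .dead (.br 40 .dead .dead .dead (.br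 39 .dead .dead (.br 42 .dead (.br 36 (.kem 1 2 15 541097984) .dead .dead .dead) .dead .dead) .dead)) .dead)) .dead .dead) .dead)) (.kem 1 2 15 4227072)) .dead .dead .dead) .dead .dead) .dead (.br 29 .dead .dead .dead (.br 30 .dead .dead (.br 31 .dead .dead .dead (.br 32 .dead (.kem 0 2 19 34078720) (.kem 0 1 22 62914560) .dead)) .dead)) .dead)) .dead .dead .dead) .dead .dead) .dead .dead .dead) .dead .dead) .dead)) .dead)

def t7B_8 : Tree :=
  (.br 14 (.br 20 .dead (.br 15 .dead (.br 16 .dead .dead (.br 17 .dead .dead .dead (.br 18 .dead .dead (.br 19 (.br 21 .dead .dead (.br 27 .dead .dead .dead (.br 26 .dead .dead t7B_5 .dead)) (.br 22 (.br 23 .dead (.br 24 (.br 27 .dead .dead (.br 26 .dead .dead .dead (.br 25 .dead (.br 28 .dead (.br 34 (.br 33 .dead (.br 29 .dead .dead (.br 30 .dead .dead .dead (.br 31 .dead .dead (.br 32 (.kem 2 3 21 203423744) .dead .dead .dead) .dead)) (.br 30 .dead .dead (.br 31 .dead .dead .dead (.br 32 (.kem 2 3 21 203423744) .dead (.br 35 (.br 36 .dead (.br 37 (.br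 38 .dead (.br 42 .dead .dead .dead (.br 43 .dead .dead (.br 44 .dead .dead .dead (.br 45 (.br 39 .dead .dead .dead (.kem 0 2 32 4294967296)) .dead .dead .dead)) .dead)) .dead .dead) .dead .dead .dead) .dead .dead) .dead (.br 41 .dead .dead .dead (.br 40 .dead .dead (.br 36 (.br 37 .dead (.br 38 (.br 39 .dead .dead .dead (.br 44 .dead .dead .dead (.br 43 .dead .dead (.br 45 .dead (.kem 0 2 32 279172874240) .dead .dead) .dead))) .dead .dead .dead) .dead .dead) (.br 37 (.br 38 .dead (.br 42 .dead .dead .dead (.br 43 .dead .dead (.br 44 .dead .dead .dead (.br 45 (.br 39 .dead .dead .dead (.kem 0 2 32 4294967296)) .dead .dead .dead)) .dead)) .dead .dead) .dead .dead .dead) .dead .dead) .dead)) .dead) .dead)) .dead)) .dead .dead) .dead .dead .dead) (.br 29 .dead .dead .dead (.br 30 .dead .dead (.br 31 .dead .dead .dead (.br 32 (.br 33 .dead (.br 34 (.br 35 (.br 36 .dead (.br 37 (.br 42 .dead .dead .dead (.br 43 .dead .dead (.br 44 .dead .dead .dead (.br 48 .dead (.br 41 .dead .dead .dead (.kem 1 2 28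 268435456)) .dead .dead)) .dead)) .dead .dead .dead) .dead .dead) (.br 36 (.br 37 .dead (.br 38 .dead .dead (.br 39 .dead .dead .dead (.br 40 .dead .dead (.br 41 .dead .dead .dead (.br 42 .dead .dead .dead (.br 43 .dead .dead (.br 48 (.kem 1 2 28 34628173824) .dead .dead .dead) .dead))) .dead)) .dead) .dead .dead) .dead .dead .dead) .dead .dead) .dead .dead .dead) .dead .dead) .dead (.br 33 (.br 34 .dead (.br 35 (.br 36 .dead (.br 37 (.br 38 .dead (.br 39 .dead .dead .dead (.br 40 .dead .dead (.br 41 .dead .dead .dead (.br 42 .dead .dead .dead (.br 43 .dead .dead (.br 44 .dead .dead .dead (.br 45 (.br 46 .dead (.br 47 (.br 48 .dead (.kem 2 3 21 3856815620096) .dead .dead) .dead .dead .dead) .dead .dead) .dead .dead .dead)) .dead))) .dead)) .dead .dead) .dead .dead .dead) .dead .dead) (.br 36 (.br 37 .dead (.br 38 (.br 42 .dead .dead .dead (.br 43 .dead .dead (.br 44 .dead .dead .dead (.br 45 .dead (.br 39 .dead .dead .dead (.br 40 .dead .dead (.br 46 (.br 47 .dead (.br 48 (.kem 2 3 21 3856815620096)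 .dead .dead .dead) .dead .dead) .dead .dead .dead) .dead)) .dead .dead)) .dead)) .dead .dead .dead) .dead .dead) .dead .dead .dead) .dead .dead) .dead .dead) (.br 34 (.br 35 (.br 36 .dead (.br 37 (.br 38 .dead (.br 42 .dead .dead .dead (.br 43 .dead .dead (.br 44 .dead .dead .dead (.kem 0 1 33 532155037908992)) .dead)) .dead .dead) .dead .dead .dead) .dead .dead) (.br 36 (.br 37 .dead (.br 38 (.br 39 .dead .dead .dead (.br 40 .dead .dead (.br 41 .dead .dead .dead (.kem 0 1 33 25769803776)) .dead)) .dead .dead .dead) .dead .dead) .dead .dead .dead) .dead .dead) .dead .dead .dead) .dead .dead) .dead)) .dead)) .dead) .dead .dead)) .dead) .dead .dead .dead) .dead .dead) .dead .dead .dead)) .dead .dead .dead) .dead)) (.br 17 .dead .dead (.br 18 .dead .dead .dead t7B_6) .dead)) (.br 16 .dead .dead .dead (.br 17 .dead .dead (.br 18 .dead .dead .dead t7B_7) .dead)) .dead) .dead .dead) (.br 15 .dead .dead (.br 16 .dead .dead .dead (.br 17 .dead .dead (.br 18 .dead .dead .dead (.br 20 (.br 19 .dead .dead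 (.br 21 (.br 22 .dead (.br 23 (.br 24 .dead (.br 25 (.br 26 .dead (.br 27 .dead .dead (.br 28 .dead .dead (.br 29 .dead .dead .dead (.br 30 .dead .dead (.br 31 .dead .dead .dead (.br 32 .dead .dead (.br 33 (.br 34 .dead (.br 35 (.br 36 .dead (.br 37 (.br 38 .dead (.br 39 .dead .dead .dead (.br 40 .dead .dead (.br 41 .dead .dead .dead (.kem 0 1 14 25902989312)) .dead)) .dead .dead) .dead .dead .dead) .dead .dead) (.br 36 (.br 37 .dead (.br 38 (.br 42 .dead .dead .dead (.br 43 .dead .dead (.br 44 .dead .dead .dead (.kem 0 1 14 532155171094528)) .dead)) .dead .dead .dead) .dead .dead) .dead .dead .dead) .dead .dead) .dead (.br 35 (.br 36 .dead (.br 37 (.br 38 .dead (.br 39 .dead .dead .dead (.br 41 .dead (.br 48 .dead .dead .dead .dead) .dead .dead)) .dead .dead) .dead .dead .dead) .dead .dead) (.br 36 (.br 37 .dead (.br 38 (.br 41 (.br 48 .dead .dead .dead .dead) .dead .dead .dead) .dead .dead .dead) .dead .dead) .dead .dead .dead) .dead .dead)) .dead .dead (.br 34 .dead (.br 35 (.br 36 .dead (.br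 37 (.br 38 .dead (.br 39 (.br 45 .dead .dead .dead .dead) .dead .dead .dead) .dead .dead) .dead .dead .dead) .dead .dead) (.br 36 (.br 37 .dead (.br 38 (.br 39 .dead (.br 45 .dead .dead .dead .dead) .dead .dead) .dead .dead .dead) .dead .dead) .dead .dead .dead) .dead .dead) .dead .dead)) .dead)) .dead)) (.br 29 .dead .dead (.br 30 .dead .dead .dead (.br 31 .dead .dead (.br 32 .dead .dead .dead (.br 33 (.br 34 .dead (.br 35 (.br 36 .dead (.br 37 (.br 38 .dead (.br 39 .dead .dead (.br 40 .dead .dead .dead (.br 41 .dead .dead (.kem 0 1 14 25902989312) .dead)) .dead) .dead .dead) .dead .dead .dead) .dead .dead) (.br 36 (.br 37 .dead (.br 38 (.br 42 .dead .dead .dead (.br 43 .dead .dead (.br 44 .dead .dead .dead (.kem 0 1 14 532155171094528)) .dead)) .dead .dead .dead) .dead .dead) .dead .dead .dead) .dead .dead) .dead .dead) .dead .dead .dead)) .dead)) .dead)) (.br 28 .dead .dead (.br 29 .dead .dead .dead (.br 30 .dead .dead (.br 31 .dead .dead .dead (.br 32 .dead .dead (.br 33 (.br 34 .dead (.kem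 2 3 27 134217728) .dead .dead) .dead .dead .dead) .dead)) .dead)) (.br 29 .dead .dead (.br 30 .dead .dead .dead (.br 31 .dead .dead (.br 32 .dead .dead .dead (.br 33 (.br 34 .dead (.kem 2 3 27 134217728) (.br 35 (.br 36 .dead (.br 37 (.br 38 .dead (.br 39 .dead .dead (.br 41 .dead (.br 48 .dead .dead .dead .dead) .dead .dead) .dead) .dead .dead) .dead .dead .dead) .dead .dead) (.br 36 (.br 37 .dead (.br 38 (.br 41 (.br 48 .dead .dead .dead .dead) .dead .dead .dead) .dead .dead .dead) .dead .dead) .dead .dead .dead) .dead .dead) .dead) .dead (.br 34 .dead (.br 35 (.br 36 .dead (.br 37 (.br 38 .dead (.br 39 (.br 45 .dead .dead .dead .dead) .dead .dead .dead) .dead .dead) .dead .dead .dead) .dead .dead) (.br 36 (.br 37 .dead (.br 38 (.br 39 .dead (.br 45 .dead .dead .dead .dead) .dead .dead) .dead .dead .dead) .dead .dead) .dead .dead .dead) .dead .dead) .dead .dead) .dead)) .dead)) .dead))) .dead (.br 27 .dead .dead (.br 28 .dead .dead (.br 29 .dead .dead .dead (.br 30 .dead .dead (.br 31 .dead .dead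 .dead (.br 32 .dead (.br 33 (.br 34 .dead (.br 35 (.br 36 .dead (.br 37 (.br 38 .dead .dead (.br 39 .dead .dead .dead (.br 40 .dead .dead (.br 41 .dead .dead .dead (.kem 0 1 14 30130847744)) .dead)) .dead) .dead .dead .dead) .dead .dead) (.br 36 (.br 37 .dead (.br 42 .dead .dead .dead (.br 43 .dead .dead (.br 48 (.br 41 .dead .dead .dead (.br 40 .dead .dead (.br 39 .dead .dead .dead (.br 47 .dead (.br 46 (.br 45 .dead (.br 38 (.br 44 .dead .dead .dead (.kem 0 1 14 528311108255744)) .dead (.kem 0 1 14 30130847744) .dead) .dead .dead) .dead .dead .dead) .dead .dead)) .dead)) .dead .dead .dead) .dead)) .dead .dead) .dead .dead .dead) .dead .dead) .dead (.br 35 (.br 36 .dead (.br 37 (.br 38 .dead .dead (.br 39 .dead .dead .dead (.br 41 .dead (.br 48 .dead .dead .dead .dead) .dead .dead)) .dead) .dead .dead .dead) .dead .dead) (.br 36 (.br 37 .dead (.br 41 (.br 48 .dead .dead .dead .dead) .dead .dead .dead) .dead .dead) .dead .dead .dead) .dead .dead)) .dead .dead .dead) (.br 33 (.kem 1 3 26 67108864)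 (.br 34 .dead .dead .dead (.kem 0 1 14 66076672)) .dead .dead) .dead)) .dead)) (.br 29 .dead .dead (.br 30 .dead .dead .dead (.br 31 .dead .dead (.br 32 .dead (.br 33 (.br 34 .dead (.br 35 (.br 36 .dead (.br 37 (.br 38 .dead .dead .dead (.br 44 .dead .dead .dead .dead)) .dead .dead .dead) .dead .dead) (.br 36 (.br 37 .dead (.br 42 .dead .dead .dead (.br 43 .dead .dead (.br 48 (.br 41 .dead .dead (.br 40 .dead .dead .dead (.br 39 .dead .dead (.br 47 .dead (.br 46 (.br 45 .dead (.br 38 (.kem 1 3 26 4362076160) .dead .dead (.kem 0 1 14 30130847744)) .dead .dead) .dead .dead .dead) .dead .dead) .dead)) .dead) .dead .dead .dead) .dead)) .dead .dead) .dead .dead .dead) .dead .dead) .dead .dead) .dead .dead .dead) .dead .dead) .dead)) .dead)) .dead)) .dead .dead .dead) .dead .dead) .dead .dead .dead) .dead .dead) .dead .dead (.br 27 .dead .dead (.br 22 (.br 23 .dead (.br 24 (.br 25 .dead (.br 26 .dead .dead .dead (.kem 0 1 14 1064960)) .dead .dead) .dead .dead .dead) .dead .dead) (.br 23 (.br 24 .dead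 (.br 25 (.br 26 .dead (.br 28 (.br 34 .dead (.br 29 .dead .dead (.br 30 .dead .dead .dead (.br 31 .dead .dead (.br 32 .dead .dead .dead (.br 33 (.br 35 .dead (.br 36 (.br 37 .dead (.br 38 (.br 42 .dead .dead .dead (.br 43 .dead .dead (.br 44 .dead .dead .dead (.kem 0 1 14 532155437432832)) .dead)) .dead .dead .dead) .dead .dead) .dead .dead .dead) .dead (.br 41 .dead .dead (.br 40 .dead .dead .dead (.br 42 .dead (.br 36 (.br 37 .dead (.br 38 (.br 44 .dead .dead .dead (.br 43 .dead .dead (.br 45 .dead (.br 39 .dead .dead (.kem 0 1 14 26169327616) .dead) .dead .dead) .dead)) .dead .dead .dead) .dead .dead) .dead .dead .dead) .dead .dead)) .dead)) .dead .dead .dead)) .dead)) (.br 30 .dead .dead (.br 31 .dead .dead .dead (.br 32 .dead .dead (.br 33 (.br 35 .dead (.br 36 (.br 37 .dead (.br 38 (.br 42 .dead .dead .dead (.br 43 .dead .dead (.br 44 .dead .dead .dead (.kem 0 1 14 532155437432832)) .dead)) .dead .dead .dead) .dead .dead) .dead .dead .dead) (.br 41 .dead .dead .dead (.br 40 .dead .dead (.br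 36 (.br 37 .dead (.br 38 (.br 44 .dead .dead .dead (.br 43 .dead .dead (.br 45 .dead (.br 39 .dead .dead .dead (.kem 0 1 14 26169327616)) .dead .dead) .dead)) .dead .dead .dead) .dead .dead) (.br 37 (.br 38 .dead (.br 39 .dead .dead .dead (.kem 0 1 14 26169327616)) .dead .dead) .dead .dead .dead) .dead .dead) .dead)) .dead) .dead .dead (.br 35 .dead (.br 36 (.br 37 .dead (.br 38 (.br 39 .dead (.br 45 .dead .dead .dead .dead) .dead .dead) .dead .dead .dead) .dead .dead) .dead .dead .dead) (.br 41 .dead .dead .dead (.br 36 (.br 37 .dead (.br 38 (.br 39 .dead (.br 45 .dead .dead .dead .dead) .dead .dead) .dead .dead .dead) .dead .dead) (.br 37 (.br 38 .dead (.br 39 (.br 45 .dead .dead .dead .dead) .dead .dead .dead) .dead .dead) .dead .dead .dead) .dead .dead)) .dead)) .dead)) .dead)) .dead .dead) .dead (.br 29 .dead .dead .dead (.br 30 .dead .dead (.br 31 .dead .dead .dead (.br 32 .dead .dead (.br 33 (.br 34 .dead (.kem 0 3 21 2097152) .dead .dead) .dead .dead (.kem 0 1 14 131088384)) .dead)) .dead))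 .dead) .dead (.kem 0 1 14 1064960)) .dead .dead .dead) .dead .dead) .dead .dead .dead) .dead .dead) .dead)) .dead) .dead .dead .dead)) .dead)) .dead) .dead .dead)

def t7B_9 : Tree :=
  (.br 20 (.br 21 .dead .dead (.br 22 .dead (.br 23 (.br 24 .dead (.br 25 (.br 27 .dead .dead .dead (.br 26 .dead (.kem 2 3 16 983040) .dead .dead)) .dead .dead .dead) .dead .dead) .dead .dead .dead) .dead .dead) (.br 27 .dead .dead (.br 22 .dead (.br 23 (.br 24 .dead (.br 25 (.br 26 .dead (.kem 2 3 16 983040) .dead (.br 28 (.br 34 .dead (.br 33 (.br 29 .dead .dead (.br 30 .dead .dead .dead (.br 31 .dead .dead (.br 32 .dead (.kem 2 3 16 204406784) .dead .dead) .dead)) (.br 30 .dead .dead (.br 31 .dead .dead .dead (.br 32 .dead (.kem 2 3 16 204406784) (.kem 1 3 26 67108864) .dead)) .dead)) .dead .dead .dead) .dead .dead) .dead (.br 29 .dead .dead .dead (.br 30 .dead .dead (.br 31 .dead .dead .dead (.br 32 .dead (.br 33 (.br 34 .dead (.br 35 (.br 36 .dead (.br 37 (.br 38 .dead .dead (.br 39 .dead .dead .dead (.br 40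 .dead .dead (.br 41 .dead .dead .dead (.br 42 .dead .dead .dead (.br 43 .dead .dead (.br 44 .dead .dead .dead (.br 48 .dead (.kem 0 2 28 34628173824) .dead .dead)) .dead))) .dead)) .dead) .dead .dead .dead) .dead .dead) (.br 36 (.br 37 .dead (.br 42 .dead .dead .dead (.br 43 .dead .dead (.br 48 (.br 41 .dead .dead .dead (.kem 0 2 28 268435456)) .dead .dead .dead) .dead)) .dead .dead) .dead .dead .dead) .dead .dead) .dead .dead) .dead .dead .dead) (.br 33 (.kem 1 3 26 67108864) (.br 34 (.br 35 (.br 36 .dead (.br 37 (.br 38 .dead (.br 42 .dead .dead .dead (.br 43 .dead .dead (.br 44 .dead .dead .dead (.kem 0 1 33 532155037908992)) .dead)) .dead .dead) .dead .dead .dead) .dead .dead) (.br 36 (.br 37 .dead (.br 38 (.br 39 .dead .dead .dead (.br 40 .dead .dead (.br 41 .dead .dead .dead (.kem 0 1 33 25769803776)) .dead)) .dead .dead .dead) .dead .dead) .dead .dead .dead) .dead .dead) .dead .dead .dead) .dead .dead) .dead)) .dead)) .dead)) .dead .dead .dead) .dead .dead) .dead .dead .dead) (.br 23 (.br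 24 .dead (.br 25 (.br 26 .dead (.br 28 (.br 34 .dead (.br 29 .dead (.br 30 .dead .dead (.br 31 .dead .dead .dead (.br 32 .dead .dead (.br 33 (.kem 2 3 16 141492224) .dead .dead (.br 35 .dead .dead (.br 41 .dead .dead .dead (.br 36 (.br 37 .dead (.br 38 (.br 39 .dead (.br 45 .dead .dead .dead .dead) .dead .dead) .dead .dead .dead) .dead .dead) .dead .dead (.br 42 .dead (.br 43 .dead .dead (.br 48 (.br 47 .dead (.br 46 (.br 39 .dead (.br 45 .dead .dead .dead .dead) .dead .dead) .dead .dead .dead) .dead .dead) .dead .dead .dead) .dead) .dead .dead))) (.br 36 (.br 37 .dead (.br 38 (.br 39 .dead (.br 45 .dead .dead .dead .dead) .dead .dead) .dead .dead .dead) .dead .dead) .dead .dead .dead))) .dead)) (.br 31 .dead .dead (.br 32 .dead .dead .dead (.br 33 (.kem 2 3 16 141492224) .dead .dead .dead)) .dead)) .dead (.kem 1 2 22 4194304)) .dead .dead) (.br 29 .dead .dead .dead (.br 30 .dead .dead (.br 31 .dead .dead .dead (.br 32 .dead .dead (.br 34 (.br 33 .dead .dead .dead (.br 35 (.br 36 .dead (.br 37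 (.br 38 .dead (.br 39 (.br 45 .dead .dead .dead .dead) .dead .dead .dead) .dead .dead) .dead .dead .dead) .dead .dead) .dead (.br 41 .dead .dead .dead (.br 36 (.br 37 .dead (.br 38 (.br 39 .dead (.br 45 .dead .dead .dead .dead) .dead .dead) .dead .dead .dead) .dead .dead) (.br 37 (.br 38 .dead (.br 39 (.br 45 .dead .dead .dead .dead) .dead .dead .dead) .dead .dead) .dead .dead .dead) .dead .dead)) .dead)) .dead .dead .dead) .dead)) .dead)) .dead .dead) .dead (.br 28 (.br 34 .dead (.br 33 (.br 29 .dead (.br 30 .dead .dead (.br 31 .dead .dead .dead (.br 32 .dead (.kem 2 3 16 208601088) (.kem 1 3 26 67108864) .dead)) (.br 31 .dead .dead (.br 32 .dead (.kem 2 3 16 208601088) .dead .dead) .dead)) .dead (.kem 1 2 22 4194304)) .dead .dead .dead) .dead .dead) (.br 29 .dead .dead .dead (.br 30 .dead .dead (.br 31 .dead .dead .dead (.br 34 (.br 33 .dead (.br 32 .dead .dead (.br 35 (.br 36 .dead (.br 37 (.br 38 .dead (.br 42 .dead .dead .dead (.br 43 .dead .dead (.br 44 .dead .dead .dead (.kem 0 1 28 532155306344448))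 .dead)) .dead .dead) .dead .dead .dead) .dead .dead) .dead (.br 41 .dead .dead .dead (.br 40 .dead .dead (.br 36 (.br 37 .dead (.br 38 (.br 39 .dead .dead .dead (.kem 0 1 28 26038239232)) .dead .dead .dead) .dead .dead) (.br 37 (.br 38 .dead (.br 42 .dead .dead .dead (.br 43 .dead .dead (.br 44 .dead .dead .dead (.kem 0 1 28 528822411722752)) .dead)) .dead .dead) .dead .dead .dead) .dead .dead) .dead)) .dead) .dead) .dead .dead) .dead .dead .dead)) .dead)) .dead .dead)) .dead .dead .dead) .dead .dead) (.br 24 (.br 25 .dead (.br 26 .dead .dead .dead (.br 28 (.br 29 .dead .dead .dead (.br 30 .dead .dead (.br 31 .dead .dead .dead (.br 34 .dead (.br 33 (.br 32 .dead .dead (.kem 0 1 23 58720256) .dead) .dead .dead .dead) .dead .dead)) .dead)) (.br 34 (.br 33 .dead (.br 29 (.br 30 .dead .dead (.br 31 .dead .dead .dead (.br 32 (.kem 2 3 16 208601088) .dead (.br 35 .dead .dead (.br 41 .dead .dead .dead (.br 40 .dead .dead (.br 36 .dead (.br 37 (.br 38 .dead (.br 42 .dead .dead .dead (.br 43 .dead .dead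 (.br 44 .dead .dead .dead (.kem 0 1 23 528823007313920)) .dead)) .dead .dead) .dead .dead .dead) .dead (.br 42 .dead (.br 43 .dead .dead (.br 48 (.br 47 .dead (.br 46 (.br 39 .dead .dead .dead (.kem 0 1 23 26633830400)) .dead .dead .dead) .dead .dead) .dead .dead .dead) .dead) .dead .dead)) .dead)) (.br 36 .dead (.br 42 .dead .dead .dead .dead) .dead .dead)) .dead)) (.br 31 .dead .dead (.br 32 (.kem 2 3 16 208601088) .dead .dead .dead) .dead)) .dead .dead (.br 30 .dead .dead (.br 31 .dead .dead .dead (.br 32 (.br 35 (.br 36 .dead (.br 37 (.br 42 .dead .dead .dead (.br 43 .dead .dead (.br 44 .dead .dead .dead (.kem 0 1 23 532159660032000)) .dead)) .dead .dead .dead) .dead .dead) .dead (.br 41 .dead .dead .dead (.br 40 .dead .dead (.br 39 .dead .dead .dead (.br 36 (.br 37 .dead (.br 38 .dead .dead (.kem 0 1 23 30391926784) .dead) .dead .dead) (.kem 0 3 29 536870912) .dead .dead)) .dead)) .dead) .dead (.kem 0 1 23 58720256) .dead)) .dead)) .dead .dead) .dead .dead .dead) .dead .dead)) .dead .dead)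 .dead .dead .dead) .dead .dead) .dead) .dead)) .dead .dead (.br 21 .dead .dead (.br 22 .dead (.br 23 (.br 24 .dead (.br 25 (.br 26 .dead (.br 27 (.br 28 (.br 29 .dead .dead (.br 30 .dead .dead .dead (.br 31 .dead .dead (.br 32 .dead .dead .dead (.br 33 .dead .dead (.br 34 .dead (.kem 0 3 20 135266304) .dead (.br 35 .dead (.br 36 (.br 37 .dead (.br 38 (.br 39 .dead (.br 45 .dead .dead .dead .dead) .dead .dead) .dead .dead .dead) .dead .dead) .dead .dead .dead) .dead (.br 42 .dead (.br 36 (.br 37 .dead (.br 38 (.br 39 .dead (.br 45 .dead .dead .dead .dead) .dead .dead) .dead .dead .dead) .dead .dead) .dead .dead .dead) .dead .dead))) .dead)) .dead)) (.br 30 .dead .dead (.br 31 .dead .dead .dead (.br 32 .dead .dead (.br 33 .dead .dead .dead (.br 34 .dead (.br 35 .dead (.br 36 (.br 37 .dead (.br 38 (.br 39 .dead (.br 45 .dead .dead .dead .dead) .dead .dead) .dead .dead .dead) .dead .dead) .dead .dead .dead) (.br 41 .dead .dead .dead (.br 36 (.br 37 .dead (.br 38 (.br 39 .dead (.br 45 .dead .dead .dead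 .dead) .dead .dead) .dead .dead .dead) .dead .dead) (.br 37 (.br 38 .dead (.br 39 (.br 45 .dead .dead .dead .dead) .dead .dead .dead) .dead .dead) .dead .dead .dead) .dead .dead)) .dead) .dead .dead)) .dead)) .dead)) .dead .dead (.br 29 .dead .dead (.br 30 .dead .dead .dead (.br 31 .dead .dead (.br 32 .dead .dead .dead (.br 33 .dead .dead (.br 34 .dead (.kem 0 3 20 135266304) .dead .dead) .dead)) .dead)) .dead)) .dead .dead .dead) .dead .dead) .dead .dead .dead) .dead .dead) .dead .dead .dead) .dead .dead) (.br 22 .dead (.br 23 (.br 24 .dead (.br 25 (.br 26 .dead (.br 27 (.br 28 (.br 29 .dead .dead (.br 30 .dead .dead .dead (.br 31 .dead .dead (.br 32 .dead .dead .dead (.br 33 .dead .dead (.br 34 .dead (.kem 2 3 21 2097152) .dead .dead) .dead)) .dead)) (.br 30 .dead .dead (.br 31 .dead .dead .dead (.br 32 .dead .dead (.br 33 .dead .dead .dead (.br 34 .dead (.kem 2 3 21 2097152) (.br 35 .dead (.br 36 (.br 37 .dead (.br 38 (.br 39 .dead (.br 45 .dead .dead .dead .dead) .dead .dead) .dead .dead .dead)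 .dead .dead) .dead .dead .dead) (.br 36 (.br 37 .dead (.br 38 (.br 39 .dead (.br 45 .dead .dead .dead .dead) .dead .dead) .dead .dead .dead) .dead .dead) (.br 37 (.br 38 .dead (.br 39 (.br 45 .dead .dead .dead .dead) .dead .dead .dead) .dead .dead) .dead .dead .dead) .dead .dead) .dead) .dead)) .dead)) .dead)) .dead (.br 29 .dead .dead .dead (.br 30 .dead .dead (.br 31 .dead .dead .dead (.br 32 .dead .dead (.br 33 .dead .dead .dead (.br 34 .dead (.br 35 (.br 36 .dead (.br 37 (.br 38 .dead (.br 39 (.br 45 .dead .dead .dead .dead) .dead .dead .dead) .dead .dead) .dead .dead .dead) .dead .dead) (.br 36 (.br 37 .dead (.br 38 (.br 39 .dead (.br 45 .dead .dead .dead .dead) .dead .dead) .dead .dead .dead) .dead .dead) .dead .dead .dead) .dead .dead) .dead .dead)) .dead)) .dead)) .dead) .dead (.kem 0 3 20 1048576) .dead) .dead .dead) .dead .dead .dead) .dead .dead) .dead .dead .dead) (.br 23 (.br 24 .dead (.br 25 (.br 26 .dead (.br 27 (.br 28 (.br 29 .dead (.br 30 .dead .dead (.br 31 .dead .dead .dead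 (.br 32 .dead .dead (.br 33 .dead .dead .dead (.br 34 .dead (.br 35 .dead .dead (.br 41 .dead .dead .dead (.br 36 (.br 37 .dead (.br 38 (.br 39 .dead (.br 45 .dead .dead .dead .dead) .dead .dead) .dead .dead .dead) .dead .dead) .dead .dead (.br 42 .dead (.br 43 .dead .dead (.br 48 (.br 47 .dead (.br 46 (.br 39 .dead (.br 45 .dead .dead .dead .dead) .dead .dead) .dead .dead .dead) .dead .dead) .dead .dead .dead) .dead) .dead .dead))) (.br 36 (.br 37 .dead (.br 38 (.br 39 .dead (.br 45 .dead .dead .dead .dead) .dead .dead) .dead .dead .dead) .dead .dead) .dead .dead .dead)) (.br 35 .dead .dead (.br 36 (.br 37 .dead (.br 38 (.br 39 .dead (.br 45 .dead .dead .dead .dead) .dead .dead) .dead .dead .dead) .dead .dead) .dead .dead (.br 42 .dead (.br 43 .dead .dead (.br 48 (.br 47 .dead (.br 40 (.br 46 .dead .dead .dead .dead) .dead .dead .dead) .dead .dead) .dead .dead .dead) .dead) .dead .dead)) (.br 36 (.br 37 .dead (.br 38 (.br 39 .dead (.br 45 .dead .dead .dead .dead) .dead .dead) .dead .dead .dead)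 .dead .dead) .dead .dead .dead)) .dead)) .dead)) (.br 31 .dead .dead (.br 32 .dead .dead .dead (.br 33 .dead .dead (.br 34 .dead (.br 35 .dead .dead (.br 36 (.br 37 .dead (.br 38 (.br 39 .dead (.br 45 .dead .dead .dead .dead) .dead .dead) .dead .dead .dead) .dead .dead) .dead .dead .dead) (.br 41 .dead .dead (.br 42 .dead (.br 48 (.br 47 .dead (.br 46 (.br 39 .dead (.br 45 .dead .dead .dead .dead) .dead .dead) .dead .dead .dead) .dead .dead) .dead .dead .dead) .dead .dead) .dead)) .dead .dead) .dead)) .dead)) .dead (.kem 1 2 22 4194304)) (.br 29 .dead .dead .dead (.br 30 .dead .dead (.br 31 .dead .dead .dead (.br 32 .dead .dead (.br 33 .dead .dead .dead (.br 34 .dead .dead (.br 35 (.br 36 .dead (.br 37 (.br 38 .dead (.br 39 (.br 45 .dead .dead .dead .dead) .dead .dead .dead) .dead .dead) .dead .dead .dead) .dead .dead) .dead (.br 36 (.br 37 .dead (.br 38 (.br 39 .dead (.br 45 .dead .dead .dead .dead) .dead .dead) .dead .dead .dead) .dead .dead) (.br 37 (.br 38 .dead (.br 39 (.br 45 .dead .dead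 .dead .dead) .dead .dead .dead) .dead .dead) .dead .dead .dead) .dead .dead) .dead) .dead)) .dead)) .dead)) .dead .dead) .dead (.kem 0 3 20 1048576) .dead) .dead .dead) .dead .dead .dead) .dead .dead) (.br 24 (.br 25 .dead (.br 26 (.br 27 .dead .dead (.br 28 (.br 29 .dead .dead .dead (.br 30 .dead .dead (.br 31 .dead .dead .dead (.br 32 .dead .dead (.br 34 .dead (.br 33 .dead .dead .dead (.kem 0 1 23 125829120)) .dead .dead) .dead)) .dead)) (.br 34 (.br 29 (.br 30 .dead .dead (.br 31 .dead .dead .dead (.br 32 .dead .dead (.br 33 .dead (.kem 0 3 20 68157440) .dead (.br 35 .dead .dead (.br 41 .dead .dead .dead (.br 36 .dead (.br 37 (.br 38 .dead (.br 39 (.br 45 .dead .dead .dead .dead) .dead .dead .dead) .dead .dead) .dead .dead .dead) .dead (.br 42 .dead (.br 43 .dead .dead (.br 48 (.br 47 .dead (.br 40 .dead .dead (.kem 0 1 23 18111004672) .dead) .dead .dead) .dead .dead .dead) .dead) .dead .dead))) (.br 36 .dead (.br 42 .dead .dead .dead .dead) .dead .dead))) .dead)) (.br 31 .dead .dead (.br 32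 .dead .dead .dead (.br 33 .dead (.br 35 .dead .dead (.br 36 .dead (.br 37 (.br 38 .dead (.br 41 .dead .dead .dead (.br 40 .dead .dead (.br 39 (.kem 2 3 30 7516192768) .dead .dead .dead) .dead)) .dead .dead) .dead .dead .dead) .dead .dead) (.br 41 .dead .dead (.br 40 .dead .dead .dead (.br 42 .dead (.br 36 .dead .dead (.br 43 .dead .dead .dead (.br 44 (.br 37 .dead (.br 38 .dead .dead .dead .dead) .dead .dead) .dead .dead .dead)) .dead) .dead .dead)) .dead)) .dead .dead)) .dead)) .dead .dead (.br 30 .dead .dead (.br 31 .dead .dead .dead (.br 32 .dead .dead (.br 33 .dead (.kem 0 3 20 68157440) .dead (.kem 0 1 23 125829120)) .dead)) .dead)) .dead .dead .dead) .dead .dead) .dead) .dead .dead .dead) .dead .dead) .dead .dead .dead) .dead .dead) .dead)))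

def t7B_10 : Tree :=
  (.br 14 (.br 15 .dead .dead (.br 16 .dead .dead .dead (.br 17 .dead .dead (.br 18 .dead .dead .dead (.br 19 .dead .dead (.br 20 .dead .dead .dead (.br 21 .dead (.br 22 (.br 23 .dead (.br 24 (.br 25 .dead (.br 26 (.br 27 .dead .dead (.br 28 .dead .dead (.br 29 .dead .dead .dead (.br 30 .dead .dead (.br 31 .dead .dead .dead (.br 32 .dead .dead (.br 33 .dead (.kem 0 3 8 68174080) .dead (.br 34 (.br 35 (.br 36 .dead (.br 37 (.br 38 .dead (.br 39 (.br 45 .dead .dead .dead .dead) .dead .dead .dead) .dead .dead) .dead .dead .dead) .dead .dead) (.br 36 (.br 37 .dead (.br 38 (.br 39 .dead (.br 45 .dead .dead .dead .dead) .dead .dead) .dead .dead .dead) .dead .dead) .dead .dead .dead) .dead .dead) .dead .dead .dead)) .dead)) .dead)) (.br 29 .dead .dead (.br 30 .dead .dead .dead (.br 31 .dead .dead (.br 32 .dead .dead .dead (.br 33 .dead (.br 34 (.br 35 (.br 36 .dead (.br 37 (.br 38 .dead (.br 42 .dead .dead .dead (.br 43 .dead .dead (.br 44 .dead .dead .dead (.br 45 (.br 39 .dead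 .dead (.kem 0 3 8 4363141376) .dead) .dead .dead .dead)) .dead)) .dead .dead) .dead .dead .dead) .dead .dead) (.br 36 (.br 37 .dead (.br 38 (.br 39 .dead .dead (.br 40 .dead .dead .dead (.br 41 .dead .dead (.br 42 .dead .dead .dead (.br 43 .dead .dead (.br 44 .dead .dead .dead (.kem 0 1 35 528280977408000)) .dead)) .dead)) .dead) .dead .dead .dead) .dead .dead) .dead .dead .dead) .dead .dead) .dead .dead .dead) .dead .dead)) .dead)) .dead)) .dead) .dead .dead .dead) .dead .dead) .dead .dead .dead) .dead .dead) .dead .dead .dead) .dead (.br 22 (.br 23 .dead (.br 24 (.br 25 .dead (.br 26 (.br 27 .dead (.br 28 .dead (.br 29 .dead .dead (.br 30 .dead .dead .dead (.br 31 .dead .dead (.br 32 .dead .dead .dead (.br 33 .dead .dead (.br 34 (.br 35 (.br 36 .dead (.br 37 (.br 38 .dead (.br 39 (.br 45 .dead .dead .dead .dead) .dead .dead .dead) .dead .dead) .dead .dead .dead) .dead .dead) .dead .dead (.br 41 .dead .dead (.br 42 .dead (.br 36 (.br 37 .dead (.br 38 (.br 39 .dead (.br 45 .dead .dead .dead .dead)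 .dead .dead) .dead .dead .dead) .dead .dead) .dead .dead .dead) .dead .dead) .dead)) .dead .dead .dead) .dead)) .dead)) (.br 30 .dead .dead (.br 31 .dead .dead .dead (.br 32 .dead .dead (.br 33 .dead .dead .dead (.br 34 (.br 35 (.br 36 .dead (.br 37 (.br 38 .dead (.br 39 (.br 45 .dead .dead .dead .dead) .dead .dead .dead) .dead .dead) .dead .dead .dead) .dead .dead) .dead (.br 41 .dead .dead .dead (.br 36 (.br 37 .dead (.br 38 (.br 39 .dead (.br 45 .dead .dead .dead .dead) .dead .dead) .dead .dead .dead) .dead .dead) (.br 37 (.br 38 .dead (.br 39 (.br 45 .dead .dead .dead .dead) .dead .dead .dead) .dead .dead) .dead .dead .dead) .dead .dead)) .dead) .dead (.br 35 (.br 36 .dead (.br 37 (.br 38 .dead (.br 39 (.br 45 .dead .dead .dead .dead) .dead .dead .dead) .dead .dead) .dead .dead .dead) .dead .dead) .dead (.br 36 (.br 37 .dead (.br 38 (.br 39 .dead (.br 45 .dead .dead .dead .dead) .dead .dead) .dead .dead .dead) .dead .dead) (.br 37 (.br 38 .dead (.br 39 (.br 45 .dead .dead .dead .dead) .dead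 .dead .dead) .dead .dead) .dead .dead .dead) .dead .dead) .dead) .dead)) .dead)) .dead)) (.br 29 .dead .dead .dead (.br 30 .dead .dead (.br 31 .dead .dead .dead (.br 32 .dead .dead (.br 33 .dead .dead .dead (.br 34 (.br 35 (.br 36 .dead (.br 37 (.br 38 .dead (.br 39 (.br 45 .dead .dead .dead .dead) .dead .dead .dead) .dead .dead) .dead .dead .dead) .dead .dead) (.br 36 (.br 37 .dead (.br 38 (.br 39 .dead (.br 45 .dead .dead .dead .dead) .dead .dead) .dead .dead .dead) .dead .dead) .dead .dead .dead) .dead .dead) .dead .dead .dead)) .dead)) .dead)) .dead) (.br 28 .dead (.br 34 (.br 29 .dead .dead (.br 30 .dead .dead .dead (.br 31 .dead .dead (.br 32 .dead .dead .dead (.br 33 .dead (.br 35 (.br 36 .dead (.br 37 (.br 38 .dead (.br 42 .dead .dead .dead (.br 43 .dead .dead (.br 44 .dead .dead .dead (.br 45 (.br 39 .dead .dead (.br 40 .dead .dead .dead (.br 41 .dead .dead (.kem 1 3 21 270532608) .dead)) .dead) .dead .dead .dead)) .dead)) .dead .dead) .dead .dead .dead) .dead .dead) .dead .dead (.br 41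 .dead .dead (.br 40 .dead .dead .dead (.br 42 .dead (.br 36 (.br 37 .dead (.br 38 (.br 39 .dead .dead (.br 44 .dead .dead .dead (.br 43 .dead .dead (.br 45 .dead (.br 46 (.br 47 .dead (.br 48 (.kem 1 3 21 4432676782080) .dead .dead .dead) .dead .dead) .dead .dead .dead) .dead .dead) .dead)) .dead) .dead .dead .dead) .dead .dead) .dead .dead .dead) .dead .dead)) .dead)) .dead .dead)) .dead)) (.br 30 .dead .dead (.br 31 .dead .dead .dead (.br 32 .dead .dead (.br 33 .dead (.br 35 (.br 36 .dead (.br 37 (.br 38 .dead (.br 42 .dead .dead .dead (.br 43 .dead .dead (.br 44 .dead .dead .dead (.br 45 (.br 39 .dead .dead .dead (.br 40 .dead .dead (.br 41 .dead .dead .dead (.br 46 .dead (.br 47 (.br 48 .dead (.kem 2 3 29 3856343760896) .dead .dead) .dead .dead .dead) .dead .dead)) .dead)) .dead .dead .dead)) .dead)) .dead .dead) .dead .dead .dead) .dead .dead) .dead (.br 41 .dead .dead .dead (.br 40 .dead .dead (.br 36 (.br 37 .dead (.br 38 (.br 39 .dead .dead .dead (.br 44 .dead .dead .dead (.br 43 .dead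 .dead (.br 45 .dead (.br 46 (.br 47 .dead (.br 48 (.br 42 .dead (.kem 2 3 29 3890703499264) .dead (.kem 1 3 42 4398046511104)) .dead .dead .dead) .dead .dead) .dead .dead .dead) .dead .dead) .dead))) .dead .dead .dead) .dead .dead) (.br 37 (.br 38 .dead (.br 42 .dead .dead .dead (.br 43 .dead .dead (.br 44 .dead .dead .dead (.br 45 (.br 39 .dead .dead .dead (.kem 0 1 36 528246617669632)) .dead .dead .dead)) .dead)) .dead .dead) .dead .dead .dead) .dead .dead) .dead)) .dead) .dead (.kem 1 2 27 134217728)) .dead)) .dead)) .dead .dead .dead) (.br 29 .dead .dead .dead (.br 30 .dead .dead (.br 31 .dead .dead .dead (.br 32 .dead .dead (.br 33 .dead (.br 34 (.kem 1 3 21 2097152) .dead .dead .dead) .dead (.br 34 (.kem 1 3 21 2097152) (.br 35 (.br 36 .dead (.br 37 (.br 38 .dead (.br 39 (.br 45 .dead .dead .dead .dead) .dead .dead .dead) .dead .dead) .dead .dead .dead) .dead .dead) (.br 36 (.br 37 .dead (.br 38 (.br 39 .dead (.br 45 .dead .dead .dead .dead) .dead .dead) .dead .dead .dead) .dead .dead) .dead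 .dead .dead) .dead .dead) .dead .dead)) .dead)) .dead)) .dead) .dead) .dead .dead .dead) .dead .dead) .dead .dead .dead) .dead .dead) (.br 23 (.br 24 .dead (.br 25 (.br 26 .dead (.br 27 .dead .dead (.br 28 (.br 34 .dead (.br 29 .dead .dead (.br 30 .dead .dead .dead (.br 31 .dead .dead (.br 32 .dead .dead .dead (.br 33 (.br 35 .dead (.br 36 (.br 37 .dead (.br 38 (.br 42 .dead .dead .dead (.br 43 .dead .dead (.br 44 .dead .dead .dead (.kem 0 1 22 532155436367872)) .dead)) .dead .dead .dead) .dead .dead) .dead .dead .dead) .dead (.br 41 .dead .dead (.br 40 .dead .dead .dead (.br 42 .dead (.br 36 (.br 37 .dead (.br 38 (.br 44 .dead .dead .dead (.br 43 .dead .dead (.br 45 .dead (.br 39 .dead .dead (.kem 0 1 22 26168262656) .dead) .dead .dead) .dead)) .dead .dead .dead) .dead .dead) .dead .dead .dead) .dead .dead)) .dead)) .dead .dead .dead)) .dead)) (.br 30 .dead .dead (.br 31 .dead .dead .dead (.br 32 .dead .dead (.br 33 (.br 35 .dead (.br 36 (.br 37 .dead (.br 38 (.br 42 .dead .dead .dead (.br 43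 .dead .dead (.br 44 .dead .dead .dead (.kem 0 1 22 532155436367872)) .dead)) .dead .dead .dead) .dead .dead) .dead .dead .dead) (.br 41 .dead .dead .dead (.br 40 .dead .dead (.br 36 (.br 37 .dead (.br 38 (.br 44 .dead .dead .dead (.br 43 .dead .dead (.br 45 .dead (.br 39 .dead .dead .dead (.kem 0 1 22 26168262656)) .dead .dead) .dead)) .dead .dead .dead) .dead .dead) (.br 37 (.br 38 .dead (.br 39 .dead .dead .dead (.kem 0 1 22 26168262656)) .dead .dead) .dead .dead .dead) .dead .dead) .dead)) .dead) .dead .dead (.br 35 .dead (.br 36 (.br 37 .dead (.br 38 (.br 39 .dead (.br 45 .dead .dead .dead .dead) .dead .dead) .dead .dead .dead) .dead .dead) .dead .dead .dead) (.br 41 .dead .dead .dead (.br 36 (.br 37 .dead (.br 38 (.br 39 .dead (.br 45 .dead .dead .dead .dead) .dead .dead) .dead .dead .dead) .dead .dead) (.br 37 (.br 38 .dead (.br 39 (.br 45 .dead .dead .dead .dead) .dead .dead .dead) .dead .dead) .dead .dead .dead) .dead .dead)) .dead)) .dead)) .dead)) .dead .dead) .dead (.br 29 .dead .dead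 .dead (.br 30 .dead .dead (.br 31 .dead .dead .dead (.br 32 .dead .dead (.br 33 (.br 34 .dead (.kem 0 3 8 3162368) .dead .dead) .dead .dead (.kem 0 1 22 130023424)) .dead)) .dead)) .dead) .dead) .dead .dead) .dead .dead .dead) .dead .dead) .dead .dead .dead) .dead .dead))) .dead)) .dead)) .dead) (.br 15 (.br 16 .dead .dead (.br 17 .dead .dead .dead (.br 18 .dead .dead (.br 19 .dead .dead .dead (.br 20 (.br 21 .dead .dead (.br 27 .dead .dead .dead (.br 22 .dead (.kem 0 3 8 33024) .dead (.br 23 (.br 24 .dead (.br 25 (.br 26 .dead (.br 28 (.br 34 .dead (.br 29 .dead (.br 30 .dead .dead (.br 31 .dead .dead .dead (.br 32 .dead .dead (.br 33 (.br 35 .dead .dead (.br 41 .dead .dead .dead (.br 40 .dead .dead (.br 36 (.kem 1 3 22 541065216) .dead .dead (.br 42 .dead (.br 43 .dead .dead (.br 48 (.br 47 .dead (.br 46 (.br 45 .dead (.br 38 (.br 37 .dead (.kem 0 3 36 68719476736) .dead .dead) .dead .dead .dead) .dead .dead) .dead .dead .dead) .dead .dead) .dead .dead .dead) .dead) .dead .dead)) .dead)) (.br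 36 (.br 37 .dead (.br 38 (.br 41 .dead .dead (.br 40 .dead .dead .dead (.br 39 .dead (.br 45 .dead .dead .dead .dead) .dead .dead)) .dead) .dead .dead .dead) .dead .dead) .dead .dead .dead)) .dead .dead .dead) .dead)) (.br 31 .dead .dead (.br 32 .dead .dead .dead (.br 33 (.br 35 .dead .dead (.br 36 (.br 37 .dead (.br 38 (.br 41 .dead .dead .dead (.br 40 .dead .dead (.br 39 .dead (.kem 2 3 30 7516192768) .dead .dead) .dead)) .dead .dead .dead) .dead .dead) .dead .dead .dead) (.br 41 .dead .dead (.br 40 .dead .dead .dead (.br 42 .dead (.br 48 (.br 47 .dead (.br 46 (.br 45 .dead (.br 38 (.br 37 .dead (.br 39 .dead .dead (.br 44 .dead .dead .dead (.br 43 .dead .dead (.br 36 (.kem 2 3 30 3890166628352) .dead .dead .dead) .dead)) .dead) .dead .dead) .dead .dead .dead) .dead .dead) .dead .dead .dead) .dead .dead) .dead .dead .dead) .dead .dead)) .dead)) .dead (.br 35 .dead .dead (.br 36 (.br 37 .dead (.br 38 (.br 39 .dead (.br 45 .dead .dead .dead .dead) .dead .dead) .dead .dead .dead) .dead .dead) .dead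 .dead .dead) (.br 41 .dead .dead (.br 42 .dead (.br 48 (.br 47 .dead (.br 46 (.br 39 .dead (.br 45 .dead .dead .dead .dead) .dead .dead) .dead .dead .dead) .dead .dead) .dead .dead .dead) .dead .dead) .dead)) .dead)) .dead)) (.kem 1 3 22 4194304) .dead) .dead .dead) (.br 29 .dead .dead (.br 30 .dead .dead .dead (.br 31 .dead .dead (.br 32 .dead .dead .dead (.br 34 (.br 33 .dead .dead (.br 35 (.br 36 .dead (.br 37 (.br 38 .dead (.br 39 (.br 45 .dead .dead .dead .dead) .dead .dead .dead) .dead .dead) .dead .dead .dead) .dead .dead) .dead .dead (.br 41 .dead .dead (.br 42 .dead (.br 36 (.br 37 .dead (.br 38 (.br 39 .dead (.br 45 .dead .dead .dead .dead) .dead .dead) .dead .dead .dead) .dead .dead) .dead .dead .dead) .dead .dead) .dead)) .dead) .dead .dead .dead)) .dead)) .dead) .dead .dead) (.br 28 (.br 34 .dead (.br 33 (.br 29 .dead (.br 30 .dead .dead (.br 31 .dead .dead .dead (.br 32 .dead (.br 35 .dead .dead (.br 41 .dead .dead .dead (.br 40 .dead .dead (.br 39 .dead .dead .dead (.br 36 (.kem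 1 3 22 541065216) .dead .dead (.br 42 .dead (.br 43 .dead .dead (.br 48 (.br 47 .dead (.br 46 (.br 45 .dead (.br 37 (.kem 1 3 22 4467307053056) (.kem 0 3 36 68719476736) .dead .dead) .dead .dead) .dead .dead .dead) .dead .dead) .dead .dead .dead) .dead) .dead .dead))) .dead)) (.br 36 (.br 37 .dead (.br 41 .dead .dead (.br 40 .dead .dead .dead (.br 39 .dead .dead (.br 38 (.br 42 .dead (.br 44 .dead .dead .dead (.br 43 .dead .dead (.br 45 .dead (.br 46 (.br 47 .dead (.br 48 (.kem 1 3 22 4432947314688) .dead .dead .dead) .dead .dead) .dead .dead .dead) .dead .dead) .dead)) .dead .dead) .dead .dead .dead) .dead)) .dead) .dead .dead) .dead .dead .dead)) .dead .dead)) (.br 31 .dead .dead (.br 32 .dead (.br 35 .dead .dead (.br 36 (.br 37 .dead (.br 41 .dead .dead .dead (.br 40 .dead .dead (.br 39 .dead .dead .dead (.br 38 (.kem 2 3 30 3221225472) .dead .dead .dead)) .dead)) .dead .dead) .dead .dead .dead) (.br 41 .dead .dead (.br 40 .dead .dead .dead (.br 39 .dead .dead (.br 42 .dead (.br 48 (.br 47 .dead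 (.br 46 (.br 45 .dead (.br 36 (.br 37 .dead (.br 38 (.kem 2 3 30 3221225472) .dead .dead (.br 44 (.kem 2 3 30 4160749568000) .dead .dead .dead)) .dead .dead) .dead (.br 43 .dead .dead .dead (.br 44 (.kem 2 3 30 13163001020416) .dead .dead .dead)) .dead) .dead .dead) .dead .dead .dead) .dead .dead) .dead .dead .dead) .dead .dead) .dead)) .dead)) .dead (.kem 1 2 26 67108864)) .dead)) (.kem 1 3 22 4194304) .dead) .dead .dead .dead) .dead .dead) (.br 29 .dead .dead (.br 30 .dead .dead .dead (.br 31 .dead .dead (.br 34 (.br 33 .dead (.br 32 .dead .dead .dead (.br 35 (.br 36 .dead (.br 37 (.br 38 .dead (.br 42 .dead .dead .dead (.br 43 .dead .dead (.br 44 .dead .dead .dead (.kem 0 1 28 532155306344448)) .dead)) .dead .dead) .dead .dead .dead) .dead .dead) .dead .dead (.br 41 .dead .dead (.br 40 .dead .dead .dead (.br 42 .dead (.br 36 (.br 37 .dead (.br 38 (.br 39 .dead .dead (.kem 0 1 28 26038239232) .dead) .dead .dead .dead) .dead .dead) .dead .dead .dead) .dead .dead)) .dead))) .dead .dead) .dead .dead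 .dead) .dead)) .dead) .dead .dead) .dead) .dead .dead .dead) .dead .dead) (.br 24 (.br 25 .dead (.br 26 .dead .dead (.br 28 (.br 29 .dead .dead (.br 30 .dead .dead .dead (.br 31 .dead .dead (.br 34 .dead (.br 33 (.br 32 .dead .dead .dead (.kem 0 1 23 58720256)) .dead .dead .dead) .dead .dead) .dead)) .dead) (.br 34 (.br 33 .dead (.br 29 (.br 30 .dead .dead (.br 31 .dead .dead .dead (.br 32 (.br 35 .dead .dead (.br 41 .dead .dead .dead (.br 40 .dead .dead (.br 39 .dead .dead .dead (.br 36 .dead (.kem 0 3 8 541098240) .dead (.br 42 .dead (.br 43 .dead .dead (.br 48 (.br 47 .dead (.br 46 (.br 45 .dead (.br 38 .dead .dead (.kem 0 1 23 30928797696) .dead) .dead .dead) .dead .dead .dead) .dead .dead) .dead .dead .dead) .dead) .dead .dead))) .dead)) (.br 36 .dead (.br 42 .dead .dead .dead .dead) .dead .dead)) .dead .dead .dead)) (.br 31 .dead .dead (.br 32 (.br 35 .dead .dead (.br 36 .dead (.br 37 (.br 41 .dead .dead .dead (.br 40 .dead .dead (.br 39 .dead .dead .dead (.br 38 .dead (.kem 2 3 30 3221225472)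 .dead .dead)) .dead)) .dead .dead .dead) .dead .dead) (.br 41 .dead .dead (.br 40 .dead .dead .dead (.br 39 .dead .dead (.br 42 .dead (.br 36 .dead .dead (.br 43 .dead .dead .dead (.br 44 (.br 37 .dead (.br 38 .dead .dead .dead (.kem 0 1 23 30928797696)) .dead .dead) .dead .dead .dead)) .dead) .dead .dead) .dead)) .dead)) .dead .dead (.br 35 .dead .dead (.br 36 .dead (.br 37 (.br 38 .dead (.br 41 .dead .dead .dead (.br 40 .dead .dead (.br 39 (.br 45 .dead .dead .dead .dead) .dead .dead .dead) .dead)) .dead .dead) .dead .dead .dead) .dead .dead) (.br 41 .dead .dead (.br 40 .dead .dead .dead (.br 42 .dead (.br 36 .dead .dead (.br 43 .dead .dead .dead (.br 44 (.br 37 .dead (.br 38 .dead .dead .dead .dead) .dead .dead) .dead .dead .dead)) .dead) .dead .dead)) .dead))) .dead)) .dead (.kem 0 3 8 4227328) .dead) .dead .dead) .dead .dead .dead) .dead .dead) .dead) .dead .dead) .dead .dead .dead) .dead .dead))) (.br 22 .dead (.br 23 (.br 24 .dead (.br 25 (.br 27 .dead .dead (.br 26 .dead (.br 28 (.br 34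 .dead (.br 29 .dead .dead (.br 30 .dead .dead .dead (.br 31 .dead .dead (.br 32 .dead .dead .dead (.br 33 (.kem 2 3 21 136314880) .dead .dead .dead)) .dead)) (.br 30 .dead .dead (.br 31 .dead .dead .dead (.br 32 .dead .dead (.br 33 (.kem 2 3 21 136314880) .dead .dead (.br 35 .dead (.br 36 (.br 37 .dead (.br 38 (.br 39 .dead (.br 45 .dead .dead .dead .dead) .dead .dead) .dead .dead .dead) .dead .dead) .dead .dead .dead) (.br 41 .dead .dead .dead (.br 36 (.br 37 .dead (.br 38 (.br 39 .dead (.br 45 .dead .dead .dead .dead) .dead .dead) .dead .dead .dead) .dead .dead) (.br 37 (.br 38 .dead (.br 39 (.br 45 .dead .dead .dead .dead) .dead .dead .dead) .dead .dead) .dead .dead .dead) .dead .dead)) .dead)) .dead)) .dead)) .dead .dead) .dead (.br 29 .dead .dead .dead (.br 30 .dead .dead (.br 31 .dead .dead .dead (.br 32 .dead .dead (.br 33 (.br 34 .dead (.kem 0 3 8 2130176) .dead .dead) .dead .dead (.br 34 (.br 35 (.br 36 .dead (.br 37 (.br 38 .dead (.br 39 (.br 45 .dead .dead .dead .dead) .dead .dead .dead)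 .dead .dead) .dead .dead .dead) .dead .dead) (.br 36 (.br 37 .dead (.br 38 (.br 39 .dead (.br 45 .dead .dead .dead .dead) .dead .dead) .dead .dead .dead) .dead .dead) .dead .dead .dead) .dead .dead) (.kem 0 3 8 2130176) .dead .dead)) .dead)) .dead)) .dead) .dead .dead) .dead) .dead .dead .dead) .dead .dead) .dead .dead .dead) .dead .dead)) .dead .dead .dead)) .dead)) (.br 17 .dead .dead (.br 18 .dead .dead .dead (.br 19 .dead .dead t7B_9 .dead)) .dead)) .dead (.kem 0 3 8 256) .dead) .dead .dead)

def t7B_11 : Tree :=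
  (.br 7 .dead .dead (.br 8 (.br 9 .dead (.br 10 (.br 11 .dead (.br 12 t7B_4 .dead .dead .dead) .dead .dead) .dead .dead .dead) .dead .dead) .dead .dead (.br 9 (.br 10 .dead (.br 11 (.br 12 .dead (.br 13 .dead .dead .dead t7B_8) .dead .dead) .dead .dead .dead) .dead .dead) (.br 10 (.br 11 .dead (.br 12 (.br 13 .dead t7B_10 .dead (.br 14 (.br 15 .dead .dead (.br 16 .dead .dead .dead (.br 17 .dead .dead (.br 18 .dead .dead .dead (.br 20 .dead (.br 19 .dead .dead (.kem 0 1 9 7680) .dead) .dead .dead)) .dead)) .dead) (.br 20 (.br 15 (.br 16 .dead .dead (.br 17 .dead .dead .dead (.br 18 .dead .dead (.br 19 .dead (.br 21 .dead .dead (.br 27 .dead .dead .dead (.br 26 .dead .dead (.br 22 .dead (.kem 0 3 8 33024) .dead (.br 23 (.br 24 .dead (.br 25 (.kem 1 3 13 532480) .dead .dead (.kem 0 1 9 1629696)) .dead .dead) (.br 24 (.br 25 .dead .dead .dead (.kem 0 1 9 1629696)) .dead .dead .dead) .dead .dead)) .dead)) (.br 22 .dead (.br 23 (.br 24 .dead (.br 27 .dead .dead (.br 26 .dead .dead .dead (.br 25 (.br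 28 (.br 34 .dead (.br 33 (.br 29 .dead .dead (.br 30 .dead .dead .dead (.br 31 .dead .dead (.br 32 .dead (.kem 2 3 21 203423744) .dead .dead) .dead)) (.br 30 .dead .dead (.br 31 .dead .dead .dead (.br 32 .dead (.kem 2 3 21 203423744) (.kem 1 3 13 67641344) .dead)) .dead)) .dead .dead .dead) .dead .dead) .dead (.br 29 .dead .dead .dead (.br 30 .dead .dead (.br 31 .dead .dead .dead (.br 32 .dead (.br 33 (.br 34 .dead (.kem 0 3 8 2130176) .dead .dead) .dead .dead .dead) (.kem 0 1 9 64544256) .dead)) .dead)) .dead) .dead .dead .dead)) .dead) .dead .dead) .dead .dead .dead) .dead .dead)) .dead .dead) .dead)) (.br 17 .dead .dead (.br 18 .dead .dead .dead (.br 19 .dead (.br 21 .dead .dead (.br 22 .dead (.br 23 (.br 24 .dead (.br 27 .dead .dead .dead (.br 26 .dead .dead (.br 25 (.kem 2 3 16 458752) .dead .dead .dead) .dead)) .dead .dead) .dead .dead .dead) .dead .dead) (.br 27 .dead .dead (.br 26 .dead .dead .dead (.br 22 .dead (.br 23 (.br 24 .dead (.br 25 (.kem 2 3 16 458752) .dead (.br 28 (.br 34 .dead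 (.br 33 (.br 32 .dead (.br 29 .dead .dead (.br 30 .dead .dead .dead (.br 31 (.kem 2 3 16 237436928) .dead .dead .dead)) (.br 30 .dead .dead (.br 31 (.kem 2 3 16 237436928) .dead .dead (.kem 0 2 25 33554432)) .dead)) .dead .dead) .dead .dead .dead) .dead .dead) .dead (.br 29 .dead .dead .dead (.br 30 .dead .dead (.br 31 (.br 32 .dead (.br 33 (.br 34 .dead (.br 35 (.br 36 .dead (.br 37 .dead .dead .dead (.br 38 .dead .dead (.br 39 .dead .dead .dead (.br 40 .dead .dead (.br 41 .dead .dead .dead (.kem 0 1 9 32243244544)) .dead)) .dead)) .dead .dead) (.br 36 (.br 42 .dead .dead .dead (.br 43 .dead .dead (.br 48 (.br 41 .dead .dead .dead (.kem 0 2 28 268435456)) .dead .dead .dead) .dead)) .dead .dead .dead) .dead .dead) .dead .dead) .dead .dead .dead) .dead .dead) .dead .dead (.kem 0 1 9 30989824)) .dead)) .dead) .dead) .dead .dead) .dead .dead .dead) (.br 23 (.br 24 .dead (.br 25 (.br 28 (.br 34 .dead (.br 33 (.br 29 .dead (.br 30 .dead .dead (.br 31 .dead .dead .dead (.br 32 .dead (.kem 2 3 16 208076800)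 (.br 35 .dead .dead (.br 41 .dead .dead .dead (.br 40 .dead .dead (.br 36 (.br 37 .dead (.br 38 (.br 44 .dead .dead .dead (.br 43 .dead .dead (.br 45 .dead (.br 39 .dead .dead .dead (.kem 1 2 32 4294967296)) .dead .dead) .dead)) .dead .dead .dead) .dead .dead) .dead .dead (.br 42 .dead (.br 43 .dead .dead (.br 48 (.br 47 .dead (.br 46 (.br 45 .dead (.br 38 (.br 37 .dead (.kem 0 3 36 68719476736) .dead .dead) .dead .dead .dead) .dead .dead) .dead .dead .dead) .dead .dead) .dead .dead .dead) .dead) .dead .dead)) .dead)) (.br 36 (.br 37 .dead (.br 38 (.br 41 .dead .dead (.br 40 .dead .dead .dead (.br 39 .dead (.kem 2 3 16 7724269568) .dead .dead)) .dead) .dead .dead .dead) .dead .dead) .dead .dead .dead)) .dead)) (.br 31 .dead .dead (.br 32 .dead (.kem 2 3 16 208076800) .dead .dead) .dead)) .dead (.kem 1 2 22 4194304)) .dead .dead .dead) .dead .dead) (.br 29 .dead .dead .dead (.br 30 .dead .dead (.br 31 .dead .dead .dead (.br 34 (.br 33 .dead (.br 32 .dead .dead (.kem 0 1 9 60349952) .dead) .dead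 .dead) .dead .dead .dead)) .dead)) .dead .dead) .dead (.kem 0 1 9 1629696) .dead) .dead .dead) (.br 24 (.br 25 .dead .dead (.kem 0 1 9 1629696) .dead) .dead .dead .dead) .dead .dead) .dead)) .dead)) (.kem 1 3 13 8192) .dead)) .dead)) .dead (.kem 0 3 8 256) .dead) .dead .dead .dead) .dead .dead)) .dead .dead .dead) .dead .dead) .dead .dead .dead) .dead .dead)) (.br 8 (.br 9 .dead (.br 10 (.br 11 .dead (.br 12 (.br 13 .dead (.br 14 .dead (.br 15 .dead .dead (.br 16 .dead .dead .dead (.br 17 .dead .dead (.br 18 .dead .dead .dead (.br 19 .dead .dead (.br 20 (.kem 2 3 7 128) .dead .dead .dead) .dead)) .dead)) (.br 16 .dead .dead (.br 17 .dead .dead .dead (.br 18 .dead .dead (.br 19 .dead .dead .dead (.br 20 (.kem 2 3 7 128) .dead (.br 21 (.br 22 .dead (.br 23 (.br 24 .dead (.br 25 (.br 26 .dead (.br 27 .dead .dead .dead (.kem 0 2 20 1048576)) .dead .dead) .dead .dead .dead) .dead .dead) .dead .dead .dead) .dead .dead) .dead (.br 22 (.br 23 .dead (.br 24 (.br 25 .dead (.br 26 (.br 27 .dead .dead .dead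 (.br 28 .dead (.br 34 (.br 29 .dead .dead (.br 30 .dead .dead .dead (.br 31 .dead .dead (.br 32 .dead .dead .dead (.br 33 .dead (.kem 2 3 7 138379392) (.br 35 (.br 36 .dead (.br 37 (.br 38 .dead (.br 39 (.br 45 .dead .dead .dead .dead) .dead .dead .dead) .dead .dead) .dead .dead .dead) .dead .dead) .dead .dead (.br 41 .dead .dead (.br 42 .dead (.br 36 (.br 37 .dead (.br 38 (.br 39 .dead (.br 45 .dead .dead .dead .dead) .dead .dead) .dead .dead .dead) .dead .dead) .dead .dead .dead) .dead .dead) .dead)) .dead)) .dead)) (.br 30 .dead .dead (.br 31 .dead .dead .dead (.br 32 .dead .dead (.br 33 .dead (.kem 2 3 7 138379392) .dead .dead) .dead)) .dead)) .dead .dead .dead) .dead (.br 29 .dead .dead (.br 30 .dead .dead .dead (.br 31 .dead .dead (.br 32 .dead .dead .dead (.br 33 .dead (.kem 0 2 20 68157440) (.br 34 (.br 35 (.br 36 .dead (.br 37 (.br 38 .dead (.br 39 (.br 45 .dead .dead .dead .dead) .dead .dead .dead) .dead .dead) .dead .dead .dead) .dead .dead) (.br 36 (.br 37 .dead (.br 38 (.br 39 .dead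 (.br 45 .dead .dead .dead .dead) .dead .dead) .dead .dead .dead) .dead .dead) .dead .dead .dead) .dead .dead) (.br 35 (.br 36 .dead (.br 37 (.br 38 .dead (.br 39 (.br 45 .dead .dead .dead .dead) .dead .dead .dead) .dead .dead) .dead .dead .dead) .dead .dead) (.br 36 (.br 37 .dead (.br 38 (.br 39 .dead (.br 45 .dead .dead .dead .dead) .dead .dead) .dead .dead .dead) .dead .dead) .dead .dead .dead) .dead .dead) .dead .dead) .dead)) .dead)) .dead))) .dead .dead .dead) .dead .dead) .dead .dead .dead) .dead .dead) (.br 23 (.br 24 .dead (.br 25 (.br 26 .dead (.br 27 (.br 28 (.br 29 .dead .dead (.br 30 .dead .dead .dead (.br 31 .dead .dead (.br 32 .dead .dead .dead (.br 33 .dead .dead (.br 34 .dead (.kem 2 3 7 4161664) .dead (.br 35 .dead (.br 36 (.br 37 .dead (.br 38 (.br 39 .dead (.br 45 .dead .dead .dead .dead) .dead .dead) .dead .dead .dead) .dead .dead) .dead .dead .dead) .dead (.br 42 .dead (.br 36 (.br 37 .dead (.br 38 (.br 39 .dead (.br 45 .dead .dead .dead .dead) .dead .dead) .dead .dead .dead)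 .dead .dead) .dead .dead .dead) .dead .dead))) .dead)) .dead)) (.br 30 .dead .dead (.br 31 .dead .dead .dead (.br 32 .dead .dead (.br 33 .dead .dead .dead (.br 34 .dead (.kem 2 3 7 4161664) .dead .dead)) .dead)) .dead)) .dead .dead (.br 29 .dead .dead (.br 30 .dead .dead .dead (.br 31 .dead .dead (.br 32 .dead .dead .dead (.br 33 .dead .dead (.br 34 .dead (.br 35 (.br 36 .dead (.br 37 (.br 38 .dead (.br 39 (.br 45 .dead .dead .dead .dead) .dead .dead .dead) .dead .dead) .dead .dead .dead) .dead .dead) (.br 36 (.br 37 .dead (.br 38 (.br 39 .dead (.br 45 .dead .dead .dead .dead) .dead .dead) .dead .dead .dead) .dead .dead) .dead .dead .dead) .dead .dead) .dead .dead) .dead)) .dead)) .dead)) .dead .dead (.kem 0 2 20 1048576)) .dead .dead) .dead .dead .dead) .dead .dead) .dead .dead .dead) .dead .dead) .dead) .dead)) .dead)) .dead)) (.br 15 .dead .dead .dead (.br 16 .dead .dead (.br 17 .dead .dead .dead (.br 18 .dead .dead (.br 19 .dead .dead .dead (.br 20 (.br 21 (.br 22 .dead (.br 23 (.br 24 .dead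 (.br 25 (.br 26 .dead (.br 27 .dead .dead .dead (.kem 1 2 14 16384)) (.br 27 .dead (.br 28 .dead .dead (.br 29 .dead .dead .dead (.br 30 .dead .dead (.br 31 .dead .dead .dead (.br 32 .dead (.br 34 .dead .dead .dead (.br 33 (.kem 2 3 7 68141184) .dead .dead .dead)) .dead .dead)) .dead)) (.br 29 .dead .dead (.br 30 .dead .dead .dead (.br 31 .dead .dead (.br 34 .dead .dead (.br 32 .dead (.br 33 (.kem 2 3 7 68141184) .dead .dead (.br 35 (.br 36 .dead (.br 37 (.br 38 .dead .dead .dead (.br 44 .dead .dead .dead .dead)) .dead .dead .dead) .dead .dead) (.br 36 (.br 37 .dead (.br 41 (.br 48 .dead .dead .dead .dead) .dead .dead .dead) .dead .dead) .dead .dead .dead) .dead .dead)) .dead (.br 33 (.br 35 (.br 36 .dead (.br 37 (.br 38 .dead (.br 39 .dead .dead (.br 41 .dead (.br 48 .dead .dead .dead .dead) .dead .dead) .dead) .dead .dead) .dead .dead .dead) .dead .dead) (.br 36 (.br 37 .dead (.br 38 (.br 41 (.br 48 .dead .dead .dead .dead) .dead .dead .dead) .dead .dead .dead) .dead .dead) .dead .dead .dead)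 .dead .dead) .dead .dead .dead)) .dead) .dead)) .dead)) .dead (.kem 1 2 14 16384)) .dead) .dead .dead .dead) .dead .dead) .dead .dead .dead) .dead .dead) (.br 22 (.br 23 .dead (.br 24 (.br 25 .dead (.br 26 .dead .dead (.br 27 .dead .dead .dead (.br 28 .dead .dead (.br 29 .dead .dead .dead (.br 30 .dead .dead (.br 31 .dead .dead .dead (.br 32 (.br 33 .dead (.br 34 (.kem 2 3 7 202358912) .dead .dead .dead) .dead .dead) .dead .dead .dead)) .dead)) (.br 29 .dead .dead (.br 30 .dead .dead .dead (.br 31 .dead .dead (.br 32 (.br 33 .dead (.br 34 (.kem 2 3 7 202358912) .dead (.br 35 (.br 36 .dead (.br 37 (.br 41 .dead (.br 48 .dead .dead .dead .dead) .dead .dead) .dead .dead .dead) .dead .dead) (.br 36 (.br 37 .dead (.br 38 .dead .dead .dead (.br 39 .dead .dead (.br 41 (.br 48 .dead .dead .dead .dead) .dead .dead .dead) .dead)) .dead .dead) .dead .dead .dead) .dead .dead) .dead) .dead .dead) .dead .dead (.br 33 (.br 34 .dead .dead (.kem 0 1 21 65011712) .dead) (.br 34 (.kem 1 2 14 2113536) .dead (.kem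 0 1 21 65011712) .dead) .dead .dead)) .dead)) .dead))) .dead) .dead .dead) .dead .dead .dead) .dead .dead) .dead .dead .dead) .dead .dead) .dead .dead .dead)) .dead)) .dead)) .dead) .dead .dead) .dead .dead .dead) .dead .dead) .dead .dead .dead) .dead .dead) .dead .dead .dead))

def t7B_root : Tree :=
  t7B_11


theorem check7B : check 4 49 7 nbs7 282918438129685 7284969349162 184763061635776 87983484306688 t7B_root 1 2 84 40 = true := by
  decide +kernel

end Pool.Agent.Lib.WSK
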