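import Mathlib
import Pool.Agent.Lib.WSK.Search
import Pool.Agent.Lib.WSK.Graphs
import Pool.Agent.Lib.WSK.SevenBase
set_option autoImplicit false
set_option maxRecDepth 100000

namespace Pool.Agent.Lib.WSK

def t7C_0 : Tree :=
  (.br 21 .dead (.br 22 (.br 23 .dead (.br 24 (.br 25 .dead (.br 26 (.br 27 .dead .dead (.br 28 .dead .dead (.br 29 .dead .dead .dead (.br 30 .dead .dead (.br 31 .dead .dead .dead (.br 32 .dead .dead (.br 33 .dead (.br 34 (.br 35 (.br 36 .dead (.br 37 (.br 38 .dead (.br 42 .dead .dead (.br 43 .dead .dead .dead (.br 44 .dead .dead (.br 45 .dead .dead .dead (.br 39 (.br 46 .dead (.br 47 (.br 48 .dead (.br 41 .dead .dead .dead (.br 40 .dead .dead (.fin [(2,3,136282496),(1,3,398369533602002),(0,3,493646361133056),(1,3,142971416741904),(2,3,135274496),(2,3,21584123756802),(0,3,71485708370960),(1,2,562949953421311)]) .dead)) .dead .dead) .dead .dead .dead) .dead .dead) .dead .dead .dead)) .dead)) .dead) .dead .dead) .dead .dead .dead) .dead .dead) (.br 36 (.br 37 .dead (.br 38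 (.br 39 .dead .dead .dead (.br 40 .dead .dead (.br 41 .dead .dead .dead (.br 42 .dead .dead (.br 43 .dead .dead .dead (.br 44 .dead .dead (.br 45 .dead (.br 46 (.br 47 .dead (.br 48 (.fin [(2,3,136282496),(1,3,8935713546434),(2,3,135274496),(2,3,21584123756802),(0,3,71485708370960),(1,2,562949953421311)]) .dead .dead .dead) .dead .dead) .dead .dead .dead) .dead .dead) .dead)) .dead)) .dead)) .dead .dead .dead) .dead .dead) .dead .dead .dead) .dead .dead) .dead .dead (.br 35 (.br 36 .dead (.br 37 (.br 38 .dead (.br 41 .dead (.br 48 .dead .dead .dead .dead) .dead .dead) .dead .dead) .dead .dead .dead) .dead .dead) (.br 36 (.br 37 .dead (.br 38 (.br 39 .dead .dead .dead (.br 41 (.br 48 .dead .dead .dead .dead) .dead .dead .dead)) .dead .dead .dead) .dead .dead) .dead .dead .dead) .dead .dead)) .dead (.br 34 (.br 35 (.br 36 .dead (.br 37 (.br 38 .dead (.br 39 (.br 42 .dead .dead (.br 43 .dead .dead .dead (.br 44 .dead .dead (.br 45 .dead .dead .dead (.br 46 .dead (.br 40 .dead .dead (.kem 1 3 33 8589934592)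 .dead) .dead .dead)) .dead)) .dead) .dead .dead .dead) .dead .dead) .dead .dead .dead) .dead .dead) (.br 36 (.br 37 .dead (.br 38 (.br 39 .dead (.br 40 .dead .dead (.br 41 .dead .dead .dead (.br 42 .dead .dead (.br 43 .dead .dead .dead (.br 44 .dead .dead (.br 45 .dead .dead .dead (.kem 0 1 35 493646361133056)) .dead)) .dead)) .dead) .dead .dead) .dead .dead .dead) .dead .dead) .dead .dead .dead) .dead .dead) .dead .dead .dead)) .dead)) .dead)) (.br 29 .dead .dead (.br 30 .dead .dead .dead (.br 31 .dead .dead (.br 32 .dead .dead .dead (.br 33 .dead (.br 34 (.br 35 (.br 36 .dead (.br 37 (.br 38 .dead (.br 42 .dead .dead (.br 43 .dead .dead .dead (.br 44 .dead .dead (.br 45 .dead .dead .dead (.br 48 .dead (.br 41 .dead .dead (.br 40 .dead .dead .dead (.br 47 (.br 46 .dead (.br 39 (.kem 2 3 28 3306856382464) .dead (.kem 0 2 39 549755813888) .dead) .dead .dead) .dead .dead .dead)) .dead) .dead .dead)) .dead)) .dead) .dead .dead) .dead .dead .dead) .dead .dead) (.br 36 (.br 37 .dead (.br 38 (.br 39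 .dead .dead (.br 40 .dead .dead .dead (.br 41 .dead .dead (.br 42 .dead .dead (.br 43 .dead .dead .dead (.br 44 .dead .dead (.br 48 (.br 47 .dead (.br 46 (.br 45 .dead (.kem 2 3 28 3856612196352) .dead (.kem 0 1 35 493096605319168)) .dead .dead .dead) .dead .dead) .dead .dead .dead) .dead)) .dead) .dead)) .dead) .dead .dead .dead) .dead .dead) .dead .dead .dead) .dead .dead) .dead .dead .dead) .dead .dead)) .dead)) .dead)) .dead) .dead .dead .dead) .dead .dead) .dead .dead .dead) .dead .dead) .dead .dead .dead) .dead (.br 22 (.br 23 .dead (.br 24 (.br 25 .dead (.br 26 (.br 27 .dead (.br 28 .dead (.br 29 .dead .dead (.br 30 .dead .dead .dead (.br 31 .dead .dead (.br 32 .dead .dead .dead (.br 33 .dead .dead (.br 34 (.br 35 (.br 36 .dead (.br 37 (.br 38 .dead (.br 39 (.br 42 .dead .dead (.br 43 .dead .dead .dead (.br 44 .dead .dead (.br 45 .dead .dead .dead (.br 46 .dead (.br 40 .dead .dead .dead (.br 41 .dead .dead (.br 47 (.br 48 .dead (.fin [(0,3,34359738368),(0,1,493612001394688),(1,2,558479966208),(1,2,17731806568578),(1,3,141853116402576),(0,1,71485708370960),(1,2,562949953421311),(2,3,562949953421311)])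 .dead .dead) .dead .dead .dead) .dead)) .dead .dead)) .dead)) .dead) .dead .dead .dead) .dead .dead) .dead .dead .dead) .dead .dead) .dead .dead (.br 41 .dead .dead (.br 36 (.br 37 .dead (.br 38 (.br 39 .dead (.br 40 .dead .dead .dead (.br 45 .dead .dead .dead (.br 44 .dead .dead (.br 43 .dead .dead .dead (.br 46 (.br 47 .dead (.br 48 (.br 42 .dead (.fin [(1,2,142937325439008),(1,2,33288),(2,3,141853116402576),(0,2,71485708370960),(2,3,562949953421311)]) (.kem 1 2 42 4398046511104) .dead) .dead .dead .dead) .dead .dead) .dead .dead .dead)) .dead))) .dead .dead) .dead .dead .dead) .dead .dead) (.br 37 (.br 38 .dead (.br 39 (.br 42 .dead .dead (.br 43 .dead .dead .dead (.br 44 .dead .dead (.br 45 .dead .dead .dead (.br 46 .dead (.br 40 .dead .dead .dead (.kem 0 1 36 493612001394688)) .dead .dead)) .dead)) .dead) .dead .dead .dead) .dead .dead) .dead .dead .dead) .dead .dead) .dead)) .dead .dead .dead) .dead)) .dead)) (.br 30 .dead .dead (.br 31 .dead .dead .dead (.br 32 .dead .dead (.br 33 .dead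 .dead .dead (.br 34 (.br 35 (.br 36 .dead (.br 37 (.br 38 .dead (.br 39 (.br 42 .dead .dead (.br 43 .dead .dead .dead (.br 44 .dead .dead (.br 45 .dead .dead .dead (.br 46 .dead (.br 40 .dead .dead (.br 41 .dead .dead .dead (.br 47 (.br 48 .dead (.kem 2 3 29 3315177881600) .dead .dead) .dead .dead .dead)) .dead) .dead .dead)) .dead)) .dead) .dead .dead .dead) .dead .dead) .dead .dead .dead) .dead .dead) .dead (.br 41 .dead .dead .dead (.br 42 .dead (.br 36 (.br 37 .dead (.br 38 (.br 39 .dead (.br 40 .dead .dead (.br 45 .dead .dead .dead (.br 44 .dead .dead (.br 43 .dead .dead .dead (.br 46 (.br 47 .dead (.br 48 (.kem 2 3 29 3349537619968) .dead .dead .dead) .dead .dead) .dead .dead .dead)) .dead)) .dead) .dead .dead) .dead .dead .dead) .dead .dead) .dead .dead .dead) .dead .dead)) .dead) .dead (.br 35 (.br 36 .dead (.br 37 (.br 38 .dead (.br 39 (.br 40 .dead (.br 46 .dead .dead .dead .dead) .dead .dead) .dead .dead .dead) .dead .dead) .dead .dead .dead) .dead .dead) .dead (.br 42 .dead (.br 36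 (.br 37 .dead (.br 38 (.br 39 .dead (.br 40 (.br 46 .dead .dead .dead .dead) .dead .dead .dead) .dead .dead) .dead .dead .dead) .dead .dead) .dead .dead .dead) .dead .dead) .dead) .dead)) .dead)) .dead)) (.br 29 .dead .dead .dead (.br 30 .dead .dead (.br 31 .dead .dead .dead (.br 32 .dead .dead (.br 33 .dead .dead .dead (.br 34 (.br 35 (.br 36 .dead (.br 37 (.br 38 .dead (.br 39 (.br 42 .dead .dead (.br 43 .dead .dead .dead (.br 44 .dead .dead (.br 45 .dead .dead .dead (.br 46 .dead (.br 40 .dead .dead (.br 47 (.br 48 .dead (.br 41 .dead .dead .dead (.kem 1 2 28 268435456)) .dead .dead) .dead .dead .dead) .dead) .dead .dead)) .dead)) .dead) .dead .dead .dead) .dead .dead) .dead .dead .dead) .dead .dead) (.br 36 (.br 37 .dead (.br 38 (.br 39 .dead (.br 40 .dead .dead (.br 41 .dead .dead .dead (.br 42 .dead .dead (.br 43 .dead .dead .dead (.br 44 .dead .dead (.br 45 .dead .dead .dead (.kem 0 1 35 493646361133056)) .dead)) .dead)) .dead) .dead .dead) .dead .dead .dead) .dead .dead) .dead .dead .dead)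 .dead .dead) .dead .dead .dead)) .dead)) .dead)) .dead) (.br 28 .dead (.br 34 (.br 29 .dead .dead (.br 30 .dead .dead .dead (.br 31 .dead .dead (.br 32 .dead .dead .dead (.br 33 .dead (.br 35 (.br 36 .dead (.br 37 (.br 38 .dead (.br 42 .dead .dead (.br 43 .dead .dead .dead (.br 44 .dead .dead (.br 45 .dead .dead .dead (.br 48 .dead (.br 47 (.br 46 .dead (.br 39 (.br 40 .dead .dead (.br 41 .dead .dead .dead (.fin [(1,2,71476979991048),(2,3,2097152),(0,3,142988055479312),(0,1,285804572180480),(1,2,545392672),(2,3,277111289937984),(1,3,4398046511104)])) (.kem 1 2 27 8724152320)) .dead (.br 40 .dead .dead .dead (.kem 0 2 39 549755813888)) .dead) .dead .dead) .dead .dead .dead) .dead .dead)) .dead)) .dead) .dead .dead) .dead .dead .dead) .dead .dead) .dead .dead (.br 41 .dead .dead (.br 40 .dead .dead .dead (.br 36 (.br 37 .dead (.br 38 (.br 39 .dead .dead (.br 42 .dead (.br 48 (.br 47 .dead (.br 46 (.br 43 .dead .dead (.br 44 .dead .dead .dead (.br 45 .dead (.fin [(1,2,13333760057474),(1,3,61572651155456),(1,3,141853116402576),(0,1,71485708370960),(1,2,562949953421311),(2,3,562949953421311)])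 .dead .dead)) (.br 44 .dead .dead (.br 45 .dead (.kem 2 3 43 26388279066624) .dead (.kem 1 2 27 558479966208)) .dead)) .dead .dead .dead) .dead .dead) .dead .dead .dead) (.br 43 .dead .dead .dead (.br 44 .dead .dead (.br 45 .dead (.br 46 (.br 47 .dead (.br 48 (.kem 1 3 21 34630270976) .dead .dead .dead) .dead .dead) .dead .dead .dead) .dead (.br 46 (.kem 1 2 27 558479966208) (.kem 0 1 46 492581209243648) .dead .dead)) .dead)) .dead) .dead) .dead .dead .dead) .dead .dead) (.br 37 (.br 38 .dead (.br 42 .dead .dead (.br 43 .dead .dead .dead (.br 44 .dead .dead (.br 45 .dead .dead .dead (.br 39 (.kem 1 2 27 8724152320) .dead (.kem 0 1 36 481036337152) .dead)) .dead)) .dead) .dead .dead) .dead .dead .dead) .dead .dead)) .dead)) .dead .dead)) .dead)) (.br 30 .dead .dead (.br 31 .dead .dead .dead (.br 32 .dead .dead (.br 33 .dead (.br 35 (.br 36 .dead (.br 37 (.br 38 .dead (.br 42 .dead .dead (.br 43 .dead .dead .dead (.br 44 .dead .dead (.br 45 .dead .dead .dead (.br 39 (.kem 2 3 29 8053063680) .dead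 .dead .dead)) .dead)) .dead) .dead .dead) .dead .dead .dead) .dead .dead) .dead (.br 41 .dead .dead .dead (.br 40 .dead .dead (.br 42 .dead (.br 36 (.br 37 .dead (.br 38 (.br 39 .dead .dead .dead (.br 45 .dead (.br 46 (.br 47 .dead (.br 48 (.kem 2 3 29 3890703499264) .dead .dead .dead) .dead .dead) .dead .dead .dead) .dead .dead)) .dead .dead .dead) .dead .dead) .dead .dead .dead) .dead .dead) .dead)) .dead) .dead (.kem 1 2 27 134217728)) .dead)) .dead)) .dead .dead .dead) (.br 29 .dead .dead .dead (.br 30 .dead .dead (.br 31 .dead .dead .dead (.br 32 .dead .dead (.br 33 .dead (.br 34 (.kem 1 3 21 2097152) .dead .dead .dead) .dead (.br 34 (.kem 1 3 21 2097152) (.br 35 (.br 36 .dead (.br 37 (.br 38 .dead (.br 39 (.br 40 .dead .dead (.br 41 .dead .dead .dead (.kem 0 1 34 17179869184)) .dead) .dead .dead .dead) .dead .dead) .dead .dead .dead) .dead .dead) (.br 36 (.br 37 .dead (.br 38 (.br 39 .dead (.br 42 .dead .dead (.br 43 .dead .dead .dead (.br 44 .dead .dead (.br 45 .dead .dead .dead (.kem 0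 1 34 496962075885568)) .dead)) .dead) .dead .dead) .dead .dead .dead) .dead .dead) .dead .dead .dead) .dead .dead) .dead .dead)) .dead)) .dead)) .dead) .dead) .dead .dead .dead) .dead .dead) .dead .dead .dead) .dead .dead) (.br 23 (.br 24 .dead (.br 25 (.br 26 .dead (.br 27 .dead .dead (.br 28 (.br 34 .dead (.br 29 .dead .dead (.br 30 .dead .dead .dead (.br 31 .dead .dead (.br 32 .dead .dead .dead (.br 33 (.br 35 .dead (.br 36 (.br 37 .dead (.br 38 (.br 42 .dead .dead (.br 43 .dead .dead .dead (.br 44 .dead .dead (.br 48 (.br 47 .dead (.br 46 (.br 39 .dead (.br 45 .dead .dead .dead (.kem 0 1 22 496971064279040)) (.br 40 .dead .dead .dead (.br 41 .dead .dead (.br 45 .dead (.fin [(1,3,4363132992),(1,3,150788808968978),(0,3,26168262656),(2,3,17731806568578),(1,3,141853116402576),(0,3,71485708370960),(1,2,562949953421311)]) .dead (.kem 0 1 22 493122773581824)) .dead)) .dead) .dead .dead .dead) .dead .dead) .dead .dead .dead) .dead)) .dead) .dead .dead .dead) .dead .dead) .dead .dead .dead) .dead (.br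 41 .dead .dead (.br 40 .dead .dead .dead (.br 36 (.br 37 .dead (.br 38 (.br 39 .dead (.br 45 .dead .dead .dead (.br 44 .dead .dead (.br 43 .dead .dead .dead (.br 46 (.br 47 .dead (.br 48 (.br 42 .dead (.fin [(1,2,549755813888),(0,1,26168262656),(1,2,17731806568578),(1,3,141853116402576),(1,2,4398046511104),(0,1,71485708370960),(1,2,562949953421311),(2,3,562949953421311)]) (.kem 0 1 22 493638169657344) .dead) .dead .dead .dead) .dead .dead) .dead .dead .dead)) .dead)) (.kem 0 1 22 26168262656) .dead) .dead .dead .dead) .dead .dead) (.br 37 (.br 38 .dead (.br 39 .dead .dead (.kem 0 1 22 26168262656) .dead) .dead .dead) .dead .dead .dead) .dead .dead)) .dead)) .dead .dead .dead)) .dead)) (.br 30 .dead .dead (.br 31 .dead .dead .dead (.br 32 .dead .dead (.br 33 (.br 35 .dead (.br 36 (.br 37 .dead (.br 38 (.br 42 .dead .dead (.br 43 .dead .dead .dead (.br 44 .dead .dead (.br 48 (.br 47 .dead (.br 46 (.br 39 .dead (.kem 2 3 29 8053063680) .dead (.br 40 .dead .dead (.kem 1 3 39 35734127902720) .dead))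 .dead .dead .dead) .dead .dead) .dead .dead .dead) .dead)) .dead) .dead .dead .dead) .dead .dead) .dead .dead .dead) (.br 41 .dead .dead .dead (.br 40 .dead .dead (.br 42 .dead (.br 36 (.br 37 .dead (.br 38 (.br 48 (.br 47 .dead (.br 46 (.br 39 .dead (.kem 2 3 29 3340947685376) .dead (.kem 0 1 22 26168262656)) .dead .dead .dead) .dead .dead) .dead .dead .dead) .dead .dead .dead) .dead .dead) .dead .dead .dead) .dead .dead) .dead)) .dead) .dead .dead (.br 35 .dead (.br 36 (.br 37 .dead (.br 38 (.br 39 .dead (.br 42 .dead .dead (.br 43 .dead .dead .dead (.br 44 .dead .dead (.br 45 .dead .dead .dead (.kem 0 1 22 496962474344448)) .dead)) .dead) .dead .dead) .dead .dead .dead) .dead .dead) .dead .dead .dead) (.br 41 .dead .dead .dead (.br 42 .dead (.br 36 (.br 37 .dead (.br 38 (.br 39 .dead (.br 45 .dead .dead .dead (.br 44 .dead .dead (.br 43 .dead .dead .dead (.br 46 (.br 40 .dead .dead (.kem 0 1 22 17578328064) .dead) .dead .dead .dead)) .dead)) .dead .dead) .dead .dead .dead) .dead .dead) .dead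 .dead .dead) .dead .dead)) .dead)) .dead)) .dead)) .dead .dead) .dead (.br 29 .dead .dead .dead (.br 30 .dead .dead (.br 31 .dead .dead .dead (.br 32 .dead .dead (.br 33 (.br 34 .dead (.br 35 (.br 36 .dead (.br 37 (.br 38 .dead (.br 39 .dead .dead .dead (.br 45 .dead .dead .dead .dead)) .dead .dead) .dead .dead .dead) .dead .dead) (.br 36 (.br 37 .dead (.br 38 (.br 42 .dead .dead (.br 43 .dead .dead .dead (.br 44 .dead .dead (.br 48 (.br 41 .dead .dead .dead (.kem 0 2 28 268435456)) .dead .dead .dead) .dead)) .dead) .dead .dead .dead) .dead .dead) .dead .dead .dead) .dead .dead) .dead .dead) .dead .dead (.kem 0 1 22 130023424)) .dead)) .dead)) .dead) .dead) .dead .dead) .dead .dead .dead) .dead .dead) .dead .dead .dead) .dead .dead))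

def t7C_1 : Tree :=
  (.br 22 .dead (.br 23 (.br 24 .dead (.br 25 (.br 26 .dead (.br 28 (.br 34 .dead (.br 29 .dead .dead (.br 30 .dead .dead .dead (.br 31 .dead .dead (.br 32 .dead .dead .dead (.br 33 (.br 35 .dead (.br 36 (.br 37 .dead (.br 38 (.br 42 .dead .dead (.br 43 .dead .dead .dead (.br 44 .dead .dead (.br 48 (.br 47 .dead (.br 46 (.br 39 .dead (.br 45 .dead .dead .dead (.br 40 .dead .dead (.br 41 .dead .dead .dead (.fin [(2,3,8053063680),(2,3,384),(1,3,35734127902720),(0,3,32768),(0,2,375291063375149),(1,2,528280977423879),(2,3,8935713546434),(0,3,135274496),(0,3,21584123756802),(1,3,71485708370960),(0,1,562949953421311)])) (.kem 2 3 40 3298534883328))) (.br 40 .dead .dead .dead (.br 41 .dead .dead (.br 45 .dead (.fin [(2,3,3856343760896),(2,3,384),(0,3,32768),(0,2,375291063375149),(1,2,528280977423879),(2,3,8935713546434),(0,3,135274496),(0,3,21584123756802),(1,3,71485708370960),(0,1,562949953421311)]) .dead (.kem 1 2 39 549755813888)) .dead)) .dead) .dead .dead .dead) .dead .dead)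 .dead .dead .dead) .dead)) .dead) .dead .dead .dead) .dead .dead) .dead .dead .dead) .dead (.br 41 .dead .dead (.br 40 .dead .dead .dead (.br 36 (.br 37 .dead (.br 38 (.br 39 .dead (.br 45 .dead .dead .dead (.br 44 .dead .dead (.br 43 .dead .dead .dead (.br 46 (.br 47 .dead (.br 48 (.br 42 .dead (.fin [(0,2,1048705),(2,3,138346496),(0,2,371981522965548),(1,2,498010047921671),(0,2,142937325439008),(0,2,33288),(0,3,141853116402576),(0,1,71485708370960),(0,1,562949953421311),(1,2,562949953421311),(2,3,562949953421311)]) (.kem 1 3 35 34359738368) .dead) .dead .dead .dead) .dead .dead) .dead .dead .dead)) .dead)) (.br 42 .dead (.br 48 (.br 47 .dead (.br 46 (.br 43 .dead .dead (.br 44 .dead .dead .dead (.br 45 .dead (.fin [(2,3,983040),(1,3,194773768293138),(0,1,375291198682389),(1,2,363743508305069),(2,3,528280977415751),(1,2,8935714586754),(0,1,56),(0,1,21584123756802),(1,3,71485708370960),(0,3,562949953421311),(1,3,562949953421311)]) .dead .dead)) (.br 44 .dead .dead (.br 45 .dead (.kem 2 3 43 26388279066624)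 .dead (.kem 1 2 39 549755813888)) .dead)) .dead .dead .dead) .dead .dead) .dead .dead .dead) (.br 43 .dead .dead .dead (.br 44 .dead .dead (.br 45 .dead (.br 46 (.br 47 .dead (.br 48 (.kem 1 3 35 34359738368) .dead .dead .dead) .dead .dead) .dead .dead .dead) .dead (.br 46 (.kem 1 2 39 549755813888) (.kem 0 1 46 492581209243648) .dead .dead)) .dead)) .dead) .dead) .dead .dead .dead) .dead .dead) (.br 37 (.br 38 .dead (.br 39 .dead .dead (.br 42 .dead .dead (.br 43 .dead .dead .dead (.br 44 .dead .dead (.br 45 .dead .dead .dead (.kem 0 1 36 481036337152)) .dead)) .dead) .dead) .dead .dead) .dead .dead .dead) .dead .dead)) .dead)) .dead (.br 35 .dead (.br 36 (.br 37 .dead (.br 38 (.br 39 .dead (.br 42 .dead .dead (.br 43 .dead .dead .dead (.br 44 .dead .dead (.br 45 .dead .dead .dead (.br 46 (.br 40 .dead .dead .dead (.kem 0 2 33 8589934592)) .dead .dead .dead)) .dead)) .dead) .dead .dead) .dead .dead .dead) .dead .dead) .dead .dead .dead) .dead (.br 41 .dead .dead (.br 36 (.br 37 .dead (.br 38 (.br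 39 .dead (.br 45 .dead .dead .dead (.br 44 .dead .dead (.br 43 .dead .dead .dead (.br 46 (.br 40 .dead .dead .dead (.kem 0 2 33 8589934592)) .dead .dead .dead)) .dead)) .dead .dead) .dead .dead .dead) .dead .dead) (.br 37 (.br 38 .dead (.br 39 (.br 40 .dead .dead .dead (.br 42 .dead .dead (.br 43 .dead .dead .dead (.br 44 .dead .dead (.br 45 .dead .dead .dead (.kem 0 1 36 493612001394688)) .dead)) .dead)) .dead .dead .dead) .dead .dead) .dead .dead .dead) .dead .dead) .dead)) .dead)) .dead)) (.br 30 .dead .dead (.br 31 .dead .dead .dead (.br 32 .dead .dead (.br 33 (.br 35 .dead (.br 36 (.br 37 .dead (.br 38 (.br 42 .dead .dead (.br 43 .dead .dead .dead (.br 44 .dead .dead (.br 48 (.br 47 .dead (.br 46 (.br 39 .dead (.kem 2 3 29 8053063680) .dead (.br 40 .dead .dead (.kem 1 3 39 35734127902720) .dead)) .dead .dead .dead) .dead .dead) .dead .dead .dead) .dead)) .dead) .dead .dead .dead) .dead .dead) .dead .dead .dead) (.br 41 .dead .dead .dead (.br 40 .dead .dead (.br 42 .dead (.br 36 (.br 37 .dead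 (.br 38 (.br 48 (.br 47 .dead (.br 46 (.br 39 .dead (.kem 2 3 29 3340947685376) .dead (.br 45 .dead (.kem 2 3 29 3890703499264) .dead .dead)) .dead .dead .dead) .dead .dead) .dead .dead .dead) .dead .dead .dead) .dead .dead) .dead .dead .dead) .dead .dead) .dead)) .dead) .dead .dead .dead) .dead)) .dead)) .dead .dead) .dead .dead (.br 29 .dead .dead (.br 30 .dead .dead .dead (.br 31 .dead .dead (.br 32 .dead .dead .dead (.br 33 (.br 34 .dead (.br 35 (.br 36 .dead (.br 37 (.br 38 .dead (.br 39 .dead .dead (.br 40 .dead .dead .dead (.br 41 .dead .dead (.br 42 .dead .dead (.br 43 .dead .dead .dead (.br 44 .dead .dead (.br 45 .dead .dead .dead (.br 48 .dead (.kem 0 3 28 34628173824) .dead .dead)) .dead)) .dead) .dead)) .dead) .dead .dead) .dead .dead .dead) .dead .dead) (.br 36 (.br 37 .dead (.br 38 (.br 42 .dead .dead (.br 43 .dead .dead .dead (.br 44 .dead .dead (.br 48 (.br 41 .dead .dead (.kem 0 3 28 268435456) .dead) .dead .dead .dead) .dead)) .dead) .dead .dead .dead) .dead .dead) .dead .dead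 .dead) .dead .dead) .dead .dead) .dead (.br 34 (.br 35 (.br 36 .dead (.br 37 (.br 38 .dead (.br 39 (.br 42 .dead .dead (.br 43 .dead .dead .dead (.br 44 .dead .dead (.br 45 .dead .dead .dead (.br 46 .dead (.br 40 .dead .dead .dead (.br 47 (.br 48 .dead (.br 41 .dead .dead (.fin [(2,3,3315582631936),(1,3,283682657542208),(2,3,8576),(0,3,422247370195984),(1,3,257665856979074),(0,3,71400196064272),(2,3,21584123756802),(0,3,71485708370960),(1,2,562949953421311)]) .dead) .dead .dead) .dead .dead .dead)) .dead .dead)) .dead)) .dead) .dead .dead .dead) .dead .dead) .dead .dead .dead) .dead .dead) (.br 36 (.br 37 .dead (.br 38 (.br 39 .dead (.br 40 .dead .dead .dead (.br 41 .dead .dead (.br 42 .dead .dead (.br 43 .dead .dead .dead (.br 44 .dead .dead (.br 45 .dead .dead .dead (.kem 0 1 35 493646361133056)) .dead)) .dead) .dead)) .dead .dead) .dead .dead .dead) .dead .dead) .dead .dead .dead) .dead .dead) (.br 35 (.br 36 .dead (.br 37 (.br 38 .dead (.br 39 (.br 40 .dead .dead .dead (.br 41 .dead .dead (.kem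 0 1 34 17179869184) .dead)) .dead .dead .dead) .dead .dead) .dead .dead .dead) .dead .dead) (.br 36 (.br 37 .dead (.br 38 (.br 39 .dead (.br 42 .dead .dead (.br 43 .dead .dead .dead (.br 44 .dead .dead (.br 45 .dead .dead .dead (.kem 0 1 34 496962075885568)) .dead)) .dead) .dead .dead) .dead .dead .dead) .dead .dead) .dead .dead .dead) .dead .dead) .dead .dead) .dead)) .dead)) .dead)) (.br 28 (.br 34 .dead (.br 33 (.br 29 .dead .dead (.br 30 .dead .dead .dead (.br 31 .dead .dead (.br 32 .dead (.br 35 .dead (.br 36 (.br 37 .dead (.br 42 .dead .dead (.br 43 .dead .dead .dead (.br 44 .dead .dead (.br 48 (.br 47 .dead (.br 46 (.br 38 (.br 39 .dead .dead (.br 40 .dead .dead .dead (.br 41 .dead .dead (.br 45 .dead (.fin [(2,3,204406784),(1,3,150788808985362),(0,2,376938050491565),(2,3,26169327616),(1,3,1056832),(0,3,17731806568578),(1,3,141853116402576),(2,3,71485708370960),(0,2,562949953421311),(1,2,562949953421311)]) .dead (.kem 1 3 45 35184372088832)) .dead)) (.br 40 .dead .dead (.br 41 .dead .dead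 .dead (.br 45 .dead (.kem 2 3 39 3848290697216) .dead .dead)) .dead)) .dead .dead (.br 39 .dead .dead (.br 40 .dead .dead .dead (.br 41 .dead .dead (.br 45 .dead (.kem 0 3 38 274877906944) .dead .dead) .dead)) .dead)) .dead .dead .dead) .dead .dead) .dead .dead .dead) .dead)) .dead) .dead .dead) .dead .dead .dead) .dead (.br 41 .dead .dead (.br 40 .dead .dead .dead (.br 39 .dead .dead (.br 36 (.br 37 .dead (.br 38 (.br 42 .dead (.br 48 (.br 47 .dead (.br 46 (.br 43 .dead .dead (.br 44 .dead .dead .dead (.br 45 .dead (.fin [(1,3,4432406782016),(0,3,357419805979665),(1,3,545598287142723),(2,3,8935681572994),(0,2,4262486605824),(0,2,62),(1,2,71485708370960),(1,2,17871427092740),(0,1,562949953421311),(2,3,562949953421311)]) .dead .dead)) (.br 44 .dead .dead (.br 45 .dead (.kem 2 3 43 26388279066624) .dead (.kem 1 3 45 35184372088832)) .dead)) .dead .dead .dead) .dead .dead) .dead .dead .dead) (.br 43 .dead .dead .dead (.br 44 .dead .dead (.br 45 .dead (.br 46 (.br 47 .dead (.br 48 (.kem 1 3 35 34359738368)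 .dead .dead .dead) .dead .dead) .dead .dead .dead) .dead (.br 46 (.kem 1 3 45 35184372088832) (.kem 0 1 46 492581209243648) .dead .dead)) .dead)) .dead) .dead .dead (.br 44 .dead .dead (.br 43 .dead .dead .dead (.br 45 .dead (.kem 0 3 38 274877906944) .dead .dead)) .dead)) .dead .dead) (.br 37 (.br 38 .dead .dead .dead (.br 42 .dead .dead (.br 43 .dead .dead .dead (.br 44 .dead .dead (.kem 0 1 36 206158430208) .dead)) .dead)) .dead .dead .dead) .dead .dead) .dead)) .dead)) .dead (.kem 1 2 26 67108864)) .dead)) (.br 30 .dead .dead (.br 31 .dead .dead .dead (.br 32 .dead (.br 35 .dead (.br 36 (.br 37 .dead (.br 42 .dead .dead (.br 43 .dead .dead .dead (.br 44 .dead .dead (.br 38 (.kem 2 3 29 3758096384) .dead .dead .dead) .dead)) .dead) .dead .dead) .dead .dead .dead) (.br 41 .dead .dead .dead (.br 40 .dead .dead (.br 39 .dead .dead .dead (.br 42 .dead (.br 36 (.br 37 .dead (.br 45 .dead (.br 46 (.br 47 .dead (.br 48 (.kem 2 3 29 30549565505536) .dead .dead .dead) .dead .dead) .dead .dead .dead)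 .dead .dead) .dead .dead) .dead .dead .dead) .dead .dead)) .dead)) .dead) .dead .dead)) .dead)) .dead .dead .dead) .dead .dead) .dead .dead (.br 29 .dead .dead (.br 30 .dead .dead .dead (.br 31 .dead .dead (.br 32 .dead (.br 33 (.br 34 .dead (.br 35 (.br 36 .dead (.br 37 (.br 38 .dead .dead .dead (.br 39 .dead .dead (.br 40 .dead .dead .dead (.br 41 .dead .dead (.br 42 .dead .dead (.br 43 .dead .dead .dead (.br 44 .dead .dead (.br 45 .dead (.br 46 (.br 47 .dead (.br 48 .dead .dead .dead .dead) .dead .dead) .dead .dead .dead) .dead .dead) .dead)) .dead) .dead)) .dead)) .dead .dead .dead) .dead .dead) (.br 36 (.br 37 .dead (.br 42 .dead .dead (.br 43 .dead .dead .dead (.br 44 .dead .dead (.br 48 (.br 41 .dead .dead (.kem 0 3 28 268435456) .dead) .dead .dead .dead) .dead)) .dead) .dead .dead) .dead .dead .dead) .dead .dead) .dead .dead) .dead .dead .dead) .dead (.br 33 (.kem 1 2 26 67108864) (.br 34 (.br 35 (.br 36 .dead (.br 37 (.br 38 .dead (.br 42 .dead .dead (.br 43 .dead .dead .dead (.br 44 .dead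 .dead (.br 45 .dead .dead .dead (.kem 0 1 33 496970665820160)) .dead)) .dead) .dead .dead) .dead .dead .dead) .dead .dead) (.br 36 (.br 37 .dead (.br 38 (.br 39 .dead .dead (.br 40 .dead .dead .dead (.br 41 .dead .dead (.kem 0 1 33 25769803776) .dead)) .dead) .dead .dead .dead) .dead .dead) .dead .dead .dead) .dead .dead) .dead .dead .dead) .dead .dead)) .dead)) .dead)) .dead) .dead .dead .dead) .dead .dead) .dead .dead .dead) .dead (.br 23 (.br 24 .dead (.br 25 (.br 26 .dead (.br 28 (.br 34 .dead (.br 29 .dead (.br 30 .dead .dead (.br 31 .dead .dead .dead (.br 32 .dead .dead (.br 33 (.br 35 .dead .dead (.br 41 .dead .dead .dead (.br 40 .dead .dead (.br 42 .dead (.br 48 (.br 47 .dead (.br 46 (.br 36 (.kem 1 3 22 541065216) .dead .dead (.br 43 .dead .dead (.br 44 .dead .dead .dead (.br 45 .dead (.br 38 (.br 37 .dead (.kem 0 3 36 68719476736) .dead .dead) .dead .dead .dead) .dead .dead)) .dead)) .dead .dead .dead) .dead .dead) .dead .dead .dead) .dead .dead) .dead)) (.br 36 (.br 37 .dead (.br 38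 (.br 41 .dead .dead (.br 40 .dead .dead .dead (.br 39 .dead (.br 45 .dead .dead .dead (.br 44 .dead .dead (.br 43 .dead .dead .dead (.br 46 (.br 47 .dead (.br 48 (.br 42 .dead (.kem 2 3 35 3332894621696) (.kem 1 3 22 34900803584) .dead) .dead .dead .dead) .dead .dead) .dead .dead .dead)) .dead)) .dead .dead)) .dead) .dead .dead .dead) .dead .dead) .dead .dead .dead)) .dead .dead .dead) .dead)) (.br 31 .dead .dead (.br 32 .dead .dead .dead (.br 33 (.br 35 .dead .dead (.br 36 (.br 37 .dead (.br 38 (.br 41 .dead .dead .dead (.br 40 .dead .dead (.br 39 .dead (.kem 2 3 30 7516192768) .dead .dead) .dead)) .dead .dead .dead) .dead .dead) .dead .dead .dead) (.br 41 .dead .dead (.br 40 .dead .dead .dead (.br 36 (.br 37 .dead (.br 38 (.br 39 .dead (.kem 2 3 30 7516192768) (.br 42 .dead (.br 48 (.br 47 .dead (.br 46 (.br 43 .dead .dead (.br 44 .dead .dead .dead (.br 45 .dead (.kem 2 3 30 3890166628352) .dead .dead)) (.br 44 .dead .dead (.br 45 .dead (.kem 2 3 30 3890166628352) .dead (.kem 1 2 39 549755813888))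 .dead)) .dead .dead .dead) .dead .dead) .dead .dead .dead) (.br 43 .dead .dead .dead (.br 44 .dead .dead (.br 45 .dead (.br 46 (.br 47 .dead (.br 48 (.kem 1 2 42 4398046511104) .dead .dead .dead) .dead .dead) .dead .dead .dead) .dead (.br 46 (.kem 1 2 39 549755813888) (.kem 0 1 46 492581209243648) .dead .dead)) .dead)) .dead) .dead) .dead .dead .dead) .dead .dead) .dead (.br 42 .dead (.br 43 .dead .dead .dead (.br 44 .dead .dead (.br 48 (.br 47 .dead (.br 46 (.br 37 (.br 38 .dead (.br 39 .dead .dead (.br 45 .dead .dead .dead (.fin [(2,3,141492224),(1,2,161372877514914),(0,3,397109767804245),(2,3,492581209259023),(1,3,33288),(1,3,17731806568578),(0,3,141853116402576),(2,3,71485708370960),(0,2,562949953421311)])) .dead) .dead .dead) (.kem 0 2 36 68719476736) .dead .dead) .dead .dead .dead) .dead .dead) .dead .dead .dead) .dead)) .dead .dead) .dead)) .dead)) .dead (.br 35 .dead .dead (.br 36 (.br 37 .dead (.br 38 (.br 39 .dead (.br 41 .dead .dead .dead (.br 40 (.br 46 .dead .dead .dead .dead) .dead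 .dead .dead)) .dead .dead) .dead .dead .dead) .dead .dead) .dead .dead .dead) (.br 41 .dead .dead (.br 36 (.br 37 .dead (.br 38 (.br 39 .dead (.br 45 .dead .dead .dead (.br 44 .dead .dead (.br 43 .dead .dead .dead (.br 46 (.br 40 .dead .dead .dead (.kem 0 2 33 8589934592)) .dead .dead .dead)) .dead)) .dead .dead) .dead .dead .dead) .dead .dead) .dead (.br 42 .dead (.br 43 .dead .dead .dead (.br 44 .dead .dead (.br 48 (.br 47 .dead (.br 46 (.br 39 .dead (.br 38 (.br 37 .dead (.kem 0 2 36 68719476736) .dead .dead) .dead .dead .dead) .dead .dead) .dead .dead .dead) .dead .dead) .dead .dead .dead) .dead)) .dead .dead) .dead) .dead)) .dead)) .dead)) (.kem 1 3 22 4194304) .dead) .dead .dead) (.br 29 .dead .dead (.br 30 .dead .dead .dead (.br 31 .dead .dead (.br 32 .dead .dead .dead (.br 34 (.br 33 .dead .dead (.br 35 (.br 36 .dead (.br 37 (.br 38 .dead (.br 39 (.br 42 .dead .dead (.br 43 .dead .dead .dead (.br 44 .dead .dead (.br 45 .dead .dead .dead (.kem 0 1 28 496962344321024)) .dead)) .dead) .dead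 .dead .dead) .dead .dead) .dead .dead .dead) .dead .dead) .dead .dead (.br 41 .dead .dead (.br 36 (.br 37 .dead (.br 38 (.br 39 .dead (.br 40 .dead .dead .dead (.kem 0 1 28 17448304640)) .dead .dead) .dead .dead .dead) .dead .dead) (.br 37 (.br 38 .dead (.br 39 (.br 42 .dead .dead (.br 43 .dead .dead .dead (.br 44 .dead .dead (.br 45 .dead .dead .dead (.kem 0 1 28 494728961327104)) .dead)) .dead) .dead .dead .dead) .dead .dead) .dead .dead .dead) .dead .dead) .dead)) .dead) .dead .dead .dead)) .dead)) .dead) .dead .dead) (.br 28 (.br 34 .dead (.br 33 (.br 29 .dead (.br 30 .dead .dead (.br 31 .dead .dead .dead (.br 32 .dead (.br 35 .dead .dead (.br 41 .dead .dead .dead (.br 40 .dead .dead (.br 39 .dead .dead .dead (.br 42 .dead (.br 45 .dead (.br 46 (.br 47 .dead (.br 48 (.br 36 (.kem 1 3 22 541065216) .dead .dead (.br 43 .dead .dead (.br 44 .dead .dead .dead (.br 37 (.br 38 .dead .dead (.fin [(1,3,196286599023378),(0,1,359000085509137),(1,3,545357768974147),(1,2,8830723309698),(0,2,62),(2,3,71485708370960),(2,3,17871427092740),(0,3,562949953421311),(1,3,562949953421311),(2,3,562949953421311)])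 .dead) (.kem 0 3 36 68719476736) .dead .dead)) .dead)) .dead .dead .dead) .dead .dead) .dead .dead .dead) .dead .dead) .dead .dead)) .dead)) (.br 36 (.br 37 .dead (.br 41 .dead .dead (.br 40 .dead .dead .dead (.br 39 .dead .dead (.br 38 (.br 42 .dead (.br 48 (.br 47 .dead (.br 46 (.br 43 .dead .dead (.br 44 .dead .dead .dead (.br 45 .dead (.kem 2 3 35 3882650435584) .dead .dead)) (.br 44 .dead .dead (.br 45 .dead (.kem 2 3 35 3882650435584) .dead (.kem 1 2 26 554117890048)) .dead)) .dead .dead .dead) .dead .dead) .dead .dead .dead) (.br 43 .dead .dead .dead (.br 44 .dead .dead (.br 45 .dead (.br 46 (.br 47 .dead (.br 48 (.kem 1 3 22 34900803584) .dead .dead .dead) .dead .dead) .dead .dead .dead) .dead (.br 46 (.kem 1 2 26 554117890048) (.kem 0 1 46 492581209243648) .dead .dead)) .dead)) .dead) .dead .dead .dead) .dead)) .dead) .dead .dead) .dead .dead .dead)) .dead .dead)) (.br 31 .dead .dead (.br 32 .dead (.br 35 .dead .dead (.br 36 (.br 37 .dead (.br 41 .dead .dead .dead (.br 40 .dead .dead (.br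 39 .dead .dead .dead (.br 38 (.kem 2 3 30 3221225472) .dead .dead .dead)) .dead)) .dead .dead) .dead .dead .dead) (.br 41 .dead .dead (.br 40 .dead .dead .dead (.br 39 .dead .dead (.br 36 (.br 37 .dead (.br 38 (.kem 2 3 30 3221225472) .dead .dead (.br 44 .dead .dead (.br 43 .dead .dead .dead (.br 45 .dead (.kem 0 3 38 274877906944) .dead .dead)) .dead)) .dead .dead) .dead (.br 42 .dead (.br 43 .dead .dead .dead (.br 44 .dead .dead (.br 48 (.br 47 .dead (.br 46 (.br 37 (.br 38 .dead .dead .dead (.br 45 .dead (.kem 2 3 30 30617748111360) .dead .dead)) (.kem 0 2 36 68719476736) .dead .dead) .dead .dead .dead) .dead .dead) .dead .dead .dead) .dead)) .dead .dead) .dead) .dead)) .dead)) .dead (.kem 1 2 26 67108864)) .dead)) (.kem 1 3 22 4194304) .dead) .dead .dead .dead) .dead .dead) (.br 29 .dead .dead (.br 30 .dead .dead .dead (.br 31 .dead .dead (.br 34 (.br 33 .dead (.br 32 .dead .dead .dead (.br 35 (.br 36 .dead (.br 37 (.br 38 .dead (.br 42 .dead .dead (.br 43 .dead .dead .dead (.br 44 .dead .dead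 (.br 45 .dead .dead .dead (.kem 0 1 28 496970934255616)) .dead)) .dead) .dead .dead) .dead .dead .dead) .dead .dead) .dead .dead (.br 41 .dead .dead (.br 40 .dead .dead .dead (.br 36 (.br 37 .dead (.br 38 (.br 39 .dead .dead (.kem 0 1 28 26038239232) .dead) .dead .dead .dead) .dead .dead) (.br 37 (.br 38 .dead (.br 42 .dead .dead (.br 43 .dead .dead .dead (.br 44 .dead .dead (.br 45 .dead .dead .dead (.kem 0 1 28 493638039633920)) .dead)) .dead) .dead .dead) .dead .dead .dead) .dead .dead)) .dead))) .dead .dead) .dead .dead .dead) .dead)) .dead) .dead .dead) .dead) .dead .dead .dead) .dead .dead) (.br 24 (.br 25 .dead (.br 26 .dead .dead (.br 28 (.br 29 .dead .dead (.br 30 .dead .dead .dead (.br 31 .dead .dead (.br 34 .dead (.br 33 (.br 32 .dead .dead .dead (.kem 0 1 23 58720256)) .dead .dead .dead) .dead .dead) .dead)) .dead) (.br 34 (.br 33 .dead (.br 29 (.br 30 .dead .dead (.br 31 .dead .dead .dead (.br 32 (.br 35 .dead .dead (.br 41 .dead .dead .dead (.br 40 .dead .dead (.br 39 .dead .dead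 .dead (.br 42 .dead (.br 36 .dead .dead .dead (.br 43 .dead .dead (.br 44 .dead .dead .dead (.br 45 .dead (.br 38 .dead .dead (.kem 0 1 23 30928797696) .dead) .dead .dead)) .dead)) .dead .dead)) .dead)) (.br 36 .dead (.br 37 (.br 41 .dead .dead (.br 40 .dead .dead .dead (.br 39 .dead .dead (.br 38 .dead (.br 42 .dead .dead (.br 43 .dead .dead .dead (.br 44 .dead .dead (.br 45 .dead .dead .dead (.kem 0 1 23 511965134848)) .dead)) .dead) .dead .dead) .dead)) .dead) .dead .dead .dead) .dead .dead)) .dead .dead .dead)) (.br 31 .dead .dead (.br 32 (.br 35 .dead .dead (.br 36 .dead (.br 42 .dead .dead .dead .dead) .dead .dead) (.br 41 .dead .dead (.br 40 .dead .dead .dead (.br 39 .dead .dead (.br 36 .dead (.br 37 (.br 42 .dead .dead (.br 43 .dead .dead .dead (.br 44 .dead .dead (.br 38 .dead (.kem 2 3 30 3221225472) .dead (.kem 0 1 23 237087227904)) .dead)) .dead) .dead .dead .dead) (.br 42 .dead (.br 43 .dead .dead .dead (.br 44 .dead .dead (.br 48 (.br 47 .dead (.br 46 (.br 37 (.kem 1 2 36 4466765987840)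 (.br 38 .dead .dead .dead (.kem 0 1 23 30928797696)) .dead .dead) .dead .dead .dead) .dead .dead) .dead .dead .dead) .dead)) .dead .dead) .dead) .dead)) .dead)) .dead .dead (.br 35 .dead .dead (.br 36 .dead (.br 42 .dead .dead .dead .dead) .dead .dead) (.br 41 .dead .dead (.br 40 .dead .dead .dead (.br 36 .dead (.br 37 (.br 38 .dead (.br 42 .dead .dead (.br 43 .dead .dead .dead (.br 44 .dead .dead (.br 45 .dead .dead .dead (.kem 0 1 23 493638635225088)) .dead)) .dead) .dead .dead) .dead .dead .dead) (.br 42 .dead (.br 43 .dead .dead .dead (.br 44 .dead .dead (.br 48 (.br 47 .dead (.br 46 (.br 39 .dead .dead (.kem 0 1 23 26633830400) .dead) .dead .dead .dead) .dead .dead) .dead .dead .dead) .dead)) .dead .dead) .dead)) .dead))) .dead)) .dead (.br 30 .dead .dead .dead (.br 31 .dead .dead (.br 32 (.br 35 (.br 36 .dead (.br 37 (.br 42 .dead .dead (.br 43 .dead .dead .dead (.br 44 .dead .dead (.br 48 .dead (.br 47 (.br 46 .dead (.br 45 .dead .dead .dead (.kem 0 1 23 496975287943168)) .dead .dead) .dead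 .dead .dead) .dead .dead) .dead)) .dead) .dead .dead .dead) .dead .dead) .dead .dead (.br 41 .dead .dead (.br 40 .dead .dead .dead (.br 39 .dead .dead (.br 36 (.br 37 .dead (.br 38 .dead .dead .dead (.kem 0 1 23 30391926784)) .dead .dead) (.kem 0 2 29 536870912) .dead .dead) .dead)) .dead)) .dead .dead (.kem 0 1 23 58720256)) .dead)) .dead) .dead .dead) .dead .dead .dead) .dead .dead) .dead) .dead .dead) .dead .dead .dead) .dead .dead))

def t7C_2 : Tree :=
  (.br 20 (.br 21 .dead .dead (.br 22 .dead (.br 23 (.br 24 .dead (.br 25 (.br 27 .dead .dead .dead (.br 26 .dead (.kem 2 3 16 983040) .dead .dead)) .dead .dead .dead) .dead .dead) .dead .dead .dead) .dead .dead) (.br 27 .dead .dead (.br 22 .dead (.br 23 (.br 24 .dead (.br 25 (.br 26 .dead (.kem 2 3 16 983040) .dead (.br 28 (.br 34 .dead (.br 33 (.br 29 .dead .dead (.br 30 .dead .dead .dead (.br 31 .dead .dead (.br 32 .dead (.kem 2 3 16 204406784) .dead .dead) .dead)) (.br 30 .dead .dead (.br 31 .dead .dead .dead (.br 32 .dead (.kem 2 3 16 204406784)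 (.kem 1 3 26 67108864) .dead)) .dead)) .dead .dead .dead) .dead .dead) .dead (.br 29 .dead .dead .dead (.br 30 .dead .dead (.br 31 .dead .dead .dead (.br 32 .dead (.br 33 (.br 34 .dead (.br 35 (.br 36 .dead (.br 37 (.br 38 .dead .dead (.br 39 .dead .dead .dead (.br 40 .dead .dead (.br 41 .dead .dead .dead (.br 42 .dead .dead (.br 43 .dead .dead .dead (.br 44 .dead .dead .dead .dead)) .dead)) .dead)) .dead) .dead .dead .dead) .dead .dead) (.br 36 (.br 37 .dead (.br 42 .dead .dead (.br 43 .dead .dead .dead (.br 44 .dead .dead (.br 38 (.br 48 (.br 41 .dead .dead .dead (.kem 0 2 28 268435456)) .dead .dead .dead) .dead .dead .dead) .dead)) .dead) .dead .dead) .dead .dead .dead) .dead .dead) .dead .dead) .dead .dead .dead) (.br 33 (.kem 1 3 26 67108864) (.br 34 (.br 35 (.br 36 .dead (.br 37 (.br 38 .dead (.br 42 .dead .dead (.br 43 .dead .dead .dead (.br 44 .dead .dead (.br 45 .dead .dead .dead (.kem 0 1 33 496970665820160)) .dead)) .dead) .dead .dead) .dead .dead .dead) .dead .dead) (.br 36 (.br 37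 .dead (.br 38 (.br 39 .dead .dead .dead (.br 40 .dead .dead (.br 41 .dead .dead .dead (.kem 0 1 33 25769803776)) .dead)) .dead .dead .dead) .dead .dead) .dead .dead .dead) .dead .dead) .dead .dead .dead) .dead .dead) .dead)) .dead)) .dead)) .dead .dead .dead) .dead .dead) .dead .dead .dead) (.br 23 (.br 24 .dead (.br 25 (.br 26 .dead (.br 28 (.br 34 .dead (.br 29 .dead (.br 30 .dead .dead (.br 31 .dead .dead .dead (.br 32 .dead .dead (.br 33 (.kem 2 3 16 141492224) .dead .dead (.br 35 .dead .dead (.br 41 .dead .dead .dead (.br 42 .dead (.br 48 (.br 47 .dead (.br 46 (.br 39 .dead (.br 38 (.br 37 .dead (.br 40 .dead .dead (.kem 0 3 33 8589934592) .dead) .dead .dead) .dead .dead .dead) .dead .dead) .dead .dead .dead) .dead .dead) .dead .dead .dead) .dead .dead)) (.br 36 (.br 37 .dead (.br 38 (.br 39 .dead (.br 41 .dead .dead (.br 40 (.kem 2 3 16 16247619584) .dead .dead .dead) .dead) .dead .dead) .dead .dead .dead) .dead .dead) .dead .dead .dead))) .dead)) (.br 31 .dead .dead (.br 32 .dead .dead .dead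 (.br 33 (.kem 2 3 16 141492224) .dead .dead .dead)) .dead)) .dead (.kem 1 2 22 4194304)) .dead .dead) (.br 29 .dead .dead .dead (.br 30 .dead .dead (.br 31 .dead .dead .dead (.br 32 .dead .dead (.br 34 (.br 33 .dead .dead .dead (.br 35 (.br 36 .dead (.br 37 (.br 38 .dead (.br 39 (.br 42 .dead .dead (.br 43 .dead .dead .dead (.br 44 .dead .dead (.br 45 .dead .dead .dead (.kem 0 1 28 496962344321024)) .dead)) .dead) .dead .dead .dead) .dead .dead) .dead .dead .dead) .dead .dead) .dead (.br 41 .dead .dead .dead (.br 42 .dead (.br 36 (.br 37 .dead (.br 38 (.br 39 .dead (.br 40 .dead .dead (.kem 0 1 28 17448304640) .dead) .dead .dead) .dead .dead .dead) .dead .dead) .dead .dead .dead) .dead .dead)) .dead)) .dead .dead .dead) .dead)) .dead)) .dead .dead) .dead (.br 28 (.br 34 .dead (.br 33 (.br 29 .dead (.br 30 .dead .dead (.br 31 .dead .dead .dead (.br 32 .dead (.kem 2 3 16 208601088) (.kem 1 3 26 67108864) .dead)) (.br 31 .dead .dead (.br 32 .dead (.kem 2 3 16 208601088) .dead .dead) .dead)) .dead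 (.kem 1 2 22 4194304)) .dead .dead .dead) .dead .dead) (.br 29 .dead .dead .dead (.br 30 .dead .dead (.br 31 .dead .dead .dead (.br 34 (.br 33 .dead (.br 32 .dead .dead (.br 35 (.br 36 .dead (.br 37 (.br 38 .dead (.br 42 .dead .dead (.br 43 .dead .dead .dead (.br 44 .dead .dead (.br 45 .dead .dead .dead (.kem 0 1 28 496970934255616)) .dead)) .dead) .dead .dead) .dead .dead .dead) .dead .dead) .dead (.br 41 .dead .dead .dead (.br 40 .dead .dead (.br 42 .dead (.br 36 (.br 37 .dead (.br 38 (.br 39 .dead .dead .dead (.kem 0 1 28 26038239232)) .dead .dead .dead) .dead .dead) .dead .dead .dead) .dead .dead) .dead)) .dead) .dead) .dead .dead) .dead .dead .dead)) .dead)) .dead .dead)) .dead .dead .dead) .dead .dead) (.br 24 (.br 25 .dead (.br 26 .dead .dead .dead (.br 28 (.br 29 .dead .dead .dead (.br 30 .dead .dead (.br 31 .dead .dead .dead (.br 34 .dead (.br 33 (.br 32 .dead .dead (.kem 0 1 23 58720256) .dead) .dead .dead .dead) .dead .dead)) .dead)) (.br 34 (.br 33 .dead (.br 29 (.br 30 .dead .dead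 (.br 31 .dead .dead .dead (.br 32 (.kem 2 3 16 208601088) .dead (.br 35 .dead .dead (.br 41 .dead .dead .dead (.br 40 .dead .dead (.br 42 .dead (.br 36 .dead .dead .dead (.br 43 .dead .dead (.br 44 .dead .dead .dead (.br 45 .dead (.br 38 (.br 37 .dead (.br 39 .dead .dead .dead (.kem 0 1 23 26633830400)) .dead .dead) .dead .dead .dead) .dead .dead)) .dead)) .dead .dead) .dead)) (.br 36 .dead (.br 37 (.br 38 .dead (.br 41 .dead .dead (.br 40 .dead .dead .dead (.br 39 (.kem 2 3 16 7724793856) .dead .dead .dead)) .dead) .dead .dead) .dead .dead .dead) .dead .dead)) .dead)) (.br 31 .dead .dead (.br 32 (.kem 2 3 16 208601088) .dead .dead .dead) .dead)) .dead .dead (.br 30 .dead .dead (.br 31 .dead .dead .dead (.br 32 (.br 35 (.br 36 .dead (.br 37 (.br 42 .dead .dead (.br 43 .dead .dead .dead (.br 44 .dead .dead (.br 38 .dead (.kem 2 3 16 3966697472) .dead .dead) .dead)) .dead) .dead .dead .dead) .dead .dead) .dead (.br 41 .dead .dead .dead (.br 40 .dead .dead (.br 39 .dead .dead .dead (.br 42 .dead (.br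 36 (.br 37 .dead (.br 38 .dead .dead (.kem 0 1 23 30391926784) .dead) .dead .dead) .dead .dead .dead) .dead .dead)) .dead)) .dead) .dead (.kem 0 1 23 58720256) .dead)) .dead)) .dead .dead) .dead .dead .dead) .dead .dead)) .dead .dead) .dead .dead .dead) .dead .dead) .dead) .dead)) .dead .dead (.br 21 .dead .dead (.br 22 .dead (.br 23 (.br 24 .dead (.br 25 (.br 26 .dead (.br 27 (.br 28 (.br 29 .dead .dead (.br 30 .dead .dead .dead (.br 31 .dead .dead (.br 32 .dead .dead .dead (.br 33 .dead .dead (.br 34 .dead (.kem 0 3 20 135266304) .dead (.br 35 .dead (.br 36 (.br 37 .dead (.br 38 (.br 39 .dead (.br 40 (.br 46 .dead .dead .dead .dead) .dead .dead .dead) .dead .dead) .dead .dead .dead) .dead .dead) .dead .dead .dead) .dead (.br 36 (.br 37 .dead (.br 38 (.br 39 .dead (.br 40 (.br 46 .dead .dead .dead .dead) .dead .dead .dead) .dead .dead) .dead .dead .dead) .dead .dead) (.br 37 (.br 38 .dead (.br 39 (.br 40 .dead (.br 46 .dead .dead .dead .dead) .dead .dead) .dead .dead .dead) .dead .dead) .dead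 .dead .dead) .dead .dead))) .dead)) .dead)) (.br 30 .dead .dead (.br 31 .dead .dead .dead (.br 32 .dead .dead (.br 33 .dead .dead .dead (.br 34 .dead (.br 35 .dead (.br 36 (.br 37 .dead (.br 38 (.br 39 .dead (.br 42 .dead .dead (.br 43 .dead .dead .dead (.br 44 .dead .dead (.br 45 .dead .dead .dead (.br 46 (.br 40 .dead .dead (.kem 0 3 20 8725200896) .dead) .dead .dead .dead)) .dead)) .dead) .dead .dead) .dead .dead .dead) .dead .dead) .dead .dead .dead) (.br 41 .dead .dead .dead (.br 42 .dead (.br 36 (.br 37 .dead (.br 38 (.br 39 .dead (.br 45 .dead .dead .dead (.br 44 .dead .dead (.br 43 .dead .dead .dead (.br 46 (.br 40 .dead .dead (.kem 0 3 20 8725200896) .dead) .dead .dead .dead)) .dead)) .dead .dead) .dead .dead .dead) .dead .dead) .dead .dead .dead) .dead .dead)) .dead) .dead .dead)) .dead)) .dead)) .dead .dead (.br 29 .dead .dead (.br 30 .dead .dead .dead (.br 31 .dead .dead (.br 32 .dead .dead .dead (.br 33 .dead .dead (.br 34 .dead (.kem 0 3 20 135266304) .dead .dead) .dead)) .dead))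 .dead)) .dead .dead .dead) .dead .dead) .dead .dead .dead) .dead .dead) .dead .dead .dead) .dead .dead) (.br 22 .dead (.br 23 (.br 24 .dead (.br 25 (.br 26 .dead (.br 27 (.br 28 (.br 29 .dead .dead (.br 30 .dead .dead .dead (.br 31 .dead .dead (.br 32 .dead .dead .dead (.br 33 .dead .dead (.br 34 .dead (.kem 2 3 21 2097152) .dead .dead) .dead)) .dead)) (.br 30 .dead .dead (.br 31 .dead .dead .dead (.br 32 .dead .dead (.br 33 .dead .dead .dead (.br 34 .dead (.kem 2 3 21 2097152) (.br 35 .dead (.br 36 (.br 37 .dead (.br 38 (.br 39 .dead (.br 40 (.br 46 .dead .dead .dead .dead) .dead .dead .dead) .dead .dead) .dead .dead .dead) .dead .dead) .dead .dead .dead) (.br 42 .dead (.br 36 (.br 37 .dead (.br 38 (.br 39 .dead (.br 40 (.br 46 .dead .dead .dead .dead) .dead .dead .dead) .dead .dead) .dead .dead .dead) .dead .dead) .dead .dead .dead) .dead .dead) .dead) .dead)) .dead)) .dead)) .dead (.br 29 .dead .dead .dead (.br 30 .dead .dead (.br 31 .dead .dead .dead (.br 32 .dead .dead (.br 33 .dead .dead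 .dead (.br 34 .dead (.br 35 (.br 36 .dead (.br 37 (.br 38 .dead (.br 39 (.br 40 .dead .dead (.br 41 .dead .dead .dead (.br 42 .dead .dead (.br 43 .dead .dead .dead (.br 44 .dead .dead (.br 45 .dead .dead .dead (.br 46 .dead (.br 47 (.br 48 .dead (.kem 2 3 21 3315448414208) .dead .dead) .dead .dead .dead) .dead .dead)) .dead)) .dead)) .dead) .dead .dead .dead) .dead .dead) .dead .dead .dead) .dead .dead) (.br 36 (.br 37 .dead (.br 38 (.br 39 .dead (.br 42 .dead .dead (.br 43 .dead .dead .dead (.br 44 .dead .dead (.br 45 .dead .dead .dead (.br 46 (.br 40 .dead .dead (.br 47 .dead (.br 48 (.kem 2 3 21 3315448414208) .dead .dead .dead) .dead .dead) .dead) .dead .dead .dead)) .dead)) .dead) .dead .dead) .dead .dead .dead) .dead .dead) .dead .dead .dead) .dead .dead) .dead .dead)) .dead)) .dead)) .dead) .dead (.kem 0 3 20 1048576) .dead) .dead .dead) .dead .dead .dead) .dead .dead) .dead .dead .dead) (.br 23 (.br 24 .dead (.br 25 (.br 26 .dead (.br 27 (.br 28 (.br 29 .dead (.br 30 .dead .dead (.br 31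 .dead .dead .dead (.br 32 .dead .dead (.br 33 .dead .dead .dead (.br 34 .dead (.br 35 .dead .dead (.br 41 .dead .dead .dead (.br 42 .dead (.br 48 (.br 47 .dead (.br 46 (.br 39 .dead (.br 38 (.br 37 .dead (.br 40 .dead .dead (.br 45 .dead .dead .dead (.br 44 .dead .dead (.br 43 .dead .dead .dead (.br 36 (.fin [(2,3,8323456),(1,3,192030219856082),(0,3,498010047921159),(0,1,142937325438992),(1,2,203425767558120),(0,1,56),(1,3,71485708370960),(0,3,562949953421311),(1,3,562949953421311)]) .dead .dead .dead)) .dead)) .dead) .dead .dead) .dead .dead .dead) .dead .dead) .dead .dead .dead) .dead .dead) .dead .dead .dead) .dead .dead)) (.br 36 (.br 37 .dead (.br 38 (.br 39 .dead (.br 41 .dead .dead (.br 40 (.br 46 .dead .dead .dead .dead) .dead .dead .dead) .dead) .dead .dead) .dead .dead .dead) .dead .dead) .dead .dead .dead)) (.br 35 .dead .dead (.br 42 .dead (.br 48 (.br 47 .dead (.br 40 (.br 46 .dead .dead .dead .dead) .dead .dead .dead) .dead .dead) .dead .dead .dead) .dead .dead) (.br 36 (.br 37 .dead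 (.br 38 (.br 39 .dead (.br 40 (.br 46 .dead .dead .dead .dead) .dead .dead .dead) .dead .dead) .dead .dead .dead) .dead .dead) .dead .dead .dead)) .dead)) .dead)) (.br 31 .dead .dead (.br 32 .dead .dead .dead (.br 33 .dead .dead (.br 34 .dead (.br 35 .dead .dead (.br 36 (.br 37 .dead (.br 38 (.br 39 .dead (.br 41 .dead .dead .dead (.br 40 (.kem 2 3 30 16106127360) .dead .dead .dead)) .dead .dead) .dead .dead .dead) .dead .dead) .dead .dead .dead) (.br 41 .dead .dead (.br 36 (.kem 1 2 22 541065216) .dead (.br 42 .dead (.br 43 .dead .dead .dead (.br 44 .dead .dead (.br 48 (.br 47 .dead (.br 46 (.br 39 .dead (.br 38 (.br 37 .dead (.kem 0 2 36 68719476736) .dead .dead) .dead .dead .dead) .dead .dead) .dead .dead .dead) .dead .dead) .dead .dead .dead) .dead)) .dead .dead) .dead) .dead)) .dead .dead) .dead)) .dead)) .dead (.kem 1 2 22 4194304)) (.br 29 .dead .dead .dead (.br 30 .dead .dead (.br 31 .dead .dead .dead (.br 32 .dead .dead (.br 33 .dead .dead .dead (.br 34 .dead .dead (.br 35 (.br 36 .dead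 (.br 37 (.br 38 .dead (.br 39 (.br 40 .dead (.br 46 .dead .dead .dead .dead) .dead .dead) .dead .dead .dead) .dead .dead) .dead .dead .dead) .dead .dead) .dead (.br 42 .dead (.br 36 (.br 37 .dead (.br 38 (.br 39 .dead (.br 40 (.br 46 .dead .dead .dead .dead) .dead .dead .dead) .dead .dead) .dead .dead .dead) .dead .dead) .dead .dead .dead) .dead .dead) .dead) .dead)) .dead)) .dead)) .dead .dead) .dead (.kem 0 3 20 1048576) .dead) .dead .dead) .dead .dead .dead) .dead .dead) (.br 24 (.br 25 .dead (.br 26 (.br 27 .dead .dead (.br 28 (.br 29 .dead .dead .dead (.br 30 .dead .dead (.br 31 .dead .dead .dead (.br 32 .dead .dead (.br 34 .dead (.br 33 .dead .dead .dead (.kem 0 1 23 125829120)) .dead .dead) .dead)) .dead)) (.br 34 (.br 29 (.br 30 .dead .dead (.br 31 .dead .dead .dead (.br 32 .dead .dead (.br 33 .dead (.kem 0 3 20 68157440) .dead (.br 35 .dead .dead (.br 41 .dead .dead .dead (.br 42 .dead (.br 36 .dead .dead .dead (.br 43 .dead .dead (.br 44 .dead .dead .dead (.br 45 .dead (.br 38 (.br 39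 .dead .dead .dead .dead) .dead .dead .dead) .dead .dead)) .dead)) .dead .dead)) (.br 36 .dead (.br 37 (.br 38 .dead (.br 39 (.br 41 .dead .dead (.br 40 .dead (.br 46 .dead .dead .dead .dead) .dead .dead) .dead) .dead .dead .dead) .dead .dead) .dead .dead .dead) .dead .dead))) .dead)) (.br 31 .dead .dead (.br 32 .dead .dead .dead (.br 33 .dead (.br 35 .dead .dead (.br 36 .dead (.br 42 .dead .dead .dead .dead) .dead .dead) (.br 41 .dead .dead (.br 40 .dead .dead .dead (.br 36 .dead (.br 37 (.br 38 .dead (.br 42 .dead .dead (.br 43 .dead .dead .dead (.br 44 .dead .dead (.br 45 .dead .dead .dead (.kem 0 1 23 493638702333952)) .dead)) .dead) .dead .dead) .dead .dead .dead) (.br 42 .dead (.br 43 .dead .dead .dead (.br 44 .dead .dead (.br 48 (.br 47 .dead (.br 46 (.br 39 .dead .dead (.kem 0 1 23 26700939264) .dead) .dead .dead .dead) .dead .dead) .dead .dead .dead) .dead)) .dead .dead) .dead)) .dead)) .dead .dead)) .dead)) .dead .dead (.br 30 .dead .dead (.br 31 .dead .dead .dead (.br 32 .dead .dead (.br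 33 .dead (.kem 0 3 20 68157440) .dead (.kem 0 1 23 125829120)) .dead)) .dead)) .dead .dead .dead) .dead .dead) .dead) .dead .dead .dead) .dead .dead) .dead .dead .dead) .dead .dead) .dead)))

def t7C_3 : Tree :=
  (.br 15 (.br 16 .dead .dead (.br 17 .dead .dead .dead (.br 18 .dead .dead (.br 19 .dead .dead .dead (.br 20 (.br 21 .dead .dead (.br 27 .dead .dead .dead t7C_1) (.br 22 .dead (.br 23 (.br 24 .dead (.br 25 (.br 27 .dead .dead (.br 26 .dead (.br 28 (.br 34 .dead (.br 29 .dead .dead (.br 30 .dead .dead .dead (.br 31 .dead .dead (.br 32 .dead .dead .dead (.br 33 (.kem 2 3 21 136314880) .dead .dead .dead)) .dead)) (.br 30 .dead .dead (.br 31 .dead .dead .dead (.br 32 .dead .dead (.br 33 (.kem 2 3 21 136314880) .dead .dead (.br 35 .dead (.br 36 (.br 37 .dead (.br 38 (.br 39 .dead (.br 42 .dead .dead (.br 43 .dead .dead .dead (.br 44 .dead .dead (.br 45 .dead .dead .dead (.br 46 (.br 40 .dead .dead (.kem 0 3 33 8589934592) .dead) .dead .dead .dead)) .dead)) .dead) .dead .dead) .dead .dead .dead)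 .dead .dead) .dead .dead .dead) (.br 41 .dead .dead .dead (.br 42 .dead (.br 36 (.br 37 .dead (.br 38 (.br 39 .dead (.br 45 .dead .dead .dead (.br 44 .dead .dead (.br 43 .dead .dead .dead (.br 46 (.br 40 .dead .dead (.kem 0 3 33 8589934592) .dead) .dead .dead .dead)) .dead)) .dead .dead) .dead .dead .dead) .dead .dead) .dead .dead .dead) .dead .dead)) .dead)) .dead)) .dead)) .dead .dead) .dead (.br 29 .dead .dead .dead (.br 30 .dead .dead (.br 31 .dead .dead .dead (.br 32 .dead .dead (.br 33 (.br 34 .dead (.br 35 (.br 36 .dead (.br 37 (.br 38 .dead (.br 39 .dead .dead .dead (.br 45 .dead .dead .dead .dead)) .dead .dead) .dead .dead .dead) .dead .dead) (.br 36 (.br 37 .dead (.br 38 (.br 42 .dead .dead (.br 43 .dead .dead .dead (.br 44 .dead .dead (.br 48 (.br 41 .dead .dead .dead (.kem 0 2 28 268435456)) .dead .dead .dead) .dead)) .dead) .dead .dead .dead) .dead .dead) .dead .dead .dead) .dead .dead) .dead .dead) .dead .dead (.br 34 (.br 35 (.br 36 .dead (.br 37 (.br 38 .dead (.br 39 (.br 42 .dead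 .dead (.br 43 .dead .dead .dead (.br 44 .dead .dead (.br 45 .dead .dead .dead (.br 46 .dead (.br 40 .dead .dead (.br 47 (.br 48 .dead (.kem 2 3 21 3315582631936) .dead .dead) .dead .dead .dead) .dead) .dead .dead)) .dead)) .dead) .dead .dead .dead) .dead .dead) .dead .dead .dead) .dead .dead) (.br 36 (.br 37 .dead (.br 38 (.br 39 .dead (.br 40 .dead .dead (.br 41 .dead .dead .dead (.br 42 .dead .dead (.br 43 .dead .dead .dead (.br 44 .dead .dead (.br 45 .dead .dead .dead (.kem 0 1 35 493646361133056)) .dead)) .dead)) .dead) .dead .dead) .dead .dead .dead) .dead .dead) .dead .dead .dead) .dead .dead) (.br 35 (.br 36 .dead (.br 37 (.br 38 .dead (.br 39 (.br 40 .dead .dead (.br 41 .dead .dead .dead (.kem 0 1 34 17179869184)) .dead) .dead .dead .dead) .dead .dead) .dead .dead .dead) .dead .dead) (.br 36 (.br 37 .dead (.br 38 (.br 39 .dead (.br 42 .dead .dead (.br 43 .dead .dead .dead (.br 44 .dead .dead (.br 45 .dead .dead .dead (.kem 0 1 34 496962075885568)) .dead)) .dead) .dead .dead) .dead .dead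 .dead) .dead .dead) .dead .dead .dead) .dead .dead) .dead .dead)) .dead)) .dead)) .dead) .dead .dead) .dead) .dead .dead .dead) .dead .dead) .dead .dead .dead) .dead .dead)) .dead .dead .dead)) .dead)) (.br 17 .dead .dead (.br 18 .dead .dead .dead (.br 19 .dead .dead t7C_2 .dead)) .dead)) .dead (.br 16 .dead .dead .dead (.br 17 .dead .dead (.br 18 .dead .dead .dead (.br 19 .dead .dead (.br 20 (.br 21 (.br 22 .dead (.br 23 (.br 24 .dead (.br 25 (.br 26 .dead (.br 27 .dead .dead (.br 28 .dead .dead (.br 29 .dead .dead .dead (.br 30 .dead .dead (.br 31 .dead .dead .dead (.br 32 .dead .dead (.br 33 (.br 34 .dead (.br 35 (.br 36 .dead (.br 37 (.br 38 .dead (.br 39 .dead .dead .dead (.br 45 .dead .dead .dead .dead)) .dead .dead) .dead .dead .dead) .dead .dead) (.br 36 (.br 37 .dead (.br 38 (.br 42 .dead .dead (.br 43 .dead .dead .dead (.br 44 .dead .dead (.br 48 (.br 41 .dead .dead .dead (.br 40 .dead .dead (.br 47 .dead (.br 46 (.br 39 .dead (.br 45 .dead .dead .dead (.fin [(1,3,8256),(2,3,1024384),(1,3,35734127902720),(0,1,528280977415751),(0,3,8935714586754),(2,3,21584123756802),(1,3,71485708370960),(0,1,562949953421311),(1,2,562949953421311)]))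 .dead (.kem 1 3 39 35734127902720)) .dead .dead .dead) .dead .dead) .dead)) .dead .dead .dead) .dead)) .dead) .dead .dead .dead) .dead .dead) .dead .dead .dead) .dead .dead) .dead (.br 35 (.br 36 .dead (.br 37 (.br 38 .dead (.br 39 .dead .dead .dead (.br 45 .dead .dead .dead .dead)) .dead .dead) .dead .dead .dead) .dead .dead) (.br 36 (.br 37 .dead (.br 38 (.br 41 (.br 48 .dead .dead .dead .dead) .dead .dead .dead) .dead .dead .dead) .dead .dead) .dead .dead .dead) .dead .dead)) .dead .dead (.br 34 .dead (.br 35 (.br 36 .dead (.br 37 (.br 38 .dead (.br 39 (.br 40 .dead .dead (.br 41 .dead .dead .dead (.br 42 .dead .dead (.br 43 .dead .dead .dead (.br 44 .dead .dead (.br 45 .dead .dead .dead (.br 46 .dead (.br 47 (.br 48 .dead (.fin [(2,3,1016192),(1,2,8192),(0,1,7687),(0,3,2130432),(0,3,142971416741904),(0,2,21584123756802),(0,1,71485708370960),(0,1,562949953421311),(1,2,562949953421311),(2,3,562949953421311)]) .dead .dead) .dead .dead .dead) .dead .dead)) .dead)) .dead)) .dead) .dead .dead .dead)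 .dead .dead) .dead .dead .dead) .dead .dead) (.br 36 (.br 37 .dead (.br 38 (.br 39 .dead (.br 42 .dead .dead (.br 43 .dead .dead .dead (.br 44 .dead .dead (.br 45 .dead .dead .dead (.br 46 (.br 40 .dead .dead (.kem 0 3 33 8589934592) .dead) .dead .dead .dead)) .dead)) .dead) .dead .dead) .dead .dead .dead) .dead .dead) .dead .dead .dead) .dead .dead) .dead .dead)) .dead)) .dead)) (.br 29 .dead .dead (.br 30 .dead .dead .dead (.br 31 .dead .dead (.br 32 .dead .dead .dead (.br 33 (.br 34 .dead (.br 35 (.br 36 .dead (.br 37 (.br 38 .dead (.br 39 .dead .dead (.br 40 .dead .dead .dead (.br 41 .dead .dead (.br 42 .dead .dead (.br 43 .dead .dead .dead (.br 44 .dead .dead (.br 45 .dead .dead .dead (.br 48 .dead (.br 47 (.br 46 .dead (.fin [(0,3,35184372089092),(0,3,150784532878417),(1,3,15879),(2,3,17731806568578),(0,3,141853116402576),(1,3,71485708370960),(0,1,562949953421311),(1,2,562949953421311)]) .dead .dead) .dead .dead .dead) .dead .dead)) .dead)) .dead) .dead)) .dead) .dead .dead) .dead .dead .dead)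 .dead .dead) (.br 36 (.br 37 .dead (.br 38 (.br 42 .dead .dead (.br 43 .dead .dead .dead (.br 44 .dead .dead (.br 48 (.br 41 .dead .dead (.br 40 .dead .dead .dead (.br 47 .dead (.br 46 (.br 39 .dead (.kem 2 3 28 3306856382464) (.br 45 .dead (.kem 2 3 28 3856612196352) .dead (.kem 0 1 35 493096605319168)) .dead) .dead .dead .dead) .dead .dead)) .dead) .dead .dead .dead) .dead)) .dead) .dead .dead .dead) .dead .dead) .dead .dead .dead) .dead .dead) .dead .dead) .dead .dead .dead)) .dead)) .dead)) (.br 28 .dead .dead (.br 29 .dead .dead .dead (.br 30 .dead .dead (.br 31 .dead .dead .dead (.br 32 .dead .dead (.br 33 (.br 34 .dead (.kem 2 3 27 134217728) .dead .dead) .dead .dead .dead) .dead)) .dead)) (.br 29 .dead .dead (.br 30 .dead .dead .dead (.br 31 .dead .dead (.br 32 .dead .dead .dead (.br 33 (.br 34 .dead (.kem 0 2 15 2129920) (.br 35 (.br 36 .dead (.br 37 (.br 38 .dead (.br 39 .dead .dead (.br 41 .dead (.br 48 .dead .dead .dead .dead) .dead .dead) .dead) .dead .dead) .dead .dead .dead) .dead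 .dead) (.br 36 (.br 37 .dead (.br 38 (.br 41 (.br 48 .dead .dead .dead .dead) .dead .dead .dead) .dead .dead .dead) .dead .dead) .dead .dead .dead) .dead .dead) .dead) .dead (.br 34 .dead (.kem 0 2 15 2129920) .dead .dead) .dead)) .dead)) .dead))) .dead (.br 27 .dead .dead (.br 28 .dead .dead (.br 29 .dead .dead .dead (.br 30 .dead .dead (.br 31 .dead .dead .dead (.br 32 .dead (.br 33 (.br 34 .dead (.br 35 (.br 36 .dead (.br 37 (.br 38 .dead .dead (.br 39 .dead .dead .dead (.br 40 .dead .dead (.br 41 .dead .dead .dead (.br 42 .dead .dead (.br 43 .dead .dead .dead (.br 44 .dead .dead .dead .dead)) .dead)) .dead)) .dead) .dead .dead .dead) .dead .dead) (.br 36 (.br 37 .dead (.br 42 .dead .dead (.br 43 .dead .dead .dead (.br 44 .dead .dead (.br 38 (.br 48 (.br 41 .dead .dead .dead (.br 40 .dead .dead (.br 39 .dead .dead .dead (.br 45 .dead (.br 46 (.br 47 .dead (.fin [(2,3,202342784),(1,2,4362076160),(0,2,1048576),(0,1,528280977423879),(0,3,8935713546434),(2,3,135274496),(2,3,21584123756802),(1,3,71485708370960),(0,1,562949953421311),(1,2,562949953421311)])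 .dead .dead) .dead .dead .dead) .dead .dead)) .dead)) .dead .dead .dead) .dead .dead .dead) .dead)) .dead) .dead .dead) .dead .dead .dead) .dead .dead) .dead (.br 35 (.br 36 .dead (.br 37 (.br 38 .dead .dead (.br 39 .dead .dead .dead (.br 41 .dead (.br 48 .dead .dead .dead .dead) .dead .dead)) .dead) .dead .dead .dead) .dead .dead) (.br 36 (.br 37 .dead (.br 41 (.br 48 .dead .dead .dead .dead) .dead .dead .dead) .dead .dead) .dead .dead .dead) .dead .dead)) .dead .dead .dead) (.br 33 (.kem 1 3 26 67108864) (.br 34 .dead .dead .dead (.br 35 (.br 36 .dead (.br 37 (.br 38 .dead (.br 41 .dead (.br 48 .dead .dead .dead .dead) .dead .dead) .dead .dead) .dead .dead .dead) .dead .dead) (.br 36 (.br 37 .dead (.br 38 (.br 39 .dead .dead .dead (.br 41 (.br 48 .dead .dead .dead .dead) .dead .dead .dead)) .dead .dead .dead) .dead .dead) .dead .dead .dead) .dead .dead)) .dead .dead) .dead)) .dead)) (.br 29 .dead .dead (.br 30 .dead .dead .dead (.br 31 .dead .dead (.br 32 .dead (.br 33 (.br 34 .dead (.br 35 (.br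 36 .dead (.br 37 (.br 38 .dead .dead .dead (.br 39 .dead .dead (.br 40 .dead .dead .dead (.br 41 .dead .dead (.br 42 .dead .dead (.br 43 .dead .dead .dead (.br 44 .dead .dead (.br 45 .dead (.br 46 (.kem 1 3 26 35463612071936) .dead .dead .dead) .dead .dead) .dead)) .dead) .dead)) .dead)) .dead .dead .dead) .dead .dead) (.br 36 (.br 37 .dead (.br 42 .dead .dead (.br 43 .dead .dead .dead (.br 44 .dead .dead (.br 48 (.br 41 .dead .dead (.br 40 .dead .dead .dead (.br 39 .dead .dead (.br 47 .dead (.br 46 (.br 38 (.kem 1 3 26 4362076160) .dead .dead (.br 45 .dead (.kem 0 3 38 274877906944) .dead .dead)) .dead .dead .dead) .dead .dead) .dead)) .dead) .dead .dead .dead) .dead)) .dead) .dead .dead) .dead .dead .dead) .dead .dead) .dead .dead) .dead .dead .dead) .dead .dead) .dead)) .dead)) .dead)) .dead .dead .dead) .dead .dead) .dead .dead .dead) .dead .dead) .dead .dead (.br 27 .dead .dead (.br 22 (.br 23 .dead (.br 24 (.br 25 .dead (.br 26 .dead .dead .dead (.br 28 .dead (.br 34 (.br 33 .dead (.br 29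 .dead .dead (.br 30 .dead .dead .dead (.br 31 .dead .dead (.br 32 (.br 35 (.br 36 .dead (.br 37 (.br 42 .dead .dead (.br 43 .dead .dead .dead (.br 44 .dead .dead (.br 48 .dead (.br 47 (.br 46 .dead (.br 45 .dead .dead .dead (.br 38 .dead (.br 39 .dead .dead (.br 40 .dead .dead .dead (.br 41 .dead .dead (.fin [(0,3,4363124736),(0,3,141854186210320),(0,1,71476971649559),(0,2,17731806568578),(0,3,272678883688448),(0,3,64),(0,1,562949953421311),(1,2,562949953421311)]) .dead)) .dead) .dead .dead)) .dead .dead) .dead .dead .dead) .dead .dead) .dead)) .dead) .dead .dead .dead) .dead .dead) .dead .dead (.br 41 .dead .dead (.br 40 .dead .dead .dead (.br 39 .dead .dead (.br 36 (.br 37 .dead (.br 38 .dead .dead .dead (.br 44 .dead .dead (.br 43 .dead .dead .dead (.br 45 .dead (.br 46 (.br 47 .dead (.br 48 (.br 42 .dead (.kem 0 2 15 69260574720) (.kem 1 2 42 4398046511104) .dead) .dead .dead .dead) .dead .dead) .dead .dead .dead) .dead .dead)) .dead)) .dead .dead) (.kem 0 2 15 541097984) .dead .dead) .dead))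 .dead)) .dead .dead .dead) .dead)) (.kem 0 2 15 4227072)) .dead .dead) .dead .dead .dead) (.br 29 .dead .dead .dead (.br 30 .dead .dead (.br 31 .dead .dead .dead (.br 32 (.br 33 .dead (.br 34 (.br 35 (.br 36 .dead (.br 37 (.br 42 .dead .dead (.br 43 .dead .dead .dead (.br 44 .dead .dead (.br 38 .dead (.br 45 .dead .dead .dead (.br 39 .dead .dead (.br 40 .dead .dead .dead (.br 41 .dead (.br 48 .dead .dead .dead .dead) .dead .dead)) .dead)) .dead .dead) .dead)) .dead) .dead .dead .dead) .dead .dead) (.br 36 (.br 37 .dead (.br 38 .dead .dead (.br 39 .dead .dead .dead (.br 40 .dead .dead (.br 41 .dead .dead .dead (.br 42 .dead .dead (.br 43 .dead .dead .dead (.br 44 .dead .dead .dead .dead)) .dead)) .dead)) .dead) .dead .dead) .dead .dead .dead) .dead .dead) .dead .dead .dead) .dead .dead) .dead (.br 33 (.br 34 .dead (.br 35 (.br 36 .dead (.br 37 (.br 38 .dead (.br 39 .dead .dead .dead (.br 45 .dead .dead .dead .dead)) .dead .dead) .dead .dead .dead) .dead .dead) (.br 36 (.br 37 .dead (.br 38 (.br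 42 .dead .dead (.br 43 .dead .dead .dead (.br 44 .dead .dead (.br 48 (.br 41 .dead .dead .dead (.kem 0 2 15 272662528)) .dead .dead .dead) .dead)) .dead) .dead .dead .dead) .dead .dead) .dead .dead .dead) .dead .dead) .dead .dead) (.br 34 (.br 35 (.br 36 .dead (.br 37 (.br 38 .dead (.br 42 .dead .dead (.br 43 .dead .dead .dead (.br 44 .dead .dead (.br 45 .dead .dead .dead (.kem 0 1 33 496970665820160)) .dead)) .dead) .dead .dead) .dead .dead .dead) .dead .dead) (.br 36 (.br 37 .dead (.br 38 (.br 39 .dead .dead .dead (.br 40 .dead .dead (.br 41 .dead .dead .dead (.kem 0 1 33 25769803776)) .dead)) .dead .dead .dead) .dead .dead) .dead .dead .dead) .dead .dead) .dead .dead .dead) .dead .dead) .dead)) .dead)) .dead)) .dead .dead) .dead .dead .dead) .dead .dead) (.kem 0 2 15 32768) .dead .dead) .dead)) .dead .dead (.br 21 (.br 22 .dead (.br 23 (.br 24 .dead (.br 25 (.br 26 .dead (.br 27 .dead .dead (.kem 0 3 20 1048576) .dead) .dead .dead) .dead .dead .dead) .dead .dead) .dead .dead .dead) .dead .dead)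 .dead .dead (.br 22 (.br 23 .dead (.br 24 (.br 25 .dead (.br 26 (.br 27 .dead .dead (.kem 0 1 14 16384) .dead) .dead .dead .dead) .dead .dead) .dead .dead .dead) .dead .dead) (.kem 0 2 15 32768) .dead .dead))) .dead)) .dead)) .dead)

def t7C_4 : Tree :=
  (.br 14 (.br 15 .dead .dead .dead (.br 16 .dead .dead (.br 17 .dead .dead .dead (.br 18 .dead .dead (.br 19 .dead .dead .dead (.br 20 .dead .dead (.br 21 .dead (.br 22 (.br 23 .dead (.br 24 (.br 25 .dead (.br 26 (.br 27 .dead .dead .dead (.br 28 .dead .dead (.br 29 .dead .dead .dead (.br 30 .dead .dead (.br 31 .dead .dead .dead (.br 32 .dead .dead (.br 33 .dead (.br 34 (.kem 2 3 7 136282496) .dead .dead .dead) .dead .dead) .dead)) .dead)) (.br 29 .dead .dead (.br 30 .dead .dead .dead (.br 31 .dead .dead (.br 32 .dead .dead .dead (.br 33 .dead (.br 34 (.kem 2 3 7 136282496) .dead (.br 35 (.br 36 .dead (.br 37 (.br 38 .dead (.br 41 .dead (.br 48 .dead .dead .dead .dead) .dead .dead) .dead .dead) .dead .dead .dead) .dead .dead) (.br 36 (.br 37 .dead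 (.br 38 (.br 39 .dead .dead (.br 41 (.br 48 .dead .dead .dead .dead) .dead .dead .dead) .dead) .dead .dead .dead) .dead .dead) .dead .dead .dead) .dead .dead) .dead) (.br 34 (.br 35 (.br 36 .dead (.br 37 (.br 38 .dead (.br 39 (.br 42 .dead .dead (.br 43 .dead .dead .dead (.br 44 .dead .dead (.br 45 .dead .dead .dead (.br 46 .dead (.br 40 .dead .dead .dead (.kem 1 2 33 8589934592)) .dead .dead)) .dead)) .dead) .dead .dead .dead) .dead .dead) .dead .dead .dead) .dead .dead) (.br 36 (.br 37 .dead (.br 38 (.br 39 .dead (.br 40 .dead .dead .dead (.br 41 .dead .dead (.br 42 .dead .dead (.br 43 .dead .dead .dead (.br 44 .dead .dead (.br 45 .dead .dead .dead (.kem 0 1 35 493646361133056)) .dead)) .dead) .dead)) .dead .dead) .dead .dead .dead) .dead .dead) .dead .dead .dead) .dead .dead) .dead .dead .dead) .dead)) .dead)) .dead))) .dead .dead .dead) .dead .dead) .dead .dead .dead) .dead .dead) .dead .dead .dead) (.br 22 (.br 23 .dead (.br 24 (.br 25 .dead (.br 26 (.br 27 .dead (.br 28 .dead (.br 29 .dead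 .dead (.br 30 .dead .dead .dead (.br 31 .dead .dead (.br 32 .dead .dead .dead (.br 33 .dead .dead (.br 34 (.kem 2 3 7 4161920) .dead .dead (.br 35 (.br 36 .dead (.br 37 (.br 38 .dead (.br 39 (.br 40 .dead (.br 46 .dead .dead .dead .dead) .dead .dead) .dead .dead .dead) .dead .dead) .dead .dead .dead) .dead .dead) .dead .dead (.br 36 (.br 37 .dead (.br 38 (.br 39 .dead (.br 40 (.br 46 .dead .dead .dead .dead) .dead .dead .dead) .dead .dead) .dead .dead .dead) .dead .dead) (.br 37 (.br 38 .dead (.br 39 (.br 40 .dead (.br 46 .dead .dead .dead .dead) .dead .dead) .dead .dead .dead) .dead .dead) .dead .dead .dead) .dead .dead))) .dead)) .dead)) (.br 30 .dead .dead (.br 31 .dead .dead .dead (.br 32 .dead .dead (.br 33 .dead .dead .dead (.br 34 (.kem 2 3 7 4161920) .dead .dead .dead)) .dead)) .dead)) .dead (.br 29 .dead .dead (.br 30 .dead .dead .dead (.br 31 .dead .dead (.br 32 .dead .dead .dead (.br 33 .dead .dead (.br 34 (.br 35 (.br 36 .dead (.br 37 (.br 38 .dead (.br 39 (.br 42 .dead .dead (.br 43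 .dead .dead .dead (.br 44 .dead .dead (.br 45 .dead .dead .dead (.br 46 .dead (.br 40 .dead .dead .dead (.br 47 (.br 48 .dead (.kem 2 3 7 3315450478976) .dead .dead) .dead .dead .dead)) .dead .dead)) .dead)) .dead) .dead .dead .dead) .dead .dead) .dead .dead .dead) .dead .dead) (.br 36 (.br 37 .dead (.br 38 (.br 39 .dead (.br 40 .dead .dead .dead (.br 41 .dead .dead (.br 42 .dead .dead (.br 43 .dead .dead .dead (.br 44 .dead .dead (.br 45 .dead .dead .dead (.kem 0 1 35 493646361133056)) .dead)) .dead) .dead)) .dead .dead) .dead .dead .dead) .dead .dead) .dead .dead .dead) .dead .dead) .dead .dead .dead) .dead)) .dead)) .dead)) .dead (.br 28 .dead (.br 34 (.br 29 .dead .dead (.br 30 .dead .dead .dead (.br 31 .dead .dead (.br 32 .dead .dead .dead (.br 33 .dead (.kem 2 3 7 138379648) (.kem 1 3 27 134217728) .dead)) .dead)) (.br 30 .dead .dead (.br 31 .dead .dead .dead (.br 32 .dead .dead (.br 33 .dead (.kem 2 3 7 138379648) .dead .dead) .dead)) .dead)) .dead .dead .dead) .dead (.br 29 .dead .dead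 (.br 30 .dead .dead .dead (.br 31 .dead .dead (.br 32 .dead .dead .dead (.br 33 .dead (.br 34 (.kem 1 2 21 2097152) .dead .dead .dead) (.br 34 (.kem 1 2 21 2097152) (.br 35 (.br 36 .dead (.br 37 (.br 38 .dead (.br 39 (.br 40 .dead .dead .dead (.br 41 .dead .dead (.kem 0 1 34 17179869184) .dead)) .dead .dead .dead) .dead .dead) .dead .dead .dead) .dead .dead) (.br 36 (.br 37 .dead (.br 38 (.br 39 .dead (.br 42 .dead .dead (.br 43 .dead .dead .dead (.br 44 .dead .dead (.br 45 .dead .dead .dead (.kem 0 1 34 496962075885568)) .dead)) .dead) .dead .dead) .dead .dead .dead) .dead .dead) .dead .dead .dead) .dead .dead) .dead .dead) .dead)) .dead)) .dead))) .dead .dead .dead) .dead .dead) .dead .dead .dead) .dead .dead) (.br 23 (.br 24 .dead (.br 25 (.br 26 .dead (.br 27 .dead .dead .dead (.br 28 (.br 34 .dead (.br 29 .dead .dead (.br 30 .dead .dead .dead (.br 31 .dead .dead (.br 32 .dead .dead .dead (.br 33 (.kem 2 3 7 138379648) .dead (.br 35 .dead (.br 36 (.br 37 .dead (.br 38 (.br 39 .dead (.br 42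 .dead .dead (.br 43 .dead .dead .dead (.br 44 .dead .dead (.br 45 .dead .dead .dead (.kem 0 1 22 496962474344448)) .dead)) .dead) .dead .dead) .dead .dead .dead) .dead .dead) .dead .dead .dead) .dead (.br 41 .dead .dead (.br 36 (.br 37 .dead (.br 38 (.br 39 .dead (.br 45 .dead .dead .dead (.br 44 .dead .dead (.br 43 .dead .dead .dead (.br 46 (.br 40 .dead .dead .dead (.kem 0 1 22 17578328064)) .dead .dead .dead)) .dead)) .dead .dead) .dead .dead .dead) .dead .dead) (.br 37 (.br 38 .dead (.br 39 (.br 40 .dead .dead .dead (.kem 0 1 22 17578328064)) .dead .dead .dead) .dead .dead) .dead .dead .dead) .dead .dead) .dead)) .dead)) .dead)) (.br 30 .dead .dead (.br 31 .dead .dead .dead (.br 32 .dead .dead (.br 33 (.kem 2 3 7 138379648) .dead .dead .dead) .dead)) .dead)) .dead .dead) .dead .dead (.br 29 .dead .dead (.br 30 .dead .dead .dead (.br 31 .dead .dead (.br 32 .dead .dead .dead (.br 33 (.br 34 .dead (.br 35 (.br 36 .dead (.br 37 (.br 38 .dead (.br 39 .dead .dead (.br 40 .dead .dead .dead (.br 41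 .dead .dead (.kem 0 1 22 25899827200) .dead)) .dead) .dead .dead) .dead .dead .dead) .dead .dead) (.br 36 (.br 37 .dead (.br 38 (.br 42 .dead .dead (.br 43 .dead .dead .dead (.br 44 .dead .dead (.br 48 (.br 41 .dead .dead (.kem 0 3 28 268435456) .dead) .dead .dead .dead) .dead)) .dead) .dead .dead .dead) .dead .dead) .dead .dead .dead) .dead .dead) .dead .dead) .dead (.kem 0 1 22 130023424) .dead)) .dead)) .dead))) .dead .dead) .dead .dead .dead) .dead .dead) .dead .dead .dead) .dead .dead) .dead) .dead)) .dead)) .dead)) (.br 15 (.br 16 .dead .dead (.br 17 .dead .dead .dead (.br 18 .dead .dead (.br 19 .dead .dead .dead (.br 20 (.kem 2 3 7 384) .dead (.br 21 .dead .dead (.br 22 .dead (.br 23 (.br 24 .dead (.br 25 (.br 26 .dead (.br 27 (.kem 2 3 7 2032000) .dead .dead (.kem 0 2 20 1048576)) .dead .dead) .dead .dead .dead) .dead .dead) .dead .dead .dead) .dead (.br 23 (.br 24 .dead (.br 25 (.br 26 .dead (.br 27 (.br 28 (.br 29 .dead (.br 30 .dead .dead (.br 31 .dead .dead .dead (.br 32 .dead .dead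 (.br 33 .dead .dead .dead (.br 34 .dead (.kem 2 3 7 8323456) .dead .dead)) .dead)) (.br 31 .dead .dead (.br 32 .dead .dead .dead (.br 33 .dead .dead (.br 34 .dead (.kem 2 3 7 8323456) .dead (.br 35 .dead .dead (.br 36 (.br 37 .dead (.br 38 (.br 39 .dead (.br 40 (.br 46 .dead .dead .dead .dead) .dead .dead .dead) .dead .dead) .dead .dead .dead) .dead .dead) .dead .dead .dead) (.br 36 (.br 37 .dead (.br 38 (.br 39 .dead (.br 40 (.br 46 .dead .dead .dead .dead) .dead .dead .dead) .dead .dead) .dead .dead .dead) .dead .dead) .dead (.br 42 .dead (.br 43 .dead .dead .dead (.br 44 .dead .dead (.br 48 (.br 47 .dead (.br 40 (.br 46 .dead .dead .dead .dead) .dead .dead .dead) .dead .dead) .dead .dead .dead) .dead)) .dead .dead) .dead))) .dead)) .dead)) (.kem 1 3 22 4194304) .dead) (.br 29 .dead .dead (.br 30 .dead .dead .dead (.br 31 .dead .dead (.br 32 .dead .dead .dead (.br 33 .dead .dead (.br 34 .dead .dead .dead (.br 35 (.br 36 .dead (.br 37 (.br 38 .dead (.br 39 (.br 40 .dead (.br 46 .dead .dead .dead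 .dead) .dead .dead) .dead .dead .dead) .dead .dead) .dead .dead .dead) .dead .dead) .dead .dead (.br 36 (.br 37 .dead (.br 38 (.br 39 .dead (.br 40 (.br 46 .dead .dead .dead .dead) .dead .dead .dead) .dead .dead) .dead .dead .dead) .dead .dead) (.br 37 (.br 38 .dead (.br 39 (.br 40 .dead (.br 46 .dead .dead .dead .dead) .dead .dead) .dead .dead .dead) .dead .dead) .dead .dead .dead) .dead .dead))) .dead)) .dead)) .dead) .dead .dead) .dead .dead (.kem 0 2 20 1048576)) .dead .dead) .dead .dead .dead) .dead .dead) (.br 24 (.br 25 .dead (.br 26 (.br 27 .dead .dead .dead (.br 28 (.br 29 .dead .dead (.br 30 .dead .dead .dead (.br 31 .dead .dead (.br 32 .dead .dead .dead (.br 34 .dead (.br 33 .dead .dead (.kem 0 1 23 125829120) .dead) .dead .dead)) .dead)) .dead) (.br 34 (.br 29 (.br 30 .dead .dead (.br 31 .dead .dead .dead (.br 32 .dead .dead (.br 33 .dead (.kem 2 3 7 142541184) .dead .dead) .dead)) (.br 31 .dead .dead (.br 32 .dead .dead .dead (.br 33 .dead (.kem 2 3 7 142541184) (.br 35 .dead .dead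 (.br 36 .dead (.br 42 .dead .dead .dead .dead) .dead .dead) (.br 41 .dead .dead (.br 36 .dead (.br 37 (.br 38 .dead (.br 39 (.br 42 .dead .dead (.br 43 .dead .dead .dead (.br 44 .dead .dead (.br 45 .dead .dead .dead (.kem 0 1 23 494729624027136)) .dead)) .dead) .dead .dead .dead) .dead .dead) .dead .dead .dead) (.br 42 .dead (.br 43 .dead .dead .dead (.br 44 .dead .dead (.br 48 (.br 47 .dead (.br 40 .dead .dead .dead (.kem 0 1 23 18111004672)) .dead .dead) .dead .dead .dead) .dead)) .dead .dead) .dead) .dead)) .dead)) .dead)) .dead (.br 30 .dead .dead .dead (.br 31 .dead .dead (.br 32 .dead .dead .dead (.br 33 .dead (.kem 0 2 20 68157440) (.kem 0 1 23 125829120) .dead)) .dead)) .dead) .dead .dead .dead) .dead .dead)) .dead .dead .dead) .dead .dead) .dead .dead .dead) .dead .dead)) (.br 22 .dead (.br 23 (.br 24 .dead (.br 25 (.br 26 .dead (.br 27 (.kem 2 3 7 2032000) .dead .dead .dead) .dead .dead) .dead .dead .dead) .dead .dead) .dead .dead .dead) .dead .dead)) .dead)) .dead)) (.br 17 .dead .dead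 (.br 18 .dead .dead .dead (.br 19 .dead .dead (.br 20 (.kem 2 3 7 384) .dead .dead .dead) .dead)) .dead)) .dead .dead (.br 16 .dead .dead (.br 17 .dead .dead .dead (.br 18 .dead .dead (.br 19 .dead .dead .dead (.br 20 (.br 21 (.br 22 .dead (.br 23 (.br 24 .dead (.br 25 (.br 26 .dead (.kem 2 3 7 1016192) (.br 27 .dead .dead .dead (.br 28 .dead .dead (.br 29 .dead .dead .dead (.br 30 .dead .dead (.br 31 .dead .dead .dead (.br 32 .dead (.br 33 (.br 34 .dead (.kem 2 3 7 202342784) .dead .dead) .dead .dead .dead) .dead .dead)) .dead)) (.br 29 .dead .dead (.br 30 .dead .dead .dead (.br 31 .dead .dead (.br 32 .dead (.br 33 (.br 34 .dead (.kem 2 3 7 202342784) (.br 35 (.br 36 .dead (.br 37 (.br 38 .dead .dead .dead (.br 39 .dead .dead (.br 41 .dead (.br 48 .dead .dead .dead .dead) .dead .dead) .dead)) .dead .dead .dead) .dead .dead) (.br 36 (.br 37 .dead (.br 41 (.br 48 .dead .dead .dead .dead) .dead .dead .dead) .dead .dead) .dead .dead .dead) .dead .dead) .dead) .dead .dead .dead) .dead (.br 33 (.kem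 1 2 26 67108864) (.br 34 .dead .dead (.br 35 (.br 36 .dead (.br 37 (.br 38 .dead (.br 41 .dead (.br 48 .dead .dead .dead .dead) .dead .dead) .dead .dead) .dead .dead .dead) .dead .dead) (.br 36 (.br 37 .dead (.br 38 (.br 39 .dead .dead (.br 41 (.br 48 .dead .dead .dead .dead) .dead .dead .dead) .dead) .dead .dead .dead) .dead .dead) .dead .dead .dead) .dead .dead) .dead) .dead .dead)) .dead)) .dead))) .dead) .dead .dead .dead) .dead .dead) .dead .dead .dead) .dead .dead) .dead (.br 27 .dead .dead .dead (.br 22 (.br 23 .dead (.br 24 (.br 25 .dead (.br 26 .dead .dead (.br 28 .dead (.br 34 (.br 33 .dead (.br 29 .dead .dead (.kem 0 3 15 4227072) (.br 30 .dead .dead (.br 31 .dead .dead .dead (.br 32 (.kem 2 3 7 204439936) .dead .dead .dead)) .dead)) .dead .dead) .dead .dead .dead) .dead (.br 29 .dead .dead (.br 30 .dead .dead .dead (.br 31 .dead .dead (.br 32 (.br 33 .dead (.br 34 (.br 35 (.br 36 .dead (.br 37 (.br 42 .dead .dead (.br 43 .dead .dead .dead (.br 44 .dead .dead (.br 48 .dead (.br 41 .dead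 .dead (.kem 1 3 28 268435456) .dead) .dead .dead) .dead)) .dead) .dead .dead .dead) .dead .dead) (.br 36 (.br 37 .dead (.br 38 .dead .dead .dead (.br 39 .dead .dead (.br 40 .dead .dead .dead (.br 41 .dead .dead (.br 42 .dead .dead (.br 43 .dead .dead .dead (.br 44 .dead .dead (.br 45 .dead (.br 46 (.br 47 .dead (.br 48 (.kem 1 3 28 34628173824) .dead .dead .dead) .dead .dead) .dead .dead .dead) .dead .dead) .dead)) .dead) .dead)) .dead)) .dead .dead) .dead .dead .dead) .dead .dead) .dead .dead .dead) .dead .dead) .dead .dead (.br 33 (.br 34 .dead (.br 35 (.br 36 .dead (.br 37 (.br 38 .dead (.br 39 .dead .dead (.br 40 .dead .dead .dead (.br 41 .dead .dead (.br 42 .dead .dead (.br 43 .dead .dead .dead (.br 44 .dead .dead (.br 45 .dead .dead .dead (.br 48 .dead (.kem 0 3 15 34632400896) .dead .dead)) .dead)) .dead) .dead)) .dead) .dead .dead) .dead .dead .dead) .dead .dead) (.br 36 (.br 37 .dead (.br 38 (.br 42 .dead .dead (.br 43 .dead .dead .dead (.br 44 .dead .dead (.br 48 (.br 41 .dead .dead (.kem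 0 3 15 272662528) .dead) .dead .dead .dead) .dead)) .dead) .dead .dead .dead) .dead .dead) .dead .dead .dead) .dead .dead) .dead .dead) (.br 34 (.br 35 (.br 36 .dead (.br 37 (.br 38 .dead (.br 42 .dead .dead (.br 43 .dead .dead .dead (.br 44 .dead .dead (.br 45 .dead .dead .dead (.kem 0 1 33 496970665820160)) .dead)) .dead) .dead .dead) .dead .dead .dead) .dead .dead) (.br 36 (.br 37 .dead (.br 38 (.br 39 .dead .dead (.br 40 .dead .dead .dead (.br 41 .dead .dead (.kem 0 1 33 25769803776) .dead)) .dead) .dead .dead .dead) .dead .dead) .dead .dead .dead) .dead .dead) .dead .dead .dead) .dead .dead)) .dead)) .dead)) .dead) .dead .dead) .dead .dead .dead) .dead .dead) (.kem 0 3 15 32768) .dead .dead)) .dead) .dead (.br 21 (.br 22 .dead (.br 23 (.br 24 .dead (.br 25 (.br 26 .dead (.br 27 .dead .dead .dead (.kem 0 2 20 1048576)) .dead .dead) .dead .dead .dead) .dead .dead) .dead .dead .dead) .dead .dead) .dead (.br 22 (.br 23 .dead (.br 24 (.br 25 .dead (.br 26 (.br 27 .dead .dead .dead (.kem 0 1 14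 16384)) .dead .dead .dead) .dead .dead) .dead .dead .dead) .dead .dead) (.kem 0 3 15 32768) .dead .dead) .dead) .dead)) .dead)) .dead)) .dead .dead)

def t7C_5 : Tree :=
  (.br 21 .dead (.br 22 (.br 23 .dead (.br 24 (.br 25 .dead (.br 26 (.br 27 .dead .dead (.br 28 .dead .dead (.br 29 .dead .dead .dead (.br 30 .dead .dead (.br 31 .dead .dead .dead (.br 32 .dead .dead (.br 33 .dead (.br 34 (.br 35 (.br 36 .dead (.br 37 (.br 38 .dead (.br 42 .dead .dead (.br 43 .dead .dead .dead (.br 44 .dead .dead (.br 45 .dead .dead .dead (.br 39 (.br 46 .dead (.br 47 (.br 48 .dead (.br 41 .dead .dead .dead (.br 40 .dead .dead (.fin [(1,3,114695534676114),(0,3,214387587547136),(1,3,422247370197072),(0,3,283691179835392),(2,3,21584123756802),(0,3,71485708370960),(1,2,562949953421311)]) .dead)) .dead .dead) .dead .dead .dead) .dead .dead) .dead .dead .dead)) .dead)) .dead) .dead .dead) .dead .dead .dead) .dead .dead) (.br 36 (.br 37 .dead (.br 38 (.br 39 .dead .dead .dead (.br 40 .dead .dead (.br 41 .dead .dead .dead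 (.br 42 .dead .dead (.br 43 .dead .dead .dead (.br 44 .dead .dead (.br 45 .dead (.br 46 (.br 47 .dead (.br 48 (.fin [(1,3,64),(1,3,8935714586754),(2,3,21584123756802),(0,3,71485708370960),(1,2,562949953421311)]) .dead .dead .dead) .dead .dead) .dead .dead .dead) .dead .dead) .dead)) .dead)) .dead)) .dead .dead .dead) .dead .dead) .dead .dead .dead) .dead .dead) .dead .dead (.br 35 (.br 36 .dead (.br 37 (.br 38 .dead (.br 41 .dead (.br 48 .dead .dead .dead .dead) .dead .dead) .dead .dead) .dead .dead .dead) .dead .dead) (.br 36 (.br 37 .dead (.br 38 (.br 39 .dead .dead .dead (.br 41 (.br 48 .dead .dead .dead .dead) .dead .dead .dead)) .dead .dead .dead) .dead .dead) .dead .dead .dead) .dead .dead)) .dead (.br 34 (.br 35 (.br 36 .dead (.br 37 (.br 38 .dead (.br 39 (.br 42 .dead .dead (.br 43 .dead .dead .dead (.br 44 .dead .dead (.br 45 .dead .dead .dead (.br 46 .dead (.br 40 .dead .dead (.kem 1 3 33 8589934592) .dead) .dead .dead)) .dead)) .dead) .dead .dead .dead) .dead .dead) .dead .dead .dead)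 .dead .dead) (.br 36 (.br 37 .dead (.br 38 (.br 39 .dead (.br 40 .dead .dead (.br 41 .dead .dead .dead (.br 42 .dead .dead (.br 43 .dead .dead .dead (.br 44 .dead .dead (.br 45 .dead .dead .dead (.kem 0 1 35 493646361133056)) .dead)) .dead)) .dead) .dead .dead) .dead .dead .dead) .dead .dead) .dead .dead .dead) .dead .dead) .dead .dead .dead)) .dead)) .dead)) (.br 29 .dead .dead (.br 30 .dead .dead .dead (.br 31 .dead .dead (.br 32 .dead .dead .dead (.br 33 .dead (.br 34 (.br 35 (.br 36 .dead (.br 37 (.br 38 .dead (.br 42 .dead .dead (.br 43 .dead .dead .dead (.br 44 .dead .dead (.br 45 .dead .dead .dead (.br 48 .dead (.br 41 .dead .dead (.br 40 .dead .dead .dead (.br 47 (.br 46 .dead (.br 39 (.kem 1 2 13 8727306240) .dead (.kem 0 2 39 549755813888) .dead) .dead .dead) .dead .dead .dead)) .dead) .dead .dead)) .dead)) .dead) .dead .dead) .dead .dead .dead) .dead .dead) (.br 36 (.br 37 .dead (.br 38 (.br 39 .dead .dead (.br 40 .dead .dead .dead (.br 41 .dead .dead (.br 42 .dead .dead (.br 43 .dead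 .dead .dead (.br 44 .dead .dead (.br 48 (.br 47 .dead (.br 46 (.br 45 .dead (.kem 2 3 28 3856612196352) .dead (.kem 1 2 13 558483120128)) .dead .dead .dead) .dead .dead) .dead .dead .dead) .dead)) .dead) .dead)) .dead) .dead .dead .dead) .dead .dead) .dead .dead .dead) .dead .dead) .dead .dead .dead) .dead .dead)) .dead)) .dead)) (.kem 1 2 13 1056768)) .dead (.br 27 .dead .dead .dead (.br 28 .dead .dead (.br 29 .dead .dead .dead (.br 30 .dead .dead (.br 31 .dead .dead .dead (.br 32 (.br 33 .dead (.br 34 (.br 35 (.br 36 .dead (.br 37 (.br 42 .dead .dead (.br 43 .dead .dead .dead (.br 44 .dead .dead (.br 38 .dead (.br 45 .dead .dead .dead (.br 39 .dead .dead (.br 40 .dead .dead .dead (.br 41 .dead (.br 48 .dead .dead .dead .dead) .dead .dead)) .dead)) .dead .dead) .dead)) .dead) .dead .dead .dead) .dead .dead) (.br 36 (.br 37 .dead (.br 38 .dead .dead (.br 39 .dead .dead .dead (.br 40 .dead .dead (.br 41 .dead .dead .dead (.br 42 .dead .dead (.br 43 .dead .dead .dead (.br 44 .dead .dead .dead .dead))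 .dead)) .dead)) .dead) .dead .dead) .dead .dead .dead) .dead .dead) .dead .dead .dead) .dead .dead) .dead .dead .dead)) .dead)) (.br 29 .dead .dead (.br 30 .dead .dead .dead (.br 31 .dead .dead (.br 32 (.br 33 .dead (.br 34 (.br 35 (.br 36 .dead (.br 37 (.br 42 .dead .dead (.br 43 .dead .dead .dead (.br 44 .dead .dead (.br 48 .dead (.br 41 .dead .dead (.br 40 .dead .dead .dead (.br 39 .dead .dead (.br 47 (.br 46 .dead (.br 45 .dead .dead .dead (.br 38 .dead (.fin [(0,1,7687),(0,3,150823569115794),(0,2,3856813522944),(0,3,67633152),(1,3,528280977415751),(0,1,8935714586754),(0,2,21584123756802),(0,3,71485708370960),(0,3,562949953421311),(1,2,562949953421311)]) .dead .dead)) .dead .dead) .dead .dead .dead) .dead)) .dead) .dead .dead) .dead)) .dead) .dead .dead .dead) .dead .dead) (.br 36 (.br 37 .dead (.br 38 .dead .dead .dead (.br 39 .dead .dead (.br 40 .dead .dead .dead (.br 41 .dead .dead (.br 42 .dead .dead (.br 43 .dead .dead .dead (.br 44 .dead .dead (.br 45 .dead (.br 46 (.br 47 .dead (.br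 48 (.fin [(0,3,279172874240),(0,2,376946215449901),(0,3,30786326602232),(0,1,64),(0,1,8935714586754),(0,3,21584123756802),(0,2,71485708370960),(0,2,562949953421311),(1,3,562949953421311),(2,3,562949953421311)]) .dead .dead .dead) .dead .dead) .dead .dead .dead) .dead .dead) .dead)) .dead) .dead)) .dead)) .dead .dead) .dead .dead .dead) .dead .dead) .dead (.br 35 (.br 36 .dead (.br 37 (.br 41 .dead (.br 48 .dead .dead .dead .dead) .dead .dead) .dead .dead .dead) .dead .dead) (.br 36 (.br 37 .dead (.br 38 .dead .dead .dead (.br 39 .dead .dead (.br 41 (.br 48 .dead .dead .dead .dead) .dead .dead .dead) .dead)) .dead .dead) .dead .dead .dead) .dead .dead) .dead) .dead .dead) .dead .dead (.br 33 (.br 34 .dead .dead (.br 35 (.br 36 .dead (.br 37 (.br 38 .dead (.br 39 .dead .dead (.br 41 .dead (.br 48 .dead .dead .dead .dead) .dead .dead) .dead) .dead .dead) .dead .dead .dead) .dead .dead) (.br 36 (.br 37 .dead (.br 38 (.br 41 (.br 48 .dead .dead .dead .dead) .dead .dead .dead) .dead .dead .dead) .dead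 .dead) .dead .dead .dead) .dead .dead) .dead) (.kem 0 2 26 67108864) .dead .dead)) .dead)) .dead))) .dead) .dead .dead) .dead .dead .dead) .dead .dead) .dead .dead .dead) (.br 27 .dead .dead .dead (.br 22 (.br 23 .dead (.br 24 (.br 25 .dead (.br 26 (.kem 1 2 13 1056768) .dead (.br 28 .dead (.br 34 (.br 33 .dead (.br 29 .dead .dead (.br 30 .dead .dead .dead (.br 31 .dead .dead (.br 32 (.br 35 (.br 36 .dead (.br 37 (.br 42 .dead .dead (.br 43 .dead .dead .dead (.br 44 .dead .dead (.br 48 .dead (.br 47 (.br 46 .dead (.br 45 .dead .dead .dead (.br 38 .dead (.br 39 .dead .dead (.br 40 .dead .dead .dead (.br 41 .dead .dead (.fin [(0,1,493127001440256),(1,3,35184372088832),(2,3,30786530025976),(1,3,194769274080042),(0,3,26168262656),(2,3,13333760057538),(1,3,203425767558120),(2,3,56),(0,3,71485708370960),(1,2,562949953421311)]) .dead)) .dead) .dead .dead)) .dead .dead) .dead .dead .dead) .dead .dead) .dead)) .dead) .dead .dead .dead) .dead .dead) .dead .dead (.br 41 .dead .dead (.br 40 .dead .dead .dead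 (.br 39 .dead .dead (.br 36 (.br 37 .dead (.br 38 .dead .dead .dead (.br 44 .dead .dead (.br 43 .dead .dead .dead (.br 45 .dead (.br 46 (.br 47 .dead (.br 48 (.br 42 .dead (.fin [(2,3,204448248),(1,2,53474659664002),(0,3,279239983104),(1,3,142394281241512),(2,3,35742717837312),(2,3,64),(1,2,21584123756802),(0,2,71485708370960),(2,3,562949953421311)]) (.kem 1 2 42 4398046511104) .dead) .dead .dead .dead) .dead .dead) .dead .dead .dead) .dead .dead)) .dead)) .dead .dead) (.br 37 (.br 42 .dead .dead (.br 43 .dead .dead .dead (.br 44 .dead .dead (.br 38 .dead (.br 45 .dead .dead .dead (.br 46 (.br 47 .dead (.br 48 (.fin [(1,3,64),(2,3,69857106198584),(0,1,511432458240),(1,2,4363132992),(0,1,26168262656),(1,3,17731806568578),(1,2,141853116402576),(0,1,71485708370960),(1,3,562949953421311)]) .dead .dead .dead) .dead .dead) (.kem 0 1 46 492581209243648) .dead .dead)) .dead (.kem 0 1 36 206158430208)) .dead)) .dead) .dead .dead .dead) .dead .dead) .dead)) .dead)) .dead .dead (.kem 0 2 26 67108864)) .dead))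 (.br 30 .dead .dead (.br 31 .dead .dead .dead (.br 32 (.br 35 (.br 36 .dead (.br 37 (.br 42 .dead .dead (.br 43 .dead .dead .dead (.br 44 .dead .dead (.br 38 .dead (.kem 2 3 29 3758096384) .dead .dead) .dead)) .dead) .dead .dead .dead) .dead .dead) .dead (.br 41 .dead .dead .dead (.br 40 .dead .dead (.br 39 .dead .dead .dead (.br 42 .dead (.br 36 (.br 37 .dead (.br 38 .dead .dead (.br 44 .dead .dead .dead (.br 43 .dead .dead (.br 45 .dead (.kem 0 2 26 279239983104) .dead .dead) .dead)) .dead) .dead .dead) .dead .dead .dead) .dead .dead)) .dead)) .dead) .dead .dead .dead)) .dead)) .dead .dead) .dead .dead .dead) .dead (.br 29 .dead .dead (.br 30 .dead .dead .dead (.br 31 .dead .dead (.br 32 (.br 33 .dead (.br 34 (.kem 1 2 21 2097152) .dead .dead .dead) .dead .dead) .dead .dead (.br 33 (.br 34 .dead (.br 35 (.br 36 .dead (.br 37 (.br 38 .dead (.br 39 .dead .dead (.br 40 .dead .dead .dead (.br 41 .dead .dead (.br 42 .dead .dead (.br 43 .dead .dead .dead (.br 44 .dead .dead (.br 45 .dead .dead .dead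 (.br 48 .dead (.br 47 (.br 46 .dead (.kem 0 2 26 558412857344) .dead .dead) .dead .dead .dead) .dead .dead)) .dead)) .dead) .dead)) .dead) .dead .dead) .dead .dead .dead) .dead .dead) (.br 36 (.br 37 .dead (.br 38 (.br 42 .dead .dead (.br 43 .dead .dead .dead (.br 44 .dead .dead (.br 48 (.br 41 .dead .dead (.br 40 .dead .dead .dead (.br 47 .dead (.br 46 (.br 39 .dead (.kem 0 2 26 8657043456) (.br 45 .dead (.fin [(0,1,25769803776),(0,2,376946217547053),(0,1,200843987323690),(1,3,3856612196352),(0,3,8935713546434),(1,3,135274496),(1,3,21584123756802),(2,3,71485708370960),(0,2,562949953421311)]) .dead (.kem 0 1 35 493096605319168)) .dead) .dead .dead .dead) .dead .dead)) .dead) .dead .dead .dead) .dead)) .dead) .dead .dead .dead) .dead .dead) .dead .dead .dead) .dead .dead) .dead .dead) (.kem 0 2 26 67108864) .dead .dead)) .dead)) .dead)) .dead) .dead .dead) .dead .dead .dead) .dead .dead) (.br 23 (.br 24 .dead (.br 25 (.br 26 .dead .dead (.br 28 (.br 34 .dead (.br 33 (.br 29 .dead .dead (.br 30 .dead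 .dead .dead (.br 31 .dead .dead (.br 32 .dead (.br 35 .dead (.br 36 (.br 37 .dead (.br 42 .dead .dead (.br 43 .dead .dead .dead (.br 44 .dead .dead (.br 48 (.br 47 .dead (.br 46 (.br 38 (.br 39 .dead .dead (.br 40 .dead .dead .dead (.br 41 .dead .dead (.br 45 .dead (.fin [(2,3,30786530025976),(1,3,194769274080042),(0,3,26168262656),(2,3,13333760057538),(1,3,203425767558120),(2,3,56),(0,3,71485708370960),(1,2,562949953421311)]) .dead (.kem 0 1 22 493127001440256)) .dead)) (.br 40 .dead .dead (.br 41 .dead .dead .dead (.br 45 .dead (.kem 2 3 39 3848290697216) .dead .dead)) .dead)) .dead .dead (.br 39 .dead .dead (.br 40 .dead .dead .dead (.br 41 .dead .dead (.br 45 .dead (.kem 0 3 38 274877906944) .dead .dead) .dead)) .dead)) .dead .dead .dead) .dead .dead) .dead .dead .dead) .dead)) .dead) .dead .dead) .dead .dead .dead) .dead (.br 41 .dead .dead (.br 40 .dead .dead .dead (.br 39 .dead .dead (.br 36 (.br 37 .dead (.br 38 (.br 42 .dead (.br 48 (.br 47 .dead (.br 46 (.br 43 .dead .dead (.br 44 .dead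 .dead .dead (.br 45 .dead (.fin [(2,3,204448248),(1,3,4363132928),(0,1,26168262656),(1,2,13333760057538),(1,3,203425767558120),(1,2,56),(0,1,71485708370960),(1,2,562949953421311),(2,3,562949953421311)]) .dead .dead)) (.br 44 .dead .dead (.br 45 .dead (.kem 2 3 43 26388279066624) .dead (.kem 1 3 45 35184372088832)) .dead)) .dead .dead .dead) .dead .dead) .dead .dead .dead) (.br 43 .dead .dead .dead (.br 44 .dead .dead (.br 45 .dead (.br 46 (.br 47 .dead (.br 48 (.kem 1 3 35 34359738368) .dead .dead .dead) .dead .dead) .dead .dead .dead) .dead (.kem 0 1 22 511432458240)) .dead)) .dead) .dead .dead (.kem 0 1 22 30396121088)) .dead .dead) (.br 37 (.br 38 .dead .dead .dead (.kem 0 1 22 30396121088)) .dead .dead .dead) .dead .dead) .dead)) .dead)) .dead (.kem 1 2 13 68165632)) .dead)) (.br 30 .dead .dead (.br 31 .dead .dead .dead (.br 32 .dead (.br 35 .dead (.br 36 (.br 37 .dead (.br 42 .dead .dead (.br 43 .dead .dead .dead (.br 44 .dead .dead (.br 38 (.kem 2 3 29 3758096384) .dead .dead .dead) .dead))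 .dead) .dead .dead) .dead .dead .dead) (.br 41 .dead .dead .dead (.br 40 .dead .dead (.br 39 .dead .dead .dead (.br 42 .dead (.br 36 (.br 37 .dead (.br 45 .dead (.br 46 (.br 47 .dead (.br 48 (.kem 2 3 29 30549565505536) .dead .dead .dead) .dead .dead) .dead .dead .dead) .dead .dead) .dead .dead) .dead .dead .dead) .dead .dead)) .dead)) .dead) .dead .dead)) .dead)) .dead .dead .dead) .dead .dead) .dead .dead (.br 29 .dead .dead (.br 30 .dead .dead .dead (.br 31 .dead .dead (.br 32 .dead (.br 33 (.br 34 .dead (.br 35 (.br 36 .dead (.br 37 (.br 38 .dead .dead .dead (.br 39 .dead .dead (.br 40 .dead .dead .dead (.br 41 .dead .dead (.kem 0 1 22 30127685632) .dead)) .dead)) .dead .dead .dead) .dead .dead) (.br 36 (.br 37 .dead (.br 42 .dead .dead (.br 43 .dead .dead .dead (.br 44 .dead .dead (.br 48 (.br 41 .dead .dead (.kem 0 3 28 268435456) .dead) .dead .dead .dead) .dead)) .dead) .dead .dead) .dead .dead .dead) .dead .dead) .dead .dead) .dead .dead .dead) .dead (.kem 0 1 22 62914560)) .dead)) .dead))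 .dead) .dead .dead .dead) .dead .dead) .dead .dead .dead) .dead .dead)) .dead)

def t7C_6 : Tree :=
  (.br 22 .dead (.br 23 (.br 24 .dead (.br 25 (.br 28 (.br 34 .dead (.br 33 (.br 29 .dead .dead (.br 30 .dead .dead .dead (.br 31 .dead .dead (.br 32 .dead (.br 35 .dead (.br 36 (.br 37 .dead (.br 42 .dead .dead (.br 43 .dead .dead .dead (.br 44 .dead .dead (.br 48 (.br 47 .dead (.br 46 (.br 38 (.br 39 .dead .dead (.br 40 .dead .dead .dead (.br 41 .dead .dead (.br 45 .dead (.fin [(0,3,361817852482769),(2,3,359068469638185),(1,3,183125146413608),(0,3,177353616165396),(1,3,235388928),(0,2,554256941195201),(0,3,71485708370960),(0,3,17871427092740)]) .dead (.kem 1 3 45 35184372088832)) .dead)) (.br 40 .dead .dead (.br 41 .dead .dead .dead (.br 45 .dead (.kem 2 3 39 3848290697216) .dead .dead)) .dead)) .dead .dead (.br 39 .dead .dead (.br 40 .dead .dead .dead (.br 41 .dead .dead (.br 45 .dead (.kem 0 3 38 274877906944) .dead .dead) .dead)) .dead)) .dead .dead .dead) .dead .dead) .dead .dead .dead) .dead))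 .dead) .dead .dead) .dead .dead .dead) .dead (.br 41 .dead .dead (.br 40 .dead .dead .dead (.br 39 .dead .dead (.br 36 (.br 37 .dead (.br 38 (.br 42 .dead (.br 48 (.br 47 .dead (.br 46 (.br 43 .dead .dead (.br 44 .dead .dead .dead (.br 45 .dead (.fin [(0,3,353056387634385),(1,3,549961972318211),(2,3,13333725970690),(0,2,8694624428286),(2,3,34630270976),(1,2,281474976727233),(1,3,1580992),(1,2,69810262016),(0,2,562949953421311),(1,2,562949953421311),(2,3,562949953421311)]) .dead .dead)) (.br 44 .dead .dead (.br 45 .dead (.kem 2 3 43 26388279066624) .dead (.kem 1 3 45 35184372088832)) .dead)) .dead .dead .dead) .dead .dead) .dead .dead .dead) (.br 43 .dead .dead .dead (.br 44 .dead .dead (.br 45 .dead (.br 46 (.br 47 .dead (.br 48 (.kem 1 3 35 34359738368) .dead .dead .dead) .dead .dead) .dead .dead .dead) .dead (.br 46 (.kem 1 3 45 35184372088832) (.kem 0 1 46 492581209243648) .dead .dead)) .dead)) .dead) .dead .dead (.br 44 .dead .dead (.br 43 .dead .dead .dead (.br 45 .dead (.kem 0 3 38 274877906944)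 .dead .dead)) .dead)) .dead .dead) (.br 37 (.br 38 .dead .dead .dead (.br 42 .dead .dead (.br 43 .dead .dead .dead (.br 44 .dead .dead (.kem 0 1 36 206158430208) .dead)) .dead)) .dead .dead .dead) .dead .dead) .dead)) .dead)) .dead (.br 35 .dead (.br 36 (.br 37 .dead (.br 38 (.br 42 .dead .dead (.br 43 .dead .dead .dead (.br 44 .dead .dead (.br 48 (.br 47 .dead (.br 46 (.br 39 .dead (.br 45 .dead .dead .dead (.br 40 .dead .dead (.kem 1 3 32 35738422870016) (.kem 2 3 40 3298534883328))) (.kem 1 3 32 4294967296) .dead) .dead .dead .dead) .dead .dead) .dead .dead .dead) .dead)) .dead) .dead .dead .dead) .dead .dead) .dead .dead .dead) .dead (.br 41 .dead .dead (.br 40 .dead .dead .dead (.br 36 (.br 37 .dead (.br 38 (.br 39 .dead (.br 45 .dead .dead .dead (.br 44 .dead .dead (.br 43 .dead .dead .dead (.br 46 (.br 47 .dead (.br 48 (.br 42 .dead (.fin [(2,3,3341151109120),(1,3,156287977539794),(0,3,26169360384),(1,3,35742717837312),(2,3,4432674684928),(1,3,142971416741904),(2,3,21584123756802),(0,3,71485708370960),(1,2,562949953421311)])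 (.kem 1 3 35 34359738368) .dead) .dead .dead .dead) .dead .dead) .dead .dead .dead)) .dead)) (.kem 1 3 32 4294967296) .dead) .dead .dead .dead) .dead .dead) (.br 37 (.br 38 .dead (.br 39 .dead .dead (.br 42 .dead .dead (.br 43 .dead .dead .dead (.br 44 .dead .dead (.br 45 .dead .dead .dead (.kem 0 1 36 481036337152)) .dead)) .dead) .dead) .dead .dead) .dead .dead .dead) .dead .dead)) .dead))) .dead)) (.br 30 .dead .dead (.br 31 .dead .dead .dead (.br 32 .dead (.br 35 .dead (.br 36 (.br 37 .dead (.br 42 .dead .dead (.br 43 .dead .dead .dead (.br 44 .dead .dead (.br 38 (.kem 2 3 29 3758096384) .dead .dead .dead) .dead)) .dead) .dead .dead) .dead .dead .dead) (.br 41 .dead .dead .dead (.br 40 .dead .dead (.br 39 .dead .dead .dead (.br 42 .dead (.br 36 (.br 37 .dead (.br 45 .dead (.br 46 (.br 47 .dead (.br 48 (.kem 2 3 29 30549565505536) .dead .dead .dead) .dead .dead) .dead .dead .dead) .dead .dead) .dead .dead) .dead .dead .dead) .dead .dead)) .dead)) .dead) .dead .dead)) .dead)) .dead .dead .dead)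 .dead .dead) .dead .dead (.br 29 .dead .dead (.br 30 .dead .dead .dead (.br 31 .dead .dead (.br 32 .dead (.br 33 (.br 34 .dead (.br 35 (.br 36 .dead (.br 37 (.br 38 .dead .dead .dead (.br 39 .dead .dead (.br 40 .dead .dead .dead (.br 41 .dead .dead (.br 42 .dead .dead (.br 43 .dead .dead .dead (.br 44 .dead .dead (.br 45 .dead (.br 46 (.br 47 .dead (.br 48 .dead .dead .dead .dead) .dead .dead) .dead .dead .dead) .dead .dead) .dead)) .dead) .dead)) .dead)) .dead .dead .dead) .dead .dead) (.br 36 (.br 37 .dead (.br 42 .dead .dead (.br 43 .dead .dead .dead (.br 44 .dead .dead (.br 48 (.br 41 .dead .dead (.kem 0 3 28 268435456) .dead) .dead .dead .dead) .dead)) .dead) .dead .dead) .dead .dead .dead) .dead .dead) .dead .dead) .dead .dead .dead) .dead (.br 33 (.br 34 .dead (.br 35 (.br 36 .dead (.br 37 (.br 38 .dead (.br 39 .dead .dead (.br 40 .dead .dead .dead (.br 41 .dead .dead (.br 42 .dead .dead (.br 43 .dead .dead .dead (.br 44 .dead .dead (.br 45 .dead .dead .dead (.br 48 .dead (.kem 0 3 28 34628173824)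 .dead .dead)) .dead)) .dead) .dead)) .dead) .dead .dead) .dead .dead .dead) .dead .dead) (.br 36 (.br 37 .dead (.br 38 (.br 42 .dead .dead (.br 43 .dead .dead .dead (.br 44 .dead .dead (.br 48 (.br 41 .dead .dead (.kem 0 3 28 268435456) .dead) .dead .dead .dead) .dead)) .dead) .dead .dead .dead) .dead .dead) .dead .dead .dead) .dead .dead) .dead .dead) (.br 34 (.br 35 (.br 36 .dead (.br 37 (.br 38 .dead (.br 42 .dead .dead (.br 43 .dead .dead .dead (.br 44 .dead .dead (.br 45 .dead .dead .dead (.kem 0 1 33 496970665820160)) .dead)) .dead) .dead .dead) .dead .dead .dead) .dead .dead) (.br 36 (.br 37 .dead (.br 38 (.br 39 .dead .dead (.br 40 .dead .dead .dead (.br 41 .dead .dead (.kem 0 1 33 25769803776) .dead)) .dead) .dead .dead .dead) .dead .dead) .dead .dead .dead) .dead .dead) .dead .dead .dead) .dead .dead)) .dead)) .dead)) .dead .dead (.br 28 (.br 34 .dead (.br 33 (.br 32 .dead (.br 29 .dead .dead (.br 30 .dead .dead .dead (.br 31 (.br 35 .dead (.br 36 (.br 42 .dead .dead (.br 43 .dead .dead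 .dead (.br 44 .dead .dead (.br 37 .dead (.br 38 .dead .dead .dead (.br 39 .dead .dead (.br 40 .dead .dead .dead (.br 41 .dead .dead (.br 45 .dead (.br 46 (.br 47 .dead (.br 48 (.fin [(2,3,34909494190584),(1,3,200855404571434),(2,3,66048),(2,3,186251343579282),(0,2,527765582962247),(0,3,8899442786434),(2,3,71971640558608),(1,3,17731239837954),(0,2,562949953421311)]) .dead .dead .dead) .dead .dead) .dead .dead .dead) .dead .dead) .dead)) .dead)) .dead .dead) .dead)) .dead) .dead .dead .dead) .dead (.br 41 .dead .dead (.br 40 .dead .dead .dead (.br 39 .dead .dead (.br 38 .dead .dead .dead (.br 44 .dead .dead (.br 37 .dead (.br 36 (.br 43 .dead .dead .dead (.br 45 .dead (.br 46 (.br 47 .dead (.br 48 (.br 42 .dead (.fin [(2,3,237436928),(1,2,541065216),(0,2,68719476736),(0,1,532163629473287),(0,3,13228769820866),(1,3,285873023221767),(1,2,22196932083970),(1,3,69810262016),(0,3,562949953421311),(1,2,562949953421311),(2,3,562949953421311)]) (.kem 1 3 35 34359738368) .dead) .dead .dead .dead) .dead .dead)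 .dead .dead .dead) .dead .dead)) .dead .dead .dead) .dead .dead) .dead)) .dead)) .dead)) .dead (.kem 0 3 25 33554432) .dead)) (.br 30 .dead .dead (.br 31 (.br 35 .dead (.br 36 (.br 42 .dead .dead (.br 43 .dead .dead .dead (.br 37 .dead (.kem 2 3 29 1610612736) .dead .dead)) .dead) .dead .dead .dead) (.br 41 .dead .dead .dead (.br 40 .dead .dead (.br 39 .dead .dead .dead (.br 38 .dead .dead (.br 42 .dead (.br 36 (.br 44 .dead .dead .dead (.br 37 .dead (.kem 0 3 25 2181038080) .dead .dead)) .dead .dead .dead) .dead .dead) .dead)) .dead)) .dead) .dead .dead .dead) .dead)) .dead .dead) .dead .dead .dead) .dead .dead) .dead .dead (.br 29 .dead .dead (.br 30 .dead .dead .dead (.br 31 (.br 32 .dead (.br 33 (.br 34 .dead (.br 35 (.br 36 .dead (.br 37 .dead .dead (.br 38 .dead .dead .dead (.br 44 .dead .dead .dead .dead)) .dead) .dead .dead) (.br 36 (.br 42 .dead .dead (.br 43 .dead .dead .dead (.br 44 .dead .dead (.br 37 .dead (.br 38 .dead .dead .dead (.br 39 .dead .dead (.br 40 .dead .dead .dead (.br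 45 .dead (.br 46 (.br 47 .dead (.br 48 (.br 41 .dead .dead (.kem 0 3 28 268435456) .dead) .dead .dead .dead) .dead .dead) .dead .dead .dead) .dead .dead)) .dead)) .dead .dead) .dead)) .dead) .dead .dead .dead) .dead .dead) .dead .dead) .dead .dead .dead) .dead .dead) .dead (.br 32 (.br 33 .dead (.br 34 (.br 35 (.br 36 .dead (.br 37 (.br 42 .dead .dead (.br 43 .dead .dead .dead (.br 44 .dead .dead (.br 48 .dead (.br 41 .dead .dead (.br 40 .dead .dead .dead (.br 39 .dead .dead (.br 47 (.br 46 .dead (.br 45 .dead .dead .dead (.br 38 .dead (.kem 0 3 25 4328521728) .dead .dead)) .dead .dead) .dead .dead .dead) .dead)) .dead) .dead .dead) .dead)) .dead) .dead .dead .dead) .dead .dead) (.br 36 (.br 37 .dead (.br 38 .dead .dead .dead (.br 39 .dead .dead (.br 40 .dead .dead .dead (.br 41 .dead .dead (.br 42 .dead .dead (.br 43 .dead .dead .dead (.br 44 .dead .dead (.br 45 .dead (.kem 0 3 25 279206428672) .dead .dead) .dead)) .dead) .dead)) .dead)) .dead .dead) .dead .dead .dead) .dead .dead) .dead .dead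 .dead) .dead .dead) (.kem 0 3 25 33554432) .dead .dead) .dead)) .dead))) .dead .dead) .dead .dead .dead) .dead (.br 23 (.br 24 .dead (.br 25 (.br 28 (.br 34 .dead (.br 33 (.br 29 .dead (.br 30 .dead .dead (.br 31 .dead .dead .dead (.br 32 .dead (.br 35 .dead .dead (.br 41 .dead .dead .dead (.br 40 .dead .dead (.br 39 .dead .dead .dead (.br 42 .dead (.br 45 .dead (.br 46 (.br 47 .dead (.br 48 (.br 36 (.kem 1 3 22 541065216) .dead .dead (.br 43 .dead .dead (.br 44 .dead .dead .dead (.br 37 (.br 38 .dead .dead (.fin [(1,3,4467307053120),(2,3,8576),(0,3,359000085509137),(1,3,545357768974147),(2,3,8830723309698),(0,2,62),(1,2,71485708370960),(1,2,17871427092740),(0,1,562949953421311),(2,3,562949953421311)]) .dead) (.kem 0 3 36 68719476736) .dead .dead)) .dead)) .dead .dead .dead) .dead .dead) .dead .dead .dead) .dead .dead) .dead .dead)) .dead)) (.br 36 (.br 37 .dead (.br 41 .dead .dead (.br 40 .dead .dead .dead (.br 39 .dead .dead (.br 38 (.br 42 .dead (.br 48 (.br 47 .dead (.br 46 (.br 43 .dead .dead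 (.br 44 .dead .dead .dead (.br 45 .dead (.kem 2 3 35 3882650435584) .dead .dead)) (.br 44 .dead .dead (.br 45 .dead (.kem 2 3 35 3882650435584) .dead (.kem 1 3 45 35184372088832)) .dead)) .dead .dead .dead) .dead .dead) .dead .dead .dead) (.br 43 .dead .dead .dead (.br 44 .dead .dead (.br 45 .dead (.br 46 (.br 47 .dead (.br 48 (.kem 1 3 22 34900803584) .dead .dead .dead) .dead .dead) .dead .dead .dead) .dead (.br 46 (.kem 1 3 45 35184372088832) (.kem 0 1 46 492581209243648) .dead .dead)) .dead)) .dead) .dead .dead .dead) .dead)) .dead) .dead .dead) .dead .dead .dead)) .dead .dead)) (.br 31 .dead .dead (.br 32 .dead (.br 35 .dead .dead (.br 36 (.br 37 .dead (.br 41 .dead .dead .dead (.br 40 .dead .dead (.br 39 .dead .dead .dead (.br 38 (.kem 2 3 30 3221225472) .dead .dead .dead)) .dead)) .dead .dead) .dead .dead .dead) (.br 41 .dead .dead (.br 40 .dead .dead .dead (.br 39 .dead .dead (.br 36 (.br 37 .dead (.br 38 (.kem 2 3 30 3221225472) .dead .dead (.br 44 .dead .dead (.br 43 .dead .dead .dead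 (.br 45 .dead (.kem 0 3 38 274877906944) .dead .dead)) .dead)) .dead .dead) .dead (.br 42 .dead (.br 43 .dead .dead .dead (.br 44 .dead .dead (.br 48 (.br 47 .dead (.br 46 (.br 37 (.br 38 .dead .dead .dead (.br 45 .dead (.kem 2 3 30 30617748111360) .dead .dead)) (.kem 0 2 36 68719476736) .dead .dead) .dead .dead .dead) .dead .dead) .dead .dead .dead) .dead)) .dead .dead) .dead) .dead)) .dead)) .dead (.br 35 .dead .dead (.br 36 (.br 37 .dead (.br 38 (.br 41 .dead .dead .dead (.br 40 .dead .dead (.br 39 .dead (.br 42 .dead (.br 45 .dead .dead .dead (.br 44 .dead .dead (.br 43 .dead .dead .dead (.br 46 (.kem 1 3 32 35738422870016) .dead .dead .dead)) .dead)) .dead .dead) .dead .dead) .dead)) .dead .dead .dead) .dead .dead) .dead .dead .dead) (.br 41 .dead .dead (.br 40 .dead .dead .dead (.br 36 (.br 37 .dead (.br 38 (.br 39 .dead (.br 45 .dead .dead .dead (.br 44 .dead .dead (.br 43 .dead .dead .dead (.br 46 (.br 47 .dead (.br 48 (.br 42 .dead (.kem 2 3 35 3332894621696) (.kem 1 2 42 4398046511104)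 .dead) .dead .dead .dead) .dead .dead) .dead .dead .dead)) .dead)) (.kem 1 3 32 4294967296) .dead) .dead .dead .dead) .dead .dead) .dead (.br 42 .dead (.br 43 .dead .dead .dead (.br 44 .dead .dead (.br 48 (.br 47 .dead (.br 46 (.br 37 (.br 38 .dead (.br 39 .dead .dead (.kem 1 3 32 35463544963072) .dead) .dead .dead) (.kem 0 2 36 68719476736) .dead .dead) .dead .dead .dead) .dead .dead) .dead .dead .dead) .dead)) .dead .dead) .dead)) .dead))) .dead)) (.kem 1 3 22 4194304) .dead) .dead .dead .dead) .dead .dead) (.br 29 .dead .dead (.br 30 .dead .dead .dead (.br 31 .dead .dead (.br 34 (.br 33 .dead (.br 32 .dead .dead .dead (.br 35 (.br 36 .dead (.br 37 (.br 38 .dead (.br 42 .dead .dead (.br 43 .dead .dead .dead (.br 44 .dead .dead (.br 45 .dead .dead .dead (.kem 0 1 28 496970934255616)) .dead)) .dead) .dead .dead) .dead .dead .dead) .dead .dead) .dead .dead (.br 41 .dead .dead (.br 40 .dead .dead .dead (.br 36 (.br 37 .dead (.br 38 (.br 39 .dead .dead (.kem 0 1 28 26038239232) .dead) .dead .dead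 .dead) .dead .dead) (.br 37 (.br 38 .dead (.br 42 .dead .dead (.br 43 .dead .dead .dead (.br 44 .dead .dead (.br 45 .dead .dead .dead (.kem 0 1 28 493638039633920)) .dead)) .dead) .dead .dead) .dead .dead .dead) .dead .dead)) .dead))) .dead .dead) .dead .dead .dead) .dead)) .dead) .dead .dead) .dead .dead (.br 28 (.br 34 .dead (.br 33 (.br 32 .dead (.br 29 .dead (.br 30 .dead .dead (.br 31 (.br 35 .dead .dead (.br 41 .dead .dead .dead (.br 40 .dead .dead (.br 39 .dead .dead .dead (.br 38 .dead .dead (.br 42 .dead (.br 44 .dead .dead .dead (.br 37 .dead (.kem 0 3 25 2181038080) .dead .dead)) .dead .dead) .dead)) .dead)) (.br 36 (.br 41 .dead .dead (.br 40 .dead .dead .dead (.br 39 .dead .dead (.br 38 .dead .dead .dead (.br 37 .dead (.br 44 .dead .dead (.br 43 .dead .dead .dead (.br 45 .dead (.kem 0 3 25 277058945024) .dead .dead)) .dead) .dead .dead)) .dead)) .dead) .dead .dead .dead)) .dead .dead .dead) (.br 31 (.br 35 .dead .dead (.br 36 (.br 41 .dead .dead .dead (.br 40 .dead .dead (.br 39 .dead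 .dead .dead (.br 38 .dead .dead (.br 37 .dead (.kem 2 3 30 1073741824) .dead .dead) .dead)) .dead)) .dead .dead .dead) (.br 41 .dead .dead (.br 40 .dead .dead .dead (.br 39 .dead .dead (.br 38 .dead .dead .dead (.br 44 .dead .dead (.br 37 .dead (.br 43 .dead .dead .dead (.br 45 .dead (.br 46 (.br 47 .dead (.br 48 (.br 36 (.kem 2 3 30 1073741824) .dead (.br 42 .dead (.kem 2 3 30 30615600627712) .dead .dead) .dead) .dead .dead .dead) .dead .dead) .dead .dead .dead) .dead .dead)) .dead .dead) .dead)) .dead)) .dead)) .dead (.kem 0 3 25 33554432) .dead)) (.kem 1 3 22 4194304) .dead) .dead .dead) .dead .dead .dead) .dead .dead) (.br 29 .dead .dead (.br 30 .dead .dead .dead (.br 34 (.br 33 .dead (.br 32 (.br 31 .dead .dead (.br 35 (.br 36 .dead (.br 37 (.br 42 .dead .dead (.br 43 .dead .dead .dead (.br 44 .dead .dead (.br 48 .dead (.br 47 (.br 46 .dead (.br 45 .dead .dead .dead (.kem 0 1 28 496975229222912)) .dead .dead) .dead .dead .dead) .dead .dead) .dead)) .dead) .dead .dead .dead) .dead .dead) .dead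 .dead (.br 41 .dead .dead (.br 40 .dead .dead .dead (.br 39 .dead .dead (.br 36 (.br 37 .dead (.br 38 .dead .dead .dead (.kem 0 1 28 30333206528)) .dead .dead) (.br 37 (.br 42 .dead .dead (.br 43 .dead .dead .dead (.br 44 .dead .dead (.br 38 .dead (.kem 0 3 25 4328521728) .dead (.kem 0 1 28 30333206528)) .dead)) .dead) .dead .dead .dead) .dead .dead) .dead)) .dead)) .dead) .dead .dead .dead) .dead .dead) .dead .dead .dead)) .dead) .dead .dead)) .dead .dead) (.br 24 (.br 25 .dead .dead .dead (.br 28 (.br 29 .dead .dead (.br 30 .dead .dead .dead (.br 34 .dead (.br 33 (.br 32 .dead (.br 31 .dead .dead (.kem 0 1 23 25165824) .dead) .dead .dead) .dead .dead .dead) .dead .dead)) .dead) (.br 34 (.br 33 .dead (.br 32 (.br 29 (.br 30 .dead .dead (.br 31 .dead (.br 35 .dead .dead (.br 41 .dead .dead .dead (.br 40 .dead .dead (.br 39 .dead .dead .dead (.br 38 .dead .dead (.br 42 .dead (.br 36 .dead .dead .dead (.br 37 (.br 43 .dead .dead (.br 44 .dead .dead .dead (.kem 0 1 23 170481680384)) .dead) .dead .dead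 .dead)) .dead .dead) .dead)) .dead)) (.br 36 .dead (.br 41 .dead .dead (.br 40 .dead .dead .dead (.br 39 .dead .dead (.br 38 .dead .dead .dead (.br 37 (.br 42 .dead .dead (.br 43 .dead .dead .dead (.br 44 .dead .dead (.kem 0 1 23 239201157120) .dead)) .dead) .dead .dead .dead)) .dead)) .dead) .dead .dead)) .dead .dead) (.br 31 .dead (.br 35 .dead .dead (.br 36 .dead (.br 42 .dead .dead .dead .dead) .dead .dead) (.br 41 .dead .dead (.br 40 .dead .dead .dead (.br 39 .dead .dead (.br 38 .dead .dead .dead (.br 44 .dead .dead (.br 37 (.br 43 .dead .dead .dead (.br 45 .dead (.br 46 (.br 47 .dead (.br 48 (.br 36 .dead (.kem 2 3 30 1073741824) (.kem 0 1 23 170481680384) .dead) .dead .dead .dead) .dead .dead) .dead .dead .dead) .dead .dead)) .dead .dead .dead) .dead)) .dead)) .dead)) (.br 35 .dead .dead (.br 36 .dead (.br 42 .dead .dead .dead .dead) .dead .dead) (.br 41 .dead .dead (.br 40 .dead .dead .dead (.br 39 .dead .dead (.br 36 .dead (.br 37 (.br 42 .dead .dead (.br 43 .dead .dead .dead (.br 44 .dead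 .dead (.br 38 .dead (.br 45 .dead .dead .dead (.kem 0 1 23 511931580416)) .dead (.kem 0 1 23 237053673472)) .dead)) .dead) .dead .dead .dead) (.br 42 .dead (.br 43 .dead .dead .dead (.br 44 .dead .dead (.br 48 (.br 47 .dead (.br 46 (.br 37 (.kem 1 2 36 4466765987840) (.br 38 .dead .dead .dead (.kem 0 1 23 30895243264)) .dead .dead) .dead .dead .dead) .dead .dead) .dead .dead .dead) .dead)) .dead .dead) .dead) .dead)) .dead)) .dead)) .dead (.br 30 .dead .dead .dead (.br 31 .dead (.br 35 (.br 36 .dead (.br 42 .dead .dead (.br 43 .dead .dead .dead (.br 44 .dead .dead (.br 37 (.br 38 .dead .dead .dead (.br 39 .dead .dead (.br 40 .dead .dead .dead (.br 41 .dead .dead (.br 45 .dead (.br 46 (.br 47 .dead (.br 48 .dead .dead .dead .dead) .dead .dead) .dead .dead .dead) .dead .dead) .dead)) .dead)) .dead .dead .dead) .dead)) .dead) .dead .dead) .dead .dead (.br 41 .dead .dead (.br 40 .dead .dead .dead (.br 39 .dead .dead (.br 38 .dead .dead .dead (.br 44 .dead .dead (.br 37 (.br 36 .dead (.kem 0 2 29 536870912)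 .dead .dead) .dead .dead .dead) .dead)) .dead)) .dead)) (.kem 0 1 23 25165824) .dead)) .dead) .dead .dead .dead) .dead .dead) .dead .dead .dead) .dead .dead)) .dead .dead .dead) .dead .dead))

def t7C_7 : Tree :=
  (.br 15 (.br 16 .dead .dead (.br 17 .dead .dead .dead (.br 18 .dead .dead (.br 19 .dead (.br 21 .dead .dead (.br 27 .dead .dead .dead (.br 26 .dead .dead t7C_6 .dead)) (.br 22 .dead (.br 23 (.br 24 .dead (.br 27 .dead .dead (.br 26 .dead .dead .dead (.br 25 (.br 28 (.br 34 .dead (.br 33 (.br 29 .dead .dead (.br 30 .dead .dead .dead (.br 31 .dead .dead (.br 32 .dead (.kem 2 3 21 203423744) .dead .dead) .dead)) (.br 30 .dead .dead (.br 31 .dead .dead .dead (.br 32 .dead (.kem 2 3 21 203423744) (.br 35 .dead (.br 36 (.br 37 .dead (.br 38 (.br 42 .dead .dead (.br 43 .dead .dead .dead (.br 44 .dead .dead (.br 48 (.br 47 .dead (.br 46 (.br 39 .dead (.kem 2 3 21 8256487424) .dead (.kem 1 2 32 4294967296)) .dead .dead .dead) .dead .dead) .dead .dead .dead) .dead)) .dead) .dead .dead .dead) .dead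 .dead) .dead .dead .dead) (.br 41 .dead .dead .dead (.br 40 .dead .dead (.br 42 .dead (.br 36 (.br 37 .dead (.br 38 (.br 48 (.br 47 .dead (.br 46 (.br 39 .dead (.kem 2 3 21 3341151109120) .dead (.kem 1 2 32 4294967296)) .dead .dead .dead) .dead .dead) .dead .dead .dead) .dead .dead .dead) .dead .dead) .dead .dead .dead) .dead .dead) .dead)) .dead) .dead)) .dead)) .dead .dead .dead) .dead .dead) .dead (.br 29 .dead .dead .dead (.br 30 .dead .dead (.br 31 .dead .dead .dead (.br 32 .dead (.br 33 (.br 34 .dead (.br 35 (.br 36 .dead (.br 37 (.br 38 .dead .dead (.br 39 .dead .dead .dead (.br 40 .dead .dead (.br 41 .dead .dead .dead (.br 42 .dead .dead (.br 43 .dead .dead .dead (.br 44 .dead .dead .dead .dead)) .dead)) .dead)) .dead) .dead .dead .dead) .dead .dead) (.br 36 (.br 37 .dead (.br 42 .dead .dead (.br 43 .dead .dead .dead (.br 44 .dead .dead (.br 38 (.br 48 (.br 41 .dead .dead .dead (.kem 0 2 28 268435456)) .dead .dead .dead) .dead .dead .dead) .dead)) .dead) .dead .dead) .dead .dead .dead)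 .dead .dead) .dead .dead) .dead .dead .dead) (.br 33 (.br 34 .dead (.br 35 (.br 36 .dead (.br 37 (.br 38 .dead (.br 39 .dead .dead .dead (.br 45 .dead .dead .dead .dead)) .dead .dead) .dead .dead .dead) .dead .dead) (.br 36 (.br 37 .dead (.br 38 (.br 42 .dead .dead (.br 43 .dead .dead .dead (.br 44 .dead .dead (.br 48 (.br 41 .dead .dead .dead (.kem 0 2 28 268435456)) .dead .dead .dead) .dead)) .dead) .dead .dead .dead) .dead .dead) .dead .dead .dead) .dead .dead) .dead .dead) (.br 34 (.br 35 (.br 36 .dead (.br 37 (.br 38 .dead (.br 42 .dead .dead (.br 43 .dead .dead .dead (.br 44 .dead .dead (.br 45 .dead .dead .dead (.kem 0 1 33 496970665820160)) .dead)) .dead) .dead .dead) .dead .dead .dead) .dead .dead) (.br 36 (.br 37 .dead (.br 38 (.br 39 .dead .dead .dead (.br 40 .dead .dead (.br 41 .dead .dead .dead (.kem 0 1 33 25769803776)) .dead)) .dead .dead .dead) .dead .dead) .dead .dead .dead) .dead .dead) .dead .dead .dead) .dead .dead) .dead)) .dead)) .dead) .dead .dead .dead)) .dead) .dead .dead)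 .dead .dead .dead) .dead .dead)) .dead (.kem 1 2 13 8192)) .dead)) (.br 17 .dead .dead (.br 18 .dead .dead .dead (.br 19 .dead (.br 21 .dead .dead (.br 22 .dead (.br 23 (.br 24 .dead (.br 27 .dead .dead .dead (.br 26 .dead .dead (.br 25 (.kem 2 3 16 458752) .dead .dead .dead) .dead)) .dead .dead) .dead .dead .dead) .dead .dead) (.br 27 .dead .dead (.br 26 .dead .dead .dead (.br 22 .dead (.br 23 (.br 24 .dead (.br 25 (.kem 1 2 13 532480) .dead (.br 28 (.br 34 .dead (.br 33 (.br 32 .dead (.br 29 .dead .dead (.br 30 .dead .dead .dead (.br 31 (.kem 2 3 16 237436928) .dead .dead .dead)) (.br 30 .dead .dead (.br 31 (.kem 2 3 16 237436928) .dead .dead (.kem 0 2 25 33554432)) .dead)) .dead .dead) .dead .dead .dead) .dead .dead) .dead (.br 29 .dead .dead .dead (.br 30 .dead .dead (.br 31 (.br 32 .dead (.br 33 (.br 34 .dead (.br 35 (.br 36 .dead (.br 37 .dead .dead .dead (.br 38 .dead .dead (.br 44 .dead .dead .dead .dead) .dead)) .dead .dead) (.br 36 (.br 42 .dead .dead (.br 43 .dead .dead .dead (.br 37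 .dead (.br 44 .dead .dead (.br 38 .dead .dead .dead (.br 39 .dead .dead (.br 40 .dead .dead .dead (.br 41 (.kem 2 3 16 2116485120) .dead .dead .dead)) .dead)) .dead) .dead .dead)) .dead) .dead .dead .dead) .dead .dead) .dead .dead) .dead .dead .dead) .dead .dead) .dead .dead (.br 32 (.br 33 .dead (.br 34 (.br 35 (.br 36 .dead (.br 37 (.br 42 .dead .dead (.br 43 .dead .dead .dead (.br 44 .dead .dead (.br 38 .dead (.br 45 .dead .dead .dead (.br 39 .dead .dead (.br 40 .dead .dead .dead (.br 41 .dead (.kem 2 3 16 4263968768) .dead .dead)) .dead)) .dead .dead) .dead)) .dead) .dead .dead .dead) .dead .dead) (.br 36 (.br 37 .dead (.br 38 .dead .dead (.br 39 .dead .dead .dead (.br 40 .dead .dead (.br 41 .dead .dead .dead (.br 42 .dead .dead (.br 43 .dead .dead .dead (.br 44 .dead .dead .dead .dead)) .dead)) .dead)) .dead) .dead .dead) .dead .dead .dead) .dead .dead) .dead .dead .dead) .dead .dead) (.kem 0 2 25 33554432) .dead .dead)) .dead)) .dead) .dead) .dead .dead) .dead .dead .dead) (.br 23 (.br 24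 .dead (.br 25 (.kem 1 2 13 532480) .dead (.br 28 (.br 34 .dead (.br 33 (.br 32 .dead (.br 29 .dead (.br 30 .dead .dead (.br 31 (.kem 2 3 16 241631232) .dead .dead (.kem 0 2 25 33554432)) (.br 31 (.kem 2 3 16 241631232) .dead .dead .dead)) .dead (.kem 1 2 22 4194304)) .dead .dead) .dead .dead .dead) .dead .dead) (.br 29 .dead .dead .dead (.br 30 .dead .dead (.br 34 (.br 33 .dead (.br 32 (.br 31 .dead .dead .dead (.br 35 (.br 36 .dead (.br 37 (.br 42 .dead .dead (.br 43 .dead .dead .dead (.br 44 .dead .dead (.br 38 .dead (.kem 2 3 16 3999727616) .dead .dead) .dead)) .dead) .dead .dead .dead) .dead .dead) .dead (.br 41 .dead .dead .dead (.br 40 .dead .dead (.br 39 .dead .dead .dead (.br 42 .dead (.br 36 (.br 37 .dead (.br 38 .dead .dead (.kem 0 1 28 30333206528) .dead) .dead .dead) .dead .dead .dead) .dead .dead)) .dead)) .dead)) .dead .dead .dead) .dead .dead) .dead .dead .dead) .dead)) .dead .dead) .dead) .dead .dead) (.br 24 (.br 25 .dead .dead (.br 28 (.br 29 .dead .dead .dead (.br 30 .dead .dead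 (.br 34 .dead (.br 33 (.br 32 .dead (.br 31 .dead .dead .dead (.kem 0 1 23 25165824)) .dead .dead) .dead .dead .dead) .dead .dead) .dead)) (.br 34 (.br 33 .dead (.br 32 (.br 29 (.br 30 .dead .dead (.br 31 .dead (.kem 2 3 16 241631232) .dead (.kem 1 2 13 34086912)) (.br 31 .dead (.kem 2 3 16 241631232) .dead .dead)) .dead .dead (.br 30 .dead .dead (.br 31 .dead (.br 35 (.br 36 .dead (.br 42 .dead .dead (.br 43 .dead .dead .dead (.br 37 (.kem 2 3 16 1852243968) .dead .dead .dead)) .dead) .dead .dead) .dead (.br 41 .dead .dead .dead (.br 40 .dead .dead (.br 39 .dead .dead .dead (.br 38 .dead .dead (.br 42 .dead (.br 36 (.br 37 .dead .dead .dead (.kem 0 1 23 32505856000)) .dead .dead .dead) .dead .dead) .dead)) .dead)) .dead) .dead (.kem 1 2 13 34086912)) .dead)) .dead .dead .dead) .dead .dead) .dead .dead .dead) .dead .dead) .dead) .dead .dead .dead) .dead .dead) .dead)) .dead)) .dead .dead)) .dead)) .dead .dead (.br 16 .dead .dead (.br 17 .dead .dead .dead (.br 18 .dead .dead (.br 19 .dead (.br 21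 (.br 22 .dead (.br 23 (.br 24 .dead (.br 25 (.br 26 .dead .dead (.br 27 .dead .dead .dead (.br 28 .dead .dead (.br 29 .dead .dead .dead (.br 30 .dead .dead (.br 31 .dead .dead .dead (.br 32 .dead (.br 33 (.br 34 .dead (.br 35 (.br 36 .dead (.br 37 (.br 38 .dead .dead (.br 39 .dead .dead .dead (.br 40 .dead .dead (.br 41 .dead .dead .dead (.br 42 .dead .dead (.br 43 .dead .dead .dead (.br 44 .dead .dead .dead .dead)) .dead)) .dead)) .dead) .dead .dead .dead) .dead .dead) (.br 36 (.br 37 .dead (.br 42 .dead .dead (.br 43 .dead .dead .dead (.br 44 .dead .dead (.br 38 (.br 48 (.br 41 .dead .dead .dead (.br 40 .dead .dead (.br 39 .dead .dead .dead (.br 45 .dead (.br 46 (.br 47 .dead (.fin [(1,3,187662845790866),(2,3,199201946692458),(1,3,134217728),(0,2,528280977415751),(0,1,8935714586754),(1,3,21584123756802),(1,2,71485708370960),(0,2,562949953421311),(1,3,562949953421311)]) .dead .dead) .dead .dead .dead) .dead .dead)) .dead)) .dead .dead .dead) .dead .dead .dead) .dead)) .dead) .dead .dead) .dead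 .dead .dead) .dead .dead) .dead .dead) .dead .dead .dead) .dead .dead)) .dead)) (.br 29 .dead .dead (.br 30 .dead .dead .dead (.br 31 .dead .dead (.br 32 .dead (.br 33 (.br 34 .dead (.br 35 (.br 36 .dead (.br 37 (.br 38 .dead .dead .dead (.br 39 .dead .dead (.br 40 .dead .dead .dead (.br 41 .dead .dead (.br 42 .dead .dead (.br 43 .dead .dead .dead (.br 44 .dead .dead (.br 45 .dead (.br 46 (.br 47 .dead (.br 48 .dead .dead .dead .dead) .dead .dead) .dead .dead .dead) .dead .dead) .dead)) .dead) .dead)) .dead)) .dead .dead .dead) .dead .dead) (.br 36 (.br 37 .dead (.br 42 .dead .dead (.br 43 .dead .dead .dead (.br 44 .dead .dead (.br 48 (.br 41 .dead .dead (.br 40 .dead .dead .dead (.br 39 .dead .dead (.br 47 .dead (.br 46 (.br 38 (.br 45 .dead (.kem 2 3 28 3852317229056) .dead (.kem 1 3 45 35184372088832)) .dead .dead (.br 45 .dead (.kem 0 3 38 274877906944) .dead .dead)) .dead .dead .dead) .dead .dead) .dead)) .dead) .dead .dead .dead) .dead)) .dead) .dead .dead) .dead .dead .dead) .dead .dead)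 (.br 35 (.br 36 .dead (.br 37 (.br 38 .dead .dead .dead (.br 39 .dead .dead (.br 41 .dead (.br 48 .dead .dead .dead .dead) .dead .dead) .dead)) .dead .dead .dead) .dead .dead) (.br 36 (.br 37 .dead (.br 41 (.br 48 .dead .dead .dead .dead) .dead .dead .dead) .dead .dead) .dead .dead .dead) .dead .dead) .dead) .dead .dead .dead) .dead (.br 33 (.br 34 .dead (.br 35 (.br 36 .dead (.br 37 (.br 38 .dead (.br 39 .dead .dead (.br 40 .dead .dead .dead (.br 41 .dead .dead (.br 42 .dead .dead (.br 43 .dead .dead .dead (.br 44 .dead .dead (.br 45 .dead .dead .dead (.br 48 .dead (.br 47 (.br 46 .dead (.fin [(0,3,150819298251985),(0,2,30786326077948),(1,2,67633152),(1,3,7680),(2,3,8935714586817),(1,2,7),(0,2,21584123756802),(1,2,71485708370960),(0,1,562949953421311),(2,3,562949953421311)]) .dead .dead) .dead .dead .dead) .dead .dead)) .dead)) .dead) .dead)) .dead) .dead .dead) .dead .dead .dead) .dead .dead) (.br 36 (.br 37 .dead (.br 38 (.br 42 .dead .dead (.br 43 .dead .dead .dead (.br 44 .dead .dead (.br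 48 (.br 41 .dead .dead (.br 40 .dead .dead .dead (.br 47 .dead (.br 46 (.br 39 .dead (.br 45 .dead .dead .dead (.fin [(2,3,65970698166776),(1,2,151924288703122),(0,2,528280977415751),(0,1,8935714586754),(1,3,21584123756802),(1,2,71485708370960),(0,2,562949953421311),(1,3,562949953421311)])) (.kem 1 3 32 4294967296) .dead) .dead .dead .dead) .dead .dead)) .dead) .dead .dead .dead) .dead)) .dead) .dead .dead .dead) .dead .dead) .dead .dead .dead) .dead .dead) (.br 35 (.br 36 .dead (.br 37 (.br 38 .dead (.br 39 .dead .dead (.br 41 .dead (.br 48 .dead .dead .dead .dead) .dead .dead) .dead) .dead .dead) .dead .dead .dead) .dead .dead) (.br 36 (.br 37 .dead (.br 38 (.br 41 (.br 48 .dead .dead .dead .dead) .dead .dead .dead) .dead .dead .dead) .dead .dead) .dead .dead .dead) .dead .dead) .dead) (.br 34 .dead .dead (.br 35 (.br 36 .dead (.br 37 (.br 38 .dead (.br 41 .dead (.br 48 .dead .dead .dead .dead) .dead .dead) .dead .dead) .dead .dead .dead) .dead .dead) (.br 36 (.br 37 .dead (.br 38 (.br 39 .dead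 .dead (.br 41 (.br 48 .dead .dead .dead .dead) .dead .dead .dead) .dead) .dead .dead .dead) .dead .dead) .dead .dead .dead) .dead .dead) .dead) .dead .dead)) .dead)) .dead))) (.br 27 .dead .dead (.br 28 .dead .dead (.br 29 .dead .dead .dead (.br 30 .dead .dead (.br 31 .dead .dead .dead (.br 32 .dead (.br 33 (.br 34 .dead (.kem 0 3 15 2129920) .dead (.br 35 (.br 36 .dead (.br 37 (.br 38 .dead .dead (.br 39 .dead .dead .dead (.br 41 .dead (.br 48 .dead .dead .dead .dead) .dead .dead)) .dead) .dead .dead .dead) .dead .dead) (.br 36 (.br 37 .dead (.br 41 (.br 48 .dead .dead .dead .dead) .dead .dead .dead) .dead .dead) .dead .dead .dead) .dead .dead)) .dead .dead .dead) (.br 33 (.br 34 .dead (.kem 0 3 15 2129920) .dead (.br 35 (.br 36 .dead (.br 37 (.br 38 .dead (.br 39 .dead .dead .dead (.br 45 .dead .dead .dead .dead)) .dead .dead) .dead .dead .dead) .dead .dead) (.br 36 (.br 37 .dead (.br 38 (.br 41 (.br 48 .dead .dead .dead .dead) .dead .dead .dead) .dead .dead .dead) .dead .dead) .dead .dead .dead)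 .dead .dead)) (.br 34 .dead .dead .dead (.br 35 (.br 36 .dead (.br 37 (.br 38 .dead (.br 41 .dead (.br 48 .dead .dead .dead .dead) .dead .dead) .dead .dead) .dead .dead .dead) .dead .dead) (.br 36 (.br 37 .dead (.br 38 (.br 39 .dead .dead .dead (.br 41 (.br 48 .dead .dead .dead .dead) .dead .dead .dead)) .dead .dead .dead) .dead .dead) .dead .dead .dead) .dead .dead)) .dead .dead) .dead)) .dead)) (.br 29 .dead .dead (.br 30 .dead .dead .dead (.br 31 .dead .dead (.br 32 .dead (.br 33 (.br 34 .dead (.kem 2 3 26 201326592) .dead .dead) .dead .dead .dead) .dead .dead) .dead)) .dead)) .dead)) .dead .dead (.br 26 .dead .dead (.br 27 .dead .dead .dead (.br 28 .dead .dead (.br 29 .dead .dead .dead (.br 30 .dead .dead (.br 31 (.br 32 .dead (.br 33 (.br 34 .dead (.br 35 (.br 36 .dead (.br 37 .dead .dead .dead (.br 38 .dead .dead (.br 44 .dead .dead .dead .dead) .dead)) .dead .dead) (.br 36 (.br 42 .dead .dead (.br 43 .dead .dead .dead (.br 37 .dead (.br 44 .dead .dead (.br 38 .dead .dead .dead (.br 39 .dead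 .dead (.br 40 .dead .dead .dead (.br 41 (.br 48 .dead .dead .dead .dead) .dead .dead .dead)) .dead)) .dead) .dead .dead)) .dead) .dead .dead .dead) .dead .dead) .dead .dead) .dead .dead .dead) .dead .dead) .dead .dead .dead) .dead)) (.br 29 .dead .dead (.br 30 .dead .dead .dead (.br 31 (.br 32 .dead (.br 33 (.br 34 .dead (.br 35 (.br 36 .dead (.br 37 .dead .dead (.br 38 .dead .dead .dead (.br 44 .dead .dead .dead .dead)) .dead) .dead .dead) (.br 36 (.br 42 .dead .dead (.br 43 .dead .dead .dead (.br 44 .dead .dead (.br 37 .dead (.br 38 .dead .dead .dead (.br 39 .dead .dead (.br 40 .dead .dead .dead (.br 45 .dead (.br 46 (.br 47 .dead (.br 48 (.br 41 .dead .dead (.fin [(0,3,362095181993169),(2,3,359068469638185),(1,2,545598287142659),(2,3,183112248928808),(0,3,177342868261396),(2,3,235388928),(1,3,71485708370960),(1,3,17871427092740),(0,1,562949953421311),(1,2,562949953421311)]) .dead) .dead .dead .dead) .dead .dead) .dead .dead .dead) .dead .dead)) .dead)) .dead .dead) .dead)) .dead) .dead .dead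 .dead) .dead .dead) (.br 35 (.br 36 .dead (.br 37 .dead .dead (.br 38 .dead .dead .dead (.br 44 .dead .dead .dead .dead)) .dead) .dead .dead) (.br 36 (.br 41 (.br 48 .dead .dead .dead .dead) .dead .dead .dead) .dead .dead .dead) .dead .dead) .dead) .dead .dead .dead) .dead .dead) .dead (.br 32 (.br 33 .dead (.br 34 .dead .dead (.br 35 (.br 36 .dead (.br 37 (.br 41 .dead (.br 48 .dead .dead .dead .dead) .dead .dead) .dead .dead .dead) .dead .dead) (.br 36 (.br 37 .dead (.br 38 .dead .dead .dead (.br 39 .dead .dead (.br 41 (.br 48 .dead .dead .dead .dead) .dead .dead .dead) .dead)) .dead .dead) .dead .dead .dead) .dead .dead) .dead) .dead .dead) (.kem 0 3 25 33554432) .dead .dead) .dead)) .dead))) .dead)) .dead .dead) .dead .dead .dead) .dead .dead) .dead (.br 27 .dead .dead .dead (.br 26 .dead .dead (.br 22 (.br 23 .dead (.br 24 (.br 25 .dead .dead .dead (.br 28 .dead (.br 34 (.br 33 .dead (.br 32 (.br 29 .dead .dead (.kem 0 3 15 4227072) (.br 30 .dead .dead (.br 31 .dead (.br 35 (.br 36 .dead (.br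 42 .dead .dead (.br 43 .dead .dead .dead (.br 37 (.kem 2 3 29 1610612736) .dead .dead .dead)) .dead) .dead .dead) .dead (.br 41 .dead .dead .dead (.br 40 .dead .dead (.br 39 .dead .dead .dead (.br 38 .dead .dead (.br 42 .dead (.br 36 (.br 37 .dead .dead .dead (.br 44 .dead .dead .dead .dead)) .dead .dead .dead) .dead .dead) .dead)) .dead)) .dead) .dead .dead) .dead)) .dead .dead .dead) .dead .dead) .dead .dead .dead) .dead (.br 29 .dead .dead (.br 30 .dead .dead .dead (.br 31 .dead (.br 32 (.br 33 .dead (.br 34 (.br 35 (.br 36 .dead (.br 42 .dead .dead (.br 43 .dead .dead .dead (.br 44 .dead .dead (.br 37 (.br 38 .dead .dead .dead (.br 39 .dead .dead (.br 40 .dead .dead .dead (.br 45 .dead (.br 46 (.br 47 .dead (.br 48 .dead .dead .dead .dead) .dead .dead) .dead .dead .dead) .dead .dead)) .dead)) .dead .dead .dead) .dead)) .dead) .dead .dead) (.br 36 (.br 37 .dead .dead (.br 38 .dead .dead .dead (.br 44 .dead .dead .dead .dead)) .dead) .dead .dead .dead) .dead .dead) .dead .dead .dead) .dead .dead)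 .dead .dead .dead) (.br 32 (.br 33 .dead (.br 34 (.br 35 (.br 36 .dead (.br 37 (.br 42 .dead .dead (.br 43 .dead .dead .dead (.br 44 .dead .dead (.br 48 .dead (.br 41 .dead .dead (.kem 1 3 28 268435456) .dead) .dead .dead) .dead)) .dead) .dead .dead .dead) .dead .dead) (.br 36 (.br 37 .dead (.br 38 .dead .dead .dead (.br 39 .dead .dead (.br 40 .dead .dead .dead (.br 41 .dead .dead (.br 42 .dead .dead (.br 43 .dead .dead .dead (.br 44 .dead .dead (.br 45 .dead (.br 46 (.br 47 .dead (.br 48 (.kem 1 3 28 34628173824) .dead .dead .dead) .dead .dead) .dead .dead .dead) .dead .dead) .dead)) .dead) .dead)) .dead)) .dead .dead) .dead .dead .dead) .dead .dead) .dead .dead .dead) .dead .dead) (.br 33 (.br 34 .dead (.br 35 (.br 36 .dead (.br 37 (.br 38 .dead .dead .dead (.br 39 .dead .dead (.br 40 .dead .dead .dead (.br 41 .dead .dead (.kem 0 1 32 30064771072) .dead)) .dead)) .dead .dead .dead) .dead .dead) (.br 36 (.br 37 .dead (.br 42 .dead .dead (.br 43 .dead .dead .dead (.br 44 .dead .dead (.br 48 (.br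 41 .dead .dead (.kem 0 3 15 272662528) .dead) .dead .dead .dead) .dead)) .dead) .dead .dead) .dead .dead .dead) .dead .dead) .dead .dead) .dead .dead .dead) .dead .dead) .dead)) .dead))) .dead .dead .dead) .dead .dead) (.kem 0 3 15 32768) .dead .dead) .dead)) .dead) .dead (.kem 1 2 13 8192)) .dead)) .dead))

def t7C_8 : Tree :=
  (.br 21 .dead .dead (.br 22 .dead .dead .dead (.br 23 (.br 24 .dead (.br 25 (.br 27 .dead .dead .dead (.br 26 .dead (.br 28 (.br 34 .dead (.br 29 .dead (.br 30 .dead .dead (.br 31 .dead .dead .dead (.br 32 .dead .dead (.br 33 (.br 35 .dead .dead (.br 41 .dead .dead .dead (.br 40 .dead .dead (.br 42 .dead (.br 48 (.br 47 .dead (.br 46 (.br 36 (.kem 1 3 9 541131264) .dead .dead (.br 43 .dead .dead (.br 44 .dead .dead .dead (.br 45 .dead (.br 38 (.br 37 .dead (.kem 0 3 36 68719476736) .dead .dead) .dead .dead .dead) .dead .dead)) .dead)) .dead .dead .dead) .dead .dead) .dead .dead .dead) .dead .dead) .dead)) (.br 36 (.br 37 .dead (.br 38 (.br 41 .dead .dead (.br 40 .dead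 .dead .dead (.br 39 .dead (.br 45 .dead .dead .dead (.br 44 .dead .dead (.br 43 .dead .dead .dead (.br 46 (.br 47 .dead (.br 48 (.br 42 .dead (.kem 2 3 35 3332894621696) (.kem 1 3 9 34900869632) .dead) .dead .dead .dead) .dead .dead) .dead .dead .dead)) .dead)) .dead .dead)) .dead) .dead .dead .dead) .dead .dead) .dead .dead .dead)) .dead .dead .dead) .dead)) (.br 31 .dead .dead (.br 32 .dead .dead .dead (.br 33 (.br 35 .dead .dead (.br 36 (.br 37 .dead (.br 38 (.br 41 .dead .dead .dead (.br 40 .dead .dead (.br 39 .dead (.kem 2 3 30 7516192768) .dead .dead) .dead)) .dead .dead .dead) .dead .dead) .dead .dead .dead) (.br 41 .dead .dead (.br 40 .dead .dead .dead (.br 36 (.br 37 .dead (.br 38 (.br 39 .dead (.kem 2 3 30 7516192768) (.br 42 .dead (.br 48 (.br 47 .dead (.br 46 (.br 43 .dead .dead (.br 44 .dead .dead .dead (.br 45 .dead (.kem 2 3 30 3890166628352) .dead .dead)) (.br 44 .dead .dead (.br 45 .dead (.kem 2 3 30 3890166628352) .dead (.kem 1 2 39 549755813888)) .dead)) .dead .dead .dead) .dead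 .dead) .dead .dead .dead) (.br 43 .dead .dead .dead (.br 44 .dead .dead (.br 45 .dead (.br 46 (.br 47 .dead (.br 48 (.kem 1 2 42 4398046511104) .dead .dead .dead) .dead .dead) .dead .dead .dead) .dead (.br 46 (.kem 1 2 39 549755813888) (.kem 0 1 46 492581209243648) .dead .dead)) .dead)) .dead) .dead) .dead .dead .dead) .dead .dead) .dead (.br 42 .dead (.br 43 .dead .dead .dead (.br 44 .dead .dead (.br 48 (.br 47 .dead (.br 46 (.br 37 (.br 38 .dead (.br 39 .dead .dead (.br 45 .dead .dead .dead (.fin [(2,3,140509184),(1,3,155084308900050),(0,3,30928797696),(2,3,2181570560),(1,3,13228769820866),(0,1,285873023221767),(0,2,22196932083970),(0,1,69810262016),(0,1,562949953421311),(1,2,562949953421311),(2,3,562949953421311)])) .dead) .dead .dead) (.kem 0 2 36 68719476736) .dead .dead) .dead .dead .dead) .dead .dead) .dead .dead .dead) .dead)) .dead .dead) .dead)) .dead)) .dead (.br 35 .dead .dead (.br 36 (.br 37 .dead (.br 38 (.br 39 .dead (.br 41 .dead .dead .dead (.br 40 (.br 46 .dead .dead .dead .dead)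 .dead .dead .dead)) .dead .dead) .dead .dead .dead) .dead .dead) .dead .dead .dead) (.br 41 .dead .dead (.br 36 (.br 37 .dead (.br 38 (.br 39 .dead (.br 45 .dead .dead .dead (.br 44 .dead .dead (.br 43 .dead .dead .dead (.br 46 (.br 40 .dead .dead .dead (.kem 0 2 33 8589934592)) .dead .dead .dead)) .dead)) .dead .dead) .dead .dead .dead) .dead .dead) .dead (.br 42 .dead (.br 43 .dead .dead .dead (.br 44 .dead .dead (.br 48 (.br 47 .dead (.br 46 (.br 39 .dead (.br 38 (.br 37 .dead (.kem 0 2 36 68719476736) .dead .dead) .dead .dead .dead) .dead .dead) .dead .dead .dead) .dead .dead) .dead .dead .dead) .dead)) .dead .dead) .dead) .dead)) .dead)) .dead)) (.kem 1 3 9 4260352) .dead) .dead .dead) (.br 29 .dead .dead (.br 30 .dead .dead .dead (.br 31 .dead .dead (.br 32 .dead .dead .dead (.br 34 (.br 33 .dead .dead (.br 35 (.br 36 .dead (.br 37 (.br 38 .dead (.br 39 (.br 42 .dead .dead (.br 43 .dead .dead .dead (.br 44 .dead .dead (.br 45 .dead .dead .dead (.kem 0 1 28 496962344321024)) .dead)) .dead)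 .dead .dead .dead) .dead .dead) .dead .dead .dead) .dead .dead) .dead .dead (.br 41 .dead .dead (.br 36 (.br 37 .dead (.br 38 (.br 39 .dead (.br 40 .dead .dead .dead (.kem 0 1 28 17448304640)) .dead .dead) .dead .dead .dead) .dead .dead) (.br 37 (.br 38 .dead (.br 39 (.br 42 .dead .dead (.br 43 .dead .dead .dead (.br 44 .dead .dead (.br 45 .dead .dead .dead (.kem 0 1 28 494728961327104)) .dead)) .dead) .dead .dead .dead) .dead .dead) .dead .dead .dead) .dead .dead) .dead)) .dead) .dead .dead .dead)) .dead)) .dead) .dead .dead) .dead .dead)) .dead .dead .dead) .dead .dead) .dead .dead .dead)) (.br 22 .dead .dead (.br 27 .dead .dead (.br 23 (.kem 1 3 9 66048) .dead .dead (.br 24 (.br 25 .dead (.br 26 .dead .dead .dead (.br 28 (.br 29 .dead (.br 30 .dead .dead (.br 31 .dead .dead .dead (.br 34 .dead (.br 33 (.br 32 .dead .dead (.br 35 .dead .dead (.br 41 .dead .dead .dead (.br 40 .dead .dead (.br 42 .dead (.br 48 (.br 47 .dead (.br 46 (.br 36 (.kem 1 3 9 545325568) .dead .dead (.br 43 .dead .dead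 (.br 44 .dead .dead .dead (.br 45 .dead (.br 38 (.br 37 .dead (.kem 0 3 36 68719476736) .dead .dead) .dead .dead .dead) .dead .dead)) .dead)) .dead .dead .dead) .dead .dead) .dead .dead .dead) .dead .dead) .dead)) (.br 36 (.br 37 .dead (.br 38 (.br 41 .dead .dead (.br 40 .dead .dead .dead (.br 39 .dead (.br 45 .dead .dead .dead (.br 44 .dead .dead (.br 43 .dead .dead .dead (.br 46 (.br 47 .dead (.br 48 (.br 42 .dead (.kem 2 3 35 3332894621696) (.kem 1 3 9 34905063936) .dead) .dead .dead .dead) .dead .dead) .dead .dead .dead)) .dead)) .dead .dead)) .dead) .dead .dead .dead) .dead .dead) .dead .dead .dead)) .dead) .dead .dead .dead) .dead .dead)) .dead) .dead .dead) (.br 29 (.br 34 (.br 33 .dead (.br 30 .dead (.br 31 .dead .dead (.br 32 (.br 35 .dead .dead (.br 36 .dead .dead .dead (.br 37 (.br 41 .dead .dead .dead (.br 40 .dead .dead (.br 39 .dead .dead .dead (.br 38 .dead (.br 45 .dead .dead .dead .dead) .dead .dead)) .dead)) .dead .dead .dead)) (.br 36 .dead .dead (.br 41 .dead .dead (.br 40 .dead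 .dead .dead (.br 39 .dead .dead (.br 42 .dead (.br 43 .dead .dead .dead (.br 37 (.kem 1 3 9 1082196480) .dead .dead .dead)) .dead .dead) .dead)) .dead) .dead)) .dead .dead .dead) (.br 32 (.br 35 .dead .dead (.br 36 .dead .dead .dead (.br 41 .dead .dead .dead (.br 40 .dead .dead (.br 39 .dead .dead .dead (.br 42 .dead (.br 43 .dead .dead (.br 37 (.br 44 .dead .dead .dead (.br 45 .dead (.br 38 .dead .dead (.br 46 (.br 47 .dead (.br 48 (.kem 2 3 31 30616674369536) .dead .dead .dead) .dead .dead) .dead .dead .dead) .dead) .dead .dead)) .dead .dead .dead) .dead) .dead .dead)) .dead))) (.br 36 .dead .dead (.br 37 (.br 41 .dead .dead (.br 40 .dead .dead .dead (.br 39 .dead .dead (.br 38 .dead (.kem 2 3 31 2147483648) .dead .dead) .dead)) .dead) .dead .dead .dead) .dead)) .dead (.br 35 .dead .dead (.br 36 .dead .dead .dead (.br 41 .dead .dead .dead (.br 40 .dead .dead (.br 42 .dead (.br 43 .dead .dead (.br 37 (.br 38 .dead (.br 44 .dead .dead .dead (.br 45 .dead .dead .dead .dead)) .dead .dead) .dead .dead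 .dead) .dead) .dead .dead) .dead))) (.br 36 .dead .dead (.br 37 (.br 38 .dead (.br 41 .dead .dead (.br 40 .dead .dead .dead (.br 39 (.br 42 .dead (.br 43 .dead .dead .dead (.br 44 .dead .dead (.br 45 .dead .dead .dead (.br 46 .dead (.kem 0 2 32 554050781184) .dead .dead)) .dead)) .dead .dead) .dead .dead .dead)) .dead) .dead .dead) .dead .dead .dead) .dead)) .dead)) (.kem 1 3 9 8454656) .dead) .dead .dead) .dead .dead .dead) .dead .dead .dead) .dead .dead)) .dead .dead) (.br 25 (.br 26 .dead (.br 28 (.br 29 .dead (.br 34 .dead (.br 30 (.br 31 .dead .dead (.br 32 .dead .dead .dead (.br 33 (.br 35 .dead .dead (.br 36 .dead .dead .dead (.br 37 .dead (.br 38 (.br 41 .dead .dead .dead (.br 40 .dead .dead (.br 39 .dead (.br 42 .dead (.br 43 .dead .dead (.kem 0 3 23 69801607168) .dead) .dead .dead) .dead .dead) .dead)) .dead .dead .dead) .dead .dead)) (.br 36 .dead .dead (.br 41 .dead .dead (.br 40 .dead .dead .dead (.br 42 .dead (.br 43 .dead .dead .dead (.br 37 .dead (.kem 0 3 23 1082130432) .dead .dead))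 .dead .dead)) .dead) .dead)) .dead .dead .dead)) (.br 32 .dead .dead (.br 33 (.br 35 .dead .dead (.br 36 .dead .dead .dead (.br 41 .dead .dead .dead (.br 40 .dead .dead (.br 42 .dead (.br 43 .dead .dead (.br 37 .dead (.br 38 (.br 44 .dead .dead .dead (.br 45 .dead (.br 39 .dead .dead .dead (.br 46 (.br 47 .dead (.br 48 (.kem 2 3 31 30346091429888) .dead .dead .dead) .dead .dead) .dead .dead .dead)) .dead .dead)) .dead .dead .dead) .dead .dead) .dead) .dead .dead) .dead))) (.br 36 .dead .dead (.br 37 .dead (.br 38 (.br 41 .dead .dead (.br 40 .dead .dead .dead (.br 39 .dead (.kem 2 3 31 6442450944) .dead .dead)) .dead) .dead .dead .dead) .dead .dead) .dead)) .dead .dead (.br 35 .dead .dead (.br 36 .dead .dead .dead (.br 41 .dead .dead .dead (.br 42 .dead (.br 43 .dead .dead (.br 37 .dead (.br 38 (.br 39 .dead (.br 44 .dead .dead .dead (.br 45 .dead .dead .dead .dead)) .dead .dead) .dead .dead .dead) .dead .dead) .dead) .dead .dead))) (.br 36 .dead .dead (.br 37 .dead (.br 38 (.br 39 .dead (.br 41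 .dead .dead (.br 40 (.br 46 .dead .dead .dead .dead) .dead .dead .dead) .dead) .dead .dead) .dead .dead .dead) .dead .dead) .dead))) .dead)) .dead (.kem 0 3 23 8388608) .dead) .dead .dead) .dead .dead) (.br 29 (.br 30 .dead .dead (.br 31 .dead .dead .dead (.br 32 .dead .dead (.br 34 (.br 33 .dead .dead .dead (.br 35 .dead .dead (.br 41 .dead .dead .dead (.br 42 .dead (.br 36 .dead .dead .dead (.br 43 .dead .dead (.br 44 .dead .dead .dead (.br 45 .dead (.br 38 (.br 39 .dead .dead .dead .dead) .dead .dead .dead) .dead .dead)) .dead)) .dead .dead)) (.br 36 .dead (.br 37 (.br 38 .dead (.br 39 (.br 41 .dead .dead (.br 40 .dead (.br 46 .dead .dead .dead .dead) .dead .dead) .dead) .dead .dead .dead) .dead .dead) .dead .dead .dead) .dead .dead))) .dead .dead .dead) .dead)) .dead) .dead .dead .dead) .dead .dead) .dead (.br 28 (.br 29 .dead (.br 34 .dead (.br 33 (.br 30 (.br 31 .dead .dead (.br 32 .dead (.br 35 .dead .dead (.br 36 .dead .dead .dead (.br 37 .dead (.br 41 .dead .dead .dead (.br 40 .dead .dead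 (.br 39 .dead .dead .dead (.br 38 (.br 42 .dead (.br 43 .dead .dead (.kem 0 3 23 69801607168) .dead) .dead .dead) .dead .dead .dead)) .dead)) .dead .dead)) (.br 36 .dead .dead (.br 41 .dead .dead (.br 40 .dead .dead .dead (.br 39 .dead .dead (.br 42 .dead (.br 43 .dead .dead .dead (.br 37 .dead (.kem 0 3 23 1082130432) .dead .dead)) .dead .dead) .dead)) .dead) .dead)) .dead .dead) (.br 32 .dead (.br 35 .dead .dead (.br 36 .dead .dead .dead (.br 41 .dead .dead .dead (.br 40 .dead .dead (.br 39 .dead .dead .dead (.br 42 .dead (.br 43 .dead .dead (.br 37 .dead (.br 44 .dead .dead .dead (.br 45 .dead (.br 46 (.br 47 .dead (.br 48 (.kem 2 3 31 30616674369536) .dead .dead .dead) .dead .dead) .dead .dead .dead) .dead .dead)) .dead .dead) .dead) .dead .dead)) .dead))) (.br 36 .dead .dead (.br 37 .dead (.br 41 .dead .dead (.br 40 .dead .dead .dead (.br 39 .dead .dead (.br 38 (.kem 2 3 31 2147483648) .dead .dead .dead) .dead)) .dead) .dead .dead) .dead)) (.kem 1 3 26 67108864) .dead)) .dead (.kem 0 3 23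 8388608) .dead) .dead .dead .dead) .dead .dead) .dead .dead) (.br 29 (.br 30 .dead .dead (.br 31 .dead .dead .dead (.br 34 (.br 33 .dead (.br 32 .dead .dead (.kem 0 1 24 50331648) .dead) .dead .dead) .dead .dead .dead)) .dead) .dead .dead .dead) .dead .dead)) .dead .dead .dead) .dead .dead)) .dead) .dead))

def t7C_9 : Tree :=
  (.br 21 .dead .dead (.br 22 .dead .dead .dead (.br 23 (.br 24 .dead (.br 25 (.br 26 .dead (.br 27 (.br 28 (.br 29 .dead (.br 30 .dead .dead (.br 31 .dead .dead .dead (.br 32 .dead .dead (.br 33 .dead .dead .dead (.br 34 .dead (.br 35 .dead .dead (.br 41 .dead .dead .dead (.br 42 .dead (.br 48 (.br 47 .dead (.br 46 (.br 39 .dead (.br 38 (.br 37 .dead (.br 40 .dead .dead (.br 45 .dead .dead .dead (.br 44 .dead .dead (.br 43 .dead .dead .dead (.br 36 (.fin [(1,2,65536),(1,3,541065216),(0,1,498010047921159),(0,3,142937325438992),(2,3,203425767558120),(0,3,56),(1,3,71485708370960),(0,1,562949953421311)]) .dead .dead .dead)) .dead)) .dead) .dead .dead) .dead .dead .dead) .dead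 .dead) .dead .dead .dead) .dead .dead) .dead .dead .dead) .dead .dead)) (.br 36 (.br 37 .dead (.br 38 (.br 39 .dead (.br 41 .dead .dead (.br 40 (.br 46 .dead .dead .dead .dead) .dead .dead .dead) .dead) .dead .dead) .dead .dead .dead) .dead .dead) .dead .dead .dead)) .dead .dead)) .dead)) (.br 31 .dead .dead (.br 32 .dead .dead .dead (.br 33 .dead .dead (.br 34 .dead (.br 35 .dead .dead (.br 36 (.br 37 .dead (.br 38 (.br 39 .dead (.br 41 .dead .dead .dead (.br 40 (.kem 2 3 30 16106127360) .dead .dead .dead)) .dead .dead) .dead .dead .dead) .dead .dead) .dead .dead .dead) (.br 41 .dead .dead (.br 36 (.br 37 .dead (.br 38 (.br 39 .dead (.br 45 .dead .dead .dead (.br 44 .dead .dead (.br 43 .dead .dead .dead (.br 46 (.br 40 .dead .dead .dead (.br 47 .dead (.br 48 (.br 42 .dead (.kem 2 3 30 3349000749056) (.kem 1 2 42 4398046511104) .dead) .dead .dead .dead) .dead .dead)) .dead .dead .dead)) .dead)) .dead .dead) .dead .dead .dead) .dead .dead) .dead (.br 42 .dead (.br 43 .dead .dead .dead (.br 44 .dead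 .dead (.br 48 (.br 47 .dead (.br 46 (.br 39 .dead (.br 38 (.br 37 .dead (.kem 0 2 36 68719476736) .dead .dead) .dead .dead .dead) .dead .dead) .dead .dead .dead) .dead .dead) .dead .dead .dead) .dead)) .dead .dead) .dead) .dead)) .dead (.br 35 .dead .dead (.br 36 (.br 37 .dead (.br 38 (.br 39 .dead (.br 40 (.br 46 .dead .dead .dead .dead) .dead .dead .dead) .dead .dead) .dead .dead .dead) .dead .dead) .dead .dead .dead) (.br 36 (.br 37 .dead (.br 38 (.br 39 .dead (.br 40 (.br 46 .dead .dead .dead .dead) .dead .dead .dead) .dead .dead) .dead .dead .dead) .dead .dead) .dead (.br 42 .dead (.br 43 .dead .dead .dead (.br 44 .dead .dead (.br 48 (.br 47 .dead (.br 40 (.br 46 .dead .dead .dead .dead) .dead .dead .dead) .dead .dead) .dead .dead .dead) .dead)) .dead .dead) .dead))) .dead)) .dead)) (.br 30 .dead .dead .dead (.br 31 .dead .dead (.br 32 .dead .dead .dead (.br 33 .dead .dead (.br 34 .dead (.br 35 .dead (.br 36 (.br 37 .dead (.br 38 (.br 39 .dead (.br 42 .dead .dead (.br 43 .dead .dead .dead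 (.br 44 .dead .dead (.br 45 .dead .dead .dead (.br 46 (.br 40 .dead .dead .dead (.br 41 .dead .dead (.br 47 .dead (.br 48 (.fin [(2,3,65970699633656),(1,3,4259840),(0,3,268435456),(0,1,17444159488),(1,2,142971416741904),(1,3,135274496),(1,3,21584123756802),(0,1,71485708370960),(1,3,562949953421311)]) .dead .dead .dead) .dead .dead) .dead)) .dead .dead .dead)) .dead)) .dead) .dead .dead) .dead .dead .dead) .dead .dead) .dead .dead .dead) .dead (.br 41 .dead .dead (.br 36 (.kem 1 2 29 536870912) (.br 37 (.br 38 .dead (.br 39 (.br 40 .dead .dead .dead (.br 42 .dead .dead (.br 43 .dead .dead .dead (.br 44 .dead .dead (.br 45 .dead .dead .dead (.kem 0 1 36 493612001394688)) .dead)) .dead)) .dead .dead .dead) .dead .dead) .dead .dead .dead) .dead .dead) .dead)) .dead (.br 35 .dead (.br 36 (.br 37 .dead (.br 38 (.br 39 .dead (.br 40 (.br 46 .dead .dead .dead .dead) .dead .dead .dead) .dead .dead) .dead .dead .dead) .dead .dead) .dead .dead .dead) .dead (.br 36 (.kem 1 2 29 536870912) (.br 37 (.br 38 .dead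 (.br 39 (.br 40 .dead (.br 46 .dead .dead .dead .dead) .dead .dead) .dead .dead .dead) .dead .dead) .dead .dead .dead) .dead .dead))) .dead)) .dead)) .dead) (.br 29 .dead .dead (.br 30 .dead .dead .dead (.br 31 .dead .dead (.br 32 .dead .dead .dead (.br 33 .dead .dead (.br 34 .dead .dead .dead (.br 35 (.br 36 .dead (.br 37 (.br 38 .dead (.br 39 (.br 40 .dead (.br 46 .dead .dead .dead .dead) .dead .dead) .dead .dead .dead) .dead .dead) .dead .dead .dead) .dead .dead) .dead .dead (.br 36 (.br 37 .dead (.br 38 (.br 39 .dead (.br 40 (.br 46 .dead .dead .dead .dead) .dead .dead .dead) .dead .dead) .dead .dead .dead) .dead .dead) (.br 37 (.br 38 .dead (.br 39 (.br 40 .dead (.br 46 .dead .dead .dead .dead) .dead .dead) .dead .dead .dead) .dead .dead) .dead .dead .dead) .dead .dead))) .dead)) .dead)) .dead) .dead .dead) .dead .dead (.kem 0 2 20 1048576)) .dead .dead) .dead .dead .dead) .dead .dead) .dead (.br 24 (.br 25 .dead (.br 26 (.br 27 .dead .dead .dead (.br 28 (.br 29 .dead (.br 30 .dead .dead .dead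 (.br 31 .dead .dead (.br 32 .dead .dead .dead (.br 34 .dead (.br 33 .dead .dead (.br 35 .dead .dead (.br 36 (.br 37 .dead (.br 38 (.br 39 .dead (.br 41 .dead .dead .dead (.br 40 (.br 46 .dead .dead .dead .dead) .dead .dead .dead)) .dead .dead) .dead .dead .dead) .dead .dead) .dead .dead .dead) (.br 41 .dead .dead (.br 36 (.br 37 .dead (.br 38 (.br 39 .dead (.br 45 .dead .dead .dead (.br 44 .dead .dead (.br 43 .dead .dead .dead (.br 46 (.br 40 .dead .dead .dead (.kem 0 2 20 8658092032)) .dead .dead .dead)) .dead)) .dead .dead) .dead .dead .dead) .dead .dead) .dead (.br 42 .dead (.br 43 .dead .dead .dead (.br 44 .dead .dead (.br 48 (.br 47 .dead (.br 46 (.br 39 .dead (.br 38 (.br 37 .dead (.kem 0 2 36 68719476736) .dead .dead) .dead .dead .dead) .dead .dead) .dead .dead .dead) .dead .dead) .dead .dead .dead) .dead)) .dead .dead) .dead) .dead)) .dead) .dead .dead)) .dead)) .dead .dead) (.br 29 (.br 34 (.br 30 .dead (.br 31 .dead .dead (.br 32 .dead .dead .dead (.br 33 .dead (.kem 0 2 20 68157440)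 (.br 35 .dead .dead (.br 36 .dead .dead .dead (.br 37 (.br 38 .dead (.br 39 (.br 41 .dead .dead .dead (.br 40 .dead (.br 46 .dead .dead .dead .dead) .dead .dead)) .dead .dead .dead) .dead .dead) .dead .dead .dead)) (.br 36 .dead .dead (.br 41 .dead .dead (.br 42 .dead (.br 43 .dead .dead .dead (.br 37 (.br 38 .dead (.br 39 (.br 44 .dead .dead (.br 45 .dead .dead .dead (.br 46 .dead (.br 40 .dead .dead .dead (.kem 1 2 33 8589934592)) .dead .dead)) .dead) .dead .dead .dead) .dead .dead) .dead .dead .dead)) .dead .dead) .dead) .dead)) .dead)) (.br 32 .dead .dead (.br 33 .dead (.br 35 .dead .dead (.br 36 .dead .dead .dead (.br 41 .dead .dead .dead (.br 40 .dead .dead (.br 42 .dead (.br 43 .dead .dead (.br 37 (.br 38 .dead (.br 44 .dead .dead .dead (.br 45 .dead .dead .dead .dead)) .dead .dead) .dead .dead .dead) .dead) .dead .dead) .dead))) (.br 36 .dead .dead (.br 37 (.br 38 .dead (.br 41 .dead .dead (.br 40 .dead .dead .dead (.br 39 (.kem 2 3 31 6442450944) .dead .dead .dead)) .dead) .dead .dead)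 .dead .dead .dead) .dead)) .dead .dead) .dead)) .dead (.br 31 .dead .dead (.br 32 .dead .dead .dead (.br 33 .dead (.kem 0 2 20 68157440) (.br 35 .dead .dead (.br 36 .dead (.br 42 .dead .dead .dead .dead) .dead .dead) (.br 41 .dead .dead (.br 36 .dead (.br 37 (.br 38 .dead (.br 39 (.br 42 .dead .dead (.br 43 .dead .dead .dead (.br 44 .dead .dead (.br 45 .dead .dead .dead (.kem 0 1 28 494729498198016)) .dead)) .dead) .dead .dead .dead) .dead .dead) .dead .dead .dead) (.br 42 .dead (.br 43 .dead .dead .dead (.br 44 .dead .dead (.br 48 (.br 47 .dead (.br 40 .dead .dead .dead (.kem 0 1 28 17985175552)) .dead .dead) .dead .dead .dead) .dead)) .dead .dead) .dead) .dead)) .dead)) .dead)) .dead .dead .dead) .dead .dead .dead) .dead .dead)) .dead .dead .dead) .dead .dead) (.br 25 (.br 26 .dead (.br 27 (.br 28 (.br 29 .dead (.br 30 (.br 31 .dead .dead (.br 32 .dead .dead .dead (.br 33 .dead .dead (.br 34 .dead (.br 35 .dead .dead (.br 36 .dead .dead .dead (.br 37 .dead (.br 38 (.br 39 .dead (.br 41 .dead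 .dead .dead (.br 40 (.br 46 .dead .dead .dead .dead) .dead .dead .dead)) .dead .dead) .dead .dead .dead) .dead .dead)) (.br 36 .dead .dead (.br 41 .dead .dead (.br 42 .dead (.br 43 .dead .dead .dead (.br 37 .dead (.br 38 (.br 39 .dead (.br 44 .dead .dead (.br 45 .dead .dead .dead (.br 46 (.br 40 .dead .dead .dead (.br 47 .dead (.br 48 (.fin [(1,2,165711208343842),(1,3,16647040),(0,3,397237669893461),(0,2,190960238881114),(0,3,497941328444431),(0,1,69260541952),(1,3,142937325439008),(1,2,141853116402576),(0,1,71485708370960),(1,3,562949953421311)]) .dead .dead .dead) .dead .dead)) .dead .dead .dead)) .dead) .dead .dead) .dead .dead .dead) .dead .dead)) .dead .dead) .dead) .dead)) .dead (.br 35 .dead .dead (.br 36 .dead .dead .dead (.br 37 .dead (.br 38 (.br 39 .dead (.br 40 (.br 46 .dead .dead .dead .dead) .dead .dead .dead) .dead .dead) .dead .dead .dead) .dead .dead)) (.br 36 .dead .dead (.br 42 .dead (.br 43 .dead .dead .dead (.br 37 .dead (.br 38 (.br 39 .dead (.br 40 (.br 46 .dead .dead .dead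 .dead) .dead .dead .dead) .dead .dead) .dead .dead .dead) .dead .dead)) .dead .dead) .dead))) .dead)) (.br 32 .dead .dead (.br 33 .dead .dead .dead (.br 34 .dead (.br 35 .dead .dead (.br 36 .dead .dead .dead (.br 41 .dead .dead .dead (.br 42 .dead (.br 43 .dead .dead (.br 37 .dead (.kem 0 2 23 1082130432) .dead .dead) .dead) .dead .dead))) (.br 36 .dead .dead (.br 37 .dead (.br 38 (.br 39 .dead (.br 41 .dead .dead (.br 40 (.kem 2 3 31 15032385536) .dead .dead .dead) .dead) .dead .dead) .dead .dead .dead) .dead .dead) .dead)) .dead .dead)) .dead)) .dead .dead (.kem 0 2 23 8388608)) .dead .dead) (.br 29 (.br 30 .dead .dead .dead (.br 31 .dead .dead (.br 32 .dead .dead .dead (.br 33 .dead .dead (.br 34 .dead .dead .dead (.br 35 .dead .dead (.br 36 .dead (.br 42 .dead .dead .dead .dead) .dead .dead) (.br 36 .dead (.kem 0 2 23 545259520) (.br 42 .dead (.br 43 .dead .dead .dead (.br 44 .dead .dead (.br 48 (.br 41 .dead .dead (.kem 0 1 28 805306368) .dead) .dead .dead .dead) .dead)) .dead .dead) .dead)))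 .dead)) .dead)) .dead .dead .dead) .dead .dead) .dead .dead (.kem 0 2 20 1048576)) .dead .dead) .dead .dead .dead) .dead .dead) .dead)) (.br 22 .dead .dead (.br 23 (.br 24 .dead (.br 25 (.br 26 .dead (.br 27 (.br 28 (.br 29 .dead (.br 30 .dead .dead (.br 31 .dead .dead .dead (.br 32 .dead .dead (.br 33 .dead .dead .dead (.br 34 .dead (.kem 0 2 20 135266304) (.br 35 .dead .dead (.br 42 .dead (.br 48 (.br 47 .dead (.br 40 (.br 46 .dead .dead .dead .dead) .dead .dead .dead) .dead .dead) .dead .dead .dead) .dead .dead) (.br 36 (.br 37 .dead (.br 38 (.br 39 .dead (.br 40 (.br 46 .dead .dead .dead .dead) .dead .dead .dead) .dead .dead) .dead .dead .dead) .dead .dead) .dead .dead .dead)) .dead)) .dead)) (.br 31 .dead .dead (.br 32 .dead .dead .dead (.br 33 .dead .dead (.br 34 .dead (.kem 2 3 21 6291456) .dead .dead) .dead)) .dead)) .dead (.br 30 .dead .dead (.br 31 .dead .dead .dead (.br 32 .dead .dead (.br 33 .dead .dead .dead (.br 34 .dead (.kem 0 2 20 135266304) (.br 35 .dead (.br 36 (.br 37 .dead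 (.br 38 (.br 39 .dead (.br 40 (.br 46 .dead .dead .dead .dead) .dead .dead .dead) .dead .dead) .dead .dead .dead) .dead .dead) .dead .dead .dead) (.br 42 .dead (.br 36 (.kem 1 3 29 536870912) .dead .dead .dead) .dead .dead) .dead) .dead)) .dead)) .dead)) (.br 29 .dead .dead .dead (.br 30 .dead .dead (.br 31 .dead .dead .dead (.br 32 .dead .dead (.br 33 .dead .dead .dead (.br 34 .dead .dead (.br 35 (.br 36 .dead (.br 37 (.br 38 .dead (.br 39 (.br 40 .dead (.br 46 .dead .dead .dead .dead) .dead .dead) .dead .dead .dead) .dead .dead) .dead .dead .dead) .dead .dead) .dead (.br 42 .dead (.br 36 (.br 37 .dead (.br 38 (.br 39 .dead (.br 40 (.br 46 .dead .dead .dead .dead) .dead .dead .dead) .dead .dead) .dead .dead .dead) .dead .dead) .dead .dead .dead) .dead .dead) .dead) .dead)) .dead)) .dead)) .dead .dead) .dead .dead .dead) .dead .dead) .dead .dead .dead) .dead .dead) .dead .dead .dead) .dead))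

def t7C_10 : Tree :=
  (.br 14 (.br 15 .dead (.br 16 .dead .dead (.br 17 .dead .dead .dead (.br 18 .dead .dead (.br 19 .dead .dead .dead (.br 20 .dead .dead (.br 21 .dead .dead (.br 22 (.kem 1 3 9 33280) .dead .dead (.br 23 (.br 24 .dead (.br 25 (.br 26 .dead (.br 27 .dead .dead .dead (.br 28 (.br 34 .dead (.br 29 .dead (.br 30 .dead .dead (.br 31 .dead .dead .dead (.br 32 .dead .dead (.br 33 (.br 35 .dead .dead (.br 41 .dead .dead .dead (.br 40 .dead .dead (.br 42 .dead (.br 48 (.br 47 .dead (.br 46 (.br 36 (.kem 1 3 9 541098496) .dead .dead (.br 43 .dead .dead (.br 44 .dead .dead .dead (.br 45 .dead (.br 38 (.br 37 .dead (.kem 0 3 36 68719476736) .dead .dead) .dead .dead .dead) .dead .dead)) .dead)) .dead .dead .dead) .dead .dead) .dead .dead .dead) .dead .dead) .dead)) (.br 36 (.br 37 .dead (.br 38 (.br 41 .dead .dead (.br 40 .dead .dead .dead (.br 39 .dead (.br 45 .dead .dead .dead (.br 44 .dead .dead (.br 43 .dead .dead .dead (.br 46 (.br 47 .dead (.br 48 (.br 42 .dead (.kem 2 3 35 3332894621696)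 (.kem 1 3 9 34900836864) .dead) .dead .dead .dead) .dead .dead) .dead .dead .dead)) .dead)) .dead .dead)) .dead) .dead .dead .dead) .dead .dead) .dead .dead .dead)) .dead .dead .dead) .dead)) (.br 31 .dead .dead (.br 32 .dead .dead .dead (.br 33 (.br 35 .dead .dead (.br 36 (.br 37 .dead (.br 38 (.br 41 .dead .dead .dead (.br 40 .dead .dead (.br 39 .dead (.kem 2 3 30 7516192768) .dead .dead) .dead)) .dead .dead .dead) .dead .dead) .dead .dead .dead) (.br 41 .dead .dead (.br 40 .dead .dead .dead (.br 36 (.br 37 .dead (.br 38 (.br 39 .dead (.kem 2 3 30 7516192768) (.br 42 .dead (.br 48 (.br 47 .dead (.br 46 (.br 43 .dead .dead (.br 44 .dead .dead .dead (.br 45 .dead (.kem 2 3 30 3890166628352) .dead .dead)) (.br 44 .dead .dead (.br 45 .dead (.kem 2 3 30 3890166628352) .dead (.kem 1 2 39 549755813888)) .dead)) .dead .dead .dead) .dead .dead) .dead .dead .dead) (.br 43 .dead .dead .dead (.br 44 .dead .dead (.br 45 .dead (.br 46 (.br 47 .dead (.br 48 (.kem 1 2 42 4398046511104) .dead .dead .dead) .dead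 .dead) .dead .dead .dead) .dead (.br 46 (.kem 1 2 39 549755813888) (.kem 0 1 46 492581209243648) .dead .dead)) .dead)) .dead) .dead) .dead .dead .dead) .dead .dead) .dead (.br 42 .dead (.br 43 .dead .dead .dead (.br 44 .dead .dead (.br 48 (.br 47 .dead (.br 46 (.br 37 (.br 38 .dead (.br 39 .dead .dead (.br 45 .dead .dead .dead (.fin [(1,2,8),(2,3,142541696),(1,2,161372877498530),(0,2,481036337152),(0,2,26168262656),(1,2,17731806568578),(2,3,141853116402576),(0,2,71485708370960),(2,3,562949953421311)])) .dead) .dead .dead) (.kem 0 2 36 68719476736) .dead .dead) .dead .dead .dead) .dead .dead) .dead .dead .dead) .dead)) .dead .dead) .dead)) .dead)) .dead (.br 35 .dead .dead (.br 36 (.br 37 .dead (.br 38 (.br 39 .dead (.br 41 .dead .dead .dead (.br 40 (.br 46 .dead .dead .dead .dead) .dead .dead .dead)) .dead .dead) .dead .dead .dead) .dead .dead) .dead .dead .dead) (.br 41 .dead .dead (.br 36 (.br 37 .dead (.br 38 (.br 39 .dead (.br 45 .dead .dead .dead (.br 44 .dead .dead (.br 43 .dead .dead .dead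 (.br 46 (.br 40 .dead .dead .dead (.kem 0 2 33 8589934592)) .dead .dead .dead)) .dead)) .dead .dead) .dead .dead .dead) .dead .dead) .dead (.br 42 .dead (.br 43 .dead .dead .dead (.br 44 .dead .dead (.br 48 (.br 47 .dead (.br 46 (.br 39 .dead (.br 38 (.br 37 .dead (.kem 0 2 36 68719476736) .dead .dead) .dead .dead .dead) .dead .dead) .dead .dead .dead) .dead .dead) .dead .dead .dead) .dead)) .dead .dead) .dead) .dead)) .dead)) .dead)) (.kem 1 3 9 4227584) .dead) .dead .dead) (.br 29 .dead .dead (.br 30 .dead .dead .dead (.br 31 .dead .dead (.br 32 .dead .dead .dead (.br 34 (.br 33 .dead .dead (.br 35 (.br 36 .dead (.br 37 (.br 38 .dead (.br 39 (.br 42 .dead .dead (.br 43 .dead .dead .dead (.br 44 .dead .dead (.br 45 .dead .dead .dead (.kem 0 1 28 496962344321024)) .dead)) .dead) .dead .dead .dead) .dead .dead) .dead .dead .dead) .dead .dead) .dead .dead (.br 41 .dead .dead (.br 36 (.br 37 .dead (.br 38 (.br 39 .dead (.br 40 .dead .dead .dead (.kem 0 1 28 17448304640)) .dead .dead) .dead .dead .dead)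 .dead .dead) (.br 37 (.br 38 .dead (.br 39 (.br 42 .dead .dead (.br 43 .dead .dead .dead (.br 44 .dead .dead (.br 45 .dead .dead .dead (.kem 0 1 28 494728961327104)) .dead)) .dead) .dead .dead .dead) .dead .dead) .dead .dead .dead) .dead .dead) .dead)) .dead) .dead .dead .dead)) .dead)) .dead) .dead .dead)) .dead .dead) .dead .dead .dead) .dead .dead) (.br 24 (.br 25 .dead (.br 26 (.br 27 .dead (.br 28 (.br 29 .dead .dead (.br 30 .dead .dead .dead (.br 31 .dead .dead (.br 32 .dead .dead .dead (.br 33 .dead .dead (.br 34 .dead .dead .dead (.br 35 .dead (.br 36 (.br 37 .dead (.br 38 (.br 39 .dead (.br 40 (.br 46 .dead .dead .dead .dead) .dead .dead .dead) .dead .dead) .dead .dead .dead) .dead .dead) .dead .dead .dead) .dead (.br 36 (.br 37 .dead (.br 38 (.br 39 .dead (.br 40 (.br 46 .dead .dead .dead .dead) .dead .dead .dead) .dead .dead) .dead .dead .dead) .dead .dead) (.br 37 (.br 38 .dead (.br 39 (.br 40 .dead (.br 46 .dead .dead .dead .dead) .dead .dead) .dead .dead .dead) .dead .dead) .dead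 .dead .dead) .dead .dead))) .dead)) .dead)) .dead) (.br 29 (.br 30 .dead .dead (.br 31 .dead .dead .dead (.br 32 .dead .dead (.br 33 .dead .dead .dead (.br 34 (.br 35 .dead .dead (.br 41 .dead .dead .dead (.br 42 .dead (.br 36 .dead .dead .dead (.br 43 .dead .dead (.br 44 .dead .dead .dead (.br 45 .dead (.br 38 (.br 39 .dead .dead .dead .dead) .dead .dead .dead) .dead .dead)) .dead)) .dead .dead)) (.br 36 .dead (.br 37 (.br 38 .dead (.br 39 (.br 41 .dead .dead (.br 40 .dead (.br 46 .dead .dead .dead .dead) .dead .dead) .dead) .dead .dead .dead) .dead .dead) .dead .dead .dead) .dead .dead)) .dead .dead .dead)) .dead)) (.br 31 .dead .dead (.br 32 .dead .dead .dead (.br 33 .dead .dead (.br 34 (.br 35 .dead .dead (.br 36 .dead (.br 42 .dead .dead .dead .dead) .dead .dead) (.br 41 .dead .dead (.br 36 .dead (.br 37 (.br 38 .dead (.br 39 (.br 42 .dead .dead (.br 43 .dead .dead .dead (.br 44 .dead .dead (.br 45 .dead .dead .dead (.br 46 .dead (.br 40 .dead .dead .dead (.br 47 (.br 48 .dead (.fin [(1,2,306019015436578),(1,3,139688442593392),(0,3,541065216),(0,2,1030792151040),(2,3,288072860305440),(0,3,492581209243648),(1,3,141853116402576),(0,3,71485708370960),(1,2,562949953421311)])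 .dead .dead) .dead .dead .dead)) .dead .dead)) .dead)) .dead) .dead .dead .dead) .dead .dead) .dead .dead .dead) (.br 42 .dead (.br 43 .dead .dead .dead (.br 44 .dead .dead (.br 48 (.br 47 .dead (.br 40 .dead .dead .dead (.br 46 (.br 39 .dead (.br 38 (.br 37 .dead (.br 45 .dead .dead .dead (.fin [(1,2,165693843941666),(1,3,8323968),(0,1,69260541952),(1,2,142937325439008),(1,3,141853116402576),(0,1,71485708370960),(1,2,562949953421311),(2,3,562949953421311)])) .dead .dead) .dead .dead .dead) .dead .dead) .dead .dead .dead)) .dead .dead) .dead .dead .dead) .dead)) .dead .dead) .dead) .dead)) .dead .dead (.br 35 .dead .dead (.br 36 .dead (.br 42 .dead .dead .dead .dead) .dead .dead) (.br 36 .dead (.br 37 (.br 38 .dead (.br 39 (.br 40 .dead (.br 46 .dead .dead .dead .dead) .dead .dead) .dead .dead .dead) .dead .dead) .dead .dead .dead) (.br 42 .dead (.br 43 .dead .dead .dead (.br 44 .dead .dead (.br 48 (.br 41 .dead .dead (.br 47 .dead (.br 40 (.br 46 .dead .dead .dead .dead) .dead .dead .dead) .dead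 .dead) .dead) .dead .dead .dead) .dead)) .dead .dead) .dead))) .dead)) .dead)) .dead (.kem 0 3 22 4194304) .dead) .dead .dead) .dead (.br 28 (.br 29 .dead .dead (.br 30 .dead .dead .dead (.br 31 .dead .dead (.br 32 .dead .dead .dead (.br 34 .dead (.br 33 .dead .dead (.kem 0 1 23 125829120) .dead) .dead .dead)) .dead)) .dead) (.br 34 (.br 29 (.br 30 .dead .dead (.br 31 .dead .dead .dead (.br 32 .dead .dead (.br 33 .dead (.br 35 .dead .dead (.br 41 .dead .dead .dead (.br 40 .dead .dead (.br 42 .dead (.br 36 .dead .dead .dead (.br 43 .dead .dead (.br 44 .dead .dead .dead (.br 45 .dead (.br 38 (.br 37 .dead (.kem 0 3 22 69260541952) .dead .dead) .dead .dead .dead) .dead .dead)) .dead)) .dead .dead) .dead)) (.br 36 .dead (.br 37 (.br 38 .dead (.br 41 .dead .dead (.br 40 .dead .dead .dead (.br 39 (.br 42 .dead .dead (.br 43 .dead .dead .dead (.br 44 .dead .dead (.br 45 .dead .dead .dead (.kem 0 1 23 493638702333952)) .dead)) .dead) .dead .dead .dead)) .dead) .dead .dead) .dead .dead .dead) .dead .dead))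 .dead .dead) .dead)) (.br 31 .dead .dead (.br 32 .dead .dead .dead (.br 33 .dead (.br 35 .dead .dead (.br 36 .dead (.br 42 .dead .dead .dead .dead) .dead .dead) (.br 41 .dead .dead (.br 40 .dead .dead .dead (.br 36 .dead (.br 37 (.br 38 .dead (.br 42 .dead .dead (.br 43 .dead .dead .dead (.br 44 .dead .dead (.br 45 .dead .dead .dead (.kem 0 1 23 493638702333952)) .dead)) .dead) .dead .dead) .dead .dead .dead) (.br 42 .dead (.br 43 .dead .dead .dead (.br 44 .dead .dead (.br 48 (.br 47 .dead (.br 46 (.br 39 .dead .dead (.kem 0 1 23 26700939264) .dead) .dead .dead .dead) .dead .dead) .dead .dead .dead) .dead)) .dead .dead) .dead)) .dead)) (.kem 1 3 27 134217728) .dead)) .dead)) .dead (.kem 0 3 22 4194304) .dead) .dead .dead .dead) .dead .dead)) .dead .dead .dead) .dead .dead) .dead .dead .dead) .dead .dead)) (.br 22 (.br 23 .dead (.br 24 (.br 25 .dead (.br 26 (.br 27 .dead (.br 28 .dead (.br 29 .dead .dead (.br 30 .dead .dead .dead (.br 31 .dead .dead (.br 32 .dead .dead .dead (.br 33 .dead .dead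 (.br 34 (.kem 2 3 21 2097152) .dead .dead .dead) .dead)) .dead)) (.br 30 .dead .dead (.br 31 .dead .dead .dead (.br 32 .dead .dead (.br 33 .dead .dead .dead (.br 34 (.kem 2 3 21 2097152) .dead (.br 35 (.br 36 .dead (.br 37 (.br 38 .dead (.br 39 (.br 40 .dead (.br 46 .dead .dead .dead .dead) .dead .dead) .dead .dead .dead) .dead .dead) .dead .dead .dead) .dead .dead) .dead (.br 42 .dead (.br 36 (.br 37 .dead (.br 38 (.br 39 .dead (.br 40 (.br 46 .dead .dead .dead .dead) .dead .dead .dead) .dead .dead) .dead .dead .dead) .dead .dead) .dead .dead .dead) .dead .dead) .dead) .dead)) .dead)) .dead)) (.br 29 .dead .dead .dead (.br 30 .dead .dead (.br 31 .dead .dead .dead (.br 32 .dead .dead (.br 33 .dead .dead .dead (.br 34 (.br 35 (.br 36 .dead (.br 37 (.br 38 .dead (.br 39 (.br 42 .dead .dead (.br 43 .dead .dead .dead (.br 44 .dead .dead (.br 45 .dead .dead .dead (.br 46 .dead (.br 40 .dead .dead (.kem 1 3 9 8726282752) .dead) .dead .dead)) .dead)) .dead) .dead .dead .dead) .dead .dead) .dead .dead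 .dead) .dead .dead) (.br 36 (.br 37 .dead (.br 38 (.br 39 .dead (.br 40 .dead .dead (.br 41 .dead .dead .dead (.br 42 .dead .dead (.br 43 .dead .dead .dead (.br 44 .dead .dead (.br 45 .dead .dead .dead (.kem 0 1 35 493646361133056)) .dead)) .dead)) .dead) .dead .dead) .dead .dead .dead) .dead .dead) .dead .dead .dead) .dead .dead) .dead .dead .dead)) .dead)) .dead)) .dead) .dead .dead) .dead .dead .dead) .dead .dead) .dead .dead .dead) .dead .dead) .dead .dead .dead)) .dead)) .dead)) .dead) .dead .dead) (.br 15 (.br 16 .dead (.br 17 .dead .dead (.br 18 .dead .dead .dead (.br 19 .dead .dead (.br 20 t7C_8 .dead .dead .dead) .dead)) (.br 18 .dead .dead (.br 19 .dead .dead .dead (.br 20 (.br 21 .dead .dead (.br 22 .dead .dead .dead (.br 27 .dead .dead .dead (.br 23 (.br 24 .dead (.br 25 (.br 26 .dead (.kem 2 3 17 917504) (.br 28 (.br 34 .dead (.br 33 (.br 29 .dead (.br 30 .dead .dead (.br 31 .dead .dead .dead (.br 32 .dead (.kem 2 3 17 208535552) .dead .dead)) (.br 31 .dead .dead (.br 32 .dead (.kem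 2 3 17 208535552) .dead (.kem 1 2 26 67108864)) .dead)) (.br 30 .dead .dead .dead (.br 31 .dead .dead (.br 32 .dead (.br 35 .dead (.br 36 (.br 37 .dead (.br 42 .dead .dead (.br 43 .dead .dead .dead (.br 44 .dead .dead (.br 48 (.br 47 .dead (.br 46 (.br 38 (.kem 2 3 17 3966631936) .dead .dead (.br 39 .dead .dead (.br 40 .dead .dead .dead (.br 41 .dead .dead (.br 45 .dead (.kem 0 3 38 274877906944) .dead .dead) .dead)) .dead)) .dead .dead .dead) .dead .dead) .dead .dead .dead) .dead)) .dead) .dead .dead) .dead .dead .dead) .dead (.br 41 .dead .dead (.br 40 .dead .dead .dead (.br 39 .dead .dead (.br 36 (.kem 1 2 29 536870912) (.br 37 (.br 38 .dead .dead .dead (.br 42 .dead .dead (.br 43 .dead .dead .dead (.br 44 .dead .dead (.kem 0 1 36 206158430208) .dead)) .dead)) .dead .dead .dead) .dead .dead) .dead)) .dead)) .dead (.kem 1 2 26 67108864)) .dead)) .dead) .dead .dead .dead) .dead .dead) (.br 29 .dead .dead (.br 30 .dead .dead .dead (.br 31 .dead .dead (.br 34 (.br 33 .dead (.br 32 .dead .dead .dead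 (.br 35 (.br 36 .dead (.br 37 (.br 38 .dead (.br 42 .dead .dead (.br 43 .dead .dead .dead (.br 44 .dead .dead (.br 45 .dead .dead .dead (.kem 0 1 28 496970934255616)) .dead)) .dead) .dead .dead) .dead .dead .dead) .dead .dead) .dead .dead (.br 41 .dead .dead (.br 40 .dead .dead .dead (.br 36 (.br 37 .dead (.br 38 (.br 39 .dead .dead (.kem 0 1 28 26038239232) .dead) .dead .dead .dead) .dead .dead) (.br 37 (.br 38 .dead (.br 42 .dead .dead (.br 43 .dead .dead .dead (.br 44 .dead .dead (.br 45 .dead .dead .dead (.kem 0 1 28 493638039633920)) .dead)) .dead) .dead .dead) .dead .dead .dead) .dead .dead)) .dead))) .dead .dead) .dead .dead .dead) .dead)) .dead) .dead .dead) .dead) .dead .dead .dead) .dead .dead) .dead (.br 24 (.br 25 .dead (.br 26 .dead .dead (.br 28 (.br 29 .dead (.br 30 .dead .dead .dead (.br 31 .dead .dead (.br 34 .dead (.br 33 (.br 32 .dead .dead .dead (.br 35 .dead .dead (.br 36 (.br 37 .dead (.br 38 (.br 41 .dead .dead .dead (.br 40 .dead .dead (.br 39 .dead (.kem 2 3 17 7733116928)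 .dead .dead) .dead)) .dead .dead .dead) .dead .dead) .dead .dead .dead) (.br 41 .dead .dead (.br 40 .dead .dead .dead (.br 36 (.br 37 .dead (.br 38 (.br 39 .dead (.kem 2 3 17 7733116928) (.br 42 .dead (.br 48 (.br 47 .dead (.br 46 (.br 43 .dead .dead (.br 44 .dead .dead .dead (.br 45 .dead (.kem 2 3 17 3890383552512) .dead .dead)) (.br 44 .dead .dead (.br 45 .dead (.kem 2 3 17 3890383552512) .dead (.kem 1 2 39 549755813888)) .dead)) .dead .dead .dead) .dead .dead) .dead .dead .dead) (.br 43 .dead .dead .dead (.br 44 .dead .dead (.br 45 .dead (.br 46 (.br 47 .dead (.br 48 (.kem 1 2 42 4398046511104) .dead .dead .dead) .dead .dead) .dead .dead .dead) .dead (.br 46 (.kem 1 2 39 549755813888) (.kem 0 1 46 492581209243648) .dead .dead)) .dead)) .dead) .dead) .dead .dead .dead) .dead .dead) .dead (.br 42 .dead (.br 43 .dead .dead .dead (.br 44 .dead .dead (.br 48 (.br 47 .dead (.br 46 (.br 37 (.br 38 .dead (.br 39 .dead .dead (.br 45 .dead .dead .dead (.fin [(0,1,26575110144),(1,2,4466765987840),(0,3,397114443732693),(0,2,69853348103160),(0,1,34086912),(1,2,141845657815056),(1,3,71971640558608),(0,1,17731239837954),(0,3,562949953421311),(1,3,562949953421311)]))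 .dead) .dead .dead) (.kem 0 2 36 68719476736) .dead .dead) .dead .dead .dead) .dead .dead) .dead .dead .dead) .dead)) .dead .dead) .dead)) .dead))) .dead .dead .dead) .dead .dead) .dead)) .dead .dead) (.br 29 (.br 34 (.br 33 .dead (.br 30 .dead (.br 31 .dead .dead (.br 32 (.kem 2 3 17 216924160) .dead .dead (.br 35 .dead .dead (.br 36 .dead .dead .dead (.br 37 (.br 38 .dead (.br 41 .dead .dead .dead (.br 40 .dead .dead (.br 39 (.kem 2 3 17 6659375104) .dead .dead .dead) .dead)) .dead .dead) .dead .dead .dead)) (.br 36 .dead .dead (.br 41 .dead .dead (.br 40 .dead .dead .dead (.br 42 .dead (.br 43 .dead .dead .dead (.br 37 (.br 38 .dead (.br 44 .dead .dead (.br 45 .dead .dead .dead (.br 48 (.br 47 .dead (.br 46 (.br 39 .dead .dead (.kem 0 3 32 4294967296) .dead) .dead .dead .dead) .dead .dead) .dead .dead .dead)) .dead) .dead .dead) .dead .dead .dead)) .dead .dead)) .dead) .dead))) (.br 32 (.kem 2 3 17 216924160) .dead .dead .dead)) .dead (.br 31 .dead .dead (.br 32 (.br 35 .dead .dead (.br 36 .dead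 (.br 42 .dead .dead .dead .dead) .dead .dead) (.br 41 .dead .dead (.br 40 .dead .dead .dead (.br 39 .dead .dead (.br 36 .dead (.br 37 (.br 42 .dead .dead (.br 43 .dead .dead .dead (.br 44 .dead .dead (.br 38 .dead (.kem 2 3 17 3438149632) .dead (.br 45 .dead (.br 46 (.kem 1 3 38 35459249995776) .dead .dead .dead) .dead .dead)) .dead)) .dead) .dead .dead .dead) (.br 42 .dead (.br 43 .dead .dead .dead (.br 44 .dead .dead (.br 48 (.br 47 .dead (.br 46 (.br 37 (.kem 1 3 30 1073741824) (.br 38 .dead .dead .dead (.kem 0 1 37 137438953472)) .dead .dead) .dead .dead .dead) .dead .dead) .dead .dead .dead) .dead)) .dead .dead) .dead) .dead)) .dead)) .dead .dead (.br 35 .dead .dead (.br 36 .dead (.br 42 .dead .dead .dead .dead) .dead .dead) (.br 41 .dead .dead (.br 40 .dead .dead .dead (.br 36 .dead (.br 37 (.br 38 .dead (.br 42 .dead .dead (.br 43 .dead .dead .dead (.br 44 .dead .dead (.br 45 .dead .dead .dead (.kem 0 1 28 493638576504832)) .dead)) .dead) .dead .dead) .dead .dead .dead) (.br 42 .dead (.br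 43 .dead .dead .dead (.br 44 .dead .dead (.br 48 (.br 47 .dead (.br 46 (.br 39 .dead .dead (.kem 0 1 28 26575110144) .dead) .dead .dead .dead) .dead .dead) .dead .dead .dead) .dead)) .dead .dead) .dead)) .dead))) .dead)) .dead .dead) .dead .dead .dead) .dead .dead .dead) .dead .dead) .dead) .dead .dead) (.br 25 (.br 26 .dead (.br 28 (.br 29 .dead (.br 34 .dead (.br 30 (.br 31 .dead .dead (.br 32 .dead .dead .dead (.br 33 (.kem 2 3 17 149815296) .dead (.br 35 .dead .dead (.br 36 .dead .dead .dead (.br 37 .dead (.br 38 (.br 39 .dead (.br 41 .dead .dead .dead (.br 40 (.kem 2 3 17 15182200832) .dead .dead .dead)) .dead .dead) .dead .dead .dead) .dead .dead)) (.br 36 .dead .dead (.br 41 .dead .dead (.br 42 .dead (.br 43 .dead .dead .dead (.br 37 .dead (.br 38 (.br 39 .dead (.br 44 .dead .dead (.br 45 .dead .dead .dead (.br 46 (.br 40 .dead .dead .dead (.kem 0 2 33 8589934592)) .dead .dead .dead)) .dead) .dead .dead) .dead .dead .dead) .dead .dead)) .dead .dead) .dead) .dead)) .dead)) (.br 32 .dead .dead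 (.br 33 (.kem 2 3 17 149815296) .dead .dead .dead) .dead)) .dead .dead (.kem 0 2 23 8388608)) .dead .dead) .dead .dead) (.br 29 (.br 30 .dead .dead .dead (.br 31 .dead .dead (.br 32 .dead .dead .dead (.br 34 (.br 33 .dead .dead (.br 35 .dead .dead (.br 36 .dead (.br 42 .dead .dead .dead .dead) .dead .dead) (.br 41 .dead .dead (.br 36 .dead (.kem 0 2 23 545259520) (.br 42 .dead (.br 43 .dead .dead .dead (.br 44 .dead .dead (.br 48 (.br 47 .dead (.br 40 .dead .dead .dead (.kem 0 1 28 17985175552)) .dead .dead) .dead .dead .dead) .dead)) .dead .dead) .dead) .dead)) .dead) .dead .dead .dead)) .dead)) .dead .dead .dead) .dead .dead) (.br 28 (.br 29 .dead (.br 34 .dead (.br 33 (.br 30 (.br 31 .dead .dead (.br 32 .dead (.kem 2 3 17 216924160) .dead (.kem 1 2 26 67108864)) (.br 32 .dead (.kem 2 3 17 216924160) .dead .dead)) .dead .dead (.kem 0 2 23 8388608)) .dead .dead .dead) .dead .dead) .dead .dead) (.br 29 (.br 30 .dead .dead .dead (.br 31 .dead .dead (.br 34 (.br 33 .dead (.br 32 .dead .dead .dead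 (.kem 0 1 24 50331648)) .dead .dead) .dead .dead .dead) .dead)) .dead .dead .dead) .dead .dead) .dead) .dead .dead .dead) .dead .dead) .dead))) (.br 22 .dead .dead (.br 23 (.br 24 .dead (.br 25 (.br 27 .dead .dead (.br 26 .dead (.kem 2 3 17 917504) .dead .dead) .dead) .dead .dead .dead) .dead .dead) .dead .dead .dead) .dead)) .dead t7C_9 .dead)) .dead)) (.kem 1 3 9 512) .dead) .dead .dead .dead) .dead .dead)

def t7C_11 : Tree :=
  (.br 17 .dead .dead (.br 18 .dead .dead .dead (.br 19 .dead (.br 21 .dead .dead (.br 22 .dead .dead .dead (.br 23 (.br 24 .dead (.br 27 .dead .dead .dead (.br 26 .dead .dead (.br 25 (.br 28 (.br 34 .dead (.br 33 (.br 29 .dead (.br 30 .dead .dead (.br 31 .dead .dead .dead (.br 32 .dead (.br 35 .dead .dead (.br 41 .dead .dead .dead (.br 40 .dead .dead (.br 39 .dead .dead .dead (.br 42 .dead (.br 45 .dead (.br 46 (.br 47 .dead (.br 48 (.br 36 (.kem 1 3 9 541131264) .dead .dead (.br 43 .dead .dead (.br 44 .dead .dead .dead (.br 37 (.br 38 .dead .dead (.fin [(1,3,196286599678098),(0,1,359000085464209),(1,3,545357767376963),(1,2,8830723326210),(0,2,229376),(0,2,12478),(2,3,89357134928404),(1,2,1838976),(0,3,562949953421311),(1,3,562949953421311),(2,3,562949953421311)])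 .dead) (.kem 0 3 36 68719476736) .dead .dead)) .dead)) .dead .dead .dead) .dead .dead) .dead .dead .dead) .dead .dead) .dead .dead)) .dead)) (.br 36 (.br 37 .dead (.br 41 .dead .dead (.br 40 .dead .dead .dead (.br 39 .dead .dead (.br 38 (.br 42 .dead (.br 48 (.br 47 .dead (.br 46 (.br 43 .dead .dead (.br 44 .dead .dead .dead (.br 45 .dead (.kem 2 3 35 3882650435584) .dead .dead)) (.br 44 .dead .dead (.br 45 .dead (.kem 2 3 35 3882650435584) .dead (.kem 1 2 13 554118422528)) .dead)) .dead .dead .dead) .dead .dead) .dead .dead .dead) (.br 43 .dead .dead .dead (.br 44 .dead .dead (.br 45 .dead (.br 46 (.br 47 .dead (.br 48 (.kem 1 3 9 34900869632) .dead .dead .dead) .dead .dead) .dead .dead .dead) .dead (.br 46 (.kem 1 2 13 554118422528) (.kem 0 1 46 492581209243648) .dead .dead)) .dead)) .dead) .dead .dead .dead) .dead)) .dead) .dead .dead) .dead .dead .dead)) .dead .dead)) (.br 31 .dead .dead (.br 32 .dead (.br 35 .dead .dead (.br 36 (.br 37 .dead (.br 41 .dead .dead .dead (.br 40 .dead .dead (.br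 39 .dead .dead .dead (.br 38 (.kem 2 3 30 3221225472) .dead .dead .dead)) .dead)) .dead .dead) .dead .dead .dead) (.br 41 .dead .dead (.br 40 .dead .dead .dead (.br 39 .dead .dead (.br 36 (.br 37 .dead (.br 38 (.kem 2 3 30 3221225472) .dead .dead (.br 44 .dead .dead (.br 43 .dead .dead .dead (.br 45 .dead (.kem 0 3 38 274877906944) .dead .dead)) .dead)) .dead .dead) .dead (.br 42 .dead (.br 43 .dead .dead .dead (.br 44 .dead .dead (.br 48 (.br 47 .dead (.br 46 (.br 37 (.br 38 .dead .dead .dead (.br 45 .dead (.kem 2 3 30 30617748111360) .dead .dead)) (.kem 0 2 36 68719476736) .dead .dead) .dead .dead .dead) .dead .dead) .dead .dead .dead) .dead)) .dead .dead) .dead) .dead)) .dead)) .dead (.kem 1 2 13 67641344)) .dead)) (.kem 1 3 9 4260352) .dead) .dead .dead .dead) .dead .dead) (.br 29 .dead .dead (.br 30 .dead .dead .dead (.br 31 .dead .dead (.br 34 (.br 33 .dead (.br 32 .dead .dead .dead (.br 35 (.br 36 .dead (.br 37 (.br 38 .dead (.br 42 .dead .dead (.br 43 .dead .dead .dead (.br 44 .dead .dead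 (.br 45 .dead .dead .dead (.kem 0 1 28 496970934255616)) .dead)) .dead) .dead .dead) .dead .dead .dead) .dead .dead) .dead .dead (.br 41 .dead .dead (.br 40 .dead .dead .dead (.br 36 (.br 37 .dead (.br 38 (.br 39 .dead .dead (.kem 0 1 28 26038239232) .dead) .dead .dead .dead) .dead .dead) (.br 37 (.br 38 .dead (.br 42 .dead .dead (.br 43 .dead .dead .dead (.br 44 .dead .dead (.br 45 .dead .dead .dead (.kem 0 1 28 493638039633920)) .dead)) .dead) .dead .dead) .dead .dead .dead) .dead .dead)) .dead))) .dead .dead) .dead .dead .dead) .dead)) .dead) .dead .dead) .dead .dead .dead) .dead)) .dead .dead) .dead .dead .dead)) (.br 22 .dead .dead (.br 27 .dead .dead (.br 26 .dead .dead .dead (.br 23 (.kem 1 3 9 66048) .dead .dead (.br 24 (.br 25 .dead .dead (.br 28 (.br 29 .dead (.br 30 .dead .dead (.br 34 .dead (.br 33 (.br 32 .dead (.br 31 .dead .dead .dead (.br 35 .dead .dead (.br 41 .dead .dead .dead (.br 40 .dead .dead (.br 39 .dead .dead .dead (.br 42 .dead (.br 45 .dead (.br 46 (.br 47 .dead (.br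 48 (.br 36 (.kem 1 3 9 545325568) .dead .dead (.br 43 .dead .dead (.br 44 .dead .dead .dead (.br 37 (.br 38 .dead .dead (.fin [(0,1,30870077440),(1,3,196271753939090),(1,2,34943853920256),(1,3,8899442786434),(0,1,71971640558608),(1,2,17731239837954),(1,2,562949953421311),(2,3,562949953421311)]) .dead) (.kem 0 3 36 68719476736) .dead .dead)) .dead)) .dead .dead .dead) .dead .dead) .dead .dead .dead) .dead .dead) .dead .dead)) .dead)) (.br 36 (.br 37 .dead (.br 41 .dead .dead (.br 40 .dead .dead .dead (.br 39 .dead .dead (.br 38 (.br 42 .dead (.br 48 (.br 47 .dead (.br 46 (.br 43 .dead .dead (.br 44 .dead .dead .dead (.br 45 .dead (.kem 2 3 35 3882650435584) .dead .dead)) (.br 44 .dead .dead (.br 45 .dead (.kem 2 3 35 3882650435584) .dead (.kem 1 2 13 554084868096)) .dead)) .dead .dead .dead) .dead .dead) .dead .dead .dead) (.br 43 .dead .dead .dead (.br 44 .dead .dead (.br 45 .dead (.br 46 (.br 47 .dead (.br 48 (.kem 1 3 9 34905063936) .dead .dead .dead) .dead .dead) .dead .dead .dead) .dead (.br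 46 (.kem 1 2 13 554084868096) (.kem 0 1 46 492581209243648) .dead .dead)) .dead)) .dead) .dead .dead .dead) .dead)) .dead) .dead .dead) .dead .dead .dead))) .dead .dead) .dead .dead .dead) .dead .dead) .dead) .dead .dead) (.br 29 (.br 34 (.br 33 .dead (.br 32 (.br 30 .dead (.br 31 .dead .dead .dead (.kem 1 2 13 34086912)) (.kem 1 3 9 8454656) .dead) .dead .dead .dead) .dead .dead) .dead .dead .dead) .dead .dead .dead) .dead .dead) .dead) (.br 25 (.kem 1 2 13 532480) .dead (.br 28 (.br 29 .dead (.br 34 .dead (.br 33 (.br 32 .dead (.br 30 (.br 31 .dead .dead .dead (.kem 0 2 25 33554432)) .dead (.kem 0 3 23 8388608) .dead) .dead .dead) .dead .dead .dead) .dead .dead) .dead .dead) (.br 29 (.br 30 .dead .dead (.br 34 (.br 33 .dead (.br 32 (.br 31 .dead .dead .dead (.kem 0 1 24 16777216)) .dead .dead .dead) .dead .dead) .dead .dead .dead) .dead) .dead .dead .dead) .dead .dead) .dead) .dead .dead))) .dead) .dead)) .dead .dead)) (.br 18 .dead .dead (.br 19 .dead (.br 21 .dead .dead (.br 22 .dead .dead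 .dead (.br 27 .dead .dead .dead (.br 26 .dead .dead (.br 23 (.br 24 .dead (.br 25 (.kem 2 3 17 393216) .dead .dead (.br 28 (.br 34 .dead (.br 33 (.br 32 .dead (.br 29 .dead (.br 30 .dead .dead (.br 31 (.kem 2 3 17 241565696) .dead .dead .dead) (.br 31 (.kem 2 3 17 241565696) .dead (.kem 0 3 25 33554432) .dead)) (.br 30 .dead .dead .dead (.br 31 (.br 35 .dead (.br 36 (.br 42 .dead .dead (.br 43 .dead .dead .dead (.br 44 .dead .dead (.br 37 .dead (.kem 2 3 17 1852178432) .dead .dead) .dead)) .dead) .dead .dead .dead) .dead (.br 41 .dead .dead (.br 40 .dead .dead .dead (.br 39 .dead .dead (.br 38 .dead .dead .dead (.br 44 .dead .dead (.br 37 .dead (.br 36 (.kem 1 2 29 536870912) .dead .dead .dead) .dead .dead) .dead)) .dead)) .dead)) .dead (.kem 0 3 25 33554432) .dead)) .dead) .dead .dead) .dead .dead .dead) .dead .dead) (.br 29 .dead .dead (.br 30 .dead .dead .dead (.br 34 (.br 33 .dead (.br 32 (.br 31 .dead .dead (.br 35 (.br 36 .dead (.br 37 (.br 42 .dead .dead (.br 43 .dead .dead .dead (.br 44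 .dead .dead (.br 48 .dead (.br 47 (.br 46 .dead (.br 45 .dead .dead .dead (.kem 0 1 28 496975229222912)) .dead .dead) .dead .dead .dead) .dead .dead) .dead)) .dead) .dead .dead .dead) .dead .dead) .dead .dead (.br 41 .dead .dead (.br 40 .dead .dead .dead (.br 39 .dead .dead (.br 36 (.br 37 .dead (.br 38 .dead .dead .dead (.kem 0 1 28 30333206528)) .dead .dead) (.br 37 (.br 42 .dead .dead (.br 43 .dead .dead .dead (.br 44 .dead .dead (.br 38 .dead (.kem 0 3 25 4328521728) .dead (.kem 0 1 28 30333206528)) .dead)) .dead) .dead .dead .dead) .dead .dead) .dead)) .dead)) .dead) .dead .dead .dead) .dead .dead) .dead .dead .dead)) .dead) .dead .dead)) .dead .dead) .dead (.br 24 (.br 25 .dead .dead .dead (.br 28 (.br 29 .dead (.br 30 .dead .dead .dead (.br 34 .dead (.br 33 (.br 32 .dead (.br 31 .dead .dead (.br 35 .dead .dead (.br 36 (.br 37 .dead (.br 41 .dead .dead .dead (.br 40 .dead .dead (.br 39 .dead .dead .dead (.br 38 (.kem 2 3 17 3471179776) .dead .dead .dead)) .dead)) .dead .dead) .dead .dead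 .dead) (.br 41 .dead .dead (.br 40 .dead .dead .dead (.br 39 .dead .dead (.br 36 (.br 37 .dead (.br 38 (.kem 2 3 17 3471179776) .dead .dead (.br 44 .dead .dead (.br 43 .dead .dead .dead (.br 45 .dead (.kem 0 3 38 274877906944) .dead .dead)) .dead)) .dead .dead) .dead (.br 42 .dead (.br 43 .dead .dead .dead (.br 44 .dead .dead (.br 48 (.br 47 .dead (.br 46 (.br 37 (.br 38 .dead .dead .dead (.br 45 .dead (.kem 2 3 17 30617998065664) .dead .dead)) (.kem 0 2 36 68719476736) .dead .dead) .dead .dead .dead) .dead .dead) .dead .dead .dead) .dead)) .dead .dead) .dead) .dead)) .dead)) .dead) .dead .dead) .dead .dead .dead) .dead .dead)) .dead .dead) (.br 29 (.br 34 (.br 33 .dead (.br 32 (.br 30 .dead (.br 31 .dead .dead (.br 35 .dead .dead (.br 36 .dead .dead .dead (.br 37 (.br 41 .dead .dead .dead (.br 40 .dead .dead (.br 39 .dead .dead .dead (.br 38 .dead (.kem 2 3 17 2397437952) .dead .dead)) .dead)) .dead .dead .dead)) (.br 36 .dead .dead (.br 41 .dead .dead (.br 40 .dead .dead .dead (.br 39 .dead .dead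 (.br 42 .dead (.br 43 .dead .dead .dead (.br 37 (.br 44 .dead .dead (.br 48 (.br 47 .dead (.br 46 (.br 38 .dead (.kem 2 3 17 2397437952) .dead (.kem 1 3 38 35459249995776)) .dead .dead .dead) .dead .dead) .dead .dead .dead) .dead) .dead .dead .dead)) .dead .dead) .dead)) .dead) .dead)) .dead) .dead (.br 31 .dead (.br 35 .dead .dead (.br 36 .dead (.br 42 .dead .dead .dead .dead) .dead .dead) (.br 41 .dead .dead (.br 40 .dead .dead .dead (.br 39 .dead .dead (.br 38 .dead .dead .dead (.br 44 .dead .dead (.br 37 (.br 43 .dead .dead .dead (.br 45 .dead (.br 46 (.br 47 .dead (.br 48 (.br 36 .dead (.kem 2 3 17 1323696128) (.kem 1 2 36 4466765987840) .dead) .dead .dead .dead) .dead .dead) .dead .dead .dead) .dead .dead)) .dead .dead .dead) .dead)) .dead)) .dead)) (.br 35 .dead .dead (.br 36 .dead (.br 42 .dead .dead .dead .dead) .dead .dead) (.br 41 .dead .dead (.br 40 .dead .dead .dead (.br 39 .dead .dead (.br 36 .dead (.br 37 (.br 42 .dead .dead (.br 43 .dead .dead .dead (.br 44 .dead .dead (.br 38 .dead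 (.kem 2 3 17 3471179776) .dead (.kem 0 1 28 237028507648)) .dead)) .dead) .dead .dead .dead) (.br 42 .dead (.br 43 .dead .dead .dead (.br 44 .dead .dead (.br 48 (.br 47 .dead (.br 46 (.br 37 (.kem 1 3 30 1073741824) (.br 38 .dead .dead .dead (.kem 0 1 28 30870077440)) .dead .dead) .dead .dead .dead) .dead .dead) .dead .dead .dead) .dead)) .dead .dead) .dead) .dead)) .dead)) .dead)) .dead .dead .dead) .dead .dead) .dead .dead .dead) .dead .dead .dead) .dead .dead)) (.br 25 (.br 28 (.br 29 .dead (.br 34 .dead (.br 33 (.br 30 (.br 31 .dead .dead (.br 32 .dead (.kem 2 3 17 216399872) .dead (.br 35 .dead .dead (.br 36 .dead .dead .dead (.br 37 .dead (.br 38 (.br 41 .dead .dead .dead (.br 40 .dead .dead (.br 39 .dead (.kem 2 3 17 6658850816) .dead .dead) .dead)) .dead .dead .dead) .dead .dead)) (.br 36 .dead .dead (.br 41 .dead .dead (.br 40 .dead .dead .dead (.br 42 .dead (.br 43 .dead .dead .dead (.br 37 .dead (.br 38 (.br 44 .dead .dead (.br 48 (.br 47 .dead (.br 46 (.br 39 .dead (.kem 2 3 17 6658850816)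 (.kem 1 3 32 4294967296) .dead) .dead .dead .dead) .dead .dead) .dead .dead .dead) .dead) .dead .dead .dead) .dead .dead)) .dead .dead)) .dead) .dead))) (.br 32 .dead (.kem 2 3 17 216399872) .dead .dead)) .dead .dead (.kem 0 2 23 8388608)) .dead .dead .dead) .dead .dead) .dead .dead) (.br 29 (.br 30 .dead .dead .dead (.br 31 .dead .dead (.br 34 (.br 33 .dead (.br 32 .dead .dead .dead (.br 35 .dead .dead (.br 36 .dead (.br 42 .dead .dead .dead .dead) .dead .dead) (.br 41 .dead .dead (.br 40 .dead .dead .dead (.br 36 .dead (.kem 0 2 23 545259520) (.br 42 .dead (.br 43 .dead .dead .dead (.br 44 .dead .dead (.br 48 (.br 47 .dead (.br 46 (.br 39 .dead .dead (.kem 0 1 28 26575110144) .dead) .dead .dead .dead) .dead .dead) .dead .dead .dead) .dead)) .dead .dead) .dead)) .dead))) .dead .dead) .dead .dead .dead) .dead)) .dead .dead .dead) .dead .dead) .dead .dead (.br 28 (.br 29 .dead (.br 34 .dead (.br 33 (.br 32 .dead (.br 30 (.br 31 .dead .dead (.kem 0 3 25 33554432) .dead) .dead .dead (.kem 0 2 23 8388608))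 .dead .dead) .dead .dead .dead) .dead .dead) .dead .dead) (.br 29 (.br 30 .dead .dead .dead (.br 34 (.br 33 .dead (.br 32 (.br 31 .dead .dead (.kem 0 1 24 16777216) .dead) .dead .dead .dead) .dead .dead) .dead .dead .dead)) .dead .dead .dead) .dead .dead)) .dead .dead) .dead) .dead))) (.br 22 .dead .dead (.br 23 (.br 24 .dead (.br 27 .dead .dead (.br 26 .dead .dead .dead (.br 25 (.kem 2 3 17 393216) .dead .dead .dead)) .dead) .dead .dead) .dead .dead .dead) .dead)) .dead (.kem 1 2 13 8192)) .dead))

def t7C_12 : Tree :=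
  (.br 17 .dead .dead (.br 18 .dead .dead .dead (.br 19 (.br 21 .dead .dead (.br 22 .dead .dead .dead (.br 23 .dead (.br 24 (.br 27 .dead .dead .dead (.br 26 .dead .dead (.br 25 .dead (.br 28 (.br 29 .dead .dead (.br 30 .dead .dead .dead (.br 31 .dead .dead (.br 34 .dead (.br 33 (.br 32 .dead .dead .dead (.kem 0 1 10 60414976)) .dead .dead .dead) .dead .dead) .dead)) .dead) (.br 34 (.br 33 .dead (.br 29 (.br 30 .dead .dead (.br 31 .dead .dead .dead (.br 32 (.br 35 .dead .dead (.br 41 .dead .dead .dead (.br 40 .dead .dead (.br 39 .dead .dead .dead (.br 42 .dead (.br 36 .dead .dead .dead (.br 43 .dead .dead (.br 44 .dead .dead .dead (.br 45 .dead (.br 38 .dead .dead (.kem 0 1 10 30930492416) .dead) .dead .dead)) .dead)) .dead .dead)) .dead)) (.br 36 .dead (.br 37 (.br 41 .dead .dead (.br 40 .dead .dead .dead (.br 39 .dead .dead (.br 38 .dead (.br 42 .dead .dead (.br 43 .dead .dead .dead (.br 44 .dead .dead (.br 45 .dead .dead .dead (.kem 0 1 10 511966829568)) .dead)) .dead) .dead .dead) .dead)) .dead)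 .dead .dead .dead) .dead .dead)) .dead .dead .dead)) (.br 31 .dead .dead (.br 32 (.br 35 .dead .dead (.br 36 .dead (.br 42 .dead .dead .dead .dead) .dead .dead) (.br 41 .dead .dead (.br 40 .dead .dead .dead (.br 39 .dead .dead (.br 36 .dead (.br 37 (.br 42 .dead .dead (.br 43 .dead .dead .dead (.br 44 .dead .dead (.br 38 .dead (.kem 2 3 30 3221225472) .dead (.kem 0 1 10 237088922624)) .dead)) .dead) .dead .dead .dead) (.br 42 .dead (.br 43 .dead .dead .dead (.br 44 .dead .dead (.br 48 (.br 47 .dead (.br 46 (.br 37 (.kem 1 2 36 4466765987840) (.br 38 .dead .dead .dead (.kem 0 1 10 30930492416)) .dead .dead) .dead .dead .dead) .dead .dead) .dead .dead .dead) .dead)) .dead .dead) .dead) .dead)) .dead)) .dead .dead (.br 35 .dead .dead (.br 36 .dead (.br 42 .dead .dead .dead .dead) .dead .dead) (.br 41 .dead .dead (.br 40 .dead .dead .dead (.br 36 .dead (.br 37 (.br 38 .dead (.br 42 .dead .dead (.br 43 .dead .dead .dead (.br 44 .dead .dead (.br 45 .dead .dead .dead (.kem 0 1 10 493638636919808)) .dead))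 .dead) .dead .dead) .dead .dead .dead) (.br 42 .dead (.br 43 .dead .dead .dead (.br 44 .dead .dead (.br 48 (.br 47 .dead (.br 46 (.br 39 .dead .dead (.kem 0 1 10 26635525120) .dead) .dead .dead .dead) .dead .dead) .dead .dead .dead) .dead)) .dead .dead) .dead)) .dead))) .dead)) .dead (.br 30 .dead .dead .dead (.br 31 .dead .dead (.br 32 (.br 35 (.br 36 .dead (.br 37 (.br 42 .dead .dead (.br 43 .dead .dead .dead (.br 44 .dead .dead (.br 48 .dead (.br 47 (.br 46 .dead (.br 45 .dead .dead .dead (.kem 0 1 10 496975289637888)) .dead .dead) .dead .dead .dead) .dead .dead) .dead)) .dead) .dead .dead .dead) .dead .dead) .dead .dead (.br 41 .dead .dead (.br 40 .dead .dead .dead (.br 39 .dead .dead (.br 36 (.br 37 .dead (.br 38 .dead .dead .dead (.kem 0 1 10 30393621504)) .dead .dead) (.kem 0 2 29 536870912) .dead .dead) .dead)) .dead)) .dead .dead (.kem 0 1 10 60414976)) .dead)) .dead) .dead .dead) .dead .dead .dead) .dead .dead) .dead .dead) .dead)) .dead .dead .dead) .dead .dead)) (.br 22 .dead .dead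 (.br 27 .dead .dead (.br 26 .dead .dead .dead (.br 23 .dead (.br 24 (.br 25 .dead (.br 28 (.br 29 .dead .dead .dead (.br 30 .dead .dead (.br 31 .dead .dead .dead (.br 34 .dead (.br 33 (.br 32 .dead .dead (.kem 0 1 10 60414976) .dead) .dead .dead .dead) .dead .dead)) .dead)) (.br 34 (.br 33 .dead (.br 29 (.br 30 .dead .dead (.br 31 .dead .dead .dead (.br 32 (.kem 2 3 21 207618048) .dead (.br 35 .dead .dead (.br 41 .dead .dead .dead (.br 40 .dead .dead (.br 42 .dead (.br 36 .dead .dead .dead (.br 43 .dead .dead (.br 44 .dead .dead .dead (.br 45 .dead (.br 38 (.br 37 .dead (.br 39 .dead .dead .dead (.kem 0 1 10 26635525120)) .dead .dead) .dead .dead .dead) .dead .dead)) .dead)) .dead .dead) .dead)) (.br 36 .dead (.br 37 (.br 38 .dead (.br 41 .dead .dead (.br 40 .dead .dead .dead (.br 39 (.kem 2 3 21 7723810816) .dead .dead .dead)) .dead) .dead .dead) .dead .dead .dead) .dead .dead)) .dead)) (.br 31 .dead .dead (.br 32 (.kem 2 3 21 207618048) .dead .dead .dead) .dead)) .dead .dead (.br 30 .dead .dead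 (.br 31 .dead .dead .dead (.br 32 (.br 35 (.br 36 .dead (.br 37 (.br 42 .dead .dead (.br 43 .dead .dead .dead (.br 44 .dead .dead (.br 38 .dead (.kem 2 3 21 3965714432) .dead .dead) .dead)) .dead) .dead .dead .dead) .dead .dead) .dead (.br 41 .dead .dead .dead (.br 40 .dead .dead (.br 39 .dead .dead .dead (.br 42 .dead (.br 36 (.br 37 .dead (.br 38 .dead .dead (.kem 0 1 10 30393621504) .dead) .dead .dead) .dead .dead .dead) .dead .dead)) .dead)) .dead) .dead (.kem 0 1 10 60414976) .dead)) .dead)) .dead .dead) .dead .dead .dead) .dead .dead) (.br 28 (.br 29 .dead .dead .dead (.br 30 .dead .dead (.br 34 .dead (.br 33 (.br 32 .dead (.br 31 .dead .dead .dead (.kem 0 1 10 26860544)) .dead .dead) .dead .dead .dead) .dead .dead) .dead)) (.br 34 (.br 33 .dead (.br 32 (.br 29 (.br 30 .dead .dead (.br 31 .dead (.br 35 .dead .dead (.br 41 .dead .dead .dead (.br 40 .dead .dead (.br 39 .dead .dead .dead (.br 38 .dead .dead (.br 42 .dead (.br 36 .dead .dead .dead (.br 37 (.br 43 .dead .dead (.br 44 .dead .dead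 .dead (.kem 0 1 10 170483375104)) .dead) .dead .dead .dead)) .dead .dead) .dead)) .dead)) (.br 36 .dead (.br 41 .dead .dead (.br 40 .dead .dead .dead (.br 39 .dead .dead (.br 38 .dead .dead .dead (.br 37 (.br 42 .dead .dead (.br 43 .dead .dead .dead (.br 44 .dead .dead (.kem 0 1 10 239202851840) .dead)) .dead) .dead .dead .dead)) .dead)) .dead) .dead .dead)) .dead (.kem 1 2 25 33554432)) (.br 31 .dead (.br 35 .dead .dead (.br 36 .dead (.br 42 .dead .dead .dead .dead) .dead .dead) (.br 41 .dead .dead (.br 40 .dead .dead .dead (.br 39 .dead .dead (.br 38 .dead .dead .dead (.br 44 .dead .dead (.br 37 (.kem 1 2 25 2181038080) .dead .dead .dead) .dead)) .dead)) .dead)) .dead .dead)) .dead .dead (.br 30 .dead .dead (.br 31 .dead (.br 35 (.br 36 .dead (.br 42 .dead .dead (.br 43 .dead .dead .dead (.br 37 (.br 44 .dead .dead (.br 38 .dead .dead .dead (.br 39 .dead .dead (.br 40 .dead .dead .dead (.br 41 .dead .dead (.br 45 .dead (.br 46 (.br 47 .dead (.br 48 .dead .dead .dead .dead) .dead .dead) .dead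 .dead .dead) .dead .dead) .dead)) .dead)) .dead) .dead .dead .dead)) .dead) .dead .dead) .dead (.br 41 .dead .dead .dead (.br 40 .dead .dead (.br 39 .dead .dead .dead (.br 38 .dead .dead (.br 42 .dead (.br 36 (.br 37 .dead .dead .dead (.kem 0 1 10 32507550720)) .dead .dead .dead) .dead .dead) .dead)) .dead)) .dead) .dead (.kem 0 1 10 26860544)) .dead)) .dead .dead .dead) .dead .dead) .dead .dead .dead) .dead .dead) .dead) .dead .dead .dead) .dead (.br 24 (.br 25 .dead (.br 28 (.br 29 .dead (.br 30 .dead .dead (.br 31 .dead .dead .dead (.br 34 .dead (.br 33 (.br 32 .dead .dead (.kem 0 1 10 52026368) .dead) .dead .dead .dead) .dead .dead)) .dead) .dead .dead) (.br 29 (.br 34 (.br 33 .dead (.br 30 .dead (.br 31 .dead .dead (.br 32 (.br 35 .dead .dead (.br 36 .dead .dead .dead (.br 37 (.br 41 .dead .dead .dead (.br 40 .dead .dead (.br 39 .dead .dead .dead (.br 38 .dead (.br 45 .dead .dead .dead .dead) .dead .dead)) .dead)) .dead .dead .dead)) (.br 36 .dead .dead (.br 41 .dead .dead (.br 40 .dead .dead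 .dead (.br 39 .dead .dead (.br 42 .dead (.br 43 .dead .dead .dead (.br 37 (.kem 1 3 23 1082130432) .dead .dead .dead)) .dead .dead) .dead)) .dead) .dead)) .dead .dead .dead) (.br 32 (.br 35 .dead .dead (.br 36 .dead .dead .dead (.br 41 .dead .dead .dead (.br 40 .dead .dead (.br 39 .dead .dead .dead (.br 42 .dead (.br 43 .dead .dead (.br 37 (.br 44 .dead .dead .dead (.br 45 .dead (.br 38 .dead .dead (.kem 0 1 10 169434799104) .dead) .dead .dead)) .dead .dead .dead) .dead) .dead .dead)) .dead))) (.br 36 .dead .dead (.br 37 (.br 41 .dead .dead (.br 40 .dead .dead .dead (.br 39 .dead .dead (.br 38 .dead (.kem 2 3 31 2147483648) .dead .dead) .dead)) .dead) .dead .dead .dead) .dead)) .dead (.br 35 .dead .dead (.br 36 .dead .dead .dead (.br 41 .dead .dead .dead (.br 40 .dead .dead (.br 42 .dead (.br 43 .dead .dead (.br 37 (.br 38 .dead (.br 44 .dead .dead .dead (.br 45 .dead .dead .dead .dead)) .dead .dead) .dead .dead .dead) .dead) .dead .dead) .dead))) (.br 36 .dead .dead (.br 37 (.br 38 .dead (.br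 41 .dead .dead (.br 40 .dead .dead .dead (.br 39 (.br 42 .dead (.br 43 .dead .dead .dead (.br 44 .dead .dead (.br 45 .dead .dead .dead (.br 46 .dead (.kem 0 2 32 554050781184) .dead .dead)) .dead)) .dead .dead) .dead .dead .dead)) .dead) .dead .dead) .dead .dead .dead) .dead)) .dead)) (.kem 1 3 23 8388608) .dead) .dead .dead) .dead .dead .dead) .dead .dead .dead) .dead .dead) (.kem 0 1 10 1694720) .dead) (.br 25 .dead .dead (.kem 0 1 10 1694720) .dead) .dead .dead))) .dead) .dead)) .dead .dead .dead)) (.br 18 .dead .dead (.br 19 (.br 21 .dead .dead (.br 22 .dead .dead .dead (.br 27 .dead .dead .dead (.br 26 .dead .dead (.br 23 .dead (.br 24 (.br 25 .dead (.kem 2 3 17 393216) .dead (.br 28 (.br 29 .dead .dead (.br 30 .dead .dead .dead (.br 34 .dead (.br 33 (.br 32 .dead (.br 31 .dead .dead (.kem 0 1 10 26860544) .dead) .dead .dead) .dead .dead .dead) .dead .dead)) .dead) (.br 34 (.br 33 .dead (.br 32 (.br 29 (.br 30 .dead .dead (.br 31 .dead (.kem 2 3 17 241565696) .dead .dead) (.br 31 .dead (.kem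 2 3 17 241565696) (.kem 1 3 25 33554432) .dead)) .dead (.br 30 .dead .dead .dead (.br 31 .dead (.br 35 (.br 36 .dead (.br 42 .dead .dead (.br 43 .dead .dead .dead (.br 44 .dead .dead (.br 37 (.kem 2 3 17 1852178432) .dead .dead .dead) .dead)) .dead) .dead .dead) .dead .dead (.br 41 .dead .dead (.br 40 .dead .dead .dead (.br 39 .dead .dead (.br 38 .dead .dead .dead (.br 44 .dead .dead (.br 37 (.br 36 .dead (.kem 0 2 29 536870912) .dead .dead) .dead .dead .dead) .dead)) .dead)) .dead)) (.kem 0 1 10 26860544) .dead)) .dead) .dead .dead .dead) .dead .dead) .dead .dead .dead) .dead .dead)) .dead .dead .dead) (.br 24 (.br 25 .dead (.br 28 (.br 29 .dead (.br 30 .dead .dead .dead (.br 31 .dead .dead (.br 34 .dead (.br 33 (.br 32 .dead .dead .dead (.kem 0 1 10 52026368)) .dead .dead .dead) .dead .dead) .dead)) .dead .dead) (.br 29 (.br 34 (.br 33 .dead (.br 30 .dead (.br 31 .dead .dead (.br 32 (.kem 2 3 17 216399872) .dead .dead (.br 35 .dead .dead (.br 36 .dead .dead .dead (.br 37 (.br 38 .dead (.br 41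 .dead .dead .dead (.br 40 .dead .dead (.br 39 (.kem 2 3 17 6658850816) .dead .dead .dead) .dead)) .dead .dead) .dead .dead .dead)) (.br 36 .dead .dead (.br 41 .dead .dead (.br 40 .dead .dead .dead (.br 42 .dead (.br 43 .dead .dead .dead (.br 37 (.br 38 .dead (.br 44 .dead .dead (.br 45 .dead .dead .dead (.br 48 (.br 47 .dead (.br 46 (.br 39 .dead .dead (.kem 0 1 10 440017738752) .dead) .dead .dead .dead) .dead .dead) .dead .dead .dead)) .dead) .dead .dead) .dead .dead .dead)) .dead .dead)) .dead) .dead))) (.br 32 (.kem 2 3 17 216399872) .dead .dead .dead)) .dead (.kem 1 2 23 8388608)) .dead .dead) .dead .dead .dead) .dead .dead .dead) .dead .dead) .dead (.kem 0 1 10 1694720)) (.br 25 .dead .dead .dead (.kem 0 1 10 1694720)) .dead .dead) .dead) .dead))) (.br 22 .dead .dead (.br 23 .dead (.br 24 (.br 27 .dead .dead (.br 26 .dead .dead .dead (.br 25 .dead (.kem 2 3 17 393216) .dead .dead)) .dead) .dead .dead .dead) .dead .dead) .dead)) .dead .dead (.br 21 .dead .dead (.br 22 .dead .dead .dead (.br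 27 .dead .dead .dead (.br 23 .dead (.br 24 (.br 25 .dead (.br 26 (.br 28 (.br 29 .dead .dead (.br 30 .dead .dead .dead (.br 31 .dead .dead (.br 32 .dead .dead .dead (.br 34 .dead (.br 33 .dead .dead (.kem 0 1 10 126999552) .dead) .dead .dead)) .dead)) .dead) (.br 34 (.br 29 (.br 30 .dead .dead (.br 31 .dead .dead .dead (.br 32 .dead .dead (.br 33 .dead (.br 35 .dead .dead (.br 41 .dead .dead .dead (.br 40 .dead .dead (.br 42 .dead (.br 36 .dead .dead .dead (.br 43 .dead .dead (.br 44 .dead .dead .dead (.br 45 .dead (.br 38 (.br 37 .dead (.br 39 .dead .dead .dead (.kem 0 1 10 26702109696)) .dead .dead) .dead .dead .dead) .dead .dead)) .dead)) .dead .dead) .dead)) (.br 36 .dead (.br 37 (.br 38 .dead (.br 41 .dead .dead (.br 40 .dead .dead .dead (.br 39 (.br 42 .dead .dead (.br 43 .dead .dead .dead (.br 44 .dead .dead (.br 45 .dead .dead .dead (.kem 0 1 10 493638703504384)) .dead)) .dead) .dead .dead .dead)) .dead) .dead .dead) .dead .dead .dead) .dead .dead)) .dead .dead) .dead)) (.br 31 .dead .dead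 (.br 32 .dead .dead .dead (.br 33 .dead (.br 35 .dead .dead (.br 36 .dead (.br 42 .dead .dead .dead .dead) .dead .dead) (.br 41 .dead .dead (.br 40 .dead .dead .dead (.br 36 .dead (.br 37 (.br 38 .dead (.br 42 .dead .dead (.br 43 .dead .dead .dead (.br 44 .dead .dead (.br 45 .dead .dead .dead (.kem 0 1 10 493638703504384)) .dead)) .dead) .dead .dead) .dead .dead .dead) (.br 42 .dead (.br 43 .dead .dead .dead (.br 44 .dead .dead (.br 48 (.br 47 .dead (.br 46 (.br 39 .dead .dead (.kem 0 1 10 26702109696) .dead) .dead .dead .dead) .dead .dead) .dead .dead .dead) .dead)) .dead .dead) .dead)) .dead)) (.br 35 .dead .dead (.br 36 .dead (.br 42 .dead .dead .dead .dead) .dead .dead) (.br 41 .dead .dead (.br 36 .dead (.br 37 (.br 38 .dead (.br 39 (.br 42 .dead .dead (.br 43 .dead .dead .dead (.br 44 .dead .dead (.br 45 .dead .dead .dead (.kem 0 1 10 494729625197568)) .dead)) .dead) .dead .dead .dead) .dead .dead) .dead .dead .dead) (.br 42 .dead (.br 43 .dead .dead .dead (.br 44 .dead .dead (.br 48 (.br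 47 .dead (.br 40 .dead .dead .dead (.kem 0 1 10 18112175104)) .dead .dead) .dead .dead .dead) .dead)) .dead .dead) .dead) .dead)) .dead)) .dead)) .dead (.br 30 .dead .dead .dead (.br 31 .dead .dead (.br 32 .dead .dead .dead (.br 33 .dead (.br 35 (.br 36 .dead (.br 37 (.br 38 .dead (.br 42 .dead .dead (.br 43 .dead .dead .dead (.br 44 .dead .dead (.br 45 .dead .dead .dead (.kem 0 1 10 496971061255168)) .dead)) .dead) .dead .dead) .dead .dead .dead) .dead .dead) .dead .dead (.br 41 .dead .dead (.br 40 .dead .dead .dead (.br 36 (.br 37 .dead (.br 38 (.br 39 .dead .dead (.kem 0 1 10 26165238784) .dead) .dead .dead .dead) .dead .dead) (.kem 0 2 29 536870912) .dead .dead)) .dead)) (.kem 0 1 10 126999552) .dead)) .dead)) .dead) .dead .dead .dead) .dead .dead) .dead (.kem 0 3 19 524288) .dead) .dead .dead) .dead .dead .dead) (.br 24 (.br 25 .dead (.br 26 (.br 28 (.br 29 .dead (.br 30 .dead .dead .dead (.br 31 .dead .dead (.br 32 .dead .dead .dead (.br 34 .dead (.br 33 .dead .dead (.kem 0 1 10 118610944)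 .dead) .dead .dead)) .dead)) .dead .dead) (.br 29 (.br 34 (.br 30 .dead (.br 31 .dead .dead (.br 32 .dead .dead .dead (.br 33 .dead (.br 35 .dead .dead (.br 36 .dead .dead .dead (.br 37 (.br 38 .dead (.br 41 .dead .dead .dead (.br 40 .dead .dead (.br 39 (.br 42 .dead (.br 43 .dead .dead (.br 44 .dead .dead .dead (.br 45 .dead .dead .dead .dead)) .dead) .dead .dead) .dead .dead .dead) .dead)) .dead .dead) .dead .dead .dead)) (.br 36 .dead .dead (.br 41 .dead .dead (.br 40 .dead .dead .dead (.br 42 .dead (.br 43 .dead .dead .dead (.br 37 (.br 38 .dead (.br 44 .dead .dead (.br 45 .dead .dead .dead (.br 48 (.br 47 .dead (.br 46 (.br 39 .dead .dead (.kem 0 1 10 440084323328) .dead) .dead .dead .dead) .dead .dead) .dead .dead .dead)) .dead) .dead .dead) .dead .dead .dead)) .dead .dead)) .dead) .dead)) (.br 35 .dead .dead (.br 36 .dead .dead .dead (.br 37 (.br 38 .dead (.br 39 (.br 41 .dead .dead .dead (.br 40 .dead (.br 46 .dead .dead .dead .dead) .dead .dead)) .dead .dead .dead) .dead .dead) .dead .dead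 .dead)) (.br 36 .dead .dead (.br 41 .dead .dead (.br 42 .dead (.br 43 .dead .dead .dead (.br 37 (.br 38 .dead (.br 39 (.br 44 .dead .dead (.br 45 .dead .dead .dead (.br 46 .dead (.br 40 .dead .dead .dead (.kem 1 2 33 8589934592)) .dead .dead)) .dead) .dead .dead .dead) .dead .dead) .dead .dead .dead)) .dead .dead) .dead) .dead)) .dead)) (.br 32 .dead .dead (.br 33 .dead (.br 35 .dead .dead (.br 36 .dead .dead .dead (.br 41 .dead .dead .dead (.br 40 .dead .dead (.br 42 .dead (.br 43 .dead .dead (.br 37 (.kem 1 2 23 1082130432) .dead .dead .dead) .dead) .dead .dead) .dead))) (.br 36 .dead .dead (.br 37 (.br 38 .dead (.br 41 .dead .dead (.br 40 .dead .dead .dead (.br 39 (.kem 2 3 31 6442450944) .dead .dead .dead)) .dead) .dead .dead) .dead .dead .dead) .dead)) .dead .dead) .dead)) .dead (.kem 1 2 23 8388608)) .dead .dead .dead) .dead .dead .dead) .dead .dead) .dead (.kem 0 1 10 1170432) .dead) .dead .dead) (.br 25 (.br 26 .dead .dead (.kem 0 1 10 1170432) .dead) .dead .dead .dead) .dead .dead) .dead)))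 (.br 22 .dead .dead (.br 23 .dead (.br 24 (.br 25 .dead (.br 27 .dead .dead (.br 26 (.br 28 (.br 29 .dead .dead .dead (.br 30 .dead .dead (.br 31 .dead .dead .dead (.br 32 .dead .dead (.br 34 .dead (.br 33 .dead .dead .dead (.kem 0 1 10 126999552)) .dead .dead) .dead)) .dead)) (.br 34 (.br 29 (.br 30 .dead .dead (.br 31 .dead .dead .dead (.br 32 .dead .dead (.br 33 .dead (.kem 0 3 19 67633152) .dead (.br 35 .dead .dead (.br 41 .dead .dead .dead (.br 42 .dead (.br 36 .dead .dead .dead (.br 43 .dead .dead (.br 44 .dead .dead .dead (.br 45 .dead (.br 38 (.br 39 .dead .dead .dead .dead) .dead .dead .dead) .dead .dead)) .dead)) .dead .dead)) (.br 36 .dead (.br 37 (.br 38 .dead (.br 39 (.br 41 .dead .dead (.br 40 .dead (.kem 2 3 21 16246636544) .dead .dead) .dead) .dead .dead .dead) .dead .dead) .dead .dead .dead) .dead .dead))) .dead)) (.br 31 .dead .dead (.br 32 .dead .dead .dead (.br 33 .dead (.kem 2 3 21 140509184) .dead .dead)) .dead)) .dead .dead (.br 30 .dead .dead (.br 31 .dead .dead .dead (.br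 32 .dead .dead (.br 33 .dead (.kem 0 3 19 67633152) .dead (.kem 0 1 10 126999552)) .dead)) .dead)) .dead .dead .dead) .dead .dead) .dead .dead .dead) .dead) .dead .dead) .dead .dead .dead) .dead .dead) .dead))) .dead))

def t7C_13 : Tree :=
  (.br 10 (.br 11 .dead (.br 12 (.br 13 .dead t7C_10 (.br 14 (.br 15 .dead (.br 16 .dead .dead (.br 17 .dead .dead .dead (.br 18 .dead .dead (.br 20 .dead (.br 19 .dead .dead .dead (.br 21 .dead .dead (.br 27 .dead .dead .dead (.br 22 (.kem 1 3 9 33280) .dead .dead (.br 23 (.br 24 .dead (.br 25 (.br 26 .dead .dead (.br 28 (.br 34 .dead (.br 33 (.br 29 .dead (.br 30 .dead .dead (.br 31 .dead .dead .dead (.br 32 .dead (.br 35 .dead .dead (.br 41 .dead .dead .dead (.br 40 .dead .dead (.br 39 .dead .dead .dead (.br 42 .dead (.br 45 .dead (.br 46 (.br 47 .dead (.br 48 (.br 36 (.kem 1 3 9 541098496) .dead .dead (.br 43 .dead .dead (.br 44 .dead .dead .dead (.br 37 (.br 38 .dead .dead (.fin [(0,1,30928797696),(0,1,1097728),(1,2,13228769820930),(1,3,205170736760848),(1,2,21715862634754),(0,1,71971640558608),(1,2,17731239837954),(1,2,562949953421311),(2,3,562949953421311)])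 .dead) (.kem 0 3 36 68719476736) .dead .dead)) .dead)) .dead .dead .dead) .dead .dead) .dead .dead .dead) .dead .dead) .dead .dead)) .dead)) (.br 36 (.br 37 .dead (.br 41 .dead .dead (.br 40 .dead .dead .dead (.br 39 .dead .dead (.br 38 (.br 42 .dead (.br 48 (.br 47 .dead (.br 46 (.br 43 .dead .dead (.br 44 .dead .dead .dead (.br 45 .dead (.kem 2 3 35 3882650435584) .dead .dead)) (.br 44 .dead .dead (.br 45 .dead (.kem 2 3 35 3882650435584) .dead (.kem 1 2 13 554118946816)) .dead)) .dead .dead .dead) .dead .dead) .dead .dead .dead) (.br 43 .dead .dead .dead (.br 44 .dead .dead (.br 45 .dead (.br 46 (.br 47 .dead (.br 48 (.kem 1 3 9 34900836864) .dead .dead .dead) .dead .dead) .dead .dead .dead) .dead (.br 46 (.kem 1 2 13 554118946816) (.kem 0 1 46 492581209243648) .dead .dead)) .dead)) .dead) .dead .dead .dead) .dead)) .dead) .dead .dead) .dead .dead .dead)) .dead .dead)) (.br 31 .dead .dead (.br 32 .dead (.br 35 .dead .dead (.br 36 (.br 37 .dead (.br 41 .dead .dead .dead (.br 40 .dead .dead (.br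 39 .dead .dead .dead (.br 38 (.kem 2 3 30 3221225472) .dead .dead .dead)) .dead)) .dead .dead) .dead .dead .dead) (.br 41 .dead .dead (.br 40 .dead .dead .dead (.br 39 .dead .dead (.br 36 (.br 37 .dead (.br 38 (.kem 2 3 30 3221225472) .dead .dead (.br 44 .dead .dead (.br 43 .dead .dead .dead (.br 45 .dead (.kem 0 3 38 274877906944) .dead .dead)) .dead)) .dead .dead) .dead (.br 42 .dead (.br 43 .dead .dead .dead (.br 44 .dead .dead (.br 48 (.br 47 .dead (.br 46 (.br 37 (.br 38 .dead .dead .dead (.br 45 .dead (.kem 2 3 30 30617748111360) .dead .dead)) (.kem 0 2 36 68719476736) .dead .dead) .dead .dead .dead) .dead .dead) .dead .dead .dead) .dead)) .dead .dead) .dead) .dead)) .dead)) .dead (.kem 1 2 13 68165632)) .dead)) (.kem 1 3 9 4227584) .dead) .dead .dead .dead) .dead .dead) (.br 29 .dead .dead (.br 30 .dead .dead .dead (.br 31 .dead .dead (.br 34 (.br 33 .dead (.br 32 .dead .dead .dead (.br 35 (.br 36 .dead (.br 37 (.br 38 .dead (.br 42 .dead .dead (.br 43 .dead .dead .dead (.br 44 .dead .dead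 (.br 45 .dead .dead .dead (.kem 0 1 28 496970934255616)) .dead)) .dead) .dead .dead) .dead .dead .dead) .dead .dead) .dead .dead (.br 41 .dead .dead (.br 40 .dead .dead .dead (.br 36 (.br 37 .dead (.br 38 (.br 39 .dead .dead (.kem 0 1 28 26038239232) .dead) .dead .dead .dead) .dead .dead) (.br 37 (.br 38 .dead (.br 42 .dead .dead (.br 43 .dead .dead .dead (.br 44 .dead .dead (.br 45 .dead .dead .dead (.kem 0 1 28 493638039633920)) .dead)) .dead) .dead .dead) .dead .dead .dead) .dead .dead)) .dead))) .dead .dead) .dead .dead .dead) .dead)) .dead) .dead .dead) .dead) .dead .dead .dead) .dead .dead) (.br 24 (.br 25 .dead (.br 26 (.kem 1 2 13 1056768) .dead (.br 28 (.br 29 .dead .dead (.br 30 .dead .dead .dead (.br 31 .dead .dead (.br 34 .dead (.br 33 (.br 32 .dead .dead .dead (.kem 0 1 23 58720256)) .dead .dead .dead) .dead .dead) .dead)) .dead) (.br 34 (.br 33 .dead (.br 29 (.br 30 .dead .dead (.br 31 .dead .dead .dead (.br 32 (.br 35 .dead .dead (.br 41 .dead .dead .dead (.br 40 .dead .dead (.br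 39 .dead .dead .dead (.br 42 .dead (.br 36 .dead .dead .dead (.br 43 .dead .dead (.br 44 .dead .dead .dead (.br 45 .dead (.br 38 .dead .dead (.kem 0 1 23 30928797696) .dead) .dead .dead)) .dead)) .dead .dead)) .dead)) (.br 36 .dead (.br 37 (.br 41 .dead .dead (.br 40 .dead .dead .dead (.br 39 .dead .dead (.br 38 .dead (.br 42 .dead .dead (.br 43 .dead .dead .dead (.br 44 .dead .dead (.br 45 .dead .dead .dead (.kem 0 1 23 511965134848)) .dead)) .dead) .dead .dead) .dead)) .dead) .dead .dead .dead) .dead .dead)) .dead .dead .dead)) (.br 31 .dead .dead (.br 32 (.br 35 .dead .dead (.br 36 .dead (.br 42 .dead .dead .dead .dead) .dead .dead) (.br 41 .dead .dead (.br 40 .dead .dead .dead (.br 39 .dead .dead (.br 36 .dead (.br 37 (.br 42 .dead .dead (.br 43 .dead .dead .dead (.br 44 .dead .dead (.br 38 .dead (.kem 2 3 30 3221225472) .dead (.kem 0 1 23 237087227904)) .dead)) .dead) .dead .dead .dead) (.br 42 .dead (.br 43 .dead .dead .dead (.br 44 .dead .dead (.br 48 (.br 47 .dead (.br 46 (.br 37 (.kem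 1 2 36 4466765987840) (.br 38 .dead .dead .dead (.kem 0 1 23 30928797696)) .dead .dead) .dead .dead .dead) .dead .dead) .dead .dead .dead) .dead)) .dead .dead) .dead) .dead)) .dead)) .dead .dead (.kem 0 2 26 67108864)) .dead)) .dead (.kem 0 3 22 4194304) .dead) .dead .dead) .dead .dead .dead) .dead .dead) .dead) .dead .dead) .dead .dead .dead) .dead .dead))) (.br 22 (.br 23 .dead (.br 24 (.br 25 .dead (.br 27 .dead .dead (.br 26 (.br 28 .dead (.br 34 (.br 29 .dead .dead (.br 30 .dead .dead .dead (.br 31 .dead .dead (.br 32 .dead .dead .dead (.br 33 .dead (.kem 2 3 21 136314880) .dead .dead)) .dead)) (.br 30 .dead .dead (.br 31 .dead .dead .dead (.br 32 .dead .dead (.br 33 .dead (.kem 2 3 21 136314880) .dead (.kem 1 2 13 135274496)) .dead)) .dead)) .dead .dead .dead) (.br 29 .dead .dead .dead (.br 30 .dead .dead (.br 31 .dead .dead .dead (.br 32 .dead .dead (.br 33 .dead (.br 34 (.kem 1 3 9 2130432) .dead .dead .dead) .dead (.br 34 (.kem 1 3 9 2130432) (.br 35 (.br 36 .dead (.br 37 (.br 38 .dead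 (.br 39 (.br 40 .dead .dead (.br 41 .dead .dead .dead (.kem 0 1 34 17179869184)) .dead) .dead .dead .dead) .dead .dead) .dead .dead .dead) .dead .dead) (.br 36 (.br 37 .dead (.br 38 (.br 39 .dead (.br 42 .dead .dead (.br 43 .dead .dead .dead (.br 44 .dead .dead (.br 45 .dead .dead .dead (.kem 0 1 34 496962075885568)) .dead)) .dead) .dead .dead) .dead .dead .dead) .dead .dead) .dead .dead .dead) .dead .dead) .dead .dead)) .dead)) .dead)) .dead) .dead .dead .dead) .dead) .dead .dead) .dead .dead .dead) .dead .dead) .dead .dead .dead))) .dead .dead) .dead)) .dead) .dead .dead) (.br 15 (.br 20 (.br 16 .dead t7C_11 (.kem 1 3 9 512) .dead) .dead .dead .dead) .dead .dead .dead) .dead .dead) .dead) .dead .dead .dead) .dead .dead) (.br 11 (.br 12 .dead (.br 13 .dead .dead (.br 14 (.br 15 .dead (.br 20 .dead (.br 16 t7C_12 .dead (.br 17 .dead .dead .dead (.br 18 .dead .dead (.br 19 (.br 21 .dead .dead (.br 27 .dead .dead .dead (.br 26 .dead .dead (.br 22 (.br 23 .dead (.br 24 (.br 25 .dead (.br 28 .dead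 (.br 34 (.br 33 .dead (.br 29 .dead .dead (.br 30 .dead .dead .dead (.br 31 .dead .dead (.br 32 (.br 35 (.br 36 .dead (.br 37 (.br 42 .dead .dead (.br 43 .dead .dead .dead (.br 44 .dead .dead (.br 48 .dead (.br 47 (.br 46 .dead (.br 45 .dead .dead .dead (.kem 0 1 10 496975293766656)) .dead .dead) .dead .dead .dead) .dead .dead) .dead)) .dead) .dead .dead .dead) .dead .dead) .dead .dead (.br 41 .dead .dead (.br 40 .dead .dead .dead (.br 39 .dead .dead (.br 36 (.br 37 .dead (.br 38 .dead .dead .dead (.kem 0 1 10 30397750272)) .dead .dead) (.br 37 (.br 42 .dead .dead (.br 43 .dead .dead .dead (.br 44 .dead .dead (.br 38 .dead (.br 45 .dead .dead .dead (.kem 0 1 10 511434087424)) .dead (.kem 0 1 10 30397750272)) .dead)) .dead) .dead .dead .dead) .dead .dead) .dead)) .dead)) .dead .dead (.br 35 (.br 36 .dead (.br 37 (.br 38 .dead (.br 42 .dead .dead (.br 43 .dead .dead .dead (.br 44 .dead .dead (.br 45 .dead .dead .dead (.kem 0 1 10 496970998799360)) .dead)) .dead) .dead .dead) .dead .dead .dead) .dead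 .dead) .dead .dead (.br 41 .dead .dead (.br 40 .dead .dead .dead (.br 36 (.br 37 .dead (.br 38 (.br 39 .dead .dead (.kem 0 1 10 26102782976) .dead) .dead .dead .dead) .dead .dead) (.br 37 (.br 38 .dead (.br 42 .dead .dead (.br 43 .dead .dead .dead (.br 44 .dead .dead (.br 45 .dead .dead .dead (.kem 0 1 10 493638104177664)) .dead)) .dead) .dead .dead) .dead .dead .dead) .dead .dead)) .dead))) .dead)) (.br 30 .dead .dead (.br 31 .dead .dead .dead (.br 32 (.br 35 (.br 36 .dead (.br 37 (.br 42 .dead .dead (.br 43 .dead .dead .dead (.br 44 .dead .dead (.br 38 .dead (.kem 2 3 29 3758096384) .dead .dead) .dead)) .dead) .dead .dead .dead) .dead .dead) .dead (.br 41 .dead .dead .dead (.br 40 .dead .dead (.br 39 .dead .dead .dead (.br 42 .dead (.br 36 (.br 37 .dead (.br 38 .dead .dead (.kem 0 1 10 30397750272) .dead) .dead .dead) .dead .dead .dead) .dead .dead)) .dead)) .dead) .dead .dead .dead)) .dead)) .dead .dead) .dead .dead .dead) .dead (.br 29 .dead .dead (.br 30 .dead .dead .dead (.br 31 .dead .dead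 (.br 32 (.br 33 .dead (.br 34 (.br 35 (.br 36 .dead (.br 37 (.br 42 .dead .dead (.br 43 .dead .dead .dead (.br 44 .dead .dead (.br 48 .dead (.br 41 .dead .dead (.kem 1 3 28 268435456) .dead) .dead .dead) .dead)) .dead) .dead .dead .dead) .dead .dead) (.br 36 (.br 37 .dead (.br 38 .dead .dead .dead (.br 39 .dead .dead (.br 40 .dead .dead .dead (.br 41 .dead .dead (.kem 0 1 10 30129314816) .dead)) .dead)) .dead .dead) .dead .dead .dead) .dead .dead) .dead .dead .dead) .dead .dead) .dead .dead (.kem 0 1 10 64543744)) .dead)) .dead)) .dead (.br 28 .dead (.br 34 (.br 33 .dead (.br 32 (.br 29 .dead .dead (.br 30 .dead .dead .dead (.br 31 .dead (.br 35 (.br 36 .dead (.br 42 .dead .dead (.br 43 .dead .dead .dead (.br 44 .dead .dead (.br 37 (.br 38 .dead .dead .dead (.br 39 .dead .dead (.br 40 .dead .dead .dead (.br 41 .dead .dead (.br 45 .dead (.br 46 (.br 47 .dead (.br 48 .dead .dead .dead .dead) .dead .dead) .dead .dead .dead) .dead .dead) .dead)) .dead)) .dead .dead .dead) .dead)) .dead) .dead .dead)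 .dead .dead (.br 41 .dead .dead (.br 40 .dead .dead .dead (.br 39 .dead .dead (.br 38 .dead .dead .dead (.br 44 .dead .dead (.br 37 (.br 36 .dead (.br 42 .dead .dead (.br 43 .dead .dead .dead (.kem 0 1 10 238670109696)) .dead) .dead .dead) .dead .dead .dead) .dead)) .dead)) .dead)) (.kem 1 3 25 33554432) .dead)) (.br 30 .dead .dead (.br 31 .dead (.br 35 (.br 36 .dead (.br 42 .dead .dead (.br 43 .dead .dead .dead (.br 37 (.kem 2 3 29 1610612736) .dead .dead .dead)) .dead) .dead .dead) .dead (.br 41 .dead .dead .dead (.br 40 .dead .dead (.br 39 .dead .dead .dead (.br 38 .dead .dead (.br 42 .dead (.br 36 (.br 37 .dead .dead .dead (.kem 0 1 10 32511679488)) .dead .dead .dead) .dead .dead) .dead)) .dead)) .dead) .dead .dead) .dead)) .dead .dead .dead) .dead .dead) .dead .dead .dead) .dead (.br 29 .dead .dead (.br 30 .dead .dead .dead (.br 31 .dead (.br 32 (.br 33 .dead (.br 34 (.br 35 (.br 36 .dead (.br 42 .dead .dead (.br 43 .dead .dead .dead (.br 44 .dead .dead (.br 37 (.br 38 .dead .dead .dead (.br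 39 .dead .dead (.br 40 .dead .dead .dead (.br 45 .dead (.br 46 (.br 47 .dead (.br 48 .dead .dead .dead .dead) .dead .dead) .dead .dead .dead) .dead .dead)) .dead)) .dead .dead .dead) .dead)) .dead) .dead .dead) (.br 36 (.br 37 .dead .dead (.br 38 .dead .dead .dead (.br 44 .dead .dead .dead .dead)) .dead) .dead .dead .dead) .dead .dead) .dead .dead .dead) .dead .dead) .dead .dead .dead) (.kem 0 1 10 30989312) .dead)) .dead))) .dead .dead .dead) .dead .dead) .dead .dead (.br 23 (.br 24 .dead (.br 25 .dead .dead .dead (.kem 0 1 10 1629184)) .dead .dead) (.kem 0 2 16 65536) .dead .dead)) .dead)) (.br 22 (.br 23 .dead (.br 24 (.br 27 .dead .dead (.br 26 .dead .dead .dead (.br 25 .dead (.br 28 .dead (.br 34 (.br 33 .dead (.br 29 .dead .dead (.br 30 .dead .dead .dead (.br 31 .dead .dead (.br 32 (.kem 2 3 21 203423744) .dead .dead .dead) .dead)) (.kem 0 2 16 4259840)) .dead .dead) .dead .dead .dead) (.br 29 .dead .dead .dead (.br 30 .dead .dead (.br 31 .dead .dead .dead (.br 32 (.br 33 .dead (.br 34 (.br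 35 (.br 36 .dead (.br 37 (.br 42 .dead .dead (.br 43 .dead .dead .dead (.br 44 .dead .dead (.br 38 .dead (.br 45 .dead .dead .dead (.kem 0 1 10 496975025331200)) .dead .dead) .dead)) .dead) .dead .dead .dead) .dead .dead) (.br 36 (.br 37 .dead (.br 38 .dead .dead (.br 39 .dead .dead .dead (.br 40 .dead .dead (.br 41 .dead .dead .dead (.kem 0 1 10 30129314816)) .dead)) .dead) .dead .dead) .dead .dead .dead) .dead .dead) .dead .dead .dead) .dead .dead) .dead (.kem 0 1 10 64543744) .dead)) .dead)) .dead) .dead .dead)) .dead) .dead .dead .dead) .dead .dead) .dead .dead .dead)) .dead .dead (.kem 0 1 10 7168)) .dead)) .dead) .dead .dead) .dead .dead) (.br 15 (.br 16 .dead .dead (.br 17 .dead .dead .dead (.br 18 .dead .dead (.br 20 (.br 19 .dead .dead .dead (.kem 0 1 10 7168)) .dead .dead .dead) .dead)) .dead) .dead .dead .dead) .dead .dead) .dead) .dead .dead) .dead .dead .dead) .dead .dead)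

def t7C_root : Tree :=
  (.br 7 .dead .dead (.br 8 .dead .dead .dead (.br 9 .dead (.br 10 (.br 11 .dead (.br 12 (.br 13 .dead (.br 14 (.br 15 .dead .dead (.br 16 .dead .dead .dead (.br 17 .dead .dead (.br 18 .dead .dead .dead (.br 19 .dead .dead (.br 20 .dead .dead .dead t7C_0) .dead)) .dead)) .dead) t7C_3 .dead .dead) .dead .dead) .dead .dead .dead) .dead .dead) .dead .dead .dead) .dead .dead)) (.br 8 .dead .dead (.br 9 .dead (.br 10 (.br 11 .dead (.br 12 (.br 13 .dead t7C_4 (.br 14 (.br 15 .dead .dead .dead (.br 16 .dead .dead (.br 17 .dead .dead .dead (.br 18 .dead .dead (.br 20 .dead (.br 19 .dead .dead .dead t7C_5) .dead .dead) .dead)) .dead)) (.br 20 t7C_7 .dead .dead .dead) .dead .dead) .dead) .dead .dead .dead) .dead .dead) .dead .dead .dead) .dead t7C_13) .dead))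


theorem check7C : check 4 49 7 nbs7 282918438129685 7284969349162 184763061635776 87983484306688 t7C_root 5 2 40 80 = true := by
  decide +kernel

end Pool.Agent.Lib.WSK
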