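import Mathlib
import Pool.Agent.Lib.WSK.Seven1

set_option autoImplicit false
set_option maxRecDepth 100000

namespace Pool.Agent.Lib.WSK

/-- the canonical first rows -/
def canTab : List (List (Fin 4)) := [[0, 1, 2, 1, 2, 1, 2], [0, 1, 2, 3, 2, 3, 2],
  [0, 1, 0, 2, 3, 2, 3]]

/-- the canonical first rows -/
def canRow (i : ℕ) (x : ZMod 7) : Fin 4 := (canTab.getD i []).getD x.val 0

/-- the permutations of four letters as lists -/
def perms4 : List (List (Fin 4)) := [[0,1,2,3],[0,1,3,2],[0,2,1,3],[0,2,3,1],[0,3,1,2],[0,3,2,1],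
  [1,0,2,3],[1,0,3,2],[1,2,0,3],[1,2,3,0],[1,3,0,2],[1,3,2,0],
  [2,0,1,3],[2,0,3,1],[2,1,0,3],[2,1,3,0],[2,3,0,1],[2,3,1,0],
  [3,0,1,2],[3,0,2,1],[3,1,0,2],[3,1,2,0],[3,2,0,1],[3,2,1,0]]

/-- the map given by a list -/
def pmap (i : ℕ) (c : Fin 4) : Fin 4 := (perms4.getD i []).getD c.val 0

theorem pmap_inj : ∀ i, i < 24 → ∀ a b : Fin 4, pmap i a = pmap i b → a = b := by
  decide +kernel

/-- entry of a row of seven -/
def ent (a0 a1 a2 a3 a4 a5 a6 : Fin 4) (k : ℕ) : Fin 4 :=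
  [a0, a1, a2, a3, a4, a5, a6].getD (k % 7) 0

/-- the row can be rotated and recoloured to a canonical one -/
def canonical (a0 a1 a2 a3 a4 a5 a6 : Fin 4) : Bool :=
  (List.range 7).any fun s => (List.range 24).any fun i => (List.range 3).any fun X =>
    (List.range 7).all fun x =>
      decide (pmap i (ent a0 a1 a2 a3 a4 a5 a6 (x + s)) = (canTab.getD X []).getD x 0)

/-- five equal steps -/
def fiveb (a0 a1 a2 a3 a4 a5 a6 : Fin 4) : Bool :=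
  Nat.beq (cnt7 1 (st a0 a1) (st a1 a2) (st a2 a3) (st a3 a4) (st a4 a5) (st a5 a6) (st a6 a0)) 5 ||
  Nat.beq (cnt7 2 (st a0 a1) (st a1 a2) (st a2 a3) (st a3 a4) (st a4 a5) (st a5 a6) (st a6 a0)) 5 ||
  Nat.beq (cnt7 3 (st a0 a1) (st a1 a2) (st a2 a3) (st a3 a4) (st a4 a5) (st a5 a6) (st a6 a0)) 5

theorem canonical_of_five : ∀ a0 a1 : Fin 4, a0 ≠ a1 → ∀ a2, a1 ≠ a2 → ∀ a3, a2 ≠ a3 →
    ∀ a4, a3 ≠ a4 → ∀ a5, a4 ≠ a5 → ∀ a6, a5 ≠ a6 → a6 ≠ a0 →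
    fiveb a0 a1 a2 a3 a4 a5 a6 = true → canonical a0 a1 a2 a3 a4 a5 a6 = true := by
  decide +kernel

end Pool.Agent.Lib.WSK
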