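import Mathlib
import Pool.Agent.Lib.WSK.Seven2
import Pool.Agent.Lib.WSK.Seven3A
import Pool.Agent.Lib.WSK.Seven3B
import Pool.Agent.Lib.WSK.Seven3C
import Pool.Agent.Lib.WSK.SevenRow

set_option autoImplicit false
set_option maxRecDepth 100000

/-!
# The WSK dynamics with four colours is ergodic on `T_7`
-/

namespace Pool.Agent.Lib.WSK

/-- the base colouring as a list -/
def base7 : List (Fin 4) := [0, 1, 0, 1, 0, 1, 2, 2, 3, 2, 3, 2, 0, 1, 0, 1, 0, 1, 3, 2, 3, 2, 3,
  2, 0, 1, 0, 1, 0, 1, 3, 2, 3, 2, 3, 2, 0, 1, 0, 1, 0, 1, 1, 2, 3, 2, 3, 2, 0]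

/-- the base colouring -/
def c0 (p : ZMod 7 × ZMod 7) : Fin 4 := base7.getD (p.1.val + 7 * p.2.val) 0

theorem adj_iff (x y : ZMod 7 × ZMod 7) : (triangularTorus 7).Adj x y ↔
    x ≠ y ∧ ((y = x + (1, 0) ∨ y = x + (0, 1) ∨ y = x + (1, -1)) ∨
      (x = y + (1, 0) ∨ x = y + (0, 1) ∨ x = y + (1, -1))) := by
  unfold triangularTorus
  rw [SimpleGraph.fromRel_adj]

theorem pt_of_proper {σ : ZMod 7 × ZMod 7 → Fin 4} (h : Proper (triangularTorus 7) σ) : PT σ := by
  refine ⟨?_, ?_, ?_⟩
  · intro x y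
    apply h
    rw [adj_iff]
    refine ⟨?_, Or.inl (Or.inl (by ext <;> simp))⟩
    intro he
    have := congrArg Prod.fst he
    simp at this
    exact absurd this (by decide)
  · intro x y
    apply h
    rw [adj_iff]
    refine ⟨?_, Or.inl (Or.inr (Or.inl (by ext <;> simp)))⟩
    intro he
    have := congrArg Prod.snd he
    simp at this
    exact absurd this (by decide)
  · intro x y
    apply h
    rw [adj_iff]
    refine ⟨?_, Or.inr (Or.inr (Or.inr (by ext <;> simp)))⟩
    intro he
    have := congrArg Prod.fst he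
    simp at this
    exact absurd this (by decide)

/-- translation by `(1, 0)` -/
def trIso : (triangularTorus 7) ≃g (triangularTorus 7) where
  toEquiv := Equiv.addRight ((1, 0) : ZMod 7 × ZMod 7)
  map_rel_iff' := by
    have : ∀ a b : ZMod 7 × ZMod 7, (triangularTorus 7).Adj (a + (1, 0)) (b + (1, 0)) ↔
        (triangularTorus 7).Adj a b := by decide +kernel
    intro a b
    exact this a b

/-- rotation by sixty degrees -/
def rotEquiv : (ZMod 7 × ZMod 7) ≃ (ZMod 7 × ZMod 7) where
  toFun := r6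
  invFun := fun p => (p.1 + p.2, -p.1)
  left_inv := by intro p; ext <;> simp [r6]
  right_inv := by intro p; ext <;> simp [r6]

/-- rotation by sixty degrees as an automorphism -/
def rotIso : (triangularTorus 7) ≃g (triangularTorus 7) where
  toEquiv := rotEquiv
  map_rel_iff' := by
    have : ∀ a b : ZMod 7 × ZMod 7, (triangularTorus 7).Adj (r6 a) (r6 b) ↔
        (triangularTorus 7).Adj a b := by decide +kernel
    intro a b
    exact this a b

theorem rotIso_apply (p : ZMod 7 × ZMod 7) : rotIso p = r6 p := rfl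

theorem trIso_apply (p : ZMod 7 × ZMod 7) : trIso p = p + (1, 0) := rfl

theorem ext_c0 : Ext 49 (tvtx 7) c0 282918438129685 7284969349162 184763061635776 87983484306688 := by
  unfold Ext
  decide +kernel

theorem eqv_c0_of_ext {ρ σ : ZMod 7 × ZMod 7 → Fin 4} (h : Eqv (triangularTorus 7) σ ρ)
    (hρ : Ext 49 (tvtx 7) ρ 282918438129685 7284969349162 184763061635776 87983484306688) :
    Eqv (triangularTorus 7) σ c0 := by
  have := ext_unique enum7 (by decide +kernel) hρ ext_c0
  rwa [this] at h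

theorem tr_c0 : Eqv (triangularTorus 7) (fun p => c0 (trIso p)) c0 := by
  have hE : Ext 49 (tvtx 7) (fun p => c0 (trIso p)) 141476265756746 282918438129685
      94563507381536 43991742153344 := by
    have : ∀ k, k < 49 → ∀ c, c < 4 → (sel c 141476265756746 282918438129685
      94563507381536 43991742153344).testBit k = true → (c0 (tvtx 7 k + (1, 0))).val = c := by
      decide +kernel
    exact this
  obtain ⟨ρ, h1, h2⟩ := runPath_sound (b0 := 282918438129685) (b1 := 7284969349162)
    (b2 := 184763061635776) (b3 := 87983484306688) enum7 le_rfl [(1,3,281474976710656),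
    (0,3,422247370197056),(0,2,288089361621024),(1,2,281474976710656),(0,1,562949953421311),
    (2,3,562949953421311)] _ _ _ _ _ hE (by decide +kernel)
  exact eqv_c0_of_ext h1 h2

theorem rot_c0 : Eqv (triangularTorus 7) (fun p => c0 (rotIso p)) c0 := by
  have hE : Ext 49 (tvtx 7) (fun p => c0 (rotIso p)) 282179922989077 184763061635776
      5773845684266 90233123112192 := by
    have : ∀ k, k < 49 → ∀ c, c < 4 → (sel c 282179922989077 184763061635776
      5773845684266 90233123112192).testBit k = true → (c0 (r6 (tvtx 7 k))).val = c := by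
      decide +kernel
    exact this
  obtain ⟨ρ, h1, h2⟩ := runPath_sound (b0 := 282918438129685) (b1 := 7284969349162)
    (b2 := 184763061635776) (b3 := 87983484306688) enum7 le_rfl [(2,3,17871560261890),
    (0,3,71400196064272),(2,3,21584123756802),(0,3,71485708370960),(1,2,562949953421311)]
    _ _ _ _ _ hE (by decide +kernel)
  exact eqv_c0_of_ext h1 h2

/-- translations preserve the class of the base colouring -/
theorem trs_c0 (s : ZMod 7) : Eqv (triangularTorus 7) (fun p => c0 (p + (s, 0))) c0 := by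
  have key : ∀ n : ℕ, Eqv (triangularTorus 7) (fun p => c0 (p + ((n : ZMod 7), 0))) c0 := by
    intro n
    induction n with
    | zero =>
      have : (fun p : ZMod 7 × ZMod 7 => c0 (p + (((0 : ℕ) : ZMod 7), 0))) = c0 := by
        funext p; congr 1; ext <;> simp
      rw [this]; exact Eqv.refl _
    | succ n ih =>
      have h1 := ih.transport trIso (Equiv.refl _)
      have e : (fun p : ZMod 7 × ZMod 7 => c0 (p + (((n + 1 : ℕ) : ZMod 7), 0))) =
          (fun x => (Equiv.refl (Fin 4)) (c0 (trIso x + ((n : ZMod 7), 0)))) := by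
        funext p
        simp only [Equiv.refl_apply, trIso_apply]
        congr 1
        ext
        · simp; ring
        · simp
      rw [e]
      exact h1.trans tr_c0
  have := key s.val
  rwa [ZMod.natCast_zmod_val] at this

theorem good_of_canRow {σ : ZMod 7 × ZMod 7 → Fin 4} (hσ : Proper (triangularTorus 7) σ)
    (i : ℕ) (hi : i < 3) (h : ∀ x : ZMod 7, σ (x, 0) = canRow i x) :
    Eqv (triangularTorus 7) σ c0 := by
  have key : ∀ (m0 m1 m2 m3 : ℕ), (∀ k, k < 49 → ∀ c, c < 4 →
      (sel c m0 m1 m2 m3).testBit k = true → tvtx 7 k = ((k : ZMod 7), 0) ∧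
        (canRow i (k : ZMod 7)).val = c) → Ext 49 (tvtx 7) σ m0 m1 m2 m3 := by
    intro m0 m1 m2 m3 hm k hk c hc hct
    obtain ⟨hx, hxc⟩ := hm k hk c hc hct
    rw [hx, h _, hxc]
  interval_cases i
  · have hE := key 1 42 84 0 (by decide +kernel)
    obtain ⟨ρ, h1, h2⟩ := search enum7 le_rfl t7A_root 1 42 84 0 (by decide +kernel) check7A σ
      hσ hE
    exact eqv_c0_of_ext h1 h2
  · have hE := key 1 2 84 40 (by decide +kernel)
    obtain ⟨ρ, h1, h2⟩ := search enum7 le_rfl t7B_root 1 2 84 40 (by decide +kernel) check7B σ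
      hσ hE
    exact eqv_c0_of_ext h1 h2
  · have hE := key 5 2 40 80 (by decide +kernel)
    obtain ⟨ρ, h1, h2⟩ := search enum7 le_rfl t7C_root 5 2 40 80 (by decide +kernel) check7C σ
      hσ hE
    exact eqv_c0_of_ext h1 h2

/-- translation by `(s, 0)` -/
def trIso' (s : ZMod 7) : (triangularTorus 7) ≃g (triangularTorus 7) where
  toEquiv := Equiv.addRight ((s, 0) : ZMod 7 × ZMod 7)
  map_rel_iff' := by
    intro a b
    have : ∀ s a b, (triangularTorus 7).Adj (a + (s, 0)) (b + (s, 0)) ↔
        (triangularTorus 7).Adj a b := by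
      intro s a b
      rw [adj_iff, adj_iff]
      have e : ∀ u v w : ZMod 7 × ZMod 7, (v + (s, 0) = u + (s, 0) + w ↔ v = u + w) := by
        intro u v w
        rw [add_right_comm, add_left_inj]
      simp only [e, ne_eq, add_left_inj]
    exact this s a b

theorem trIso'_apply (s : ZMod 7) (p : ZMod 7 × ZMod 7) : trIso' s p = p + (s, 0) := rfl

theorem proper_transport {σ : ZMod 7 × ZMod 7 → Fin 4} (hσ : Proper (triangularTorus 7) σ)
    (φ : (triangularTorus 7) ≃g (triangularTorus 7)) (f : Fin 4 → Fin 4)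
    (hf : ∀ a b, f a = f b → a = b) :
    Proper (triangularTorus 7) (fun p => f (σ (φ p))) := by
  intro x y hadj h
  exact hσ _ _ (φ.map_adj_iff.mpr hadj) (hf _ _ h)

theorem five_canonical (a : ZMod 7 → Fin 4) (h : ∀ x, a x ≠ a (x + 1)) (k : ℕ) (hk1 : 1 ≤ k)
    (hk3 : k ≤ 3) (h5 : cnt k (fun x => st (a x) (a (x + 1))) = 5) :
    ∃ s : ZMod 7, ∃ i, i < 24 ∧ ∃ X, X < 3 ∧ ∀ x : ZMod 7, pmap i (a (x + s)) = canRow X x := by
  rw [cnt_eq] at h5
  have h5' : cnt7 k (st (a 0) (a 1)) (st (a 1) (a 2)) (st (a 2) (a 3)) (st (a 3) (a 4))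
      (st (a 4) (a 5)) (st (a 5) (a 6)) (st (a 6) (a 0)) = 5 := h5
  have hb : fiveb (a 0) (a 1) (a 2) (a 3) (a 4) (a 5) (a 6) = true := by
    unfold fiveb
    interval_cases k <;> rw [h5'] <;> simp
  have hc := canonical_of_five (a 0) (a 1) (h 0) (a 2) (h 1) (a 3) (h 2) (a 4) (h 3) (a 5) (h 4)
    (a 6) (h 5) (h 6) hb
  unfold canonical at hc
  rw [List.any_eq_true] at hc
  obtain ⟨s, hs, hc⟩ := hc
  rw [List.any_eq_true] at hc
  obtain ⟨i, hi, hc⟩ := hc
  rw [List.any_eq_true] at hc
  obtain ⟨X, hX, hc⟩ := hc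
  rw [List.all_eq_true] at hc
  rw [List.mem_range] at hs hi hX
  refine ⟨(s : ZMod 7), i, hi, X, hX, ?_⟩
  intro x
  have hx := hc x.val (List.mem_range.mpr (ZMod.val_lt x))
  rw [decide_eq_true_eq] at hx
  unfold canRow
  rw [← hx]
  congr 1
  have e : ∀ j : ℕ, ent (a 0) (a 1) (a 2) (a 3) (a 4) (a 5) (a 6) j = a (j : ZMod 7) := by
    intro j
    unfold ent
    have h1 : (j : ZMod 7) = ((j % 7 : ℕ) : ZMod 7) := by
      rw [ZMod.natCast_mod]
    rw [h1]
    have h2 : j % 7 < 7 := Nat.mod_lt _ (by norm_num)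
    generalize j % 7 = r at *
    interval_cases r <;> rfl
  rw [e]
  congr 1
  push_cast
  rw [ZMod.natCast_zmod_val]

theorem good_of_five {σ : ZMod 7 × ZMod 7 → Fin 4} (hσ : Proper (triangularTorus 7) σ) (k : ℕ)
    (hk1 : 1 ≤ k) (hk3 : k ≤ 3) (h5 : Rc σ k 0 = 5) : Eqv (triangularTorus 7) σ c0 := by
  obtain ⟨s, i, hi, X, hX, hrow⟩ := five_canonical (fun x => σ (x, 0))
    (fun x => (pt_of_proper hσ).1 x 0) k hk1 hk3 h5
  have hinj := pmap_inj i hi
  let π : Equiv.Perm (Fin 4) := Equiv.ofBijective (pmap i)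
    (Finite.injective_iff_bijective.mp (fun a b h => hinj a b h))
  have hπ : ∀ c, π c = pmap i c := fun c => rfl
  have hσ' := proper_transport hσ (trIso' s) (pmap i) hinj
  have h1 := good_of_canRow hσ' X hX (by
    intro x
    have := hrow x
    rw [trIso'_apply]
    simpa using this)
  have h2 := h1.transport (trIso' s).symm π.symm
  have e1 : (fun x => π.symm (pmap i (σ ((trIso' s) ((trIso' s).symm x))))) = σ := by
    funext x
    rw [RelIso.apply_symm_apply, ← hπ, Equiv.symm_apply_apply]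
  rw [e1] at h2
  have h3 : Eqv (triangularTorus 7) (fun x => π.symm (c0 ((trIso' s).symm x)))
      (fun x => c0 ((trIso' s).symm x)) :=
    (Eqv.perm (G := triangularTorus 7) (fun x => c0 ((trIso' s).symm x)) π.symm).symm
  have h4 := (trs_c0 s).transport (trIso' s).symm (Equiv.refl _)
  have e2 : (fun x => (Equiv.refl (Fin 4)) (c0 ((trIso' s).symm x + (s, 0)))) = c0 := by
    funext x
    have : (trIso' s).symm x + (s, 0) = x := RelIso.apply_symm_apply (trIso' s) x
    rw [this]; rfl
  rw [e2] at h4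
  exact h2.trans (h3.trans h4.symm)

theorem good_of_rot {σ : ZMod 7 × ZMod 7 → Fin 4}
    (h : Eqv (triangularTorus 7) (fun p => σ (rotIso p)) c0) : Eqv (triangularTorus 7) σ c0 := by
  have h2 := h.transport rotIso.symm (Equiv.refl _)
  have e1 : (fun x => (Equiv.refl (Fin 4)) (σ (rotIso (rotIso.symm x)))) = σ := by
    funext x
    rw [RelIso.apply_symm_apply]; rfl
  rw [e1] at h2
  have h4 := rot_c0.transport rotIso.symm (Equiv.refl _)
  have e2 : (fun x => (Equiv.refl (Fin 4)) (c0 (rotIso (rotIso.symm x)))) = c0 := by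
    funext x
    rw [RelIso.apply_symm_apply]; rfl
  rw [e2] at h4
  exact h2.trans h4.symm

theorem good_all {σ : ZMod 7 × ZMod 7 → Fin 4} (hσ : Proper (triangularTorus 7) σ) :
    Eqv (triangularTorus 7) σ c0 := by
  obtain ⟨k, hk1, hk3, h | h | h⟩ := exists_five (pt_of_proper hσ)
  · exact good_of_five hσ k hk1 hk3 h
  · refine good_of_rot (good_of_five ?_ k hk1 hk3 h)
    exact proper_transport hσ rotIso id (fun _ _ h => h)
  · refine good_of_rot (good_of_rot (good_of_five ?_ k hk1 hk3 h))
    exact proper_transport (proper_transport hσ rotIso id (fun _ _ h => h)) rotIso id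
      (fun _ _ h => h)

/-- The WSK dynamics with four colours is ergodic on `T_7`. -/
theorem ergodic7 : WSKErgodic (triangularTorus 7) 4 := by
  rw [ergodic_iff]
  intro σ τ hσ hτ
  exact (good_all hσ).trans (good_all hτ).symm

end Pool.Agent.Lib.WSK
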