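import Mathlib
import Pool.Agent.Lib.WSK.Search
import Pool.Agent.Lib.WSK.Graphs

set_option autoImplicit false
set_option maxRecDepth 100000

namespace Pool.Agent.Lib.WSK

/-! ### The case `n = 3` -/

def t3_root : Tree :=
  (.br 0 (.br 1 .dead (.br 2 .dead .dead (.br 3 .dead .dead (.br 4 (.br 5 .dead (.br 6 .dead (.br 7 .dead .dead (.br 8 (.fin []) .dead .dead (.kem 0 3 8 256)) (.br 8 (.kem 2 3 7 128) .dead .dead .dead)) .dead (.br 7 .dead .dead (.br 8 (.kem 1 3 6 64) .dead .dead .dead) .dead)) .dead (.br 7 .dead .dead (.br 8 (.kem 1 3 5 32) .dead .dead .dead) .dead)) .dead .dead (.br 5 .dead (.br 6 .dead (.br 7 .dead .dead (.kem 0 3 4 16) .dead) .dead .dead) .dead .dead)) (.br 4 (.br 5 .dead (.br 6 .dead (.br 8 (.kem 2 3 3 8) .dead .dead .dead) .dead .dead) .dead .dead) .dead .dead .dead)) (.kem 2 3 2 508)) (.kem 1 2 1 510) (.kem 1 3 1 510)) (.kem 0 1 0 511) (.kem 0 2 0 511) (.kem 0 3 0 511))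


def nbs3 : List ℕ := [238, 413, 371, 371, 238, 413, 413, 371, 238]

theorem enum3 : Enum (triangularTorus 3) 9 nbs3 (tvtx 3) :=
  Enum.mk' (by decide +kernel) (by decide +kernel) (by decide +kernel) (by decide +kernel)
    (by decide +kernel)

theorem check3 : check 4 9 0 nbs3 273 98 140 0 t3_root 0 0 0 0 = true := by
  decide +kernel

theorem ergodic3 : WSKErgodic (triangularTorus 3) 4 :=
  ergodic_of_check enum3 le_rfl _ check3 (by decide +kernel)

/-! ### The case `n = 4` -/

def t4_root : Tree :=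
  (.br 0 (.br 1 .dead (.br 4 .dead .dead (.br 5 (.br 2 .dead .dead (.br 3 .dead (.br 6 .dead .dead .dead (.br 7 .dead .dead .dead .dead)) .dead (.br 6 .dead (.br 7 .dead .dead .dead .dead) .dead .dead)) (.kem 2 3 2 65500)) .dead .dead (.br 2 (.br 6 .dead (.br 7 .dead .dead .dead (.br 3 .dead .dead (.br 8 (.br 9 .dead .dead (.br 10 (.br 11 .dead (.br 13 .dead .dead .dead (.br 12 .dead (.br 14 .dead .dead (.br 15 .dead .dead .dead (.kem 1 2 3 4680)) .dead) .dead .dead)) .dead .dead) .dead .dead .dead) .dead) (.br 11 (.br 10 .dead .dead (.br 9 (.br 12 .dead .dead .dead (.br 13 .dead .dead .dead .dead)) .dead .dead .dead) .dead) .dead .dead .dead) .dead .dead) .dead)) (.br 3 .dead (.br 7 .dead .dead .dead (.br 8 (.br 9 .dead (.br 10 (.br 11 .dead (.br 12 .dead .dead (.br 13 .dead .dead .dead (.br 14 .dead .dead (.br 15 .dead .dead .dead (.fin [])) .dead)) (.kem 2 3 12 61440)) .dead .dead) .dead .dead .dead) .dead .dead) (.br 9 (.br 10 .dead (.br 11 (.br 12 .dead .dead (.br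 13 .dead .dead .dead (.br 14 .dead .dead (.br 15 .dead .dead .dead (.kem 0 1 8 3840)) .dead)) (.kem 2 3 12 61440)) .dead .dead .dead) .dead .dead) .dead .dead .dead) .dead .dead)) .dead (.kem 2 3 3 65528)) .dead) .dead (.br 3 .dead (.br 6 (.br 7 .dead .dead .dead (.br 8 (.br 11 .dead (.br 10 .dead .dead (.br 9 .dead (.br 13 .dead .dead .dead (.br 12 .dead .dead (.br 14 (.br 15 .dead .dead .dead (.kem 0 2 2 17476)) .dead .dead .dead) .dead)) .dead .dead) .dead) .dead .dead) (.br 9 .dead .dead (.br 10 .dead (.br 11 (.br 12 .dead .dead .dead (.br 13 .dead .dead .dead .dead)) .dead .dead .dead) .dead .dead) .dead) .dead .dead)) .dead .dead .dead) .dead (.br 7 .dead (.br 6 (.br 8 (.br 11 .dead .dead .dead (.br 10 .dead .dead (.br 9 .dead (.br 12 .dead .dead (.br 13 .dead .dead .dead (.br 14 (.kem 1 3 3 34952) .dead .dead .dead)) .dead) .dead .dead) .dead)) (.br 9 .dead .dead (.br 12 .dead .dead .dead .dead) .dead) .dead .dead) .dead .dead .dead) .dead .dead)) .dead)) (.br 5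 (.br 2 .dead .dead (.br 3 .dead (.br 6 .dead .dead .dead (.br 7 .dead .dead (.br 8 .dead (.br 9 .dead .dead (.br 11 (.br 10 .dead (.br 12 .dead .dead .dead (.br 13 .dead .dead .dead .dead)) .dead .dead) .dead .dead .dead) .dead) (.br 9 .dead (.br 10 (.br 11 .dead (.br 12 .dead .dead .dead (.br 13 .dead .dead (.br 14 .dead .dead .dead (.kem 0 2 2 33060)) .dead)) .dead .dead) .dead .dead .dead) .dead .dead) .dead) .dead)) .dead (.br 6 .dead (.br 7 .dead .dead (.br 8 .dead (.br 11 (.br 15 .dead .dead .dead .dead) .dead .dead .dead) (.br 9 .dead .dead .dead (.br 10 (.br 11 .dead (.br 12 .dead (.br 13 .dead .dead (.br 14 .dead .dead .dead (.kem 0 2 2 33060)) .dead) .dead .dead) .dead .dead) .dead .dead .dead)) .dead) .dead) .dead .dead)) (.kem 2 3 2 65500)) .dead (.br 2 (.br 6 .dead (.br 7 .dead .dead (.br 3 .dead .dead .dead (.kem 2 3 3 65464)) .dead) .dead (.br 3 .dead (.kem 2 3 4 65520) (.br 7 .dead (.br 8 (.br 9 .dead (.br 11 .dead .dead (.br 10 (.br 12 .dead .dead .dead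 (.br 13 .dead .dead (.br 14 .dead .dead .dead (.kem 1 2 3 34952)) .dead)) .dead .dead .dead) .dead) .dead .dead) (.br 9 (.br 10 .dead .dead (.br 11 (.br 12 .dead .dead .dead (.br 13 .dead .dead .dead .dead)) .dead .dead .dead) .dead) .dead .dead .dead) .dead .dead) .dead .dead) .dead)) .dead .dead (.kem 2 3 2 65532)) .dead)) (.kem 1 2 1 65534) (.kem 1 3 1 65534)) (.kem 0 1 0 65535) (.kem 0 2 0 65535) (.kem 0 3 0 65535))


def nbs4 : List ℕ := [12442, 24629, 49258, 37061, 2467, 854, 1708, 3161, 39472, 13664, 27328, 50576, 41737, 22019, 44038, 22796]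

theorem enum4 : Enum (triangularTorus 4) 16 nbs4 (tvtx 4) :=
  Enum.mk' (by decide +kernel) (by decide +kernel) (by decide +kernel) (by decide +kernel)
    (by decide +kernel)

theorem check4 : check 4 16 0 nbs4 1285 2570 20560 41120 t4_root 0 0 0 0 = true := by
  decide +kernel

theorem ergodic4 : WSKErgodic (triangularTorus 4) 4 :=
  ergodic_of_check enum4 le_rfl _ check4 (by decide +kernel)

/-! ### The case `n = 5` -/

def t5_0 : Tree :=
  (.br 4 .dead (.br 9 .dead .dead .dead (.br 8 (.br 10 .dead (.br 14 (.br 11 .dead .dead (.br 12 .dead .dead .dead (.br 13 .dead (.br 15 (.br 16 .dead (.br 24 .dead .dead (.br 19 .dead .dead .dead (.br 18 .dead .dead (.br 17 (.br 20 .dead .dead .dead (.br 21 .dead .dead (.br 22 .dead .dead .dead (.br 23 (.kem 1 3 3 1127064) (.kem 0 1 23 8388608) .dead .dead)) .dead)) .dead .dead .dead) .dead)) .dead) .dead .dead) .dead .dead (.br 19 .dead .dead (.br 18 .dead .dead .dead (.br 20 .dead .dead (.br 21 .dead .dead .dead (.br 22 (.br 17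 .dead .dead (.br 23 .dead (.br 24 (.br 16 (.kem 1 3 3 8663704) (.kem 0 1 16 65536) .dead .dead) .dead .dead .dead) .dead .dead) .dead) .dead .dead .dead)) .dead)) .dead)) (.br 15 (.br 16 .dead (.br 17 (.br 22 .dead .dead .dead (.br 18 .dead (.br 21 .dead .dead (.br 20 .dead .dead .dead (.br 23 (.br 24 .dead .dead (.kem 1 3 3 1118872) .dead) .dead .dead .dead)) .dead) .dead .dead)) .dead .dead .dead) .dead .dead) .dead .dead (.br 19 .dead .dead (.br 20 .dead .dead (.br 21 .dead .dead .dead (.br 22 (.br 17 .dead (.br 16 (.br 18 .dead .dead .dead (.kem 1 2 13 139264)) .dead .dead .dead) .dead .dead) .dead .dead .dead)) .dead) .dead)) .dead)) (.br 12 .dead .dead (.br 13 .dead (.br 15 (.br 16 .dead (.br 24 .dead .dead (.br 19 .dead .dead .dead (.br 18 .dead .dead (.br 20 .dead .dead .dead (.br 21 .dead .dead (.br 17 (.kem 2 3 11 6144) .dead .dead (.br 22 (.kem 1 3 3 10170008) .dead .dead .dead)) .dead)) .dead)) .dead) .dead .dead) .dead (.br 19 .dead .dead .dead (.br 18 .dead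 .dead (.br 20 .dead .dead .dead (.br 21 .dead .dead (.br 24 (.br 23 .dead (.br 16 (.br 17 .dead .dead .dead (.br 22 (.kem 1 3 3 10104472) .dead .dead .dead)) (.kem 0 2 15 16809984) .dead .dead) .dead .dead) .dead .dead .dead) .dead)) .dead)) .dead) .dead .dead) .dead)) .dead .dead .dead) .dead (.br 11 .dead .dead (.br 12 .dead .dead .dead (.br 13 .dead (.br 14 (.br 15 (.br 16 .dead (.br 24 .dead .dead (.br 19 .dead (.br 20 .dead .dead .dead (.br 21 .dead .dead (.br 17 (.br 22 .dead .dead .dead (.br 18 .dead .dead (.br 23 (.kem 1 3 3 1127064) .dead .dead .dead) .dead)) .dead .dead .dead) .dead)) .dead .dead) .dead) .dead .dead) (.br 16 (.br 17 .dead .dead (.br 18 .dead .dead .dead (.br 19 .dead .dead (.br 21 .dead .dead .dead (.br 20 .dead .dead (.br 22 (.kem 1 3 3 25474712) .dead .dead .dead) .dead)) .dead)) .dead) .dead .dead .dead) .dead .dead) .dead .dead .dead) (.br 14 (.br 15 (.br 16 .dead (.br 17 (.br 22 .dead .dead .dead (.br 18 .dead (.br 19 .dead .dead (.kem 1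 3 10 1024) .dead) .dead .dead)) .dead .dead .dead) .dead .dead) (.br 16 (.br 17 .dead (.br 18 .dead .dead .dead (.br 19 .dead .dead (.br 22 (.br 23 .dead (.br 24 (.br 20 .dead .dead (.kem 1 3 10 33792) (.kem 2 3 20 3145728)) .dead .dead .dead) .dead .dead) .dead .dead .dead) .dead)) .dead .dead) .dead .dead .dead) .dead .dead) (.br 15 (.br 16 .dead (.br 17 (.br 18 .dead .dead .dead (.br 22 .dead .dead .dead .dead)) .dead .dead .dead) .dead .dead) (.br 16 (.br 17 .dead (.br 18 (.br 19 .dead .dead (.br 22 .dead .dead .dead (.br 21 .dead .dead (.br 20 .dead .dead .dead (.br 23 .dead (.br 24 (.fin [(0,2,2164837),(2,3,525376),(0,2,2165793),(1,2,2252834),(2,3,4331586),(1,3,33554431),(2,3,33554431)]) .dead .dead .dead) .dead .dead)) .dead)) .dead) .dead .dead (.br 22 (.br 23 .dead (.br 19 (.br 24 .dead .dead (.br 20 .dead .dead .dead (.br 21 .dead .dead (.kem 1 3 3 9885336) .dead)) .dead) .dead (.kem 0 1 14 16384) .dead) .dead .dead) .dead .dead .dead)) .dead .dead) .dead .dead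 .dead) .dead .dead) .dead .dead) .dead)) .dead)) .dead (.br 10 .dead (.br 14 (.br 13 .dead (.br 11 .dead .dead (.br 12 (.br 15 (.br 24 .dead .dead (.br 19 .dead .dead .dead (.br 18 .dead .dead (.br 17 .dead .dead .dead (.br 16 .dead (.br 20 .dead .dead .dead (.br 21 .dead .dead (.br 22 (.kem 1 3 3 10167960) .dead .dead .dead) .dead)) .dead .dead)) .dead)) .dead) .dead .dead (.br 16 .dead (.br 19 .dead .dead (.br 18 .dead .dead .dead (.br 17 .dead .dead (.br 20 .dead .dead (.br 21 .dead .dead .dead (.br 22 (.br 23 .dead (.kem 0 3 3 16809992) .dead .dead) .dead .dead .dead)) .dead) .dead)) .dead) .dead .dead)) .dead .dead (.kem 0 2 8 256)) (.br 12 (.br 15 (.br 24 .dead .dead (.br 19 .dead .dead .dead (.br 18 .dead .dead (.br 17 .dead .dead .dead (.br 20 .dead .dead .dead (.br 21 .dead .dead (.br 16 .dead (.kem 0 2 8 4352) .dead .dead) .dead))) .dead)) .dead) .dead (.br 16 .dead (.br 19 .dead .dead .dead (.br 18 .dead .dead (.br 17 .dead .dead .dead (.kem 0 2 8 4352)) .dead))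 .dead .dead) .dead) .dead .dead .dead)) .dead .dead) .dead .dead .dead) .dead (.br 11 .dead .dead (.br 12 (.br 13 .dead (.br 14 (.br 15 (.br 24 .dead .dead (.br 19 .dead (.br 20 .dead .dead .dead (.br 16 .dead (.br 21 .dead .dead (.br 17 .dead .dead .dead (.br 18 .dead .dead (.kem 0 3 3 12718088) .dead)) .dead) .dead .dead)) .dead .dead) .dead) (.br 16 .dead .dead .dead (.br 17 .dead .dead (.br 21 .dead .dead .dead .dead) .dead)) .dead .dead) .dead .dead .dead) .dead .dead) .dead .dead (.br 13 (.br 14 .dead (.br 15 (.br 16 .dead (.br 17 .dead .dead (.br 18 .dead .dead .dead (.br 19 .dead .dead (.br 24 .dead .dead .dead .dead) .dead)) .dead) .dead .dead) (.br 16 (.br 17 .dead (.br 18 .dead .dead (.br 19 (.br 23 .dead (.br 24 .dead .dead (.kem 0 3 3 8) .dead) .dead .dead) .dead .dead .dead) (.kem 0 2 8 8448)) (.br 18 .dead .dead .dead (.br 21 .dead .dead .dead (.br 20 .dead .dead (.br 22 (.kem 1 3 3 26007192) .dead .dead .dead) .dead))) .dead) .dead .dead .dead) .dead .dead)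 .dead .dead) (.kem 0 2 8 256) .dead .dead)) .dead)) .dead)) (.br 8 (.br 9 .dead (.br 10 .dead (.br 11 .dead .dead (.br 12 .dead .dead .dead (.br 13 .dead .dead (.br 14 (.br 15 (.br 16 .dead (.br 17 (.br 20 .dead .dead .dead (.br 21 .dead .dead (.br 22 .dead .dead .dead (.br 18 .dead (.br 23 (.br 24 .dead (.br 19 .dead .dead (.kem 0 3 3 12718344) (.kem 2 3 19 524288)) .dead .dead) .dead .dead .dead) .dead .dead)) .dead)) .dead .dead .dead) .dead .dead) .dead .dead (.br 19 .dead .dead (.br 20 .dead (.br 16 (.br 17 .dead (.br 18 .dead .dead .dead (.br 22 (.br 23 .dead (.br 24 (.br 21 .dead .dead (.kem 0 3 3 16879880) (.kem 2 3 21 2097152)) .dead .dead .dead) .dead .dead) .dead .dead .dead)) .dead .dead) .dead .dead .dead) .dead .dead) .dead)) .dead .dead (.br 15 (.br 16 .dead (.br 17 (.br 18 .dead (.br 19 .dead .dead (.kem 0 3 14 16384) .dead) .dead .dead) .dead .dead .dead) .dead .dead) .dead .dead (.br 20 .dead (.br 16 (.br 17 .dead (.br 18 (.br 19 .dead .dead (.br 22 .dead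 .dead .dead (.br 21 .dead .dead (.kem 0 3 3 29741320) .dead)) .dead) .dead .dead .dead) .dead .dead) .dead .dead .dead) .dead .dead))) .dead)) (.br 12 .dead .dead (.br 13 .dead .dead .dead (.br 14 (.br 15 (.br 16 .dead (.br 17 (.br 20 .dead .dead .dead (.br 21 .dead .dead (.br 22 .dead .dead .dead (.br 24 .dead (.br 23 (.br 18 .dead (.kem 2 3 11 14336) (.kem 1 3 3 18418824) .dead) .dead .dead .dead) .dead .dead)) .dead)) .dead .dead .dead) .dead .dead) .dead (.br 19 .dead .dead .dead (.br 16 (.br 17 .dead (.br 18 .dead .dead (.br 20 .dead (.br 24 (.br 23 .dead (.kem 0 3 3 17326344) .dead .dead) .dead .dead .dead) .dead (.br 21 .dead .dead (.br 22 (.kem 1 3 3 26741896) .dead .dead (.br 23 (.kem 1 3 3 18353288) (.kem 0 3 22 4194304) .dead .dead)) .dead)) .dead) .dead .dead) (.br 17 (.br 20 .dead .dead .dead (.br 21 .dead .dead (.br 22 .dead .dead .dead (.br 18 .dead (.br 23 (.br 24 .dead (.kem 0 3 3 13263112) .dead .dead) .dead .dead .dead) (.kem 0 1 16 196608) .dead)) .dead))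 .dead .dead .dead) .dead .dead)) .dead) .dead .dead .dead)) .dead)) .dead (.br 11 .dead .dead (.br 12 .dead .dead .dead (.br 13 .dead .dead (.br 14 (.br 15 (.br 16 .dead (.br 17 (.br 20 .dead .dead .dead (.br 21 .dead .dead (.br 22 .dead .dead .dead (.br 18 .dead (.br 19 .dead .dead (.kem 1 3 10 1024) .dead) .dead .dead)) .dead)) .dead .dead .dead) .dead .dead) (.br 16 (.br 17 .dead (.br 18 .dead .dead .dead (.br 19 .dead .dead (.br 20 .dead .dead .dead (.br 21 .dead .dead (.br 22 (.kem 1 3 3 26645640) .dead .dead .dead) .dead)) .dead)) .dead .dead) .dead .dead .dead) .dead .dead) .dead .dead .dead) .dead)) .dead)) .dead (.br 10 .dead (.br 14 (.br 11 .dead .dead (.br 12 .dead .dead .dead (.br 13 .dead (.br 15 (.br 16 .dead (.br 20 .dead .dead .dead (.br 21 .dead .dead (.br 17 (.br 22 .dead .dead .dead (.br 18 .dead .dead (.br 19 .dead .dead .dead (.br 24 .dead (.br 23 (.kem 1 3 3 18429576) .dead .dead .dead) .dead .dead)) .dead)) .dead .dead .dead) .dead)) .dead .dead)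 .dead .dead (.br 19 .dead .dead (.br 18 .dead .dead .dead (.br 20 .dead (.br 16 (.br 17 .dead .dead (.br 21 .dead .dead .dead (.br 22 (.br 23 .dead (.br 24 (.kem 1 3 3 8663688) .dead .dead .dead) .dead .dead) .dead .dead .dead)) .dead) .dead .dead .dead) .dead .dead)) .dead)) (.kem 1 3 9 512) .dead)) (.br 12 .dead .dead (.br 13 .dead (.br 15 (.br 16 .dead (.br 20 .dead .dead .dead (.br 21 .dead .dead (.br 24 .dead (.br 23 (.br 22 .dead .dead .dead (.br 17 (.kem 2 3 11 6144) .dead .dead .dead)) .dead .dead .dead) .dead .dead) .dead)) .dead .dead) .dead (.br 19 .dead .dead .dead (.br 18 .dead .dead (.br 16 (.br 17 .dead .dead .dead (.br 21 .dead .dead (.br 22 (.kem 1 3 3 26741896) .dead .dead .dead) .dead)) (.br 20 .dead .dead .dead (.br 21 .dead .dead (.br 17 (.kem 1 3 9 8704) .dead .dead (.kem 0 1 16 65536)) .dead)) .dead .dead) .dead)) .dead) .dead .dead) .dead)) .dead .dead .dead) .dead (.br 11 .dead .dead (.br 12 .dead .dead .dead (.br 13 .dead (.br 14 (.br 15 (.br 16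 .dead (.br 20 .dead .dead .dead (.br 21 .dead .dead (.br 17 (.br 22 .dead .dead .dead (.br 18 .dead .dead (.br 19 .dead (.br 24 .dead .dead .dead .dead) .dead .dead) .dead)) .dead .dead .dead) .dead)) .dead .dead) (.br 16 (.br 17 .dead .dead (.br 18 .dead .dead .dead (.br 19 .dead .dead (.br 20 .dead .dead .dead (.br 21 .dead .dead .dead .dead)) .dead)) .dead) .dead .dead .dead) .dead .dead) .dead .dead .dead) (.br 14 (.kem 1 3 9 512) (.br 15 (.br 16 .dead (.br 17 (.br 18 .dead .dead .dead (.br 22 .dead .dead .dead .dead)) .dead .dead .dead) .dead .dead) (.br 16 (.br 17 .dead (.br 20 .dead .dead .dead (.br 21 .dead .dead (.br 24 (.kem 1 2 4 16) .dead .dead .dead) .dead)) .dead .dead) .dead .dead .dead) .dead .dead) .dead .dead) .dead)) .dead))) .dead .dead .dead) .dead)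

def t5_1 : Tree :=
  (.br 3 (.br 8 .dead (.br 9 .dead .dead .dead (.br 4 .dead .dead (.br 10 .dead (.br 11 .dead .dead (.br 12 (.br 13 .dead .dead (.br 14 (.kem 1 3 7 896) .dead .dead .dead) .dead) .dead .dead .dead) .dead) .dead (.br 11 .dead (.br 12 (.br 13 .dead .dead (.br 14 (.br 15 (.br 16 .dead .dead (.br 21 .dead .dead .dead (.br 17 .dead (.br 18 .dead .dead .dead (.br 20 .dead (.br 22 (.br 23 .dead (.br 19 .dead .dead (.kem 1 3 7 3968) .dead) .dead .dead) .dead .dead .dead) .dead .dead)) .dead .dead)) (.br 17 .dead (.br 18 .dead .dead .dead (.br 20 .dead (.br 21 .dead .dead (.br 22 (.kem 1 3 7 27201408) .dead .dead .dead) .dead) .dead .dead)) .dead .dead)) .dead (.br 16 .dead .dead .dead (.br 17 .dead (.br 18 .dead .dead .dead (.br 19 .dead (.br 23 .dead .dead .dead .dead) .dead .dead)) .dead .dead)) .dead) (.br 15 (.br 19 .dead .dead (.br 16 .dead .dead (.br 21 .dead .dead .dead (.br 17 .dead (.br 20 .dead (.br 22 (.br 18 .dead .dead .dead (.kem 0 1 14 16384))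 .dead .dead .dead) .dead .dead) .dead .dead)) (.br 17 .dead (.br 20 .dead (.br 21 .dead .dead (.br 24 .dead .dead .dead (.br 23 .dead (.br 18 (.br 22 .dead .dead .dead (.fin [(0,2,2097277),(2,3,8705),(1,2,8930056),(2,3,26048),(0,2,8663172),(2,3,4473924),(0,3,33554431),(2,3,33554431)])) .dead .dead (.kem 0 1 14 16384)) .dead .dead)) .dead) .dead .dead) .dead .dead)) .dead) .dead (.br 16 .dead .dead .dead (.br 17 .dead (.br 19 (.br 18 .dead .dead .dead (.br 20 .dead (.br 21 .dead .dead (.br 22 (.kem 1 3 7 26693504) .dead .dead .dead) .dead) .dead .dead)) .dead .dead .dead) .dead .dead)) .dead) .dead .dead) .dead) .dead (.br 13 (.br 14 .dead (.br 15 (.br 16 .dead .dead .dead (.br 17 .dead (.br 19 .dead .dead (.br 18 .dead .dead .dead (.kem 0 2 12 12288)) .dead) .dead .dead)) .dead (.br 19 (.br 16 (.br 17 .dead (.br 18 .dead .dead (.kem 1 3 7 20352) (.br 22 (.br 23 .dead (.kem 2 3 18 262144) .dead .dead) .dead .dead .dead)) .dead (.br 18 .dead .dead (.kem 1 3 7 20352) .dead))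 .dead .dead (.br 17 .dead (.br 20 .dead (.br 21 .dead .dead (.kem 0 3 16 65536) .dead) .dead .dead) .dead .dead)) .dead .dead .dead) .dead) .dead .dead) .dead .dead .dead) .dead) (.br 12 (.br 13 .dead .dead (.br 14 (.kem 1 3 7 896) (.br 15 (.br 19 .dead .dead (.br 16 .dead (.br 17 .dead .dead .dead (.br 18 (.kem 1 3 7 18304) .dead .dead .dead)) .dead (.kem 1 2 11 2048)) .dead) (.br 16 .dead .dead .dead (.br 20 .dead .dead .dead .dead)) .dead .dead) .dead .dead) .dead) .dead .dead .dead) .dead)) .dead)) (.br 4 .dead (.br 9 .dead .dead .dead (.br 10 .dead (.br 11 .dead .dead (.br 14 (.br 13 .dead (.br 12 (.kem 1 3 7 128) .dead .dead .dead) .dead .dead) .dead .dead .dead) .dead) .dead (.br 11 .dead (.br 12 (.br 13 .dead (.br 14 (.br 15 (.br 16 .dead .dead (.br 17 .dead .dead .dead (.br 21 .dead .dead .dead .dead)) (.br 17 .dead .dead (.br 21 .dead .dead .dead .dead) .dead)) .dead (.br 16 .dead .dead .dead (.br 20 .dead .dead .dead .dead)) .dead) .dead .dead .dead) .dead .dead)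 .dead .dead .dead) (.br 12 (.kem 1 3 7 128) (.br 13 (.br 14 .dead (.br 15 (.br 16 .dead .dead .dead (.br 17 .dead .dead (.br 21 .dead .dead .dead .dead) .dead)) (.br 16 (.br 17 .dead .dead (.kem 1 3 7 4224) (.br 18 .dead .dead (.br 19 (.br 21 .dead .dead (.br 20 .dead .dead .dead (.br 22 (.kem 1 3 7 135296) .dead .dead .dead)) .dead) .dead .dead .dead) .dead)) .dead .dead (.br 17 .dead .dead (.br 21 .dead .dead .dead .dead) .dead)) .dead .dead) .dead .dead) .dead .dead .dead) .dead .dead) .dead))) .dead (.br 9 .dead (.br 10 .dead (.br 11 .dead .dead (.br 12 (.kem 1 3 7 128) (.br 13 (.br 14 .dead .dead .dead (.br 15 (.br 16 .dead .dead .dead (.br 17 .dead .dead (.br 21 .dead .dead .dead .dead) .dead)) .dead .dead (.br 16 (.br 17 .dead .dead (.kem 1 3 7 4224) (.br 21 .dead .dead (.br 20 .dead (.br 22 (.kem 1 3 4 27186832) .dead .dead .dead) .dead .dead) .dead)) .dead .dead .dead))) .dead .dead (.br 14 (.br 15 (.br 16 .dead .dead .dead (.br 21 .dead .dead (.br 17 (.br 20 .dead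 (.br 22 .dead .dead .dead (.br 23 .dead (.br 18 .dead .dead (.kem 0 1 12 135168) .dead) .dead .dead)) .dead .dead) .dead .dead .dead) .dead)) .dead .dead (.br 16 (.br 17 .dead .dead (.br 18 .dead (.br 19 .dead .dead (.kem 0 3 13 24576) .dead) .dead .dead) .dead) .dead .dead .dead)) .dead .dead .dead)) .dead .dead) .dead) .dead (.br 14 (.br 13 .dead .dead .dead (.br 11 .dead (.br 12 (.br 15 (.br 16 .dead .dead (.br 17 .dead (.br 18 .dead .dead (.br 19 .dead (.br 20 .dead (.br 21 .dead .dead .dead (.br 22 (.br 23 .dead .dead .dead (.br 24 .dead .dead (.kem 1 3 7 8916096) .dead)) .dead .dead .dead)) .dead .dead) .dead .dead) .dead) .dead .dead) (.br 21 .dead .dead (.br 17 .dead (.br 18 .dead .dead (.br 19 .dead (.br 20 .dead (.br 23 .dead .dead .dead (.br 22 (.kem 1 3 4 26947216) .dead .dead .dead)) .dead .dead) .dead .dead) .dead) .dead .dead) .dead)) .dead (.br 16 .dead .dead .dead (.br 19 .dead (.br 24 .dead .dead .dead .dead) .dead .dead)) .dead) .dead .dead .dead) (.br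 12 (.kem 1 3 7 128) (.br 15 (.br 16 .dead .dead .dead (.br 21 .dead .dead (.br 17 (.br 20 .dead (.br 22 .dead .dead .dead (.br 23 .dead (.br 18 .dead .dead (.kem 0 1 12 135168) .dead) .dead .dead)) .dead .dead) .dead .dead .dead) .dead)) (.br 19 .dead .dead (.br 24 .dead .dead .dead .dead) .dead) .dead .dead) .dead .dead) .dead)) .dead .dead .dead)) .dead .dead)) .dead) (.br 4 .dead .dead (.br 8 (.br 9 .dead (.br 10 .dead (.br 11 .dead .dead (.br 12 .dead (.br 13 .dead .dead (.br 14 (.br 15 (.br 16 .dead .dead .dead (.br 17 (.br 20 .dead (.br 21 .dead .dead (.br 22 .dead .dead .dead (.br 18 .dead (.br 23 (.br 24 .dead .dead .dead (.br 19 .dead .dead (.fin [(0,3,29589504),(2,3,8947844),(1,3,924672),(0,3,4473924)]) .dead)) .dead .dead .dead) .dead .dead)) .dead) .dead .dead) .dead .dead .dead)) .dead .dead (.br 16 (.br 17 .dead .dead .dead (.br 18 .dead (.br 19 .dead .dead (.br 20 .dead (.br 21 .dead .dead (.kem 0 3 15 29589504) .dead) .dead .dead) .dead) .dead .dead)) .dead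 .dead .dead)) .dead .dead (.br 15 (.br 16 .dead .dead .dead (.br 17 (.br 18 .dead (.br 19 .dead .dead (.kem 0 3 14 16384) .dead) .dead .dead) .dead .dead .dead)) .dead .dead (.br 16 (.br 17 .dead .dead .dead (.br 20 .dead (.br 21 .dead .dead (.kem 0 3 14 30392320) .dead) .dead .dead)) .dead .dead .dead))) (.br 14 (.br 15 (.br 16 .dead .dead .dead (.br 20 .dead (.br 21 .dead .dead (.br 17 (.br 22 .dead .dead .dead (.br 23 (.br 24 .dead .dead .dead (.br 19 .dead .dead (.br 18 .dead (.kem 2 3 13 8192) .dead .dead) .dead)) .dead .dead .dead)) .dead .dead .dead) .dead) .dead .dead)) .dead .dead (.br 16 (.br 17 .dead .dead (.br 18 .dead (.br 19 .dead .dead (.br 20 .dead (.br 21 .dead .dead .dead (.br 22 (.kem 2 3 13 2236416) .dead .dead .dead)) .dead .dead) .dead) .dead .dead) .dead) .dead .dead .dead)) .dead .dead .dead)) .dead .dead) .dead) .dead (.br 14 (.br 11 .dead (.br 12 .dead .dead (.br 13 .dead .dead .dead (.br 15 (.br 16 .dead .dead .dead (.br 20 .dead (.br 21 .dead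 .dead (.br 24 .dead .dead .dead (.br 23 (.br 22 .dead .dead .dead (.br 17 (.br 18 .dead (.br 19 .dead .dead (.fin [(0,3,1),(0,2,8962148),(0,1,917504),(0,3,4465028),(0,2,28896),(0,3,33554431)]) .dead) (.kem 1 2 18 786432) .dead) (.br 18 .dead .dead (.kem 0 1 17 131072) .dead) .dead .dead)) .dead .dead .dead)) .dead) .dead .dead)) .dead (.br 19 .dead (.br 18 .dead .dead (.br 16 (.br 17 .dead (.br 20 .dead (.br 21 .dead .dead (.br 22 (.br 23 .dead .dead .dead (.br 24 (.fin [(2,3,8663172),(0,3,4473924)]) .dead .dead .dead)) .dead .dead (.kem 0 3 22 29360128)) (.br 22 (.kem 2 3 21 2097152) .dead .dead .dead)) .dead (.br 21 .dead .dead (.br 24 (.kem 1 3 20 1048576) .dead .dead .dead) .dead)) .dead .dead) .dead .dead (.br 20 .dead (.br 21 .dead .dead (.br 17 (.br 22 .dead .dead .dead (.br 23 (.br 24 .dead .dead .dead (.kem 0 2 15 32768)) .dead .dead .dead)) (.kem 0 3 16 65536) .dead .dead) .dead) .dead .dead)) .dead) .dead .dead) .dead)) .dead) (.br 12 .dead (.br 13 .dead .dead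 (.br 15 (.br 16 .dead .dead .dead (.br 17 (.br 20 .dead (.br 21 .dead .dead (.br 22 .dead .dead .dead (.br 18 .dead (.br 19 .dead .dead (.kem 1 3 10 1024) .dead) .dead .dead)) .dead) .dead .dead) .dead .dead .dead)) (.br 19 .dead .dead (.br 20 .dead .dead .dead (.br 16 (.br 17 .dead .dead .dead (.br 18 .dead (.br 21 .dead .dead (.br 22 (.br 23 .dead .dead .dead (.br 24 (.kem 1 3 10 1082368) .dead .dead .dead)) .dead .dead .dead) .dead) .dead .dead)) .dead .dead .dead)) .dead) .dead .dead) (.br 15 (.br 16 .dead .dead .dead (.br 20 .dead (.br 21 .dead .dead (.br 17 (.kem 1 2 11 6144) .dead .dead .dead) .dead) .dead .dead)) (.br 19 .dead .dead (.br 18 .dead (.br 20 .dead .dead .dead (.br 16 (.br 17 .dead .dead (.br 21 .dead .dead .dead .dead) .dead) .dead .dead .dead)) .dead .dead) .dead) .dead .dead)) .dead .dead) .dead) .dead .dead .dead)) .dead (.br 10 .dead (.br 11 .dead .dead (.br 12 .dead (.br 13 .dead .dead (.br 14 (.kem 1 3 9 512) .dead .dead .dead) .dead) .dead .dead)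 .dead) .dead (.br 11 .dead (.br 12 .dead .dead (.br 13 .dead (.br 14 (.br 15 (.br 16 .dead .dead .dead (.br 17 (.br 20 .dead (.br 21 .dead .dead (.br 22 .dead .dead .dead (.br 18 .dead .dead (.kem 1 3 9 8704) .dead)) .dead) .dead .dead) .dead .dead .dead)) .dead (.br 19 .dead (.br 16 (.br 17 .dead .dead .dead (.br 18 .dead .dead (.br 21 .dead .dead (.br 22 (.kem 1 3 9 139776) .dead .dead .dead) .dead) .dead)) .dead .dead (.br 17 (.br 20 .dead (.br 21 .dead .dead (.br 22 .dead .dead .dead (.br 18 .dead .dead (.kem 1 3 9 8704) .dead)) .dead) .dead .dead) .dead .dead .dead)) .dead .dead) .dead) .dead .dead .dead) .dead .dead) .dead) (.br 12 .dead (.br 13 .dead .dead (.br 14 (.kem 1 3 9 512) (.br 15 (.br 16 .dead .dead .dead (.br 17 (.br 18 .dead .dead .dead (.br 22 .dead .dead .dead .dead)) .dead .dead .dead)) (.br 20 .dead .dead .dead (.br 16 (.br 17 .dead .dead .dead (.br 18 (.br 22 .dead .dead .dead .dead) .dead .dead .dead)) .dead .dead .dead)) .dead .dead) .dead .dead)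 .dead) .dead .dead) .dead))) .dead .dead .dead) (.br 9 .dead (.br 8 (.br 10 .dead (.br 11 .dead .dead (.br 12 .dead (.br 13 .dead .dead (.br 14 (.br 15 (.br 16 .dead .dead .dead (.br 17 (.br 21 .dead .dead (.br 20 .dead (.br 22 .dead .dead .dead (.br 18 .dead (.br 23 (.kem 2 3 4 17301520) .dead .dead .dead) .dead .dead)) .dead .dead) .dead) .dead .dead .dead)) .dead .dead (.br 16 (.br 17 .dead .dead .dead (.br 18 .dead (.br 19 .dead .dead (.br 21 .dead .dead (.br 20 .dead (.br 22 (.br 23 .dead .dead .dead (.br 24 (.kem 2 3 4 16) .dead .dead .dead)) .dead .dead .dead) .dead .dead) .dead) .dead) .dead .dead)) .dead .dead .dead)) .dead .dead (.br 15 (.br 16 .dead .dead .dead (.br 17 (.br 18 .dead (.br 19 .dead .dead (.kem 0 3 14 16384) .dead) .dead .dead) .dead .dead .dead)) .dead .dead (.br 16 (.br 17 .dead .dead .dead (.br 21 .dead .dead (.br 20 .dead (.br 22 (.br 18 .dead (.br 23 .dead .dead .dead (.br 19 (.br 24 .dead .dead (.kem 0 3 14 13352960) .dead) .dead (.kem 0 3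 14 16384) .dead)) .dead .dead) .dead .dead .dead) .dead .dead) .dead)) .dead .dead .dead))) (.br 14 (.br 15 (.br 16 .dead .dead .dead (.br 21 .dead .dead (.br 17 (.br 20 .dead (.br 22 .dead .dead .dead (.br 23 (.br 24 .dead .dead (.br 19 .dead .dead .dead (.br 18 .dead (.kem 2 3 4 17301520) (.kem 1 2 18 262144) .dead)) .dead) .dead .dead .dead)) .dead .dead) .dead .dead .dead) .dead)) .dead .dead (.br 16 (.br 17 .dead .dead (.br 18 .dead (.br 19 .dead .dead (.br 21 .dead .dead .dead (.br 22 (.br 23 .dead .dead .dead (.br 24 (.br 20 .dead (.kem 2 3 4 16) (.kem 1 2 20 1048576) .dead) .dead .dead .dead)) .dead .dead .dead)) .dead) .dead .dead) .dead) .dead .dead .dead)) .dead .dead .dead)) .dead .dead) .dead) .dead (.br 14 (.br 11 .dead (.br 12 .dead .dead (.br 13 .dead .dead .dead (.br 15 (.br 16 .dead .dead .dead (.br 21 .dead .dead (.br 20 .dead (.br 24 .dead .dead (.br 19 .dead (.br 18 .dead .dead (.br 17 (.br 22 .dead .dead .dead (.br 23 (.kem 2 3 4 16777232) .dead .dead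 .dead)) (.br 22 (.br 23 .dead .dead .dead (.fin [(0,2,6570085),(0,3,8659348),(2,3,16777216),(2,3,1),(0,3,33554431),(2,3,33554431)])) .dead .dead (.kem 0 1 17 131072)) .dead .dead) .dead) .dead .dead) .dead) .dead .dead) .dead)) .dead (.br 19 .dead (.br 18 .dead .dead (.br 20 .dead (.br 24 (.kem 2 3 4 16) .dead .dead .dead) .dead .dead) .dead) .dead .dead) .dead)) .dead) (.br 12 .dead (.br 13 .dead .dead (.br 15 (.br 16 .dead .dead .dead (.br 17 (.br 21 .dead .dead (.br 20 .dead (.br 22 .dead .dead .dead (.br 18 .dead (.br 19 .dead .dead (.kem 1 3 10 1024) .dead) .dead .dead)) .dead .dead) .dead) .dead .dead .dead)) (.br 19 .dead .dead (.br 20 .dead .dead (.br 21 .dead .dead .dead (.br 16 (.br 17 .dead .dead .dead .dead) .dead .dead .dead)) .dead) .dead) .dead .dead) (.br 15 (.br 16 .dead .dead .dead (.br 21 .dead .dead (.br 17 (.kem 1 2 11 6144) .dead .dead .dead) .dead)) (.br 19 .dead .dead (.br 18 .dead (.br 20 .dead .dead (.br 21 .dead .dead .dead (.br 16 (.br 17 .dead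 .dead (.br 22 (.br 23 .dead .dead .dead (.br 24 (.kem 2 3 4 3285008) .dead .dead .dead)) .dead .dead .dead) .dead) .dead .dead .dead)) .dead) .dead .dead) .dead) .dead .dead)) .dead .dead) .dead) .dead .dead .dead)) .dead (.br 10 .dead (.br 11 .dead .dead (.br 12 (.br 13 .dead .dead .dead (.br 14 (.br 15 (.br 24 .dead .dead (.br 19 .dead .dead .dead (.br 20 .dead (.br 16 .dead .dead .dead (.br 21 .dead .dead (.br 17 .dead (.br 18 .dead .dead (.br 23 (.br 22 .dead .dead .dead (.kem 0 1 3 8388616)) .dead .dead .dead) .dead) .dead .dead) .dead)) .dead .dead)) .dead) .dead .dead (.br 16 .dead (.br 17 .dead .dead (.br 18 .dead (.br 19 .dead .dead (.br 20 .dead .dead (.br 21 .dead .dead .dead (.br 22 (.br 23 .dead .dead .dead (.kem 0 1 3 16777224)) .dead .dead .dead)) .dead) .dead) .dead .dead) .dead) .dead .dead)) .dead .dead .dead)) (.br 13 (.br 14 .dead .dead .dead (.br 15 (.br 16 .dead .dead .dead (.br 17 .dead .dead (.br 21 .dead .dead .dead .dead) .dead)) .dead .dead (.br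 16 (.br 17 .dead .dead (.br 18 .dead (.br 21 .dead .dead .dead (.br 22 (.br 23 .dead .dead .dead (.br 19 (.br 24 .dead .dead (.kem 0 1 3 8) .dead) .dead (.br 24 (.br 20 .dead (.kem 0 2 19 17301504) (.kem 0 1 3 16777224) .dead) .dead .dead .dead) .dead)) .dead .dead .dead)) .dead .dead) (.br 21 .dead .dead (.br 20 .dead (.br 22 (.br 23 .dead .dead .dead (.br 18 .dead (.kem 0 2 8 8448) (.br 19 (.kem 1 2 18 262144) .dead .dead .dead) .dead)) .dead .dead .dead) .dead .dead) .dead)) .dead .dead .dead))) .dead .dead (.kem 0 2 8 256)) .dead .dead) .dead) .dead (.br 14 (.br 13 .dead .dead .dead (.br 11 .dead (.br 12 (.br 15 (.br 24 .dead .dead (.br 19 .dead (.br 18 .dead .dead (.br 17 .dead (.br 20 .dead (.br 16 .dead .dead (.br 21 .dead .dead .dead (.br 22 (.br 23 .dead .dead .dead (.kem 0 1 3 8)) .dead .dead .dead)) (.kem 0 2 8 4352)) .dead .dead) .dead .dead) .dead) .dead .dead) .dead) .dead (.br 16 .dead .dead .dead (.br 19 .dead (.br 18 .dead .dead (.br 17 .dead (.kem 0 2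 8 4352) .dead .dead) .dead) .dead .dead)) .dead) .dead .dead .dead) (.br 12 (.br 15 (.br 24 .dead .dead (.br 19 .dead (.br 18 .dead .dead (.br 17 .dead (.br 16 .dead .dead .dead (.kem 1 2 11 2048)) .dead .dead) .dead) .dead .dead) .dead) (.br 16 .dead .dead .dead (.br 19 .dead .dead (.br 18 .dead (.br 17 .dead .dead (.br 21 .dead .dead .dead .dead) .dead) .dead .dead) .dead)) .dead .dead) (.kem 0 2 8 256) .dead .dead) .dead)) .dead .dead .dead)) .dead) .dead .dead)) .dead .dead)

def t5_2 : Tree :=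
  (.br 7 .dead (.br 3 .dead .dead (.br 4 .dead (.br 9 .dead .dead .dead (.br 8 (.br 10 (.br 11 .dead .dead (.br 12 .dead .dead .dead (.br 14 .dead (.br 13 .dead .dead (.br 15 .dead (.br 16 (.br 17 .dead (.br 18 (.br 19 .dead .dead (.br 20 .dead .dead (.br 21 .dead .dead .dead (.br 22 .dead .dead (.br 23 .dead (.br 24 (.fin [(2,3,14944),(1,3,2252834),(2,3,4331586),(1,2,33554431)]) .dead .dead (.kem 0 3 24 16777216)) .dead (.br 24 (.kem 1 3 23 8388608) .dead .dead .dead)) .dead)) (.br 21 .dead .dead (.br 22 .dead .dead .dead (.br 23 .dead (.br 24 (.kem 2 3 20 7340032) .dead .dead .dead) .dead .dead)) .dead)) (.br 23 .dead (.br 24 (.kem 2 3 19 524288) .dead .dead .dead) .dead .dead)) .dead .dead (.br 19 .dead .dead (.br 22 .dead .dead (.br 21 .dead .dead .dead (.br 20 .dead .dead (.br 23 .dead (.kem 0 3 18 262144) .dead .dead) .dead)) .dead) .dead)) .dead .dead) .dead .dead .dead) .dead (.br 19 .dead .dead (.br 20 .dead .dead (.br 21 .dead .dead .dead (.br 22 .dead .dead (.br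 24 (.br 16 (.kem 1 3 15 32768) (.br 17 (.br 18 .dead .dead .dead (.kem 0 1 16 196608)) .dead .dead .dead) .dead .dead) .dead .dead .dead) .dead)) .dead) .dead)) .dead) .dead .dead)) .dead) (.br 14 (.br 11 (.br 12 .dead .dead (.br 13 .dead (.br 15 .dead .dead (.br 19 .dead .dead .dead (.br 18 .dead .dead (.br 20 .dead .dead .dead (.br 16 .dead (.br 21 .dead .dead (.br 22 .dead .dead .dead (.br 17 (.br 23 .dead (.br 24 (.fin [(0,3,18367233),(1,3,29386195),(2,3,2130978),(0,2,14),(1,2,4473924),(0,1,33554431),(2,3,33554431)]) .dead .dead .dead) .dead .dead) .dead .dead .dead)) .dead) .dead .dead)) .dead)) (.br 16 .dead (.br 19 .dead .dead (.br 18 .dead .dead .dead (.br 17 (.br 20 .dead .dead (.br 21 .dead .dead .dead (.br 22 .dead .dead (.br 23 .dead (.br 24 (.kem 2 3 15 8159232) .dead .dead .dead) .dead .dead) .dead)) .dead) .dead .dead .dead)) .dead) .dead .dead)) .dead .dead) (.br 13 .dead (.br 15 .dead .dead (.br 16 .dead (.br 19 .dead .dead .dead (.br 18 .dead .dead (.br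 17 (.kem 2 3 12 4096) .dead .dead .dead) .dead)) .dead .dead) (.br 19 .dead .dead (.br 18 .dead .dead .dead (.br 20 .dead .dead (.br 16 .dead (.br 21 .dead .dead .dead (.br 22 .dead .dead (.br 17 (.kem 2 3 12 4096) .dead .dead .dead) .dead)) .dead .dead) .dead)) .dead)) (.br 15 .dead .dead (.br 16 .dead (.br 17 (.br 19 .dead .dead .dead (.br 18 .dead (.br 23 .dead .dead .dead .dead) .dead .dead)) .dead .dead .dead) .dead .dead) (.br 19 .dead .dead (.br 20 .dead .dead (.br 16 .dead (.br 17 (.br 21 .dead .dead .dead (.br 22 .dead .dead (.br 24 (.br 18 .dead (.br 23 .dead .dead .dead (.kem 1 2 3 1114264)) .dead (.kem 1 2 13 8192)) .dead .dead .dead) .dead)) .dead .dead .dead) .dead .dead) .dead) .dead)) .dead)) .dead (.br 12 .dead .dead .dead (.br 13 .dead (.br 15 (.br 16 .dead (.br 24 .dead .dead .dead (.br 19 .dead .dead (.br 18 .dead .dead .dead (.br 20 .dead .dead (.br 21 .dead .dead .dead (.br 22 .dead .dead (.br 17 (.br 23 .dead (.fin [(2,3,24903688),(0,2,16812032),(1,2,2196514),(0,2,478208),(2,3,4331586),(1,3,33554431),(2,3,33554431)])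 .dead .dead) .dead .dead .dead) .dead)) .dead)) .dead)) .dead .dead) .dead .dead (.br 19 .dead .dead (.br 18 .dead .dead .dead (.br 20 .dead .dead (.br 21 .dead .dead .dead (.br 22 .dead .dead (.br 17 (.br 16 .dead (.kem 0 2 11 2048) .dead .dead) .dead .dead .dead) .dead)) .dead)) .dead)) (.br 15 (.br 16 .dead (.br 17 (.br 24 .dead .dead .dead (.br 19 .dead .dead (.br 20 .dead .dead (.br 21 .dead .dead .dead (.br 22 .dead .dead (.br 23 .dead (.br 18 .dead .dead .dead (.kem 0 1 10 246784)) .dead .dead) .dead)) .dead) .dead)) .dead .dead .dead) .dead .dead) .dead .dead (.br 19 .dead .dead (.br 20 .dead .dead (.br 21 .dead .dead .dead (.br 22 .dead .dead (.br 24 (.br 16 (.br 17 .dead (.br 18 .dead .dead .dead (.kem 0 1 10 17408)) .dead .dead) (.kem 0 2 11 2048) .dead .dead) .dead .dead .dead) .dead)) .dead) .dead)) .dead)) .dead) .dead .dead .dead) .dead .dead) .dead .dead .dead)) .dead (.br 8 (.br 9 .dead (.br 10 (.br 11 .dead .dead (.br 12 .dead .dead .dead (.br 13 .dead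 .dead (.br 14 .dead .dead .dead (.br 15 .dead (.br 16 (.br 17 .dead (.br 18 (.br 19 .dead .dead (.br 20 .dead .dead (.br 21 .dead .dead .dead (.br 22 .dead .dead (.kem 1 3 4 25215504) .dead)) .dead) .dead) .dead .dead .dead) .dead .dead) .dead .dead .dead) .dead (.br 16 (.br 17 .dead (.br 18 (.br 19 .dead (.br 23 .dead .dead .dead (.br 22 .dead .dead (.br 21 .dead .dead .dead (.kem 1 2 3 18352264)) .dead)) (.br 20 .dead (.br 24 (.br 21 .dead .dead (.kem 1 3 4 1098256) (.br 22 .dead .dead (.br 23 .dead (.kem 2 3 21 6291456) .dead (.kem 1 2 3 2184)) .dead)) .dead .dead .dead) (.br 21 .dead .dead .dead (.br 22 .dead .dead (.kem 1 3 4 25215504) .dead)) .dead) .dead) .dead .dead .dead) .dead .dead) (.br 17 (.br 18 .dead (.br 19 .dead .dead (.br 20 .dead .dead (.br 21 .dead .dead .dead (.br 22 .dead .dead (.br 23 .dead .dead .dead (.kem 0 1 16 458752)) .dead)) .dead) .dead) .dead .dead) .dead .dead .dead) .dead .dead))) .dead)) .dead) (.br 11 (.br 12 .dead .dead (.br 13 .dead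 .dead .dead (.br 14 (.br 15 .dead .dead (.br 19 .dead .dead .dead (.br 20 .dead (.br 16 .dead .dead .dead (.br 21 .dead .dead (.br 22 .dead .dead .dead (.br 23 .dead (.br 18 .dead .dead (.br 24 (.br 17 (.kem 1 2 3 8654984) (.kem 0 1 17 131072) .dead .dead) .dead .dead .dead) .dead) .dead .dead)) .dead)) .dead .dead)) (.br 16 .dead (.br 17 (.br 19 .dead .dead (.br 18 .dead (.br 20 .dead .dead (.br 21 .dead .dead .dead (.br 22 .dead .dead (.br 23 .dead .dead .dead (.br 24 (.kem 1 2 3 1118344) (.kem 0 1 24 16777216) .dead .dead)) .dead)) .dead) .dead .dead) .dead) .dead .dead .dead) .dead .dead)) .dead .dead .dead)) (.br 13 .dead .dead (.br 14 (.br 15 .dead .dead (.br 16 .dead (.br 20 .dead .dead .dead .dead) .dead .dead) (.br 19 .dead .dead (.br 16 .dead (.br 17 (.br 20 .dead .dead (.br 21 .dead .dead .dead (.br 22 .dead .dead (.br 18 .dead (.kem 2 3 12 12288) .dead (.br 23 .dead (.br 24 (.kem 1 3 4 528) .dead .dead .dead) .dead .dead)) .dead)) .dead) .dead .dead .dead) (.br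 20 .dead (.br 21 .dead .dead .dead (.br 22 .dead .dead (.br 24 (.br 17 (.kem 1 2 16 1114112) (.br 18 .dead .dead .dead (.kem 0 1 17 131072)) .dead .dead) .dead .dead .dead) .dead)) .dead .dead) .dead) .dead)) .dead .dead (.br 15 .dead .dead (.br 16 .dead (.br 20 .dead .dead .dead .dead) .dead .dead) (.br 16 .dead (.br 17 (.br 18 .dead (.br 20 .dead .dead (.br 21 .dead .dead .dead (.br 22 .dead .dead (.br 23 .dead .dead .dead (.br 19 (.kem 1 2 3 17891464) .dead (.kem 0 3 14 16384) .dead)) .dead)) .dead) .dead .dead) .dead .dead .dead) (.br 20 .dead (.br 21 .dead .dead .dead (.br 22 .dead .dead (.br 24 (.br 19 .dead .dead (.br 17 (.kem 1 2 16 1114112) (.br 18 (.br 23 .dead (.kem 0 3 14 278528) .dead (.kem 1 2 3 136)) .dead .dead .dead) .dead .dead) .dead) .dead .dead .dead) .dead)) .dead .dead) .dead))) .dead)) .dead (.br 12 .dead .dead .dead (.br 13 .dead .dead (.br 14 (.br 15 (.br 16 .dead (.br 17 (.br 20 .dead .dead (.br 21 .dead .dead .dead (.br 22 .dead .dead (.br 24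 .dead (.br 23 .dead .dead .dead (.br 18 .dead (.br 19 .dead .dead (.kem 1 3 4 25428496) .dead) .dead .dead)) .dead .dead) .dead)) .dead) .dead .dead .dead) .dead .dead) .dead .dead (.br 19 .dead .dead (.br 16 (.br 17 .dead (.br 18 .dead .dead .dead (.br 22 .dead .dead (.br 21 .dead .dead .dead (.br 23 .dead (.br 24 (.br 20 .dead (.kem 0 2 11 67584) (.kem 1 3 4 528) .dead) .dead .dead .dead) .dead .dead)) .dead)) .dead .dead) (.kem 0 2 11 2048) .dead .dead) .dead)) .dead .dead (.br 15 (.br 16 .dead (.br 17 (.br 18 .dead (.br 19 .dead .dead (.kem 0 3 14 16384) .dead) .dead .dead) .dead .dead .dead) .dead .dead) .dead .dead (.br 16 (.br 17 .dead (.br 18 (.br 19 .dead .dead (.kem 0 1 10 1024) .dead) .dead .dead .dead) .dead .dead) (.kem 0 2 11 2048) .dead .dead))) .dead)) .dead) .dead .dead) .dead .dead) .dead .dead .dead)) (.kem 2 3 3 33554296)) (.br 3 .dead (.br 4 .dead .dead (.br 8 (.br 9 .dead (.br 10 (.br 11 .dead (.br 12 .dead .dead .dead (.br 13 .dead .dead (.br 14 .dead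 .dead .dead (.br 15 .dead .dead (.br 16 (.br 17 .dead (.br 18 (.br 19 .dead (.br 20 .dead (.br 21 .dead .dead (.br 22 .dead .dead .dead (.br 23 .dead .dead (.br 24 (.fin []) .dead .dead (.kem 0 3 24 16777216)) .dead)) (.br 22 .dead .dead (.br 23 .dead .dead .dead (.br 24 (.kem 2 3 21 14680064) .dead .dead .dead)) .dead)) .dead (.br 21 .dead .dead (.br 22 .dead .dead .dead (.br 23 .dead .dead (.br 24 (.kem 1 3 20 1048576) .dead .dead .dead) .dead)) .dead)) .dead .dead) .dead .dead .dead) .dead .dead) .dead .dead .dead) (.br 20 .dead (.br 24 (.br 16 (.br 17 .dead (.br 18 (.br 19 .dead (.kem 2 3 15 32768) (.br 23 .dead .dead .dead (.kem 1 2 19 524288)) .dead) .dead .dead .dead) .dead .dead) .dead (.br 21 .dead .dead .dead (.br 22 .dead .dead (.br 23 .dead .dead .dead (.br 17 (.br 18 .dead (.br 19 .dead .dead (.fin [(0,1,393216),(1,2,5450426),(0,3,4352),(1,3,25072),(0,1,69888),(1,2,33554431),(2,3,33554431)]) .dead) .dead .dead) (.kem 0 2 16 65536) .dead .dead)) .dead)) .dead)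 .dead .dead .dead) .dead .dead))) .dead)) .dead .dead) (.br 11 (.br 12 .dead (.br 13 .dead .dead (.br 14 (.br 15 .dead .dead (.br 16 .dead .dead .dead (.br 17 (.br 19 .dead .dead .dead (.br 18 .dead (.br 20 .dead (.br 21 .dead .dead (.br 22 .dead .dead .dead (.br 23 .dead .dead (.br 24 (.fin [(0,3,4393028),(1,3,924672),(0,3,4473924)]) .dead .dead .dead) .dead)) .dead) .dead .dead) .dead .dead)) .dead .dead .dead)) (.br 16 .dead .dead (.br 19 .dead .dead (.br 20 .dead (.br 21 .dead .dead .dead (.br 17 (.br 22 .dead .dead (.br 23 .dead .dead .dead (.br 18 .dead (.br 24 (.kem 2 3 15 15302656) .dead .dead .dead) .dead .dead)) .dead) .dead .dead .dead)) .dead .dead) .dead) .dead)) .dead .dead (.br 15 .dead .dead (.br 16 .dead .dead .dead (.br 17 (.br 18 .dead (.br 19 (.br 20 .dead (.br 21 .dead .dead (.br 22 .dead .dead .dead (.br 23 .dead .dead (.kem 0 3 14 17317888) .dead)) .dead) .dead .dead) .dead .dead .dead) .dead .dead) .dead .dead .dead)) (.br 16 .dead .dead (.br 20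 .dead (.br 21 .dead .dead .dead (.br 17 (.br 18 .dead (.br 22 .dead .dead (.br 23 .dead .dead .dead (.br 24 (.br 19 .dead .dead (.kem 0 3 14 16384) .dead) .dead .dead .dead)) .dead) .dead .dead) .dead .dead .dead)) .dead .dead) .dead))) (.br 14 (.br 15 .dead .dead (.br 16 .dead .dead .dead (.br 19 .dead .dead .dead (.br 20 .dead (.br 21 .dead .dead (.br 17 (.br 22 .dead .dead .dead (.br 23 .dead .dead (.br 18 .dead (.kem 2 3 13 8192) .dead .dead) .dead)) .dead .dead .dead) .dead) .dead .dead))) (.br 16 .dead .dead (.br 17 (.br 19 .dead .dead (.br 18 .dead (.kem 2 3 13 8192) .dead .dead) .dead) .dead .dead .dead) .dead)) .dead .dead .dead)) .dead (.br 13 .dead .dead (.br 14 (.br 15 .dead .dead (.br 16 .dead (.br 17 (.br 19 .dead .dead .dead (.br 18 .dead (.br 20 .dead .dead .dead (.br 21 .dead .dead (.br 22 .dead .dead .dead (.br 23 .dead .dead (.br 24 (.kem 1 3 12 1118208) .dead .dead .dead) .dead)) .dead)) .dead .dead)) .dead .dead .dead) .dead .dead) (.br 19 .dead .dead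 (.br 20 .dead (.br 16 .dead .dead (.br 21 .dead .dead .dead (.br 22 .dead .dead (.br 23 .dead .dead .dead (.br 18 .dead (.br 17 (.kem 1 3 12 4096) .dead .dead .dead) .dead .dead)) .dead)) .dead) .dead .dead) .dead)) .dead .dead (.br 15 .dead .dead (.br 16 .dead (.br 17 (.br 18 .dead (.br 19 (.br 20 .dead .dead .dead (.br 24 .dead .dead .dead .dead)) .dead .dead .dead) .dead .dead) .dead .dead .dead) .dead .dead) (.br 20 .dead (.br 16 .dead .dead (.br 21 .dead .dead .dead (.br 22 .dead .dead (.br 23 .dead .dead .dead (.br 24 (.br 19 .dead .dead (.kem 0 1 10 3072) .dead) .dead .dead .dead)) .dead)) .dead) .dead .dead))) .dead)) .dead .dead .dead) .dead .dead) .dead (.br 10 (.br 11 .dead (.br 12 .dead .dead .dead (.br 14 .dead (.br 13 .dead .dead (.br 15 .dead .dead (.br 16 (.br 17 .dead (.br 19 .dead .dead .dead (.br 18 (.br 23 .dead .dead (.br 22 .dead .dead .dead (.br 21 .dead .dead (.br 24 (.kem 1 3 9 541184) .dead .dead .dead) .dead)) .dead) .dead .dead .dead)) .dead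 .dead) .dead .dead .dead) (.br 19 .dead .dead (.br 20 .dead (.br 23 .dead .dead .dead (.br 18 (.kem 1 3 9 16896) .dead .dead .dead)) .dead .dead) .dead)) .dead) .dead .dead)) .dead .dead) (.br 11 (.br 14 (.br 12 .dead (.br 13 .dead .dead (.kem 1 3 9 512) .dead) .dead (.br 13 .dead (.br 15 .dead .dead (.br 16 .dead (.br 19 .dead .dead .dead (.br 18 .dead .dead (.br 23 .dead .dead .dead .dead) .dead)) .dead .dead) (.br 19 .dead .dead (.br 18 .dead .dead .dead (.br 23 .dead .dead .dead .dead)) .dead)) (.kem 1 3 9 512) .dead)) .dead .dead .dead) .dead .dead .dead) .dead .dead)) .dead .dead (.br 9 .dead (.br 10 (.br 11 .dead (.br 12 (.br 13 .dead .dead (.br 14 .dead .dead .dead (.br 15 .dead .dead (.br 16 .dead .dead .dead (.br 17 .dead (.br 18 (.br 19 .dead (.br 20 .dead (.br 21 .dead .dead (.kem 0 3 8 69888) .dead) .dead .dead) .dead .dead) .dead .dead .dead) .dead .dead)) (.br 16 .dead .dead (.br 20 .dead (.br 21 .dead .dead .dead (.br 17 .dead (.kem 0 3 8 4352) .dead .dead))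 .dead .dead) .dead))) .dead) .dead .dead .dead) .dead .dead) (.br 11 (.br 12 .dead (.br 13 (.br 14 .dead .dead .dead (.br 15 .dead .dead (.br 16 .dead .dead .dead (.br 17 .dead .dead (.br 21 .dead .dead .dead .dead) .dead)) (.br 16 .dead .dead (.br 17 .dead .dead .dead (.br 21 .dead .dead .dead .dead)) .dead))) .dead (.kem 0 3 8 256) .dead) .dead .dead) .dead .dead .dead) .dead .dead) .dead .dead)) (.kem 2 3 4 33554416)) .dead (.kem 2 3 3 33554424)) .dead)

def t5_3 : Tree :=
  (.br 3 .dead (.br 4 .dead .dead (.br 8 .dead .dead .dead (.br 9 .dead (.br 10 (.br 14 .dead .dead .dead (.br 11 .dead (.br 12 .dead .dead (.br 13 (.br 15 .dead .dead (.br 19 .dead (.br 18 .dead .dead (.br 16 (.br 17 .dead (.kem 0 3 6 26048) .dead (.br 21 .dead .dead (.br 22 (.kem 1 3 17 131072) .dead .dead .dead) .dead)) .dead .dead (.br 17 .dead (.kem 0 3 6 26048) .dead .dead)) .dead) .dead .dead) (.br 16 (.br 20 .dead (.br 24 (.br 23 .dead .dead .dead (.br 22 (.br 17 .dead (.br 18 .dead .dead (.br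 19 .dead (.kem 2 3 15 32768) .dead .dead) .dead) .dead (.br 21 .dead .dead (.kem 0 3 6 30401984) .dead)) .dead .dead .dead)) .dead .dead .dead) .dead .dead) .dead .dead .dead)) .dead .dead .dead) .dead) (.br 12 .dead (.br 13 (.br 15 .dead (.br 19 .dead .dead (.br 18 .dead (.br 20 .dead .dead .dead (.br 16 (.br 21 .dead .dead (.br 17 .dead .dead .dead (.br 22 (.br 23 .dead .dead .dead (.br 24 (.kem 1 2 11 825344) .dead .dead .dead)) .dead .dead .dead)) .dead) .dead .dead .dead)) .dead .dead) .dead) .dead (.br 16 (.br 20 .dead (.br 24 (.br 23 .dead .dead .dead (.br 22 (.br 17 .dead .dead (.br 18 .dead (.br 19 .dead .dead (.br 21 .dead .dead .dead (.kem 1 2 11 923648)) .dead) .dead .dead) (.kem 1 2 11 6144)) .dead .dead .dead)) .dead .dead .dead) .dead .dead) .dead .dead .dead)) .dead (.br 15 .dead (.br 19 .dead .dead (.br 20 .dead .dead .dead (.br 16 (.br 17 .dead .dead .dead (.br 21 .dead .dead (.br 22 (.br 18 .dead (.kem 0 3 6 17856) .dead .dead) .dead .dead .dead) .dead))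 .dead .dead .dead)) .dead) .dead (.br 16 (.br 17 .dead .dead .dead (.br 20 .dead (.br 21 .dead .dead (.kem 0 3 6 30393792) .dead) .dead .dead)) .dead .dead .dead)) .dead) .dead .dead) .dead)) (.br 11 .dead .dead (.br 12 .dead (.br 13 (.br 14 .dead .dead .dead (.br 15 (.br 16 .dead .dead .dead (.br 17 .dead .dead (.br 21 .dead .dead .dead .dead) .dead)) .dead .dead (.br 16 (.br 20 .dead (.br 24 (.br 19 .dead .dead (.kem 0 1 10 1024) .dead) .dead .dead .dead) .dead .dead) .dead .dead .dead))) .dead (.kem 0 3 6 448) .dead) .dead .dead) .dead) .dead .dead) .dead .dead)) (.br 8 .dead .dead (.br 9 .dead (.br 10 (.br 14 .dead .dead .dead (.br 13 (.br 11 .dead (.br 12 .dead .dead .dead (.br 15 .dead .dead (.br 16 (.br 19 .dead (.br 18 .dead .dead (.br 17 .dead (.br 20 .dead (.br 24 (.kem 2 3 4 4368) .dead .dead .dead) .dead .dead) .dead .dead) .dead) .dead .dead) .dead .dead .dead) (.br 16 (.br 17 .dead (.br 18 .dead .dead (.br 19 .dead (.br 20 .dead (.br 21 .dead .dead (.br 22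 (.br 23 .dead .dead .dead (.br 24 (.kem 2 3 4 4368) .dead (.kem 0 3 6 128192) .dead)) .dead .dead (.kem 0 2 2 25436548)) (.kem 0 2 2 29630852)) (.br 21 .dead .dead .dead (.br 22 (.br 23 .dead .dead .dead (.kem 0 2 2 4465028)) .dead .dead .dead)) .dead) .dead .dead) .dead) (.br 18 .dead (.br 19 .dead .dead (.br 21 .dead .dead .dead (.br 22 (.br 23 .dead .dead .dead (.br 24 (.kem 1 2 17 917504) .dead .dead .dead)) .dead .dead .dead)) .dead) .dead .dead) .dead) .dead (.br 17 .dead (.br 18 .dead .dead (.br 19 .dead (.br 20 .dead (.br 21 .dead .dead .dead (.kem 0 2 2 29630852)) .dead .dead) .dead .dead) .dead) .dead .dead) .dead))) (.br 12 .dead (.br 15 .dead (.br 19 .dead .dead (.br 18 .dead (.br 20 .dead .dead (.br 21 .dead .dead .dead (.br 16 (.br 17 .dead .dead (.kem 0 3 6 25792) .dead) .dead .dead .dead)) .dead) .dead .dead) .dead) .dead (.br 16 (.br 17 .dead .dead (.br 18 .dead (.br 19 .dead .dead (.br 21 .dead .dead .dead (.br 22 (.br 23 .dead .dead .dead (.br 24 (.br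 20 .dead (.kem 2 3 4 272) (.kem 1 3 15 32768) .dead) .dead .dead .dead)) .dead .dead .dead)) .dead) .dead .dead) (.br 21 .dead .dead (.br 20 .dead (.br 22 (.br 23 .dead .dead .dead (.br 18 .dead (.kem 2 3 17 2228224) (.br 19 .dead (.br 24 (.kem 2 3 4 272) .dead (.kem 0 3 6 12838080) .dead) .dead .dead) .dead)) .dead .dead .dead) .dead .dead) .dead)) .dead .dead .dead)) .dead (.br 15 .dead (.br 16 (.br 19 .dead .dead (.br 18 .dead (.br 17 .dead .dead (.kem 1 3 12 4096) .dead) .dead .dead) .dead) .dead .dead .dead) .dead (.br 16 (.kem 1 2 11 2048) (.br 17 .dead .dead (.br 18 .dead (.br 19 .dead .dead (.br 20 .dead .dead (.br 21 .dead .dead .dead (.kem 0 1 16 65536)) .dead) .dead) .dead .dead) .dead) .dead .dead))) .dead) .dead .dead .dead)) (.br 11 .dead .dead (.br 12 .dead (.kem 0 3 6 192) .dead (.br 13 (.br 14 .dead .dead .dead (.br 15 (.br 16 .dead (.br 17 .dead .dead (.br 18 .dead (.br 19 .dead .dead (.kem 0 3 6 28864) .dead) .dead .dead) .dead) .dead .dead) .dead .dead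 (.br 16 (.br 17 .dead (.br 18 .dead .dead (.br 19 (.br 23 .dead .dead .dead (.br 22 (.br 24 .dead .dead (.kem 0 1 3 136) .dead) .dead .dead .dead)) .dead .dead .dead) .dead) (.kem 1 3 12 4096) .dead) (.br 17 .dead .dead (.br 18 .dead (.br 20 .dead .dead (.br 21 .dead .dead .dead (.kem 0 1 16 65536)) .dead) .dead .dead) .dead) .dead .dead))) .dead .dead .dead)) .dead) .dead .dead) .dead .dead) .dead)) .dead (.br 4 .dead (.br 8 .dead .dead (.br 9 .dead .dead .dead (.br 10 (.br 14 .dead (.br 13 (.br 11 .dead (.br 12 .dead .dead .dead (.br 15 .dead .dead (.br 16 (.br 19 .dead .dead .dead (.br 18 .dead .dead (.br 17 .dead (.br 20 .dead .dead .dead (.br 21 .dead .dead (.br 24 (.br 23 .dead (.br 22 (.kem 1 3 3 9978392) .dead .dead (.kem 0 2 2 270724)) .dead .dead) .dead .dead .dead) .dead)) .dead .dead) .dead)) .dead .dead .dead) (.br 19 .dead .dead (.br 18 .dead .dead .dead (.br 20 .dead .dead (.br 16 (.br 21 .dead .dead .dead (.br 22 (.br 23 .dead (.br 24 (.br 17 .dead (.kem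 0 2 2 4202884) (.kem 1 3 3 8667672) .dead) .dead .dead .dead) .dead .dead) .dead .dead .dead)) .dead .dead .dead) .dead)) .dead))) (.br 12 .dead (.br 15 .dead (.br 16 (.br 17 .dead .dead (.br 18 .dead .dead .dead (.br 19 .dead .dead (.br 21 .dead .dead .dead (.br 20 .dead .dead (.br 22 (.kem 1 3 3 25477656) .dead .dead .dead) .dead)) .dead)) (.br 18 .dead .dead (.br 19 .dead .dead .dead (.br 21 .dead .dead (.br 20 .dead .dead .dead (.br 22 (.kem 1 3 3 26788376) .dead .dead .dead)) .dead)) .dead)) .dead .dead (.br 17 .dead .dead (.br 21 .dead .dead .dead .dead) .dead)) .dead (.br 16 (.br 19 .dead .dead (.br 18 .dead .dead .dead (.br 17 .dead .dead (.br 20 .dead .dead (.br 21 .dead .dead .dead (.br 22 (.kem 1 3 3 25477656) .dead .dead .dead)) .dead) .dead)) .dead) .dead .dead .dead)) .dead (.br 15 .dead (.br 16 (.br 17 .dead (.br 18 .dead .dead (.br 19 .dead .dead .dead (.br 20 .dead .dead (.br 21 .dead .dead .dead (.br 22 (.kem 1 3 3 25739800) .dead .dead .dead)) (.br 21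 .dead .dead (.br 22 (.kem 1 3 3 26788376) .dead .dead (.br 23 (.kem 1 3 3 18399768) (.kem 0 3 22 4194304) .dead .dead)) .dead))) (.br 19 .dead .dead (.br 22 (.br 23 .dead (.br 24 (.kem 2 3 18 786432) .dead .dead .dead) .dead .dead) .dead .dead .dead) .dead)) (.kem 1 3 12 4096) .dead) .dead .dead .dead) .dead (.br 19 .dead .dead (.br 18 .dead .dead .dead (.br 20 .dead .dead (.br 21 .dead .dead .dead (.br 22 (.br 23 .dead (.br 24 (.br 16 (.kem 1 2 11 2048) (.br 17 .dead .dead (.kem 1 3 3 8667672) .dead) .dead .dead) .dead .dead .dead) .dead .dead) .dead .dead .dead)) .dead)) .dead))) .dead) .dead .dead .dead) .dead .dead) (.br 11 .dead .dead (.br 14 (.br 13 .dead (.br 12 .dead .dead .dead (.br 15 (.br 16 .dead (.br 24 .dead .dead (.br 19 .dead .dead .dead (.br 18 .dead .dead (.br 17 (.br 20 .dead .dead .dead (.br 21 .dead .dead (.br 22 .dead .dead .dead (.kem 0 1 10 254976)) .dead)) .dead .dead .dead) .dead)) .dead) .dead .dead) .dead .dead (.br 19 .dead .dead (.br 18 .dead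 .dead .dead (.br 20 .dead .dead (.br 21 .dead .dead .dead (.br 22 (.br 17 .dead .dead (.kem 0 1 10 25600) .dead) .dead .dead .dead)) .dead)) .dead))) .dead .dead) .dead .dead .dead) .dead) .dead .dead)) .dead) (.br 8 .dead (.br 9 .dead .dead .dead (.br 10 (.br 14 .dead (.br 11 .dead (.br 12 .dead .dead (.br 13 (.br 15 .dead .dead (.br 19 .dead .dead .dead (.br 18 .dead .dead (.br 16 (.br 17 .dead (.br 20 .dead (.br 24 (.br 23 .dead (.kem 0 3 3 17302728) .dead .dead) .dead .dead .dead) .dead (.br 21 .dead .dead (.br 22 (.kem 1 3 3 26755848) .dead .dead (.br 23 (.kem 1 3 3 18367240) (.kem 0 3 22 4194304) .dead .dead)) .dead)) .dead (.br 21 .dead .dead (.br 22 (.kem 1 3 3 26755848) .dead .dead .dead) .dead)) .dead .dead (.br 17 .dead (.br 20 .dead (.br 21 .dead .dead (.kem 0 3 3 29885640) .dead) .dead .dead) .dead .dead)) .dead)) (.br 16 (.br 19 .dead .dead (.br 18 .dead .dead .dead (.br 17 .dead (.br 20 .dead (.br 22 (.br 23 .dead (.br 24 (.kem 2 3 15 819200) .dead .dead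 .dead) .dead .dead) .dead .dead .dead) .dead .dead) .dead .dead)) .dead) .dead .dead .dead)) .dead .dead .dead) (.br 13 (.br 15 .dead .dead (.br 16 (.br 19 .dead .dead .dead (.br 18 .dead .dead (.br 17 .dead (.kem 2 3 12 4096) .dead .dead) .dead)) .dead .dead .dead) (.br 19 .dead .dead (.br 18 .dead .dead .dead (.br 20 .dead (.br 22 (.br 23 .dead (.br 24 (.kem 2 3 12 3117056) .dead .dead .dead) .dead .dead) .dead .dead .dead) .dead .dead)) .dead)) .dead (.br 15 .dead .dead (.br 16 (.br 17 .dead (.br 19 .dead .dead .dead (.br 18 (.br 22 .dead .dead .dead (.br 21 .dead .dead (.br 23 .dead (.kem 0 2 2 132) .dead .dead) .dead)) .dead .dead .dead)) .dead .dead) .dead .dead .dead) (.br 19 .dead .dead (.br 20 .dead (.br 24 (.br 23 .dead (.br 16 (.br 17 .dead (.br 18 (.kem 2 3 15 557056) .dead .dead (.kem 0 2 13 8192)) .dead .dead) .dead (.br 21 .dead .dead .dead (.br 22 (.br 17 .dead (.kem 0 3 3 16815304) .dead .dead) .dead .dead .dead)) .dead) .dead .dead) .dead .dead .dead)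 .dead .dead) .dead)) .dead)) (.br 12 .dead .dead .dead (.br 13 (.br 15 .dead (.br 16 (.br 20 .dead .dead .dead (.br 21 .dead .dead (.br 17 .dead (.br 24 (.kem 1 2 4 272) .dead .dead .dead) .dead .dead) .dead)) .dead .dead .dead) .dead (.br 19 .dead .dead (.br 18 .dead .dead .dead (.br 20 .dead (.br 16 (.kem 1 2 11 2048) .dead .dead .dead) .dead .dead)) .dead)) .dead (.br 15 .dead (.br 16 (.br 17 .dead (.br 20 .dead .dead .dead (.br 21 .dead .dead (.br 24 (.br 23 .dead (.br 18 (.br 22 .dead .dead .dead (.br 19 .dead .dead (.fin [(2,3,7355004),(0,1,25674752),(0,3,2252849),(1,3,7),(2,3,4331586),(0,1,33554431),(1,2,33554431)]) (.kem 1 2 11 34816))) .dead .dead (.kem 0 2 13 8192)) .dead .dead) .dead .dead .dead) .dead)) .dead .dead) .dead .dead .dead) .dead (.br 19 .dead .dead (.br 20 .dead (.br 16 (.kem 1 2 11 2048) .dead .dead .dead) .dead .dead) .dead)) .dead)) .dead) .dead .dead) (.br 11 .dead .dead (.br 12 .dead .dead .dead (.br 14 (.br 13 .dead .dead (.br 15 (.br 16 .dead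 (.br 17 (.br 20 .dead .dead .dead (.br 21 .dead .dead (.br 22 .dead .dead .dead (.kem 0 1 10 26199040)) .dead)) .dead .dead .dead) .dead .dead) .dead .dead (.br 19 .dead .dead (.br 20 .dead (.br 16 (.br 17 .dead (.br 18 .dead .dead .dead (.kem 0 1 10 17408)) .dead .dead) .dead .dead .dead) .dead .dead) .dead)) .dead) .dead .dead .dead)) .dead) .dead .dead)) .dead .dead) .dead))

def t5_4 : Tree :=
  (.br 6 (.br 2 .dead .dead (.br 7 .dead (.br 3 (.br 8 .dead .dead (.br 4 .dead (.br 9 .dead .dead .dead (.br 10 .dead (.br 14 (.br 13 .dead (.br 11 .dead .dead (.br 12 (.br 15 (.br 16 .dead (.br 17 .dead .dead (.br 18 .dead .dead .dead (.br 19 .dead .dead (.br 21 .dead .dead .dead (.br 20 .dead .dead (.br 22 (.br 23 .dead (.br 24 .dead .dead .dead (.fin [(2,3,800),(1,3,2163746),(2,3,6),(0,1,14708985),(1,2,5921347),(2,3,1),(0,3,33554431),(2,3,33554431)])) .dead .dead) .dead .dead .dead) .dead)) .dead)) (.br 18 .dead .dead (.br 19 .dead .dead .dead (.br 21 .dead .dead (.br 20 .dead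 .dead .dead (.br 22 (.br 23 .dead (.kem 2 3 17 20840448) .dead .dead) .dead .dead .dead)) .dead)) .dead)) .dead (.br 17 .dead .dead (.br 21 .dead .dead .dead .dead) .dead)) .dead .dead (.br 16 .dead (.br 19 .dead .dead (.br 24 .dead .dead .dead .dead) .dead) .dead .dead)) .dead .dead (.br 15 (.br 16 .dead (.br 17 (.br 22 .dead .dead .dead (.br 18 .dead .dead (.br 19 .dead .dead .dead (.br 21 .dead .dead (.br 20 .dead .dead .dead (.br 23 .dead (.kem 0 3 12 4329472) .dead .dead)) .dead)) .dead)) .dead (.kem 0 3 12 4096) .dead) .dead .dead) .dead .dead (.br 19 .dead .dead (.br 24 .dead .dead .dead .dead) .dead))) (.br 12 (.br 15 (.br 16 .dead (.kem 2 3 11 2048) (.br 17 .dead .dead .dead (.br 21 .dead .dead .dead .dead)) .dead) .dead (.br 16 .dead (.br 19 .dead .dead .dead (.br 24 .dead .dead .dead .dead)) .dead .dead) .dead) .dead .dead .dead)) .dead .dead) .dead .dead .dead) .dead (.br 11 .dead .dead (.br 12 (.br 13 .dead (.br 14 (.br 15 (.br 16 .dead (.br 17 .dead .dead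 (.br 18 .dead .dead .dead (.br 21 .dead .dead .dead (.br 20 .dead .dead (.br 22 (.br 23 .dead (.br 19 .dead .dead (.kem 1 3 10 1024) .dead) .dead .dead) .dead .dead .dead) .dead))) (.br 18 .dead .dead (.br 19 .dead (.br 21 .dead .dead (.br 20 .dead .dead .dead (.br 22 (.br 23 .dead .dead .dead (.br 24 .dead .dead (.kem 1 3 10 8913920) .dead)) .dead .dead .dead)) .dead) .dead .dead) .dead)) .dead (.br 17 .dead .dead (.br 21 .dead .dead .dead .dead) .dead)) (.br 16 .dead .dead .dead (.br 17 .dead .dead (.br 21 .dead .dead .dead .dead) .dead)) .dead .dead) .dead .dead .dead) .dead .dead) .dead .dead (.br 13 (.br 14 .dead (.br 15 (.br 16 .dead (.br 17 .dead .dead (.br 18 .dead .dead .dead (.br 19 .dead .dead (.br 21 .dead .dead .dead (.br 20 .dead .dead (.br 22 (.br 23 .dead (.br 24 .dead .dead .dead (.fin [(0,1,12583131),(0,3,2097154),(0,2,12233108),(1,3,69632),(0,3,18811904),(1,3,5921347),(0,3,1)])) .dead .dead) .dead .dead .dead) .dead)) .dead)) .dead) .dead .dead) (.br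 16 (.br 17 .dead (.br 18 .dead .dead (.br 19 (.br 20 .dead .dead (.br 21 .dead .dead .dead (.br 22 (.br 24 .dead .dead .dead (.br 23 .dead (.fin [(2,3,19922944),(0,3,1126913),(2,3,2165793),(1,3,2252834),(0,3,4331586),(0,2,33554431),(1,2,33554431)]) .dead .dead)) .dead .dead .dead)) (.br 21 .dead .dead (.br 24 .dead .dead (.br 22 (.br 23 .dead (.kem 2 3 20 19922944) .dead (.kem 1 3 23 8388608)) .dead .dead (.br 23 .dead (.kem 0 3 22 4194304) .dead .dead)) .dead) .dead)) .dead .dead .dead) (.br 22 (.br 23 .dead (.br 19 (.kem 2 3 18 262144) .dead (.br 24 .dead .dead .dead (.kem 0 2 19 524288)) .dead) .dead .dead) .dead .dead .dead)) (.br 18 .dead .dead .dead (.br 21 .dead .dead .dead (.br 20 .dead .dead (.br 22 (.kem 1 2 17 131072) .dead .dead .dead) .dead))) .dead) .dead .dead .dead) .dead .dead) .dead .dead) (.br 14 (.br 15 (.br 16 .dead (.br 17 (.br 22 .dead .dead .dead (.br 18 .dead .dead (.br 19 .dead (.br 23 .dead .dead .dead .dead) .dead .dead) .dead)) .dead (.kem 0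 3 12 4096) .dead) .dead .dead) (.br 16 (.br 17 .dead .dead (.br 18 .dead .dead .dead (.br 19 .dead .dead (.kem 0 1 13 24576) .dead)) .dead) .dead .dead .dead) .dead .dead) .dead .dead .dead) .dead .dead)) .dead))) .dead (.br 9 .dead (.br 10 .dead (.br 11 .dead .dead (.br 12 (.br 13 .dead .dead .dead (.br 14 (.br 15 (.br 16 .dead (.br 17 .dead .dead (.br 18 .dead (.br 20 .dead .dead (.br 21 .dead .dead .dead (.br 22 (.kem 1 3 4 25962000) .dead .dead .dead)) .dead) .dead .dead) .dead) .dead (.br 21 .dead .dead (.br 17 .dead (.br 18 .dead .dead (.br 19 .dead .dead .dead (.br 20 .dead (.br 23 .dead (.br 24 .dead .dead (.br 22 (.kem 1 3 4 1253904) .dead .dead (.kem 0 3 22 4194304)) .dead) .dead .dead) .dead .dead)) .dead) .dead .dead) .dead)) .dead .dead (.br 16 .dead (.br 17 .dead .dead (.br 18 .dead (.br 19 .dead .dead (.br 20 .dead .dead (.br 21 .dead .dead .dead (.br 22 (.br 23 .dead .dead .dead (.br 24 .dead (.kem 0 3 15 32768) .dead .dead)) .dead .dead .dead)) .dead) .dead)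 .dead .dead) .dead) .dead .dead)) .dead .dead .dead)) .dead .dead (.br 13 (.br 14 .dead .dead .dead (.br 15 (.br 16 .dead (.br 17 .dead .dead (.br 18 .dead (.br 19 .dead .dead (.kem 0 3 12 28672) .dead) .dead .dead) .dead) .dead .dead) .dead .dead (.br 16 (.br 17 .dead (.br 18 .dead .dead (.br 19 (.br 20 .dead (.br 24 .dead .dead (.br 21 .dead .dead (.kem 1 3 4 1099280) (.br 22 (.kem 2 3 21 2097152) .dead .dead .dead)) .dead) (.br 21 .dead .dead .dead (.br 22 (.kem 1 3 4 25216528) .dead .dead .dead)) .dead) .dead .dead .dead) .dead) (.br 18 .dead (.br 21 .dead .dead .dead (.br 22 (.br 23 .dead .dead .dead (.br 19 (.kem 1 2 17 393216) .dead (.br 24 .dead (.kem 0 2 19 524288) .dead .dead) .dead)) .dead .dead .dead)) .dead .dead) .dead) (.br 17 .dead .dead (.br 18 .dead (.br 20 .dead .dead (.br 21 .dead .dead .dead (.kem 0 1 16 65536)) .dead) .dead .dead) .dead) .dead .dead))) .dead .dead .dead)) (.br 12 (.br 13 .dead .dead .dead (.br 14 (.br 15 (.br 16 .dead (.kem 2 3 11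 2048) (.br 17 .dead (.br 18 .dead .dead (.br 19 .dead .dead .dead (.br 20 .dead (.br 21 .dead .dead .dead (.br 22 (.kem 2 3 11 2164736) .dead .dead .dead)) .dead .dead)) .dead) .dead .dead) .dead) .dead (.br 16 .dead (.br 20 .dead .dead .dead .dead) .dead .dead) .dead) .dead .dead .dead)) .dead .dead .dead)) .dead (.br 11 .dead .dead (.br 14 (.br 13 .dead .dead .dead (.br 12 (.br 15 (.br 16 .dead (.br 17 .dead .dead (.br 18 .dead (.br 19 .dead .dead (.kem 1 3 10 1024) .dead) .dead .dead) .dead) .dead (.br 21 .dead .dead (.br 17 .dead (.br 18 .dead .dead (.br 19 .dead (.br 20 .dead (.br 23 .dead .dead .dead (.br 22 (.kem 1 3 4 26945040) .dead .dead .dead)) .dead .dead) .dead .dead) .dead) .dead .dead) .dead)) (.br 16 .dead .dead .dead (.br 19 .dead .dead (.br 24 .dead .dead .dead .dead) .dead)) .dead .dead) .dead .dead .dead)) .dead .dead .dead) .dead)) .dead .dead)) (.br 9 .dead (.br 4 .dead .dead (.br 10 .dead (.br 11 .dead .dead (.br 12 (.br 13 .dead .dead (.br 14 (.br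 15 (.br 16 .dead (.br 17 .dead .dead .dead (.br 18 .dead (.br 20 .dead .dead .dead (.br 21 .dead .dead (.br 22 (.br 23 .dead .dead .dead (.br 19 .dead .dead (.br 24 .dead (.fin [(1,3,896),(2,3,8915076),(1,3,6),(0,2,14708985),(2,3,5921347),(1,3,1),(0,1,33554431),(1,2,33554431)]) .dead .dead) .dead)) .dead .dead .dead) .dead)) .dead .dead)) .dead (.br 17 .dead (.br 18 .dead .dead .dead (.br 19 .dead .dead (.br 20 .dead (.br 21 .dead .dead (.br 22 (.kem 1 3 16 26673152) .dead .dead .dead) .dead) .dead .dead) .dead)) .dead .dead)) .dead .dead (.br 16 .dead (.br 20 .dead .dead .dead .dead) .dead .dead)) .dead .dead (.br 15 (.br 19 .dead .dead (.br 16 .dead (.br 17 .dead .dead .dead (.br 20 .dead .dead .dead (.br 21 .dead .dead (.br 22 (.br 18 .dead (.kem 0 3 14 16384) .dead .dead) .dead .dead .dead) .dead))) .dead (.br 17 .dead (.br 18 (.br 20 .dead (.br 21 .dead .dead (.br 22 .dead .dead .dead (.br 23 .dead (.kem 0 3 14 4472832) .dead .dead)) .dead) .dead .dead) .dead .dead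 .dead) .dead .dead)) .dead) .dead .dead (.br 16 .dead (.br 20 .dead .dead .dead .dead) .dead .dead))) .dead) .dead .dead .dead) (.br 12 (.br 13 .dead .dead (.br 14 (.br 15 (.br 16 .dead (.kem 2 3 11 2048) (.br 21 .dead .dead .dead (.br 17 .dead (.br 18 .dead .dead .dead (.br 19 .dead .dead (.br 20 .dead (.br 22 (.kem 2 3 11 2164736) .dead .dead .dead) .dead .dead) .dead)) .dead .dead)) .dead) .dead (.br 16 .dead (.br 17 .dead .dead .dead (.br 18 .dead (.br 19 .dead .dead .dead (.br 23 .dead .dead .dead .dead)) .dead .dead)) .dead .dead) .dead) .dead .dead (.br 15 (.br 19 .dead .dead (.br 16 .dead (.kem 2 3 11 2048) (.br 21 .dead .dead .dead (.br 17 .dead (.br 18 (.br 22 .dead .dead .dead .dead) .dead .dead .dead) .dead .dead)) .dead) .dead) .dead (.br 16 .dead (.br 17 .dead .dead .dead (.br 19 (.br 18 .dead (.br 20 .dead .dead .dead (.br 21 .dead .dead (.br 22 (.br 23 .dead .dead .dead (.br 24 .dead (.kem 0 2 15 557056) .dead .dead)) .dead .dead .dead) .dead)) .dead .dead)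 .dead .dead .dead)) .dead .dead) .dead)) .dead) .dead (.br 13 (.br 14 .dead .dead .dead (.br 15 (.br 16 .dead (.br 17 .dead .dead .dead (.br 19 .dead .dead (.br 18 .dead (.kem 0 2 12 12288) .dead .dead) .dead)) .dead .dead) .dead (.br 19 (.br 16 (.br 17 .dead (.br 18 .dead .dead (.br 20 .dead (.br 24 .dead .dead .dead (.br 23 .dead (.br 21 .dead .dead (.br 22 (.fin [(0,3,17326344),(1,3,8916104),(2,3,8663172),(0,3,4473924)]) .dead .dead (.kem 0 3 22 4194304)) (.br 22 (.kem 2 3 21 2097152) .dead .dead .dead)) .dead .dead)) .dead (.br 21 .dead .dead (.br 24 .dead (.br 23 .dead .dead .dead (.br 22 (.kem 1 3 20 26214400) .dead .dead .dead)) .dead .dead) .dead)) .dead) .dead (.br 21 .dead .dead (.br 22 (.br 18 .dead (.br 23 .dead .dead .dead (.br 24 .dead (.br 20 .dead .dead .dead (.fin [(1,2,18912950),(2,3,20352),(0,2,4261955),(0,3,139776),(1,3,8663172),(0,3,1048576),(2,3,4473924),(0,2,33554431),(1,2,33554431)])) .dead .dead)) (.kem 1 3 17 131072) .dead) .dead .dead .dead) .dead))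 (.br 17 .dead .dead .dead (.br 20 .dead .dead .dead (.br 21 .dead .dead (.kem 0 1 16 65536) .dead))) .dead .dead) .dead .dead .dead) .dead)) .dead .dead .dead) .dead)) .dead (.br 11 .dead .dead (.br 12 (.br 13 .dead .dead (.br 14 (.br 15 (.br 16 .dead (.br 17 .dead .dead .dead (.br 18 .dead (.br 19 .dead .dead (.kem 1 3 10 1024) .dead) .dead .dead)) .dead (.br 17 .dead (.br 18 .dead .dead .dead (.br 20 .dead (.br 21 .dead .dead (.br 22 (.kem 1 3 10 27198464) .dead .dead .dead) .dead) .dead .dead)) .dead .dead)) (.br 16 .dead .dead .dead (.br 20 .dead .dead .dead .dead)) .dead .dead) .dead .dead .dead) .dead) .dead .dead .dead) .dead)) .dead) .dead .dead)) .dead .dead t5_0) .dead t5_1) (.kem 2 3 2 33554364)) .dead .dead (.br 2 t5_2 .dead (.br 7 t5_3 (.br 3 (.br 8 .dead .dead (.br 4 .dead (.br 9 .dead .dead .dead (.br 10 (.br 11 .dead .dead (.br 14 .dead (.br 13 (.br 12 .dead .dead .dead (.br 15 .dead (.br 16 (.br 17 .dead (.br 18 .dead .dead (.br 19 .dead .dead .dead (.br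 23 .dead (.br 24 .dead .dead (.kem 0 3 6 525376) .dead) .dead .dead)) (.br 19 .dead .dead (.kem 0 3 6 1088) .dead)) (.br 18 .dead .dead .dead (.br 19 .dead .dead (.kem 0 3 6 1088) .dead)) .dead) .dead .dead .dead) .dead (.br 19 .dead .dead (.br 24 .dead .dead .dead .dead) .dead))) .dead .dead .dead) .dead .dead) .dead) (.br 14 (.br 13 .dead (.br 11 (.br 12 .dead .dead .dead (.br 15 .dead .dead (.br 16 .dead (.br 19 .dead .dead .dead (.br 24 .dead .dead .dead .dead)) .dead .dead) (.br 19 .dead .dead (.br 24 .dead .dead .dead .dead) .dead))) .dead (.kem 0 3 6 64) .dead) .dead .dead) .dead .dead .dead) .dead .dead)) .dead (.br 9 .dead (.br 10 (.br 11 .dead .dead (.br 14 .dead .dead .dead (.br 13 (.br 12 .dead .dead .dead (.br 15 .dead (.br 16 (.br 19 .dead .dead (.br 24 .dead .dead .dead .dead) .dead) .dead .dead .dead) .dead (.br 16 (.br 17 .dead (.br 18 .dead .dead (.br 19 .dead (.br 23 .dead .dead .dead (.br 22 (.br 24 .dead .dead (.br 20 .dead (.br 21 .dead .dead (.kem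 1 3 4 10011152) (.kem 0 2 2 21242124)) .dead .dead) .dead) .dead .dead .dead)) .dead .dead) .dead) (.br 18 .dead (.br 19 .dead .dead (.br 21 .dead .dead .dead (.br 22 (.br 23 .dead .dead .dead (.kem 1 2 17 18743296)) .dead .dead .dead)) .dead) .dead .dead) .dead) (.br 17 .dead .dead (.br 18 .dead (.br 19 .dead .dead (.br 20 .dead .dead (.br 21 .dead .dead .dead (.kem 0 1 16 65536)) .dead) .dead) .dead .dead) .dead) .dead .dead))) .dead .dead .dead)) .dead) (.br 11 (.br 12 .dead .dead .dead (.br 13 (.br 14 .dead .dead .dead (.br 15 .dead .dead (.br 16 .dead (.br 20 .dead .dead .dead .dead) .dead .dead) (.br 16 .dead (.br 17 .dead .dead (.br 18 .dead (.br 20 .dead .dead (.br 21 .dead .dead .dead (.br 22 (.br 23 .dead .dead .dead (.br 24 .dead (.kem 0 2 2 4333836) .dead .dead)) .dead .dead .dead)) .dead) .dead .dead) .dead) (.br 17 .dead (.br 18 .dead .dead (.br 19 (.br 20 .dead (.br 21 .dead .dead .dead (.kem 0 2 2 30155020)) .dead .dead) .dead .dead .dead) .dead) .dead .dead)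 .dead))) .dead .dead .dead)) .dead (.kem 0 3 6 64) .dead) .dead .dead) .dead .dead)) (.br 9 .dead (.br 4 .dead .dead (.br 10 (.br 11 .dead .dead (.br 12 (.br 13 .dead .dead (.br 14 .dead .dead .dead (.br 15 .dead (.br 16 .dead .dead .dead (.br 20 .dead .dead .dead .dead)) .dead (.br 16 .dead (.br 20 .dead .dead .dead .dead) .dead .dead))) .dead) .dead .dead .dead) .dead) (.br 11 (.br 12 .dead .dead (.br 13 (.br 14 .dead .dead .dead (.br 15 .dead .dead (.br 19 (.br 16 .dead (.kem 0 3 6 2112) .dead (.br 17 .dead (.br 18 .dead .dead (.br 20 .dead (.br 21 .dead .dead (.kem 0 3 6 67648) .dead) .dead .dead) .dead) .dead .dead)) .dead .dead .dead) (.br 16 .dead (.br 20 .dead .dead .dead .dead) .dead .dead))) .dead .dead .dead) .dead) .dead (.kem 0 3 6 64) .dead) .dead .dead) .dead) .dead .dead)) .dead .dead (.br 4 .dead (.br 9 .dead .dead .dead (.br 8 (.br 10 (.br 11 .dead .dead (.br 12 .dead .dead .dead (.br 14 .dead (.br 13 .dead .dead (.br 15 .dead (.br 16 (.br 17 .dead (.br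 18 (.br 22 .dead .dead .dead (.br 21 .dead .dead (.br 20 .dead .dead .dead (.br 23 .dead (.kem 0 2 2 4) .dead .dead)) .dead)) .dead .dead (.br 19 .dead .dead (.kem 0 3 6 1088) .dead)) .dead .dead) .dead .dead .dead) .dead (.br 19 .dead .dead (.br 20 .dead .dead (.br 21 .dead .dead .dead (.br 22 (.br 17 .dead (.br 16 (.br 18 .dead .dead .dead (.br 23 .dead (.kem 0 2 2 4194308) .dead .dead)) .dead .dead .dead) .dead .dead) .dead .dead .dead)) .dead) .dead)) .dead) .dead .dead)) .dead) (.br 14 (.br 11 (.br 12 .dead .dead (.br 13 .dead (.br 15 .dead .dead (.br 19 .dead .dead .dead (.br 18 .dead .dead (.br 20 .dead .dead .dead (.br 16 .dead (.kem 0 3 6 2112) .dead .dead)) .dead)) (.br 16 .dead (.br 19 .dead .dead (.br 18 .dead .dead .dead (.br 17 (.br 22 .dead .dead .dead .dead) .dead .dead .dead)) .dead) .dead .dead)) .dead .dead) (.br 13 .dead (.br 15 .dead .dead (.br 16 .dead (.br 19 .dead .dead .dead (.br 18 .dead .dead (.br 17 (.kem 2 3 12 4096) .dead .dead .dead) .dead))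 .dead .dead) (.br 19 .dead .dead (.br 18 .dead .dead .dead (.br 20 .dead .dead (.br 16 .dead (.br 21 .dead .dead .dead (.br 22 (.br 17 .dead .dead (.br 23 .dead (.kem 0 2 2 4325380) .dead .dead) .dead) .dead .dead .dead)) .dead .dead) .dead)) .dead)) (.br 15 .dead .dead (.br 16 .dead (.br 17 (.br 19 .dead .dead .dead (.br 18 .dead (.br 20 .dead .dead .dead (.br 21 .dead .dead (.br 22 .dead .dead .dead (.kem 0 2 2 25200644)) .dead)) .dead .dead)) .dead .dead .dead) .dead .dead) (.br 19 .dead .dead (.br 20 .dead .dead (.br 16 .dead (.br 17 (.br 21 .dead .dead .dead (.br 22 .dead .dead .dead .dead)) .dead .dead .dead) .dead .dead) .dead) .dead)) .dead)) .dead (.kem 0 3 6 64) .dead) .dead .dead .dead) .dead .dead) .dead (.br 10 (.br 11 .dead .dead (.br 14 .dead (.br 13 (.br 12 .dead .dead .dead (.kem 0 1 7 128)) .dead .dead .dead) .dead .dead) .dead) (.br 14 (.br 13 .dead (.br 11 (.br 12 .dead .dead .dead (.kem 0 2 8 256)) .dead (.kem 0 3 6 64) .dead) .dead .dead) .dead .dead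 .dead) .dead .dead) .dead)) (.br 8 (.br 9 .dead (.br 10 (.br 11 .dead .dead (.br 12 .dead .dead .dead (.br 13 .dead .dead (.br 14 .dead .dead .dead (.br 15 .dead (.br 16 (.br 17 .dead (.br 18 (.br 19 .dead .dead (.br 20 .dead .dead .dead (.br 21 .dead .dead (.br 22 .dead .dead .dead (.br 23 .dead (.kem 0 2 2 4) .dead .dead)) .dead)) .dead) .dead .dead .dead) .dead .dead) .dead .dead .dead) .dead (.br 20 .dead (.br 16 (.br 17 .dead (.br 18 (.br 22 .dead .dead .dead (.br 21 .dead .dead (.kem 0 3 3 30266696) .dead)) .dead .dead .dead) .dead .dead) .dead .dead .dead) .dead .dead))) .dead)) .dead) (.br 11 (.br 12 .dead .dead (.br 13 .dead .dead .dead (.br 14 (.br 15 .dead .dead (.br 19 .dead .dead .dead (.br 16 .dead (.kem 0 3 6 2112) .dead (.br 20 .dead (.br 21 .dead .dead (.kem 0 3 3 30370120) .dead) .dead .dead))) (.br 16 .dead (.br 20 .dead .dead .dead .dead) .dead .dead)) .dead .dead .dead)) (.br 13 .dead .dead (.br 14 (.br 15 .dead .dead (.br 16 .dead (.br 17 (.br 19 .dead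 .dead .dead (.br 18 .dead (.kem 2 3 12 12288) .dead .dead)) .dead .dead .dead) .dead .dead) (.br 19 .dead .dead (.br 20 .dead (.br 16 .dead .dead (.br 21 .dead .dead .dead (.br 22 (.br 17 .dead (.br 18 .dead .dead .dead (.br 23 .dead (.kem 0 2 2 4194308) .dead .dead)) .dead .dead) .dead .dead .dead)) .dead) .dead .dead) .dead)) .dead .dead (.br 15 .dead .dead (.br 16 .dead (.br 17 (.br 18 .dead (.br 19 (.br 23 .dead .dead .dead .dead) .dead .dead .dead) .dead .dead) .dead .dead .dead) .dead .dead) (.br 20 .dead (.br 16 .dead .dead (.br 21 .dead .dead .dead (.br 22 (.br 17 .dead (.br 18 .dead .dead .dead .dead) .dead .dead) .dead .dead .dead)) .dead) .dead .dead))) .dead)) .dead (.kem 0 3 6 64) .dead) .dead .dead) .dead (.br 10 (.br 11 .dead .dead (.br 12 .dead .dead .dead (.br 14 .dead (.br 13 .dead .dead (.kem 0 1 7 384) .dead) .dead .dead)) .dead) (.br 14 (.br 11 (.br 12 .dead .dead (.br 13 .dead (.br 15 .dead .dead (.br 19 .dead .dead .dead (.br 18 .dead .dead (.br 16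 .dead (.kem 0 3 6 2112) .dead (.br 17 (.kem 1 3 9 8704) .dead .dead .dead)) .dead)) (.br 16 .dead (.br 20 .dead .dead .dead .dead) .dead .dead)) .dead .dead) (.br 13 .dead (.br 15 .dead .dead (.br 16 .dead (.br 19 .dead .dead .dead (.br 18 .dead .dead (.br 17 (.kem 2 3 12 4096) .dead .dead .dead) .dead)) .dead .dead) (.br 19 .dead .dead (.br 18 .dead .dead .dead (.br 20 .dead (.br 16 .dead .dead (.br 17 (.br 22 .dead .dead .dead .dead) .dead .dead .dead) .dead) .dead .dead)) .dead)) (.kem 1 3 9 512) .dead)) .dead (.kem 0 3 6 64) .dead) .dead .dead .dead) .dead .dead)) .dead .dead .dead) .dead)) .dead .dead) .dead))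

def t5_5 : Tree :=
  (.br 3 (.br 8 .dead (.br 9 .dead .dead (.br 4 .dead .dead .dead (.br 10 .dead (.br 11 .dead .dead (.br 12 (.br 13 .dead .dead .dead (.br 14 (.br 15 (.br 16 .dead (.br 17 .dead .dead (.br 18 .dead (.br 20 .dead .dead (.br 21 .dead .dead .dead (.br 22 (.br 23 .dead .dead .dead (.br 19 .dead .dead (.kem 1 3 4 25436560) .dead)) .dead .dead .dead)) .dead) .dead .dead) .dead) .dead (.br 21 .dead .dead (.br 17 .dead (.br 18 .dead .dead (.br 19 .dead .dead .dead (.br 20 .dead (.br 23 .dead (.br 24 .dead .dead (.br 22 (.kem 1 3 4 1253776) .dead .dead (.kem 0 2 2 16816204)) .dead) .dead .dead) .dead .dead)) .dead) .dead .dead) .dead)) .dead .dead (.br 16 .dead (.br 17 .dead .dead (.br 18 .dead (.br 19 .dead .dead (.br 20 .dead .dead (.br 21 .dead .dead .dead (.br 22 (.br 23 .dead .dead .dead (.br 24 .dead (.kem 0 2 2 4331596) .dead .dead)) .dead .dead .dead)) .dead) .dead) .dead .dead) .dead) .dead .dead)) .dead .dead .dead)) .dead .dead .dead) .dead) (.br 11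 .dead (.br 12 (.br 13 .dead .dead .dead (.br 14 (.br 15 (.br 16 .dead .dead (.br 17 .dead (.br 18 .dead .dead (.br 20 .dead (.br 21 .dead .dead .dead (.br 22 (.br 24 .dead .dead (.br 19 .dead (.br 23 .dead .dead .dead (.kem 1 2 10 18811904)) .dead (.kem 1 3 19 8912896)) .dead) .dead .dead .dead)) .dead .dead) .dead) .dead .dead) (.br 21 .dead .dead (.br 17 .dead (.br 18 .dead .dead (.br 20 .dead (.br 24 .dead .dead (.br 19 .dead (.br 23 .dead .dead .dead (.br 22 (.kem 1 3 4 1255824) .dead .dead .dead)) .dead (.kem 1 2 10 3072)) .dead) .dead .dead) .dead) .dead .dead) .dead)) .dead .dead (.br 16 .dead .dead (.br 17 .dead (.br 18 .dead .dead (.br 19 .dead (.br 20 .dead (.br 21 .dead .dead .dead (.br 22 (.br 23 .dead .dead .dead (.kem 1 2 10 18811904)) .dead .dead .dead)) .dead .dead) .dead .dead) .dead) .dead .dead) .dead)) (.br 15 (.br 19 .dead .dead .dead (.br 23 .dead (.br 24 .dead .dead (.br 20 .dead (.br 16 .dead .dead (.br 17 .dead (.br 21 .dead .dead .dead (.kem 0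 2 2 21337164)) .dead .dead) (.br 21 .dead .dead (.br 17 .dead (.br 18 (.kem 2 3 4 17311280) .dead (.kem 0 1 14 16384) .dead) .dead .dead) .dead)) .dead .dead) .dead) .dead .dead)) .dead .dead (.br 16 .dead .dead (.br 17 .dead (.br 19 (.br 18 .dead .dead (.br 20 .dead (.br 21 .dead .dead .dead (.kem 0 2 2 30147660)) .dead .dead) .dead) .dead .dead .dead) .dead .dead) .dead)) .dead .dead)) .dead (.br 13 (.br 14 .dead (.br 15 (.br 16 .dead .dead .dead (.br 17 .dead (.br 19 .dead .dead .dead (.br 18 .dead .dead (.br 21 .dead .dead (.br 20 .dead (.br 23 .dead (.br 24 .dead .dead (.br 22 (.kem 1 3 4 1247632) .dead .dead (.kem 0 2 2 16811084)) .dead) .dead .dead) .dead .dead) .dead) .dead)) .dead .dead)) .dead .dead (.br 16 (.br 19 (.br 17 .dead (.br 18 .dead .dead (.br 20 .dead (.br 24 .dead .dead (.br 21 .dead .dead (.kem 1 3 4 1083792) (.br 22 (.kem 2 3 21 2097152) .dead .dead .dead)) .dead) (.br 21 .dead .dead .dead (.br 22 (.kem 1 3 4 25201040) .dead .dead .dead)) .dead)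 (.br 22 (.br 23 .dead (.kem 2 3 4 19957296) .dead .dead) .dead .dead .dead)) .dead (.br 18 .dead .dead (.br 21 .dead .dead (.br 20 .dead (.br 22 (.kem 1 3 4 26249616) .dead .dead .dead) .dead .dead) .dead) .dead)) .dead .dead .dead) .dead .dead .dead)) .dead .dead) .dead .dead (.br 14 (.br 15 (.br 16 .dead .dead .dead (.br 21 .dead .dead (.br 20 .dead (.br 24 .dead .dead (.br 17 (.br 22 .dead .dead .dead (.br 23 .dead (.br 18 .dead .dead (.kem 1 3 4 1124752) .dead) .dead .dead)) (.kem 0 2 12 4096) .dead .dead) .dead) .dead .dead) .dead)) .dead .dead (.br 16 (.br 17 .dead (.br 18 .dead .dead (.br 19 .dead (.br 23 .dead .dead .dead (.br 22 (.br 24 .dead .dead (.br 20 .dead (.br 21 .dead .dead (.kem 1 3 4 10135952) (.kem 0 2 12 69632)) .dead .dead) .dead) .dead .dead .dead)) .dead .dead) .dead) .dead .dead) .dead .dead .dead)) (.br 15 (.br 16 .dead .dead .dead (.br 19 .dead .dead .dead (.br 21 .dead .dead (.br 20 .dead (.br 23 .dead (.br 24 .dead .dead (.kem 0 3 13 5218304)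 .dead) .dead .dead) .dead .dead) .dead))) .dead .dead (.br 16 (.br 17 .dead (.br 19 (.br 18 .dead .dead (.kem 0 3 13 8192) .dead) .dead .dead .dead) .dead .dead) .dead .dead .dead)) .dead .dead)) .dead) .dead .dead) .dead)) .dead) (.br 9 .dead (.br 4 .dead .dead .dead (.br 10 .dead (.br 11 .dead .dead (.br 12 (.kem 1 3 7 128) (.br 13 (.br 14 .dead .dead (.br 15 (.br 16 .dead .dead .dead (.br 17 .dead .dead (.br 21 .dead .dead .dead .dead) .dead)) .dead .dead (.br 16 (.br 19 (.br 17 .dead .dead (.kem 1 3 7 4224) (.br 18 .dead (.kem 2 3 5 16416) .dead .dead)) .dead .dead .dead) .dead .dead .dead)) .dead) .dead .dead (.br 14 (.kem 2 3 5 32) .dead (.br 15 (.br 16 .dead .dead .dead (.br 19 .dead .dead .dead (.br 21 .dead .dead (.br 17 (.br 18 .dead (.kem 0 2 14 16384) .dead .dead) .dead .dead .dead) .dead))) .dead .dead (.br 16 (.br 17 .dead .dead (.br 19 (.br 18 .dead (.kem 0 3 13 8192) .dead .dead) .dead .dead .dead) .dead) .dead .dead .dead)) .dead)) .dead .dead) .dead) (.br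 11 .dead (.br 12 (.br 13 .dead .dead .dead (.br 14 (.kem 1 2 8 768) .dead .dead .dead)) .dead .dead .dead) .dead .dead) .dead)) .dead .dead) .dead) (.br 4 .dead .dead (.br 8 (.br 9 .dead (.br 10 .dead (.br 11 .dead .dead (.br 12 .dead (.br 13 .dead .dead (.br 14 (.kem 2 3 5 32) .dead .dead .dead) (.br 14 (.kem 2 3 5 32) .dead (.br 15 (.br 16 .dead .dead .dead (.br 19 .dead .dead .dead (.br 24 .dead .dead .dead .dead))) .dead .dead (.br 16 (.br 17 .dead .dead (.br 19 (.br 24 .dead .dead .dead .dead) .dead .dead .dead) .dead) .dead .dead .dead)) .dead)) .dead .dead) .dead) (.br 11 .dead (.br 12 .dead .dead (.br 13 .dead .dead .dead (.br 14 (.br 15 (.br 16 .dead .dead .dead (.br 20 .dead (.br 21 .dead .dead (.br 24 .dead .dead .dead (.br 19 .dead (.kem 2 3 5 1056) .dead .dead)) .dead) .dead .dead)) .dead .dead (.br 16 (.br 17 .dead (.br 18 .dead .dead (.br 19 .dead (.br 20 .dead (.br 24 (.kem 2 3 5 33824) .dead .dead .dead) .dead .dead) .dead .dead) .dead) .dead .dead) .dead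 .dead .dead)) .dead .dead .dead)) .dead) .dead .dead) .dead) .dead .dead) .dead .dead .dead) (.br 8 (.br 9 .dead (.br 10 .dead (.br 11 .dead .dead (.br 12 .dead (.br 13 .dead .dead (.br 14 (.kem 2 3 5 32) .dead .dead .dead) (.br 14 (.kem 2 3 5 32) .dead (.br 15 (.br 16 .dead .dead .dead (.br 19 .dead .dead .dead (.br 21 .dead .dead (.br 17 (.br 18 .dead (.kem 0 2 14 16384) .dead .dead) .dead .dead .dead) .dead))) .dead .dead (.br 16 (.br 17 .dead .dead (.br 19 (.br 18 .dead (.br 21 .dead .dead .dead (.br 22 (.br 23 .dead .dead .dead (.br 24 .dead .dead (.br 20 .dead (.kem 0 2 2 4393028) .dead .dead) .dead)) .dead .dead .dead)) .dead .dead) .dead .dead .dead) .dead) .dead .dead .dead)) .dead)) .dead .dead) .dead) (.br 11 .dead (.br 12 .dead .dead (.br 13 .dead .dead .dead (.br 14 (.br 15 (.br 16 .dead .dead .dead (.br 21 .dead .dead (.br 20 .dead (.br 24 .dead .dead (.br 17 (.br 22 .dead .dead .dead (.br 23 (.br 18 .dead (.kem 0 2 2 25740356) (.br 19 .dead (.kem 2 3 4 16777232)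 .dead (.kem 1 2 10 7168)) .dead) .dead .dead .dead)) (.br 18 .dead .dead (.br 19 .dead (.kem 2 3 5 1056) .dead (.br 23 (.kem 1 3 19 524288) .dead .dead .dead)) .dead) .dead .dead) .dead) .dead .dead) .dead)) .dead .dead (.br 16 (.br 17 .dead (.br 18 .dead .dead (.br 19 .dead (.br 20 .dead (.br 21 .dead .dead (.br 22 (.br 23 .dead .dead .dead (.br 24 (.kem 2 3 4 16) .dead (.kem 0 3 15 98304) .dead)) .dead .dead (.kem 0 2 2 25445444)) (.kem 0 2 2 29639748)) (.br 21 .dead .dead .dead (.br 22 (.br 23 .dead .dead .dead (.kem 0 2 2 4473924)) .dead .dead .dead)) .dead) .dead .dead) .dead) .dead .dead) .dead .dead .dead)) .dead .dead .dead)) .dead) .dead .dead) .dead) (.br 10 .dead (.br 11 .dead .dead (.br 12 .dead (.br 13 .dead .dead .dead (.br 14 (.kem 1 2 9 512) .dead .dead .dead)) .dead .dead) .dead) (.br 11 .dead (.br 12 .dead .dead (.br 13 .dead (.br 14 (.br 15 (.br 16 .dead .dead .dead (.br 17 (.br 21 .dead .dead (.br 20 .dead (.br 22 .dead .dead .dead (.br 18 .dead .dead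 (.br 23 (.br 24 .dead .dead (.br 19 .dead (.kem 2 3 4 16778800) .dead (.kem 0 1 3 8544520)) .dead) .dead .dead .dead) .dead)) .dead .dead) .dead) .dead .dead .dead)) .dead .dead (.br 16 (.br 17 .dead .dead .dead (.br 18 .dead .dead (.br 19 .dead (.br 21 .dead .dead (.br 20 .dead (.br 22 (.br 23 .dead .dead .dead (.br 24 (.kem 2 3 4 34352) .dead (.kem 0 1 3 549128) .dead)) .dead .dead .dead) .dead .dead) .dead) .dead .dead) .dead)) .dead .dead .dead)) .dead .dead .dead) .dead (.br 14 (.kem 1 2 9 512) (.br 15 (.br 16 .dead .dead .dead (.br 19 .dead .dead .dead (.br 21 .dead .dead (.br 20 .dead (.br 23 (.br 18 .dead .dead (.kem 0 1 14 16384) .dead) .dead .dead .dead) .dead .dead) .dead))) .dead .dead (.br 16 (.br 17 .dead (.br 19 (.br 18 .dead .dead (.br 23 .dead .dead .dead (.br 22 (.br 24 .dead .dead (.kem 0 1 3 264) .dead) .dead .dead .dead)) .dead) .dead .dead .dead) .dead .dead) .dead .dead .dead)) .dead .dead)) .dead) .dead .dead) .dead) .dead) .dead (.br 9 .dead (.br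 10 .dead (.br 11 .dead .dead (.br 12 (.br 13 .dead .dead .dead (.br 14 (.kem 2 3 5 32) .dead (.br 15 (.br 19 .dead .dead .dead (.br 23 (.br 18 .dead (.kem 0 2 14 16384) .dead .dead) .dead .dead .dead)) .dead .dead (.br 16 .dead (.br 17 .dead .dead (.br 19 (.br 18 .dead (.br 20 .dead .dead (.br 24 .dead .dead .dead .dead) .dead) .dead .dead) .dead .dead .dead) .dead) .dead .dead)) .dead)) (.br 13 (.br 14 .dead .dead (.br 15 (.br 16 .dead .dead .dead (.br 17 .dead .dead (.br 21 .dead .dead .dead .dead) .dead)) .dead .dead (.br 16 (.br 19 (.br 23 .dead .dead .dead (.br 18 .dead (.kem 2 3 5 16416) .dead .dead)) .dead .dead .dead) .dead .dead .dead)) .dead) .dead .dead (.kem 0 2 8 256)) .dead .dead) .dead) (.br 11 .dead (.br 12 (.br 13 .dead .dead .dead (.br 14 (.br 15 (.br 24 .dead .dead (.br 20 .dead (.br 16 .dead .dead (.br 17 .dead (.br 18 .dead .dead (.br 21 .dead .dead .dead (.kem 0 2 2 30266692)) .dead) .dead .dead) (.br 21 .dead .dead (.br 17 .dead (.kem 0 2 8 4352)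 .dead .dead) .dead)) .dead .dead) .dead) .dead .dead (.br 16 .dead .dead (.br 17 .dead (.br 18 .dead .dead (.br 19 .dead (.br 20 .dead (.br 21 .dead .dead .dead (.kem 0 2 2 29639748)) .dead .dead) .dead .dead) .dead) .dead .dead) .dead)) .dead .dead .dead)) .dead .dead .dead) .dead .dead) .dead) .dead .dead) .dead)) .dead .dead)

def t5_6 : Tree :=
  (.br 7 .dead (.br 3 .dead .dead (.br 4 .dead (.br 9 .dead .dead (.br 8 (.br 10 (.br 11 .dead .dead .dead (.br 12 .dead .dead (.br 14 .dead (.br 13 .dead .dead .dead (.br 15 .dead (.br 16 (.br 17 .dead (.br 18 (.kem 2 3 5 14944) .dead (.br 19 .dead .dead .dead (.br 22 .dead .dead .dead (.br 21 .dead .dead (.br 20 .dead .dead .dead (.br 23 .dead (.kem 0 2 18 262144) .dead .dead)) .dead))) .dead) .dead .dead) .dead .dead .dead) (.br 19 .dead .dead .dead (.br 20 .dead .dead .dead (.br 21 .dead .dead (.br 22 .dead .dead .dead (.br 23 .dead (.br 24 (.kem 2 3 5 8370784) .dead .dead .dead) .dead .dead)) .dead))) .dead)) .dead .dead)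 .dead)) (.br 14 (.br 11 (.br 12 .dead .dead (.br 13 .dead (.kem 2 3 5 608) .dead (.br 15 .dead .dead (.br 19 .dead .dead .dead (.br 20 .dead .dead .dead (.br 16 .dead (.br 17 (.br 21 .dead .dead (.br 22 .dead .dead .dead (.br 23 .dead (.br 18 .dead .dead (.kem 1 3 13 8192) .dead) .dead .dead)) .dead) .dead .dead .dead) .dead .dead))) (.br 16 .dead (.br 17 (.br 19 .dead .dead (.br 18 .dead (.kem 2 3 5 12896) .dead .dead) .dead) .dead .dead .dead) .dead .dead))) (.br 13 .dead (.kem 2 3 5 608) .dead .dead)) .dead .dead (.br 12 .dead .dead (.br 13 .dead (.br 15 (.br 16 .dead (.br 24 .dead .dead .dead (.br 19 .dead .dead (.br 18 .dead .dead .dead (.br 17 (.kem 2 3 5 6752) .dead .dead .dead)) .dead)) .dead .dead) .dead (.br 19 .dead .dead .dead (.br 18 .dead .dead (.br 20 .dead .dead .dead (.br 21 .dead .dead (.br 22 .dead .dead .dead (.br 17 (.br 16 .dead (.kem 0 3 11 2048) .dead .dead) .dead .dead .dead)) .dead)) .dead)) .dead) .dead (.br 15 (.br 16 .dead (.br 17 (.br 24 .dead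 .dead .dead (.br 19 .dead .dead (.br 18 .dead (.kem 2 3 5 14944) .dead .dead) .dead)) .dead .dead .dead) .dead .dead) .dead (.br 19 .dead .dead .dead (.br 20 .dead .dead .dead (.br 21 .dead .dead (.br 22 .dead .dead .dead (.br 23 .dead (.br 18 .dead .dead (.kem 0 1 10 17408) .dead) .dead .dead)) .dead))) .dead)) .dead)) .dead .dead .dead) .dead .dead) .dead .dead (.br 10 (.br 11 .dead .dead .dead (.br 14 .dead (.br 13 (.br 12 .dead .dead (.br 15 .dead (.br 16 (.br 17 .dead (.br 18 .dead .dead (.kem 0 3 8 8448) (.br 19 .dead .dead (.br 22 .dead .dead (.br 21 .dead .dead .dead (.br 20 .dead .dead (.br 23 .dead (.kem 0 3 8 270592) .dead .dead) .dead)) .dead) .dead)) .dead (.br 18 .dead .dead (.br 22 .dead .dead .dead .dead) .dead)) .dead .dead .dead) (.br 19 .dead .dead .dead (.br 18 .dead .dead (.br 20 .dead .dead .dead (.br 21 .dead .dead (.br 22 .dead .dead .dead (.br 17 .dead (.kem 0 3 8 8448) .dead .dead)) .dead)) .dead)) .dead) .dead) .dead .dead .dead) .dead .dead))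 (.br 14 (.br 13 .dead (.br 11 (.br 12 .dead .dead (.kem 0 3 8 256) .dead) .dead .dead (.br 12 (.br 15 (.br 24 .dead .dead .dead (.br 19 .dead .dead (.br 18 .dead .dead .dead (.br 17 .dead .dead (.br 22 .dead .dead .dead .dead) .dead)) .dead)) .dead (.br 16 .dead (.br 19 .dead .dead .dead (.br 18 .dead .dead (.br 17 .dead .dead .dead (.br 22 .dead .dead .dead .dead)) .dead)) .dead .dead) .dead) .dead (.kem 0 3 8 256) .dead)) .dead .dead) .dead .dead .dead) .dead .dead)) .dead) .dead (.br 8 (.br 9 .dead (.br 10 (.br 11 .dead .dead .dead (.br 12 .dead .dead (.br 13 .dead .dead .dead (.br 14 .dead .dead (.br 15 .dead (.br 16 (.br 17 .dead (.br 18 (.br 19 .dead .dead .dead (.br 20 .dead .dead (.br 21 .dead .dead .dead (.br 22 .dead .dead (.br 23 .dead (.br 24 (.kem 2 3 5 555104) .dead .dead .dead) .dead .dead) .dead)) .dead)) .dead .dead .dead) .dead .dead) .dead .dead .dead) (.br 20 .dead (.br 16 (.br 17 .dead (.br 18 (.br 24 (.br 19 .dead (.kem 2 3 5 63584) .dead (.br 23 .dead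 (.kem 2 3 5 587872) .dead .dead)) .dead .dead .dead) .dead .dead .dead) .dead .dead) .dead .dead .dead) .dead .dead) .dead) .dead)) .dead)) (.br 11 (.br 12 .dead .dead (.br 13 .dead .dead .dead (.br 14 (.kem 2 3 5 96) .dead (.br 15 .dead .dead (.br 20 .dead (.br 16 .dead .dead .dead (.br 21 .dead .dead (.br 22 .dead .dead .dead (.br 23 .dead (.br 18 (.br 17 .dead (.br 19 .dead .dead .dead (.kem 0 2 14 278528)) .dead .dead) .dead .dead .dead) .dead .dead)) .dead)) .dead .dead) (.br 16 .dead (.br 17 (.br 18 .dead (.br 19 (.kem 2 3 5 28768) .dead .dead .dead) .dead .dead) .dead .dead .dead) .dead .dead)) .dead)) (.br 13 .dead .dead (.br 14 (.kem 2 3 5 96) .dead .dead .dead) .dead)) .dead .dead (.br 12 .dead .dead (.br 13 .dead .dead .dead (.br 14 (.br 15 (.br 16 .dead (.br 17 (.br 20 .dead .dead (.br 21 .dead .dead .dead (.br 22 .dead .dead (.br 18 .dead (.kem 2 3 5 14432) .dead .dead) .dead)) .dead) .dead .dead .dead) .dead .dead) .dead (.br 19 .dead .dead .dead (.br 20 .dead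 (.br 16 (.br 17 .dead (.br 18 .dead .dead (.br 22 .dead .dead .dead (.br 21 .dead .dead (.kem 0 3 11 67584) .dead)) .dead) .dead .dead) .dead .dead .dead) .dead .dead)) .dead) .dead (.br 15 (.br 16 .dead (.br 17 (.br 18 .dead (.br 19 .dead .dead .dead (.kem 0 2 14 16384)) .dead .dead) .dead .dead .dead) .dead .dead) .dead (.br 20 .dead (.br 16 (.br 17 .dead (.br 18 (.br 19 .dead .dead .dead (.kem 0 1 10 1024)) .dead .dead .dead) .dead .dead) .dead .dead .dead) .dead .dead) .dead) .dead)) .dead)) .dead .dead) (.br 10 (.br 11 .dead .dead .dead (.br 12 .dead .dead (.br 14 .dead (.br 13 .dead .dead .dead (.br 15 .dead (.br 16 (.br 17 .dead (.br 20 .dead .dead (.br 21 .dead .dead .dead (.br 22 .dead .dead (.br 18 (.br 24 (.kem 1 3 4 16) .dead .dead .dead) .dead .dead .dead) .dead)) .dead) .dead .dead) .dead .dead .dead) (.br 19 .dead .dead .dead (.br 20 .dead (.br 16 (.br 17 .dead (.br 23 .dead (.br 24 (.br 18 (.kem 1 2 9 16896) .dead (.br 22 .dead .dead .dead (.kem 0 2 18 262144))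 .dead) .dead .dead .dead) .dead .dead) .dead .dead) .dead .dead .dead) .dead .dead)) .dead)) .dead .dead) .dead)) (.br 14 (.br 11 (.br 12 .dead .dead (.br 13 .dead (.br 15 .dead .dead (.br 19 .dead .dead .dead (.br 18 .dead .dead (.br 20 .dead (.br 16 .dead .dead .dead (.br 17 (.br 21 .dead .dead (.br 22 .dead .dead .dead (.br 23 .dead (.br 24 (.kem 1 3 4 1114128) .dead .dead .dead) .dead .dead)) .dead) .dead .dead .dead)) .dead .dead) .dead)) (.br 16 .dead (.br 19 .dead .dead (.br 18 .dead .dead .dead (.br 17 (.br 20 .dead .dead (.br 21 .dead .dead .dead (.br 22 .dead .dead (.br 23 .dead (.br 24 (.kem 1 3 4 16) .dead .dead .dead) .dead .dead) .dead)) .dead) .dead .dead .dead)) .dead) .dead .dead)) .dead (.kem 1 2 9 512)) (.br 13 .dead (.br 15 .dead .dead (.br 16 .dead (.br 20 .dead .dead .dead .dead) .dead .dead) (.br 19 .dead .dead (.br 18 .dead .dead .dead (.br 22 .dead .dead (.br 17 (.kem 1 2 9 8704) .dead .dead .dead) .dead)) .dead)) .dead .dead)) .dead .dead (.br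 12 .dead .dead (.br 13 .dead (.br 15 (.br 16 .dead (.br 20 .dead .dead (.br 21 .dead .dead .dead (.br 17 (.br 22 .dead .dead (.br 18 .dead .dead .dead (.br 19 .dead .dead (.kem 1 3 4 25436176) .dead)) .dead) .dead .dead .dead)) .dead) .dead .dead) .dead (.br 19 .dead .dead .dead (.br 18 .dead .dead (.br 20 .dead (.br 16 (.br 17 .dead .dead .dead (.br 22 .dead .dead .dead .dead)) .dead .dead .dead) .dead .dead) .dead)) .dead) .dead (.kem 1 2 9 512)) .dead)) .dead .dead .dead) .dead .dead) .dead) .dead .dead .dead)) (.kem 2 3 3 33554296)) .dead (.br 3 .dead (.br 4 .dead .dead (.br 8 (.br 9 .dead (.br 10 (.br 11 .dead (.br 12 .dead .dead (.br 13 .dead .dead .dead (.br 14 .dead .dead (.br 15 .dead .dead (.br 16 (.br 17 .dead (.br 18 (.br 19 .dead (.kem 2 3 5 28896) .dead (.br 23 .dead .dead (.br 22 .dead .dead .dead (.br 21 .dead .dead (.br 24 (.kem 1 3 19 524288) .dead .dead .dead) .dead)) .dead)) .dead .dead .dead) .dead .dead) .dead .dead (.br 20 .dead (.br 21 .dead .dead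 (.br 22 .dead .dead .dead (.br 23 .dead .dead (.br 17 (.br 18 .dead (.br 19 .dead .dead .dead (.br 24 (.kem 2 3 5 15331552) .dead .dead .dead)) .dead .dead) (.kem 0 3 16 65536) .dead .dead) .dead)) .dead) .dead .dead)) (.br 16 (.br 17 .dead (.br 18 (.br 19 .dead (.kem 2 3 5 28896) .dead .dead) .dead .dead .dead) .dead .dead) .dead .dead .dead)) .dead)) .dead) .dead .dead) (.br 11 (.br 12 .dead (.br 13 .dead .dead (.br 14 (.kem 2 3 5 224) .dead .dead .dead) (.br 14 (.kem 2 3 5 224) .dead (.br 15 .dead .dead (.br 16 .dead .dead .dead (.br 20 .dead (.br 21 .dead .dead (.br 17 (.br 18 .dead (.br 22 .dead .dead .dead (.br 23 .dead .dead (.br 19 (.kem 2 3 5 24800) .dead .dead (.kem 0 2 14 16384)) .dead)) .dead .dead) .dead .dead .dead) .dead) .dead .dead)) (.br 16 .dead .dead (.br 17 (.br 18 .dead (.br 19 (.kem 2 3 5 24800) .dead .dead .dead) .dead .dead) .dead .dead .dead) .dead)) .dead)) (.br 13 .dead .dead .dead (.br 14 (.br 15 .dead .dead (.br 19 .dead .dead .dead (.br 23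 .dead .dead (.br 18 .dead (.br 17 (.br 22 .dead .dead .dead (.br 21 .dead .dead (.br 24 (.br 16 .dead (.kem 2 3 5 12512) .dead (.kem 1 2 12 4096)) .dead .dead .dead) .dead)) .dead .dead .dead) .dead .dead) .dead)) (.br 16 .dead (.br 20 .dead .dead .dead .dead) .dead .dead)) .dead (.br 15 .dead .dead (.br 16 .dead (.br 17 (.br 18 .dead (.br 20 .dead .dead .dead (.br 21 .dead .dead (.br 22 .dead .dead .dead (.br 23 .dead .dead (.br 24 (.br 19 .dead .dead .dead (.kem 0 1 10 461824)) .dead .dead .dead) .dead)) .dead)) .dead .dead) .dead .dead .dead) .dead (.br 20 .dead (.br 21 .dead .dead (.br 22 .dead .dead .dead (.br 23 .dead .dead (.br 17 (.kem 1 2 12 4096) (.br 18 (.br 19 .dead .dead .dead (.kem 0 1 10 3072)) .dead .dead .dead) .dead .dead) .dead)) .dead) .dead .dead)) (.br 16 .dead (.br 20 .dead .dead .dead .dead) .dead .dead)) .dead)) .dead) .dead .dead .dead) .dead .dead) .dead .dead) .dead .dead .dead) (.kem 2 3 4 33554416)) (.br 4 .dead (.br 8 (.br 9 .dead .dead (.br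 10 (.br 11 .dead (.br 12 .dead .dead (.br 14 .dead (.br 13 .dead .dead .dead (.br 15 .dead .dead (.br 19 .dead .dead .dead (.br 20 .dead .dead .dead (.br 16 (.kem 1 3 7 2176) .dead .dead .dead))) (.br 16 (.br 17 .dead (.br 19 .dead .dead (.br 18 (.br 20 .dead .dead (.br 21 .dead .dead .dead (.br 22 .dead .dead (.br 24 (.kem 1 3 7 34944) .dead .dead .dead) .dead)) .dead) .dead .dead .dead) .dead) .dead .dead) .dead .dead .dead))) .dead .dead) .dead) .dead .dead) (.br 11 (.br 14 (.br 12 .dead (.br 13 .dead .dead .dead (.br 15 .dead .dead (.br 16 .dead .dead .dead (.br 20 .dead .dead .dead .dead)) (.br 16 .dead .dead (.br 20 .dead .dead .dead .dead) .dead))) (.kem 1 3 7 128) .dead) .dead .dead .dead) .dead .dead .dead) .dead .dead) .dead) .dead .dead .dead) .dead (.br 8 (.br 9 .dead (.br 10 (.br 11 .dead (.br 12 .dead .dead (.br 13 .dead .dead .dead (.br 14 .dead .dead (.br 15 .dead .dead (.br 20 .dead (.br 24 (.br 16 (.kem 1 3 7 2176) .dead .dead (.br 21 .dead .dead (.br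 22 .dead .dead .dead (.br 23 .dead (.br 18 (.br 17 .dead (.kem 0 3 16 65536) .dead .dead) .dead .dead .dead) .dead .dead)) .dead)) .dead .dead .dead) .dead .dead) (.br 16 (.br 17 .dead (.br 18 (.br 19 .dead (.br 23 .dead .dead .dead (.br 22 .dead .dead (.br 21 .dead .dead .dead (.kem 1 2 3 18366984)) .dead)) .dead .dead) .dead .dead .dead) .dead .dead) .dead .dead .dead)) .dead)) .dead) .dead .dead) (.br 11 (.br 12 .dead (.br 13 .dead .dead (.br 14 (.br 15 .dead .dead (.br 16 .dead .dead .dead (.br 17 (.br 19 .dead .dead .dead (.br 18 .dead (.br 23 .dead .dead .dead .dead) .dead .dead)) .dead .dead .dead)) (.br 16 .dead .dead (.br 19 .dead .dead (.br 20 .dead (.br 21 .dead .dead .dead (.br 17 (.kem 1 3 7 4224) .dead .dead .dead)) .dead .dead) .dead) .dead)) .dead .dead .dead) (.br 14 (.br 15 .dead .dead (.br 16 .dead .dead .dead (.br 19 .dead .dead .dead (.br 20 .dead (.br 21 .dead .dead (.br 17 (.br 22 .dead .dead .dead (.br 23 .dead (.br 18 .dead .dead (.br 24 (.kem 1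 2 3 8650760) .dead .dead .dead) .dead) .dead .dead)) .dead .dead .dead) .dead) .dead .dead))) (.br 16 .dead .dead (.br 17 (.br 19 .dead .dead (.br 18 .dead (.kem 2 3 13 8192) .dead .dead) .dead) .dead .dead .dead) .dead)) .dead (.br 15 .dead .dead (.br 16 .dead .dead .dead (.br 20 .dead (.br 21 .dead .dead (.br 17 (.br 18 .dead (.br 22 .dead .dead .dead (.br 23 .dead .dead .dead .dead)) .dead .dead) .dead .dead .dead) .dead) .dead .dead)) (.br 16 .dead .dead (.br 17 (.br 18 .dead (.br 19 (.br 20 .dead (.br 24 .dead .dead .dead .dead) .dead .dead) .dead .dead .dead) .dead .dead) .dead .dead .dead) .dead)) .dead)) (.kem 1 3 7 128) .dead) .dead .dead .dead) .dead .dead) (.br 10 (.br 11 .dead (.br 12 .dead .dead (.br 14 .dead (.br 13 .dead .dead .dead (.br 15 .dead .dead (.br 19 .dead .dead .dead (.br 20 .dead (.br 23 .dead (.br 24 (.br 16 (.kem 1 3 7 2176) .dead .dead (.br 21 .dead .dead (.br 22 .dead .dead .dead (.br 17 (.kem 1 2 3 8667656) (.kem 0 3 16 65536) .dead .dead))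 .dead)) .dead .dead .dead) .dead .dead) .dead .dead)) (.br 16 (.br 17 .dead (.br 19 .dead .dead (.br 18 (.br 20 .dead (.br 24 (.br 21 .dead .dead (.kem 1 3 4 1083536) (.br 22 .dead .dead (.br 23 .dead (.kem 2 3 15 557056) .dead (.kem 1 2 3 8)) .dead)) .dead .dead .dead) (.br 21 .dead .dead .dead (.br 22 .dead .dead (.kem 1 3 4 25200784) .dead)) .dead) .dead .dead .dead) .dead) .dead .dead) .dead .dead .dead))) .dead .dead) .dead) .dead .dead) (.br 11 (.br 14 (.br 12 .dead (.br 13 .dead .dead .dead (.kem 1 2 9 512)) (.kem 1 3 7 128) .dead) .dead .dead .dead) .dead .dead .dead) .dead .dead) .dead) (.br 9 .dead .dead (.br 10 (.br 11 .dead (.br 14 .dead (.br 12 (.br 13 .dead .dead .dead (.br 15 .dead .dead (.br 16 .dead .dead .dead (.br 19 .dead .dead .dead (.br 20 .dead (.br 21 .dead .dead (.br 17 .dead (.br 22 .dead .dead .dead (.br 23 .dead (.br 24 (.br 18 (.kem 1 2 3 8405768) .dead (.kem 0 1 8 154880) .dead) .dead .dead .dead) .dead .dead)) .dead .dead) .dead) .dead .dead)))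 (.br 16 .dead .dead (.br 17 .dead (.br 19 .dead .dead (.br 18 (.br 20 .dead (.br 21 .dead .dead .dead (.br 22 .dead .dead (.br 24 (.br 23 .dead (.kem 2 3 15 6914048) .dead (.kem 1 2 3 541448)) .dead .dead .dead) .dead)) .dead .dead) .dead .dead .dead) .dead) .dead .dead) .dead))) .dead (.br 13 (.br 15 .dead .dead (.br 19 .dead .dead .dead (.br 18 .dead .dead (.br 20 .dead (.br 22 .dead .dead .dead (.br 17 .dead (.br 21 .dead .dead (.br 23 .dead (.br 24 (.br 16 (.kem 1 3 4 1051024) .dead .dead (.kem 0 1 8 158976)) .dead .dead .dead) .dead .dead) .dead) .dead .dead)) .dead .dead) .dead)) (.br 16 (.br 19 .dead .dead (.br 18 .dead .dead .dead (.br 17 .dead (.br 22 .dead .dead (.br 21 .dead .dead .dead (.br 23 .dead (.br 24 (.br 20 .dead (.kem 2 3 15 7110656) (.kem 1 3 4 35216) .dead) .dead .dead .dead) .dead .dead)) .dead) .dead .dead)) .dead) .dead .dead .dead)) .dead .dead (.kem 0 1 8 256)) .dead) .dead .dead) .dead .dead) (.br 11 (.br 12 .dead .dead (.br 14 (.br 13 .dead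 .dead .dead (.kem 0 1 8 256)) .dead .dead .dead) .dead) .dead .dead .dead) .dead .dead) .dead) .dead .dead)) .dead))

def t5_7 : Tree :=
  (.br 0 (.br 1 .dead (.br 5 .dead .dead t5_4 (.br 6 (.br 2 .dead .dead (.br 7 .dead (.br 3 (.br 8 .dead .dead (.br 9 .dead (.br 4 .dead .dead .dead (.br 10 .dead (.br 11 .dead .dead (.br 12 (.br 13 .dead .dead .dead (.br 14 (.kem 2 3 5 32) .dead (.br 15 (.br 19 .dead .dead .dead (.br 23 .dead (.br 18 (.br 22 .dead .dead .dead (.br 21 .dead .dead (.br 17 .dead (.kem 0 2 14 278528) .dead .dead) .dead)) .dead .dead .dead) .dead .dead)) .dead .dead (.br 16 .dead (.br 17 .dead .dead (.br 19 (.br 18 .dead (.br 20 .dead .dead (.br 21 .dead .dead .dead (.br 22 (.br 23 .dead .dead .dead (.br 24 .dead (.kem 0 2 2 4331852) .dead .dead)) .dead .dead .dead)) .dead) .dead .dead) .dead .dead .dead) .dead) .dead .dead)) .dead)) .dead .dead (.br 13 (.br 14 .dead .dead (.br 15 (.br 16 .dead (.br 17 .dead .dead (.br 19 .dead .dead .dead (.br 18 .dead (.kem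 0 3 12 12288) .dead .dead)) .dead) .dead .dead) .dead .dead (.br 19 (.br 16 (.br 17 .dead (.br 18 .dead .dead .dead (.br 22 (.br 23 .dead (.kem 2 3 4 19962128) .dead .dead) .dead .dead .dead)) (.br 21 .dead .dead .dead (.br 22 (.br 18 .dead (.kem 2 3 5 16416) .dead (.kem 1 2 17 131072)) .dead .dead .dead)) .dead) (.br 17 .dead .dead (.br 20 .dead .dead (.br 21 .dead .dead .dead (.kem 0 1 16 65536)) .dead) .dead) .dead .dead) .dead .dead .dead)) .dead) .dead .dead .dead)) (.br 12 (.br 13 .dead .dead .dead (.br 14 (.kem 2 3 5 32) .dead (.br 15 (.br 19 .dead .dead .dead (.br 23 .dead (.br 18 (.br 22 .dead .dead .dead (.br 21 .dead .dead (.br 16 .dead (.kem 2 3 11 2048) .dead .dead) .dead)) .dead .dead .dead) .dead .dead)) .dead (.br 16 .dead (.br 20 .dead .dead .dead .dead) .dead .dead) .dead) .dead)) .dead .dead .dead)) (.br 11 .dead .dead .dead (.br 12 (.br 13 .dead .dead .dead (.br 14 (.br 15 (.br 16 .dead (.br 17 .dead .dead (.br 18 .dead (.br 19 .dead .dead .dead (.kem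 1 2 10 1024)) .dead .dead) .dead) (.br 17 .dead (.br 18 .dead .dead (.br 20 .dead (.br 21 .dead .dead .dead (.kem 0 2 2 30266700)) .dead .dead) .dead) .dead .dead) .dead) (.br 16 .dead .dead (.br 20 .dead .dead .dead .dead) .dead) .dead .dead) .dead .dead .dead)) .dead .dead .dead)) .dead)) .dead .dead) (.br 4 .dead (.br 9 .dead .dead (.br 10 .dead (.br 14 (.br 13 .dead (.br 11 .dead .dead (.br 12 (.kem 2 3 5 800) .dead .dead .dead) (.br 12 (.kem 2 3 5 800) .dead (.br 15 (.br 16 .dead (.br 17 (.kem 2 3 5 6944) .dead .dead (.kem 0 2 12 4096)) .dead .dead) .dead (.br 19 .dead .dead .dead (.br 24 .dead .dead .dead .dead)) .dead) .dead)) .dead .dead) .dead .dead .dead) (.br 11 .dead .dead .dead (.br 12 (.br 13 .dead (.br 14 (.br 15 (.br 16 .dead (.br 17 .dead .dead (.br 18 .dead .dead .dead (.br 19 .dead (.kem 2 3 5 3872) .dead .dead)) (.br 18 .dead .dead (.br 21 .dead .dead (.br 20 .dead .dead .dead (.br 22 (.br 24 .dead .dead (.br 19 .dead (.kem 2 3 5 3872) .dead (.kem 1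 2 10 1024)) .dead) .dead .dead .dead)) .dead) .dead)) (.br 17 .dead .dead .dead (.br 21 .dead .dead .dead .dead)) .dead) (.br 16 .dead .dead (.br 17 .dead .dead .dead (.br 21 .dead .dead .dead .dead)) .dead) .dead .dead) .dead .dead .dead) .dead .dead) .dead (.br 13 (.br 14 .dead (.br 15 (.br 16 .dead (.br 17 .dead .dead .dead (.br 18 .dead .dead (.br 19 .dead .dead .dead (.br 21 .dead .dead (.br 20 .dead .dead .dead (.br 22 (.br 23 .dead (.kem 2 3 5 20848416) .dead .dead) .dead .dead .dead)) .dead)) .dead)) .dead .dead) (.br 16 (.br 17 .dead (.br 18 .dead .dead (.br 19 (.kem 2 3 5 7968) .dead .dead (.br 23 .dead (.br 24 .dead .dead (.kem 0 3 19 524288) .dead) .dead .dead)) (.br 19 (.kem 2 3 5 7968) .dead .dead .dead)) .dead (.br 18 .dead .dead (.br 21 .dead .dead (.br 20 .dead .dead .dead (.br 22 (.kem 1 3 17 131072) .dead .dead .dead)) .dead) .dead)) .dead .dead .dead) .dead .dead) .dead .dead) (.br 14 (.br 15 (.br 16 .dead (.br 17 (.br 22 .dead .dead .dead (.br 18 .dead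 .dead (.br 21 .dead .dead (.br 20 .dead .dead .dead (.br 23 .dead (.br 19 .dead .dead .dead (.kem 1 2 10 1024)) .dead .dead)) .dead) .dead)) .dead .dead (.kem 0 2 12 4096)) .dead .dead) (.br 16 (.br 17 .dead .dead .dead (.br 18 .dead .dead (.br 19 .dead .dead .dead (.kem 0 1 13 24576)) .dead)) .dead .dead .dead) .dead .dead) .dead .dead .dead) .dead .dead) .dead)) .dead) .dead) (.br 9 .dead (.br 10 .dead (.br 11 .dead .dead (.br 12 (.br 13 .dead .dead (.br 14 (.kem 2 3 5 32) .dead .dead .dead) .dead) .dead .dead .dead) (.br 12 (.br 13 .dead .dead (.br 14 (.kem 2 3 5 32) .dead .dead .dead) .dead) .dead (.br 13 (.br 14 .dead .dead (.br 15 (.br 16 .dead (.br 17 .dead .dead .dead (.br 18 .dead (.br 19 .dead .dead .dead (.kem 0 2 12 28672)) .dead .dead)) .dead .dead) .dead (.br 16 (.br 17 .dead (.br 18 .dead .dead .dead (.br 19 (.br 22 (.br 23 .dead (.kem 2 3 5 278560) .dead .dead) .dead .dead .dead) .dead .dead .dead)) .dead (.br 18 .dead (.br 21 .dead .dead (.br 22 (.br 23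 .dead .dead .dead (.br 19 (.kem 2 3 5 16416) .dead .dead .dead)) .dead .dead .dead) .dead) .dead .dead)) (.br 17 .dead .dead .dead (.br 18 .dead (.br 20 .dead .dead .dead (.br 21 .dead .dead (.kem 0 1 16 65536) .dead)) .dead .dead)) .dead .dead) .dead) .dead) .dead .dead .dead) .dead)) (.br 11 .dead .dead .dead (.br 14 (.br 13 .dead .dead (.br 12 (.br 15 (.br 16 .dead (.br 17 .dead .dead .dead (.br 18 .dead (.br 19 .dead .dead .dead (.kem 1 2 10 1024)) .dead .dead)) (.br 21 .dead .dead .dead (.br 17 .dead (.br 18 .dead .dead .dead (.br 19 .dead (.br 23 .dead .dead .dead .dead) .dead .dead)) .dead .dead)) .dead) (.br 16 .dead .dead (.br 19 .dead .dead .dead (.br 24 .dead .dead .dead .dead)) .dead) .dead .dead) .dead .dead .dead) .dead) .dead .dead .dead)) .dead) .dead .dead) .dead)) .dead .dead (.br 4 .dead (.br 9 .dead .dead (.br 8 (.br 10 .dead (.br 14 (.br 11 .dead .dead (.br 12 .dead .dead .dead (.br 13 .dead (.kem 2 3 5 544) .dead .dead)) (.br 12 .dead .dead (.br 13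 .dead (.kem 2 3 5 544) .dead (.br 15 (.br 16 .dead (.br 17 (.br 22 .dead .dead .dead (.br 21 .dead .dead (.br 20 .dead .dead .dead (.br 24 .dead .dead (.br 19 .dead .dead .dead (.br 18 .dead (.kem 0 2 2 25198660) (.kem 1 3 13 8192) .dead)) .dead)) .dead)) .dead .dead .dead) .dead .dead) .dead (.br 19 .dead .dead .dead (.br 20 .dead .dead .dead (.br 21 .dead .dead (.br 24 (.br 23 .dead (.br 18 .dead .dead (.br 16 (.br 17 .dead (.br 22 (.kem 2 3 5 3979808) .dead .dead (.kem 0 2 2 68)) .dead .dead) (.kem 0 2 15 16809984) .dead .dead) .dead) .dead .dead) .dead .dead .dead) .dead))) .dead)) .dead)) .dead .dead .dead) (.br 11 .dead .dead .dead (.br 12 .dead .dead (.br 13 .dead (.br 14 (.br 15 (.br 16 .dead (.br 24 .dead .dead (.br 20 .dead .dead .dead (.br 21 .dead .dead (.br 17 (.br 22 .dead .dead .dead (.br 18 .dead .dead (.br 19 .dead (.kem 0 3 3 12714248) .dead (.kem 1 2 10 1024)) .dead)) .dead .dead (.br 18 .dead .dead (.br 22 (.kem 1 3 3 10168472) .dead .dead .dead) .dead))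 .dead)) .dead) .dead .dead) (.br 16 (.br 17 .dead .dead .dead (.br 18 .dead .dead (.br 19 .dead .dead .dead (.br 21 .dead .dead (.br 20 .dead .dead .dead (.br 22 (.kem 1 3 3 26773656) .dead .dead .dead)) .dead)) .dead)) .dead .dead .dead) .dead .dead) .dead .dead .dead) .dead (.br 14 (.br 15 (.br 16 .dead (.br 17 (.br 22 .dead .dead .dead (.br 21 .dead .dead (.br 20 .dead .dead .dead (.br 24 .dead .dead (.br 18 .dead (.br 19 .dead .dead .dead (.kem 1 2 10 1024)) (.kem 1 3 13 8192) .dead) .dead)) .dead)) .dead .dead .dead) .dead .dead) (.br 16 (.br 17 .dead (.br 18 .dead .dead (.br 19 .dead .dead .dead (.br 20 .dead .dead (.br 21 .dead .dead .dead (.br 22 (.kem 1 3 3 25725080) .dead .dead .dead)) (.br 21 .dead .dead (.br 22 (.kem 1 3 3 26773656) .dead .dead (.br 23 (.kem 1 3 3 18385048) (.kem 0 3 22 4194304) .dead .dead)) .dead))) .dead) .dead .dead) .dead .dead .dead) .dead .dead) (.br 15 (.br 16 .dead (.br 17 (.br 18 .dead .dead (.br 19 .dead .dead .dead (.kem 0 1 14 16384))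 .dead) .dead .dead .dead) .dead .dead) (.br 16 (.br 17 .dead (.br 18 (.br 19 .dead .dead .dead (.br 22 .dead .dead .dead (.br 21 .dead .dead (.br 20 .dead .dead .dead (.kem 0 2 2 25429060)) .dead))) .dead (.br 19 (.br 23 .dead (.br 24 .dead .dead (.kem 0 3 3 8456) .dead) .dead .dead) .dead .dead (.kem 0 1 14 16384)) .dead) .dead .dead) .dead .dead .dead) .dead .dead) .dead .dead)) .dead)) .dead) .dead .dead .dead) .dead) (.br 8 (.br 9 .dead (.br 10 .dead (.br 11 .dead .dead (.br 12 .dead .dead .dead (.br 13 .dead .dead (.br 14 (.kem 2 3 5 32) .dead .dead .dead) .dead)) (.br 12 .dead .dead (.br 13 .dead .dead .dead (.br 14 (.kem 2 3 5 32) .dead (.br 15 (.br 16 .dead (.br 17 (.br 18 .dead (.br 19 .dead .dead .dead (.kem 0 2 14 16384)) .dead .dead) .dead .dead .dead) .dead .dead) .dead (.br 16 (.br 17 .dead (.br 18 (.br 19 .dead .dead .dead (.br 22 .dead .dead .dead (.br 21 .dead .dead (.br 23 .dead (.kem 0 2 2 68) .dead .dead) .dead))) .dead .dead .dead) .dead .dead) (.br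 17 (.br 18 .dead (.br 20 .dead .dead .dead (.br 21 .dead .dead (.br 22 .dead .dead .dead (.br 23 (.br 19 .dead .dead .dead (.kem 0 2 14 16384)) .dead .dead .dead)) .dead)) .dead .dead) .dead .dead .dead) .dead .dead) .dead) .dead)) .dead)) (.br 11 .dead .dead .dead (.br 12 .dead .dead (.br 13 .dead .dead .dead (.br 14 (.br 15 (.br 16 .dead (.br 17 (.br 20 .dead .dead .dead (.br 21 .dead .dead (.br 22 .dead .dead .dead (.br 24 .dead (.br 19 .dead .dead .dead (.kem 1 2 10 1024)) .dead .dead)) .dead)) .dead .dead .dead) .dead .dead) (.br 16 (.br 17 .dead (.br 18 .dead .dead (.br 19 .dead .dead .dead (.br 20 .dead .dead .dead (.br 21 .dead .dead (.br 24 (.kem 1 2 4 528) .dead .dead .dead) .dead))) .dead) .dead .dead) .dead .dead .dead) .dead .dead) .dead .dead .dead)) .dead)) .dead) .dead .dead) .dead .dead .dead) .dead)) .dead t5_5) (.kem 2 3 2 33554364)) .dead (.br 2 t5_6 .dead .dead (.kem 2 3 2 33554428)) .dead)) (.kem 1 2 1 33554430) (.kem 1 3 1 33554430)) (.kem 0 1 0 33554431)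 (.kem 0 2 0 33554431) (.kem 0 3 0 33554431))

def t5_root : Tree :=
  t5_7


def nbs5 : List ℕ := [3146290, 6291557, 12583114, 25166228, 17826569, 17987, 3238, 6476, 12952, 24881, 575584, 103616, 207232, 414464, 796192, 18418688, 3315712, 6631424, 13262848, 25478144, 18972689, 5439491, 10878982, 21757964, 9994264]

theorem enum5 : Enum (triangularTorus 5) 25 nbs5 (tvtx 5) :=
  Enum.mk' (by decide +kernel) (by decide +kernel) (by decide +kernel) (by decide +kernel)
    (by decide +kernel)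

theorem check5 : check 4 25 0 nbs5 17106181 1706506 10526896 4214848 t5_root 0 0 0 0 = true := by
  decide +kernel

theorem ergodic5 : WSKErgodic (triangularTorus 5) 4 :=
  ergodic_of_check enum5 le_rfl _ check5 (by decide +kernel)

end Pool.Agent.Lib.WSK
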