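import Mathlib
import Pool.Agent.Lib.WSK.Family

set_option autoImplicit false
set_option maxRecDepth 100000

/-!
# Base tables
-/

namespace Pool.Agent.Lib.WSK

def tb6e : ℕ → ℕ → Fin 4 := tab [2340, 1170, 585, 2340, 1170, 585]

theorem tb6e_per : Per 6 tb6e := by unfold Per; decide +kernel

theorem tb6e_prop : PropT 6 tb6e := by unfold PropT; decide +kernel

theorem tb6e_s : S00 6 tb6e = 0 := by decide +kernel

theorem tb6e_t : T1 6 tb6e = 0 ∧ T2 6 tb6e = 0 ∧ T3 6 tb6e = 0 := by decide +kernel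

theorem tb6e_realizes {n : ℕ} [NeZero n] (m : ℕ) (hn : n = 6 + 3 * m) : Realizes n 0 :=
  realizes_of_per m 6 hn (by norm_num) tb6e tb6e_per tb6e_prop tb6e_s tb6e_t.1 tb6e_t.2.1 tb6e_t.2.2

def tb13e : ℕ → ℕ → Fin 4 := tab [59630200, 41459143, 29848092, 52201953, 7501703, 25813624, 37002695, 31683102, 52267489, 6429830, 59630200, 20221219, 13792413]

theorem tb13e_per : Per 13 tb13e := by unfold Per; decide +kernel

theorem tb13e_prop : PropT 13 tb13e := by unfold PropT; decide +kernel

theorem tb13e_s : S00 13 tb13e = 0 := by decide +kernel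

theorem tb13e_t : T1 13 tb13e = 0 ∧ T2 13 tb13e = 0 ∧ T3 13 tb13e = 0 := by decide +kernel

theorem tb13e_realizes {n : ℕ} [NeZero n] (m : ℕ) (hn : n = 13 + 3 * m) : Realizes n 0 :=
  realizes_of_per m 13 hn (by norm_num) tb13e tb13e_per tb13e_prop tb13e_s tb13e_t.1 tb13e_t.2.1 tb13e_t.2.2

def tb11e : ℕ → ℕ → Fin 4 := tab [1866540, 3327122, 601721, 2593223, 1866540, 3327122, 601721, 2593223, 1866540, 3269809, 398022]

theorem tb11e_per : Per 11 tb11e := by unfold Per; decide +kernel

theorem tb11e_prop : PropT 11 tb11e := by unfold PropT; decide +kernel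

theorem tb11e_s : S00 11 tb11e = 0 := by decide +kernel

theorem tb11e_t : T1 11 tb11e = 0 ∧ T2 11 tb11e = 0 ∧ T3 11 tb11e = 0 := by decide +kernel

theorem tb11e_realizes {n : ℕ} [NeZero n] (m : ℕ) (hn : n = 11 + 3 * m) : Realizes n 0 :=
  realizes_of_per m 11 hn (by norm_num) tb11e tb11e_per tb11e_prop tb11e_s tb11e_t.1 tb11e_t.2.1 tb11e_t.2.2

def tb6os : ℕ → ℕ → Fin 4 := tab [2184, 1911, 2184, 1911, 2184, 1911]

theorem tb6os_prop : PropT 6 tb6os := by unfold PropT; decide +kernel

theorem tb6os_s : S00 6 tb6os = 2 := by decide +kernel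

theorem tb6os_realizes {n : ℕ} [NeZero n] (hn : n = 6) : Realizes n 2 := by
  subst hn
  exact realizes_of_tab _ (by norm_num) tb6os tb6os_prop tb6os_s

def tb8o : ℕ → ℕ → Fin 4 := tab [29404, 34593, 14494, 59249, 7307, 29404, 52066, 7559]

theorem tb8o_per : Per 8 tb8o := by unfold Per; decide +kernel

theorem tb8o_prop : PropT 8 tb8o := by unfold PropT; decide +kernel

theorem tb8o_s : S00 8 tb8o = 2 := by decide +kernel

theorem tb8o_t : T1 8 tb8o = 0 ∧ T2 8 tb8o = 0 ∧ T3 8 tb8o = 0 := by decide +kernel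

theorem tb8o_realizes {n : ℕ} [NeZero n] (m : ℕ) (hn : n = 8 + 3 * m) : Realizes n 2 :=
  realizes_of_per m 8 hn (by norm_num) tb8o tb8o_per tb8o_prop tb8o_s tb8o_t.1 tb8o_t.2.1 tb8o_t.2.2

def tb9os : ℕ → ℕ → Fin 4 := tab [139812, 122322, 34953, 161652, 116875, 141172, 121995, 139892, 122315]

theorem tb9os_prop : PropT 9 tb9os := by unfold PropT; decide +kernel

theorem tb9os_s : S00 9 tb9os = 2 := by decide +kernel

theorem tb9os_realizes {n : ℕ} [NeZero n] (hn : n = 9) : Realizes n 2 := by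
  subst hn
  exact realizes_of_tab _ (by norm_num) tb9os tb9os_prop tb9os_s

def tb10os : ℕ → ℕ → Fin 4 := tab [559240, 489335, 559240, 489335, 559240, 489335, 559240, 489335, 559240, 489335]

theorem tb10os_prop : PropT 10 tb10os := by unfold PropT; decide +kernel

theorem tb10os_s : S00 10 tb10os = 2 := by decide +kernel

theorem tb10os_realizes {n : ℕ} [NeZero n] (hn : n = 10) : Realizes n 2 := by
  subst hn
  exact realizes_of_tab _ (by norm_num) tb10os tb10os_prop tb10os_s

def tb8es : ℕ → ℕ → Fin 4 := tab [34952, 30583, 34952, 30583, 34952, 30583, 34952, 30583]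

theorem tb8es_prop : PropT 8 tb8es := by unfold PropT; decide +kernel

theorem tb8es_s : S00 8 tb8es = 0 := by decide +kernel

theorem tb8es_realizes {n : ℕ} [NeZero n] (hn : n = 8) : Realizes n 0 := by
  subst hn
  exact realizes_of_tab _ (by norm_num) tb8es tb8es_prop tb8es_s

def tb15o : ℕ → ℕ → Fin 4 := tab [414654936, 591951395, 506955998, 836269921, 102992006, 954103672, 663341191, 477570936, 562601505, 238516702, 970491681, 119658679, 414654936, 567850785, 119658679]

theorem tb15o_per : Per 15 tb15o := by unfold Per; decide +kernel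

theorem tb15o_prop : PropT 15 tb15o := by unfold PropT; decide +kernel

theorem tb15o_s : S00 15 tb15o = 2 := by decide +kernel

theorem tb15o_t : T1 15 tb15o = 0 ∧ T2 15 tb15o = 0 ∧ T3 15 tb15o = 0 := by decide +kernel

theorem tb15o_realizes {n : ℕ} [NeZero n] (m : ℕ) (hn : n = 15 + 3 * m) : Realizes n 2 :=
  realizes_of_per m 15 hn (by norm_num) tb15o tb15o_per tb15o_prop tb15o_s tb15o_t.1 tb15o_t.2.1 tb15o_t.2.2

def tb13o : ℕ → ℕ → Fin 4 := tab [29864524, 53233974, 11646171, 38194028, 32269490, 51482185, 8075575, 25465752, 37452083, 6366438, 29864524, 52316473, 7415015]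

theorem tb13o_per : Per 13 tb13o := by unfold Per; decide +kernel

theorem tb13o_prop : PropT 13 tb13o := by unfold PropT; decide +kernel

theorem tb13o_s : S00 13 tb13o = 2 := by decide +kernel

theorem tb13o_t : T1 13 tb13o = 0 ∧ T2 13 tb13o = 0 ∧ T3 13 tb13o = 0 := by decide +kernel

theorem tb13o_realizes {n : ℕ} [NeZero n] (m : ℕ) (hn : n = 13 + 3 * m) : Realizes n 2 :=
  realizes_of_per m 13 hn (by norm_num) tb13o tb13o_per tb13o_prop tb13o_s tb13o_t.1 tb13o_t.2.1 tb13o_t.2.2

def tb10es : ℕ → ℕ → Fin 4 := tab [821380, 450014, 805000, 649079, 298120, 751223, 297160, 751463, 297100, 751481]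

theorem tb10es_prop : PropT 10 tb10es := by unfold PropT; decide +kernel

theorem tb10es_s : S00 10 tb10es = 0 := by decide +kernel

theorem tb10es_realizes {n : ℕ} [NeZero n] (hn : n = 10) : Realizes n 0 := by
  subst hn
  exact realizes_of_tab _ (by norm_num) tb10es tb10es_prop tb10es_s

def tb12os : ℕ → ℕ → Fin 4 := tab [13142148, 7200222, 12880008, 10385271, 4769928, 12019575, 4754568, 12023415, 4753608, 12023655, 4753548, 12023673]

theorem tb12os_prop : PropT 12 tb12os := by unfold PropT; decide +kernel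

theorem tb12os_s : S00 12 tb12os = 2 := by decide +kernel

theorem tb12os_realizes {n : ℕ} [NeZero n] (hn : n = 12) : Realizes n 2 := by
  subst hn
  exact realizes_of_tab _ (by norm_num) tb12os tb12os_prop tb12os_s

theorem nonergodic {n : ℕ} (hn : n = 6 ∨ 8 ≤ n) : ¬ WSKErgodic (triangularTorus n) 4 := by
  have hn2 : 2 ≤ n := by omega
  have : NeZero n := ⟨by omega⟩
  have h02 : (0 : ZMod 4) ≠ 2 := by decide
  suffices h : Realizes n 0 ∧ Realizes n 2 from nonergodic_of_realizes hn2 h02 h.1 h.2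
  have hmod : n % 3 = 0 ∨ n % 3 = 1 ∨ n % 3 = 2 := by omega
  rcases hmod with h3 | h3 | h3
  · refine ⟨tb6e_realizes ((n - 6) / 3) (by omega), ?_⟩
    by_cases h6 : n = 6
    · exact tb6os_realizes h6
    by_cases h9 : n = 9
    · exact tb9os_realizes h9
    by_cases h12 : n = 12
    · exact tb12os_realizes h12
    exact tb15o_realizes ((n - 15) / 3) (by omega)
  · by_cases h10 : n = 10
    · exact ⟨tb10es_realizes h10, tb10os_realizes h10⟩
    exact ⟨tb13e_realizes ((n - 13) / 3) (by omega), tb13o_realizes ((n - 13) / 3) (by omega)⟩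
  · refine ⟨?_, tb8o_realizes ((n - 8) / 3) (by omega)⟩
    by_cases h8 : n = 8
    · exact tb8es_realizes h8
    exact tb11e_realizes ((n - 11) / 3) (by omega)

end Pool.Agent.Lib.WSK
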